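import Pool.Agent.FPS.Targets2

set_option autoImplicit false

/-!
# FPS: AHN, almost homomorphisms are contractive (helper12)
-/

open scoped Classical
open MeasureTheory Pool.Agent.FPZ

noncomputable section

namespace Pool.Agent.FPS

namespace AHN_

/-- the norm of a multiple of the identity matrix -/
theorem opn_smul_one {n : Type} [Fintype n] (c : ℂ) :
    opn (c • (1 : Matrix n n ℂ)) ≤ ‖c‖ := by
  unfold opn
  rw [map_smul, map_one]
  rw [norm_smul]
  have h1 : ‖(1 : EuclideanSpace ℂ n →L[ℂ] EuclideanSpace ℂ n)‖ ≤ 1 :=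
    ContinuousLinearMap.norm_id_le
  exact mul_le_of_le_one_right (norm_nonneg c) h1

theorem opn_unit (N : Matrix Unit Unit ℂ) (c : ℂ) (h : ∀ i j, N i j = c) : opn N ≤ ‖c‖ := by
  refine le_trans (le_of_eq ?_) (opn_smul_one (n := Unit) c)
  congr 1
  ext i j
  have h1 : (1 : Matrix Unit Unit ℂ) i j = 1 := by
    rw [Subsingleton.elim i j]
    exact Matrix.one_apply_eq j
  rw [h, Matrix.smul_apply, smul_eq_mul]
  have h2 : ∀ (D : DecidableEq Unit), (@One.one (Matrix Unit Unit ℂ)
      (@Matrix.one Unit ℂ D _ _)) i j = 1 := by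
    intro D
    rw [Subsingleton.elim D (instDecidableEqPUnit)]
    exact h1
  have h3 := h2 (fun a b => Classical.propDecidable (a = b))
  calc c = c * 1 := (mul_one c).symm
    _ = _ := by rw [← h3]; rfl

theorem norm_one_le {A : Type} [CStarAlgebra A] : ‖(1 : A)‖ ≤ 1 := by
  rcases subsingleton_or_nontrivial A with h | h
  · rw [Subsingleton.elim (1 : A) 0, norm_zero]
    exact zero_le_one
  · exact (CStarRing.norm_one (E := A)).le

end AHN_

/-- AHN: almost homomorphisms are contractive -/
theorem p_AHN (h_CPM : T_CPM) : T_AHN := by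
  intro K A _ _ _ _ H δ L hL f
  have hL0 : AH ∅ 0 L := ⟨hL.add, hL.smul, hL.one, hL.str, hL.pos, fun f hf => by simp at hf⟩
  set M : C(K, Matrix Unit Unit ℂ) :=
    ⟨fun x => fun _ _ => f x, continuous_pi fun _ => continuous_pi fun _ => f.continuous⟩ with hM
  have hτ : ‖∑ a : Unit, (fun _ : Unit => (1 : A)) a * star ((fun _ : Unit => (1 : A)) a)‖ ≤ 1 := by
    simp only [Finset.univ_unique, star_one, mul_one, Finset.sum_const, Finset.card_singleton,
      one_smul]
    exact AHN_.norm_one_le
  have h1 := (h_CPM K Unit A L (fun _ => 1) M hL0 hτ).1 ‖f‖ (norm_nonneg f) fun x =>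
    (AHN_.opn_unit (M x) (f x) fun _ _ => rfl).trans (f.norm_coe_le_norm x)
  have h2 : ent M () () = f := by
    ext x
    rfl
  simpa [h2] using h1

end Pool.Agent.FPS
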