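import Pool.Agent.FPS.Targets2

set_option autoImplicit false

/-!
# FPS: amplifications of close maps (target T_AMC)
-/

open scoped Classical
open MeasureTheory Pool.Agent.FPZ

noncomputable section

namespace Pool.Agent.FPS

namespace AMC_

variable {n A : Type} [Fintype n] [CStarAlgebra A]

/-- the isometries start in `E` -/
theorem mulE {E t : A} (hE : IsStarProjection E) (h : star t * t = E) : t * E = t := by
  have h1 : E * E = E := hE.isIdempotentElem
  have h2 : star E = E := hE.isSelfAdjoint
  have h3 : star (t * E - t) * (t * E - t) = 0 := by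
    calc star (t * E - t) * (t * E - t) =
        star E * (star t * t) * E - star E * (star t * t) - (star t * t) * E + star t * t := by
          rw [star_sub, star_mul]; noncomm_ring
      _ = 0 := by rw [h, h2, h1, h1]; noncomm_ring
  exact sub_eq_zero.1 ((CStarRing.star_mul_self_eq_zero_iff _).1 h3)

/-- the sum of the ranges is a projection -/
theorem projQ {E : A} {τ : n → A} (hE : IsStarProjection E) (h : PI E τ) :
    IsStarProjection (∑ a, τ a * star (τ a)) := by
  constructor
  · show (∑ a, τ a * star (τ a)) * (∑ a, τ a * star (τ a)) = ∑ a, τ a * star (τ a)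
    rw [Finset.sum_mul]
    refine Finset.sum_congr rfl fun a _ => ?_
    rw [Finset.mul_sum, Finset.sum_eq_single a]
    · calc τ a * star (τ a) * (τ a * star (τ a)) = τ a * (star (τ a) * τ a) * star (τ a) := by
            noncomm_ring
        _ = τ a * star (τ a) := by rw [h.1 a, mulE hE (h.1 a)]
    · intro b _ hb
      calc τ a * star (τ a) * (τ b * star (τ b)) = τ a * (star (τ a) * τ b) * star (τ b) := by
            noncomm_ring
        _ = 0 := by rw [h.2 a b (Ne.symm hb)]; noncomm_ring
    · intro ha
      exact absurd (Finset.mem_univ a) ha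
  · show star (∑ a, τ a * star (τ a)) = ∑ a, τ a * star (τ a)
    rw [star_sum]
    refine Finset.sum_congr rfl fun a _ => ?_
    rw [star_mul, star_star]

/-- the maps `L` and `cmp k E L` have the same corners -/
theorem corner {K : Type} [TopologicalSpace K] (k : K) {E s t : A} (L : C(K, ℂ) → A)
    (hE : IsStarProjection E) (hs : star s * s = E) (ht : star t * t = E) (g : C(K, ℂ)) :
    s * L g * star t = s * cmp k E L g * star t := by
  have h1 := mulE hE hs
  have h2 : E * star t = star t := by
    have h3 := congrArg star (mulE hE ht)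
    rw [star_mul, hE.isSelfAdjoint.star_eq] at h3
    exact h3
  have h4 : s * (1 - E) = 0 := by rw [mul_sub, mul_one, h1, sub_self]
  unfold cmp
  calc s * L g * star t = (s * E) * L g * (E * star t) := by rw [h1, h2]
    _ = s * (E * L g * E) * star t + g k • ((s * (1 - E)) * star t) := by
        rw [h4, zero_mul, smul_zero, add_zero]
        noncomm_ring
    _ = s * (E * L g * E + g k • (1 - E)) * star t := by
        rw [mul_add, add_mul, mul_smul_comm, smul_mul_assoc]

theorem lin_sub {K : Type} [TopologicalSpace K] [CompactSpace K] {H : Finset C(K, ℂ)} {δ : ℝ}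
    {L : C(K, ℂ) → A} (h : AH H δ L) (f g : C(K, ℂ)) : L (f - g) = L f - L g := by
  have h1 : f - g = f + (-1 : ℂ) • g := by rw [neg_one_smul, sub_eq_add_neg]
  rw [h1, h.add, h.smul, neg_one_smul, sub_eq_add_neg]

end AMC_

theorem p_AMC (h_CPM : T_CPM) : T_AMC := by
  intro K K' n A _ _ _ _ _ _ _ _ k₀ k₀' E τ G δ₂ B L γ γ' f hE hτ hΛ hB hle
  have h0 : AH ∅ 0 (cmp k₀' E L) :=
    ⟨hΛ.add, hΛ.smul, hΛ.one, hΛ.str, hΛ.pos, fun f hf => absurd hf (Finset.notMem_empty f)⟩
  let M : C(K', Matrix n n ℂ) :=
    ⟨fun x => γ f x - γ' f x, (γ f).continuous.sub (γ' f).continuous⟩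
  have hM : ∀ a b, ent M a b = ent (γ f) a b - ent (γ' f) a b := fun a b => by
    ext x
    rfl
  have h1 := (h_CPM K' n A (cmp k₀' E L) τ M h0 (AMC_.projQ hE hτ).norm_le).1 B hB hle
  have h2 : amp k₀ τ L γ f - amp k₀ τ L γ' f =
      ∑ a, ∑ b, τ a * cmp k₀' E L (ent M a b) * star (τ b) := by
    unfold amp
    rw [add_sub_add_right_eq_sub, ← Finset.sum_sub_distrib]
    refine Finset.sum_congr rfl fun a _ => ?_
    rw [← Finset.sum_sub_distrib]
    refine Finset.sum_congr rfl fun b _ => ?_
    rw [AMC_.corner k₀' L hE (hτ.1 a) (hτ.1 b) (ent (γ f) a b),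
      AMC_.corner k₀' L hE (hτ.1 a) (hτ.1 b) (ent (γ' f) a b), hM, AMC_.lin_sub hΛ,
      mul_sub, sub_mul]
  rw [h2]
  exact h1

end Pool.Agent.FPS
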