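import Pool.Agent.FPS.Targets5

/-!
# FPS: AMM, amplification of an amplification
-/

set_option autoImplicit false

open scoped Classical
open Pool.Agent.FPZ

noncomputable section

namespace Pool.Agent.FPS

namespace AMM_

variable {A : Type} [CStarAlgebra A]

/-- An element whose source is the projection `E` is fixed by `E` on the right. -/
lemma mul_source {E x : A} (hE : IsStarProjection E) (h : star x * x = E) : x * E = x := by
  have hEE : E * E = E := hE.isIdempotentElem
  have hs : star E = E := hE.isSelfAdjoint
  have h0 : star (x * E - x) * (x * E - x) = 0 := by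
    have : star (x * E - x) * (x * E - x) =
        star E * (star x * x) * E - star E * (star x * x) - (star x * x) * E + star x * x := by
      rw [star_sub, star_mul]; noncomm_ring
    rw [this, h, hs, hEE, hEE]; abel
  have h1 : x * E - x = 0 := by
    rwa [CStarRing.star_mul_self_eq_zero_iff] at h0
  exact sub_eq_zero.1 h1

variable {n₁ n₂ : Type} [Fintype n₁] [Fintype n₂]

lemma star_mul_sum {E : A} {v : n₂ → A} (hE : IsStarProjection E) (hv : PI E v) (a b : n₂) :
    star (v a) * (∑ c, v c * star (v c)) * v b = if a = b then E else 0 := by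
  rw [Finset.mul_sum, Finset.sum_mul]
  rw [Finset.sum_eq_single a]
  · by_cases hab : a = b
    · subst hab
      rw [if_pos rfl]
      calc star (v a) * (v a * star (v a)) * v a
          = (star (v a) * v a) * (star (v a) * v a) := by noncomm_ring
        _ = E := by rw [hv.1, hE.isIdempotentElem]
    · rw [if_neg hab]
      calc star (v a) * (v a * star (v a)) * v b
          = (star (v a) * v a) * (star (v a) * v b) := by noncomm_ring
        _ = 0 := by rw [hv.2 a b hab, mul_zero]
  · intro c _ hc
    calc star (v a) * (v c * star (v c)) * v b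
        = (star (v a) * v c) * (star (v c) * v b) := by noncomm_ring
      _ = 0 := by rw [hv.2 a c (Ne.symm hc), zero_mul]
  · intro h; exact absurd (Finset.mem_univ _) h

lemma range_projection {E : A} {v : n₂ → A} (hE : IsStarProjection E) (hv : PI E v) :
    IsStarProjection (∑ c, v c * star (v c)) := by
  constructor
  · change (∑ c, v c * star (v c)) * (∑ c, v c * star (v c)) = ∑ c, v c * star (v c)
    rw [Finset.sum_mul]
    refine Finset.sum_congr rfl fun a _ => ?_
    rw [Finset.mul_sum, Finset.sum_eq_single a]
    · calc v a * star (v a) * (v a * star (v a)) = v a * (star (v a) * v a) * star (v a) := by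
            noncomm_ring
        _ = v a * star (v a) := by rw [hv.1, mul_source hE (hv.1 a)]
    · intro b _ hb
      calc v a * star (v a) * (v b * star (v b)) = v a * (star (v a) * v b) * star (v b) := by
            noncomm_ring
        _ = 0 := by rw [hv.2 a b (Ne.symm hb), mul_zero, zero_mul]
    · intro h; exact absurd (Finset.mem_univ _) h
  · change star (∑ c, v c * star (v c)) = ∑ c, v c * star (v c)
    rw [star_sum]
    refine Finset.sum_congr rfl fun a _ => ?_
    rw [star_mul, star_star]

end AMM_

open AMM_ in
theorem p_AMM : T_AMM := by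
  intro K₀ K₁ K₂ n₁ n₂ A _ _ _ _ _ _ k E₂ v σ L₁ L₂ γ κ Ψ hE hv hσ hL hΨ
  have hV := range_projection hE hv
  have hσV : ∀ i, σ i * (∑ c, v c * star (v c)) = σ i := fun i => mul_source hV (hσ.1 i)
  have hVσ : ∀ i, (∑ c, v c * star (v c)) * star (σ i) = star (σ i) := by
    intro i
    have h := congrArg star (hσV i)
    rw [star_mul, hV.isSelfAdjoint.star_eq] at h
    exact h
  have hrange : (∑ a : n₁ × n₂, σ a.1 * v a.2 * star (σ a.1 * v a.2)) =
      ∑ i, σ i * star (σ i) := by
    rw [Fintype.sum_prod_type]
    refine Finset.sum_congr rfl fun i _ => ?_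
    calc ∑ a, σ i * v a * star (σ i * v a)
        = ∑ a, σ i * (v a * star (v a)) * star (σ i) := by
          refine Finset.sum_congr rfl fun a _ => ?_
          rw [star_mul]; noncomm_ring
      _ = σ i * (∑ a, v a * star (v a)) * star (σ i) := by
          rw [Finset.mul_sum, Finset.sum_mul]
      _ = _ := by rw [hσV]
  refine ⟨⟨fun a => ?_, fun a b hab => ?_⟩, hrange, fun f => ?_⟩
  · change star (σ a.1 * v a.2) * (σ a.1 * v a.2) = E₂
    calc star (σ a.1 * v a.2) * (σ a.1 * v a.2)
        = star (v a.2) * (star (σ a.1) * σ a.1) * v a.2 := by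
          rw [star_mul]; noncomm_ring
      _ = E₂ := by rw [hσ.1, star_mul_sum hE hv, if_pos rfl]
  · change star (σ a.1 * v a.2) * (σ b.1 * v b.2) = 0
    have h1 : star (σ a.1 * v a.2) * (σ b.1 * v b.2)
        = star (v a.2) * (star (σ a.1) * σ b.1) * v b.2 := by
      rw [star_mul]; noncomm_ring
    rw [h1]
    by_cases h : a.1 = b.1
    · have h2 : a.2 ≠ b.2 := fun h2 => hab (Prod.ext h h2)
      rw [h, hσ.1, star_mul_sum hE hv, if_neg h2]
    · rw [hσ.2 _ _ h, mul_zero, zero_mul]
  · unfold amp
    rw [hrange]
    congr 1
    have hent : ∀ i j a b, ent (Ψ f) (i, a) (j, b) = ent (γ (ent (κ f) i j)) a b := by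
      intro i j a b
      ext x
      exact hΨ f x (i, a) (j, b)
    rw [Fintype.sum_prod_type]
    simp_rw [Fintype.sum_prod_type (f := fun y : n₁ × n₂ =>
      _ * L₂ (ent (Ψ f) _ y) * star (σ y.1 * v y.2))]
    refine Finset.sum_congr rfl fun i _ => ?_
    rw [Finset.sum_comm]
    refine Finset.sum_congr rfl fun j _ => ?_
    calc σ i * L₁ (ent (κ f) i j) * star (σ j)
        = (σ i * (∑ c, v c * star (v c))) * L₁ (ent (κ f) i j) *
          ((∑ c, v c * star (v c)) * star (σ j)) := by rw [hσV, hVσ]
      _ = σ i * ((∑ c, v c * star (v c)) * L₁ (ent (κ f) i j) *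
          (∑ c, v c * star (v c))) * star (σ j) := by
          simp only [mul_assoc]
      _ = ∑ a, ∑ b, σ i * (v a * L₂ (ent (γ (ent (κ f) i j)) a b) * star (v b)) *
          star (σ j) := by
          rw [hL, Finset.mul_sum, Finset.sum_mul]
          refine Finset.sum_congr rfl fun a _ => ?_
          rw [Finset.mul_sum, Finset.sum_mul]
      _ = _ := by
          refine Finset.sum_congr rfl fun a _ => ?_
          refine Finset.sum_congr rfl fun b _ => ?_
          rw [hent, star_mul]
          simp only [mul_assoc]

end Pool.Agent.FPS
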