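import Pool.Agent.FPS.Targets2

set_option autoImplicit false

/-!
# FPS: AMP, amplification of almost homomorphisms
-/

open scoped Classical
open MeasureTheory Pool.Agent.FPZ

noncomputable section

namespace Pool.Agent.FPS

namespace AMP_

section basic

variable {n A : Type} [Fintype n] [CStarAlgebra A] {E : A} {τ : n → A}

/-- The range projection. -/
def Q (τ : n → A) : A := ∑ a, τ a * star (τ a)

lemma mulE (hE : IsStarProjection E) (h : PI E τ) (a : n) : τ a * E = τ a := by
  have h1 : star (τ a - τ a * E) * (τ a - τ a * E) = 0 := by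
    have hs : star E = E := hE.isSelfAdjoint
    have hi : E * E = E := hE.isIdempotentElem
    rw [star_sub, star_mul, hs, sub_mul, mul_sub, mul_sub]
    have e1 : star (τ a) * (τ a * E) = E := by rw [← mul_assoc, h.1 a, hi]
    have e2 : E * star (τ a) * τ a = E := by rw [mul_assoc, h.1 a, hi]
    have e3 : E * star (τ a) * (τ a * E) = E := by rw [mul_assoc, e1, hi]
    rw [e1, e2, e3, h.1 a]
    simp
  have h2 := CStarRing.star_mul_self_eq_zero_iff (τ a - τ a * E) |>.mp h1
  exact (sub_eq_zero.mp h2).symm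

lemma Estar (hE : IsStarProjection E) (h : PI E τ) (a : n) : E * star (τ a) = star (τ a) := by
  have h1 := congrArg star (mulE hE h a)
  rwa [star_mul, (show star E = E from hE.isSelfAdjoint)] at h1

lemma star_Q (τ : n → A) : star (Q τ) = Q τ := by
  unfold Q
  rw [star_sum]
  refine Finset.sum_congr rfl fun a _ => ?_
  rw [star_mul, star_star]

lemma Q_mul (hE : IsStarProjection E) (h : PI E τ) (a : n) : Q τ * τ a = τ a := by
  unfold Q
  rw [Finset.sum_mul, Finset.sum_eq_single a]
  · rw [mul_assoc, h.1 a, mulE hE h a]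
  · intro b _ hb
    rw [mul_assoc, h.2 b a hb, mul_zero]
  · intro h1
    exact absurd (Finset.mem_univ a) h1

lemma mul_Q (hE : IsStarProjection E) (h : PI E τ) (a : n) : star (τ a) * Q τ = star (τ a) := by
  have h1 := congrArg star (Q_mul hE h a)
  rwa [star_mul, star_Q] at h1

lemma Q_proj (hE : IsStarProjection E) (h : PI E τ) : IsStarProjection (Q τ) := by
  refine ⟨?_, star_Q τ⟩
  show Q τ * Q τ = Q τ
  conv_lhs => rw [show Q τ = ∑ a, τ a * star (τ a) from rfl]
  rw [Finset.sum_mul]
  unfold Q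
  refine Finset.sum_congr rfl fun a _ => ?_
  rw [mul_assoc]
  congr 1
  exact mul_Q hE h a

lemma norm_proj {p : A} (h : IsStarProjection p) : ‖p‖ ≤ 1 := by
  have h1 : ‖star p * p‖ = ‖p‖ * ‖p‖ := CStarRing.norm_star_mul_self
  rw [(show star p = p from h.isSelfAdjoint), (show p * p = p from h.isIdempotentElem)] at h1
  by_contra hn
  nlinarith [norm_nonneg p]

lemma norm_tau (hE : IsStarProjection E) (h : PI E τ) (a : n) : ‖τ a‖ ≤ 1 := by
  have h1 : ‖star (τ a) * τ a‖ = ‖τ a‖ * ‖τ a‖ := CStarRing.norm_star_mul_self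
  rw [h.1 a] at h1
  have h2 := norm_proj hE
  by_contra hn
  nlinarith [norm_nonneg (τ a)]

/-- `∑ τ a Λ (M a b) star (τ b)` -/
def W {K' : Type} [TopologicalSpace K'] (τ : n → A) (Λ : C(K', ℂ) → A)
    (M : n → n → C(K', ℂ)) : A := ∑ a, ∑ b, τ a * Λ (M a b) * star (τ b)

lemma Q_W {K' : Type} [TopologicalSpace K'] (hE : IsStarProjection E) (h : PI E τ)
    (Λ : C(K', ℂ) → A) (M : n → n → C(K', ℂ)) : Q τ * W τ Λ M = W τ Λ M := by
  unfold W
  rw [Finset.mul_sum]
  refine Finset.sum_congr rfl fun a _ => ?_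
  rw [Finset.mul_sum]
  refine Finset.sum_congr rfl fun b _ => ?_
  rw [← mul_assoc, ← mul_assoc, Q_mul hE h a]

lemma W_Q {K' : Type} [TopologicalSpace K'] (hE : IsStarProjection E) (h : PI E τ)
    (Λ : C(K', ℂ) → A) (M : n → n → C(K', ℂ)) : W τ Λ M * Q τ = W τ Λ M := by
  unfold W
  rw [Finset.sum_mul]
  refine Finset.sum_congr rfl fun a _ => ?_
  rw [Finset.sum_mul]
  refine Finset.sum_congr rfl fun b _ => ?_
  rw [mul_assoc, mul_Q hE h b]

/-- `E` can be inserted -/
lemma cmp_eq {K' : Type} [TopologicalSpace K'] (hE : IsStarProjection E) (h : PI E τ) (k₀' : K')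
    (L : C(K', ℂ) → A) (g : C(K', ℂ)) (a b : n) :
    τ a * L g * star (τ b) = τ a * cmp k₀' E L g * star (τ b) := by
  have h1 : τ a * (1 - E) = 0 := by rw [mul_sub, mul_one, mulE hE h a, sub_self]
  have h2 : τ a * (E * L g * E) * star (τ b) = τ a * L g * star (τ b) := by
    calc τ a * (E * L g * E) * star (τ b) = τ a * E * L g * (E * star (τ b)) := by
          simp only [mul_assoc]
      _ = τ a * L g * star (τ b) := by rw [mulE hE h a, Estar hE h b]
  unfold cmp
  rw [mul_add, add_mul, h2, mul_smul_comm, h1, smul_zero, zero_mul, add_zero]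

lemma cmp_comm {K' : Type} [TopologicalSpace K'] (hE : IsStarProjection E) (k₀' : K')
    (L : C(K', ℂ) → A) (g : C(K', ℂ)) : cmp k₀' E L g * E = E * cmp k₀' E L g := by
  have hi : E * E = E := hE.isIdempotentElem
  have h1 : (1 - E) * E = 0 := by rw [sub_mul, one_mul, hi, sub_self]
  have h2 : E * (1 - E) = 0 := by rw [mul_sub, mul_one, hi, sub_self]
  unfold cmp
  rw [add_mul, mul_add, smul_mul_assoc, mul_smul_comm, h1, h2, smul_zero, add_zero, add_zero]
  calc E * L g * E * E = E * L g * (E * E) := by rw [mul_assoc]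
    _ = E * E * L g * E := by rw [hi]
    _ = E * (E * L g * E) := by simp only [mul_assoc]

/-- product of two sums -/
lemma W_mul {K' : Type} [TopologicalSpace K'] (hE : IsStarProjection E) (h : PI E τ)
    (Λ : C(K', ℂ) → A) (hc : ∀ g, Λ g * E = E * Λ g) (M N : n → n → C(K', ℂ)) :
    W τ Λ M * W τ Λ N = ∑ a, ∑ d, τ a * (∑ b, Λ (M a b) * Λ (N b d)) * star (τ d) := by
  have key : ∀ a b c d, (τ a * Λ (M a b) * star (τ b)) * (τ c * Λ (N c d) * star (τ d)) =
      if b = c then τ a * (Λ (M a b) * Λ (N b d)) * star (τ d) else 0 := by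
    intro a b c d
    by_cases hbc : b = c
    · subst hbc
      rw [if_pos rfl]
      calc (τ a * Λ (M a b) * star (τ b)) * (τ b * Λ (N b d) * star (τ d))
          = τ a * Λ (M a b) * (star (τ b) * τ b) * Λ (N b d) * star (τ d) := by
            simp only [mul_assoc]
        _ = τ a * Λ (M a b) * (E * Λ (N b d)) * star (τ d) := by
            rw [h.1 b]
            simp only [mul_assoc]
        _ = τ a * Λ (M a b) * Λ (N b d) * (E * star (τ d)) := by
            rw [← hc]
            simp only [mul_assoc]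
        _ = τ a * (Λ (M a b) * Λ (N b d)) * star (τ d) := by
            rw [Estar hE h d]
            simp only [mul_assoc]
    · rw [if_neg hbc]
      calc (τ a * Λ (M a b) * star (τ b)) * (τ c * Λ (N c d) * star (τ d))
          = τ a * Λ (M a b) * (star (τ b) * τ c) * Λ (N c d) * star (τ d) := by
            simp only [mul_assoc]
        _ = 0 := by
            rw [h.2 b c hbc]
            simp
  unfold W
  rw [Finset.sum_mul]
  refine Finset.sum_congr rfl fun a _ => ?_
  rw [Finset.sum_mul]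
  calc ∑ b, τ a * Λ (M a b) * star (τ b) * ∑ c, ∑ d, τ c * Λ (N c d) * star (τ d)
      = ∑ b, ∑ d, τ a * (Λ (M a b) * Λ (N b d)) * star (τ d) := by
        refine Finset.sum_congr rfl fun b _ => ?_
        rw [Finset.mul_sum, Finset.sum_eq_single b]
        · rw [Finset.mul_sum]
          refine Finset.sum_congr rfl fun d _ => ?_
          rw [key, if_pos rfl]
        · intro c _ hc'
          rw [Finset.mul_sum]
          refine Finset.sum_eq_zero fun d _ => ?_
          rw [key, if_neg (Ne.symm hc')]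
        · intro h1
          exact absurd (Finset.mem_univ b) h1
    _ = ∑ d, ∑ b, τ a * (Λ (M a b) * Λ (N b d)) * star (τ d) := Finset.sum_comm
    _ = ∑ d, τ a * (∑ b, Λ (M a b) * Λ (N b d)) * star (τ d) := by
        refine Finset.sum_congr rfl fun d _ => ?_
        rw [Finset.mul_sum, Finset.sum_mul]

end basic

section lin

variable {K' A : Type} [TopologicalSpace K'] [CompactSpace K'] [CStarAlgebra A]
  {G : Finset C(K', ℂ)} {δ : ℝ} {Λ : C(K', ℂ) → A}

lemma ah_zero (h : AH G δ Λ) : Λ 0 = 0 := by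
  have h1 := h.smul 0 0
  rwa [zero_smul, zero_smul] at h1

lemma ah_sub (h : AH G δ Λ) (f g : C(K', ℂ)) : Λ (f - g) = Λ f - Λ g := by
  have h1 : f - g = f + (-1 : ℂ) • g := by
    rw [neg_one_smul, sub_eq_add_neg]
  rw [h1, h.add, h.smul, neg_one_smul, sub_eq_add_neg]

lemma ah_sum (h : AH G δ Λ) {ι : Type} (s : Finset ι) (f : ι → C(K', ℂ)) :
    Λ (∑ i ∈ s, f i) = ∑ i ∈ s, Λ (f i) := by
  induction s using Finset.induction_on with
  | empty => rw [Finset.sum_empty, Finset.sum_empty, ah_zero h]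
  | insert a s ha ih => rw [Finset.sum_insert ha, Finset.sum_insert ha, h.add, ih]

lemma ah_empty (h : AH G δ Λ) : AH ∅ 0 Λ :=
  ⟨h.add, h.smul, h.one, h.str, h.pos, fun f hf => absurd hf (Finset.notMem_empty f)⟩

end lin

end AMP_

open AMP_ in
theorem p_AMP (hCPM : T_CPM) (hPSM : T_PSM) : T_AMP := by
  intro K K' n A _ _ _ _ _ _ _ _ k₀ k₀' E τ H G δ δ₂ L γ hE hτ hL hγ hδ hδ₂ hG
  set Λ : C(K', ℂ) → A := cmp k₀' E L with hΛ
  have hQ : IsStarProjection (Q τ) := Q_proj hE hτ
  have hQn : ‖∑ a, τ a * star (τ a)‖ ≤ 1 := norm_proj hQ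
  have hcomm : ∀ g, Λ g * E = E * Λ g := fun g => cmp_comm hE k₀' L g
  have hamp : ∀ f, amp k₀ τ L γ f = W τ Λ (ent (γ f)) + f k₀ • (1 - Q τ) := by
    intro f
    show ∑ a, ∑ b, τ a * L (ent (γ f) a b) * star (τ b) + f k₀ • (1 - ∑ a, τ a * star (τ a)) = _
    unfold W Q
    congr 1
    refine Finset.sum_congr rfl fun a _ => Finset.sum_congr rfl fun b _ => ?_
    exact cmp_eq hE hτ k₀' L _ a b
  have hQQ : Q τ * Q τ = Q τ := hQ.isIdempotentElem
  have hQ1 : Q τ * (1 - Q τ) = 0 := by rw [mul_sub, mul_one, hQQ, sub_self]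
  have h1Q : (1 - Q τ) * Q τ = 0 := by rw [sub_mul, one_mul, hQQ, sub_self]
  have h11 : (1 - Q τ) * (1 - Q τ) = 1 - Q τ := by rw [mul_sub, mul_one, h1Q, sub_zero]
  have hs1 : star (1 - Q τ) = 1 - Q τ := by rw [star_sub, star_one, star_Q]
  refine ⟨⟨?_, ?_, ?_, ?_, ?_, ?_⟩, ?_, hQ⟩
  · -- additivity
    intro f g
    rw [hamp, hamp, hamp]
    have h1 : W τ Λ (ent (γ (f + g))) = W τ Λ (ent (γ f)) + W τ Λ (ent (γ g)) := by
      unfold W
      rw [← Finset.sum_add_distrib]
      refine Finset.sum_congr rfl fun a _ => ?_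
      rw [← Finset.sum_add_distrib]
      refine Finset.sum_congr rfl fun b _ => ?_
      have h2 : ent (γ (f + g)) a b = ent (γ f) a b + ent (γ g) a b := by
        rw [hγ.add]
        rfl
      rw [h2, hL.add, mul_add, add_mul]
    rw [h1, ContinuousMap.add_apply, add_smul]
    abel
  · -- multiples
    intro c f
    rw [hamp, hamp]
    have h1 : W τ Λ (ent (γ (c • f))) = c • W τ Λ (ent (γ f)) := by
      unfold W
      rw [Finset.smul_sum]
      refine Finset.sum_congr rfl fun a _ => ?_
      rw [Finset.smul_sum]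
      refine Finset.sum_congr rfl fun b _ => ?_
      have h2 : ent (γ (c • f)) a b = c • ent (γ f) a b := by
        rw [hγ.smul]
        rfl
      rw [h2, hL.smul, mul_smul_comm, smul_mul_assoc]
    rw [h1, ContinuousMap.smul_apply, smul_add, smul_smul, smul_eq_mul]
  · -- unit
    rw [hamp]
    have h1 : W τ Λ (ent (γ 1)) = Q τ := by
      unfold W Q
      refine Finset.sum_congr rfl fun a _ => ?_
      rw [Finset.sum_eq_single a]
      · have h2 : ent (γ 1) a a = 1 := by
          ext x
          show γ 1 x a a = 1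
          rw [hγ.one, Matrix.one_apply_eq]
        rw [h2, hL.one, mul_one]
      · intro b _ hb
        have h2 : ent (γ 1) a b = 0 := by
          ext x
          show γ 1 x a b = 0
          rw [hγ.one, Matrix.one_apply_ne (Ne.symm hb)]
        rw [h2, ah_zero hL, mul_zero, zero_mul]
      · intro h2
        exact absurd (Finset.mem_univ a) h2
    rw [h1, ContinuousMap.one_apply, one_smul]
    abel
  · -- star
    intro f
    rw [hamp, hamp, star_add, star_smul, hs1]
    have h1 : W τ Λ (ent (γ (star f))) = star (W τ Λ (ent (γ f))) := by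
      unfold W
      rw [star_sum, Finset.sum_comm]
      refine Finset.sum_congr rfl fun a _ => ?_
      rw [star_sum]
      refine Finset.sum_congr rfl fun b _ => ?_
      have h2 : ent (γ (star f)) b a = star (ent (γ f) a b) := by
        ext x
        show γ (star f) x b a = star (γ f x a b)
        rw [hγ.str, Matrix.conjTranspose_apply]
      rw [h2, hL.str, star_mul, star_mul, star_star, mul_assoc]
    rw [h1]
    rfl
  · -- positivity
    intro f
    rw [hamp]
    have h1 : Pos (W τ Λ (ent (γ (star f * f)))) :=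
      (hCPM K' n A Λ τ (γ (star f * f)) (ah_empty hL) hQn).2 (hγ.pos f)
    have h2 : (star f * f) k₀ • (1 - Q τ) = (‖f k₀‖ ^ 2 : ℝ) • (1 - Q τ) := by
      have h3 : (star f * f) k₀ = ((‖f k₀‖ ^ 2 : ℝ) : ℂ) := by
        show star (f k₀) * f k₀ = _
        have h4 := Complex.conj_mul' (f k₀)
        rw [show star (f k₀) = (starRingEnd ℂ) (f k₀) from rfl, h4]
        push_cast
        rfl
      rw [h3, Complex.coe_smul]
    rw [h2]
    refine (hPSM A).1 _ _ h1 ((hPSM A).2.1 _ _ (by positivity) ⟨1 - Q τ, ?_⟩)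
    rw [hs1, h11]
  · -- products
    intro f hf g hg
    rw [hamp, hamp, hamp]
    have hWQ : W τ Λ (ent (γ f)) * (1 - Q τ) = 0 := by
      rw [mul_sub, mul_one, W_Q hE hτ, sub_self]
    have hQW : (1 - Q τ) * W τ Λ (ent (γ g)) = 0 := by
      rw [sub_mul, one_mul, Q_W hE hτ, sub_self]
    have e1 : (W τ Λ (ent (γ f)) + f k₀ • (1 - Q τ)) * (W τ Λ (ent (γ g)) + g k₀ • (1 - Q τ)) =
        W τ Λ (ent (γ f)) * W τ Λ (ent (γ g)) + (f * g) k₀ • (1 - Q τ) := by
      rw [add_mul, mul_add, mul_add, mul_smul_comm, hWQ, smul_zero, add_zero, smul_mul_assoc, hQW,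
        smul_zero, zero_add, smul_mul_smul_comm, h11]
      rfl
    rw [e1, add_sub_add_right_eq_sub, W_mul hE hτ Λ hcomm]
    -- the matrix valued defect
    set M : C(K', Matrix n n ℂ) := ⟨fun x => γ (f * g) x - γ f x * γ g x,
      (γ (f * g)).continuous.sub ((γ f).continuous.matrix_mul (γ g).continuous)⟩ with hM
    have hent : ∀ a d, ent M a d = ent (γ (f * g)) a d -
        ∑ b, ent (γ f) a b * ent (γ g) b d := by
      intro a d
      ext x
      rw [ContinuousMap.sub_apply, ContinuousMap.sum_apply]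
      show γ (f * g) x a d - (γ f x * γ g x) a d = _
      rw [Matrix.mul_apply]
      rfl
    have e2 : W τ Λ (ent (γ (f * g))) -
        ∑ a, ∑ d, τ a * (∑ b, Λ (ent (γ f) a b) * Λ (ent (γ g) b d)) * star (τ d) =
        (∑ a, ∑ d, τ a * Λ (ent M a d) * star (τ d)) +
        ∑ a, ∑ d, τ a * (∑ b, (Λ (ent (γ f) a b * ent (γ g) b d) -
          Λ (ent (γ f) a b) * Λ (ent (γ g) b d))) * star (τ d) := by
      unfold W
      rw [← Finset.sum_sub_distrib, ← Finset.sum_add_distrib]
      refine Finset.sum_congr rfl fun a _ => ?_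
      rw [← Finset.sum_sub_distrib, ← Finset.sum_add_distrib]
      refine Finset.sum_congr rfl fun d _ => ?_
      rw [hent, ah_sub hL, ah_sum hL, Finset.sum_sub_distrib]
      noncomm_ring
    rw [e2]
    refine (norm_add_le _ _).trans (add_le_add ?_ ?_)
    · exact (hCPM K' n A Λ τ M (ah_empty hL) hQn).1 δ hδ fun x => hγ.mul f hf g hg x
    · have b1 : ∀ a d, ‖τ a * (∑ b, (Λ (ent (γ f) a b * ent (γ g) b d) -
          Λ (ent (γ f) a b) * Λ (ent (γ g) b d))) * star (τ d)‖ ≤
          (Fintype.card n : ℝ) * δ₂ := by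
        intro a d
        have c1 : ‖∑ b, (Λ (ent (γ f) a b * ent (γ g) b d) -
            Λ (ent (γ f) a b) * Λ (ent (γ g) b d))‖ ≤ (Fintype.card n : ℝ) * δ₂ := by
          refine (norm_sum_le _ _).trans ?_
          refine (Finset.sum_le_card_nsmul _ _ δ₂ fun b _ => ?_).trans ?_
          · exact hL.mul _ (hG f hf a b) _ (hG g hg b d)
          · rw [Finset.card_univ, nsmul_eq_mul]
        have c2 := norm_tau hE hτ a
        have c3 : ‖star (τ d)‖ ≤ 1 := by
          rw [norm_star]
          exact norm_tau hE hτ d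
        have c4 : 0 ≤ (Fintype.card n : ℝ) * δ₂ := by positivity
        calc ‖τ a * (∑ b, (Λ (ent (γ f) a b * ent (γ g) b d) -
              Λ (ent (γ f) a b) * Λ (ent (γ g) b d))) * star (τ d)‖
            ≤ ‖τ a‖ * ‖∑ b, (Λ (ent (γ f) a b * ent (γ g) b d) -
              Λ (ent (γ f) a b) * Λ (ent (γ g) b d))‖ * ‖star (τ d)‖ := by
              refine (norm_mul_le _ _).trans ?_
              exact mul_le_mul_of_nonneg_right (norm_mul_le _ _) (norm_nonneg _)
          _ ≤ 1 * ((Fintype.card n : ℝ) * δ₂) * 1 := by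
              gcongr
          _ = (Fintype.card n : ℝ) * δ₂ := by ring
      refine (norm_sum_le _ _).trans ?_
      have b2 : ∀ a, ‖∑ d, τ a * (∑ b, (Λ (ent (γ f) a b * ent (γ g) b d) -
          Λ (ent (γ f) a b) * Λ (ent (γ g) b d))) * star (τ d)‖ ≤
          (Fintype.card n : ℝ) * ((Fintype.card n : ℝ) * δ₂) := by
        intro a
        refine (norm_sum_le _ _).trans ?_
        refine (Finset.sum_le_card_nsmul _ _ _ fun d _ => b1 a d).trans ?_
        rw [Finset.card_univ, nsmul_eq_mul]
      refine (Finset.sum_le_card_nsmul _ _ _ fun a _ => b2 a).trans ?_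
      rw [Finset.card_univ, nsmul_eq_mul]
      apply le_of_eq
      ring
  · -- support
    intro f
    show amp k₀ τ L γ f = Q τ * amp k₀ τ L γ f * Q τ + f k₀ • (1 - Q τ)
    rw [hamp, mul_add, add_mul, Q_W hE hτ, W_Q hE hτ, mul_smul_comm, hQ1, smul_zero, zero_mul,
      add_zero]

end Pool.Agent.FPS
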