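import Pool.Agent.FPS.Defs

set_option autoImplicit false

/-!
# FPS targets 3: uniqueness

Every target has its complete proof in the docstring.
-/

open scoped Classical
open MeasureTheory Pool.Agent.FPZ

noncomputable section

namespace Pool.Agent.FPS

/-- Normal form: `L` (supported in a corner, with the value `f k₀` outside) with the slots `v s` moved to the points `z s`. -/
def nf {K A S : Type} [TopologicalSpace K] [CStarAlgebra A] [Fintype S] (k₀ : K) (L : C(K, ℂ) → A) (v : S → A) (z : S → K) :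
    C(K, ℂ) → A :=
  fun f => L f + ∑ s, (f (z s) - f k₀) • (v s * star (v s))

/-- `q` is a family of orthogonal projections and `L` is, up to `δ` on `G`, the sum of its compression to `1 - ∑ q` and the evaluations
at the points `z j`. -/
def Dec {K A : Type} [TopologicalSpace K] [CStarAlgebra A] (G : Finset C(K, ℂ)) (δ : ℝ) (L : C(K, ℂ) → A) {J : ℕ}
    (q : Fin J → A) (z : Fin J → K) : Prop :=
  (∀ j, IsStarProjection (q j)) ∧ (∀ i j, i ≠ j → q i * q j = 0) ∧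
    ∀ f ∈ G, ‖L f - ((1 - ∑ j, q j) * L f * (1 - ∑ j, q j) + ∑ j, f (z j) • q j)‖ ≤ δ

/-- The one-corner uniqueness property of the constants `(H, δ, r, N, y)` for `(F, ε, m)`. -/
def UQ (K : Type) [MetricSpace K] [CompactSpace K] (F : Finset C(K, ℂ)) (ε : ℝ) (m : ℕ) (H : Finset C(K, ℂ)) (δ r : ℝ) (N : ℕ)
    (y : Fin N → K) : Prop :=
  ∀ (A S : Type) [CStarAlgebra A] [Fintype S] (k₀ : K) (C : A) (Γ : ℕ → C(K, ℂ) → A) (q : S → A) (z : S → K)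
    (T : Fin m → Fin N → Finset S) (s : Fin m → Fin N → A), IsStarProjection C →
    (∀ i ≤ m, AH H δ (Γ i) ∧ Spt k₀ C (Γ i)) → (∀ i < m, ∀ f ∈ F, ‖Γ i f - Γ (i + 1) f‖ ≤ ε) →
    (∀ t, IsStarProjection (q t)) → (∀ t t', t ≠ t' → q t * q t' = 0) → ∑ t, q t = 1 - C →
    (∀ i j, ∀ t ∈ T i j, dist (z t) (y j) < r) → (∀ i j i' j', (i, j) ≠ (i', j') → Disjoint (T i j) (T i' j')) →
    (∀ i j, star (s i j) * s i j = C ∧ (∑ t ∈ T i j, q t) * s i j = s i j) →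
    ∃ U : A, Uni U ∧ ∀ f ∈ F, ‖U * (C * Γ 0 f * C + ∑ t, f (z t) • q t) * star U - (C * Γ m f * C + ∑ t, f (z t) • q t)‖ ≤ 2 * ε

/-- VC2. Construction of the isometry (uses T_AHN, q_PLE). PROOF. `Γ g C = C Γ g = C Γ g C` (from `Spt`). `V₀ = ∑ s j Γ (lam j) C`, `star V₀ V₀ = ∑ C Γ(lam j) ^ 2 C`, within `N δ` of `C` (`∑ Γ (lam j ^ 2) = Γ 1 = 1`). T_PLE: `x`, `V = V₀ x`, `‖x - 1‖ ≤ 2 N δ`, `c j = Γ (lam j) C x`.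
With `u j = lam j * (f - f (y j))`: `D f V₀ - V₀ C Γ f C = M V₀ - ∑ s j (Γ (u j) + (Γ (lam j) Γ f - Γ (lam j f))) C`; `‖∑ s j Γ (u j) C‖² = ‖∑ C star (Γ (u j)) Γ (u j) C‖ ≤ ‖Γ (∑ star (u j) u j)‖ + N δ ≤ θ² + N δ ≤ 2 θ²` (T_AHN), the last sum has norm `≤ N δ`, `‖V₀‖² ≤ 1 + N δ`.
Then `D V - V C Γ f C = (D V₀ - V₀ C Γ f C) x + V₀ (C Γ f C x - x C Γ f C)`, `‖..‖ ≤ 4 N δ B` for the commutator. Total `≤ 20 θ`. -/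
def T_VC2 : Prop := ∀ (K A : Type) [TopologicalSpace K] [CompactSpace K] [T2Space K] [CStarAlgebra A] (k₀ : K) (H F : Finset C(K, ℂ)) (δ θ B : ℝ) (N : ℕ) (C : A) (Γ : C(K, ℂ) → A)
  (lam : Fin N → C(K, ℝ)) (y : Fin N → K) (s : Fin N → A) (D : C(K, ℂ) → A), IsStarProjection C → AH H δ Γ → Spt k₀ C Γ → 0 ≤ δ → 0 < θ → θ ≤ 1 / 2 → 0 ≤ B →
  N * δ ≤ θ ^ 2 → N * δ * (B + 1) ≤ θ → (∀ x, ∑ j, lam j x ^ 2 = 1) → (∀ j, toC (lam j) ∈ H) →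
  (∀ f ∈ F, f ∈ H ∧ ‖f‖ ≤ B ∧ ∀ j, toC (lam j) * (f - f (y j) • (1 : C(K, ℂ))) ∈ H ∧ star (toC (lam j) * (f - f (y j) • (1 : C(K, ℂ)))) ∈ H) →
  (∀ f ∈ F, ∀ x, ∑ j, lam j x ^ 2 * ‖f x - f (y j)‖ ^ 2 ≤ θ ^ 2) → PI C s → (∀ f ∈ F, ∃ M : A, ‖M‖ ≤ θ ∧ ∀ j, D f * s j = f (y j) • s j + M * s j) →
  ∃ (V : A) (c : Fin N → A), star V * V = C ∧ V * C = V ∧ V = ∑ j, s j * c j ∧ ∀ f ∈ F, ‖D f * V - V * (C * Γ f * C)‖ ≤ 20 * θ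

/-- UQC. One-corner uniqueness (uses T_VC2, q_NET, q_CHN). PROOF. `F' = F ∪ star F` (the chain condition holds for `F'`). `θ = min (1/2) (ε / (200 (m + 1)))`. T_NET for `F'` and `θ`: `r, N, y, lam`. `B` bounds `F'`. `H` = `F'`, `toC (lam j)`, `toC (lam j) * (f - f (y j) • 1)` and the stars of these; `δ > 0` with `N δ ≤ θ²`, `N δ (B + 1) ≤ θ`.
`D f = ∑ f (z t) • q t`, `M_{i,f} = ∑_j ∑_{t ∈ T i j} (f (z t) - f (y j)) • q t` has norm `≤ θ` and `D f s_ij = f (y j) s_ij + M s_ij`. T_VC2 for `Γ (i + 1)`, `s i`: `V i` (`i < m`); the `V i` have orthogonal ranges (`V i = ∑_j s_ij c_ij`), `C V i = 0`. T_CHN with `e = C`, `X = F'`, `a f i = C Γ i f C`,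
`δ := ε`, `θ := 20 θ` (the estimate for `star (V i) * D f` is the adjoint of the one for `star f`): error `ε + 200 m θ ≤ 2 ε`. -/
def T_UQC : Prop := ∀ (K : Type) [MetricSpace K] [CompactSpace K] (F : Finset C(K, ℂ)) (ε : ℝ) (m : ℕ), 0 < ε →
  ∃ (H : Finset C(K, ℂ)) (δ r : ℝ) (N : ℕ) (y : Fin N → K), F ⊆ H ∧ 0 < δ ∧ 0 < r ∧ UQ K F ε m H δ r N y

/-- UNM. Matched uniqueness (uses T_RCM, T_CNC, q_TSB). PROOF. `C = 1 - ∑ v s star (v s)`. Let `(C₀, Γ, a, b)` be the chain. (1) `φ (C₀ - a E star a) < φ (C - E)`: T_RCM gives `x`, `star x * x = C₀ - a E star a`, `(C - E) x = x`; `t = E star a + x`, `star t * t = C₀`, `C t = t`; T_CNC: unitary `g₁`, `g₁ C₀ = t`, so `g₁ a E = E`.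
`Γ' i = g₁ Γ i star g₁` is supported in `g₁ C₀ star g₁ ≤ C`, hence in `C`; `Γ' 0 = Λ`. (2) `P' = ∑ v' s star (v' s)`, `w = ∑ v s star (v' s) + g₁ b E'`, `star w * w = P' + E'` (`star (v s) C = 0`). T_CNC: unitary `w₀`, `w₀ (P' + E') = w`: `w₀ v' s = v s`, `w₀ E' = g₁ b E'`, so
`w₀ (nf k₀ Λ' v' z f) star w₀ = C Γ' m f C + ∑ f (z s) v s star (v s)`. (3) `UQ` for `C`, `Γ'`, `q s = v s star (v s)`; `s i j` from T_RCM (`φ C < card T_ij φ p`). `W = star w₀ * U`. `nf k₀ Λ v z f = C Λ f C + ∑ f (z s) v s star (v s)`. -/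
def T_UNM : Prop := ∀ (K A S : Type) [MetricSpace K] [CompactSpace K] [CStarAlgebra A] [Fintype S] (φ : A →L[ℂ] ℂ) (k₀ : K) (F H : Finset C(K, ℂ)) (ε δ r c : ℝ) (m N : ℕ) (y : Fin N → K)
  (E E' p : A) (Λ Λ' : C(K, ℂ) → A) (v v' : S → A) (z : S → K) (T : Fin m → Fin N → Finset S), Rich φ → UQ K F ε m H δ r N y → IsStarProjection p → PI p v → PI p v' →
  IsStarProjection E → IsStarProjection E' → (∀ s, star (v s) * E = 0) → (∀ s, star (v' s) * E' = 0) → Spt k₀ E Λ → Spt k₀ E' Λ' → Chn φ k₀ H δ F ε c m E Λ E' Λ' →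
  c ≤ (φ (1 - ∑ s, v s * star (v s))).re → (∀ i j, ∀ s ∈ T i j, dist (z s) (y j) < r) → (∀ i j i' j', (i, j) ≠ (i', j') → Disjoint (T i j) (T i' j')) →
  (∀ i j, (φ (1 - ∑ s, v s * star (v s))).re < (T i j).card * (φ p).re) →
  ∃ W : A, Uni W ∧ ∀ f ∈ F, ‖W * nf k₀ Λ v z f * star W - nf k₀ Λ' v' z f‖ ≤ 2 * ε

/-! ## Cells and slots -/

/-- SYM. Cells. PROOF. As T_CEL and T_GFN (FPZ/P_CEL, P_GFN): an open ball around `k₀` with null sphere (radius `< ρ / 2`) is the first cell `O_0`; the other cells of T_CEL are replaced by `O k \ closedBall`. Empty cells are dropped. `Σ μ (O k) = 1`. `d_k z = infDist z (O k)ᶜ` (`1` if `O k = univ`), `g k z = min 1 (n max 0 (d_k z - 1/n))`, `g' k z = min 1 (n d_k z)` for large `n`: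
`∫ g k → μ (O k)`, and `g 0 k₀ = 1` for large `n`. `z 0 = k₀`, `z k ∈ O k`. -/
def T_SYM : Prop := ∀ (K : Type) [MetricSpace K] [CompactSpace K] [MeasurableSpace K] [BorelSpace K] (μ : Measure K) [IsProbabilityMeasure μ] (k₀ : K) (ρ c₀ : ℝ), 0 < ρ → 0 < c₀ →
  ∃ (K₀ : ℕ) (z : Fin K₀ → K) (g g' : Fin K₀ → C(K, ℝ)) (k' : Fin K₀), (∀ k x, 0 ≤ g k x ∧ g k x ≤ 1 ∧ 0 ≤ g' k x ∧ g' k x ≤ 1 ∧ g' k x * g k x = g k x) ∧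
    (∀ k l x, k ≠ l → g' k x ≠ 0 → g' l x = 0) ∧ (∀ k x, g' k x ≠ 0 → dist x (z k) < ρ) ∧ (1 - c₀ < ∑ k, ∫ x, g k x ∂μ) ∧ g' k' k₀ = 1 ∧ z k' = k₀

/-- HST. Disjoint groups (greedy). PROOF. Induction on the number of indices: choose `T a ⊆ N a` of the right cardinality outside the union of the previous ones. -/
def T_HST : Prop := ∀ (S I : Type) [Fintype S] [Fintype I] (Nb : I → Finset S) (d : I → ℕ), (∀ a, ∑ b, d b ≤ (Nb a).card) →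
  ∃ T : I → Finset S, (∀ a, T a ⊆ Nb a) ∧ (∀ a, (T a).card = d a) ∧ ∀ a b, a ≠ b → Disjoint (T a) (T b)

/-- SYX. The measure part of the cell system (uses T_SYM, T_HST). PROOF. Let `b > 0` be a common lower bound of the measures of the balls with centre `y j` and radius `r / 2` and of `ball k₀ (r₀ / 2)`, `b ≤ 1`, `c₁ = b / (8 (m N + 1))`. Given `ρ`, `c₂` (w.l.o.g. `ρ ≤ r / 4, r₀ / 4`) take the cells of T_SYM for `ρ` and `c₀ = c₂ / 2`. `δ₂ = c₂ / (8 (K₀ + 1))`,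
`η₀ ≤ δ₂`, `c₁ / 16`. For `η < η₀` let `n k` be the largest natural number with `n k * η < ∫ g k - δ₂` (`0` if there is none). Then `∫ g k - n k η ≤ δ₂ + η ≤ 2 δ₂`, so `∑ n k η > 1 - c₂ / 2 - 2 K₀ δ₂ ≥ 1 - c₂`. Cells with `dist (z k) (y j) ≥ r` have `g k = 0` on `ball (y j) (r / 2)`, so their `∫ g k` add up to
at most `1 - b` (disjoint supports), and the slots within `r` of `y j` number at least `(b - c₂) / η ≥ b / (2 η)` (`c₂ ≤ c₁ / 8`). Same for `k₀`, `r₀`. T_HST with `I = Option (Fin m × Fin N)`, `d none = ⌈c₁ / (2 η)⌉`, `d (some _) = ⌊c₁ / η⌋ + 1`: the sum is `≤ (m N + 1) (c₁ / η + 1) ≤ b / (2 η)`.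
`d none * η + (1 - ∑ n k η) ≤ c₁ / 2 + η + c₂ < c₁ < d (some _) * η`. (If `n k η < ∫ g k - δ₂` fails for `n k = 0`, i.e. `∫ g k ≤ δ₂`, there are no slots: the condition is only required for `0 < n k`.) -/
def T_SYX : Prop := ∀ (K : Type) [MetricSpace K] [CompactSpace K] [MeasurableSpace K] [BorelSpace K] (μ : Measure K) [IsProbabilityMeasure μ] [μ.IsOpenPosMeasure] (k₀ : K) (r r₀ : ℝ) (m N : ℕ) (y : Fin N → K), 0 < r → 0 < r₀ →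
  ∃ c₁ : ℝ, 0 < c₁ ∧ c₁ ≤ 1 / 8 ∧ ∀ ρ c₂ : ℝ, 0 < ρ → 0 < c₂ → c₂ ≤ c₁ / 8 →
  ∃ (K₀ : ℕ) (z : Fin K₀ → K) (g g' : Fin K₀ → C(K, ℝ)) (δ₂ η₀ : ℝ), (∀ k x, 0 ≤ g k x ∧ g k x ≤ 1 ∧ 0 ≤ g' k x ∧ g' k x ≤ 1 ∧ g' k x * g k x = g k x) ∧
    (∀ k l x, k ≠ l → g' k x ≠ 0 → g' l x = 0) ∧ (∀ k x, g' k x ≠ 0 → dist x (z k) < ρ) ∧ 0 < δ₂ ∧ 0 < η₀ ∧
    ∀ η : ℝ, 0 < η → η < η₀ → ∃ (n : Fin K₀ → ℕ) (S₀ : Finset (Σ k : Fin K₀, Fin (n k))) (T : Fin m → Fin N → Finset (Σ k : Fin K₀, Fin (n k))),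
      (∀ k, 0 < n k → n k * η < ∫ x, g k x ∂μ - δ₂) ∧ (1 - ∑ k, n k * η < c₂) ∧ (∀ s ∈ S₀, dist (z s.1) k₀ < r₀) ∧ (∀ i j, ∀ s ∈ T i j, dist (z s.1) (y j) < r) ∧
      (∀ i j, Disjoint (T i j) S₀) ∧ (∀ i j i' j', (i, j) ≠ (i', j') → Disjoint (T i j) (T i' j')) ∧ c₁ / 2 ≤ S₀.card * η ∧
      ∀ i j, S₀.card * η + (1 - ∑ k, n k * η) < (T i j).card * η

/-- SLH. Slots for a homomorphism (uses T_SLT, q_TSB). PROOF. For each `k` with `0 < n k` T_SLT with `G = L (toC (g k))` (positive, norm `≤ 1`): `v i = L (g k) x i`, so `L (g' k) v i = v i`. Slots of different cells are orthogonal: `star (v s) v s' = star (v s) L (g' k) L (g' k') v s' = 0`. -/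
def T_SLH : Prop := ∀ (K A : Type) [TopologicalSpace K] [CompactSpace K] [CStarAlgebra A] (φ : A →L[ℂ] ℂ) (L : C(K, ℂ) →⋆ₐ[ℂ] A) (K₀ : ℕ) (g g' : Fin K₀ → C(K, ℝ)) (n : Fin K₀ → ℕ) (p : A), Rich φ → IsStarProjection p →
  (∀ k x, 0 ≤ g k x ∧ g k x ≤ 1 ∧ 0 ≤ g' k x ∧ g' k x ≤ 1 ∧ g' k x * g k x = g k x) → (∀ k l x, k ≠ l → g' k x ≠ 0 → g' l x = 0) → (∀ k, 0 < n k → n k * (φ p).re < (φ (L (toC (g k)))).re) →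
  ∃ v : (Σ k : Fin K₀, Fin (n k)) → A, PI p v ∧ ∀ s, L (toC (g' s.1)) * v s = v s

/-- CU2. The cut estimate for projections below bump functions. PROOF. As T_CUT (FPZ/P_CUT): `m = ∑ k, (f - f (z k)) g' k` has `|m| ≤ ε` (disjoint supports), `(L f - f (z k)) q k = L m q k` (for `l ≠ k`: `L (g' l) q k = L (g' l * g' k) q k = 0`); then `L f Q - ∑ f (z k) q k = L m Q`; and T_QCO (for `f` and `star f`). -/
def T_CU2 : Prop := ∀ (K A : Type) [TopologicalSpace K] [CompactSpace K] [CStarAlgebra A] (L : C(K, ℂ) →⋆ₐ[ℂ] A) (K₀ : ℕ) (g' : Fin K₀ → C(K, ℝ)) (z : Fin K₀ → K) (q : Fin K₀ → A) (f : C(K, ℂ)) (ε : ℝ),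
  (∀ k x, 0 ≤ g' k x ∧ g' k x ≤ 1) → (∀ k l x, k ≠ l → g' k x ≠ 0 → g' l x = 0) → (∀ k, IsStarProjection (q k)) → (∀ k, L (toC (g' k)) * q k = q k) → 0 ≤ ε →
  (∀ k x, g' k x ≠ 0 → ‖f x - f (z k)‖ ≤ ε) →
  (∀ k l, k ≠ l → q k * q l = 0) ∧ ‖L f * (∑ k, q k) - ∑ k, f (z k) • q k‖ ≤ ε ∧ ‖L f * (1 - ∑ k, q k) - (1 - ∑ k, q k) * L f‖ ≤ 2 * ε ∧
  ‖L f - ((1 - ∑ k, q k) * L f * (1 - ∑ k, q k) + ∑ k, f (z k) • q k)‖ ≤ 2 * ε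

/-- DEX. Adapted decompositions (uses T_SYM, T_QCA, T_CU2, q_TSB). `1 - e₀` is a projection on which `L` is the evaluation at `k₀`. PROOF. `ρ` a modulus of `f ∈ G` for `ε / 2`; T_SYM with `c₀ := c / 2`. For each `k` let `G_k = L (g k) e₀` (positive, norm `≤ 1`; `e₀` commutes with `L`), `T_k = φ (G_k)`. If `T_k > 0` T_QCA and richness give a projection
of trace in `(T_k - c / (4 (K₀ + 1)), T_k)` of the form `star (G_k x) (G_k x)`; `Q_k = (G_k x) star (G_k x)`, `L (g' k) Q_k = Q_k`, `e₀ Q_k = Q_k`; if `T_k = 0` let `Q_k = 0`. Replace `Q_{k'}` by `Q_{k'} + (1 - e₀)` (`L (g' k') (1 - e₀) = g' k' k₀ (1 - e₀) = 1 - e₀`). Then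
`φ (1 - ∑ Q k) = φ e₀ - ∑ φ Q_k(old) ≤ φ (e₀ (1 - ∑ L (g k))) + c / 4 ≤ 1 - ∑ ∫ g k + c / 4 < c`. T_CU2 with `ε / 2`. -/
def T_DEX : Prop := ∀ (K A : Type) [MetricSpace K] [CompactSpace K] [MeasurableSpace K] [BorelSpace K] [CStarAlgebra A] (μ : Measure K) [IsProbabilityMeasure μ] (φ : A →L[ℂ] ℂ) (L : C(K, ℂ) →⋆ₐ[ℂ] A) (k₀ : K) (e₀ : A) (G : Finset C(K, ℂ)) (ε c : ℝ),
  Rich φ → (∀ f, φ (L f) = ∫ x, f x ∂μ) → IsStarProjection e₀ → (∀ f, L f * (1 - e₀) = f k₀ • (1 - e₀)) → 0 < ε → 0 < c →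
  ∃ (K₀ : ℕ) (z : Fin K₀ → K) (g : Fin K₀ → C(K, ℝ)) (Q : Fin K₀ → A), (∀ k x, 0 ≤ g k x ∧ g k x ≤ 1) ∧ (∀ k l x, k ≠ l → g k x ≠ 0 → g l x = 0) ∧ (∀ f ∈ G, ∀ k x, g k x ≠ 0 → ‖f x - f (z k)‖ ≤ ε) ∧
    (∀ k, L (toC (g k)) * Q k = Q k) ∧ Dec G ε (fun f => L f) Q z ∧ (∀ f ∈ G, ‖L f * (1 - ∑ k, Q k) - (1 - ∑ k, Q k) * L f‖ ≤ ε) ∧ e₀ * (1 - ∑ k, Q k) = 1 - ∑ k, Q k ∧ (φ (1 - ∑ k, Q k)).re < c

/-- RLS. Slots for a homomorphism that has a tiny decomposition (uses T_SLH, T_CU2, T_CDR, T_RLC, T_CAH, q_TSB). PROOF. `ε₁ = min ε (δ / (B + 1)) / 16`, `B ≥ 1` a bound for the `f ∈ H`; `ρ` a modulus of the `f ∈ H` for `ε₁`. Given the cells: T_CDR with `K₀`, `B`, `ε₃ = ε₁` gives `δ₀`; `G = H ∪ {toC (g k), toC (g' k)}` and their stars,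
`δ₂ = min δ₂' δ₀ ε₁` (halved), `c₃ = c₁ / (32 (K₀ + 1))`. `n k φ p < ∫ g k - δ₂' ≤ φ (L (g k))`: T_SLH gives `v`. `Q k = ∑_{s in cell k} v s star (v s)`, `L (g' k) Q k = Q k`; T_CU2 for `q = Q`, `ε₁`. `e = 1 - ∑ Q k`, `φ e = 1 - ∑ n k φ p < c₁ / 16`. T_CDR (with `L`, `G := H`, bump functions `toC (g' k)`,
`q' := q`, `z' := x`, `δ₁ = 2 ε₁`): `Rel φ H (4 ε₁) (c₁ / 8) e L E L`. T_CAH: `AH H δ (cmp k₀ e L)`, `AH H δ (cmp k₀ E L)` (commutators `≤ 2 ε₁`, `≤ 2 δ₂`). T_RLC with `G := H` (`Rel` is monotone in the `ε`). -/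
def T_RLS : Prop := ∀ (K : Type) [MetricSpace K] [CompactSpace K] [ConnectedSpace K] [MeasurableSpace K] [BorelSpace K] (μ : Measure K) [IsProbabilityMeasure μ] (k₀ : K) (F H : Finset C(K, ℂ)) (ε δ c₁ : ℝ) (m₁ : ℕ), F ⊆ H → 0 < ε → 0 < δ → 0 < c₁ → c₁ ≤ 1 / 8 →
  (∀ x : K, ∃ w : ℕ → K, w 0 = k₀ ∧ w m₁ = x ∧ ∀ l < m₁, ∀ f ∈ F, ‖f (w l) - f (w (l + 1))‖ ≤ ε) →
  ∃ ρ : ℝ, 0 < ρ ∧ ∀ (K₀ : ℕ) (z : Fin K₀ → K) (g g' : Fin K₀ → C(K, ℝ)) (δ₂' : ℝ), (∀ k x, 0 ≤ g k x ∧ g k x ≤ 1 ∧ 0 ≤ g' k x ∧ g' k x ≤ 1 ∧ g' k x * g k x = g k x) →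
  (∀ k l x, k ≠ l → g' k x ≠ 0 → g' l x = 0) → (∀ k x, g' k x ≠ 0 → dist x (z k) < ρ) → 0 < δ₂' →
  ∃ (G : Finset C(K, ℂ)) (δ₂ c₃ : ℝ), H ⊆ G ∧ 0 < δ₂ ∧ 0 < c₃ ∧ ∀ (A : Type) [CStarAlgebra A] (φ : A →L[ℂ] ℂ) (L : C(K, ℂ) →⋆ₐ[ℂ] A) (J : ℕ) (q : Fin J → A) (x : Fin J → K) (n : Fin K₀ → ℕ) (p : A), Rich φ →
    (∀ f ∈ G, ‖φ (L f) - ∫ x, f x ∂μ‖ ≤ δ₂) → Dec G δ₂ (fun f => L f) q x → (φ (1 - ∑ j, q j)).re < c₃ → IsStarProjection p → (∀ k, 0 < n k → n k * (φ p).re < ∫ x, g k x ∂μ - δ₂') → (1 - ∑ k, n k * (φ p).re < c₁ / 16) →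
    ∃ v : (Σ k : Fin K₀, Fin (n k)) → A, PI p v ∧ (∀ f ∈ H, ‖L f - ((1 - ∑ s, v s * star (v s)) * L f * (1 - ∑ s, v s * star (v s)) + ∑ s, f (z s.1) • (v s * star (v s)))‖ ≤ ε) ∧
      Chn φ k₀ H δ F ε (c₁ / 8) (2 * m₁ + 1) (1 - ∑ s, v s * star (v s)) (cmp k₀ (1 - ∑ s, v s * star (v s)) (fun f => L f)) (1 - ∑ j, q j) (cmp k₀ (1 - ∑ j, q j) (fun f => L f))

/-- UQE. Uniqueness for two homomorphisms (uses T_PTC, T_UQC, T_SYX, T_RLS, T_TRN, T_REV, T_UNM, T_RIC-type richness only through `Rich`, q_TSB). PROOF. T_PTC: `m₁`; `m = (2 m₁ + 1) + m₀ + (2 m₁ + 1)`. T_UQC: `H, δ, r, N, y`. T_SYX with `r₀` a modulus of the `f ∈ F` for `ε`: `c₁`. `c₀ = c₁ / 8`. T_RLS: `ρ`. T_SYX with this `ρ` and `c₂ = c₁ / 16`: cells, `δ₂'`, `η₀`.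
T_RLS: `G, δ₂, c₃`. Given `L, L'`: richness gives a projection `p` with `0 < φ p < η₀`, T_SYX gives `n, S₀, T`; T_RLS for `L` and `L'`: `v, v'`. T_TRN twice (T_REV): a chain of length `m` and `c = 3 c₁ / 8` from `(e, cmp k₀ e L)` to `(e', cmp k₀ e' L')`. T_UNM with `S₁ = {s // s ∉ S₀}`, the restrictions of `v, v', z`, the `T i j`
(`φ (1 - ∑_{S₁} v star v) = S₀.card * φ p + (1 - ∑ n k φ p)`, which is `≥ c₁ / 2 ≥ c`). `‖L f - nf k₀ (cmp k₀ e L) v z f‖ ≤ ε + ‖∑_{S₀} (f (z s) - f k₀) v s star (v s)‖ ≤ 2 ε`. Total `≤ 6 ε`. (`Spt k₀ e (cmp k₀ e L)` holds by computation.) -/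
def T_UQE : Prop := ∀ (K : Type) [MetricSpace K] [CompactSpace K] [ConnectedSpace K] [MeasurableSpace K] [BorelSpace K] (μ : Measure K) [IsProbabilityMeasure μ] [μ.IsOpenPosMeasure] (k₀ : K) (F : Finset C(K, ℂ)) (ε : ℝ) (m₀ : ℕ), 0 < ε →
  ∃ (H G : Finset C(K, ℂ)) (δ δ₂ c₀ c₃ : ℝ), F ⊆ H ∧ H ⊆ G ∧ 0 < δ ∧ 0 < δ₂ ∧ 0 < c₀ ∧ c₀ ≤ 1 / 8 ∧ 0 < c₃ ∧ ∀ (A : Type) [CStarAlgebra A] (φ : A →L[ℂ] ℂ) (L L' : C(K, ℂ) →⋆ₐ[ℂ] A) (J J' : ℕ) (q : Fin J → A) (q' : Fin J' → A) (x : Fin J → K) (x' : Fin J' → K), Rich φ →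
    (∀ f ∈ G, ‖φ (L f) - ∫ x, f x ∂μ‖ ≤ δ₂) → (∀ f ∈ G, ‖φ (L' f) - ∫ x, f x ∂μ‖ ≤ δ₂) → Dec G δ₂ (fun f => L f) q x → Dec G δ₂ (fun f => L' f) q' x' → (φ (1 - ∑ j, q j)).re < c₃ → (φ (1 - ∑ j, q' j)).re < c₃ →
    Chn φ k₀ H δ F ε c₀ m₀ (1 - ∑ j, q j) (cmp k₀ (1 - ∑ j, q j) (fun f => L f)) (1 - ∑ j, q' j) (cmp k₀ (1 - ∑ j, q' j) (fun f => L' f)) →
    ∃ W : A, Uni W ∧ ∀ f ∈ F, ‖W * L f * star W - L' f‖ ≤ 10 * ε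

end Pool.Agent.FPS
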