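import Pool.Agent.FPS.Defs4
import Pool.Agent.FPS.Targets3

set_option autoImplicit false

/-!
# FPS targets 5: the embedding, and Fact D

Every target has its complete proof in the docstring.
-/

open scoped Classical
open MeasureTheory Pool.Agent.FPZ

noncomputable section

namespace Pool.Agent.FPS

/-- The setting of the embedding: `ι` has distribution `μ`, `f ↦ ι (f ∘ c)` is the evaluation at `k₀` on `1 - e₀`, and `s` is a family of `r`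
isometries of `e₀` with orthogonal ranges. -/
structure EM {K A : Type} [TopologicalSpace K] [CompactSpace K] [MeasurableSpace K] [CStarAlgebra A] (μ : Measure K) (φ : A →L[ℂ] ℂ)
    (ι : C(K, ℂ) →⋆ₐ[ℂ] A) (c : C(K, K)) (k₀ : K) (r : ℕ) (e₀ : A) (s : Fin r → A) : Prop where
  val : ∀ f, φ (ι f) = ∫ x, f x ∂μ
  pr : IsStarProjection e₀
  spt : ∀ f : C(K, ℂ), ι (f.comp c) * (1 - e₀) = f k₀ • (1 - e₀)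
  pis : PI e₀ s

/-- Adapted decomposition of `L` with corner `1 - ∑ Q`. -/
structure AD {K A : Type} [TopologicalSpace K] [CStarAlgebra A] (G : Finset C(K, ℂ)) (ε c : ℝ) (φ : A →L[ℂ] ℂ) (L : C(K, ℂ) → A)
    {K₀ : ℕ} (z : Fin K₀ → K) (g : Fin K₀ → C(K, ℝ)) (Q : Fin K₀ → A) : Prop where
  rng : ∀ k x, 0 ≤ g k x ∧ g k x ≤ 1
  dis : ∀ k l x, k ≠ l → g k x ≠ 0 → g l x = 0
  osc : ∀ f ∈ G, ∀ k x, g k x ≠ 0 → ‖f x - f (z k)‖ ≤ ε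
  ada : ∀ k, L (toC (g k)) * Q k = Q k
  dec : Dec G ε L Q z
  com : ∀ f ∈ G, ‖L f * (1 - ∑ k, Q k) - (1 - ∑ k, Q k) * L f‖ ≤ ε
  tra : (φ (1 - ∑ k, Q k)).re < c

/-- The chain data of `m` steps from `id ⊕ points` to `Θ`, for matrices indexed by `n`. -/
def CDt {K n : Type} [TopologicalSpace K] [CompactSpace K] [Fintype n] (k₀ : K) (H : Finset C(K, ℂ)) (δ : ℝ) (F : Finset C(K, ℂ)) (ε : ℝ)
    (m : ℕ) (Θ : C(K, ℂ) → K → Matrix n n ℂ) : Prop :=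
  ∃ (Ψ : ℕ → C(K, ℂ) → C(K, Matrix n n ℂ)) (ζ : n → ℂ), ∑ a, ‖ζ a‖ ^ 2 = 1 ∧ (∀ i ≤ m, AHM H δ (Ψ i)) ∧
    (∀ i < m, ∀ f ∈ F, ∀ x, opn (Ψ i f x - Ψ (i + 1) f x) ≤ ε) ∧
    (∀ f x a b, Ψ 0 f x a b = f x * (ζ a * star (ζ b)) + f k₀ * ((1 : Matrix n n ℂ) a b - ζ a * star (ζ b))) ∧ ∀ f x, Ψ m f x = Θ f x

/-! ## The embedding -/

/-- EMX. Existence of the setting (uses q_GFN, T_QCA, T_RDV, q_TSB). PROOF. T_GFN: `g, g'` with `g' g = g`, `g' = 0` off `O`, `∫ g > 1 - 1/r`. T_QCA with `f = ι g`: a projection `P` with trace in `(1 - 1/r, ∫ g)` (richness) is `star (ι g x) (ι g x)`; `Q₀ = (ι g x) star (ι g x)`, `ι g' Q₀ = Q₀`, `ι (f.comp c) Q₀ = ι (f.comp c * g') Q₀ = f k₀ • Q₀`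
(`f (c x) g' x = f k₀ g' x`). `e₀ = 1 - Q₀`, `r φ e₀ < 1`; T_RDV. -/
def T_EMX : Prop := ∀ (K A : Type) [MetricSpace K] [CompactSpace K] [MeasurableSpace K] [BorelSpace K] [CStarAlgebra A] (μ : Measure K) [IsProbabilityMeasure μ] (φ : A →L[ℂ] ℂ) (ι : C(K, ℂ) →⋆ₐ[ℂ] A) (c : C(K, K)) (k₀ : K) (r : ℕ) (O : Set K),
  Rich φ → (∀ f, φ (ι f) = ∫ x, f x ∂μ) → IsOpen O → (∀ x ∈ O, c x = k₀) → 0 < r → 1 - 1 / (r : ℝ) < (μ O).toReal → ∃ (e₀ : A) (s : Fin r → A), EM μ φ ι c k₀ r e₀ s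

/-- OMG. The homomorphism `ω`. PROOF. `e₀` commutes with all `ι (f.comp c)` (take adjoints in `spt`). `amp 1 s L κ g = ∑ s i L (κ g)_ij star (s j) + g 1 (1 - ∑ s i star (s i))`, `star (s i) s j = 0` or `e₀`, `s i = s i e₀`: multiplicative, unital, star preserving (`KP.hom`). Trace: `φ (s i X star (s j)) = φ (X star (s j) s i)`,
`φ (ι (h.comp c) e₀) = ∫ h (c x) - h k₀ φ (1 - e₀)`, `h = (κ g)_ii`, `∑ (κ g k₀)_ii = r g 1`, `φ (s i star (s i)) = φ e₀`. -/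
def T_OMG : Prop := ∀ (K A : Type) [TopologicalSpace K] [CompactSpace K] [MeasurableSpace K] [BorelSpace K] [CStarAlgebra A] (μ : Measure K) [IsProbabilityMeasure μ] (φ : A →L[ℂ] ℂ) (ι : C(K, ℂ) →⋆ₐ[ℂ] A) (c : C(K, K)) (k₀ : K) (r : ℕ) (e₀ : A) (s : Fin r → A)
  (κ : C(S1, ℂ) → C(K, Matrix (Fin r) (Fin r) ℂ)), TS φ → KP k₀ κ → EM μ φ ι c k₀ r e₀ s →
  ∃ ω : C(S1, ℂ) →⋆ₐ[ℂ] A, (∀ g, ω g = amp 1 s (fun f => ι (f.comp c)) κ g) ∧ ∀ g, φ (ω g) = (∫ x, ∑ i, κ g (c x) i i ∂μ) + (1 - (r : ℂ)) * g 1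

/-- QCE. PROOF. `(1 - e₀) Q k = (1 - e₀) L (g k) Q k = g k k₀ (1 - e₀) Q k`, so `(1 - e₀) Q k = 0` unless `g k k₀ = 1`. If `g k k₀ = 1` for some `k` then `g l k₀ = 0` for `l ≠ k` and `1 - e₀ = (1 - e₀) ∑ Q = (1 - e₀) Q k`. -/
def T_QCE : Prop := ∀ (K A : Type) [TopologicalSpace K] [CompactSpace K] [CStarAlgebra A] (L : C(K, ℂ) →⋆ₐ[ℂ] A) (k₀ : K) (e₀ : A) (K₀ : ℕ) (g : Fin K₀ → C(K, ℝ)) (Q : Fin K₀ → A), IsStarProjection e₀ → (∀ f, L f * (1 - e₀) = f k₀ • (1 - e₀)) →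
  (∀ k l x, k ≠ l → g k x ≠ 0 → g l x = 0) → (∀ k, IsStarProjection (Q k)) → (∀ k l, k ≠ l → Q k * Q l = 0) → (∀ k, L (toC (g k)) * Q k = Q k) → e₀ * (1 - ∑ k, Q k) = 1 - ∑ k, Q k → ∀ k, Q k * e₀ = e₀ * Q k

/-- OCR. Compression of `ω`. `L` is arbitrary. PROOF. `E s i = s i e e₀ = s i e`, `E (1 - ∑ s i star (s i)) = 0`. -/
def T_OCR : Prop := ∀ (K A : Type) [TopologicalSpace K] [CStarAlgebra A] (r : ℕ) (e₀ e : A) (s : Fin r → A) (L : C(K, ℂ) → A) (κ : C(S1, ℂ) → C(K, Matrix (Fin r) (Fin r) ℂ)), IsStarProjection e₀ → IsStarProjection e → e₀ * e = e → PI e₀ s →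
  PI e (fun i => s i * e) ∧ IsStarProjection (∑ i, s i * e * star (s i * e)) ∧ ∀ g, (∑ i, s i * e * star (s i * e)) * amp 1 s L κ g * (∑ i, s i * e * star (s i * e)) = ∑ i, ∑ j, (s i * e) * L (ent (κ g) i j) * star (s j * e)

/-- ODC. Decomposition of `ω` (uses T_OCR). `e = 1 - ∑ Q`. PROOF. For every `k` take the diagonal form `lam, p_l` of `κ` at `z k` (`KP.dia`): `q_(k,l) = ∑ i j, (p_l)_ij • s i Q k star (s j)` at `lam_l`; and `1 - ∑ s i star (s i)` at `1`. Since `Q k` commutes with `e₀` these are orthogonal projections, their sum is `∑_k ∑_i s i Q k star (s i) + 1 - ∑ s i star (s i)`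
`= 1 - ∑ s i e star (s i)`. `κ g (z k) = ∑ g (lam_l) p_l` and `L (κ g)_ij ≈ e L (κ g)_ij e + ∑_k (κ g (z k))_ij Q k` (error `ε` for each of the `r²` terms). Reindex by `Fin J`. -/
def T_ODC : Prop := ∀ (K A : Type) [TopologicalSpace K] [CStarAlgebra A] (r K₀ : ℕ) (k₀ : K) (e₀ : A) (s : Fin r → A) (L : C(K, ℂ) → A) (κ : C(S1, ℂ) → C(K, Matrix (Fin r) (Fin r) ℂ)) (Gw : Finset C(S1, ℂ)) (G : Finset C(K, ℂ)) (ε : ℝ) (Q : Fin K₀ → A) (z : Fin K₀ → K),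
  IsStarProjection e₀ → PI e₀ s → KP k₀ κ → e₀ * (1 - ∑ k, Q k) = 1 - ∑ k, Q k → (∀ k, Q k * e₀ = e₀ * Q k) → 0 ≤ ε → Dec G ε L Q z → (∀ g ∈ Gw, ∀ i j, ent (κ g) i j ∈ G) →
  ∃ (J : ℕ) (q : Fin J → A) (x : Fin J → S1), Dec Gw ((r : ℝ) ^ 2 * ε) (amp 1 s L κ) q x ∧ 1 - ∑ j, q j = ∑ i, s i * (1 - ∑ k, Q k) * star (s i * (1 - ∑ k, Q k))

/-! ## Chains from amplifications -/

/-- CHE. A chain in one corner (`C = E`, `a = b = 1`). -/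
def T_CHE : Prop := ∀ (K A : Type) [TopologicalSpace K] [CompactSpace K] [CStarAlgebra A] (φ : A →L[ℂ] ℂ) (k₀ : K) (H : Finset C(K, ℂ)) (δ : ℝ) (F : Finset C(K, ℂ)) (ε c : ℝ) (m : ℕ) (E : A) (Γ : ℕ → C(K, ℂ) → A), IsStarProjection E → (φ E).re < c →
  (∀ i ≤ m, AH H δ (Γ i) ∧ Spt k₀ E (Γ i)) → (∀ i < m, ∀ f ∈ F, ‖Γ i f - Γ (i + 1) f‖ ≤ ε) → Chn φ k₀ H δ F ε c m E (Γ 0) E (Γ m)

/-- AMX. A chain of amplifications (uses T_AMP, T_AMC, T_CHE). PROOF. `Γ i = amp k₀ τ L (Ψ i)` is AH by T_AMP, consecutive ones are close by T_AMC; `φ (∑ τ a star (τ a)) = card n * φ E`. -/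
def T_AMX : Prop := ∀ (K K' n A : Type) [TopologicalSpace K] [CompactSpace K] [T2Space K] [TopologicalSpace K'] [CompactSpace K'] [T2Space K'] [Fintype n] [CStarAlgebra A] (φ : A →L[ℂ] ℂ) (k₀ : K) (k₀' : K') (E : A) (τ : n → A)
  (H F : Finset C(K, ℂ)) (G : Finset C(K', ℂ)) (δ δΨ δ₂ ε c : ℝ) (m : ℕ) (L : C(K', ℂ) → A) (Ψ : ℕ → C(K, ℂ) → C(K', Matrix n n ℂ)), TS φ → IsStarProjection E → PI E τ → AH G δ₂ (cmp k₀' E L) → 0 ≤ δΨ → 0 ≤ δ₂ → 0 ≤ ε →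
  (∀ i ≤ m, AHM H δΨ (Ψ i)) → (∀ i ≤ m, ∀ f ∈ H, ∀ a b, ent (Ψ i f) a b ∈ G) → (∀ i < m, ∀ f ∈ F, ∀ x, opn (Ψ i f x - Ψ (i + 1) f x) ≤ ε) → δΨ + (Fintype.card n : ℝ) ^ 3 * δ₂ ≤ δ → Fintype.card n * (φ E).re < c →
  Chn φ k₀ H δ F ε c m (∑ a, τ a * star (τ a)) (amp k₀ τ L (Ψ 0)) (∑ a, τ a * star (τ a)) (amp k₀ τ L (Ψ m))

/-- LK3. The same with the start `id ⊕ points` (uses T_AMP, T_AMC, T_CNC, q_TSB). PROOF. `t = ∑ ζ a • τ a`, `star t * t = E`, `amp k₀ τ L (Ψ 0) f = t L f star t + f k₀ (1 - t star t)`. T_CNC: `w` unitary, `w E = t`: this is `w (cmp k₀ E L f) star w`. The chain `amp k₀ τ L (Ψ i)` lives in `C = ∑ τ a star (τ a)`, `C w E = w E`; take `a = w`, `b = 1`. -/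
def T_LK3 : Prop := ∀ (K n A : Type) [TopologicalSpace K] [CompactSpace K] [T2Space K] [Fintype n] [CStarAlgebra A] (φ : A →L[ℂ] ℂ) (k₀ : K) (E : A) (τ : n → A)
  (H F : Finset C(K, ℂ)) (G : Finset C(K, ℂ)) (δ δΨ δ₂ ε c : ℝ) (m : ℕ) (L : C(K, ℂ) → A) (Ψ : ℕ → C(K, ℂ) → C(K, Matrix n n ℂ)) (ζ : n → ℂ), Rich φ → IsStarProjection E → PI E τ → AH G δ₂ (cmp k₀ E L) → 0 ≤ δΨ → 0 ≤ δ₂ → 0 ≤ ε → ∑ a, ‖ζ a‖ ^ 2 = 1 →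
  (∀ i ≤ m, AHM H δΨ (Ψ i)) → (∀ i ≤ m, ∀ f ∈ H, ∀ a b, ent (Ψ i f) a b ∈ G) → (∀ i < m, ∀ f ∈ F, ∀ x, opn (Ψ i f x - Ψ (i + 1) f x) ≤ ε) →
  (∀ f x a b, Ψ 0 f x a b = f x * (ζ a * star (ζ b)) + f k₀ * ((1 : Matrix n n ℂ) a b - ζ a * star (ζ b))) → (∀ f g, L (f + g) = L f + L g) → (∀ (t : ℂ) f, L (t • f) = t • L f) → L 1 = 1 → δΨ + (Fintype.card n : ℝ) ^ 3 * δ₂ ≤ δ → Fintype.card n * (φ E).re < c →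
  Chn φ k₀ H δ F ε c m E (cmp k₀ E L) (∑ a, τ a * star (τ a)) (amp k₀ τ L (Ψ m))

/-- AMM. Amplification of an amplification. PROOF. `σ i = σ i (∑ v v*)`, so `σ i L₁ f star (σ j) = ∑_ab σ i v a L₂ (γ f)_ab star (v b) star (σ j)`; direct computation. -/
def T_AMM : Prop := ∀ (K₀ K₁ K₂ n₁ n₂ A : Type) [TopologicalSpace K₀] [TopologicalSpace K₁] [TopologicalSpace K₂] [Fintype n₁] [Fintype n₂] [CStarAlgebra A] (k : K₀) (E₂ : A) (v : n₂ → A) (σ : n₁ → A) (L₁ : C(K₁, ℂ) → A) (L₂ : C(K₂, ℂ) → A)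
  (γ : C(K₁, ℂ) → C(K₂, Matrix n₂ n₂ ℂ)) (κ : C(K₀, ℂ) → C(K₁, Matrix n₁ n₁ ℂ)) (Ψ : C(K₀, ℂ) → C(K₂, Matrix (n₁ × n₂) (n₁ × n₂) ℂ)), IsStarProjection E₂ → PI E₂ v → PI (∑ a, v a * star (v a)) σ →
  (∀ f, (∑ a, v a * star (v a)) * L₁ f * (∑ a, v a * star (v a)) = ∑ a, ∑ b, v a * L₂ (ent (γ f) a b) * star (v b)) → (∀ f x a b, Ψ f x a b = γ (ent (κ f) a.1 b.1) x a.2 b.2) →
  PI E₂ (fun a : n₁ × n₂ => σ a.1 * v a.2) ∧ (∑ a : n₁ × n₂, σ a.1 * v a.2 * star (σ a.1 * v a.2)) = ∑ i, σ i * star (σ i) ∧ ∀ f, amp k σ L₁ κ f = amp k (fun a : n₁ × n₂ => σ a.1 * v a.2) L₂ Ψ f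

/-! ## Fact D -/

/-- CDA. The stage between `E₁` and `e'` (uses T_DEX, T_QCE, T_OMG, T_OCR, T_ODC, T_CDR, T_CAH, T_RDV, T_GRL, T_AMM, T_LK3, T_TRN, T_REV, q_TSB). `L f = ι (f.comp c)`, `ω g = α (ι₁ g) = amp 1 s L κ g`, `E₁ = 1 - ∑ Q₁`. PROOF. `Gw` = all entries of `γ f`, `f ∈ H ∪ F`. `ε₂ = ε / k²`. `G₁ = Gw` (and stars), `c₁ = c₀ / (8 k)`,
`δ₁` small: `δ₁ ≤ ε₂ / 8` and `AH Gw δ₂ (cmp 1 (α E₁) ω)` by T_CAH with `k³ δ₂ ≤ δ / 2`. Given `K₁, z₁, g₁, Q₁`: T_CDR for `K₁`, `B` (bound of `Gw`), `ε₃ = ε₂ / 8` gives `δc`. Let `Gw' = Gw ∪ {toC (g₁ k)}`, `GL` = all entries of `κ g` (`g ∈ Gw'`) and of `Ψ i f` (`f ∈ H`, `i ≤ m`), and stars. T_DEX for `L` (distribution `Measure.map c μ`, the given `e₀`), `G' ∪ GL`,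
a small `ε'' ≤ ε'` and a small `c'' ≤ c'`: `K', z', g', Q'`; `e' = 1 - ∑ Q'`. T_QCE, T_ODC: decomposition of `ω` with corner `Er = ∑ s i e' star (s i e')`, error `r² ε'' ≤ δc`. T_CDR for `ω`: adapted `α Q₁ k` (`ω (g₁ k) α (Q₁ k) = α (Q₁ k)`): `Rel φ Gw ε₂ (c₀ / (2 k)) (α E₁) ω Er ω` (`φ E₁ + K₁ r φ e' < c₀ / (2 k)`).
T_CAH: `AH Gw δ₂ (cmp 1 Er ω)`. T_RDV: `ρ : Fin k → A`, `PI Er ρ`. T_GRL (`K' = S1`, `n = Fin k`): chain of length `2 m₁ + 1`, `c = c₀ / 2`, from `(∑ α v star (α v), amp k₀ (α v) ω γ)` to `(∑ ρ star ρ, amp k₀ ρ ω γ)`. T_OCR, T_AMM (`n₁ = Fin k`, `n₂ = Fin r`, `v i = s i e'`, `L₁ = ω`, `L₂ = L`, `γ := κ`, `κ := γ`):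
`amp k₀ ρ ω γ = amp k₀ (ρ a s i e') L (Ψ m)`. T_LK3 for `e'`, `L`, `Ψ` (`k r φ e' < c₀ / 4`). T_REV, T_TRN. -/
def T_CDA : Prop := ∀ (K A A₁ : Type) [MetricSpace K] [CompactSpace K] [ConnectedSpace K] [MeasurableSpace K] [BorelSpace K] [CStarAlgebra A] [CStarAlgebra A₁] (μ : Measure K) [IsProbabilityMeasure μ] (k₀ : K) (r : ℕ)
  (κ : C(S1, ℂ) → C(K, Matrix (Fin r) (Fin r) ℂ)) (c : C(K, K)) (φ : A →L[ℂ] ℂ) (φ₁ : A₁ →L[ℂ] ℂ) (ι : C(K, ℂ) →⋆ₐ[ℂ] A) (ι₁ : C(S1, ℂ) →⋆ₐ[ℂ] A₁) (α : A₁ →⋆ₐ[ℂ] A) (e₀ : A) (s : Fin r → A) (H F : Finset C(K, ℂ)) (δ ε c₀ : ℝ) (m m₁ k : ℕ)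
  (γ : C(K, ℂ) → C(S1, Matrix (Fin k) (Fin k) ℂ)), 0 < r → Rich φ → KP k₀ κ → EM μ φ ι c k₀ r e₀ s → (∀ a, φ (α a) = φ₁ a) → (∀ g, α (ι₁ g) = amp 1 s (fun f => ι (f.comp c)) κ g) → 0 < δ → 0 < ε → 0 < c₀ → c₀ ≤ 1 → 0 < k →
  AHM H (δ / 2) γ → (∀ f, γ f 1 = f k₀ • (1 : Matrix (Fin k) (Fin k) ℂ)) → (∀ x : S1, ∃ w : ℕ → S1, w 0 = 1 ∧ w m₁ = x ∧ ∀ l < m₁, ∀ f ∈ F, opn (γ f (w l) - γ f (w (l + 1))) ≤ ε) →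
  CDt k₀ H (δ / 2) F ε m (fun f x => Matrix.of fun (a b : Fin k × Fin r) => κ (ent (γ f) a.1 b.1) x a.2 b.2) →
  ∃ (G₁ : Finset C(S1, ℂ)) (δ₁ c₁ : ℝ), 0 < δ₁ ∧ 0 < c₁ ∧ ∀ (K₁ : ℕ) (z₁ : Fin K₁ → S1) (g₁ : Fin K₁ → C(S1, ℝ)) (Q₁ : Fin K₁ → A₁), AD G₁ δ₁ c₁ φ₁ (fun g => ι₁ g) z₁ g₁ Q₁ → ∀ v : Fin k → A₁, PI (1 - ∑ i, Q₁ i) v →
  ∀ (G' : Finset C(K, ℂ)) (ε' c' : ℝ), 0 < ε' → 0 < c' → ∃ (K' : ℕ) (z' : Fin K' → K) (g' : Fin K' → C(K, ℝ)) (Q' : Fin K' → A), AD G' ε' c' φ (fun f => ι (f.comp c)) z' g' Q' ∧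
    Chn φ k₀ H δ F ε c₀ (m + (2 * m₁ + 1)) (1 - ∑ i, Q' i) (cmp k₀ (1 - ∑ i, Q' i) (fun f => ι (f.comp c))) (∑ a, α (v a) * star (α (v a))) (amp k₀ (fun a => α (v a)) (fun g => α (ι₁ g)) γ)

/-- CDB. The stage between `e'` and `e` (uses T_SLH, T_CU2, T_CHE, T_CAH, T_CDR, T_RLC, T_TRN, T_REV, q_TSB). `L f = ι (f.comp c)`. PROOF. `ε₁` small compared with `ε`, `δ / (B + 1)`; `G' = H` (and stars), `ε' = ε₁`. Given `K', z', g', Q'`: T_CDR for `K'`, `B` gives `δc`; `Hb` = all `f.comp (ci i)` (`f ∈ H`, `i ≤ mh`), `(toC (g' k)).comp c`, and stars; `ρ` a modulus of the functions in `H ∪ Hb` for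
`min ε₁ δc / 4`, `c₂ = c₀ / (4 (K' + 1))`. T_SLH gives `v`; `P k = ∑_{s in cell k} v s star (v s)`; T_CU2 for `P`. `e = 1 - ∑ P k`, `φ e < c₂`. T_CHE: `Γ i = cmp k₀ e (ι (·.comp (ci i)))` (`AH` by T_CAH), `mh` steps, `c = c₀ / 4`. T_CDR for `L`: adapted `Q'`, second decomposition `P k` at `c (z k)`:
`Rel φ H ε (c₀ / 2) e' L e L`; T_RLC, T_REV; T_TRN. -/
def T_CDB : Prop := ∀ (K A : Type) [MetricSpace K] [CompactSpace K] [ConnectedSpace K] [MeasurableSpace K] [BorelSpace K] [CStarAlgebra A] (μ : Measure K) [IsProbabilityMeasure μ] (k₀ : K) (c : C(K, K)) (φ : A →L[ℂ] ℂ) (ι : C(K, ℂ) →⋆ₐ[ℂ] A)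
  (H F : Finset C(K, ℂ)) (δ ε c₀ : ℝ) (mh m₂ : ℕ) (ci : ℕ → C(K, K)), Rich φ → (∀ f, φ (ι f) = ∫ x, f x ∂μ) → F ⊆ H → 0 < δ → 0 < ε → 0 < c₀ → c₀ ≤ 1 → ci 0 = ContinuousMap.id K → ci mh = c → (∀ f ∈ F, ∀ i < mh, ∀ x, ‖f (ci i x) - f (ci (i + 1) x)‖ ≤ ε) →
  (∀ x : K, ∃ w : ℕ → K, w 0 = k₀ ∧ w m₂ = x ∧ ∀ l < m₂, ∀ f ∈ F, ‖f (w l) - f (w (l + 1))‖ ≤ ε) →
  ∃ (G' : Finset C(K, ℂ)) (ε' : ℝ), 0 < ε' ∧ ∀ (K' : ℕ) (z' : Fin K' → K) (g' : Fin K' → C(K, ℝ)) (Q' : Fin K' → A), AD G' ε' (c₀ / 4) φ (fun f => ι (f.comp c)) z' g' Q' → ∃ ρ c₂ : ℝ, 0 < ρ ∧ 0 < c₂ ∧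
  ∀ (K₀ : ℕ) (z : Fin K₀ → K) (g g'' : Fin K₀ → C(K, ℝ)) (n : Fin K₀ → ℕ) (p : A), (∀ k x, 0 ≤ g k x ∧ g k x ≤ 1 ∧ 0 ≤ g'' k x ∧ g'' k x ≤ 1 ∧ g'' k x * g k x = g k x) → (∀ k l x, k ≠ l → g'' k x ≠ 0 → g'' l x = 0) → (∀ k x, g'' k x ≠ 0 → dist x (z k) < ρ) →
    IsStarProjection p → (∀ k, 0 < n k → n k * (φ p).re < ∫ x, g k x ∂μ) → (1 - ∑ k, n k * (φ p).re < c₂) →
    ∃ v : (Σ k : Fin K₀, Fin (n k)) → A, PI p v ∧ (∀ f ∈ H, ‖ι f - ((1 - ∑ s, v s * star (v s)) * ι f * (1 - ∑ s, v s * star (v s)) + ∑ s, f (z s.1) • (v s * star (v s)))‖ ≤ ε) ∧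
      Chn φ k₀ H δ F ε c₀ (mh + (2 * m₂ + 1)) (1 - ∑ s, v s * star (v s)) (cmp k₀ (1 - ∑ s, v s * star (v s)) (fun f => ι f)) (1 - ∑ i, Q' i) (cmp k₀ (1 - ∑ i, Q' i) (fun f => ι (f.comp c)))

/-- The data of `η` in Fact D: `η f = amp k₀ v ι₁ γ f + ∑ (f (z s) - f k₀) r s`. -/
structure ED {K D S : Type} [TopologicalSpace K] [CStarAlgebra D] [Fintype S] (ι₁ : C(S1, ℂ) → D) (k₀ : K) {k : ℕ}
    (γ : C(K, ℂ) → C(S1, Matrix (Fin k) (Fin k) ℂ)) (E₁ : D) (v : Fin k → D) (r' : S → D) (z : S → K) (η : C(K, ℂ) → D) : Prop where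
  pre : IsStarProjection E₁
  piv : PI E₁ v
  prr : ∀ s, IsStarProjection (r' s)
  orr : ∀ s s', s ≠ s' → r' s * r' s' = 0
  orv : ∀ s a, r' s * v a = 0
  eta : ∀ f, η f = amp k₀ v ι₁ γ f + ∑ s, (f (z s) - f k₀) • r' s

/-- FCD. Fact D (uses T_UQC, T_SYX, T_CDA, T_CDB, T_TRN, T_UNM, T_RDV, T_PTC, q_HTP, q_TSB). PROOF. T_HTP: `ci, mh`; T_PTC: `m₂`. `M = (mh + (2 m₂ + 1)) + (m + (2 m₁ + 1))`. T_UQC for `(F, ε, M)`: `H₀, δ₀, r₀, N, y`. T_SYX with `r := r₀` and a modulus of `F` for `ε`: `C₁`. The answer is `H = H₀`, `δ = δ₀ / 2`. Given `k, γ`: T_CDA with `c₀ := C₁ / 8`, `δ := δ₀`: `G₁, δ₁, c₁` (also `c₁ ≤ C₁ / (8 k)`).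
Given `K₁, z₁, g₁, Q₁`: T_RDV gives `v` (`k φ₁ E₁ < 1`). T_CDB with `c₀ := C₁ / 8`: `G', ε'`; T_CDA: `K', z', g', Q'` with `c' = C₁ / 32`; T_CDB: `ρ, c₂`. T_SYX with `ρ` and `min c₂ (C₁ / 8)`: cells, `η₀`; `p₁ ∈ A₁` a projection with `0 < φ₁ p₁ < η₀` (richness), `n, S₀, T`. T_CDB with `p = α p₁`: slots `vι`. T_TRN: chain of length `M`, `c = C₁ / 4`, from
`(e, cmp k₀ e ι)` to `(∑ α v star (α v), α (amp k₀ v ι₁ γ ·))`. `S₁ = {s // s ∉ S₀}`. T_RDV in `A₁` with `q = 1 - ∑ v a star (v a)` (`card S₁ * φ₁ p₁ = 1 - φ C ≤ 1 - C₁ / 2 < 1 - k φ₁ E₁`): slots `v'`, `r' s = v' s star (v' s)`. T_UNM for `v = vι` restricted to `S₁`, `α v'`: `W`. `‖ι f - nf k₀ (cmp k₀ e ι) vι z f‖ ≤ 2 ε`. -/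
def T_FCD : Prop := ∀ (K A A₁ : Type) [MetricSpace K] [CompactSpace K] [ConnectedSpace K] [MeasurableSpace K] [BorelSpace K] [CStarAlgebra A] [CStarAlgebra A₁] (μ : Measure K) [IsProbabilityMeasure μ] [μ.IsOpenPosMeasure] (k₀ : K) (r : ℕ)
  (κ : C(S1, ℂ) → C(K, Matrix (Fin r) (Fin r) ℂ)) (c : C(K, K)) (φ : A →L[ℂ] ℂ) (φ₁ : A₁ →L[ℂ] ℂ) (ι : C(K, ℂ) →⋆ₐ[ℂ] A) (ι₁ : C(S1, ℂ) →⋆ₐ[ℂ] A₁) (α : A₁ →⋆ₐ[ℂ] A) (e₀ : A) (s : Fin r → A) (F : Finset C(K, ℂ)) (ε : ℝ) (m m₁ : ℕ),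
  0 < r → Rich φ → Rich φ₁ → KP k₀ κ → ContinuousMap.Homotopic (ContinuousMap.id K) c → EM μ φ ι c k₀ r e₀ s → (∀ a, φ (α a) = φ₁ a) → (∀ g, α (ι₁ g) = amp 1 s (fun f => ι (f.comp c)) κ g) → 0 < ε →
  ∃ (H : Finset C(K, ℂ)) (δ : ℝ), 0 < δ ∧ ∀ (k : ℕ) (γ : C(K, ℂ) → C(S1, Matrix (Fin k) (Fin k) ℂ)), 0 < k → AHM H δ γ → (∀ f, γ f 1 = f k₀ • (1 : Matrix (Fin k) (Fin k) ℂ)) →
    (∀ x : S1, ∃ w : ℕ → S1, w 0 = 1 ∧ w m₁ = x ∧ ∀ l < m₁, ∀ f ∈ F, opn (γ f (w l) - γ f (w (l + 1))) ≤ ε) → CDt k₀ H δ F ε m (fun f x => Matrix.of fun (a b : Fin k × Fin r) => κ (ent (γ f) a.1 b.1) x a.2 b.2) →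
  ∃ (G₁ : Finset C(S1, ℂ)) (δ₁ c₁ : ℝ), 0 < δ₁ ∧ 0 < c₁ ∧ ∀ (K₁ : ℕ) (z₁ : Fin K₁ → S1) (g₁ : Fin K₁ → C(S1, ℝ)) (Q₁ : Fin K₁ → A₁), AD G₁ δ₁ c₁ φ₁ (fun g => ι₁ g) z₁ g₁ Q₁ →
  ∃ (v : Fin k → A₁) (S : Type) (_ : Fintype S) (r' : S → A₁) (z : S → K) (η : C(K, ℂ) → A₁) (W : A), ED (fun g => ι₁ g) k₀ γ (1 - ∑ i, Q₁ i) v r' z η ∧ Uni W ∧ ∀ f ∈ F, ‖W * ι f * star W - α (η f)‖ ≤ 10 * ε

end Pool.Agent.FPS
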