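import Pool.Agent.FPS.Targets2
import Pool.Agent.FPS.Targets5

set_option autoImplicit false

/-!
# FPS: proof of `T_AMX` (a chain of amplifications)
-/

open scoped Classical
open MeasureTheory Pool.Agent.FPZ

noncomputable section

namespace Pool.Agent.FPS

namespace AMX_

lemma ah_mono {K A : Type} [TopologicalSpace K] [CompactSpace K] [CStarAlgebra A]
    {H : Finset C(K, ℂ)} {δ δ' : ℝ} {L : C(K, ℂ) → A} (h : AH H δ L) (hd : δ ≤ δ') :
    AH H δ' L where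
  add := h.add
  smul := h.smul
  one := h.one
  str := h.str
  pos := h.pos
  mul := fun f hf g hg => (h.mul f hf g hg).trans hd

end AMX_

open AMX_

theorem p_AMX (h1 : T_AMP) (h2 : T_AMC) (h3 : T_CHE) : T_AMX := by
  intro K K' n A _ _ _ _ _ _ _ _ φ k₀ k₀' E τ H F G δ δΨ δ₂ ε c m L Ψ hTS hE hτ hL hδΨ hδ₂ hε
    hΨ hG hcl hδ hc
  have hA : ∀ i ≤ m, AH H δ (amp k₀ τ L (Ψ i)) ∧
      Spt k₀ (∑ a, τ a * star (τ a)) (amp k₀ τ L (Ψ i)) ∧
      IsStarProjection (∑ a, τ a * star (τ a)) := by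
    intro i hi
    obtain ⟨e1, e2, e3⟩ := h1 K K' n A k₀ k₀' E τ H G δΨ δ₂ L (Ψ i) hE hτ hL (hΨ i hi) hδΨ hδ₂
      (hG i hi)
    exact ⟨ah_mono e1 hδ, e2, e3⟩
  have htr : (φ (∑ a, τ a * star (τ a))).re = Fintype.card n * (φ E).re := by
    rw [map_sum]
    have : ∀ a, φ (τ a * star (τ a)) = φ E := fun a => by
      rw [hTS.tr, hτ.1 a]
    simp [this]
  refine h3 K A φ k₀ H δ F ε c m (∑ a, τ a * star (τ a)) (fun i => amp k₀ τ L (Ψ i))
    (hA 0 (Nat.zero_le m)).2.2 (by rw [htr]; exact hc)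
    (fun i hi => ⟨(hA i hi).1, (hA i hi).2.1⟩) ?_
  intro i hi f hf
  exact h2 K K' n A k₀ k₀' E τ G δ₂ ε L (Ψ i) (Ψ (i + 1)) f hE hτ hL hε (hcl i hi f hf)

end Pool.Agent.FPS
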