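import Pool.Agent.FPS.Targets6

set_option autoImplicit false

/-!
# FPS: target APD (homomorphisms mapping generators near a subalgebra)
-/

open scoped Classical
open Pool.Agent.FPZ

noncomputable section

namespace Pool.Agent.FPS

namespace APD_

variable {A : Type} [CStarAlgebra A]

/-- `a` is controlled by the elements of `T` -/
def Gd (T : Set A) (a : A) : Prop := ∀ ε : ℝ, 0 < ε → ∃ (T₀ : Finset A) (δ : ℝ),
  (T₀ : Set A) ⊆ T ∧ 0 < δ ∧ ∀ (A' : Type) [CStarAlgebra A'] (σ : A →⋆ₐ[ℂ] A')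
    (D : StarSubalgebra ℂ A'), (∀ b ∈ T₀, ∃ d ∈ D, ‖σ b - d‖ ≤ δ) → ∃ d ∈ D, ‖σ a - d‖ ≤ ε

theorem norm_le {A' : Type} [CStarAlgebra A'] (θ : A →⋆ₐ[ℂ] A') (a : A) : ‖θ a‖ ≤ ‖a‖ :=
  NonUnitalStarAlgHom.norm_apply_le θ a

theorem two {T : Set A} {a b : A} (ha : Gd T a) (hb : Gd T b) {ε₁ ε₂ : ℝ} (h1 : 0 < ε₁)
    (h2 : 0 < ε₂) : ∃ (T₀ : Finset A) (δ : ℝ), (T₀ : Set A) ⊆ T ∧ 0 < δ ∧
    ∀ (A' : Type) [CStarAlgebra A'] (σ : A →⋆ₐ[ℂ] A') (D : StarSubalgebra ℂ A'),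
      (∀ b ∈ T₀, ∃ d ∈ D, ‖σ b - d‖ ≤ δ) →
      (∃ d ∈ D, ‖σ a - d‖ ≤ ε₁) ∧ ∃ d ∈ D, ‖σ b - d‖ ≤ ε₂ := by
  obtain ⟨S₁, δ₁, hS₁, hδ₁, h₁⟩ := ha ε₁ h1
  obtain ⟨S₂, δ₂, hS₂, hδ₂, h₂⟩ := hb ε₂ h2
  refine ⟨S₁ ∪ S₂, min δ₁ δ₂, ?_, lt_min hδ₁ hδ₂, fun A' _ σ D hσ => ⟨h₁ A' σ D fun b hb => ?_,
    h₂ A' σ D fun b hb => ?_⟩⟩
  · intro x hx
    rcases Finset.mem_union.1 (Finset.mem_coe.1 hx) with h | h
    · exact hS₁ h
    · exact hS₂ h
  · obtain ⟨d, hd, h⟩ := hσ b (Finset.mem_union_left _ hb)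
    exact ⟨d, hd, h.trans (min_le_left _ _)⟩
  · obtain ⟨d, hd, h⟩ := hσ b (Finset.mem_union_right _ hb)
    exact ⟨d, hd, h.trans (min_le_right _ _)⟩

theorem gd_adjoin {T : Set A} {a : A} (ha : a ∈ StarAlgebra.adjoin ℂ T) : Gd T a := by
  induction ha using StarAlgebra.adjoin_induction with
  | mem x hx =>
    intro ε hε
    refine ⟨{x}, ε, ?_, hε, fun A' _ σ D hσ => hσ x (Finset.mem_singleton_self x)⟩
    intro y hy
    rw [Finset.mem_coe, Finset.mem_singleton] at hy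
    rw [hy]
    exact hx
  | algebraMap r =>
    intro ε hε
    refine ⟨∅, 1, by simp, one_pos, fun A' _ σ D _ => ⟨algebraMap ℂ A' r, ?_, ?_⟩⟩
    · exact StarSubalgebra.algebraMap_mem D r
    · have h1 : σ (algebraMap ℂ A r) = algebraMap ℂ A' r := AlgHomClass.commutes σ r
      rw [h1, sub_self, norm_zero]
      exact hε.le
  | add x y _ _ hx hy =>
    intro ε hε
    obtain ⟨S, δ, hS, hδ, h⟩ := two hx hy (half_pos hε) (half_pos hε)
    refine ⟨S, δ, hS, hδ, fun A' _ σ D hσ => ?_⟩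
    obtain ⟨⟨d₁, hd₁, h1⟩, d₂, hd₂, h2⟩ := h A' σ D hσ
    refine ⟨d₁ + d₂, add_mem hd₁ hd₂, ?_⟩
    have h3 : σ (x + y) - (d₁ + d₂) = (σ x - d₁) + (σ y - d₂) := by
      rw [map_add]
      abel
    rw [h3]
    exact (norm_add_le _ _).trans (by linarith)
  | mul x y _ _ hx hy =>
    intro ε hε
    have hx0 : 0 < 2 * (‖x‖ + 1) := by positivity
    have hy0 : 0 < 2 * (‖y‖ + 1) := by positivity
    obtain ⟨S, δ, hS, hδ, h⟩ := two hx hy (div_pos hε hy0)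
      (lt_min one_pos (div_pos hε hx0))
    refine ⟨S, δ, hS, hδ, fun A' _ σ D hσ => ?_⟩
    obtain ⟨⟨d₁, hd₁, h1⟩, d₂, hd₂, h2⟩ := h A' σ D hσ
    refine ⟨d₁ * d₂, mul_mem hd₁ hd₂, ?_⟩
    have h3 : σ (x * y) - d₁ * d₂ = σ x * (σ y - d₂) + (σ x - d₁) * d₂ := by
      rw [map_mul]
      noncomm_ring
    rw [h3]
    have hd2 : ‖d₂‖ ≤ ‖y‖ + 1 := by
      have h5 : d₂ = σ y - (σ y - d₂) := by abel
      have h6 : ‖d₂‖ ≤ ‖σ y‖ + ‖σ y - d₂‖ := by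
        conv_lhs => rw [h5]
        exact norm_sub_le _ _
      have h7 := norm_le σ y
      have h8 := h2.trans (min_le_left _ _)
      linarith
    have h4 : ‖σ x * (σ y - d₂)‖ ≤ (‖x‖ + 1) * (ε / (2 * (‖x‖ + 1))) := by
      refine (norm_mul_le _ _).trans ?_
      exact mul_le_mul ((norm_le σ x).trans (by linarith)) (h2.trans (min_le_right _ _))
        (norm_nonneg _) (by positivity)
    have h5 : ‖(σ x - d₁) * d₂‖ ≤ (ε / (2 * (‖y‖ + 1))) * (‖y‖ + 1) := by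
      refine (norm_mul_le _ _).trans ?_
      exact mul_le_mul h1 hd2 (norm_nonneg _) (by positivity)
    have h6 : (‖x‖ + 1) * (ε / (2 * (‖x‖ + 1))) = ε / 2 := by
      have : ‖x‖ + 1 ≠ 0 := by positivity
      field_simp
    have h7 : (ε / (2 * (‖y‖ + 1))) * (‖y‖ + 1) = ε / 2 := by
      have : ‖y‖ + 1 ≠ 0 := by positivity
      field_simp
    rw [h6] at h4
    rw [h7] at h5
    exact (norm_add_le _ _).trans (by linarith)
  | star x _ hx =>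
    intro ε hε
    obtain ⟨S, δ, hS, hδ, h⟩ := hx ε hε
    refine ⟨S, δ, hS, hδ, fun A' _ σ D hσ => ?_⟩
    obtain ⟨d, hd, h1⟩ := h A' σ D hσ
    refine ⟨star d, star_mem hd, ?_⟩
    have h3 : σ (star x) - star d = star (σ x - d) := by
      rw [map_star, star_sub]
    rw [h3, norm_star]
    exact h1

theorem gd_all {T : Set A} {a : A} (ha : a ∈ cal T) : Gd T a := by
  intro ε hε
  have ha : a ∈ closure ((StarAlgebra.adjoin ℂ T : StarSubalgebra ℂ A) : Set A) := ha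
  obtain ⟨a', ha', hd⟩ := Metric.mem_closure_iff.1 ha (ε / 3) (by positivity)
  rw [dist_eq_norm] at hd
  obtain ⟨S, δ, hS, hδ, h⟩ := gd_adjoin ha' (ε / 3) (by positivity)
  refine ⟨S, δ, hS, hδ, fun A' _ σ D hσ => ?_⟩
  obtain ⟨d, hdD, h1⟩ := h A' σ D hσ
  refine ⟨d, hdD, ?_⟩
  have h2 := norm_le σ (a - a')
  have h3 : σ a - d = σ (a - a') + (σ a' - d) := by
    rw [map_sub]
    abel
  rw [h3]
  calc ‖σ (a - a') + (σ a' - d)‖ ≤ ‖σ (a - a')‖ + ‖σ a' - d‖ := norm_add_le _ _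
    _ ≤ ε := by linarith

end APD_

theorem p_APD : T_APD := by
  intro A _ T E ε hε
  induction E using Finset.induction_on with
  | empty => exact fun _ => ⟨∅, 1, by simp, one_pos, by simp⟩
  | insert a E _ ih =>
    intro hE
    obtain ⟨S₁, δ₁, hS₁, hδ₁, h₁⟩ := ih fun a ha => hE a (Finset.mem_insert_of_mem ha)
    obtain ⟨S₂, δ₂, hS₂, hδ₂, h₂⟩ := APD_.gd_all (hE a (Finset.mem_insert_self _ _)) ε hε
    refine ⟨S₁ ∪ S₂, min δ₁ δ₂, ?_, lt_min hδ₁ hδ₂, fun A' _ σ D hσ b hb => ?_⟩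
    · intro x hx
      rcases Finset.mem_union.1 (Finset.mem_coe.1 hx) with h | h
      · exact hS₁ h
      · exact hS₂ h
    · rcases Finset.mem_insert.1 hb with rfl | hb
      · refine h₂ A' σ D fun c hc => ?_
        obtain ⟨d, hd, h⟩ := hσ c (Finset.mem_union_right _ hc)
        exact ⟨d, hd, h.trans (min_le_right _ _)⟩
      · refine h₁ A' σ D (fun c hc => ?_) b hb
        obtain ⟨d, hd, h⟩ := hσ c (Finset.mem_union_left _ hc)
        exact ⟨d, hd, h.trans (min_le_left _ _)⟩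

end Pool.Agent.FPS
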