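import Pool.Agent.FPS.Targets6
import Pool.Agent.FPZ.P_AUT

set_option autoImplicit false

/-!
# FPS (MP_32d866_an): block automorphisms for general index sets (target AUJ)
-/

open scoped Classical
open MeasureTheory Pool.Agent.FPZ

noncomputable section

namespace Pool.Agent.FPS

namespace AUJ_

variable {A : Type} [CStarAlgebra A]

open AUT_ in
/-- The endomorphism. -/
theorem endo (h_ISO : FPZ.T_ISO) (φ : A →L[ℂ] ℂ) (ts : TS φ) (S : Bool → StarSubalgebra ℂ A)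
    (hfree : Free φ (fun b => (S b : Set A))) (hgen : cal (⋃ b, (S b : Set A)) = ⊤)
    (w : A) (hw : w ∈ S true) (h1 : star w * w = 1) (h2 : w * star w = 1) :
    ∃ Θ : A →⋆ₐ[ℂ] A, (∀ x ∈ S true, Θ x = w * x * star w) ∧ (∀ x ∈ S false, Θ x = x) ∧
      (∀ a, φ (Θ a) = φ a) ∧ Isometry Θ := by
  let v : Bool → A := fun b => bif b then w else 1
  have hv1 : ∀ b, star (v b) * v b = 1 := by
    intro b
    cases b
    · simp [v]
    · exact h1
  have hv2 : ∀ b, v b * star (v b) = 1 := by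
    intro b
    cases b
    · simp [v]
    · exact h2
  have hvm : ∀ b, v b ∈ S b := by
    intro b
    cases b
    · exact one_mem _
    · exact hw
  let ι' : ∀ b, S b →⋆ₐ[ℂ] A := fun b => (conj (v b) (hv1 b) (hv2 b)).comp (S b).subtype
  have hι' : ∀ b (x : S b), ι' b x = v b * (x : A) * star (v b) := fun b x => rfl
  obtain ⟨Θ, hΘ1, hΘ2, hΘ3⟩ := h_ISO Bool A A (fun b => S b) φ φ (fun b => (S b).subtype) ι' ts ts
    (by
      refine free_mono (fun b => ?_) hfree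
      rintro _ ⟨x, rfl⟩
      exact x.2)
    (by
      refine free_mono (fun b => ?_) hfree
      rintro _ ⟨x, rfl⟩
      rw [hι']
      exact mul_mem (mul_mem (hvm b) x.2) (star_mem (hvm b)))
    (by
      intro b x
      rw [hι', ts.tr (v b * (x : A)) (star (v b)), ← mul_assoc, hv1, one_mul]
      rfl)
    (by
      rw [← hgen]
      congr 1
      refine Set.iUnion_congr fun b => ?_
      ext y
      constructor
      · rintro ⟨x, rfl⟩
        exact x.2
      · intro hy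
        exact ⟨⟨y, hy⟩, rfl⟩)
  refine ⟨Θ, fun x hx => ?_, fun x hx => ?_, hΘ2, hΘ3⟩
  · exact hΘ1 true ⟨x, hx⟩
  · have := hΘ1 false ⟨x, hx⟩
    rw [hι'] at this
    have h3 : v false = 1 := rfl
    rw [h3, star_one, mul_one, one_mul] at this
    exact this

open AUT_ in
/-- The automorphism. -/
theorem auto (h_ISO : FPZ.T_ISO) (φ : A →L[ℂ] ℂ) (ts : TS φ) (S : Bool → StarSubalgebra ℂ A)
    (hfree : Free φ (fun b => (S b : Set A))) (hgen : cal (⋃ b, (S b : Set A)) = ⊤)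
    (w : A) (hw : w ∈ S true) (h1 : star w * w = 1) (h2 : w * star w = 1) :
    ∃ ψ : A ≃⋆ₐ[ℂ] A, (∀ x ∈ S true, ψ x = w * x * star w) ∧ (∀ x ∈ S false, ψ x = x) ∧
      ∀ a, φ (ψ a) = φ a := by
  obtain ⟨Θ, a1, a2, a4, a3⟩ := endo h_ISO φ ts S hfree hgen w hw h1 h2
  obtain ⟨Θ', b1, b2, _, b3⟩ := endo h_ISO φ ts S hfree hgen (star w) (star_mem hw)
    (by rw [star_star]; exact h2) (by rw [star_star]; exact h1)
  rw [star_star] at b1
  have key : ∀ (θ θ' : A →⋆ₐ[ℂ] A), Isometry θ → Isometry θ' →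
      (∀ b, ∀ x ∈ S b, θ' (θ x) = x) → ∀ x, θ' (θ x) = x := by
    intro θ θ' c1 c2 c3 x
    refine eq_id (⋃ b, (S b : Set A)) hgen (θ'.comp θ) ?_ ?_ x
    · exact c2.continuous.comp c1.continuous
    · intro y hy
      obtain ⟨b, hb⟩ := Set.mem_iUnion.1 hy
      exact c3 b y hb
  have k1 : ∀ x, Θ' (Θ x) = x := by
    refine key Θ Θ' a3 b3 ?_
    intro b x hx
    cases b
    · rw [a2 x hx, b2 x hx]
    · rw [a1 x hx, b1 _ (mul_mem (mul_mem hw hx) (star_mem hw))]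
      calc star w * (w * x * star w) * w = (star w * w) * x * (star w * w) := by noncomm_ring
        _ = x := by rw [h1, one_mul, mul_one]
  have k2 : ∀ x, Θ (Θ' x) = x := by
    refine key Θ' Θ b3 a3 ?_
    intro b x hx
    cases b
    · rw [b2 x hx, a2 x hx]
    · rw [b1 x hx, a1 _ (mul_mem (mul_mem (star_mem hw) hx) hw)]
      calc w * (star w * x * w) * star w = (w * star w) * x * (w * star w) := by noncomm_ring
        _ = x := by rw [h2, one_mul, mul_one]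
  refine ⟨StarAlgEquiv.ofStarAlgHom Θ Θ' ?_ ?_, a1, a2, a4⟩
  · ext x
    exact k1 x
  · ext x
    exact k2 x

end AUJ_

open AUT_ in
/-- AUJ: the inner automorphism of a block, for a general set of indices. -/
theorem p_AUJ (h_ISO : FPZ.T_ISO) (h_FRG : FPZ.T_FRG) : T_AUJ := by
  intro Z A _ _ _ _ μ t φ ι κ J w hFS hw hU
  let S : Bool → StarSubalgebra ℂ A := fun b => bif b then GA ι κ J else EA κ Jᶜ
  have hfree : Free φ (fun b => (S b : Set A)) := by
    refine free_mono (fun b => ?_) (h_FRG Z A μ t φ ι κ J hFS)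
    cases b
    · exact subset_rfl
    · exact subset_rfl
  have hG : ∀ x ∈ Set.range ι ∪ ⋃ i ∈ J, Set.range (κ i), x ∈ S true := fun x hx =>
    subset_cal _ hx
  have hE : ∀ x ∈ ⋃ i ∈ Jᶜ, Set.range (κ i), x ∈ S false := fun x hx => subset_cal _ hx
  have hι : ∀ g, ι g ∈ S true := fun g => hG _ (Or.inl ⟨g, rfl⟩)
  have hκ : ∀ i, i ∉ J → ∀ x, κ i x ∈ S false := by
    intro i hi x
    exact hE _ (Set.mem_iUnion₂.2 ⟨i, hi, ⟨x, rfl⟩⟩)
  have hκ' : ∀ i, i ∈ J → ∀ x, κ i x ∈ S true := by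
    intro i hi x
    exact hG _ (Or.inr (Set.mem_iUnion₂.2 ⟨i, hi, ⟨x, rfl⟩⟩))
  have hgen : cal (⋃ b, (S b : Set A)) = ⊤ := by
    refine top_le_iff.1 ?_
    rw [← hFS.gen]
    refine cal_mono ?_
    rintro x (⟨g, rfl⟩ | hx)
    · exact Set.mem_iUnion.2 ⟨true, hι g⟩
    · obtain ⟨i, ⟨y, rfl⟩⟩ := Set.mem_iUnion.1 hx
      by_cases hi : i ∈ J
      · exact Set.mem_iUnion.2 ⟨true, hκ' i hi y⟩
      · exact Set.mem_iUnion.2 ⟨false, hκ i hi y⟩
  obtain ⟨ψ, p1, p2, p3⟩ := AUJ_.auto h_ISO φ hFS.ts S hfree hgen w hw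
    hU.1 hU.2
  exact ⟨ψ, fun x hx => p1 x hx, fun x hx => p2 x hx, p3⟩

end Pool.Agent.FPS
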