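import Pool.Agent.FPS.P_BK2

set_option autoImplicit false

/-!
# FPS BK1: basic properties of the coherent state quantisation (helper9)
-/

open scoped Classical
open MeasureTheory Pool.Agent.FPZ

noncomputable section

namespace Pool.Agent.FPS

namespace BK1_

open BK2_

/-- the unit square -/
def Q : Set (ℝ × ℝ) := Set.Icc (0 : ℝ) 1 ×ˢ Set.Icc (0 : ℝ) 1

theorem Q_compact : IsCompact Q := isCompact_Icc.prod isCompact_Icc

/-- clamping to the unit interval -/
def cl (x : ℝ) : ℝ := max 0 (min 1 x)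

theorem cl_cont : Continuous cl := by unfold cl; fun_prop

theorem cl_mem (x : ℝ) : 0 ≤ cl x ∧ cl x ≤ 1 := by
  unfold cl
  exact ⟨le_max_left _ _, max_le zero_le_one (min_le_left _ _)⟩

theorem cl_eq (x : ℝ) (h0 : 0 ≤ x) (h1 : x ≤ 1) : cl x = x := by
  unfold cl
  rw [min_eq_right h1, max_eq_right h0]

/-- the vector of the coherent state, everywhere continuous -/
def W (p : ℝ × ℝ) : S2 := nv (cl p.1) p.2

theorem W_eq (p : ℝ × ℝ) (hp : p ∈ Q) : nv p.1 p.2 = W p := by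
  unfold W
  rw [cl_eq p.1 hp.1.1 hp.1.2]

theorem W_cont : Continuous W := by
  rw [continuous_induced_rng]
  have h : (Subtype.val ∘ W : ℝ × ℝ → E3) = fun p => WithLp.toLp 2
      ![2 * Real.sqrt (cl p.1 * (1 - cl p.1)) * Real.cos (2 * Real.pi * p.2),
        2 * Real.sqrt (cl p.1 * (1 - cl p.1)) * Real.sin (2 * Real.pi * p.2),
        2 * cl p.1 - 1] := by
    funext p
    exact nv_coe (cl p.1) p.2 (cl_mem p.1).1 (cl_mem p.1).2
  rw [h]
  have hc : Continuous fun p : ℝ × ℝ => cl p.1 := cl_cont.comp continuous_fst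
  refine (PiLp.continuous_toLp 2 _).comp ?_
  refine continuous_pi fun i => ?_
  fin_cases i
  · change Continuous fun p : ℝ × ℝ =>
      2 * Real.sqrt (cl p.1 * (1 - cl p.1)) * Real.cos (2 * Real.pi * p.2)
    fun_prop
  · change Continuous fun p : ℝ × ℝ =>
      2 * Real.sqrt (cl p.1 * (1 - cl p.1)) * Real.sin (2 * Real.pi * p.2)
    fun_prop
  · change Continuous fun p : ℝ × ℝ => 2 * cl p.1 - 1
    fun_prop

/-- the coherent state vector -/
def c (N : ℕ) (p : ℝ × ℝ) (i : Fin (N + 1)) : ℂ := cs N p.1 p.2 i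

theorem c_cont (N : ℕ) (i : Fin (N + 1)) : Continuous fun p => c N p i := by
  unfold c cs
  fun_prop

/-- continuous functions are integrable on the square -/
theorem int_Q (G : ℝ × ℝ → ℂ) (hG : Continuous G) : IntegrableOn G Q :=
  hG.continuousOn.integrableOn_compact Q_compact

theorem iter (G : ℝ × ℝ → ℂ) (hG : Continuous G) :
    ∫ x in (0 : ℝ)..1, ∫ φ in (0 : ℝ)..1, G (x, φ) = ∫ p in Q, G p := by
  unfold Q
  rw [Measure.volume_eq_prod, setIntegral_prod]
  · rw [intervalIntegral.integral_of_le zero_le_one, ← integral_Icc_eq_integral_Ioc]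
    refine setIntegral_congr_fun measurableSet_Icc fun x _ => ?_
    rw [intervalIntegral.integral_of_le zero_le_one, ← integral_Icc_eq_integral_Ioc]
  · exact int_Q G hG

theorem bk_eq (N : ℕ) (f : C(S2, ℂ)) (i j : Fin (N + 1)) :
    bk N f i j = ((N : ℂ) + 1) * ∫ p in Q, f (W p) * (c N p i * star (c N p j)) := by
  have h1 : bk N f i j = ((N : ℂ) + 1) * ∫ x in (0 : ℝ)..1, ∫ φ in (0 : ℝ)..1,
      f (nv x φ) * (cs N x φ i * star (cs N x φ j)) := rfl
  rw [h1]
  congr 1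
  rw [← iter (fun p => f (W p) * (c N p i * star (c N p j)))]
  · refine intervalIntegral.integral_congr fun x hx => ?_
    rw [Set.uIcc_of_le zero_le_one] at hx
    refine intervalIntegral.integral_congr fun φ _ => ?_
    change f (nv x φ) * _ = f (nv (cl x) φ) * (cs N x φ i * star (cs N x φ j))
    rw [cl_eq x hx.1 hx.2]
  · exact (f.continuous.comp W_cont).mul ((c_cont N i).mul (c_cont N j).star)

theorem bk_cont (N : ℕ) (f : C(S2, ℂ)) (i j : Fin (N + 1)) :
    Continuous fun p => f (W p) * (c N p i * star (c N p j)) :=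
  (f.continuous.comp W_cont).mul ((c_cont N i).mul (c_cont N j).star)

theorem bk_add (N : ℕ) (f g : C(S2, ℂ)) : bk N (f + g) = bk N f + bk N g := by
  ext i j
  rw [Matrix.add_apply, bk_eq, bk_eq, bk_eq, ← mul_add, ← integral_add]
  · congr 1
    refine integral_congr_ae (Filter.Eventually.of_forall fun p => ?_)
    simp only [ContinuousMap.add_apply]
    ring
  · exact int_Q _ (bk_cont N f i j)
  · exact int_Q _ (bk_cont N g i j)

theorem bk_smul (N : ℕ) (a : ℂ) (f : C(S2, ℂ)) : bk N (a • f) = a • bk N f := by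
  ext i j
  rw [Matrix.smul_apply, bk_eq, bk_eq, smul_eq_mul, mul_left_comm]
  congr 1
  have h := integral_const_mul (μ := volume.restrict Q) a
    (fun p => f (W p) * (c N p i * star (c N p j)))
  rw [← h]
  refine integral_congr_ae (Filter.Eventually.of_forall fun p => ?_)
  simp only [ContinuousMap.smul_apply, smul_eq_mul]
  ring

theorem bk_zero (N : ℕ) : bk N 0 = 0 := by
  have h := bk_smul N 0 0
  have h2 : ((0 : ℂ) • (0 : C(S2, ℂ))) = 0 := by
    ext x
    simp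
  rw [h2, zero_smul] at h
  exact h

theorem bk_star (N : ℕ) (f : C(S2, ℂ)) : bk N (star f) = (bk N f).conjTranspose := by
  ext i j
  rw [Matrix.conjTranspose_apply, bk_eq, bk_eq, star_mul']
  have h1 : star ((N : ℂ) + 1) = (N : ℂ) + 1 := by
    rw [star_add, star_natCast, star_one]
  rw [h1]
  congr 1
  have h2 : star (∫ p in Q, f (W p) * (c N p j * star (c N p i))) =
      ∫ p in Q, star (f (W p) * (c N p j * star (c N p i))) := by
    rw [Complex.star_def, ← integral_conj]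
  rw [h2]
  refine integral_congr_ae (Filter.Eventually.of_forall fun p => ?_)
  simp only [ContinuousMap.star_apply, star_mul', star_star]
  ring

theorem bk_one (N : ℕ) : bk N 1 = 1 := by
  ext i j
  have hi : (i : ℕ) ≤ N := by omega
  have h1 := dbl (fun x φ => (1 : C(S2, ℂ)) (nv x φ) * (cs N x φ i * star (cs N x φ j)))
    (fun x => ((am N x i * am N x j : ℝ) : ℂ)) (((j : ℕ) : ℤ) - ((i : ℕ) : ℤ)) (by
      intro x h0 h1 φ
      change (1 : ℂ) * (cs N x φ i * star (cs N x φ j)) = _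
      rw [one_mul, cs_mul])
  have h2 : bk N 1 i j = ((N : ℂ) + 1) * ∫ x in (0 : ℝ)..1, ∫ φ in (0 : ℝ)..1,
      (1 : C(S2, ℂ)) (nv x φ) * (cs N x φ i * star (cs N x φ j)) := rfl
  rw [h2, h1]
  by_cases hij : i = j
  · subst hij
    rw [if_pos (by simp), Matrix.one_apply_eq]
    have h3 : ∫ x in (0 : ℝ)..1, ((am N x i * am N x i : ℝ) : ℂ) =
        ∫ x in (0 : ℝ)..1, ((N.choose i * (x ^ (i : ℕ) * (1 - x) ^ (N - (i : ℕ))) : ℝ) : ℂ) := by
      apply intervalIntegral.integral_congr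
      intro x hx
      rw [Set.uIcc_of_le zero_le_one] at hx
      change ((am N x i * am N x i : ℝ) : ℂ) = _
      rw [am_sq N x i hx.1 hx.2]
      congr 1
      ring
    rw [h3, intervalIntegral.integral_ofReal, intervalIntegral.integral_const_mul]
    have h4 := ch0 N i hi
    unfold be at h4
    have h5 := congrArg (fun r : ℝ => (r : ℂ)) h4
    push_cast at h5 ⊢
    rw [mul_comm]
    exact h5
  · rw [if_neg, mul_zero, Matrix.one_apply_ne hij]
    intro h
    apply hij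
    apply Fin.ext
    omega

/-! ## The sesquilinear form -/

section

variable {n : Type} [Fintype n]

/-- `(c* ⊗ 1) x` -/
def xi (N : ℕ) (x : Fin (N + 1) × n → ℂ) (p : ℝ × ℝ) (a : n) : ℂ :=
  ∑ i, star (c N p i) * x (i, a)

theorem xi_cont (N : ℕ) (x : Fin (N + 1) × n → ℂ) (a : n) : Continuous fun p => xi N x p a := by
  unfold xi
  exact continuous_finsetSum _ fun i _ => (c_cont N i).star.mul continuous_const

theorem bn_eq (N : ℕ) (M : C(S2, Matrix n n ℂ)) (u v : Fin (N + 1) × n) :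
    bn N M u v = ((N : ℂ) + 1) *
      ∫ p in Q, M (W p) u.2 v.2 * (c N p u.1 * star (c N p v.1)) := bk_eq N (ent M u.2 v.2) u.1 v.1

theorem M_cont (M : C(S2, Matrix n n ℂ)) (a b : n) : Continuous fun p => M (W p) a b :=
  (ent M a b).continuous.comp W_cont

theorem form_alg (N : ℕ) (A : Matrix n n ℂ) (x y : Fin (N + 1) × n → ℂ) (p : ℝ × ℝ) :
    ∑ u, ∑ v, star (x u) * (A u.2 v.2 * (c N p u.1 * star (c N p v.1))) * y v =
      ∑ a, ∑ b, star (xi N x p a) * A a b * xi N y p b := by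
  unfold xi
  simp only [Fintype.sum_prod_type, star_sum, star_mul', star_star]
  rw [Finset.sum_comm]
  refine Finset.sum_congr rfl fun a _ => ?_
  rw [show ∑ i, ∑ j, ∑ b, star (x (i, a)) * (A a b * (c N p i * star (c N p j))) * y (j, b) =
    ∑ b, ∑ i, ∑ j, star (x (i, a)) * (A a b * (c N p i * star (c N p j))) * y (j, b) by
      rw [show ∑ i, ∑ j, ∑ b, star (x (i, a)) * (A a b * (c N p i * star (c N p j))) * y (j, b) =
        ∑ i, ∑ b, ∑ j, star (x (i, a)) * (A a b * (c N p i * star (c N p j))) * y (j, b) from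
          Finset.sum_congr rfl fun i _ => Finset.sum_comm]
      exact Finset.sum_comm]
  refine Finset.sum_congr rfl fun b _ => ?_
  rw [Finset.sum_mul, Finset.sum_mul]
  refine Finset.sum_congr rfl fun i _ => ?_
  rw [Finset.mul_sum]
  refine Finset.sum_congr rfl fun j _ => ?_
  ring

theorem form (N : ℕ) (M : C(S2, Matrix n n ℂ)) (x y : Fin (N + 1) × n → ℂ) :
    ∑ u, ∑ v, star (x u) * bn N M u v * y v = ((N : ℂ) + 1) *
      ∫ p in Q, ∑ a, ∑ b, star (xi N x p a) * M (W p) a b * xi N y p b := by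
  have h1 : ∀ u v : Fin (N + 1) × n, star (x u) * bn N M u v * y v = ((N : ℂ) + 1) *
      ∫ p in Q, star (x u) * (M (W p) u.2 v.2 * (c N p u.1 * star (c N p v.1))) * y v := by
    intro u v
    rw [bn_eq, integral_mul_const, integral_const_mul]
    ring
  have hc : ∀ u v : Fin (N + 1) × n, Continuous fun p =>
      star (x u) * (M (W p) u.2 v.2 * (c N p u.1 * star (c N p v.1))) * y v := by
    intro u v
    exact (continuous_const.mul ((M_cont M u.2 v.2).mul
      ((c_cont N u.1).mul (c_cont N v.1).star))).mul continuous_const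
  have h2 : ∑ u, ∑ v, star (x u) * bn N M u v * y v = ((N : ℂ) + 1) *
      ∫ p in Q, ∑ u, ∑ v,
        star (x u) * (M (W p) u.2 v.2 * (c N p u.1 * star (c N p v.1))) * y v := by
    rw [integral_finsetSum, Finset.mul_sum]
    · refine Finset.sum_congr rfl fun u _ => ?_
      rw [integral_finsetSum, Finset.mul_sum]
      · exact Finset.sum_congr rfl fun v _ => h1 u v
      · intro v _
        exact int_Q _ (hc u v)
    · intro u _
      exact int_Q _ (continuous_finsetSum _ fun v _ => hc u v)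
  rw [h2]
  congr 1
  exact integral_congr_ae (Filter.Eventually.of_forall fun p => form_alg N (M (W p)) x y p)

/-- the constant identity matrix -/
def I1 (n : Type) [Fintype n] : C(S2, Matrix n n ℂ) := ContinuousMap.const S2 1

theorem bn_one (N : ℕ) (u v : Fin (N + 1) × n) : bn N (I1 n) u v = if u = v then 1 else 0 := by
  have h1 : bn N (I1 n) u v = bk N (ent (I1 n) u.2 v.2) u.1 v.1 := rfl
  rw [h1]
  by_cases h : u.2 = v.2
  · have h2 : ent (I1 n) u.2 v.2 = 1 := by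
      ext m
      change (1 : Matrix n n ℂ) u.2 v.2 = 1
      rw [h, Matrix.one_apply_eq]
    rw [h2, bk_one, Matrix.one_apply]
    by_cases h3 : u.1 = v.1
    · rw [if_pos h3, if_pos (Prod.ext h3 h)]
    · rw [if_neg h3, if_neg]
      intro h4
      exact h3 (by rw [h4])
  · have h2 : ent (I1 n) u.2 v.2 = 0 := by
      ext m
      change (1 : Matrix n n ℂ) u.2 v.2 = 0
      rw [Matrix.one_apply_ne h]
    rw [h2, bk_zero, Matrix.zero_apply, if_neg]
    intro h4
    exact h (by rw [h4])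

theorem ssq (z : ℂ) : star z * z = ((‖z‖ ^ 2 : ℝ) : ℂ) := by
  rw [Complex.star_def, Complex.conj_mul']
  push_cast
  rfl

/-- the isometry -/
theorem iso (N : ℕ) (x : Fin (N + 1) × n → ℂ) :
    ((N : ℝ) + 1) * ∫ p in Q, ∑ a, ‖xi N x p a‖ ^ 2 = ∑ u, ‖x u‖ ^ 2 := by
  have h1 := form N (I1 n) x x
  have h2 : ∑ u, ∑ v, star (x u) * bn N (I1 n) u v * x v = ((∑ u, ‖x u‖ ^ 2 : ℝ) : ℂ) := by
    rw [Complex.ofReal_sum]
    refine Finset.sum_congr rfl fun u _ => ?_
    rw [Finset.sum_eq_single u]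
    · rw [bn_one, if_pos rfl, mul_one, ssq]
    · intro v _ hv
      rw [bn_one, if_neg (Ne.symm hv), mul_zero, zero_mul]
    · intro hn
      exact absurd (Finset.mem_univ _) hn
  have h3 : ∫ p in Q, ∑ a, ∑ b, star (xi N x p a) * (I1 n) (W p) a b * xi N x p b =
      ((∫ p in Q, ∑ a, ‖xi N x p a‖ ^ 2 : ℝ) : ℂ) := by
    rw [← integral_complex_ofReal]
    refine integral_congr_ae (Filter.Eventually.of_forall fun p => ?_)
    simp only
    rw [Complex.ofReal_sum]
    refine Finset.sum_congr rfl fun a _ => ?_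
    rw [Finset.sum_eq_single a]
    · change star (xi N x p a) * (1 : Matrix n n ℂ) a a * xi N x p a = _
      rw [Matrix.one_apply_eq, mul_one, ssq]
    · intro b _ hb
      change star (xi N x p a) * (1 : Matrix n n ℂ) a b * xi N x p b = _
      rw [Matrix.one_apply_ne (Ne.symm hb), mul_zero, zero_mul]
    · intro hn
      exact absurd (Finset.mem_univ _) hn
  rw [h2, h3] at h1
  have h4 : ((∑ u, ‖x u‖ ^ 2 : ℝ) : ℂ) =
      ((((N : ℝ) + 1) * ∫ p in Q, ∑ a, ‖xi N x p a‖ ^ 2 : ℝ) : ℂ) := by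
    rw [h1]
    push_cast
    rfl
  exact (Complex.ofReal_injective h4).symm

/-! ## Operator norms and sums -/

variable {m : Type} [Fintype m]

theorem inner_sum (A : Matrix m m ℂ) (x y : EuclideanSpace ℂ m) :
    inner ℂ x (Matrix.toEuclideanCLM (n := m) (𝕜 := ℂ) A y) =
      ∑ u, ∑ v, star (x u) * A u v * y v := by
  rw [PiLp.inner_apply]
  refine Finset.sum_congr rfl fun u _ => ?_
  rw [Matrix.ofLp_toEuclideanCLM]
  change (A.mulVec (WithLp.ofLp y)) u * star (x u) = _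
  rw [Matrix.mulVec, dotProduct, Finset.sum_mul]
  refine Finset.sum_congr rfl fun v _ => ?_
  ring

theorem form_le (A : Matrix m m ℂ) (B : ℝ) (hA : opn A ≤ B) (x y : m → ℂ) :
    ‖∑ u, ∑ v, star (x u) * A u v * y v‖ ≤
      B / 2 * (∑ u, ‖x u‖ ^ 2 + ∑ u, ‖y u‖ ^ 2) := by
  have h1 := inner_sum A (WithLp.toLp 2 x) (WithLp.toLp 2 y)
  have h2 : ‖∑ u, ∑ v, star (x u) * A u v * y v‖ ≤
      ‖(WithLp.toLp 2 x : EuclideanSpace ℂ m)‖ *
        (B * ‖(WithLp.toLp 2 y : EuclideanSpace ℂ m)‖) := by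
    have h3 : ∑ u, ∑ v, star (x u) * A u v * y v =
        inner ℂ (WithLp.toLp 2 x : EuclideanSpace ℂ m)
          (Matrix.toEuclideanCLM (n := m) (𝕜 := ℂ) A (WithLp.toLp 2 y)) := h1.symm
    rw [h3]
    refine (norm_inner_le_norm _ _).trans ?_
    refine mul_le_mul_of_nonneg_left ?_ (norm_nonneg _)
    refine ((Matrix.toEuclideanCLM (n := m) (𝕜 := ℂ) A).le_opNorm _).trans ?_
    exact mul_le_mul_of_nonneg_right hA (norm_nonneg _)
  have h4 : ∀ z : m → ℂ, ‖(WithLp.toLp 2 z : EuclideanSpace ℂ m)‖ ^ 2 = ∑ u, ‖z u‖ ^ 2 :=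
    fun z => EuclideanSpace.norm_sq_eq _
  have hB : 0 ≤ B := (norm_nonneg _).trans hA
  rw [← h4 x, ← h4 y]
  refine h2.trans ?_
  nlinarith [mul_nonneg hB (sq_nonneg (‖(WithLp.toLp 2 x : EuclideanSpace ℂ m)‖ -
    ‖(WithLp.toLp 2 y : EuclideanSpace ℂ m)‖))]

theorem opn_le (A : Matrix m m ℂ) (B : ℝ) (hB : 0 ≤ B)
    (h : ∀ x y : m → ℂ, ‖∑ u, ∑ v, star (x u) * A u v * y v‖ ≤
      B / 2 * (∑ u, ‖x u‖ ^ 2 + ∑ u, ‖y u‖ ^ 2)) : opn A ≤ B := by
  refine ContinuousLinearMap.opNorm_le_bound _ hB fun y => ?_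
  set w : EuclideanSpace ℂ m := Matrix.toEuclideanCLM (n := m) (𝕜 := ℂ) A y with hw
  by_cases hw0 : w = 0
  · rw [hw0, norm_zero]
    exact mul_nonneg hB (norm_nonneg _)
  by_cases hy0 : y = 0
  · exact absurd (by rw [hw, hy0, map_zero]) hw0
  have hwp : 0 < ‖w‖ := norm_pos_iff.mpr hw0
  have hyp : 0 < ‖y‖ := norm_pos_iff.mpr hy0
  have h1 := h (((‖y‖ / ‖w‖ : ℝ) : ℂ) • w) y
  have h2 : ∑ u, ∑ v, star ((((‖y‖ / ‖w‖ : ℝ) : ℂ) • w) u) * A u v * y v =
      inner ℂ (((‖y‖ / ‖w‖ : ℝ) : ℂ) • w) w := by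
    rw [hw, inner_sum]
  have h3 : ∀ z : EuclideanSpace ℂ m, ∑ u, ‖z u‖ ^ 2 = ‖z‖ ^ 2 :=
    fun z => (EuclideanSpace.norm_sq_eq z).symm
  have h4 : ‖(inner ℂ (((‖y‖ / ‖w‖ : ℝ) : ℂ) • w) w : ℂ)‖ = ‖y‖ * ‖w‖ := by
    rw [inner_smul_left, norm_mul, inner_self_eq_norm_sq_to_K]
    simp only [Complex.conj_ofReal, Complex.norm_real, norm_pow, Real.norm_eq_abs]
    rw [abs_of_nonneg (by positivity)]
    have : ‖((‖w‖ : ℝ) : ℂ)‖ = ‖w‖ := by
      rw [Complex.norm_real, Real.norm_eq_abs, abs_of_nonneg (norm_nonneg _)]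
    have h5 : ‖(RCLike.ofReal ‖w‖ : ℂ)‖ = ‖w‖ := this
    rw [h5]
    field_simp
  have h5 : ∑ u, ‖(((‖y‖ / ‖w‖ : ℝ) : ℂ) • w) u‖ ^ 2 = ‖y‖ ^ 2 := by
    rw [h3, norm_smul, Complex.norm_real, Real.norm_eq_abs, abs_of_nonneg (by positivity)]
    field_simp
  have h6 : ‖∑ u, ∑ v, star ((((‖y‖ / ‖w‖ : ℝ) : ℂ) • w) u) * A u v * y v‖ ≤
      B / 2 * (∑ u, ‖(((‖y‖ / ‖w‖ : ℝ) : ℂ) • w) u‖ ^ 2 + ∑ u, ‖y u‖ ^ 2) := h1
  rw [h2, h4, h5, h3 y] at h6
  have h7 : ‖w‖ * ‖y‖ ≤ (B * ‖y‖) * ‖y‖ := by nlinarith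
  exact le_of_mul_le_mul_right h7 hyp

end

theorem norm_le (N : ℕ) (n : Type) [Fintype n] (M : C(S2, Matrix n n ℂ)) (B : ℝ) (hB : 0 ≤ B)
    (hM : ∀ x, opn (M x) ≤ B) : opn (bn N M) ≤ B := by
  refine opn_le _ _ hB fun x y => ?_
  rw [form, norm_mul]
  have h1 : ‖((N : ℂ) + 1)‖ = (N : ℝ) + 1 := by
    have : ((N : ℂ) + 1) = (((N : ℝ) + 1 : ℝ) : ℂ) := by push_cast; rfl
    rw [this, Complex.norm_real, Real.norm_eq_abs, abs_of_nonneg (by positivity)]
  have hcx : ∀ x : Fin (N + 1) × n → ℂ, IntegrableOn (fun p => ∑ a, ‖xi N x p a‖ ^ 2) Q := by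
    intro x
    refine Continuous.continuousOn ?_ |>.integrableOn_compact Q_compact
    exact continuous_finsetSum _ fun a _ => (xi_cont N x a).norm.pow 2
  have h2 : ‖∫ p in Q, ∑ a, ∑ b, star (xi N x p a) * M (W p) a b * xi N y p b‖ ≤
      ∫ p in Q, B / 2 * (∑ a, ‖xi N x p a‖ ^ 2 + ∑ a, ‖xi N y p a‖ ^ 2) := by
    refine norm_integral_le_of_norm_le ?_ (Filter.Eventually.of_forall fun p => ?_)
    · exact ((hcx x).add (hcx y)).const_mul _
    · exact form_le (M (W p)) B (hM _) _ _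
  rw [integral_const_mul, integral_add (hcx x) (hcx y)] at h2
  have h3 := iso N x
  have h4 := iso N y
  rw [h1, ← h3, ← h4]
  have h5 : (0 : ℝ) ≤ (N : ℝ) + 1 := by positivity
  calc ((N : ℝ) + 1) * ‖∫ p in Q, ∑ a, ∑ b, star (xi N x p a) * M (W p) a b * xi N y p b‖
      ≤ ((N : ℝ) + 1) * (B / 2 * ((∫ p in Q, ∑ a, ‖xi N x p a‖ ^ 2) +
          ∫ p in Q, ∑ a, ‖xi N y p a‖ ^ 2)) := mul_le_mul_of_nonneg_left h2 h5
    _ = _ := by ring

theorem herm (N : ℕ) (n : Type) [Fintype n] (M : C(S2, Matrix n n ℂ))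
    (hM : ∀ x, (M x).conjTranspose = M x) : (bn N M).conjTranspose = bn N M := by
  ext u v
  rw [Matrix.conjTranspose_apply]
  have h1 : ∀ u v : Fin (N + 1) × n, bn N M u v = bk N (ent M u.2 v.2) u.1 v.1 := fun _ _ => rfl
  rw [h1, h1]
  have h2 : ent M u.2 v.2 = star (ent M v.2 u.2) := by
    ext m
    change M m u.2 v.2 = star (M m v.2 u.2)
    have := congrFun (congrFun (hM m) u.2) v.2
    rw [Matrix.conjTranspose_apply] at this
    exact this.symm
  rw [h2, bk_star, Matrix.conjTranspose_apply]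

open scoped ComplexOrder in
theorem pos (N : ℕ) (n : Type) [Fintype n] (M : C(S2, Matrix n n ℂ))
    (hM : ∀ x, ∃ R : Matrix n n ℂ, M x = R.conjTranspose * R) : (bn N M).PosSemidef := by
  have hps : ∀ x, (M x).PosSemidef := by
    intro x
    obtain ⟨R, hR⟩ := hM x
    rw [hR]
    exact Matrix.posSemidef_conjTranspose_mul_self R
  refine Matrix.PosSemidef.of_dotProduct_mulVec_nonneg
    (herm N n M fun x => (hps x).isHermitian) fun x => ?_
  have h1 : star x ⬝ᵥ (bn N M).mulVec x = ∑ u, ∑ v, star (x u) * bn N M u v * x v := by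
    simp only [dotProduct, Matrix.mulVec, Pi.star_apply]
    refine Finset.sum_congr rfl fun u _ => ?_
    rw [Finset.mul_sum]
    exact Finset.sum_congr rfl fun v _ => by ring
  rw [h1, form]
  have h2 : ∀ p, 0 ≤ ∑ a, ∑ b, star (xi N x p a) * M (W p) a b * xi N x p b := by
    intro p
    have h3 := (hps (W p)).dotProduct_mulVec_nonneg (fun a => xi N x p a)
    have h4 : star (fun a => xi N x p a) ⬝ᵥ (M (W p)).mulVec (fun a => xi N x p a) =
        ∑ a, ∑ b, star (xi N x p a) * M (W p) a b * xi N x p b := by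
      simp only [dotProduct, Matrix.mulVec, Pi.star_apply]
      refine Finset.sum_congr rfl fun u _ => ?_
      rw [Finset.mul_sum]
      exact Finset.sum_congr rfl fun v _ => by ring
    rwa [h4] at h3
  have h3 : ∫ p in Q, ∑ a, ∑ b, star (xi N x p a) * M (W p) a b * xi N x p b =
      ((∫ p in Q, (∑ a, ∑ b, star (xi N x p a) * M (W p) a b * xi N x p b).re : ℝ) : ℂ) := by
    rw [← integral_complex_ofReal]
    refine integral_congr_ae (Filter.Eventually.of_forall fun p => ?_)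
    have h5 := (Complex.nonneg_iff.mp (h2 p)).2
    apply Complex.ext
    · simp
    · simp only [Complex.ofReal_im]
      exact h5.symm
  have h4 : 0 ≤ ∫ p in Q, (∑ a, ∑ b, star (xi N x p a) * M (W p) a b * xi N x p b).re :=
    integral_nonneg fun p => (Complex.nonneg_iff.mp (h2 p)).1
  rw [h3]
  have h5 : ((N : ℂ) + 1) = (((N : ℝ) + 1 : ℝ) : ℂ) := by push_cast; rfl
  rw [h5, ← Complex.ofReal_mul, Complex.zero_le_real]
  exact mul_nonneg (by positivity) h4

open scoped MatrixOrder ComplexOrder in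
theorem exQ {m : Type} [Fintype m] (A : Matrix m m ℂ) (hA : A.PosSemidef) :
    ∃ R : Matrix m m ℂ, A = R.conjTranspose * R := by
  obtain ⟨R, hR⟩ := CStarAlgebra.nonneg_iff_eq_star_mul_self.mp hA.nonneg
  exact ⟨R, hR⟩

end BK1_

/-- BK1. -/
theorem p_BK1 : T_BK1 :=
  ⟨BK1_.bk_add, BK1_.bk_smul, BK1_.bk_one, BK1_.bk_star, fun N n _ M =>
    ⟨fun B hB hM => BK1_.norm_le N n M B hB hM, fun hM => BK1_.exQ _ (BK1_.pos N n M hM)⟩⟩

end Pool.Agent.FPS
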