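import Pool.Agent.FPS.Targets4

set_option autoImplicit false

/-!
# FPS BK2: the coordinates under the quantisation (helper53)
-/

open scoped Classical
open MeasureTheory Pool.Agent.FPZ

noncomputable section

namespace Pool.Agent.FPS

namespace BK2_

/-- the beta integral -/
def be (a b : ℕ) : ℝ := ∫ x in (0 : ℝ)..1, x ^ a * (1 - x) ^ b

theorem be_zero (a : ℕ) : be a 0 = 1 / ((a : ℝ) + 1) := by
  unfold be
  simp

theorem be_step (a b : ℕ) : ((a : ℝ) + 1) * be a (b + 1) = ((b : ℝ) + 1) * be (a + 1) b := by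
  have h : ∫ x in (0 : ℝ)..1, (((a : ℝ) + 1) * (x ^ a * (1 - x) ^ (b + 1)) -
      ((b : ℝ) + 1) * (x ^ (a + 1) * (1 - x) ^ b)) = 0 := by
    have h1 : ∀ x : ℝ, HasDerivAt (fun x : ℝ => x ^ (a + 1) * (1 - x) ^ (b + 1))
        (((a : ℝ) + 1) * (x ^ a * (1 - x) ^ (b + 1)) -
          ((b : ℝ) + 1) * (x ^ (a + 1) * (1 - x) ^ b)) x := by
      intro x
      have h2 : HasDerivAt (fun x : ℝ => x ^ (a + 1)) (((a : ℝ) + 1) * x ^ a) x := by
        simpa using hasDerivAt_pow (a + 1) x
      have h3 : HasDerivAt (fun x : ℝ => (1 - x) ^ (b + 1)) (-(((b : ℝ) + 1) * (1 - x) ^ b)) x := by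
        have h4 := ((hasDerivAt_id x).const_sub 1).fun_pow (b + 1)
        simpa using h4
      have h5 := h2.fun_mul h3
      have h6 : ((a : ℝ) + 1) * (x ^ a * (1 - x) ^ (b + 1)) -
          ((b : ℝ) + 1) * (x ^ (a + 1) * (1 - x) ^ b) =
          ((a : ℝ) + 1) * x ^ a * (1 - x) ^ (b + 1) +
            x ^ (a + 1) * -(((b : ℝ) + 1) * (1 - x) ^ b) := by ring
      rw [h6]
      exact h5
    have h6 := intervalIntegral.integral_eq_sub_of_hasDerivAt (a := (0 : ℝ)) (b := 1)
      (fun x _ => h1 x) (by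
        apply Continuous.intervalIntegrable
        fun_prop)
    rw [h6]
    simp
  rw [intervalIntegral.integral_sub, intervalIntegral.integral_const_mul,
    intervalIntegral.integral_const_mul] at h
  · unfold be
    linarith
  · apply Continuous.intervalIntegrable
    fun_prop
  · apply Continuous.intervalIntegrable
    fun_prop

theorem be_eq (b : ℕ) : ∀ a : ℕ, be a b * ((a + b + 1).factorial : ℝ) =
    (a.factorial : ℝ) * b.factorial := by
  induction b with
  | zero =>
    intro a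
    rw [be_zero, add_zero, Nat.factorial_succ]
    push_cast
    field_simp
    simp
  | succ b ih =>
    intro a
    have h1 := ih (a + 1)
    have h2 := be_step a b
    have h3 : a + 1 + b + 1 = a + (b + 1) + 1 := by ring
    rw [h3] at h1
    rw [Nat.factorial_succ a] at h1
    rw [Nat.factorial_succ b]
    push_cast at h1 ⊢
    have h4 : ((a : ℝ) + 1) ≠ 0 := by positivity
    apply mul_left_cancel₀ h4
    calc ((a : ℝ) + 1) * (be a (b + 1) * ((a + (b + 1) + 1).factorial : ℝ))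
        = (((a : ℝ) + 1) * be a (b + 1)) * ((a + (b + 1) + 1).factorial : ℝ) := by ring
      _ = (((b : ℝ) + 1) * be (a + 1) b) * ((a + (b + 1) + 1).factorial : ℝ) := by rw [h2]
      _ = ((b : ℝ) + 1) * (be (a + 1) b * ((a + (b + 1) + 1).factorial : ℝ)) := by ring
      _ = ((a : ℝ) + 1) * ((a.factorial : ℝ) * (((b : ℝ) + 1) * b.factorial)) := by
          rw [h1]
          ring

/-- `C(N,i) ∫ x^i (1-x)^(N-i)` -/
theorem ch0 (N i : ℕ) (hi : i ≤ N) : (N.choose i : ℝ) * be i (N - i) * (N + 1) = 1 := by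
  have h1 := be_eq (N - i) i
  have h2 : i + (N - i) + 1 = N + 1 := by omega
  rw [h2, Nat.factorial_succ] at h1
  have h3 : (N.choose i : ℝ) * i.factorial * (N - i).factorial = N.factorial := by
    exact_mod_cast Nat.choose_mul_factorial_mul_factorial hi
  have h4 : (N.factorial : ℝ) ≠ 0 := by positivity
  apply mul_left_cancel₀ h4
  push_cast at h1
  calc (N.factorial : ℝ) * ((N.choose i : ℝ) * be i (N - i) * (N + 1))
      = (N.choose i : ℝ) * (be i (N - i) * (((N : ℝ) + 1) * N.factorial)) := by ring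
    _ = (N.choose i : ℝ) * i.factorial * (N - i).factorial := by rw [h1]; ring
    _ = N.factorial * 1 := by rw [h3]; ring

theorem ch1 (N i : ℕ) (hi : i ≤ N) :
    (N.choose i : ℝ) * be (i + 1) (N - i) * (N + 1) * (N + 2) = i + 1 := by
  have h1 := be_eq (N - i) (i + 1)
  have h2 : i + 1 + (N - i) + 1 = N + 1 + 1 := by omega
  rw [h2, Nat.factorial_succ, Nat.factorial_succ N, Nat.factorial_succ i] at h1
  have h3 : (N.choose i : ℝ) * i.factorial * (N - i).factorial = N.factorial := by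
    exact_mod_cast Nat.choose_mul_factorial_mul_factorial hi
  have h4 : (N.factorial : ℝ) ≠ 0 := by positivity
  apply mul_left_cancel₀ h4
  push_cast at h1
  calc (N.factorial : ℝ) * ((N.choose i : ℝ) * be (i + 1) (N - i) * (N + 1) * (N + 2))
      = (N.choose i : ℝ) * (be (i + 1) (N - i) * (((N : ℝ) + 1 + 1) * (((N : ℝ) + 1) *
        N.factorial))) := by ring
    _ = ((N.choose i : ℝ) * i.factorial * (N - i).factorial) * (i + 1) := by rw [h1]; ring
    _ = N.factorial * (i + 1) := by rw [h3]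

/-- the phase integral -/
theorem phase (k : ℤ) : ∫ φ in (0 : ℝ)..1, Complex.exp (2 * Real.pi * k * Complex.I * φ) =
    if k = 0 then 1 else 0 := by
  by_cases hk : k = 0
  · subst hk
    simp
  · rw [if_neg hk]
    have hc : (2 * Real.pi * k * Complex.I : ℂ) ≠ 0 := by
      have : (k : ℂ) ≠ 0 := by exact_mod_cast hk
      have h2 : (Real.pi : ℂ) ≠ 0 := by exact_mod_cast Real.pi_ne_zero
      simp [this, h2, Complex.I_ne_zero]
    rw [integral_exp_mul_complex hc]
    have h1 : Complex.exp (2 * Real.pi * k * Complex.I * (1 : ℝ)) = 1 := by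
      have := Complex.exp_int_mul_two_pi_mul_I k
      rw [← this]
      congr 1
      push_cast
      ring
    rw [h1]
    simp

theorem nv_coe (x φ : ℝ) (h0 : 0 ≤ x) (h1 : x ≤ 1) : ((nv x φ : S2) : E3) =
    WithLp.toLp 2 ![2 * Real.sqrt (x * (1 - x)) * Real.cos (2 * Real.pi * φ),
      2 * Real.sqrt (x * (1 - x)) * Real.sin (2 * Real.pi * φ), 2 * x - 1] := by
  have hn : ‖(WithLp.toLp 2 ![2 * Real.sqrt (x * (1 - x)) * Real.cos (2 * Real.pi * φ),
      2 * Real.sqrt (x * (1 - x)) * Real.sin (2 * Real.pi * φ), 2 * x - 1] : E3)‖ = 1 := by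
    rw [EuclideanSpace.norm_eq, Real.sqrt_eq_one]
    rw [Fin.sum_univ_three]
    simp only [Real.norm_eq_abs, sq_abs]
    have h2 : Real.sqrt (x * (1 - x)) ^ 2 = x * (1 - x) :=
      Real.sq_sqrt (mul_nonneg h0 (by linarith))
    have h3 := Real.sin_sq_add_cos_sq (2 * Real.pi * φ)
    change (2 * Real.sqrt (x * (1 - x)) * Real.cos (2 * Real.pi * φ)) ^ 2 +
      (2 * Real.sqrt (x * (1 - x)) * Real.sin (2 * Real.pi * φ)) ^ 2 + (2 * x - 1) ^ 2 = 1
    rw [mul_pow, mul_pow, mul_pow, mul_pow, h2]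
    have h4 : Real.cos (2 * Real.pi * φ) ^ 2 = 1 - Real.sin (2 * Real.pi * φ) ^ 2 := by linarith
    rw [h4]
    ring
  unfold nv s2
  rw [dif_pos hn]

/-- the modulus of the coherent state vectors -/
def am (N : ℕ) (x : ℝ) (i : ℕ) : ℝ := Real.sqrt (N.choose i * x ^ i * (1 - x) ^ (N - i))

theorem cs_mul (N : ℕ) (x φ : ℝ) (i j : Fin (N + 1)) : cs N x φ i * star (cs N x φ j) =
    ((am N x i * am N x j : ℝ) : ℂ) *
      Complex.exp (2 * Real.pi * (((j : ℕ) : ℤ) - ((i : ℕ) : ℤ) : ℤ) * Complex.I * φ) := by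
  unfold cs am
  rw [Complex.star_def, map_mul, Complex.conj_ofReal, ← Complex.exp_conj, map_mul,
    Complex.conj_I]
  have h1 : ∀ r : ℝ, (starRingEnd ℂ) (-(r : ℂ)) = -(r : ℂ) := by
    intro r
    rw [map_neg, Complex.conj_ofReal]
  have h2 : -((2 * Real.pi * ((i : ℕ) : ℝ) * φ : ℝ) : ℂ) * Complex.I +
      -((2 * Real.pi * ((j : ℕ) : ℝ) * φ : ℝ) : ℂ) * -Complex.I =
      2 * Real.pi * (((j : ℕ) : ℤ) - ((i : ℕ) : ℤ) : ℤ) * Complex.I * φ := by
    push_cast
    ring
  rw [h1]
  rw [show ∀ a b c d : ℂ, (a * b) * (c * d) = (a * c) * (b * d) from fun a b c d => by ring,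
    ← Complex.exp_add, ← Complex.ofReal_mul, h2]

theorem am_sq (N : ℕ) (x : ℝ) (i : ℕ) (h0 : 0 ≤ x) (h1 : x ≤ 1) :
    am N x i * am N x i = N.choose i * x ^ i * (1 - x) ^ (N - i) := by
  unfold am
  apply Real.mul_self_sqrt
  have : 0 ≤ 1 - x := by linarith
  positivity

theorem am_succ (N : ℕ) (x : ℝ) (j : ℕ) (hj : j < N) (h0 : 0 ≤ x) (h1 : x ≤ 1) :
    Real.sqrt (x * (1 - x)) * (am N x (j + 1) * am N x j) * (j + 1) =
      Real.sqrt (((j : ℝ) + 1) * (N - j)) * (N.choose j * (x ^ (j + 1) * (1 - x) ^ (N - j))) := by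
  have hx : 0 ≤ 1 - x := by linarith
  have hNj : (0 : ℝ) ≤ (N : ℝ) - j := by
    have : (j : ℝ) < N := by exact_mod_cast hj
    linarith
  have hch : (N.choose (j + 1) : ℝ) * (j + 1) = N.choose j * (N - j) := by
    have h := Nat.choose_succ_right_eq N j
    have h2 : ((N - j : ℕ) : ℝ) = (N : ℝ) - j := by
      rw [Nat.cast_sub hj.le]
    rw [← h2]
    exact_mod_cast h
  unfold am
  rw [← Real.sqrt_mul (by positivity), ← Real.sqrt_mul (by positivity)]
  have h3 : (j : ℝ) + 1 = Real.sqrt (((j : ℝ) + 1) ^ 2) := (Real.sqrt_sq (by positivity)).symm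
  have h4 : (N.choose j * (x ^ (j + 1) * (1 - x) ^ (N - j)) : ℝ) =
      Real.sqrt ((N.choose j * (x ^ (j + 1) * (1 - x) ^ (N - j))) ^ 2) :=
    (Real.sqrt_sq (by positivity)).symm
  have h5 : Real.sqrt (x * (1 - x) * (N.choose (j + 1) * x ^ (j + 1) * (1 - x) ^ (N - (j + 1)) *
      (N.choose j * x ^ j * (1 - x) ^ (N - j)))) * ((j : ℝ) + 1) =
      Real.sqrt (x * (1 - x) * (N.choose (j + 1) * x ^ (j + 1) * (1 - x) ^ (N - (j + 1)) *
      (N.choose j * x ^ j * (1 - x) ^ (N - j)))) * Real.sqrt (((j : ℝ) + 1) ^ 2) := by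
    rw [← h3]
  rw [h5, h4, ← Real.sqrt_mul (by positivity), ← Real.sqrt_mul (by positivity)]
  congr 1
  have h6 : (1 - x) ^ (N - j) = (1 - x) ^ (N - (j + 1)) * (1 - x) := by
    rw [← pow_succ]
    congr 1
    omega
  have h7 : x * (1 - x) * (N.choose (j + 1) * x ^ (j + 1) * (1 - x) ^ (N - (j + 1)) *
      (N.choose j * x ^ j * (1 - x) ^ (N - j))) * ((j : ℝ) + 1) ^ 2 =
      (N.choose (j + 1) * ((j : ℝ) + 1)) * ((j : ℝ) + 1) * N.choose j * x ^ (j + 1) *
      (x ^ j * x) * ((1 - x) ^ (N - (j + 1)) * (1 - x)) * (1 - x) ^ (N - j) := by ring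
  rw [h7, hch, ← h6]
  ring

theorem dbl (f : ℝ → ℝ → ℂ) (g : ℝ → ℂ) (k : ℤ)
    (h : ∀ x, 0 ≤ x → x ≤ 1 → ∀ φ, f x φ = g x * Complex.exp (2 * Real.pi * k * Complex.I * φ)) :
    ∫ x in (0 : ℝ)..1, ∫ φ in (0 : ℝ)..1, f x φ =
      if k = 0 then ∫ x in (0 : ℝ)..1, g x else 0 := by
  have h1 : ∫ x in (0 : ℝ)..1, ∫ φ in (0 : ℝ)..1, f x φ =
      ∫ x in (0 : ℝ)..1, g x * (if k = 0 then 1 else 0) := by
    apply intervalIntegral.integral_congr
    intro x hx
    rw [Set.uIcc_of_le zero_le_one] at hx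
    change ∫ φ in (0 : ℝ)..1, f x φ = g x * (if k = 0 then 1 else 0)
    rw [← phase k, ← intervalIntegral.integral_const_mul]
    apply intervalIntegral.integral_congr
    intro φ _
    exact h x hx.1 hx.2 φ
  rw [h1]
  by_cases hk : k = 0
  · simp [hk]
  · simp [hk]

end BK2_

open BK2_ in
theorem p_BK2 : T_BK2 := by
  refine ⟨?_, ?_⟩
  · intro N i j
    have hi : (i : ℕ) ≤ N := by omega
    have h1 := dbl (fun x φ => co 2 (nv x φ) * (cs N x φ i * star (cs N x φ j)))
      (fun x => ((2 * x - 1 : ℝ) : ℂ) * ((am N x i * am N x j : ℝ) : ℂ))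
      (((j : ℕ) : ℤ) - ((i : ℕ) : ℤ)) (by
        intro x h0 h1 φ
        have h2 : co 2 (nv x φ) = ((2 * x - 1 : ℝ) : ℂ) := by
          change ((((nv x φ : S2) : E3) 2 : ℝ) : ℂ) = _
          rw [nv_coe x φ h0 h1]
          rfl
        change co 2 (nv x φ) * (cs N x φ i * star (cs N x φ j)) = _
        rw [h2, cs_mul]
        ring)
    have h2 : bk N (co 2) i j = ((N : ℂ) + 1) * ∫ x in (0 : ℝ)..1, ∫ φ in (0 : ℝ)..1,
        co 2 (nv x φ) * (cs N x φ i * star (cs N x φ j)) := rfl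
    rw [h2, h1]
    by_cases hij : i = j
    · subst hij
      rw [if_pos (by simp), if_pos rfl]
      have h3 : ∫ x in (0 : ℝ)..1, ((2 * x - 1 : ℝ) : ℂ) * ((am N x i * am N x i : ℝ) : ℂ) =
          ∫ x in (0 : ℝ)..1, ((2 * (N.choose i * (x ^ ((i : ℕ) + 1) * (1 - x) ^ (N - (i : ℕ)))) -
            N.choose i * (x ^ (i : ℕ) * (1 - x) ^ (N - (i : ℕ))) : ℝ) : ℂ) := by
        apply intervalIntegral.integral_congr
        intro x hx
        rw [Set.uIcc_of_le zero_le_one] at hx
        change ((2 * x - 1 : ℝ) : ℂ) * ((am N x i * am N x i : ℝ) : ℂ) = _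
        rw [am_sq N x i hx.1 hx.2, ← Complex.ofReal_mul]
        congr 1
        ring
      rw [h3, intervalIntegral.integral_ofReal, intervalIntegral.integral_sub (by
          apply Continuous.intervalIntegrable
          fun_prop) (by
          apply Continuous.intervalIntegrable
          fun_prop), intervalIntegral.integral_const_mul, intervalIntegral.integral_const_mul,
        intervalIntegral.integral_const_mul]
      have h4 := ch0 N i hi
      have h5 := ch1 N i hi
      unfold be at h4 h5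
      have hN1 : ((N : ℝ) + 1) ≠ 0 := by positivity
      have hN2 : ((N : ℝ) + 2) ≠ 0 := by positivity
      have h6 : ((N : ℝ) + 1) * (2 * ((N.choose i : ℝ) *
          ∫ x in (0 : ℝ)..1, x ^ ((i : ℕ) + 1) * (1 - x) ^ (N - (i : ℕ))) -
          (N.choose i : ℝ) * ∫ x in (0 : ℝ)..1, x ^ (i : ℕ) * (1 - x) ^ (N - (i : ℕ))) =
          (2 * (i : ℕ) - N) / (N + 2) := by
        rw [eq_div_iff hN2]
        linear_combination 2 * h5 - ((N : ℝ) + 2) * h4
      have h7 := congrArg (fun r : ℝ => (r : ℂ)) h6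
      simp only [Complex.ofReal_mul, Complex.ofReal_div] at h7
      push_cast at h7 ⊢
      exact h7
    · rw [if_neg hij, if_neg, mul_zero]
      intro h
      apply hij
      apply Fin.ext
      omega
  · intro N i j
    have hj : (j : ℕ) ≤ N := by omega
    have h1 := dbl (fun x φ => (co 0 + Complex.I • co 1) (nv x φ) *
        (cs N x φ i * star (cs N x φ j)))
      (fun x => ((2 * Real.sqrt (x * (1 - x)) : ℝ) : ℂ) * ((am N x i * am N x j : ℝ) : ℂ))
      (((j : ℕ) : ℤ) - ((i : ℕ) : ℤ) + 1) (by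
        intro x h0 h1 φ
        have h2 : (co 0 + Complex.I • co 1) (nv x φ) =
            ((2 * Real.sqrt (x * (1 - x)) : ℝ) : ℂ) *
              Complex.exp (2 * Real.pi * Complex.I * φ) := by
          change ((((nv x φ : S2) : E3) 0 : ℝ) : ℂ) +
            Complex.I * ((((nv x φ : S2) : E3) 1 : ℝ) : ℂ) = _
          rw [nv_coe x φ h0 h1]
          change ((2 * Real.sqrt (x * (1 - x)) * Real.cos (2 * Real.pi * φ) : ℝ) : ℂ) +
            Complex.I * ((2 * Real.sqrt (x * (1 - x)) * Real.sin (2 * Real.pi * φ) : ℝ) : ℂ) = _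
          have h3 : (2 * Real.pi * Complex.I * φ : ℂ) =
              ((2 * Real.pi * φ : ℝ) : ℂ) * Complex.I := by
            push_cast
            ring
          rw [h3, Complex.exp_mul_I, ← Complex.ofReal_cos, ← Complex.ofReal_sin]
          simp only [Complex.ofReal_mul]
          ring
        change (co 0 + Complex.I • co 1) (nv x φ) * (cs N x φ i * star (cs N x φ j)) = _
        rw [h2, cs_mul]
        rw [show ∀ a b c d : ℂ, (a * b) * (c * d) = (a * c) * (b * d) from
          fun a b c d => by ring, ← Complex.exp_add]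
        congr 2
        push_cast
        ring)
    have h2 : bk N (co 0 + Complex.I • co 1) i j = ((N : ℂ) + 1) *
        ∫ x in (0 : ℝ)..1, ∫ φ in (0 : ℝ)..1,
        (co 0 + Complex.I • co 1) (nv x φ) * (cs N x φ i * star (cs N x φ j)) := rfl
    rw [h2, h1]
    by_cases hij : (i : ℕ) = j + 1
    · rw [if_pos (by omega), if_pos hij]
      have hjN : (j : ℕ) < N := by omega
      have h3 : ∫ x in (0 : ℝ)..1, ((2 * Real.sqrt (x * (1 - x)) : ℝ) : ℂ) *
          ((am N x i * am N x j : ℝ) : ℂ) =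
          ∫ x in (0 : ℝ)..1, ((2 * Real.sqrt ((((j : ℕ) : ℝ) + 1) * (N - (j : ℕ))) /
            (((j : ℕ) : ℝ) + 1) * N.choose j * (x ^ ((j : ℕ) + 1) * (1 - x) ^ (N - (j : ℕ))) :
            ℝ) : ℂ) := by
        apply intervalIntegral.integral_congr
        intro x hx
        rw [Set.uIcc_of_le zero_le_one] at hx
        change ((2 * Real.sqrt (x * (1 - x)) : ℝ) : ℂ) * ((am N x i * am N x j : ℝ) : ℂ) = _
        rw [← Complex.ofReal_mul, hij]
        congr 1
        have h4 := am_succ N x j hjN hx.1 hx.2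
        have h5 : (((j : ℕ) : ℝ) + 1) ≠ 0 := by positivity
        field_simp
        linear_combination h4
      rw [h3, intervalIntegral.integral_ofReal, intervalIntegral.integral_const_mul]
      have h5 := ch1 N j hj
      unfold be at h5
      have hN1 : ((N : ℝ) + 1) ≠ 0 := by positivity
      have hN2 : ((N : ℝ) + 2) ≠ 0 := by positivity
      have hj1 : (((j : ℕ) : ℝ) + 1) ≠ 0 := by positivity
      have h6 : ((N : ℝ) + 1) * (2 * Real.sqrt ((((j : ℕ) : ℝ) + 1) * (N - (j : ℕ))) /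
            (((j : ℕ) : ℝ) + 1) * N.choose j *
          ∫ x in (0 : ℝ)..1, x ^ ((j : ℕ) + 1) * (1 - x) ^ (N - (j : ℕ))) =
          (2 * Real.sqrt ((((j : ℕ) : ℝ) + 1) * (N - (j : ℕ)))) / (N + 2) := by
        rw [eq_div_iff hN2]
        field_simp
        linear_combination Real.sqrt ((((j : ℕ) : ℝ) + 1) * (N - (j : ℕ))) * h5
      have h7 := congrArg (fun r : ℝ => (r : ℂ)) h6
      simp only [Complex.ofReal_mul, Complex.ofReal_div] at h7
      push_cast at h7 ⊢
      exact h7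
    · rw [if_neg hij, if_neg, mul_zero]
      omega

end Pool.Agent.FPS
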