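import Pool.Agent.FPS.Targets4

set_option autoImplicit false

/-!
# FPS: asymptotic multiplicativity of the quantisation (target T_BK3)
-/

open scoped Classical
open MeasureTheory Pool.Agent.FPZ

noncomputable section

namespace Pool.Agent.FPS

namespace BK3_

/-! ### The dilation -/

theorem dil (h1 : T_BK1) (N : ℕ) {ι : Type} [Fintype ι] (h : Option ι → C(S2, ℂ)) :
    ∃ A : Option ι → Matrix (Fin (N + 1) × Option ι) (Fin (N + 1)) ℂ,
      ∀ a b, (A a).conjTranspose * A b = bk N (star (h a) * h b) := by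
  let M : C(S2, Matrix (Option ι) (Option ι) ℂ) :=
    ⟨fun x => Matrix.of fun a b => star (h a x) * h b x,
      continuous_matrix fun a b => ((h a).continuous.star).mul (h b).continuous⟩
  have hpos : ∀ x, ∃ Q : Matrix (Option ι) (Option ι) ℂ, M x = Q.conjTranspose * Q := by
    intro x
    refine ⟨Matrix.of fun i b => if i = none then h b x else 0, ?_⟩
    ext a b
    rw [Matrix.mul_apply, Finset.sum_eq_single (none : Option ι)]
    · rfl
    · intro i _ hi
      simp [hi]
    · intro hn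
      exact absurd (Finset.mem_univ _) hn
  obtain ⟨Q, hQ⟩ := (h1.2.2.2.2 N (Option ι) M).2 hpos
  refine ⟨fun a => Matrix.of fun p j => Q p (j, a), fun a b => ?_⟩
  have he : ent M a b = star (h a) * h b := by
    ext x
    rfl
  ext i j
  have h3 : bn N M (i, a) (j, b) = (Q.conjTranspose * Q) (i, a) (j, b) := by rw [hQ]
  have h4 : bn N M (i, a) (j, b) = bk N (ent M a b) i j := rfl
  rw [← he, ← h4, h3, Matrix.mul_apply, Matrix.mul_apply]
  rfl

/-- the defect -/
def Df (N : ℕ) (f g : C(S2, ℂ)) : Matrix (Fin (N + 1)) (Fin (N + 1)) ℂ :=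
  bk N (star f * g) - (bk N f).conjTranspose * bk N g

theorem dil2 (h1 : T_BK1) (N : ℕ) {ι : Type} [Fintype ι] (f : ι → C(S2, ℂ)) :
    ∃ X : ι → Matrix (Fin (N + 1) × Option ι) (Fin (N + 1)) ℂ,
      ∀ a b, (X a).conjTranspose * X b = Df N (f a) (f b) := by
  obtain ⟨A, hA⟩ := dil h1 N fun o : Option ι => o.elim (1 : C(S2, ℂ)) f
  have e00 : (A none).conjTranspose * A none = 1 := by
    rw [hA, ← h1.2.2.1 N]
    simp
  have e0 : ∀ b, (A none).conjTranspose * A (some b) = bk N (f b) := by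
    intro b
    rw [hA]
    simp
  have e1 : ∀ a, (A (some a)).conjTranspose * A none = (bk N (f a)).conjTranspose := by
    intro a
    rw [← e0 a, Matrix.conjTranspose_mul, Matrix.conjTranspose_conjTranspose]
  have e2 : ∀ a b, (A (some a)).conjTranspose * A (some b) = bk N (star (f a) * f b) :=
    fun a b => hA (some a) (some b)
  refine ⟨fun a => A (some a) - A none * bk N (f a), fun a b => ?_⟩
  have h2 : (A (some a) - A none * bk N (f a)).conjTranspose =
      (A (some a)).conjTranspose - (bk N (f a)).conjTranspose * (A none).conjTranspose := by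
    rw [Matrix.conjTranspose_sub, Matrix.conjTranspose_mul]
  show (A (some a) - A none * bk N (f a)).conjTranspose * (A (some b) - A none * bk N (f b)) = _
  rw [h2, Matrix.sub_mul, Matrix.mul_sub, Matrix.mul_sub, e2, ← Matrix.mul_assoc, e1,
    Matrix.mul_assoc _ _ (A (some b)), e0, Matrix.mul_assoc _ _ (A none * bk N (f b)),
    ← Matrix.mul_assoc (A none).conjTranspose, e00, Matrix.one_mul]
  unfold Df
  abel

/-! ### Norms -/

open scoped Matrix.Norms.L2Operator

theorem opn_eq {n : Type} [Fintype n] [h : DecidableEq n] (M : Matrix n n ℂ) : opn M = ‖M‖ := by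
  unfold opn
  have e : h = fun a b => Classical.propDecidable (a = b) := Subsingleton.elim _ _
  subst e
  rfl

theorem sq_norm {m n : Type} [Fintype m] [Fintype n] [DecidableEq n] (X : Matrix m n ℂ)
    (v : EuclideanSpace ℂ n) :
    ‖(EuclideanSpace.equiv m ℂ).symm (X.mulVec v)‖ ^ 2 =
      (star (v : n → ℂ) ⬝ᵥ ((X.conjTranspose * X).mulVec v)).re := by
  have h1 : star (v : n → ℂ) ⬝ᵥ ((X.conjTranspose * X).mulVec v) =
      star (X.mulVec v) ⬝ᵥ X.mulVec v := by
    rw [Matrix.star_mulVec, ← Matrix.dotProduct_mulVec, Matrix.mulVec_mulVec]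
  rw [h1, EuclideanSpace.norm_sq_eq]
  simp only [dotProduct, Complex.re_sum]
  refine Finset.sum_congr rfl fun i _ => ?_
  have h2 : ((EuclideanSpace.equiv m ℂ).symm (X.mulVec v)) i = X.mulVec v i := rfl
  rw [h2, Pi.star_apply, Complex.star_def, ← Complex.normSq_eq_conj_mul_self, Complex.ofReal_re,
    Complex.normSq_eq_norm_sq]

theorem mono {m n ι : Type} [Fintype m] [Fintype n] [DecidableEq n] [Fintype ι]
    (X : ι → Matrix m n ℂ) (c : ℝ) (hc : 0 ≤ c)
    (h : ∑ a, (X a).conjTranspose * X a = (c : ℂ) • (1 : Matrix n n ℂ)) (a : ι) :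
    ‖X a‖ ≤ Real.sqrt c := by
  rw [Matrix.l2_opNorm_def]
  refine ContinuousLinearMap.opNorm_le_bound _ (Real.sqrt_nonneg c) fun v => ?_
  have h0 : ‖(EuclideanSpace.equiv m ℂ).symm ((X a).mulVec v)‖ ^ 2 ≤ c * ‖v‖ ^ 2 := by
    have h1 : ‖(EuclideanSpace.equiv m ℂ).symm ((X a).mulVec v)‖ ^ 2 ≤
        ∑ b, ‖(EuclideanSpace.equiv m ℂ).symm ((X b).mulVec v)‖ ^ 2 :=
      Finset.single_le_sum (f := fun b => ‖(EuclideanSpace.equiv m ℂ).symm ((X b).mulVec v)‖ ^ 2)
        (fun _ _ => by positivity) (Finset.mem_univ a)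
    refine h1.trans (le_of_eq ?_)
    have h2 : ∑ b, ‖(EuclideanSpace.equiv m ℂ).symm ((X b).mulVec v)‖ ^ 2 =
        (star (v : n → ℂ) ⬝ᵥ ((∑ b, (X b).conjTranspose * X b).mulVec v)).re := by
      rw [Matrix.sum_mulVec, dotProduct_sum, Complex.re_sum]
      exact Finset.sum_congr rfl fun b _ => sq_norm (X b) v
    rw [h2, h, Matrix.smul_mulVec, Matrix.one_mulVec, dotProduct_smul, EuclideanSpace.norm_sq_eq]
    simp only [dotProduct, smul_eq_mul, Complex.re_ofReal_mul, Complex.re_sum]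
    congr 1
    refine Finset.sum_congr rfl fun i _ => ?_
    rw [Pi.star_apply, Complex.star_def, ← Complex.normSq_eq_conj_mul_self, Complex.ofReal_re,
      Complex.normSq_eq_norm_sq]
  have h3 : ‖(EuclideanSpace.equiv m ℂ).symm ((X a).mulVec v)‖ ≤ Real.sqrt (c * ‖v‖ ^ 2) :=
    Real.le_sqrt_of_sq_le h0
  rw [Real.sqrt_mul hc, Real.sqrt_sq (norm_nonneg v)] at h3
  exact h3

/-- the quantisation is contractive -/
theorem norm_bk (h1 : T_BK1) (N : ℕ) (f : C(S2, ℂ)) : ‖bk N f‖ ≤ ‖f‖ := by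
  let k : C(S2, ℂ) := ⟨fun x => ((Real.sqrt (‖f‖ ^ 2 - ‖f x‖ ^ 2) : ℝ) : ℂ), by fun_prop⟩
  have hk : star f * f + star k * k = ((‖f‖ ^ 2 : ℝ) : ℂ) • (1 : C(S2, ℂ)) := by
    ext x
    have h0 : ‖f x‖ ≤ ‖f‖ := f.norm_coe_le_norm x
    have h2 : 0 ≤ ‖f‖ ^ 2 - ‖f x‖ ^ 2 := by
      have := pow_le_pow_left₀ (norm_nonneg (f x)) h0 2
      linarith
    have h3 : star (k x) * k x = ((‖f‖ ^ 2 - ‖f x‖ ^ 2 : ℝ) : ℂ) := by
      show star ((Real.sqrt (‖f‖ ^ 2 - ‖f x‖ ^ 2) : ℝ) : ℂ) *
        ((Real.sqrt (‖f‖ ^ 2 - ‖f x‖ ^ 2) : ℝ) : ℂ) = _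
      rw [Complex.star_def, Complex.conj_ofReal, ← Complex.ofReal_mul, Real.mul_self_sqrt h2]
    have h4 : star (f x) * f x = ((‖f x‖ ^ 2 : ℝ) : ℂ) := by
      rw [Complex.star_def, ← Complex.normSq_eq_conj_mul_self, Complex.normSq_eq_norm_sq]
    show star (f x) * f x + star (k x) * k x = ((‖f‖ ^ 2 : ℝ) : ℂ) * 1
    rw [h3, h4, ← Complex.ofReal_add, mul_one]
    congr 1
    ring
  obtain ⟨A, hA⟩ := dil h1 N fun o : Option Bool =>
    o.elim (1 : C(S2, ℂ)) fun b => bif b then f else k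
  have n0 : ‖A none‖ ≤ Real.sqrt 1 := by
    refine mono (ι := Unit) (fun _ => A none) 1 zero_le_one ?_ ()
    rw [Finset.univ_unique, Finset.sum_singleton, hA, Complex.ofReal_one, one_smul, ← h1.2.2.1 N]
    simp
  have n1 : ‖A (some true)‖ ≤ Real.sqrt (‖f‖ ^ 2) := by
    refine mono (fun b => A (some b)) (‖f‖ ^ 2) (by positivity) ?_ true
    rw [Fintype.sum_bool, hA, hA, ← h1.1]
    have e : star (bif true then f else k) * (bif true then f else k) +
        star (bif false then f else k) * (bif false then f else k) =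
        ((‖f‖ ^ 2 : ℝ) : ℂ) • (1 : C(S2, ℂ)) := hk
    have e' := congrArg (bk N) e
    rw [h1.2.1, h1.2.2.1] at e'
    exact e'
  rw [Real.sqrt_one] at n0
  rw [Real.sqrt_sq (norm_nonneg f)] at n1
  have e : bk N f = (A none).conjTranspose * A (some true) := by
    rw [hA]
    simp
  rw [e]
  calc ‖(A none).conjTranspose * A (some true)‖ ≤ ‖(A none).conjTranspose‖ * ‖A (some true)‖ :=
        Matrix.l2_opNorm_mul _ _
    _ ≤ 1 * ‖f‖ := by
        rw [Matrix.l2_opNorm_conjTranspose]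
        exact mul_le_mul n0 n1 (norm_nonneg _) zero_le_one
    _ = ‖f‖ := one_mul _

/-- the error -/
def Er (N : ℕ) (f g : C(S2, ℂ)) : Matrix (Fin (N + 1)) (Fin (N + 1)) ℂ :=
  bk N (f * g) - bk N f * bk N g

theorem norm_Er (h1 : T_BK1) (N : ℕ) (f g : C(S2, ℂ)) : ‖Er N f g‖ ≤ 2 * ‖f‖ * ‖g‖ := by
  have h2 : ‖bk N (f * g)‖ ≤ ‖f‖ * ‖g‖ := (norm_bk h1 N _).trans (norm_mul_le f g)
  have h3 : ‖bk N f * bk N g‖ ≤ ‖f‖ * ‖g‖ :=
    (Matrix.l2_opNorm_mul _ _).trans (mul_le_mul (norm_bk h1 N f) (norm_bk h1 N g)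
      (norm_nonneg _) (norm_nonneg _))
  calc ‖Er N f g‖ ≤ ‖bk N (f * g)‖ + ‖bk N f * bk N g‖ := norm_sub_le _ _
    _ ≤ 2 * ‖f‖ * ‖g‖ := by linarith

theorem Er_star (h1 : T_BK1) (N : ℕ) (f g : C(S2, ℂ)) :
    ‖Er N (star g) (star f)‖ = ‖Er N f g‖ := by
  have h2 : Er N (star g) (star f) = (Er N f g).conjTranspose := by
    unfold Er
    rw [Matrix.conjTranspose_sub, Matrix.conjTranspose_mul, ← h1.2.2.2.1, ← h1.2.2.2.1,
      ← h1.2.2.2.1, star_mul]
  rw [h2, Matrix.l2_opNorm_conjTranspose]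

theorem Er_Df (h1 : T_BK1) (N : ℕ) (f g : C(S2, ℂ)) : Er N (star f) g = Df N f g := by
  unfold Er Df
  rw [h1.2.2.2.1]

/-! ### The coordinates -/

theorem star_co (a : Fin 3) : star (co a) = co a := by
  ext x
  show star ((((x : E3) a : ℝ) : ℂ)) = (((x : E3) a : ℝ) : ℂ)
  rw [Complex.star_def, Complex.conj_ofReal]

theorem sum_co : ∑ a, co a * co a = (1 : C(S2, ℂ)) := by
  ext x
  have h1 : ‖(x : E3)‖ = 1 := by
    have := x.2
    rwa [mem_sphere_zero_iff_norm] at this
  have h2 : ∑ a, ((x : E3) a) ^ 2 = 1 := by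
    have h3 := EuclideanSpace.real_norm_sq_eq (x : E3)
    rw [h1, one_pow] at h3
    exact h3.symm
  rw [ContinuousMap.coe_sum, Finset.sum_apply]
  show ∑ a, (((x : E3) a : ℝ) : ℂ) * (((x : E3) a : ℝ) : ℂ) = 1
  have h4 : ((∑ a, ((x : E3) a) ^ 2 : ℝ) : ℂ) = 1 := by rw [h2, Complex.ofReal_one]
  rw [← h4, Complex.ofReal_sum]
  refine Finset.sum_congr rfl fun a _ => ?_
  push_cast
  ring

/-- a lower shift with weights -/
theorem shift1 (N : ℕ) (t : ℕ → ℝ) (ht : t N = 0) (T : Matrix (Fin (N + 1)) (Fin (N + 1)) ℂ)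
    (hT : ∀ i j : Fin (N + 1), T i j = if (i : ℕ) = j + 1 then (t j : ℂ) else 0)
    (i k : Fin (N + 1)) :
    (T.conjTranspose * T) i k = if i = k then ((t i ^ 2 : ℝ) : ℂ) else 0 := by
  rw [Matrix.mul_apply]
  by_cases hi : (i : ℕ) < N
  · rw [Finset.sum_eq_single (⟨i + 1, by omega⟩ : Fin (N + 1))]
    · rw [Matrix.conjTranspose_apply, hT, hT, if_pos rfl]
      by_cases hik : i = k
      · subst hik
        rw [if_pos rfl, if_pos rfl, Complex.star_def, Complex.conj_ofReal]
        push_cast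
        ring
      · rw [if_neg hik, if_neg, mul_zero]
        intro h
        apply hik
        ext
        simpa using h
    · intro j _ hj
      rw [Matrix.conjTranspose_apply, hT j i, if_neg, star_zero, zero_mul]
      intro h
      apply hj
      ext
      exact h
    · intro h
      exact absurd (Finset.mem_univ _) h
  · have hiN : (i : ℕ) = N := by omega
    have h0 : ∀ j, (T.conjTranspose i j) * T j k = 0 := by
      intro j
      rw [Matrix.conjTranspose_apply, hT j i, if_neg (by omega), star_zero, zero_mul]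
    rw [Finset.sum_eq_zero fun j _ => h0 j, hiN, ht]
    simp

theorem shift2 (N : ℕ) (t : ℕ → ℝ) (T : Matrix (Fin (N + 1)) (Fin (N + 1)) ℂ)
    (hT : ∀ i j : Fin (N + 1), T i j = if (i : ℕ) = j + 1 then (t j : ℂ) else 0)
    (i k : Fin (N + 1)) :
    (T * T.conjTranspose) i k =
      if i = k then (((if (i : ℕ) = 0 then 0 else t (i - 1) ^ 2) : ℝ) : ℂ) else 0 := by
  rw [Matrix.mul_apply]
  by_cases hi : (i : ℕ) = 0
  · have h0 : ∀ j, T i j * (T.conjTranspose j k) = 0 := by
      intro j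
      rw [hT i j, if_neg (by omega), zero_mul]
    rw [Finset.sum_eq_zero fun j _ => h0 j, if_pos hi]
    simp
  · rw [Finset.sum_eq_single (⟨i - 1, by omega⟩ : Fin (N + 1))]
    · rw [Matrix.conjTranspose_apply, hT, hT, if_pos (show (i : ℕ) = (i - 1 : ℕ) + 1 by omega),
        if_neg hi]
      by_cases hik : i = k
      · rw [if_pos hik, ← hik, if_pos (show (i : ℕ) = (i - 1 : ℕ) + 1 by omega),
          Complex.star_def, Complex.conj_ofReal]
        push_cast
        ring
      · rw [if_neg hik, if_neg, star_zero, mul_zero]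
        intro h
        apply hik
        ext
        have h' : (k : ℕ) = (i - 1 : ℕ) + 1 := h
        omega
    · intro j _ hj
      rw [hT i j, if_neg, zero_mul]
      intro h
      apply hj
      ext
      show (j : ℕ) = (i : ℕ) - 1
      omega
    · intro h
      exact absurd (Finset.mem_univ _) h

theorem sum_sq (h1 : T_BK1) (h2 : T_BK2) (N : ℕ) :
    ∑ a, bk N (co a) * bk N (co a) =
      ((N / (N + 2) : ℝ) : ℂ) • (1 : Matrix (Fin (N + 1)) (Fin (N + 1)) ℂ) := by
  have hN : (0 : ℝ) < N + 2 := by positivity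
  set X := bk N (co 0) with hX
  set Y := bk N (co 1) with hY
  set D := bk N (co 2) with hD
  set T := bk N (co 0 + Complex.I • co 1) with hT0
  have hTe : T = X + Complex.I • Y := by rw [hT0, h1.1, h1.2.1]
  have hXs : X.conjTranspose = X := by rw [hX, ← h1.2.2.2.1, star_co]
  have hYs : Y.conjTranspose = Y := by rw [hY, ← h1.2.2.2.1, star_co]
  have hTs : T.conjTranspose = X - Complex.I • Y := by
    rw [hTe, Matrix.conjTranspose_add, Matrix.conjTranspose_smul, hXs, hYs, Complex.star_def,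
      Complex.conj_I, neg_smul, sub_eq_add_neg]
  have hsum : X * X + Y * Y = (1 / 2 : ℂ) • (T * T.conjTranspose + T.conjTranspose * T) := by
    rw [hTs, hTe]
    simp only [Matrix.add_mul, Matrix.mul_add, Matrix.sub_mul, Matrix.mul_sub, Matrix.smul_mul,
      Matrix.mul_smul, smul_smul, Complex.I_mul_I, smul_add, smul_sub]
    module
  let t : ℕ → ℝ := fun j => 2 * Real.sqrt (((j : ℕ) + 1) * (N - (j : ℕ))) / (N + 2)
  have hTij : ∀ i j : Fin (N + 1), T i j = if (i : ℕ) = j + 1 then (t j : ℂ) else 0 := by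
    intro i j
    rw [hT0, h2.2]
    by_cases hij : (i : ℕ) = j + 1
    · rw [if_pos hij, if_pos hij]
      show _ = ((2 * Real.sqrt (((j : ℕ) + 1) * (N - (j : ℕ))) / (N + 2) : ℝ) : ℂ)
      push_cast
      rfl
    · rw [if_neg hij, if_neg hij]
  have htN : t N = 0 := by
    show 2 * Real.sqrt (((N : ℕ) + 1) * (N - (N : ℕ))) / (N + 2) = 0
    simp
  have ht2 : ∀ j : ℕ, j ≤ N → t j ^ 2 = 4 * ((j + 1) * (N - j)) / (N + 2) ^ 2 := by
    intro j hj
    have hj' : (j : ℝ) ≤ N := by exact_mod_cast hj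
    have h0 : 0 ≤ ((j : ℝ) + 1) * (N - j) := mul_nonneg (by positivity) (by linarith)
    show (2 * Real.sqrt (((j : ℕ) + 1) * (N - (j : ℕ))) / (N + 2)) ^ 2 = _
    rw [div_pow, mul_pow, Real.sq_sqrt h0]
    norm_num
  rw [Fin.sum_univ_three]
  show X * X + Y * Y + D * D = _
  rw [hsum]
  ext i k
  have hDD : (D * D) i k = if i = k then ((((2 * (i : ℕ) - N) / (N + 2)) ^ 2 : ℝ) : ℂ) else 0 := by
    rw [Matrix.mul_apply, Finset.sum_eq_single i]
    · rw [hD, h2.1, h2.1, if_pos rfl]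
      by_cases hik : i = k
      · rw [if_pos hik, if_pos hik]
        push_cast
        ring
      · rw [if_neg hik, if_neg hik, mul_zero]
    · intro j _ hj
      rw [hD, h2.1 N i j, if_neg (Ne.symm hj), zero_mul]
    · intro h
      exact absurd (Finset.mem_univ _) h
  rw [Matrix.add_apply, Matrix.smul_apply, Matrix.add_apply, shift1 N t htN T hTij,
    shift2 N t T hTij, hDD, Matrix.smul_apply, Matrix.one_apply]
  by_cases hik : i = k
  · rw [if_pos hik, if_pos hik, if_pos hik, if_pos hik]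
    have hi : (i : ℕ) ≤ N := by omega
    have key : (1 / 2 : ℝ) * ((if (i : ℕ) = 0 then 0 else t (i - 1) ^ 2) + t i ^ 2) +
        ((2 * (i : ℕ) - N) / (N + 2)) ^ 2 = N / (N + 2) := by
      rw [ht2 i hi]
      by_cases h0 : (i : ℕ) = 0
      · rw [if_pos h0, h0]
        field_simp
        push_cast
        ring
      · rw [if_neg h0, ht2 _ (by omega)]
        have e : (((i : ℕ) - 1 : ℕ) : ℝ) = (i : ℕ) - 1 := by
          rw [Nat.cast_sub (by omega)]
          simp
        rw [e]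
        field_simp
        ring
    have key' := congrArg (fun r : ℝ => (r : ℂ)) key
    simp only [smul_eq_mul, mul_one] at key' ⊢
    rw [← key']
    push_cast
    ring
  · rw [if_neg hik, if_neg hik, if_neg hik, if_neg hik]
    simp

theorem Df_add (h1 : T_BK1) (h2 : T_BK2) (N : ℕ) :
    ∑ a, Df N (co a) (co a) =
      ((2 / (N + 2) : ℝ) : ℂ) • (1 : Matrix (Fin (N + 1)) (Fin (N + 1)) ℂ) := by
  have hN : (0 : ℝ) < N + 2 := by positivity
  have e1 : ∀ a, Df N (co a) (co a) = bk N (co a * co a) - bk N (co a) * bk N (co a) := by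
    intro a
    unfold Df
    rw [← h1.2.2.2.1, star_co]
  have e2 : ∑ a, bk N (co a * co a) = (1 : Matrix (Fin (N + 1)) (Fin (N + 1)) ℂ) := by
    rw [← h1.2.2.1 N, ← sum_co, Fin.sum_univ_three, Fin.sum_univ_three, h1.1, h1.1]
  rw [Finset.sum_congr rfl fun a _ => e1 a, Finset.sum_sub_distrib, e2, sum_sq h1 h2]
  have e3 : ((2 / (N + 2) : ℝ) : ℂ) = 1 - ((N / (N + 2) : ℝ) : ℂ) := by
    rw [← Complex.ofReal_one, ← Complex.ofReal_sub]
    congr 1
    field_simp
    ring
  rw [e3, sub_smul, one_smul]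

theorem key (h1 : T_BK1) (h2 : T_BK2) (N : ℕ) (a : Fin 3) (g : C(S2, ℂ)) :
    ‖Er N (co a) g‖ ≤ Real.sqrt (2 / (N + 2)) * (2 * ‖g‖) := by
  obtain ⟨X, hX⟩ := dil2 h1 N fun o : Option (Fin 3) => o.elim g co
  have n1 : ‖X (some a)‖ ≤ Real.sqrt (2 / (N + 2)) := by
    refine mono (fun b => X (some b)) (2 / (N + 2)) (by positivity) ?_ a
    rw [← Df_add h1 h2 N]
    exact Finset.sum_congr rfl fun b _ => hX (some b) (some b)
  have n2 : ‖X none‖ ≤ 2 * ‖g‖ := by
    have e : ‖X none‖ * ‖X none‖ = ‖Df N g g‖ := by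
      rw [← Matrix.l2_opNorm_conjTranspose_mul_self, hX]
      rfl
    have e2 : ‖Df N g g‖ ≤ 2 * ‖g‖ * ‖g‖ := by
      rw [← Er_Df h1]
      have e5 : ‖star g‖ = ‖g‖ := norm_star g
      refine (norm_Er h1 N _ _).trans (le_of_eq ?_)
      rw [e5]
    have h3 : ‖X none‖ * ‖X none‖ ≤ (2 * ‖g‖) * (2 * ‖g‖) := by
      rw [e]
      nlinarith [norm_nonneg g]
    exact (mul_self_le_mul_self_iff (norm_nonneg _) (by positivity)).2 h3
  have e : Er N (co a) g = (X (some a)).conjTranspose * X none := by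
    rw [hX, ← Er_Df h1]
    show Er N (co a) g = Er N (star (co a)) g
    rw [star_co]
  rw [e]
  calc ‖(X (some a)).conjTranspose * X none‖ ≤ ‖(X (some a)).conjTranspose‖ * ‖X none‖ :=
        Matrix.l2_opNorm_mul _ _
    _ ≤ Real.sqrt (2 / (N + 2)) * (2 * ‖g‖) := by
        rw [Matrix.l2_opNorm_conjTranspose]
        exact mul_le_mul n1 n2 (norm_nonneg _) (Real.sqrt_nonneg _)

/-! ### The algebra of the functions which are asymptotically multiplicative -/

open Filter Topology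

/-- the errors tend to zero on both sides -/
def Am (f : C(S2, ℂ)) : Prop :=
  ∀ g, Tendsto (fun N => ‖Er N f g‖) atTop (𝓝 0) ∧ Tendsto (fun N => ‖Er N g f‖) atTop (𝓝 0)

theorem am_star (h1 : T_BK1) {f : C(S2, ℂ)} (h : Am f) : Am (star f) := by
  intro g
  have h2 := h (star g)
  have e1 : ∀ N, ‖Er N (star f) g‖ = ‖Er N (star g) f‖ := fun N => by
    rw [← Er_star h1, star_star]
  have e2 : ∀ N, ‖Er N g (star f)‖ = ‖Er N f (star g)‖ := fun N => by
    rw [← Er_star h1, star_star]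
  simp only [e1, e2]
  exact ⟨h2.2, h2.1⟩

theorem am_add (h1 : T_BK1) {f f' : C(S2, ℂ)} (h : Am f) (h' : Am f') : Am (f + f') := by
  intro g
  constructor
  · refine squeeze_zero (fun _ => norm_nonneg _) (fun N => ?_)
      (by simpa using (h g).1.add (h' g).1)
    have e : Er N (f + f') g = Er N f g + Er N f' g := by
      unfold Er
      rw [add_mul, h1.1, h1.1, add_mul]
      abel
    rw [e]
    exact norm_add_le _ _
  · refine squeeze_zero (fun _ => norm_nonneg _) (fun N => ?_)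
      (by simpa using (h g).2.add (h' g).2)
    have e : Er N g (f + f') = Er N g f + Er N g f' := by
      unfold Er
      rw [mul_add, h1.1, h1.1, mul_add]
      abel
    rw [e]
    exact norm_add_le _ _

theorem am_mul (h1 : T_BK1) {f f' : C(S2, ℂ)} (h : Am f) (h' : Am f') : Am (f * f') := by
  intro g
  constructor
  · refine squeeze_zero (g := fun N => ‖Er N f (f' * g)‖ + ‖f‖ * ‖Er N f' g‖ +
      ‖Er N f f'‖ * ‖g‖) (fun _ => norm_nonneg _) (fun N => ?_) ?_
    · have e : Er N (f * f') g = Er N f (f' * g) + bk N f * Er N f' g - Er N f f' * bk N g := by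
        unfold Er
        rw [mul_assoc f f' g]
        noncomm_ring
      rw [e]
      refine (norm_sub_le _ _).trans (add_le_add ((norm_add_le _ _).trans (add_le_add le_rfl ?_)) ?_)
      · exact (Matrix.l2_opNorm_mul _ _).trans
          (mul_le_mul_of_nonneg_right (norm_bk h1 N f) (norm_nonneg _))
      · exact (Matrix.l2_opNorm_mul _ _).trans
          (mul_le_mul_of_nonneg_left (norm_bk h1 N g) (norm_nonneg _))
    · have := ((h (f' * g)).1.add ((h' g).1.const_mul ‖f‖)).add ((h f').1.mul_const ‖g‖)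
      simpa using this
  · refine squeeze_zero (g := fun N => ‖Er N (g * f) f'‖ + ‖Er N g f‖ * ‖f'‖ +
      ‖g‖ * ‖Er N f f'‖) (fun _ => norm_nonneg _) (fun N => ?_) ?_
    · have e : Er N g (f * f') = Er N (g * f) f' + Er N g f * bk N f' - bk N g * Er N f f' := by
        unfold Er
        rw [← mul_assoc g f f']
        noncomm_ring
      rw [e]
      refine (norm_sub_le _ _).trans (add_le_add ((norm_add_le _ _).trans (add_le_add le_rfl ?_)) ?_)
      · exact (Matrix.l2_opNorm_mul _ _).trans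
          (mul_le_mul_of_nonneg_left (norm_bk h1 N f') (norm_nonneg _))
      · exact (Matrix.l2_opNorm_mul _ _).trans
          (mul_le_mul_of_nonneg_right (norm_bk h1 N g) (norm_nonneg _))
    · have := ((h' (g * f)).2.add ((h g).2.mul_const ‖f'‖)).add ((h f').1.const_mul ‖g‖)
      simpa using this

theorem am_const (h1 : T_BK1) (c : ℂ) : Am (c • (1 : C(S2, ℂ))) := by
  intro g
  have e1 : ∀ N, Er N (c • (1 : C(S2, ℂ))) g = 0 := fun N => by
    unfold Er
    rw [smul_mul_assoc, one_mul, h1.2.1, h1.2.1, h1.2.2.1, smul_mul_assoc, one_mul, sub_self]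
  have e2 : ∀ N, Er N g (c • (1 : C(S2, ℂ))) = 0 := fun N => by
    unfold Er
    rw [mul_smul_comm, mul_one, h1.2.1, h1.2.1, h1.2.2.1, mul_smul_comm, mul_one, sub_self]
  simp only [e1, e2, norm_zero]
  exact ⟨tendsto_const_nhds, tendsto_const_nhds⟩

theorem am_co (h1 : T_BK1) (h2 : T_BK2) (a : Fin 3) : Am (co a) := by
  have h3 : Tendsto (fun N : ℕ => Real.sqrt (2 / ((N : ℝ) + 2))) atTop (𝓝 0) := by
    have h4 : Tendsto (fun N : ℕ => (2 : ℝ) / ((N : ℝ) + 2)) atTop (𝓝 0) :=
      Tendsto.div_atTop tendsto_const_nhds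
        (tendsto_atTop_add_const_right _ _ tendsto_natCast_atTop_atTop)
    have h5 := (Real.continuous_sqrt.tendsto 0).comp h4
    rw [Real.sqrt_zero] at h5
    exact h5
  have h6 : ∀ g : C(S2, ℂ), Tendsto (fun N => ‖Er N (co a) g‖) atTop (𝓝 0) := by
    intro g
    refine squeeze_zero (fun _ => norm_nonneg _) (fun N => key h1 h2 N a g) ?_
    simpa using h3.mul_const (2 * ‖g‖)
  intro g
  refine ⟨h6 g, ?_⟩
  have e : ∀ N, ‖Er N g (co a)‖ = ‖Er N (co a) (star g)‖ :=
    fun N => by rw [← Er_star h1, star_co]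
  simp only [e]
  exact h6 (star g)

/-- the algebra -/
def alg (h1 : T_BK1) : StarSubalgebra ℂ C(S2, ℂ) where
  carrier := {f | Am f}
  mul_mem' h h' := am_mul h1 h h'
  add_mem' h h' := am_add h1 h h'
  algebraMap_mem' c := by
    have := am_const h1 c
    rwa [← Algebra.algebraMap_eq_smul_one] at this
  star_mem' h := am_star h1 h

theorem alg_top (h1 : T_BK1) (h2 : T_BK2) : (alg h1).topologicalClosure = ⊤ := by
  refine ContinuousMap.starSubalgebra_topologicalClosure_eq_top_of_separatesPoints _ ?_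
  intro x y hxy
  have h3 : ∃ a : Fin 3, (x : E3) a ≠ (y : E3) a := by
    by_contra h
    push Not at h
    apply hxy
    apply Subtype.ext
    ext a
    exact h a
  obtain ⟨a, ha⟩ := h3
  refine ⟨_, ⟨co a, am_co h1 h2 a, rfl⟩, fun h => ha ?_⟩
  have h' : (((x : E3) a : ℝ) : ℂ) = (((y : E3) a : ℝ) : ℂ) := h
  exact_mod_cast h'

end BK3_

open scoped Matrix.Norms.L2Operator in
open BK3_ in
theorem p_BK3 (h1 : T_BK1) (h2 : T_BK2) : T_BK3 := by
  intro f g δ hδ
  have hf : f ∈ (alg h1).topologicalClosure := by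
    rw [alg_top h1 h2]
    trivial
  have hf' : f ∈ closure (alg h1 : Set C(S2, ℂ)) := hf
  obtain ⟨f', hf1, hf2⟩ := Metric.mem_closure_iff.1 hf' (δ / (4 * (‖g‖ + 1))) (by positivity)
  have h3 : Am f' := hf1
  have h4 := (h3 g).1.eventually (gt_mem_nhds (show (0 : ℝ) < δ / 2 by linarith))
  obtain ⟨N₀, hN₀⟩ := Filter.eventually_atTop.1 h4
  refine ⟨N₀, fun N hN => ?_⟩
  rw [opn_eq]
  have e : bk N (f * g) - bk N f * bk N g = Er N (f - f') g + Er N f' g := by
    have e1 : bk N (f - f') = bk N f - bk N f' := by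
      have h5 := h1.1 N (f - f') f'
      rw [sub_add_cancel] at h5
      rw [h5, add_sub_cancel_right]
    have e2 : bk N ((f - f') * g) = bk N (f * g) - bk N (f' * g) := by
      have h5 := h1.1 N ((f - f') * g) (f' * g)
      rw [← add_mul, sub_add_cancel] at h5
      rw [h5, add_sub_cancel_right]
    unfold Er
    rw [e1, e2]
    noncomm_ring
  rw [e]
  have h5 : ‖Er N (f - f') g‖ ≤ δ / 2 := by
    refine (norm_Er h1 N _ _).trans ?_
    rw [← dist_eq_norm f f']
    have h6 : 2 * dist f f' * ‖g‖ ≤ 2 * (δ / (4 * (‖g‖ + 1))) * (‖g‖ + 1) := by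
      have := norm_nonneg g
      have := dist_nonneg (x := f) (y := f')
      gcongr
      linarith
    refine h6.trans (le_of_eq ?_)
    have : ‖g‖ + 1 ≠ 0 := by
      have := norm_nonneg g
      positivity
    field_simp
    norm_num
  have h7 := (hN₀ N hN).le
  exact (norm_add_le _ _).trans (by linarith)

end Pool.Agent.FPS
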