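import Pool.Agent.FPS.Targets4

set_option autoImplicit false

/-!
# FPS: proof of `T_BK4` (spectrum of the quantised `n · σ`)
-/

open scoped Classical
open MeasureTheory Pool.Agent.FPZ

noncomputable section

namespace Pool.Agent.FPS

namespace BK4_

/-- squares of the weights -/
def w2 (N : ℕ) (z : Fin (N + 1) × Fin 2) : ℝ :=
  if z.2 = 0 then ((z.1 : ℕ) + 1) / (N + 1) else (N + 1 - (z.1 : ℕ)) / (N + 1)

/-- weights -/
def w (N : ℕ) (z : Fin (N + 1) × Fin 2) : ℝ := Real.sqrt (w2 N z)

/-- the index of the block -/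
def kx (N : ℕ) (z : Fin (N + 1) × Fin 2) : ℕ := if z.2 = 0 then (z.1 : ℕ) + 1 else (z.1 : ℕ)

theorem w2_nonneg (N : ℕ) (z : Fin (N + 1) × Fin 2) : 0 ≤ w2 N z := by
  have h1 : ((z.1 : ℕ) : ℝ) ≤ N := by exact_mod_cast Nat.lt_succ_iff.1 z.1.2
  have h2 : (0 : ℝ) ≤ ((z.1 : ℕ) : ℝ) := Nat.cast_nonneg _
  have h3 : (0 : ℝ) ≤ (N : ℝ) := Nat.cast_nonneg _
  unfold w2
  split_ifs
  · positivity
  · apply div_nonneg <;> linarith

theorem w_sq (N : ℕ) (z : Fin (N + 1) × Fin 2) : w N z * w N z = w2 N z :=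
  Real.mul_self_sqrt (w2_nonneg N z)

theorem kx_le (N : ℕ) (z : Fin (N + 1) × Fin 2) : kx N z ≤ N + 1 := by
  have h1 := z.1.2
  unfold kx
  split_ifs <;> omega

theorem sum_block (N k : ℕ) (hk : k ≤ N + 1) :
    ∑ z : Fin (N + 1) × Fin 2, (if kx N z = k then w2 N z else 0) = 1 := by
  have hN : (N : ℝ) + 1 ≠ 0 := by positivity
  rw [Fintype.sum_prod_type]
  simp only [Fin.sum_univ_two]
  rw [Finset.sum_add_distrib]
  have e1 : ∑ i : Fin (N + 1), (if kx N (i, 0) = k then w2 N (i, 0) else 0) = (k : ℝ) / (N + 1) := by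
    rcases Nat.eq_zero_or_pos k with h0 | h0
    · subst h0
      simp [kx]
    · rw [Finset.sum_eq_single (⟨k - 1, by omega⟩ : Fin (N + 1))]
      · have h2 : kx N (⟨k - 1, by omega⟩, 0) = k := by simp only [kx, if_true]; omega
        rw [if_pos h2]
        simp only [w2, if_true]
        rw [Nat.cast_sub h0]
        push_cast
        ring
      · intro b _ hb
        rw [if_neg]
        intro h
        apply hb
        apply Fin.ext
        simp only [kx, if_true] at h
        simp only []
        omega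
      · intro h
        exact absurd (Finset.mem_univ _) h
  have e2 : ∑ i : Fin (N + 1), (if kx N (i, 1) = k then w2 N (i, 1) else 0) =
      ((N : ℝ) + 1 - k) / (N + 1) := by
    have h01 : ¬ ((1 : Fin 2) = 0) := by decide
    rcases Nat.lt_or_ge k (N + 1) with h0 | h0
    · rw [Finset.sum_eq_single (⟨k, h0⟩ : Fin (N + 1))]
      · have h2 : kx N (⟨k, h0⟩, 1) = k := by simp only [kx, if_neg h01]
        rw [if_pos h2]
        simp only [w2, if_neg h01]
      · intro b _ hb
        rw [if_neg]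
        intro h
        apply hb
        apply Fin.ext
        simp only [kx, if_neg h01] at h
        exact h
      · intro h
        exact absurd (Finset.mem_univ _) h
    · have hk' : k = N + 1 := le_antisymm hk h0
      subst hk'
      rw [Finset.sum_eq_zero]
      · push_cast
        ring
      · intro b _
        rw [if_neg]
        simp only [kx, if_neg h01]
        have := b.2
        omega
  rw [e1, e2]
  field_simp
  ring

/-- the projection -/
def PP (N : ℕ) : Matrix (Fin (N + 1) × Fin 2) (Fin (N + 1) × Fin 2) ℂ :=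
  Matrix.of fun x y => if kx N x = kx N y then ((w N x * w N y : ℝ) : ℂ) else 0

theorem PP_mul (N : ℕ) : PP N * PP N = PP N := by
  ext x y
  rw [Matrix.mul_apply]
  simp only [PP, Matrix.of_apply]
  have e : ∀ z, (if kx N x = kx N z then ((w N x * w N z : ℝ) : ℂ) else 0) *
      (if kx N z = kx N y then ((w N z * w N y : ℝ) : ℂ) else 0) =
      (if kx N x = kx N y then ((w N x * w N y : ℝ) : ℂ) else 0) *
        (((if kx N z = kx N x then w2 N z else 0 : ℝ)) : ℂ) := by
    intro z
    rw [← w_sq N z]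
    by_cases h1 : kx N z = kx N x
    · rw [if_pos h1.symm, if_pos h1]
      by_cases h2 : kx N x = kx N y
      · rw [if_pos h2, if_pos (h1.trans h2)]
        push_cast
        ring
      · rw [if_neg h2, if_neg (fun h => h2 (h1.symm.trans h))]
        ring
    · rw [if_neg (fun h => h1 h.symm), if_neg h1]
      simp
  rw [Finset.sum_congr rfl (fun z _ => e z), ← Finset.mul_sum, ← Complex.ofReal_sum,
    sum_block N (kx N x) (kx_le N x)]
  simp

theorem PP_herm (N : ℕ) : (PP N).conjTranspose = PP N := by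
  ext x y
  simp only [PP, Matrix.conjTranspose_apply, Matrix.of_apply]
  by_cases h : kx N x = kx N y
  · rw [if_pos h, if_pos h.symm, Complex.star_def, Complex.conj_ofReal, mul_comm]
  · rw [if_neg h, if_neg (fun h' => h h'.symm), star_zero]

theorem PP_trace (N : ℕ) : (PP N).trace = N + 2 := by
  have hN : (N : ℝ) + 1 ≠ 0 := by positivity
  rw [Matrix.trace]
  have e : ∀ x, (PP N).diag x = ((w2 N x : ℝ) : ℂ) := by
    intro x
    simp only [PP, Matrix.diag_apply, Matrix.of_apply, if_true, w_sq]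
  rw [Finset.sum_congr rfl (fun x _ => e x), ← Complex.ofReal_sum, Fintype.sum_prod_type]
  simp only [Fin.sum_univ_two]
  have e2 : ∀ i : Fin (N + 1), w2 N (i, 0) + w2 N (i, 1) = ((N : ℝ) + 2) / (N + 1) := by
    intro i
    have h01 : ¬ ((1 : Fin 2) = 0) := by decide
    simp only [w2, if_true, if_neg h01]
    field_simp
    ring
  rw [Finset.sum_congr rfl (fun i _ => e2 i), Finset.sum_const, Finset.card_univ,
    Fintype.card_fin, nsmul_eq_mul]
  have : (((N + 1 : ℕ) : ℝ) * (((N : ℝ) + 2) / (N + 1))) = N + 2 := by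
    push_cast
    field_simp
  rw [this]
  push_cast
  rfl

theorem sq_mul (N j : ℕ) (hj : j < N + 1) (i : ℕ) (hi : i = j + 1) :
    ((N : ℝ) + 1) * (Real.sqrt (((j : ℝ) + 1) / (N + 1)) * Real.sqrt (((N : ℝ) + 1 - i) / (N + 1))) =
      Real.sqrt (((j : ℝ) + 1) * (N - j)) := by
  have hN : (0 : ℝ) < (N : ℝ) + 1 := by positivity
  have hj' : (j : ℝ) ≤ N := by exact_mod_cast Nat.lt_succ_iff.1 hj
  have h1 : (0 : ℝ) ≤ ((j : ℝ) + 1) / (N + 1) := by positivity
  rw [← Real.sqrt_mul h1]
  subst hi
  push_cast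
  have e : ((j : ℝ) + 1) / (N + 1) * (((N : ℝ) + 1 - (j + 1)) / (N + 1)) =
      (((j : ℝ) + 1) * (N - j)) / ((N + 1) ^ 2) := by
    field_simp
    ring
  rw [e, Real.sqrt_div' _ (by positivity), Real.sqrt_sq hN.le]
  field_simp

theorem ent00 (M : C(S2, Matrix (Fin 2) (Fin 2) ℂ)) (hM : ∀ m : S2, M m = pp (m : E3)) :
    ent M 0 0 = (1 / 2 : ℂ) • ((1 : C(S2, ℂ)) + co 2) := by
  ext m
  simp [ent, hM, pp, sg, co]

theorem ent10 (M : C(S2, Matrix (Fin 2) (Fin 2) ℂ)) (hM : ∀ m : S2, M m = pp (m : E3)) :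
    ent M 1 0 = (1 / 2 : ℂ) • (co 0 + Complex.I • co 1) := by
  ext m
  simp [ent, hM, pp, sg, co]
  ring

theorem ent01 (M : C(S2, Matrix (Fin 2) (Fin 2) ℂ)) (hM : ∀ m : S2, M m = pp (m : E3)) :
    ent M 0 1 = (1 / 2 : ℂ) • star (co 0 + Complex.I • co 1) := by
  ext m
  simp [ent, hM, pp, sg, co]
  ring

theorem ent11 (M : C(S2, Matrix (Fin 2) (Fin 2) ℂ)) (hM : ∀ m : S2, M m = pp (m : E3)) :
    ent M 1 1 = (1 / 2 : ℂ) • ((1 : C(S2, ℂ)) + (-1 : ℂ) • co 2) := by
  ext m
  simp [ent, hM, pp, sg, co]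

end BK4_

open BK4_ in
theorem p_BK4 (h_BK1 : T_BK1) (h_BK2 : T_BK2) : T_BK4 := by
  intro N
  obtain ⟨hadd, hsmul, hone, hstar, -⟩ := h_BK1
  obtain ⟨hD, hT⟩ := h_BK2
  refine ⟨PP N, PP_mul N, PP_herm N, PP_trace N, ?_⟩
  intro M hM
  have hN1 : ((N : ℂ) + 1) ≠ 0 := by exact_mod_cast (by positivity : ((N : ℝ) + 1) ≠ 0)
  have hN2 : ((N : ℂ) + 2) ≠ 0 := by exact_mod_cast (by positivity : ((N : ℝ) + 2) ≠ 0)
  have h01 : ¬ ((1 : Fin 2) = 0) := by decide
  have hoff : ∀ i j : Fin (N + 1), (i : ℕ) = j + 1 →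
      ((N : ℂ) + 1) * ((w N (j, 0) * w N (i, 1) : ℝ) : ℂ) =
        ((Real.sqrt (((j : ℕ) + 1) * (N - (j : ℕ))) : ℝ) : ℂ) := by
    intro i j hij
    have := sq_mul N j j.2 i hij
    rw [← this]
    simp only [w, w2, if_true, if_neg h01]
    push_cast
    ring
  have key : ∀ (i j : Fin (N + 1)) (a b : Fin 2), bn N M (i, a) (j, b) =
      ((((N : ℂ) + 1) / (N + 2)) • PP N) (i, a) (j, b) := by
    intro i j a b
    rw [Matrix.smul_apply, smul_eq_mul]
    simp only [bn, Matrix.of_apply, PP]
    fin_cases a <;> fin_cases b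
    · simp only [Fin.zero_eta, Fin.isValue]
      rw [ent00 M hM, hsmul, hadd, hone, Matrix.smul_apply, Matrix.add_apply, hD,
        Matrix.one_apply, smul_eq_mul]
      by_cases h : i = j
      · subst h
        rw [if_pos rfl, if_pos rfl, if_pos rfl, w_sq]
        simp only [w2, if_true]
        push_cast
        field_simp
        ring
      · have h' : ¬ (kx N (i, 0) = kx N (j, 0)) := by
          simp only [kx, if_true]
          intro h'
          exact h (Fin.ext (by omega))
        rw [if_neg h, if_neg h, if_neg h']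
        simp
    · simp only [Fin.zero_eta, Fin.mk_one, Fin.isValue]
      rw [ent01 M hM, hsmul, hstar, Matrix.smul_apply, Matrix.conjTranspose_apply, hT,
        smul_eq_mul]
      by_cases h : (j : ℕ) = i + 1
      · have h' : kx N (i, 0) = kx N (j, 1) := by
          simp only [kx, if_true, if_neg h01]
          omega
        rw [if_pos h, if_pos h']
        have h2 := hoff j i h
        have h3 : (((N : ℂ) + 1) / (N + 2)) * ((w N (i, 0) * w N (j, 1) : ℝ) : ℂ) =
            ((Real.sqrt (((i : ℕ) + 1) * (N - (i : ℕ))) : ℝ) : ℂ) / (N + 2) := by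
          rw [← h2]; ring
        rw [h3, Complex.star_def, map_div₀, Complex.conj_ofReal]
        simp only [map_add, Complex.conj_natCast, Complex.conj_ofNat, Complex.ofReal_mul,
          Complex.ofReal_ofNat]
        ring
      · have h' : ¬ (kx N (i, 0) = kx N (j, 1)) := by
          simp only [kx, if_true, if_neg h01]
          omega
        rw [if_neg h, if_neg h']
        simp
    · simp only [Fin.zero_eta, Fin.mk_one, Fin.isValue]
      rw [ent10 M hM, hsmul, Matrix.smul_apply, hT, smul_eq_mul]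
      by_cases h : (i : ℕ) = j + 1
      · have h' : kx N (i, 1) = kx N (j, 0) := by
          simp only [kx, if_true, if_neg h01]
          omega
        rw [if_pos h, if_pos h']
        have h2 := hoff i j h
        have h3 : (((N : ℂ) + 1) / (N + 2)) * ((w N (i, 1) * w N (j, 0) : ℝ) : ℂ) =
            ((Real.sqrt (((j : ℕ) + 1) * (N - (j : ℕ))) : ℝ) : ℂ) / (N + 2) := by
          rw [← h2, mul_comm (w N (i, 1))]; ring
        rw [h3, Complex.ofReal_mul, Complex.ofReal_ofNat]
        ring
      · have h' : ¬ (kx N (i, 1) = kx N (j, 0)) := by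
          simp only [kx, if_true, if_neg h01]
          omega
        rw [if_neg h, if_neg h']
        simp
    · simp only [Fin.mk_one, Fin.isValue]
      rw [ent11 M hM, hsmul, hadd, hone, hsmul, Matrix.smul_apply, Matrix.add_apply,
        Matrix.smul_apply, hD, Matrix.one_apply, smul_eq_mul, smul_eq_mul]
      by_cases h : i = j
      · subst h
        rw [if_pos rfl, if_pos rfl, if_pos rfl, w_sq]
        simp only [w2, if_neg h01]
        push_cast
        field_simp
        ring
      · have h' : ¬ (kx N (i, 1) = kx N (j, 1)) := by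
          simp only [kx, if_neg h01]
          intro h'
          exact h (Fin.ext h')
        rw [if_neg h, if_neg h, if_neg h']
        simp
  ext ⟨i, a⟩ ⟨j, b⟩
  exact key i j a b

end Pool.Agent.FPS
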