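import Pool.Agent.FPS.Targets4

set_option autoImplicit false

/-!
# FPS, target BKU: uniformity of asymptotic multiplicativity in a parameter
-/

open scoped Classical
open MeasureTheory Pool.Agent.FPZ

noncomputable section

namespace Pool.Agent.FPS

namespace BKU_

lemma opn_add {n : Type} [Fintype n] (A B : Matrix n n ℂ) : opn (A + B) ≤ opn A + opn B := by
  unfold opn
  rw [map_add]
  exact norm_add_le _ _

lemma opn_mul {n : Type} [Fintype n] (A B : Matrix n n ℂ) : opn (A * B) ≤ opn A * opn B := by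
  unfold opn
  rw [map_mul]
  exact norm_mul_le _ _

lemma opn_nonneg {n : Type} [Fintype n] (A : Matrix n n ℂ) : 0 ≤ opn A := norm_nonneg _

lemma opn_smul_one (c : ℂ) : opn (c • (1 : Matrix Unit Unit ℂ)) ≤ ‖c‖ := by
  unfold opn
  rw [map_smul, norm_smul, map_one]
  calc ‖c‖ * ‖(1 : EuclideanSpace ℂ Unit →L[ℂ] EuclideanSpace ℂ Unit)‖ ≤ ‖c‖ * 1 :=
        mul_le_mul_of_nonneg_left ContinuousLinearMap.norm_id_le (norm_nonneg c)
    _ = ‖c‖ := mul_one _

/-- The `1 × 1` matrix valued function. -/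
def un1 (f : C(S2, ℂ)) : C(S2, Matrix Unit Unit ℂ) :=
  ⟨fun x => f x • (1 : Matrix Unit Unit ℂ), f.continuous.smul continuous_const⟩

lemma bn_un1 (N : ℕ) (f : C(S2, ℂ)) (i j : Fin (N + 1)) (u v : Unit) :
    bn N (un1 f) (i, u) (j, v) = bk N f i j := by
  have h : ent (un1 f) u v = f := by
    ext x
    simp [ent, un1]
  simp [bn, h]

lemma opn_reindex {n m : Type} [Fintype n] [Fintype m] (e : m ≃ n) (A : Matrix n n ℂ)
    (B : Matrix m m ℂ) (h : ∀ i j, B i j = A (e i) (e j)) : opn A ≤ opn B := by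
  unfold opn
  refine ContinuousLinearMap.opNorm_le_bound _ (norm_nonneg _) fun v => ?_
  have h1 : ∀ v : EuclideanSpace ℂ n,
      ‖(WithLp.toLp 2 fun p : m => v (e p) : EuclideanSpace ℂ m)‖ = ‖v‖ := by
    intro v
    rw [EuclideanSpace.norm_eq, EuclideanSpace.norm_eq]
    congr 1
    exact Equiv.sum_comp e fun i => ‖v i‖ ^ 2
  have h2 : (Matrix.toEuclideanCLM (n := m) (𝕜 := ℂ) B) (WithLp.toLp 2 fun p : m => v (e p)) =
      WithLp.toLp 2 fun p : m => (Matrix.toEuclideanCLM (n := n) (𝕜 := ℂ) A v) (e p) := by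
    rw [Matrix.toEuclideanCLM_toLp]
    congr 1
    funext p
    rw [Matrix.ofLp_toEuclideanCLM, Matrix.mulVec, Matrix.mulVec, dotProduct, dotProduct,
      ← Equiv.sum_comp e]
    refine Finset.sum_congr rfl fun j _ => ?_
    rw [h]
  calc ‖(Matrix.toEuclideanCLM (n := n) (𝕜 := ℂ) A) v‖
      = ‖(Matrix.toEuclideanCLM (n := m) (𝕜 := ℂ) B) (WithLp.toLp 2 fun p : m => v (e p))‖ := by
        rw [h2, h1]
    _ ≤ ‖Matrix.toEuclideanCLM (n := m) (𝕜 := ℂ) B‖ *
        ‖(WithLp.toLp 2 fun p : m => v (e p) : EuclideanSpace ℂ m)‖ :=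
        ContinuousLinearMap.le_opNorm _ _
    _ = _ := by rw [h1]

lemma opn_bk (h_BK1 : T_BK1) (N : ℕ) (f : C(S2, ℂ)) : opn (bk N f) ≤ ‖f‖ := by
  obtain ⟨-, -, -, -, h5⟩ := h_BK1
  refine (opn_reindex (Equiv.prodPUnit (Fin (N + 1))) (bk N f) (bn N (un1 f))
    fun i j => bn_un1 N f i.1 j.1 i.2 j.2).trans ?_
  refine (h5 N Unit (un1 f)).1 ‖f‖ (norm_nonneg _) fun x => ?_
  exact (opn_smul_one (f x)).trans (f.norm_coe_le_norm x)

lemma bk_sub (h_BK1 : T_BK1) (N : ℕ) (f g : C(S2, ℂ)) : bk N (f - g) = bk N f - bk N g := by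
  obtain ⟨h1, h2, -, -, -⟩ := h_BK1
  have h3 : f - g = f + (-1 : ℂ) • g := by
    ext x
    simp [sub_eq_add_neg]
  rw [h3, h1, h2]
  ext i j
  simp [sub_eq_add_neg]

/-- The defect changes continuously. -/
lemma defect (h_BK1 : T_BK1) (N : ℕ) (f g f' g' : C(S2, ℂ)) :
    opn (bk N (f * g) - bk N f * bk N g) ≤ opn (bk N (f' * g') - bk N f' * bk N g') +
      2 * (‖f - f'‖ * ‖g‖ + ‖f'‖ * ‖g - g'‖) := by
  have e1 : bk N (f * g) - bk N f * bk N g = (bk N (f' * g') - bk N f' * bk N g') +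
      (bk N (f * g - f' * g') + (bk N (f' - f) * bk N g + bk N f' * bk N (g' - g))) := by
    rw [bk_sub h_BK1, bk_sub h_BK1, bk_sub h_BK1]
    noncomm_ring
  have e2 : f * g - f' * g' = (f - f') * g + f' * (g - g') := by ring
  have a1 : opn (bk N (f * g - f' * g')) ≤ ‖f - f'‖ * ‖g‖ + ‖f'‖ * ‖g - g'‖ := by
    refine (opn_bk h_BK1 N _).trans ?_
    rw [e2]
    refine (norm_add_le _ _).trans (add_le_add (norm_mul_le _ _) (norm_mul_le _ _))
  have a2 : opn (bk N (f' - f) * bk N g) ≤ ‖f - f'‖ * ‖g‖ := by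
    refine (opn_mul _ _).trans ?_
    rw [norm_sub_rev f f']
    exact mul_le_mul (opn_bk h_BK1 N _) (opn_bk h_BK1 N _) (opn_nonneg _) (norm_nonneg _)
  have a3 : opn (bk N f' * bk N (g' - g)) ≤ ‖f'‖ * ‖g - g'‖ := by
    refine (opn_mul _ _).trans ?_
    rw [norm_sub_rev g g']
    exact mul_le_mul (opn_bk h_BK1 N _) (opn_bk h_BK1 N _) (opn_nonneg _) (norm_nonneg _)
  rw [e1]
  refine (opn_add _ _).trans (add_le_add le_rfl ?_)
  refine (opn_add _ _).trans ?_
  have a4 := opn_add (bk N (f' - f) * bk N g) (bk N f' * bk N (g' - g))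
  linarith

lemma sl_continuous {Y : Type} [TopologicalSpace Y] (f : C(Y × S2, ℂ)) :
    Continuous fun y => sl f y := by
  have h : (fun y => sl f y) = fun y => ContinuousMap.curry f y := by
    funext y
    ext m
    rfl
  rw [h]
  exact (ContinuousMap.curry f).continuous

end BKU_

open BKU_ in
theorem p_BKU (h_BK1 : T_BK1) (h_BK3 : T_BK3) : T_BKU := by
  intro Y _ _ f g δ hδ
  have key := isCompact_univ.induction_on (X := Y)
    (p := fun s : Set Y => ∃ N₀ : ℕ, ∀ N ≥ N₀, ∀ y ∈ s,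
      opn (bk N (sl (f * g) y) - bk N (sl f y) * bk N (sl g y)) ≤ δ) ?_ ?_ ?_ ?_
  · obtain ⟨N₀, h⟩ := key
    exact ⟨N₀, fun N hN y => h N hN y (Set.mem_univ y)⟩
  · exact ⟨0, fun N _ y hy => absurd hy (Set.notMem_empty y)⟩
  · rintro s t hst ⟨N₀, h⟩
    exact ⟨N₀, fun N hN y hy => h N hN y (hst hy)⟩
  · rintro s t ⟨N₁, h₁⟩ ⟨N₂, h₂⟩
    refine ⟨max N₁ N₂, fun N hN y hy => ?_⟩
    rcases hy with hy | hy
    · exact h₁ N (le_of_max_le_left hN) y hy
    · exact h₂ N (le_of_max_le_right hN) y hy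
  · intro y₀ _
    obtain ⟨N₀, hN₀⟩ := h_BK3 (sl f y₀) (sl g y₀) (δ / 2) (half_pos hδ)
    have hc : Continuous fun y => 2 * (‖sl f y - sl f y₀‖ * ‖sl g y‖ +
        ‖sl f y₀‖ * ‖sl g y - sl g y₀‖) := by
      have hf := sl_continuous f
      have hg := sl_continuous g
      fun_prop
    have h0 : (fun y => 2 * (‖sl f y - sl f y₀‖ * ‖sl g y‖ +
        ‖sl f y₀‖ * ‖sl g y - sl g y₀‖)) y₀ < δ / 2 := by
      simp only [sub_self, norm_zero, zero_mul, mul_zero, add_zero]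
      exact half_pos hδ
    have hev := hc.continuousAt.eventually_lt (continuousAt_const (y := δ / 2)) h0
    refine ⟨_, mem_nhdsWithin_of_mem_nhds hev, N₀, fun N hN y hy => ?_⟩
    have h1 := defect h_BK1 N (sl f y) (sl g y) (sl f y₀) (sl g y₀)
    have h2 := hN₀ N hN
    have h3 : 2 * (‖sl f y - sl f y₀‖ * ‖sl g y‖ + ‖sl f y₀‖ * ‖sl g y - sl g y₀‖) < δ / 2 := hy
    have h4 : sl (f * g) y = sl f y * sl g y := by
      ext m
      rfl
    rw [h4]
    linarith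

end Pool.Agent.FPS
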