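import Pool.Agent.FPS.Targets4

set_option autoImplicit false

/-!
# FPS, target BXH: composition with an exact homomorphism
-/

open scoped Classical
open MeasureTheory Pool.Agent.FPZ

noncomputable section

namespace Pool.Agent.FPS

namespace BXH_

section

open scoped Matrix.Norms.L2Operator

theorem opn_eq {n : Type} [Fintype n] (M : Matrix n n ℂ) : opn M = ‖M‖ := by
  unfold opn
  rw [Matrix.cstar_norm_def]

theorem norm_one_le {n : Type} [Fintype n] : ‖(1 : Matrix n n ℂ)‖ ≤ 1 := by
  have h := Matrix.l2_opNorm_conjTranspose_mul_self (1 : Matrix n n ℂ)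
  rw [Matrix.conjTranspose_one, Matrix.one_mul] at h
  by_contra hc
  push Not at hc
  nlinarith

/-- the embedding of a block -/
def U {m n : Type} (i : n) : Matrix (m × n) m ℂ :=
  fun p b => if p.2 = i ∧ p.1 = b then 1 else 0

theorem U_norm {m n : Type} [Fintype m] [Fintype n] (i : n) : ‖(U i : Matrix (m × n) m ℂ)‖ ≤ 1 := by
  have h := Matrix.l2_opNorm_conjTranspose_mul_self (U i : Matrix (m × n) m ℂ)
  have h1 : (U i : Matrix (m × n) m ℂ).conjTranspose * (U i : Matrix (m × n) m ℂ) = 1 := by
    ext b b'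
    rw [Matrix.mul_apply, Fintype.sum_prod_type, Finset.sum_eq_single b, Finset.sum_eq_single i]
    · simp only [Matrix.conjTranspose_apply, U, true_and, if_true, star_one, one_mul,
        Matrix.one_apply]
    · intro j _ hj
      simp only [Matrix.conjTranspose_apply, U, hj, false_and, if_false, mul_zero]
    · intro hn
      exact absurd (Finset.mem_univ _) hn
    · intro a _ ha
      refine Finset.sum_eq_zero fun j _ => ?_
      simp only [Matrix.conjTranspose_apply, U, ha, and_false, if_false, star_zero, zero_mul]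
    · intro hn
      exact absurd (Finset.mem_univ _) hn
  rw [h1] at h
  have h2 : ‖(1 : Matrix m m ℂ)‖ ≤ 1 := norm_one_le
  by_contra hc
  push Not at hc
  nlinarith

/-- the norm of a block matrix -/
theorem block {m n : Type} [Fintype m] [Fintype n] (M : Matrix (m × n) (m × n) ℂ)
    (D : n → n → Matrix m m ℂ) (hD : ∀ i j a c, D i j a c = M (a, i) (c, j)) :
    opn M ≤ ∑ i, ∑ j, opn (D i j) := by
  have h1 : M = ∑ i, ∑ j, (U i : Matrix (m × n) m ℂ) * D i j *
      (U j : Matrix (m × n) m ℂ).conjTranspose := by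
    ext p q
    rw [Matrix.sum_apply, Finset.sum_eq_single p.2, Matrix.sum_apply, Finset.sum_eq_single q.2]
    · rw [Matrix.mul_apply, Finset.sum_eq_single q.1, Matrix.mul_apply,
        Finset.sum_eq_single p.1]
      · simp only [U, Matrix.conjTranspose_apply, and_self, if_true, one_mul, star_one, mul_one,
          hD]
      · intro b _ hb
        simp only [U, Ne.symm hb, and_false, if_false, zero_mul]
      · intro hn
        exact absurd (Finset.mem_univ _) hn
      · intro b _ hb
        simp only [U, Matrix.conjTranspose_apply, Ne.symm hb, and_false, if_false, star_zero,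
          mul_zero]
      · intro hn
        exact absurd (Finset.mem_univ _) hn
    · intro j _ hj
      rw [Matrix.mul_apply]
      refine Finset.sum_eq_zero fun b _ => ?_
      simp only [U, Matrix.conjTranspose_apply, Ne.symm hj, false_and, if_false, star_zero,
        mul_zero]
    · intro hn
      exact absurd (Finset.mem_univ _) hn
    · intro i _ hi
      rw [Matrix.sum_apply]
      refine Finset.sum_eq_zero fun j _ => ?_
      rw [Matrix.mul_apply]
      refine Finset.sum_eq_zero fun b _ => ?_
      have h2 : ((U i : Matrix (m × n) m ℂ) * D i j) p b = 0 := by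
        rw [Matrix.mul_apply]
        refine Finset.sum_eq_zero fun b' _ => ?_
        simp only [U, Ne.symm hi, false_and, if_false, zero_mul]
      rw [h2, zero_mul]
    · intro hn
      exact absurd (Finset.mem_univ _) hn
  rw [opn_eq, h1]
  refine (norm_sum_le _ _).trans (Finset.sum_le_sum fun i _ => ?_)
  refine (norm_sum_le _ _).trans (Finset.sum_le_sum fun j _ => ?_)
  rw [opn_eq]
  have h2 : ‖(U j : Matrix (m × n) m ℂ).conjTranspose‖ ≤ 1 := by
    rw [Matrix.l2_opNorm_conjTranspose]
    exact U_norm j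
  calc ‖(U i : Matrix (m × n) m ℂ) * D i j * (U j : Matrix (m × n) m ℂ).conjTranspose‖ ≤
      ‖(U i : Matrix (m × n) m ℂ) * D i j‖ * ‖(U j : Matrix (m × n) m ℂ).conjTranspose‖ :=
        Matrix.l2_opNorm_mul _ _
    _ ≤ (1 * ‖D i j‖) * 1 := by
        refine mul_le_mul ?_ h2 (norm_nonneg _) (by positivity)
        exact (Matrix.l2_opNorm_mul _ _).trans
          (mul_le_mul_of_nonneg_right (U_norm i) (norm_nonneg _))
    _ = ‖D i j‖ := by ring

theorem opn_sum {m ι : Type} [Fintype m] (s : Finset ι) (X : ι → Matrix m m ℂ) :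
    opn (∑ l ∈ s, X l) ≤ ∑ l ∈ s, opn (X l) := by
  rw [opn_eq]
  refine (norm_sum_le _ _).trans (le_of_eq (Finset.sum_congr rfl fun l _ => ?_))
  rw [opn_eq]

end

end BXH_

theorem p_BXH (h1 : T_BK1) (hU : T_BKU) (hC : T_BXC) : T_BXH := by
  obtain ⟨hadd, hsmul, hone, hstar, hM⟩ := h1
  intro K Y n _ _ _ _ _ P H δ hP hδ
  have hval : ∀ N (M : C(Y × S2, Matrix n n ℂ)) y a c,
      bx N M y a c = bk N (ent (sl M y) a.2 c.2) a.1 c.1 := fun N M y a c => by
    rw [(hC Y n N M).1 y]
    rfl
  have hzero : ∀ N, bk N 0 = 0 := fun N => by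
    have h := hadd N 0 0
    rw [add_zero] at h
    exact left_eq_add.1 h
  have hsum : ∀ (N : ℕ) (s : Finset n) (f : n → C(S2, ℂ)),
      bk N (∑ l ∈ s, f l) = ∑ l ∈ s, bk N (f l) := by
    intro N s f
    induction s using Finset.induction_on with
    | empty => simp [hzero]
    | insert a s ha ih => rw [Finset.sum_insert ha, Finset.sum_insert ha, hadd, ih]
  set cn : ℝ := (Fintype.card n : ℝ) with hcn
  have hcn0 : 0 ≤ cn := Nat.cast_nonneg _
  set η : ℝ := δ / (cn ^ 3 + 1) with hη
  have hη0 : 0 < η := by positivity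
  have hηδ : cn ^ 3 * η ≤ δ := by
    rw [hη, ← mul_div_assoc, div_le_iff₀ (by positivity)]
    nlinarith
  choose N0 hN0 using fun (f g : C(K, ℂ)) (i l j : n) =>
    hU Y (ent (P f) i l) (ent (P g) l j) η hη0
  refine ⟨(H ×ˢ (H ×ˢ (Finset.univ : Finset (n × n × n)))).sup
    (fun p => N0 p.1 p.2.1 p.2.2.1 p.2.2.2.1 p.2.2.2.2), ?_⟩
  intro N hN
  refine ⟨?_, ?_, ?_, ?_, ?_, ?_⟩
  · intro f g
    ext y a c
    rw [ContinuousMap.add_apply, Matrix.add_apply, hval, hval, hval, hP.add]
    have h : ent (sl (P f + P g) y) a.2 c.2 = ent (sl (P f) y) a.2 c.2 +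
        ent (sl (P g) y) a.2 c.2 := by
      ext m
      rfl
    rw [h, hadd, Matrix.add_apply]
  · intro c' f
    ext y a c
    rw [ContinuousMap.smul_apply, Matrix.smul_apply, hval, hval, hP.smul]
    have h : ent (sl (c' • P f) y) a.2 c.2 = c' • ent (sl (P f) y) a.2 c.2 := by
      ext m
      rfl
    rw [h, hsmul, Matrix.smul_apply]
  · intro y
    ext a c
    rw [hval]
    have h : ent (sl (P 1) y) a.2 c.2 =
        ((1 : Matrix n n ℂ) a.2 c.2) • (1 : C(S2, ℂ)) := by
      ext m
      have h2 : ent (sl (P 1) y) a.2 c.2 m = P 1 (y, m) a.2 c.2 := rfl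
      rw [h2, hP.one]
      simp
    rw [h, hsmul, hone, Matrix.smul_apply]
    obtain ⟨a1, a2⟩ := a
    obtain ⟨c1, c2⟩ := c
    simp only [Matrix.one_apply, Prod.mk.injEq, smul_eq_mul]
    by_cases h1 : a1 = c1 <;> by_cases h2 : a2 = c2 <;> simp [h1, h2]
  · intro f y
    ext a c
    rw [Matrix.conjTranspose_apply, hval, hval]
    have h : ent (sl (P (star f)) y) a.2 c.2 = star (ent (sl (P f) y) c.2 a.2) := by
      ext m
      have h2 : ent (sl (P (star f)) y) a.2 c.2 m = P (star f) (y, m) a.2 c.2 := rfl
      rw [h2, hP.str]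
      rfl
    rw [h, hstar]
    rfl
  · intro f y
    rw [(hC Y n N _).1 y]
    refine (hM N n (sl (P (star f * f)) y)).2 ?_
    intro m
    refine ⟨P f (y, m), ?_⟩
    have h2 : sl (P (star f * f)) y m = P (star f * f) (y, m) := rfl
    rw [h2, hP.mul, hP.str]
  · intro f hf g hg y
    refine (BXH_.block (bx N (P (f * g)) y - bx N (P f) y * bx N (P g) y)
      (fun i j => ∑ l, (bk N (sl (ent (P f) i l * ent (P g) l j) y) -
        bk N (sl (ent (P f) i l) y) * bk N (sl (ent (P g) l j) y))) ?_).trans ?_
    · intro i j a c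
      rw [Matrix.sub_apply, hval, Matrix.mul_apply, Fintype.sum_prod_type, Finset.sum_comm,
        Matrix.sum_apply]
      have h : ent (sl (P (f * g)) y) i j =
          ∑ l, sl (ent (P f) i l * ent (P g) l j) y := by
        ext m
        have h2 : ent (sl (P (f * g)) y) i j m = P (f * g) (y, m) i j := rfl
        rw [h2, hP.mul, Matrix.mul_apply, ContinuousMap.sum_apply]
        rfl
      rw [h, hsum, Matrix.sum_apply, ← Finset.sum_sub_distrib]
      refine Finset.sum_congr rfl fun l _ => ?_
      rw [Matrix.sub_apply, Matrix.mul_apply]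
      congr 1
      refine Finset.sum_congr rfl fun b _ => ?_
      rw [hval, hval]
      rfl
    · have h2 : ∀ i j : n, opn (∑ l, (bk N (sl (ent (P f) i l * ent (P g) l j) y) -
          bk N (sl (ent (P f) i l) y) * bk N (sl (ent (P g) l j) y))) ≤ cn * η := by
        intro i j
        refine (BXH_.opn_sum _ _).trans ?_
        calc _ ≤ ∑ _l : n, η := by
              refine Finset.sum_le_sum fun l _ => hN0 f g i l j N (le_trans ?_ hN) y
              exact Finset.le_sup
                (f := fun p : C(K, ℂ) × C(K, ℂ) × n × n × n =>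
                  N0 p.1 p.2.1 p.2.2.1 p.2.2.2.1 p.2.2.2.2) (b := (f, g, i, l, j))
                (by simp [hf, hg])
          _ = cn * η := by
              rw [Finset.sum_const, Finset.card_univ, nsmul_eq_mul]
      calc _ ≤ ∑ _i : n, ∑ _j : n, cn * η :=
            Finset.sum_le_sum fun i _ => Finset.sum_le_sum fun j _ => h2 i j
        _ = cn ^ 3 * η := by
            simp only [Finset.sum_const, Finset.card_univ, nsmul_eq_mul]
            ring
        _ ≤ δ := hηδ

end Pool.Agent.FPS
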