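import Pool.Agent.FPS.Targets2

set_option autoImplicit false
set_option linter.all false

/-!
# FPS target CAH: compressions of almost homomorphisms
-/

open scoped Classical
open MeasureTheory Pool.Agent.FPZ

noncomputable section

namespace Pool.Agent.FPS

namespace CAH_

/-- product of two completed compressions -/
theorem prod {A : Type} [CStarAlgebra A] (E x y : A) (a b : ℂ) (hE : E * E = E) :
    (E * x * E + a • (1 - E)) * (E * y * E + b • (1 - E)) =
      E * x * E * y * E + (a * b) • (1 - E) := by
  have h1 : E * (1 - E) = 0 := by rw [mul_sub, mul_one, hE, sub_self]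
  have h2 : (1 - E) * E = 0 := by rw [sub_mul, one_mul, hE, sub_self]
  have h3 : (1 - E) * (1 - E) = 1 - E := by
    rw [mul_sub, mul_one, h2, sub_zero]
  have e1 : E * x * E * (E * y * E) = E * x * E * y * E := by
    calc E * x * E * (E * y * E) = E * x * (E * E) * y * E := by noncomm_ring
      _ = E * x * E * y * E := by rw [hE]
  have e2 : E * x * E * (b • (1 - E)) = 0 := by
    rw [mul_smul_comm, mul_assoc, h1, mul_zero, smul_zero]
  have e3 : a • (1 - E) * (E * y * E) = 0 := by
    rw [smul_mul_assoc, mul_assoc, ← mul_assoc, h2, zero_mul, smul_zero]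
  have e4 : a • (1 - E) * (b • (1 - E)) = (a * b) • (1 - E) := by
    rw [smul_mul_assoc, mul_smul_comm, h3, smul_smul]
  rw [add_mul, mul_add, mul_add, e1, e2, e3, e4, add_zero, zero_add]

end CAH_

theorem p_CAH (h : T_PSM) : T_CAH := by
  intro K A _ _ _ _ k₀ E H δ δ' B L hE hL hH hB
  have hEE : E * E = E := hE.isIdempotentElem
  have hEs : star E = E := hE.isSelfAdjoint
  have hFs : star (1 - E) = 1 - E := by rw [star_sub, star_one, hEs]
  have hF : IsStarProjection (1 - E) := hE.one_sub
  have hFF : (1 - E) * (1 - E) = 1 - E := hF.isIdempotentElem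
  have nE : ‖E‖ ≤ 1 := hE.norm_le
  have nF : ‖1 - E‖ ≤ 1 := hF.norm_le
  have h1 : E * (1 - E) = 0 := by rw [mul_sub, mul_one, hEE, sub_self]
  have h2 : (1 - E) * E = 0 := by rw [sub_mul, one_mul, hEE, sub_self]
  refine ⟨⟨?_, ?_, ?_, ?_, ?_, ?_⟩, ?_⟩
  · intro f g
    simp only [cmp, hL.add, ContinuousMap.add_apply, add_smul, mul_add, add_mul]
    abel
  · intro c f
    simp only [cmp, hL.smul, ContinuousMap.smul_apply, smul_eq_mul, smul_add, mul_smul_comm,
      smul_mul_assoc, smul_smul]
  · simp only [cmp, hL.one, ContinuousMap.one_apply, one_smul, mul_one, hEE]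
    abel
  · intro f
    simp only [cmp, hL.str, star_add, star_mul, hEs, star_smul, hFs, ContinuousMap.star_apply,
      mul_assoc]
  · intro f
    have p1 : Pos (E * L (star f * f) * E) := by
      have := (h A).2.2.1 (L (star f * f)) E (hL.pos f)
      rwa [hEs] at this
    have p2 : Pos ((star f * f) k₀ • (1 - E)) := by
      refine ⟨f k₀ • (1 - E), ?_⟩
      rw [star_smul, hFs, smul_mul_assoc, mul_smul_comm, hFF, smul_smul]
      simp [ContinuousMap.mul_apply, ContinuousMap.star_apply]
    exact (h A).1 _ _ p1 p2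
  · intro f hf g hg
    have e : cmp k₀ E L (f * g) - cmp k₀ E L f * cmp k₀ E L g =
        E * (L (f * g) - L f * L g) * E + E * L f * ((1 - E) * (L g * E - E * L g)) := by
      simp only [cmp]
      rw [CAH_.prod E (L f) (L g) (f k₀) (g k₀) hEE, ContinuousMap.mul_apply]
      have e1 : E * L f * ((1 - E) * (L g * E - E * L g)) = E * L f * (1 - E) * L g * E := by
        rw [mul_sub (1 - E), ← mul_assoc (1 - E) E, h2, zero_mul, sub_zero]
        noncomm_ring
      rw [e1]
      noncomm_ring
    have n1 : ‖E * (L (f * g) - L f * L g) * E‖ ≤ δ := by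
      have hd := hL.mul f hf g hg
      calc ‖E * (L (f * g) - L f * L g) * E‖ ≤ ‖E * (L (f * g) - L f * L g)‖ * ‖E‖ :=
            norm_mul_le _ _
        _ ≤ (‖E‖ * ‖L (f * g) - L f * L g‖) * ‖E‖ := by
            gcongr
            exact norm_mul_le _ _
        _ ≤ (1 * ‖L (f * g) - L f * L g‖) * 1 := by gcongr
        _ ≤ δ := by linarith
    have n2 : ‖E * L f * ((1 - E) * (L g * E - E * L g))‖ ≤ B * δ' := by
      calc ‖E * L f * ((1 - E) * (L g * E - E * L g))‖
          ≤ ‖E * L f‖ * ‖(1 - E) * (L g * E - E * L g)‖ := norm_mul_le _ _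
        _ ≤ (‖E‖ * ‖L f‖) * (‖1 - E‖ * ‖L g * E - E * L g‖) := by
            gcongr
            · exact norm_mul_le _ _
            · exact norm_mul_le _ _
        _ ≤ (1 * B) * (1 * δ') := by
            have := (hH f hf).1
            have := (hH g hg).2
            gcongr
        _ = B * δ' := by ring
    rw [e]
    exact (norm_add_le _ _).trans (add_le_add n1 n2)
  · intro f
    have e2 : E * (f k₀ • (1 - E)) * E = 0 := by
      rw [mul_smul_comm, h1, smul_zero, zero_mul]
    have e3 : E * (E * L f * E) * E = E * L f * E := by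
      calc E * (E * L f * E) * E = (E * E) * L f * (E * E) := by noncomm_ring
        _ = E * L f * E := by rw [hEE]
    simp only [cmp]
    rw [mul_add, add_mul, e2, e3, add_zero]

end Pool.Agent.FPS
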