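import Pool.Agent.FPS.Targets1
import Pool.Agent.FPZ.P_POL
import Pool.Agent.FPZ.P_TSB

set_option autoImplicit false

/-!
# FPS, target CAN: cancellation of a small projection
-/

open scoped Classical
open MeasureTheory Pool.Agent.FPZ

noncomputable section

namespace Pool.Agent.FPS

namespace CAN_

/-- the selfadjoint unitary which exchanges the projections `p` and `a * star a` -/
theorem swap {A : Type} [CStarAlgebra A] (p a M : A) (hp : IsStarProjection p)
    (ha : star a * a = p) (hpa : p * a = 0) (hMs : star M = M) (hMa : M * a = 0)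
    (hMp : M * p = 0) : ∃ S : A, Uni S ∧ S * p = a ∧ S * M = M ∧ M * S = M := by
  have hpp : p * p = p := hp.isIdempotentElem
  have hps : star p = p := hp.isSelfAdjoint
  have hap : a * p = a := TSB_mulp p a hp ha
  have hsp : star a * p = 0 := by
    have := congrArg star hpa
    rwa [star_mul, hps, star_zero] at this
  have hpsa : p * star a = star a := by
    have := congrArg star hap
    rwa [star_mul, hps] at this
  have haa : a * a = 0 := by
    calc a * a = a * p * a := by rw [hap]
      _ = 0 := by rw [mul_assoc, hpa, mul_zero]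
  have hsaa : star a * star a = 0 := by
    have := congrArg star haa
    rwa [star_mul, star_zero] at this
  have hpM : p * M = 0 := by
    have := congrArg star hMp
    rwa [star_mul, hps, hMs, star_zero] at this
  have hsaM : star a * M = 0 := by
    have := congrArg star hMa
    rwa [star_mul, hMs, star_zero] at this
  have haM : a * M = 0 := by
    calc a * M = a * p * M := by rw [hap]
      _ = 0 := by rw [mul_assoc, hpM, mul_zero]
  have hMsa : M * star a = 0 := by
    have := congrArg star haM
    rwa [star_mul, hMs, star_zero] at this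
  have e1 : a * (a * star a) = 0 := by rw [← mul_assoc, haa, zero_mul]
  have e2 : star a * (a * star a) = star a := by rw [← mul_assoc, ha, hpsa]
  have e3 : p * (a * star a) = 0 := by rw [← mul_assoc, hpa, zero_mul]
  have e4 : a * star a * a = a := by rw [mul_assoc, ha, hap]
  have e5 : a * star a * star a = 0 := by rw [mul_assoc, hsaa, mul_zero]
  have e6 : a * star a * p = 0 := by rw [mul_assoc, hsp, mul_zero]
  have e7 : a * star a * (a * star a) = a * star a := by rw [← mul_assoc, e4]
  have e8 : a * star a * M = 0 := by rw [mul_assoc, hsaM, mul_zero]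
  have e9 : M * (a * star a) = 0 := by rw [← mul_assoc, hMa, zero_mul]
  have hS : star (a + star a + 1 - p - a * star a) = a + star a + 1 - p - a * star a := by
    simp only [star_sub, star_add, star_mul, star_star, star_one, hps]
    abel
  have hSS : (a + star a + 1 - p - a * star a) * (a + star a + 1 - p - a * star a) = 1 := by
    simp only [mul_add, mul_sub, add_mul, sub_mul, mul_one, one_mul, haa, hsaa, ha, hap, hsp,
      hpa, hpsa, hpp, e1, e2, e3, e4, e5, e6, e7]
    abel
  refine ⟨a + star a + 1 - p - a * star a, ⟨?_, ?_⟩, ?_, ?_, ?_⟩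
  · rw [hS, hSS]
  · rw [hS, hSS]
  · simp only [add_mul, sub_mul, one_mul, hap, hsp, hpp, e6]
    abel
  · simp only [add_mul, sub_mul, one_mul, haM, hsaM, hpM, e8]
    abel
  · simp only [mul_add, mul_sub, mul_one, hMa, hMsa, hMp, e9]
    abel

/-- the range projection of `b`, if `b` is bounded below on the projection `R` -/
def rp {A : Type} [CStarAlgebra A] (R b : A) : A :=
  b * Ring.inverse (star b * b + (1 - R)) * star b

theorem isU {A : Type} [CStarAlgebra A] (R b y : A) (hR : IsStarProjection R)
    (hy : y * b = R) : IsUnit (star b * b + (1 - R)) := by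
  obtain ⟨ε, hε, hsp⟩ := POL_.spec R b y hR hy
  rw [← spectrum.zero_notMem_iff ℝ]
  intro h0
  exact absurd (hsp 0 h0) (not_le.2 hε)

theorem rng {A : Type} [CStarAlgebra A] (R b y : A) (hR : IsStarProjection R)
    (hbR : b * R = b) (hy : y * b = R) : IsStarProjection (rp R b) ∧ rp R b * b = b := by
  have hRR : R * R = R := hR.isIdempotentElem
  have hRs : star R = R := hR.isSelfAdjoint
  have hu := isU R b y hR hy
  have hsb : R * star b = star b := by
    have := congrArg star hbR
    rwa [star_mul, hRs] at this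
  set h : A := star b * b + (1 - R) with hh
  have hhs : star h = h := by
    rw [hh, star_add, star_sub, star_one, hRs, star_mul, star_star]
  have hcom : R * h = h * R := by
    rw [hh, mul_add, add_mul, mul_sub, sub_mul, mul_one, one_mul, hRR, sub_self, ← mul_assoc, hsb,
      mul_assoc, hbR]
  set g : A := Ring.inverse h with hg
  have hgh : g * h = 1 := Ring.inverse_mul_cancel h hu
  have hhg : h * g = 1 := Ring.mul_inverse_cancel h hu
  have hgs : star g = g := by
    rw [hg, ← Ring.inverse_star, hhs]
  have hgR : g * R = R * g := by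
    calc g * R = g * R * (h * g) := by rw [hhg, mul_one]
      _ = g * (R * h) * g := by noncomm_ring
      _ = g * (h * R) * g := by rw [hcom]
      _ = (g * h) * (R * g) := by noncomm_ring
      _ = R * g := by rw [hgh, one_mul]
  have hkey : b * g * star b * b = b := by
    have e1 : star b * b = h - (1 - R) := by rw [hh]; abel
    calc b * g * star b * b = b * g * (star b * b) := by rw [mul_assoc]
      _ = b * (g * h) - (b * g - b * (g * R)) := by rw [e1]; noncomm_ring
      _ = b - (b * g - b * R * g) := by rw [hgh, mul_one, hgR, ← mul_assoc b R g]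
      _ = b := by rw [hbR, sub_self, sub_zero]
  refine ⟨⟨?_, ?_⟩, hkey⟩
  · show b * g * star b * (b * g * star b) = b * g * star b
    calc b * g * star b * (b * g * star b) = (b * g * star b * b) * g * star b := by noncomm_ring
      _ = b * g * star b := by rw [hkey]
  · show star (b * g * star b) = b * g * star b
    rw [star_mul, star_mul, star_star, hgs, mul_assoc]

/-- continuity of the range projection -/
theorem ctn {A : Type} [CStarAlgebra A] (R : A) (hR : IsStarProjection R) (b : ℝ → A)
    (hb : Continuous b) (hy : ∀ s ∈ Set.Icc (0 : ℝ) 1, ∃ y : A, y * b s = R) :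
    ContinuousOn (fun s => rp R (b s)) (Set.Icc 0 1) := by
  intro s hs
  obtain ⟨y, hy⟩ := hy s hs
  have hu := isU R (b s) y hR hy
  have h1 : ContinuousAt (fun s => star (b s) * b s + (1 - R)) s :=
    ((hb.star.mul hb).add continuous_const).continuousAt
  have h2 : ContinuousAt Ring.inverse (star (b s) * b s + (1 - R)) := by
    obtain ⟨U, hU⟩ := hu
    rw [← hU]
    exact NormedRing.inverse_continuousAt U
  have h3 : ContinuousAt (fun s => Ring.inverse (star (b s) * b s + (1 - R))) s :=
    ContinuousAt.comp (f := fun s => star (b s) * b s + (1 - R)) (g := Ring.inverse) h2 h1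
  exact ((hb.continuousAt.mul h3).mul hb.star.continuousAt).continuousWithinAt

theorem prj_norm {A : Type} [CStarAlgebra A] (f : A) (hf : IsStarProjection f) : ‖f‖ ≤ 1 := by
  have h1 : ‖f‖ = ‖f‖ * ‖f‖ := by
    have h2 := CStarRing.norm_star_mul_self (x := f)
    have h3 : star f = f := hf.isSelfAdjoint
    have h4 : f * f = f := hf.isIdempotentElem
    rw [h3, h4] at h2
    exact h2
  nlinarith [norm_nonneg f]

theorem prj_pos {A : Type} [CStarAlgebra A] (f : A) (hf : IsStarProjection f) : Pos f := by
  have h3 : star f = f := hf.isSelfAdjoint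
  have h4 : f * f = f := hf.isIdempotentElem
  exact ⟨f, by rw [h3, h4]⟩

theorem prj_cmp {A : Type} [CStarAlgebra A] (M p : A) (hM : IsStarProjection M)
    (hp : IsStarProjection p) (hMp : M * p = 0) : IsStarProjection (1 - M - p) ∧
      M * (1 - M - p) = 0 ∧ p * (1 - M - p) = 0 := by
  have hMM : M * M = M := hM.isIdempotentElem
  have hMs : star M = M := hM.isSelfAdjoint
  have hpp : p * p = p := hp.isIdempotentElem
  have hps : star p = p := hp.isSelfAdjoint
  have hpM : p * M = 0 := by
    have := congrArg star hMp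
    rwa [star_mul, hps, hMs, star_zero] at this
  refine ⟨⟨?_, ?_⟩, ?_, ?_⟩
  · show (1 - M - p) * (1 - M - p) = 1 - M - p
    simp only [mul_sub, sub_mul, mul_one, one_mul, hMM, hpp, hMp, hpM]
    abel
  · show star (1 - M - p) = 1 - M - p
    rw [star_sub, star_sub, star_one, hMs, hps]
  · simp only [mul_sub, mul_one, hMM, hMp]
    abel
  · simp only [mul_sub, mul_one, hpM, hpp]
    abel

end CAN_

open CAN_ in
/-- CAN: cancellation of a small projection. -/
theorem p_CAN (h_QCP : T_QCP) (h_RCM : T_RCM) (h_PTH : T_PTH) : T_CAN := by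
  intro A _ φ hφ M p v hM hp hv hMp hMv htr
  have hts := hφ.ts
  obtain ⟨hT1, -, -, hT4, -⟩ := p_TSB A φ hts
  obtain ⟨hp', hφp'⟩ := hT4 p v hp hv
  have hMM : M * M = M := hM.isIdempotentElem
  have hMs : star M = M := hM.isSelfAdjoint
  have hps : star p = p := hp.isSelfAdjoint
  have hvp : v * p = v := TSB_mulp p v hp hv
  have hp'v : v * star v * v = v := by rw [mul_assoc, hv, hvp]
  have hMp' : M * (v * star v) = 0 := by rw [← mul_assoc, hMv, zero_mul]
  obtain ⟨hf0, hMf0, hpf0⟩ := prj_cmp M p hM hp hMp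
  obtain ⟨hf1, hMf1, hpf1⟩ := prj_cmp M (v * star v) hM hp' hMp'
  set p' : A := v * star v with hp'def
  set f0 : A := 1 - M - p with hf0def
  set f1 : A := 1 - M - p' with hf1def
  have hφ0 : (φ f0).re = 1 - (φ M).re - (φ p).re := by
    rw [hf0def, map_sub, map_sub, hts.one]
    simp
  have hφ1 : (φ f1).re = 1 - (φ M).re - (φ p).re := by
    rw [hf1def, map_sub, map_sub, hts.one, hφp']
    simp
  have hM0 := (hT1 M hM).1
  have hp0 := (hT1 p hp).1
  obtain ⟨C, -, hC⟩ := h_QCP (((φ p).re + (1 - (φ M).re - (φ p).re)) / 2)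
    (1 - (φ M).re - (φ p).re) (by linarith) (by linarith) (by linarith)
  obtain ⟨R, hR, hR1, -, hR3⟩ := hC A φ hφ f0 f1 (prj_pos f0 hf0) (prj_pos f1 hf1)
    (prj_norm f0 hf0) (prj_norm f1 hf1) hφ0.ge hφ1.ge (φ p).re hp0 (by linarith)
  have hRR : R * R = R := hR.isIdempotentElem
  -- the path
  set b : ℝ → A := fun s => ((1 - s : ℝ) • f0 + s • f1) * R with hbdef
  have hbc : Continuous b := by
    rw [hbdef]
    fun_prop
  have hbR : ∀ s, b s * R = b s := fun s => by
    rw [hbdef]
    show ((1 - s : ℝ) • f0 + s • f1) * R * R = _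
    rw [mul_assoc, hRR]
  have hby : ∀ s ∈ Set.Icc (0 : ℝ) 1, ∃ y : A, y * b s = R := fun s hs => by
    obtain ⟨y, -, hy⟩ := hR3 s hs.1 hs.2
    exact ⟨y, hy⟩
  have hb0 : b 0 = f0 * R := by
    rw [hbdef]
    simp
  have hb1 : b 1 = f1 * R := by
    rw [hbdef]
    simp
  have hMb : ∀ s, M * b s = 0 := fun s => by
    rw [hbdef]
    show M * (((1 - s : ℝ) • f0 + s • f1) * R) = 0
    rw [← mul_assoc, mul_add, mul_smul_comm, mul_smul_comm, hMf0, hMf1]
    simp
  have hrs : ∀ s ∈ Set.Icc (0 : ℝ) 1, IsStarProjection (rp R (b s)) ∧ rp R (b s) * b s = b s :=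
    fun s hs => by
      obtain ⟨y, hy⟩ := hby s hs
      exact rng R (b s) y hR (hbR s) hy
  obtain ⟨u₁, hu₁, hu₁r, hu₁M, hMu₁⟩ := h_PTH A M (fun s => rp R (b s)) hM
    (ctn R hR b hbc hby) (fun s hs => ⟨(hrs s hs).1, by
      show M * rp R (b s) = 0
      rw [rp, ← mul_assoc, ← mul_assoc, hMb, zero_mul, zero_mul]⟩)
  change u₁ * rp R (b 0) = rp R (b 1) * u₁ at hu₁r
  have hr0 := (hrs 0 ⟨le_rfl, zero_le_one⟩).2
  have hr1 : p' * rp R (b 1) = 0 := by
    rw [rp, ← mul_assoc, ← mul_assoc, hb1, ← mul_assoc, hpf1, zero_mul, zero_mul, zero_mul]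
  -- the isometry
  obtain ⟨w, hw, hRw⟩ := h_RCM A φ hφ p R hp hR hR1
  obtain ⟨y0, -, hy0⟩ := hR3 0 le_rfl zero_le_one
  have hy0' : y0 * (f0 * R) = R := by
    simpa using hy0
  obtain ⟨x, -, hx⟩ := p_POL A ⊤ R f0 y0 isClosed_univ hR trivial trivial hy0'
  set a : A := f0 * R * x * w with hadef
  have haa : star a * a = p := by
    calc star a * a = star w * (star (f0 * R * x) * (f0 * R * x)) * w := by
          rw [hadef, star_mul]; noncomm_ring
      _ = star w * (R * w) := by rw [hx, mul_assoc]
      _ = p := by rw [hRw, hw]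
  have hpa : p * a = 0 := by
    rw [hadef, ← mul_assoc, ← mul_assoc, ← mul_assoc, hpf0, zero_mul, zero_mul, zero_mul]
  have hMa : M * a = 0 := by
    rw [hadef, ← mul_assoc, ← mul_assoc, ← mul_assoc, hMf0, zero_mul, zero_mul, zero_mul]
  have hra : rp R (b 0) * a = a := by
    rw [hadef, ← hb0, ← mul_assoc, ← mul_assoc, hr0]
  have hap : a * p = a := TSB_mulp p a hp haa
  obtain ⟨S₀, hS₀, hS₀p, hS₀M, hMS₀⟩ := swap p a M hp haa hpa hMs hMa hMp
  -- the second swap
  set d : A := u₁ * a with hddef
  have hdd : star d * d = p := by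
    calc star d * d = star a * (star u₁ * u₁) * a := by rw [hddef, star_mul]; noncomm_ring
      _ = p := by rw [hu₁.1, mul_one, haa]
  have hdp : d * p = d := TSB_mulp p d hp hdd
  have hpd : p * star d = star d := by
    have := congrArg star hdp
    rwa [star_mul, hps] at this
  have hMd : M * d = 0 := by rw [hddef, ← mul_assoc, hMu₁, hMa]
  have hr1d : rp R (b 1) * d = d := by
    rw [hddef, ← mul_assoc, ← hu₁r, mul_assoc, hra]
  have hp'd : p' * d = 0 := by
    rw [← hr1d, ← mul_assoc, hr1, zero_mul]
  have hp2 : IsStarProjection (d * star d) := (hT4 p d hp hdd).1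
  have hdp' : star d * p' = 0 := by
    have := congrArg star hp'd
    have hs : star p' = p' := hp'.isSelfAdjoint
    rwa [star_mul, hs, star_zero] at this
  have hdv : star d * v = 0 := by
    calc star d * v = star d * (p' * v) := by rw [hp'v]
      _ = 0 := by rw [← mul_assoc, hdp', zero_mul]
  have hbb : star (v * star d) * (v * star d) = d * star d := by
    calc star (v * star d) * (v * star d) = d * ((star v * v) * star d) := by
          rw [star_mul, star_star]; noncomm_ring
      _ = d * star d := by rw [hv, hpd]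
  obtain ⟨S₁, hS₁, hS₁p, hS₁M, hMS₁⟩ := swap (d * star d) (v * star d) M hp2 hbb
    (by rw [mul_assoc, ← mul_assoc (star d), hdv, zero_mul, mul_zero]) hMs
    (by rw [← mul_assoc, hMv, zero_mul]) (by rw [← mul_assoc, hMd, zero_mul])
  refine ⟨S₁ * u₁ * S₀, ⟨?_, ?_⟩, ?_, ?_, ?_⟩
  · calc star (S₁ * u₁ * S₀) * (S₁ * u₁ * S₀)
        = star S₀ * (star u₁ * (star S₁ * S₁) * u₁) * S₀ := by
          rw [star_mul, star_mul]; noncomm_ring
      _ = 1 := by rw [hS₁.1, mul_one, hu₁.1, mul_one, hS₀.1]
  · calc S₁ * u₁ * S₀ * star (S₁ * u₁ * S₀)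
        = S₁ * (u₁ * (S₀ * star S₀) * star u₁) * star S₁ := by
          rw [star_mul, star_mul]; noncomm_ring
      _ = 1 := by rw [hS₀.2, mul_one, hu₁.2, mul_one, hS₁.2]
  · calc S₁ * u₁ * S₀ * p = S₁ * (u₁ * a) := by rw [mul_assoc, hS₀p, mul_assoc]
      _ = S₁ * (d * (star d * d)) := by rw [hdd, hdp, hddef]
      _ = S₁ * (d * star d) * d := by noncomm_ring
      _ = v * (star d * d) := by rw [hS₁p, mul_assoc]
      _ = v := by rw [hdd, hvp]
  · rw [mul_assoc, hS₀M, mul_assoc, hu₁M, hS₁M]
  · rw [← mul_assoc, ← mul_assoc, hMS₁, hMu₁, hMS₀]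

end Pool.Agent.FPS
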