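import Pool.Agent.FPS.Defs

set_option autoImplicit false

/-!
# FPS targets 1: comparison and cancellation in rich algebras

Every target has its complete proof in the docstring.
-/

open scoped Classical
open MeasureTheory Pool.Agent.FPZ

noncomputable section

namespace Pool.Agent.FPS

/-- RIC. The algebras `FS` are rich (uses q_FRG, q_DIR, q_DEN of FPZ). PROOF. `GA κ univ = ⊤`, so by T_DIR there is `m` with all `s ∈ S` within `ε` of `GA ι κ {j | j < m}` (`Y`); `X = EA κ {j | m ≤ j}` is free from it (T_FRG), T_DEN gives `R`. (`{j | j < m}ᶜ = {j | m ≤ j}`.) -/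
def T_RIC : Prop := ∀ (Z A : Type) [TopologicalSpace Z] [CompactSpace Z] [MeasurableSpace Z] [CStarAlgebra A] (μ : Measure Z) (t : ℝ)
  (φ : A →L[ℂ] ℂ) (ι : C(Z, ℂ) →⋆ₐ[ℂ] A) (κ : ℕ → ℂ × ℂ →⋆ₐ[ℂ] A), FS μ t φ ι κ → Irrational t → Rich φ

/-- QCM. Quantitative comparison (uses q_SRD, q_STB, q_TSB). PROOF. W.l.o.g. `0 < lam` (enlarge `lam`). `g = (φ f)⁻¹ f`, `φ g = 1`, `φ (g g) ≤ 1 / φ f ≤ 1 / T₀` (`f f ≤ f`). `k = (1 - φ R)⁻¹ (R - φ R)`, `n2 k ^ 2 = φ R / (1 - φ R) ≤ lam / (1 - lam)`, `n2 (1 - g) ^ 2 ≤ (1 - T₀) / T₀`. The product is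
`≤ s ^ 4 < 1`, `s ^ 4 = lam (1 - T₀) / ((1 - lam) T₀)`. With `c = s / sqrt (lam / (1 - lam))` put `x = c k`, `y₀ = c⁻¹ (1 - g)` (if `s = 0` then `T₀ = 1`, `φ f = 1`, `f = 1`, take `y = 1`); `n2 x, n2 y₀ ≤ s`, `‖x‖, ‖y₀‖ ≤ M(lam, T₀)`. T_SRD: `∑ ‖(x y₀) ^ n‖ ≤ C(s, M)`, so `T = 1 - x y₀ = 1 - k (1 - g)` is
invertible with `‖T⁻¹‖ ≤ C(s, M)`. `R k = R` gives `R T = R g`, `R = R g T⁻¹`, so `star (T⁻¹) * g * R = R` and `y = (φ f)⁻¹ star (T⁻¹)`. (Compare the proof of T_COM in FPZ/P_COM.) -/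
def T_QCM : Prop := ∀ lam T₀ : ℝ, 0 ≤ lam → lam < T₀ → T₀ ≤ 1 → ∃ C : ℝ, 0 < C ∧
  ∀ (A : Type) [CStarAlgebra A] (φ : A →L[ℂ] ℂ) (X Y : StarSubalgebra ℂ A) (R f : A), TS φ →
  Free φ (fun b : Bool => bif b then (X : Set A) else (Y : Set A)) → IsStarProjection R → R ∈ X → f ∈ Y → Pos f → ‖f‖ ≤ 1 →
  (φ R).re ≤ lam → T₀ ≤ (φ f).re → ∃ y : A, ‖y‖ ≤ C ∧ y * (f * R) = R

/-- QCP. One projection for a segment of positive contractions (uses T_QCM). PROOF. `T₀' = (lam + T₀) / 2`, `C₁` from T_QCM for `lam, T₀'`; `f₀ = star g₀ * g₀`, `f₁ = star g₁ * g₁`. By richness (`S = {g₀, g₁}`, small `ε`, interval `(a, lam)`) there are `g₀', g₁' ∈ Y` near `g₀, g₁`, scaled to norm `≤ 1`, and `R ∈ X`.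
`f_i' = star g_i' * g_i'`, `f_s' = (1 - s) f₀' + s f₁' ∈ Y` is positive (`Pos`: square root by the functional calculus in the closed algebra `Y`, or in `A`), `‖f_s'‖ ≤ 1`, `φ f_s' ≥ T₀'`. T_QCM: `y' f_s' R = R`. `y' f_s R = R + Z R`, `Z = y' (f_s - f_s')`, `‖Z‖ ≤ C₁ ‖f_s - f_s'‖ ≤ 1/2`;
`y = (1 + Z)⁻¹ y'`: from `y' f_s R = (1 + Z) R`. `C = 2 C₁`. -/
def T_QCP : Prop := ∀ lam T₀ : ℝ, 0 ≤ lam → lam < T₀ → T₀ ≤ 1 → ∃ C : ℝ, 0 < C ∧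
  ∀ (A : Type) [CStarAlgebra A] (φ : A →L[ℂ] ℂ), Rich φ → ∀ f₀ f₁ : A, Pos f₀ → Pos f₁ → ‖f₀‖ ≤ 1 → ‖f₁‖ ≤ 1 →
  T₀ ≤ (φ f₀).re → T₀ ≤ (φ f₁).re → ∀ a : ℝ, 0 ≤ a → a < lam → ∃ R : A, IsStarProjection R ∧ a < (φ R).re ∧ (φ R).re < lam ∧
    ∀ s : ℝ, 0 ≤ s → s ≤ 1 → ∃ y : A, ‖y‖ ≤ C ∧ y * (((1 - s : ℝ) • f₀ + s • f₁) * R) = R

/-- RCM. Comparison of projections in a rich algebra (uses q_SQP, q_PRT, q_CLS, q_SUT). PROOF. As T_CMP in FPZ/P_CMP: richness with `S = {P, Q}`, small `ε` and interval `(φ P, φ Q)`; T_PRT, T_CLS in `Y`: `P', Q' ∈ Y` unitarily equivalent to `P, Q` (so `φ P' = φ P`); `Sub P P'`, `Sub P' R`, `Sub R Q'`, `Sub Q' Q` (T_SQP twice, `D = ⊤`). -/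
def T_RCM : Prop := ∀ (A : Type) [CStarAlgebra A] (φ : A →L[ℂ] ℂ), Rich φ → ∀ P Q : A, IsStarProjection P → IsStarProjection Q → (φ P).re < (φ Q).re → Sub P Q

/-- QCA. Comparison of a projection with a positive contraction (uses T_QCP, T_RCM). PROOF. T_QCP with `f₀ = f₁ = f`, `a = (φ P).re`: `R`, `y f R = R`. `R ≤ ‖y‖² R f² R` (`R = R f y* y f R`), `h = R f² R + (1 - R)` is invertible, `x₁ = R h ^ (-1/2)`, `‖x₁‖ ≤ max 1 ‖y‖`, `star (f x₁) (f x₁) = R` (proof of T_POL in FPZ/P_POL). T_RCM: `star w * w = P`, `R w = w`; `x = x₁ w`. -/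
def T_QCA : Prop := ∀ lam T₀ : ℝ, 0 ≤ lam → lam < T₀ → T₀ ≤ 1 → ∃ C : ℝ, 0 < C ∧
  ∀ (A : Type) [CStarAlgebra A] (φ : A →L[ℂ] ℂ), Rich φ → ∀ f P : A, Pos f → ‖f‖ ≤ 1 → T₀ ≤ (φ f).re → IsStarProjection P → (φ P).re < lam →
    ∃ x : A, ‖x‖ ≤ C ∧ star (f * x) * (f * x) = P

/-- RDV. Orthogonal copies (uses T_RCM, q_TSB). PROOF. Induction on `n` as T_DIV (FPZ/P_DIV): `(φ p).re < 1 - n (φ p).re`, so `Sub p (1 - ∑ u i star (u i))`. Here inside a projection `q`: all `u i` satisfy `q u i = u i`. -/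
def T_RDV : Prop := ∀ (A : Type) [CStarAlgebra A] (φ : A →L[ℂ] ℂ), Rich φ → ∀ (p q : A) (n : ℕ), IsStarProjection p → IsStarProjection q → n * (φ p).re < (φ q).re →
  ∃ u : Fin n → A, PI p u ∧ ∀ i, q * u i = u i

/-- PQN. Cutting `Q` away from `E`. PROOF. `T = Q (1 - E) Q` is a positive contraction, `Q T = T = T Q`, `T = Q - b b*` with `b = Q E`. `Pos (T ^ n)` and `‖T ^ n‖ ≤ 1`. `‖E T ^ n‖ ^ 2 = ‖T ^ n Q E Q T ^ n‖ = ‖T ^ (2 n) (Q - T)‖ ≤ sup_{0≤t≤1} t ^ (2 n) (1 - t) ≤ 1 / (2 n + 1)` (`T` commutes with `Q`; functional calculus).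
`Q - T ^ n = ∑_{j<n} T ^ j (Q - T) = ∑_{j<n} (1 - b b*) ^ j b b*`, by the trace property `φ (Q - T ^ n) = φ (∑_{j<n} (1 - b* b) ^ j b* b) = φ (1 - (1 - b* b) ^ n) ≤ φ E`, because `b* b = E Q E ≤ E` and `1 - (1 - c) ^ n = c ∑_{j<n} (1 - c) ^ j`, `c = E c E`, so `E - (1 - (1 - c) ^ n) = (E - c) ^ n` is positive. -/
def T_PQN : Prop := ∀ (A : Type) [CStarAlgebra A] (φ : A →L[ℂ] ℂ) (Q E : A) (n : ℕ), TS φ → IsStarProjection Q → IsStarProjection E → 1 ≤ n →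
  Pos ((Q * (1 - E) * Q) ^ n) ∧ ‖(Q * (1 - E) * Q) ^ n‖ ≤ 1 ∧ Q * (Q * (1 - E) * Q) ^ n = (Q * (1 - E) * Q) ^ n ∧ (Q * (1 - E) * Q) ^ n * Q = (Q * (1 - E) * Q) ^ n ∧
  ‖E * (Q * (1 - E) * Q) ^ n‖ ^ 2 ≤ 1 / (2 * n + 1) ∧ (φ Q).re - (φ E).re ≤ (φ ((Q * (1 - E) * Q) ^ n)).re

/-- CDP. (uses T_PQN, T_QCA, q_TSB.) PROOF. If `lam < 0` take `P = 0`. Otherwise `lam < lam₁ < lam₂ < T₀ = φ Q - φ E ≤ 1`; richness gives a projection `P₀` with trace in `(lam, lam₂)`; `C` from T_QCA for `lam₂, T₀`; `n` with `C / sqrt (2 n + 1) ≤ δ`, `f = (Q (1 - E) Q) ^ n`, `v = f x`, `star v * v = P₀`, `P = v star v`, `Q P = P`, `φ P = φ P₀`,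
`‖E P‖ ≤ ‖E f‖ ‖x‖ ‖v‖ ≤ δ`. -/
def T_CDP : Prop := ∀ (A : Type) [CStarAlgebra A] (φ : A →L[ℂ] ℂ), Rich φ → ∀ (Q E : A) (lam δ : ℝ), IsStarProjection Q → IsStarProjection E →
  lam < (φ Q).re - (φ E).re → 0 < δ → ∃ P : A, IsStarProjection P ∧ Q * P = P ∧ lam < (φ P).re ∧ ‖E * P‖ ≤ δ

/-- PTH. A continuous path of projections. PROOF. Uniform continuity: `0 = s_0 < .. < s_N = 1` with `‖r (s_i) - r (s_(i+1))‖ < 1`. For projections `P, Q` at distance `< 1`, both orthogonal to `M`: `z = Q P + (1 - Q) (1 - P)` is invertible (`z - 1 = (2 Q - 1) (P - Q)`), `z P = Q z`, `z M = M = M z`, `star z * z` commutes with `P` and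
fixes `M`; `u = z (star z z) ^ (-1/2)` is unitary, `u P = Q u`, `u M = M = M u`. Product of these. -/
def T_PTH : Prop := ∀ (A : Type) [CStarAlgebra A] (M : A) (r : ℝ → A), IsStarProjection M → ContinuousOn r (Set.Icc 0 1) → (∀ s ∈ Set.Icc (0 : ℝ) 1, IsStarProjection (r s) ∧ M * r s = 0) →
  ∃ u : A, Uni u ∧ u * r 0 = r 1 * u ∧ u * M = M ∧ M * u = M

/-- CAN. Cancellation of a small projection (uses T_QCP, T_RCM, T_PTH, q_TSB). `p' = v star v`. PROOF. `f₀ = 1 - M - p`, `f₁ = 1 - M - p'` are projections of trace `T₀ = 1 - φ M - φ p > φ p`; `φ p < lam < T₀`; T_QCP with `a = φ p`: `R`. `f_s = (1-s) f₀ + s f₁`, `M f_s = 0`, `h_s = R f_s² R + (1 - R) ≥ min 1 C⁻²`,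
`V_s = f_s R h_s ^ (-1/2)`, `star V_s * V_s = R`, norm continuous in `s` (`f_s` is affine in `s`, inverse square root is continuous on the positive elements `≥ c > 0`), `r_s = V_s star V_s` projections, `M r_s = 0`, `p r_0 = 0`, `p' r_1 = 0`. T_PTH: `u₁`. T_RCM: `star w * w = p`, `R w = w`; `a₀ = V_0 w`: `star a₀ * a₀ = p`,
`p a₀ = 0`, `M a₀ = 0`, `r_0 a₀ = a₀`. `S₀ = a₀ + star a₀ + 1 - p - a₀ star a₀` (selfadjoint unitary). `b = v star a₀ star u₁`, `p₂ = star b * b = u₁ a₀ star a₀ star u₁ ≤ r_1`, `b star b = p'`, `p' p₂ = 0`; `S₁ = b + star b + 1 - p₂ - p'`. `u = S₁ u₁ S₀`: `u p = S₁ u₁ a₀ = b u₁ a₀ = v`. All factors fix `M`. -/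
def T_CAN : Prop := ∀ (A : Type) [CStarAlgebra A] (φ : A →L[ℂ] ℂ), Rich φ → ∀ M p v : A, IsStarProjection M → IsStarProjection p → star v * v = p →
  M * p = 0 → M * v = 0 → (φ M).re + 2 * (φ p).re < 1 → ∃ u : A, Uni u ∧ u * p = v ∧ u * M = M ∧ M * u = M

/-- SPT. Splitting in small pieces (uses T_RCM, q_TSB). PROOF. Take a projection `R` with `0 < φ R < c` (richness). As long as the rest `P - ∑ P i` has trace `> φ R`, T_RCM gives a subprojection of the rest with trace `φ R`; finally the rest has trace `≤ φ R < c`. -/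
def T_SPT : Prop := ∀ (A : Type) [CStarAlgebra A] (φ : A →L[ℂ] ℂ), Rich φ → ∀ (P : A) (c : ℝ), IsStarProjection P → 0 < c →
  ∃ (n : ℕ) (Pi : Fin n → A), (∀ i, IsStarProjection (Pi i) ∧ (φ (Pi i)).re < c) ∧ (∀ i j, i ≠ j → Pi i * Pi j = 0) ∧ ∑ i, Pi i = P

/-- CNC. Cancellation (uses T_CAN, T_SPT, q_TSB). PROOF. If `φ P = 1` then `P = 1`, `w star w` is a projection of trace `1`, so `1`. Otherwise T_SPT with `c = (1 - φ P) / 2`: `P i`, `v i = w P i`. By induction there is a unitary `u` with `u P i = v i` for `i < k`: `M = ∑_{i<k} v i star (v i)`, `p = u P_k star u`, `v = v_k star u` (`star v * v = p`, `M v = 0`,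
`M p = u (∑_{i<k} P i) P_k star u = 0`, `φ M + 2 φ p ≤ φ P + φ P_k < 1`); T_CAN: `u'`; `u' u` works for `k + 1`. -/
def T_CNC : Prop := ∀ (A : Type) [CStarAlgebra A] (φ : A →L[ℂ] ℂ), Rich φ → ∀ P w : A, IsStarProjection P → star w * w = P → ∃ u : A, Uni u ∧ u * P = w

/-- SLT. Slots below a positive contraction (uses T_QCA, T_RDV). PROOF. T_RDV with `q = 1` (`n (φ p).re < φ G ≤ 1`): `u`, `P = ∑ u i star (u i)` of trace `n (φ p).re`. T_QCA: `x`, `star (G x) (G x) = P`. `v i = G x u i`. -/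
def T_SLT : Prop := ∀ (A : Type) [CStarAlgebra A] (φ : A →L[ℂ] ℂ), Rich φ → ∀ (G p : A) (n : ℕ), Pos G → ‖G‖ ≤ 1 → IsStarProjection p → n * (φ p).re < (φ G).re →
  ∃ (v x : Fin n → A), PI p v ∧ ∀ i, v i = G * x i

end Pool.Agent.FPS
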