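import Pool.Agent.FPS.Defs

set_option autoImplicit false

/-!
# FPS targets 2: almost homomorphisms, chains, comparison of decompositions, uniqueness

Every target has its complete proof in the docstring.
-/

open scoped Classical
open MeasureTheory Pool.Agent.FPZ

noncomputable section

namespace Pool.Agent.FPS

/-! ## Positive maps -/

/-- PSM. Sums and limits of positive elements; positive elements and norms. PROOF. `Pos a ↔ 0 ≤ a` for `CStarAlgebra.spectralOrder`. -/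
def T_PSM : Prop := ∀ (A : Type) [CStarAlgebra A], (∀ a b : A, Pos a → Pos b → Pos (a + b)) ∧ (∀ (a : A) (t : ℝ), 0 ≤ t → Pos a → Pos (t • a)) ∧
  (∀ (a x : A), Pos a → Pos (star x * a * x)) ∧ IsClosed {a : A | Pos a} ∧ (∀ a b : A, Pos a → Pos b → ‖a‖ ≤ ‖a + b‖) ∧ (∀ a : A, Pos a → ‖a‖ ≤ 1 → Pos (1 - a)) ∧ (∀ a : A, Pos a → Pos (1 - a) → ‖a‖ ≤ 1)

/-- CPM. Complete positivity of positive maps of `C(K)` (uses T_PSM). PROOF. `M` is uniformly approximated (entries) by `∑ l, h_l M(x_l)` with a partition of unity `h_l` (`K` compact: cover by open sets on which `M` varies little). `T_l = L h_l = t_l²` positive with sum `1`. `L` is bounded (for real `f`: `-‖f‖ ≤ L f ≤ ‖f‖`), so the element is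
the limit of `X = ∑ l, R_l M(x_l) R_l*`, `R_l` the row `(τ_a t_l)_a`. Norm: Cauchy-Schwarz in the Hilbert module `A^N` (`CStarModule.norm_inner_le`): `‖∑ R_l (M_l R_l*)‖² ≤ ‖∑ R_l R_l*‖ ‖∑ R_l M_l* M_l R_l*‖ ≤ B² ‖∑ R_l R_l*‖²`, `∑ R_l R_l* = ∑ τ_a τ_a* ` has norm `≤ 1`, and `B² - M_l* M_l` is of the form `N* N`.
Positivity: `M_l = N* N` gives `R_l M_l R_l* = ∑_c (..)(..)*`. Here `τ` is a family with `∑ τ_a τ_a*` of norm `≤ 1`. -/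
def T_CPM : Prop := ∀ (K n A : Type) [TopologicalSpace K] [CompactSpace K] [T2Space K] [Fintype n] [CStarAlgebra A] (L : C(K, ℂ) → A) (τ : n → A) (M : C(K, Matrix n n ℂ)), AH ∅ 0 L →
  ‖∑ a, τ a * star (τ a)‖ ≤ 1 →
  (∀ B : ℝ, 0 ≤ B → (∀ x, opn (M x) ≤ B) → ‖∑ a, ∑ b, τ a * L (ent M a b) * star (τ b)‖ ≤ B) ∧
  ((∀ x, ∃ N : Matrix n n ℂ, M x = N.conjTranspose * N) → Pos (∑ a, ∑ b, τ a * L (ent M a b) * star (τ b)))

/-- AHN. Almost homomorphisms are contractive (uses T_CPM with `n = Unit`, `τ = 1`). -/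
def T_AHN : Prop := ∀ (K A : Type) [TopologicalSpace K] [CompactSpace K] [T2Space K] [CStarAlgebra A] (H : Finset C(K, ℂ)) (δ : ℝ) (L : C(K, ℂ) → A), AH H δ L → ∀ f, ‖L f‖ ≤ ‖f‖

/-- CAH. Compressions (uses T_PSM). PROOF. `Λ = cmp k₀ E L`: `Λ (f g) - Λ f * Λ g = E (L (f g) - L f E L g) E = E (L (f g) - L f L g) E + E L f (1 - E) L g E`, and `(1 - E) L g E = (1 - E) (L g E - E L g)`. Positivity: `E L (star f * f) E = star (b E) (b E)` if `L (star f * f) = star b * b`, plus `‖f k₀‖² (1 - E)`. -/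
def T_CAH : Prop := ∀ (K A : Type) [TopologicalSpace K] [CompactSpace K] [T2Space K] [CStarAlgebra A] (k₀ : K) (E : A) (H : Finset C(K, ℂ)) (δ δ' B : ℝ) (L : C(K, ℂ) → A), IsStarProjection E → AH H δ L →
  (∀ f ∈ H, ‖L f‖ ≤ B ∧ ‖L f * E - E * L f‖ ≤ δ') → 0 ≤ B → AH H (δ + B * δ') (cmp k₀ E L) ∧ Spt k₀ E (cmp k₀ E L)

/-- AMP. Amplification (uses T_CPM, T_PSM). PROOF. `Λ = cmp k₀' E L`; `τ a = τ a E`, so `τ a L g star (τ b) = τ a Λ g star (τ b)`. `Q = ∑ τ a star (τ a)` is a projection. `amp (f g) - amp f * amp g = ∑ τ a (Λ (γ(f g) - γ(f) γ(g))_ab) star (τ b) + ∑ τ a (∑_c (Λ (u_ac v_cb) - Λ u_ac Λ v_cb)) star (τ b)`, `u = γ f`, `v = γ g`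
(`star (τ a) τ a' = 0` or `E`, `E Λ = Λ E`). First sum: T_CPM with `B = δ`; second sum: at most `card ^ 3` terms of norm `≤ δ₂`. Positivity: T_CPM for `M = γ (star f * f)`, plus `‖f k₀‖² (1 - Q)`. -/
def T_AMP : Prop := ∀ (K K' n A : Type) [TopologicalSpace K] [CompactSpace K] [T2Space K] [TopologicalSpace K'] [CompactSpace K'] [T2Space K'] [Fintype n] [CStarAlgebra A] (k₀ : K) (k₀' : K') (E : A) (τ : n → A)
  (H : Finset C(K, ℂ)) (G : Finset C(K', ℂ)) (δ δ₂ : ℝ) (L : C(K', ℂ) → A) (γ : C(K, ℂ) → C(K', Matrix n n ℂ)), IsStarProjection E → PI E τ → AH G δ₂ (cmp k₀' E L) → AHM H δ γ → 0 ≤ δ → 0 ≤ δ₂ →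
  (∀ f ∈ H, ∀ a b, ent (γ f) a b ∈ G) →
  AH H (δ + (Fintype.card n : ℝ) ^ 3 * δ₂) (amp k₀ τ L γ) ∧ Spt k₀ (∑ a, τ a * star (τ a)) (amp k₀ τ L γ) ∧ IsStarProjection (∑ a, τ a * star (τ a))

/-- AMC. Amplifications of close maps (uses T_CPM). PROOF. The difference is `∑ τ a Λ ((γ f - γ' f)_ab) star (τ b)`, `Λ = cmp k₀' E L` (linear). -/
def T_AMC : Prop := ∀ (K K' n A : Type) [TopologicalSpace K] [CompactSpace K] [T2Space K] [TopologicalSpace K'] [CompactSpace K'] [T2Space K'] [Fintype n] [CStarAlgebra A] (k₀ : K) (k₀' : K') (E : A) (τ : n → A)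
  (G : Finset C(K', ℂ)) (δ₂ B : ℝ) (L : C(K', ℂ) → A) (γ γ' : C(K, ℂ) → C(K', Matrix n n ℂ)) (f : C(K, ℂ)), IsStarProjection E → PI E τ → AH G δ₂ (cmp k₀' E L) → 0 ≤ B →
  (∀ x, opn (γ f x - γ' f x) ≤ B) → ‖amp k₀ τ L γ f - amp k₀ τ L γ' f‖ ≤ B

/-! ## Chains -/

/-- PTC. Chains of points. PROOF. `K` is connected and compact: for `r > 0` (modulus of `F` for `ε`) there is `m` such that every `x` is joined with `k₀` by `m` steps of length `< r` (the set of points reachable in finitely many steps is open and closed; compactness; constant steps allowed). -/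
def T_PTC : Prop := ∀ (K : Type) [MetricSpace K] [CompactSpace K] [ConnectedSpace K] (k₀ : K) (F : Finset C(K, ℂ)) (ε : ℝ), 0 < ε →
  ∃ m : ℕ, ∀ x : K, ∃ w : ℕ → K, w 0 = k₀ ∧ w m = x ∧ ∀ l < m, ∀ f ∈ F, ‖f (w l) - f (w (l + 1))‖ ≤ ε

/-- REV. Chains can be reversed and extended. PROOF. `Γ (m - i)`; `Γ (min i m)`. -/
def T_REV : Prop := ∀ (K A : Type) [TopologicalSpace K] [CompactSpace K] [CStarAlgebra A] (φ : A →L[ℂ] ℂ) (k₀ : K) (H : Finset C(K, ℂ)) (δ : ℝ) (F : Finset C(K, ℂ)) (ε c : ℝ) (m : ℕ) (E : A) (L : C(K, ℂ) → A) (E' : A) (L' : C(K, ℂ) → A),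
  0 ≤ ε → Chn φ k₀ H δ F ε c m E L E' L' → Chn φ k₀ H δ F ε c m E' L' E L ∧ ∀ (c' : ℝ) (m' : ℕ), c ≤ c' → m ≤ m' → Chn φ k₀ H δ F ε c' m' E L E' L'

/-- TRN. Chains can be joined (uses T_RCM, T_CNC, q_TSB). PROOF. `(C₁, Γ¹, a₁, b₁)`, `(C₂, Γ², a₂, b₂)`. `D₁ = star b₁ C₁ b₁`, `D₂ = star a₂ C₂ a₂` are projections above `E'`. `φ (D₂ - E') < c₂ ≤ 1 - c₁ < φ (1 - D₁)`, T_RCM: `star x * x = D₂ - E'`, `(1 - D₁) x = x`. `X = E' + x`, `star X * X = D₂`, `X star X = E' + x star x`. T_CNC: `g` unitary, `g D₂ = X`;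
so `g E' = E'` and `g L' f star g = L' f` (`L'` is supported in `E'`). `C = D₁ + x star x`. Chain: `star b₁ Γ¹ i b₁` for `i ≤ m₁`, then `g star a₂ Γ² i a₂ star g`. `Spt` passes to larger projections. `a = star b₁ a₁`, `b = g star a₂ b₂`. Conjugation with a unitary keeps `AH` (positivity, linear structure). -/
def T_TRN : Prop := ∀ (K A : Type) [TopologicalSpace K] [CompactSpace K] [CStarAlgebra A] (φ : A →L[ℂ] ℂ) (k₀ : K) (H : Finset C(K, ℂ)) (δ : ℝ) (F : Finset C(K, ℂ)) (ε c₁ c₂ : ℝ) (m₁ m₂ : ℕ) (E E' E'' : A) (L L' L'' : C(K, ℂ) → A), Rich φ →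
  IsStarProjection E' → Spt k₀ E' L' → c₁ + c₂ ≤ 1 → Chn φ k₀ H δ F ε c₁ m₁ E L E' L' → Chn φ k₀ H δ F ε c₂ m₂ E' L' E'' L'' → Chn φ k₀ H δ F ε (c₁ + c₂) (m₁ + m₂) E L E'' L''

/-- CDR. Comparison of two decompositions (uses T_CDP, q_PLE, q_TSB). `E = 1 - ∑ Q k`, `E' = 1 - ∑ q' j`. PROOF. Choose `δ' > 0` with `φ E + K₀ (φ E' + δ') < c`. T_CDP: `P k ≤ Q k`, `φ (P k) > φ (Q k) - φ E' - δ'`, `‖E' P k‖ ≤ δ`. `P k ≈ L (g k) P k ≈ E' L (g k) E' P k + ∑ j, g k (z' j) q' j P k`, so `‖P k - q'_(k) P k‖ ≤ 3 δ`, `q'_(k) = ∑_{j : g k (z' j) ≠ 0} q' j`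
(multiply by `1 - q'_(k)`); the `q'_(k)` are orthogonal. T_PLE for `c = q'_(k) P k`, `e = P k`: `V k`, `star V_k V_k = P k`, `q'_(k) V k = V k`, `‖V k - P k‖ ≤ C δ`. `V = ∑ V k`, `P = ∑ P k`, `z₀ = V + (1 - V star V) (1 - P)` is close to `1`, `star z₀ z₀` commutes with `P`, `z₀ P = V`; `y = z₀ (star z₀ z₀) ^ (-1/2)`, `y P k = V k`, `‖y - 1‖ ≤ C K₀ δ`.
`Rel` with `a k = Q k - P k` at `z k` and the projections `q'_(k) - V k star V_k` at `z k` (`k < K₀`), and `q' j` at `z' j` if `g k (z' j) = 0` for all `k`, else `0` (`j < J`). `y (E + ∑ a k) = y (1 - P) = (1 - V star V) y`. Both sides of the estimate are close to `L f - ∑ f (z k) V k star V_k`: left side: error `δ₁ + 2 B ‖y - 1‖`;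
right side: `δ + ‖∑_k ∑_{j : (k)} (f (z k) - f (z' j)) q' j‖ ≤ δ + ε₁`. -/
def T_CDR : Prop := ∀ (K₀ : ℕ) (B ε₃ : ℝ), 0 < B → 0 < ε₃ → ∃ δ : ℝ, 0 < δ ∧ ∀ (K A : Type) [TopologicalSpace K] [CStarAlgebra A] (φ : A →L[ℂ] ℂ), Rich φ →
  ∀ (L : C(K, ℂ) → A) (G : Finset C(K, ℂ)) (z : Fin K₀ → K) (g : Fin K₀ → C(K, ℂ)) (Q : Fin K₀ → A) (J : ℕ) (q' : Fin J → A) (z' : Fin J → K) (ε₁ δ₁ c : ℝ), 0 ≤ ε₁ → 0 ≤ δ₁ →
  (∀ k, IsStarProjection (Q k)) → (∀ k l, k ≠ l → Q k * Q l = 0) → (∀ j, IsStarProjection (q' j)) → (∀ i j, i ≠ j → q' i * q' j = 0) →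
  (∀ k, ‖L (g k)‖ ≤ 1 ∧ ‖L (g k) * Q k - Q k‖ ≤ δ) → (∀ f ∈ G, ‖L f‖ ≤ B ∧ ∀ x, ‖f x‖ ≤ B) →
  (∀ f ∈ G, ‖L f - ((1 - ∑ j, q' j) * L f * (1 - ∑ j, q' j) + ∑ j, f (z' j) • q' j)‖ ≤ δ) →
  (∀ k, ‖L (g k) - ((1 - ∑ j, q' j) * L (g k) * (1 - ∑ j, q' j) + ∑ j, g k (z' j) • q' j)‖ ≤ δ) →
  (∀ k l x, k ≠ l → g k x ≠ 0 → g l x = 0) → (∀ f ∈ G, ∀ k x, g k x ≠ 0 → ‖f x - f (z k)‖ ≤ ε₁) →
  (∀ f ∈ G, ‖L f - ((1 - ∑ k, Q k) * L f * (1 - ∑ k, Q k) + ∑ k, f (z k) • Q k)‖ ≤ δ₁) →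
  (φ (1 - ∑ k, Q k)).re + K₀ * (φ (1 - ∑ j, q' j)).re < c → Rel φ G (ε₁ + δ₁ + ε₃) c (1 - ∑ k, Q k) L (1 - ∑ j, q' j) L

/-- GRL. From a relation on `K'` to a chain on `K` (uses T_AMP, T_CPM, T_RDV, T_CNC, T_PSM, q_TSB). PROOF. Take `a, x, b, x', y` from `Rel`. `C' = y (E + ∑ a i) star y = E' + ∑ b j`. `card n * φ C' < 1`: T_RDV gives `t : n → A`, `PI C' t` (numbering of `n`). For `l ≤ m₁`: `Λ_l g = y E L g E star y + ∑ g (w_i l) y a i star y + g k₀' (1 - C')`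
(`w_i` the chain of points from `k₀'` to `x i`), `Λ'_l g = E' L' g E' + ∑ g (w'_j l) b j + g k₀' (1 - C')`; these are `AH G δ₂` and supported in `C'` (block diagonal with characters). `Γ l = amp k₀ t Λ_l γ` (`l ≤ m₁`), `Γ (m₁ + 1 + l) = amp k₀ t Λ'_(m₁ - l) γ`; T_AMP. Steps: `Γ l - Γ (l+1) = ∑_i ∑_ab (γ f (w_i l) - γ f (w_i (l+1)))_ab t a (y a_i star y) star (t b)`,
norm `≤ max_i opn (..) ≤ ε` (T_CPM for characters, orthogonal blocks, or `star X X` computation); the middle step: `card² ε₂ ≤ ε`. `Γ 0`: since `γ f k₀' = f k₀ • 1`, `Γ 0 f = a (amp k₀ τ L γ f) star a` where `a` is a unitary with `a (∑ τ a star (τ a)) = ∑_b t b y star (τ b)` (T_CNC). Same for `Γ (2 m₁ + 1)`. Projection of the chain: `∑ t a star (t a)`, trace `card φ C' < card c`. -/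
def T_GRL : Prop := ∀ (K K' n A : Type) [TopologicalSpace K] [CompactSpace K] [T2Space K] [TopologicalSpace K'] [CompactSpace K'] [T2Space K'] [Fintype n] [Nonempty n] [CStarAlgebra A] (φ : A →L[ℂ] ℂ) (k₀ : K) (k₀' : K')
  (H F : Finset C(K, ℂ)) (G : Finset C(K', ℂ)) (δ δγ δ₂ ε ε₂ c : ℝ) (m₁ : ℕ) (E E' : A) (L L' : C(K', ℂ) → A) (γ : C(K, ℂ) → C(K', Matrix n n ℂ)) (τ τ' : n → A), Rich φ → IsStarProjection E → IsStarProjection E' →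
  0 ≤ δγ → 0 ≤ δ₂ → 0 ≤ ε₂ → Rel φ G ε₂ c E L E' L' → AH G δ₂ (cmp k₀' E L) → AH G δ₂ (cmp k₀' E' L') → (∀ f ∈ H, ∀ a b, ent (γ f) a b ∈ G) → (∀ f ∈ F, ∀ a b, ent (γ f) a b ∈ G) → AHM H δγ γ →
  (∀ f, γ f k₀' = f k₀ • (1 : Matrix n n ℂ)) → (∀ x : K', ∃ w : ℕ → K', w 0 = k₀' ∧ w m₁ = x ∧ ∀ l < m₁, ∀ f ∈ F, opn (γ f (w l) - γ f (w (l + 1))) ≤ ε) →
  (Fintype.card n : ℝ) ^ 2 * ε₂ ≤ ε → Fintype.card n * c ≤ 1 → δγ + (Fintype.card n : ℝ) ^ 3 * δ₂ ≤ δ → PI E τ → PI E' τ' →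
  Chn φ k₀ H δ F ε (Fintype.card n * c) (2 * m₁ + 1) (∑ a, τ a * star (τ a)) (amp k₀ τ L γ) (∑ a, τ' a * star (τ' a)) (amp k₀ τ' L' γ)

/-- RLC. The case `K = K'`, `γ f = f` (uses T_GRL with `n = Unit`, or directly). PROOF. T_GRL with `n = Unit`, `γ f x = f x • 1`, `τ = E`, `τ' = E'` (`amp` = `cmp`; `opn` of a one by one matrix is the absolute value). -/
def T_RLC : Prop := ∀ (K A : Type) [TopologicalSpace K] [CompactSpace K] [T2Space K] [CStarAlgebra A] (φ : A →L[ℂ] ℂ) (k₀ : K) (H F G : Finset C(K, ℂ)) (δ ε c : ℝ) (m₁ : ℕ) (E E' : A) (L L' : C(K, ℂ) → A), Rich φ → IsStarProjection E → IsStarProjection E' →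
  0 ≤ δ → 0 ≤ ε → Rel φ G ε c E L E' L' → AH G δ (cmp k₀ E L) → AH G δ (cmp k₀ E' L') → H ⊆ G → F ⊆ G → (∀ x : K, ∃ w : ℕ → K, w 0 = k₀ ∧ w m₁ = x ∧ ∀ l < m₁, ∀ f ∈ F, ‖f (w l) - f (w (l + 1))‖ ≤ ε) → c ≤ 1 →
  Chn φ k₀ H δ F ε c (2 * m₁ + 1) E (cmp k₀ E L) E' (cmp k₀ E' L')

end Pool.Agent.FPS
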