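import Pool.Agent.FPS.Inst
import Pool.Agent.FPS.Targets5
import Pool.Agent.FPS.Targets2
import Pool.Agent.FPS.Targets1

set_option autoImplicit false

/-!
# FPS, target CDA: Fact D, the stage between `E₁` and `e'`
-/

open scoped Classical
open MeasureTheory Pool.Agent.FPZ

noncomputable section

namespace Pool.Agent.FPS

namespace CDA_

theorem bound {X : Type} [TopologicalSpace X] [CompactSpace X] (G : Finset C(X, ℂ)) :
    ∃ B : ℝ, 1 ≤ B ∧ ∀ g ∈ G, ‖g‖ ≤ B := by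
  refine ⟨1 + ∑ g ∈ G, ‖g‖, ?_, fun g hg => ?_⟩
  · linarith [Finset.sum_nonneg fun (g : C(X, ℂ)) (_ : g ∈ G) => norm_nonneg g]
  · linarith [Finset.single_le_sum (fun (g : C(X, ℂ)) (_ : g ∈ G) => norm_nonneg g) hg]

theorem ah_mono {K A : Type} [TopologicalSpace K] [CompactSpace K] [CStarAlgebra A]
    {H : Finset C(K, ℂ)} {δ δ' : ℝ} {L : C(K, ℂ) → A} (h : AH H δ L) (hd : δ ≤ δ') : AH H δ' L where
  add := h.add
  smul := h.smul
  one := h.one
  str := h.str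
  pos := h.pos
  mul := fun f hf g hg => (h.mul f hf g hg).trans hd

/-- a star homomorphism is an almost homomorphism -/
theorem ah_hom {K A : Type} [TopologicalSpace K] [CompactSpace K] [CStarAlgebra A]
    (H : Finset C(K, ℂ)) (L : C(K, ℂ) →⋆ₐ[ℂ] A) : AH H 0 (fun f => L f) where
  add := fun f g => map_add L f g
  smul := fun c f => map_smul L c f
  one := map_one L
  str := fun f => map_star L f
  pos := fun f => ⟨L f, by rw [map_mul, map_star]⟩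
  mul := fun f _ g _ => by rw [map_mul, sub_self, norm_zero]

theorem norm_pr {A : Type} [CStarAlgebra A] {P : A} (hP : IsStarProjection P) : ‖P‖ ≤ 1 := by
  have h1 : ‖star P * P‖ = ‖P‖ * ‖P‖ := CStarRing.norm_star_mul_self
  rw [hP.isSelfAdjoint.star_eq, hP.isIdempotentElem.eq] at h1
  by_contra h
  push Not at h
  nlinarith

theorem comm_le {A : Type} [CStarAlgebra A] (E a D : A) (η : ℝ) (hE : ‖E‖ ≤ 1) (hD : D * E = E * D)
    (h : ‖a - D‖ ≤ η) : ‖a * E - E * a‖ ≤ 2 * η := by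
  have e : a * E - E * a = (a - D) * E - E * (a - D) := by
    rw [sub_mul, mul_sub, hD]
    abel
  rw [e]
  have h1 : ‖(a - D) * E‖ ≤ η * 1 :=
    (norm_mul_le _ _).trans (mul_le_mul h hE (norm_nonneg _) ((norm_nonneg _).trans h))
  have h2 : ‖E * (a - D)‖ ≤ 1 * η :=
    (norm_mul_le _ _).trans (mul_le_mul hE h (norm_nonneg _) zero_le_one)
  linarith [norm_sub_le ((a - D) * E) (E * (a - D))]

theorem compl {A : Type} [CStarAlgebra A] {J : ℕ} (q : Fin J → A) (hq : ∀ j, IsStarProjection (q j))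
    (ho : ∀ i j, i ≠ j → q i * q j = 0) :
    IsStarProjection (1 - ∑ j, q j) ∧ (∀ j, q j * (1 - ∑ i, q i) = 0) ∧
      ∀ j, (1 - ∑ i, q i) * q j = 0 := by
  have h1 : ∀ j, q j * ∑ i, q i = q j := by
    intro j
    rw [Finset.mul_sum, Finset.sum_eq_single j]
    · exact (hq j).isIdempotentElem.eq
    · intro i _ hi
      exact ho j i (Ne.symm hi)
    · intro h
      exact absurd (Finset.mem_univ _) h
  have h2 : ∀ j, (∑ i, q i) * q j = q j := by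
    intro j
    rw [Finset.sum_mul, Finset.sum_eq_single j]
    · exact (hq j).isIdempotentElem.eq
    · intro i _ hi
      exact ho i j hi
    · intro h
      exact absurd (Finset.mem_univ _) h
  have hs : star (∑ k, q k) = ∑ k, q k := by
    rw [star_sum]
    exact Finset.sum_congr rfl fun k _ => (hq k).isSelfAdjoint.star_eq
  have hQQ : (∑ k, q k) * (∑ k, q k) = ∑ k, q k := by
    rw [Finset.sum_mul]
    exact Finset.sum_congr rfl fun k _ => h1 k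
  refine ⟨IsStarProjection.one_sub ⟨hQQ, hs⟩, fun j => ?_, fun j => ?_⟩
  · rw [mul_sub, mul_one, h1 j, sub_self]
  · rw [sub_mul, one_mul, h2 j, sub_self]

/-- the commutator with the corner of a decomposition -/
theorem dec_comm {K A : Type} [TopologicalSpace K] [CStarAlgebra A] {G : Finset C(K, ℂ)} {δ : ℝ}
    {L : C(K, ℂ) → A} {J : ℕ} {q : Fin J → A} {z : Fin J → K} (h : Dec G δ L q z) (f : C(K, ℂ))
    (hf : f ∈ G) : ‖L f * (1 - ∑ j, q j) - (1 - ∑ j, q j) * L f‖ ≤ 2 * δ := by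
  obtain ⟨h1, h2, h3⟩ := compl q h.1 h.2.1
  refine comm_le _ _ _ _ (norm_pr h1) ?_ (h.2.2 f hf)
  have e1 : (∑ j, f (z j) • q j) * (1 - ∑ j, q j) = 0 := by
    rw [Finset.sum_mul]
    refine Finset.sum_eq_zero fun j _ => ?_
    rw [smul_mul_assoc, h2 j, smul_zero]
  have e2 : (1 - ∑ j, q j) * (∑ j, f (z j) • q j) = 0 := by
    rw [Finset.mul_sum]
    refine Finset.sum_eq_zero fun j _ => ?_
    rw [mul_smul_comm, h3 j, smul_zero]
  rw [add_mul, mul_add, e1, e2, add_zero, add_zero]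
  have h4 := h1.isIdempotentElem.eq
  calc (1 - ∑ j, q j) * L f * (1 - ∑ j, q j) * (1 - ∑ j, q j)
      = (1 - ∑ j, q j) * L f * ((1 - ∑ j, q j) * (1 - ∑ j, q j)) := by rw [mul_assoc]
    _ = ((1 - ∑ j, q j) * (1 - ∑ j, q j)) * L f * (1 - ∑ j, q j) := by rw [h4]
    _ = (1 - ∑ j, q j) * ((1 - ∑ j, q j) * L f * (1 - ∑ j, q j)) := by simp only [mul_assoc]

theorem tr_pi {A n : Type} [CStarAlgebra A] [Fintype n] (φ : A →L[ℂ] ℂ) (hφ : TS φ) (E : A)
    (τ : n → A) (h : PI E τ) : φ (∑ a, τ a * star (τ a)) = Fintype.card n * φ E := by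
  have h1 : ∀ a, φ (τ a * star (τ a)) = φ E := fun a => by rw [hφ.tr, h.1 a]
  rw [map_sum, Finset.sum_congr rfl fun a _ => h1 a]
  simp

theorem pi_map {A A₁ n : Type} [CStarAlgebra A] [CStarAlgebra A₁] (α : A₁ →⋆ₐ[ℂ] A) (E : A₁)
    (τ : n → A₁) (h : PI E τ) : PI (α E) (fun a => α (τ a)) := by
  refine ⟨fun a => ?_, fun a b hab => ?_⟩
  · rw [← map_star, ← map_mul, h.1 a]
  · rw [← map_star, ← map_mul, h.2 a b hab, map_zero]

theorem proj_map {A A₁ : Type} [CStarAlgebra A] [CStarAlgebra A₁] (α : A₁ →⋆ₐ[ℂ] A) (E : A₁)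
    (h : IsStarProjection E) : IsStarProjection (α E) := by
  refine ⟨?_, ?_⟩
  · change α E * α E = α E
    rw [← map_mul, h.isIdempotentElem.eq]
  · change star (α E) = α E
    rw [← map_star, h.isSelfAdjoint.star_eq]

theorem arith (c₀ k r K₁ x : ℝ) (hc : 0 < c₀) (hk : 1 ≤ k) (hr : 1 ≤ r) (hK : 0 ≤ K₁)
    (hx : x < c₀ / (4 * k * k * r * (K₁ + 1))) :
    K₁ * (r * x) < c₀ / (4 * k) ∧ k * r * x < c₀ / 2 := by
  have hk0 : 0 < k := by linarith
  have hr0 : 0 < r := by linarith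
  have hK0 : 0 < K₁ + 1 := by linarith
  have hx1 : x * (4 * k * k * r * (K₁ + 1)) < c₀ := by
    rwa [lt_div_iff₀ (by positivity)] at hx
  refine ⟨?_, ?_⟩
  · rcases le_or_gt x 0 with h | h
    · have h1 : K₁ * (r * x) ≤ 0 :=
        mul_nonpos_of_nonneg_of_nonpos hK (mul_nonpos_of_nonneg_of_nonpos hr0.le h)
      exact lt_of_le_of_lt h1 (by positivity)
    · rw [lt_div_iff₀ (by positivity)]
      have h2 : K₁ * (r * x) * (4 * k) ≤ x * (4 * k * k * r * (K₁ + 1)) := by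
        have h3 : K₁ * (r * x) * (4 * k) ≤ (K₁ + 1) * (r * x) * (4 * k) := by
          have : 0 ≤ (r * x) * (4 * k) := by positivity
          nlinarith
        have h4 : (K₁ + 1) * (r * x) * (4 * k) ≤ (K₁ + 1) * (r * x) * (4 * k) * k := by
          have : 0 ≤ (K₁ + 1) * (r * x) * (4 * k) := by positivity
          nlinarith
        calc K₁ * (r * x) * (4 * k) ≤ (K₁ + 1) * (r * x) * (4 * k) * k := h3.trans h4
          _ = x * (4 * k * k * r * (K₁ + 1)) := by ring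
      linarith
  · rcases le_or_gt x 0 with h | h
    · have h1 : k * r * x ≤ 0 := mul_nonpos_of_nonneg_of_nonpos (by positivity) h
      exact lt_of_le_of_lt h1 (by positivity)
    · have h2 : k * r * x * 2 ≤ x * (4 * k * k * r * (K₁ + 1)) := by
        have h3 : k * r * x * 2 ≤ k * r * x * 2 * (2 * k * (K₁ + 1)) := by
          have h5 : 0 ≤ k * r * x * 2 := by positivity
          have h6 : 1 ≤ 2 * k * (K₁ + 1) := by nlinarith
          nlinarith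
        calc k * r * x * 2 ≤ k * r * x * 2 * (2 * k * (K₁ + 1)) := h3
          _ = x * (4 * k * k * r * (K₁ + 1)) := by ring
      linarith

end CDA_

theorem p_CDA (h_DEX : T_DEX) (h_QCE : T_QCE) (h_OCR : T_OCR) (h_ODC : T_ODC) (h_CDR : T_CDR)
    (h_CAH : T_CAH) (h_RDV : T_RDV) (h_GRL : T_GRL) (h_AMM : T_AMM) (h_LK3 : T_LK3)
    (h_TRN : T_TRN) (h_REV : T_REV) (h_AMP : T_AMP) : T_CDA := by
  intro K A A₁ _ _ _ _ _ _ _ μ _ k₀ r κ c φ φ₁ ι ι₁ α e₀ s H F δ ε c₀ m m₁ k γ hr hφ hκ hEM hφα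
    hαι hδ hε hc₀ hc₁ hk hγ hγ1 hpt hCD
  have hne : Nonempty (Fin k) := ⟨⟨0, hk⟩⟩
  -- the two homomorphisms
  obtain ⟨L, hL⟩ : ∃ L : C(K, ℂ) →⋆ₐ[ℂ] A, ∀ f, L f = ι (f.comp c) :=
    ⟨ι.comp (ContinuousMap.compStarAlgHom' ℂ ℂ c), fun _ => rfl⟩
  obtain ⟨ω, hω⟩ : ∃ ω : C(S1, ℂ) →⋆ₐ[ℂ] A, ∀ g, ω g = α (ι₁ g) := ⟨α.comp ι₁, fun _ => rfl⟩
  have hLf : (fun f : C(K, ℂ) => ι (f.comp c)) = fun f => L f := funext fun f => (hL f).symm
  have hωf : (fun g : C(S1, ℂ) => α (ι₁ g)) = fun g => ω g := funext fun g => (hω g).symm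
  have hωa : (fun g : C(S1, ℂ) => ω g) = amp 1 s (fun f => L f) κ := by
    funext g
    rw [hω g, hαι g, hLf]
  have hωa' : ∀ g, amp 1 s (fun f => L f) κ g = ω g := fun g => (congrFun hωa g).symm
  rw [hLf, hωf]
  -- the finite sets
  obtain ⟨Ψ, ζ, hζ, hΨA, hΨs, hΨ0, hΨm⟩ := hCD
  set Gw : Finset C(S1, ℂ) := ((H ∪ F) ×ˢ (Finset.univ : Finset (Fin k × Fin k))).image
    (fun p => ent (γ p.1) p.2.1 p.2.2) with hGw
  have hGwm : ∀ f ∈ H ∪ F, ∀ a b, ent (γ f) a b ∈ Gw := fun f hf a b =>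
    Finset.mem_image.2 ⟨(f, (a, b)), Finset.mem_product.2 ⟨hf, Finset.mem_univ _⟩, rfl⟩
  set GΨ : Finset C(K, ℂ) := ((Finset.range (m + 1)) ×ˢ (H ×ˢ
    (Finset.univ : Finset ((Fin k × Fin r) × (Fin k × Fin r))))).image
    (fun p => ent (Ψ p.1 p.2.1) p.2.2.1 p.2.2.2) with hGΨ
  have hGΨm : ∀ i ≤ m, ∀ f ∈ H, ∀ a b, ent (Ψ i f) a b ∈ GΨ := fun i hi f hf a b =>
    Finset.mem_image.2 ⟨(i, (f, (a, b))), Finset.mem_product.2 ⟨Finset.mem_range.2
      (Nat.lt_succ_of_le hi), Finset.mem_product.2 ⟨hf, Finset.mem_univ _⟩⟩, rfl⟩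
  obtain ⟨B, hB1, hB⟩ := CDA_.bound Gw
  obtain ⟨BΨ, hBΨ1, hBΨ⟩ := CDA_.bound GΨ
  have hB0 : 0 < B := by linarith
  have hBΨ0 : 0 < BΨ := by linarith
  have hkR : (1 : ℝ) ≤ k := by exact_mod_cast hk
  have hrR : (1 : ℝ) ≤ r := by exact_mod_cast hr
  have hk0 : (0 : ℝ) < k := by linarith
  have hr0 : (0 : ℝ) < r := by linarith
  -- the constants
  set δ₂ : ℝ := δ / (2 * (k : ℝ) ^ 3) with hδ₂
  have hδ₂0 : 0 < δ₂ := by positivity
  have hδ₂e : δ / 2 + (k : ℝ) ^ 3 * δ₂ ≤ δ := by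
    rw [hδ₂]
    field_simp
    linarith
  set ε₂ : ℝ := ε / (k : ℝ) ^ 2 with hε₂
  have hε₂0 : 0 < ε₂ := by positivity
  have hε₂e : (k : ℝ) ^ 2 * ε₂ ≤ ε := by
    rw [hε₂]
    field_simp
    exact le_rfl
  set δ₃ : ℝ := δ / (2 * ((k : ℝ) * r) ^ 3) with hδ₃
  have hδ₃0 : 0 < δ₃ := by positivity
  have hδ₃e : δ / 2 + ((k : ℝ) * r) ^ 3 * δ₃ ≤ δ := by
    rw [hδ₃]
    field_simp
    linarith
  set δ₁ : ℝ := min (ε₂ / 4) (δ₂ / B) with hδ₁
  have hδ₁0 : 0 < δ₁ := lt_min (by positivity) (by positivity)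
  have hδ₁a : δ₁ ≤ ε₂ / 4 := min_le_left _ _
  have hδ₁b : B * δ₁ ≤ δ₂ := by
    have h := min_le_right (ε₂ / 4) (δ₂ / B)
    rw [← hδ₁, le_div_iff₀ hB0] at h
    linarith
  set ε₃ : ℝ := ε₂ - 2 * δ₁ with hε₃
  have hε₃0 : 0 < ε₃ := by linarith
  refine ⟨Gw, δ₁, c₀ / (4 * k), hδ₁0, by positivity, ?_⟩
  intro K₁ z₁ g₁ Q₁ hAD v hv G' ε' c' hε' hc'
  obtain ⟨δc, hδc, hcdr⟩ := h_CDR K₁ B ε₃ hB0 hε₃0
  set Gw' : Finset C(S1, ℂ) := Gw ∪ Finset.univ.image (fun i => toC (g₁ i)) with hGw'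
  set Gκ : Finset C(K, ℂ) := (Gw' ×ˢ (Finset.univ : Finset (Fin r × Fin r))).image
    (fun p => ent (κ p.1) p.2.1 p.2.2) with hGκ
  have hGκm : ∀ g ∈ Gw', ∀ i j, ent (κ g) i j ∈ Gκ := fun g hg i j =>
    Finset.mem_image.2 ⟨(g, (i, j)), Finset.mem_product.2 ⟨hg, Finset.mem_univ _⟩, rfl⟩
  set ε'' : ℝ := min ε' (min (δc / (r : ℝ) ^ 2) (min (δ₂ / (2 * (r : ℝ) ^ 2 * B)) (δ₃ / BΨ)))
    with hε''
  have hε''0 : 0 < ε'' :=
    lt_min hε' (lt_min (by positivity) (lt_min (by positivity) (by positivity)))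
  have hεa : ε'' ≤ ε' := min_le_left _ _
  have hεb : (r : ℝ) ^ 2 * ε'' ≤ δc := by
    have h : ε'' ≤ δc / (r : ℝ) ^ 2 := (min_le_right _ _).trans (min_le_left _ _)
    rw [le_div_iff₀ (by positivity)] at h
    linarith
  have hεc : B * (2 * ((r : ℝ) ^ 2 * ε'')) ≤ δ₂ := by
    have h : ε'' ≤ δ₂ / (2 * (r : ℝ) ^ 2 * B) :=
      (min_le_right _ _).trans ((min_le_right _ _).trans (min_le_left _ _))
    rw [le_div_iff₀ (by positivity)] at h
    linarith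
  have hεd : BΨ * ε'' ≤ δ₃ := by
    have h : ε'' ≤ δ₃ / BΨ :=
      (min_le_right _ _).trans ((min_le_right _ _).trans (min_le_right _ _))
    rw [le_div_iff₀ hBΨ0] at h
    linarith
  set c'' : ℝ := min c' (c₀ / (4 * k * k * r * ((K₁ : ℝ) + 1))) with hc''
  have hc''0 : 0 < c'' := lt_min hc' (by positivity)
  -- the decomposition of L
  have hLsp : ∀ f, L f * (1 - e₀) = f k₀ • (1 - e₀) := fun f => by rw [hL f, hEM.spt f]
  have hpr : IsProbabilityMeasure (Measure.map c μ) :=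
    Measure.isProbabilityMeasure_map c.continuous.measurable.aemeasurable
  have hLv : ∀ f, φ (L f) = ∫ x, f x ∂(Measure.map c μ) := by
    intro f
    rw [hL f, hEM.val, integral_map c.continuous.measurable.aemeasurable
      f.continuous.aestronglyMeasurable]
    rfl
  obtain ⟨K', z', g', Q', hrng, hdis, hosc, hada, hdec, hcom, he₀, htr⟩ :=
    h_DEX K A (Measure.map c μ) φ L k₀ e₀ (G' ∪ (Gκ ∪ GΨ)) ε'' c'' hφ hLv hEM.pr hLsp hε''0 hc''0
  have hQ'p := hdec.1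
  have hQ'o := hdec.2.1
  refine ⟨K', z', g', Q', ⟨hrng, hdis, fun f hf k x hx => (hosc f (Finset.mem_union_left _ hf) k x
    hx).trans hεa, hada, ⟨hQ'p, hQ'o, fun f hf => (hdec.2.2 f (Finset.mem_union_left _ hf)).trans
    hεa⟩, fun f hf => (hcom f (Finset.mem_union_left _ hf)).trans hεa,
    lt_of_lt_of_le htr (min_le_left _ _)⟩, ?_⟩
  set E' : A := 1 - ∑ i, Q' i with hE'
  have hE'p : IsStarProjection E' := (CDA_.compl Q' hQ'p hQ'o).1
  have hqe := h_QCE K A L k₀ e₀ K' g' Q' hEM.pr hLsp hdis hQ'p hQ'o hada he₀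
  obtain ⟨J, q, x, hDω, hEr⟩ := h_ODC K A r K' k₀ e₀ s (fun f => L f) κ Gw' (G' ∪ (Gκ ∪ GΨ)) ε'' Q' z'
    hEM.pr hEM.pis hκ he₀ hqe hε''0.le hdec
    (fun g hg i j => Finset.mem_union_right _ (Finset.mem_union_left _ (hGκm g hg i j)))
  rw [← hωa] at hDω
  obtain ⟨hpiE, hErp, hErc⟩ := h_OCR K A r e₀ E' s (fun f => L f) κ hEM.pr hE'p he₀ hEM.pis
  rw [← hE'] at hEr
  set Er : A := ∑ i, s i * E' * star (s i * E') with hErd
  -- traces
  have hErφ : (φ Er).re = r * (φ E').re := by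
    have h := CDA_.tr_pi φ hφ.ts E' (fun i => s i * E') hpiE
    rw [Fintype.card_fin] at h
    rw [hErd, h]
    simp
  obtain ⟨ha1, ha2⟩ := CDA_.arith c₀ k r K₁ (φ E').re hc₀ hkR hrR (Nat.cast_nonneg _)
    (lt_of_lt_of_le htr (min_le_right _ _))
  -- the first corner
  set E₁ : A₁ := 1 - ∑ i, Q₁ i with hE₁
  have hE₁p : IsStarProjection E₁ := (CDA_.compl Q₁ hAD.dec.1 hAD.dec.2.1).1
  have hαE : 1 - ∑ i, α (Q₁ i) = α E₁ := by rw [hE₁, map_sub, map_one, map_sum]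
  have hαEp : IsStarProjection (α E₁) := CDA_.proj_map α _ hE₁p
  have hαn : ∀ a : A₁, ‖α a‖ ≤ ‖a‖ := fun a => NonUnitalStarAlgHom.norm_apply_le α a
  have hωn : ∀ g, ‖ω g‖ ≤ ‖g‖ := fun g => NonUnitalStarAlgHom.norm_apply_le ω g
  have hLn : ∀ f, ‖L f‖ ≤ ‖f‖ := fun f => NonUnitalStarAlgHom.norm_apply_le L f
  -- the relation
  have hrel : Rel φ Gw ε₂ (c₀ / (2 * k)) (α E₁) (fun g => ω g) Er (fun g => ω g) := by
    have h := hcdr S1 A φ hφ (fun g => ω g) Gw z₁ (fun i => toC (g₁ i)) (fun i => α (Q₁ i)) J q x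
      δ₁ δ₁ (c₀ / (2 * k)) hδ₁0.le hδ₁0.le (fun i => CDA_.proj_map α _ (hAD.dec.1 i))
      (fun i j hij => by rw [← map_mul, hAD.dec.2.1 i j hij, map_zero]) hDω.1 hDω.2.1
      (fun i => ?_) (fun f hf => ?_) (fun f hf => ?_) (fun i => ?_) (fun i j y hij hy => ?_)
      (fun f hf i y hy => ?_) (fun f hf => ?_) ?_
    · rw [hαE, hEr] at h
      have e : δ₁ + δ₁ + ε₃ = ε₂ := by rw [hε₃]; ring
      rwa [e] at h
    · refine ⟨(hωn _).trans ?_, ?_⟩
      · rw [ContinuousMap.norm_le _ zero_le_one]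
        intro y
        change ‖((g₁ i y : ℝ) : ℂ)‖ ≤ 1
        rw [Complex.norm_real, Real.norm_eq_abs, abs_of_nonneg (hAD.rng i y).1]
        exact (hAD.rng i y).2
      · have h1 : ω (toC (g₁ i)) * α (Q₁ i) = α (Q₁ i) := by
          rw [hω, ← map_mul, hAD.ada i]
        rw [h1, sub_self, norm_zero]
        exact hδc.le
    · exact ⟨(hωn f).trans (hB f hf), fun y => (ContinuousMap.norm_coe_le_norm f y).trans (hB f hf)⟩
    · exact (hDω.2.2 f (Finset.mem_union_left _ hf)).trans hεb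
    · exact (hDω.2.2 _ (Finset.mem_union_right _ (Finset.mem_image_of_mem _
        (Finset.mem_univ i)))).trans hεb
    · have hy' : g₁ i y ≠ 0 := fun h0 => hy (by change ((g₁ i y : ℝ) : ℂ) = 0; rw [h0]; simp)
      change ((g₁ j y : ℝ) : ℂ) = 0
      rw [hAD.dis i j y hij hy']
      simp
    · have hy' : g₁ i y ≠ 0 := fun h0 => hy (by change ((g₁ i y : ℝ) : ℂ) = 0; rw [h0]; simp)
      exact hAD.osc f hf i y hy'
    · have e : ω f - ((1 - ∑ i, α (Q₁ i)) * ω f * (1 - ∑ i, α (Q₁ i)) + ∑ i, f (z₁ i) • α (Q₁ i))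
          = α (ι₁ f - (E₁ * ι₁ f * E₁ + ∑ i, f (z₁ i) • Q₁ i)) := by
        rw [hαE, hω, map_sub α (ι₁ f), map_add α, map_mul α (E₁ * ι₁ f), map_mul α E₁, map_sum]
        congr 2
        exact Finset.sum_congr rfl fun i _ => (map_smul α _ _).symm
      rw [e]
      exact (hαn _).trans (hAD.dec.2.2 f hf)
    · rw [hαE, hφα, hEr, hErφ]
      have h1 := hAD.tra
      rw [← hE₁] at h1
      have e : c₀ / (4 * k) + c₀ / (4 * k) = c₀ / (2 * k) := by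
        field_simp
        ring
      linarith
  -- almost multiplicativity in the corners
  have hAH1 : AH Gw δ₂ (cmp 1 (α E₁) (fun g => ω g)) := by
    refine CDA_.ah_mono (h_CAH S1 A 1 (α E₁) Gw 0 δ₁ B (fun g => ω g) hαEp (CDA_.ah_hom Gw ω)
      (fun f hf => ⟨(hωn f).trans (hB f hf), ?_⟩) hB0.le).1 (by linarith)
    have e : ω f * α E₁ - α E₁ * ω f = α (ι₁ f * E₁ - E₁ * ι₁ f) := by
      rw [map_sub α (ι₁ f * E₁), map_mul α (ι₁ f), map_mul α E₁, hω]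
    rw [e]
    exact (hαn _).trans (hAD.com f hf)
  have hAH2 : AH Gw δ₂ (cmp 1 Er (fun g => ω g)) := by
    refine CDA_.ah_mono (h_CAH S1 A 1 Er Gw 0 (2 * ((r : ℝ) ^ 2 * ε'')) B (fun g => ω g) hErp
      (CDA_.ah_hom Gw ω) (fun f hf => ⟨(hωn f).trans (hB f hf), ?_⟩) hB0.le).1 (by linarith)
    have h := CDA_.dec_comm hDω f (Finset.mem_union_left _ hf)
    rwa [hEr] at h
  have hAH3 : AH GΨ δ₃ (cmp k₀ E' (fun f => L f)) := by
    refine CDA_.ah_mono (h_CAH K A k₀ E' GΨ 0 ε'' BΨ (fun f => L f) hE'p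
      (CDA_.ah_hom GΨ L) (fun f hf => ⟨(hLn f).trans (hBΨ f hf), ?_⟩) hBΨ0.le).1 (by linarith)
    exact hcom f (Finset.mem_union_right _ (Finset.mem_union_right _ hf))
  -- copies
  obtain ⟨ρ, hρ, -⟩ := h_RDV A φ hφ Er 1 k hErp ⟨IsIdempotentElem.one, IsSelfAdjoint.one _⟩ (by
    rw [hErφ, hφ.ts.one, Complex.one_re]
    have e : (k : ℝ) * (r * (φ E').re) = k * r * (φ E').re := by ring
    rw [e]
    linarith)
  have e0 : (k : ℝ) * (c₀ / (2 * k)) = c₀ / 2 := by field_simp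
  have hgrl := h_GRL K S1 (Fin k) A φ k₀ 1 H F Gw δ (δ / 2) δ₂ ε ε₂ (c₀ / (2 * k)) m₁ (α E₁) Er
    (fun g => ω g) (fun g => ω g) γ (fun a => α (v a)) ρ hφ hαEp hErp (by positivity) hδ₂0.le
    hε₂0.le hrel hAH1 hAH2 (fun f hf a b => hGwm f (Finset.mem_union_left _ hf) a b)
    (fun f hf a b => hGwm f (Finset.mem_union_right _ hf) a b) hγ
    (fun f => (hγ1 f).trans (congrArg (fun M => f k₀ • M) (one_inst _ _))) hpt (by rw [Fintype.card_fin]; exact hε₂e)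
    (by rw [Fintype.card_fin, e0]; linarith) (by rw [Fintype.card_fin]; exact hδ₂e)
    (CDA_.pi_map α _ v hv) hρ
  have hrev := (h_REV K A φ k₀ H δ F ε _ (2 * m₁ + 1) _ _ _ _ hε.le hgrl).1
  obtain ⟨-, hspt, hprj⟩ := h_AMP K S1 (Fin k) A k₀ 1 Er ρ H Gw (δ / 2) δ₂ (fun g => ω g) γ hErp hρ
    hAH2 hγ (by positivity) hδ₂0.le (fun f hf a b => hGwm f (Finset.mem_union_left _ hf) a b)
  obtain ⟨hτ, hτs, hτa⟩ := h_AMM K S1 K (Fin k) (Fin r) A k₀ E' (fun i => s i * E') ρ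
    (fun g => ω g) (fun f => L f) κ γ (Ψ m) hE'p hpiE hρ (fun g => by rw [← hErc g, hωa' g])
    (fun f y a b => by rw [hΨm f y]; rfl)
  have hcard : (Fintype.card (Fin k × Fin r) : ℝ) = k * r := by
    rw [Fintype.card_prod, Fintype.card_fin, Fintype.card_fin]
    push_cast
    ring
  have hlk := h_LK3 K (Fin k × Fin r) A φ k₀ E' (fun a => ρ a.1 * (s a.2 * E')) H F GΨ δ (δ / 2)
    δ₃ ε (c₀ / 2) m (fun f => L f) Ψ ζ hφ hE'p hτ hAH3 (by positivity) hδ₃0.le hε.le hζ hΨA hGΨm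
    hΨs hΨ0 (map_add L) (map_smul L) (map_one L) (by rw [hcard]; exact hδ₃e)
    (by rw [hcard]; exact ha2)
  have hfun : amp k₀ (fun a : Fin k × Fin r => ρ a.1 * (s a.2 * E')) (fun f => L f) (Ψ m)
      = amp k₀ ρ (fun g => ω g) γ := funext fun f => (hτa f).symm
  rw [hτs, hfun] at hlk
  have hfin := h_TRN K A φ k₀ H δ F ε (c₀ / 2) _ m (2 * m₁ + 1) _ _ _ _ _ _ hφ hprj hspt
    (by rw [Fintype.card_fin, e0]; linarith) hlk hrev
  have e1 : c₀ / 2 + (Fintype.card (Fin k) : ℝ) * (c₀ / (2 * k)) = c₀ := by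
    rw [Fintype.card_fin, e0]
    ring
  rw [e1] at hfin
  exact hfin

end Pool.Agent.FPS
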