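import Pool.Agent.FPS.Targets1
import Pool.Agent.FPS.Targets2
import Pool.Agent.FPS.Targets3
import Pool.Agent.FPS.P_AMP

set_option autoImplicit false

/-!
# FPS: RLS, slots for a homomorphism with a tiny decomposition
-/

open scoped Classical
open MeasureTheory Pool.Agent.FPZ

noncomputable section

namespace Pool.Agent.FPS

namespace RLS_

section basic

variable {A : Type} [CStarAlgebra A]

lemma sum_proj {J : ℕ} (q : Fin J → A) (h1 : ∀ j, IsStarProjection (q j))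
    (h2 : ∀ i j, i ≠ j → q i * q j = 0) : IsStarProjection (∑ j, q j) := by
  refine ⟨?_, ?_⟩
  · show (∑ i, q i) * (∑ j, q j) = ∑ j, q j
    rw [Finset.sum_mul]
    refine Finset.sum_congr rfl fun i _ => ?_
    rw [Finset.mul_sum, Finset.sum_eq_single i]
    · exact (h1 i).isIdempotentElem
    · intro j _ hj
      exact h2 i j (Ne.symm hj)
    · intro h
      exact absurd (Finset.mem_univ i) h
  · show star (∑ j, q j) = ∑ j, q j
    rw [star_sum]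
    exact Finset.sum_congr rfl fun i _ => (h1 i).isSelfAdjoint

lemma compl_proj {P : A} (h : IsStarProjection P) : IsStarProjection (1 - P) := by
  have hi : P * P = P := h.isIdempotentElem
  refine ⟨?_, ?_⟩
  · show (1 - P) * (1 - P) = 1 - P
    rw [mul_sub, mul_one, sub_mul, one_mul, hi, sub_self, sub_zero]
  · show star (1 - P) = 1 - P
    rw [star_sub, star_one, (show star P = P from h.isSelfAdjoint)]

lemma mul_compl {J : ℕ} (q : Fin J → A) (h1 : ∀ j, IsStarProjection (q j))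
    (h2 : ∀ i j, i ≠ j → q i * q j = 0) (j : Fin J) :
    q j * (1 - ∑ i, q i) = 0 ∧ (1 - ∑ i, q i) * q j = 0 := by
  have e1 : q j * ∑ i, q i = q j := by
    rw [Finset.mul_sum, Finset.sum_eq_single j]
    · exact (h1 j).isIdempotentElem
    · intro i _ hi
      exact h2 j i (Ne.symm hi)
    · intro h
      exact absurd (Finset.mem_univ j) h
  have e2 : (∑ i, q i) * q j = q j := by
    rw [Finset.sum_mul, Finset.sum_eq_single j]
    · exact (h1 j).isIdempotentElem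
    · intro i _ hi
      exact h2 i j hi
    · intro h
      exact absurd (Finset.mem_univ j) h
  exact ⟨by rw [mul_sub, mul_one, e1, sub_self], by rw [sub_mul, one_mul, e2, sub_self]⟩

/-- the commutator with the corner projection -/
lemma comm_le {J : ℕ} (q : Fin J → A) (h1 : ∀ j, IsStarProjection (q j))
    (h2 : ∀ i j, i ≠ j → q i * q j = 0) (a : A) (c : Fin J → ℂ) {δ : ℝ}
    (h : ‖a - ((1 - ∑ j, q j) * a * (1 - ∑ j, q j) + ∑ j, c j • q j)‖ ≤ δ) :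
    ‖a * (1 - ∑ j, q j) - (1 - ∑ j, q j) * a‖ ≤ 2 * δ := by
  set E : A := 1 - ∑ j, q j with hE
  have hEp : IsStarProjection E := compl_proj (sum_proj q h1 h2)
  have hi : E * E = E := hEp.isIdempotentElem
  have hn : ‖E‖ ≤ 1 := AMP_.norm_proj hEp
  have s1 : (∑ j, c j • q j) * E = 0 := by
    rw [Finset.sum_mul]
    refine Finset.sum_eq_zero fun j _ => ?_
    rw [smul_mul_assoc, (mul_compl q h1 h2 j).1, smul_zero]
  have s2 : E * (∑ j, c j • q j) = 0 := by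
    rw [Finset.mul_sum]
    refine Finset.sum_eq_zero fun j _ => ?_
    rw [mul_smul_comm, (mul_compl q h1 h2 j).2, smul_zero]
  set X : A := E * a * E + ∑ j, c j • q j with hX
  have x1 : X * E = E * a * E := by rw [hX, add_mul, s1, add_zero, mul_assoc, hi]
  have x2 : E * X = E * a * E := by
    rw [hX, mul_add, s2, add_zero, ← mul_assoc, ← mul_assoc, hi]
  have e : a * E - E * a = (a - X) * E - E * (a - X) := by
    have y1 : (a - X) * E = a * E - X * E := sub_mul _ _ _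
    have y2 : E * (a - X) = E * a - E * X := mul_sub _ _ _
    rw [y1, y2, x1, x2]
    abel
  have hδ : 0 ≤ δ := (norm_nonneg _).trans h
  rw [e]
  calc ‖(a - X) * E - E * (a - X)‖ ≤ ‖(a - X) * E‖ + ‖E * (a - X)‖ := norm_sub_le _ _
    _ ≤ ‖a - X‖ * ‖E‖ + ‖E‖ * ‖a - X‖ := add_le_add (norm_mul_le _ _) (norm_mul_le _ _)
    _ ≤ δ * 1 + 1 * δ := by gcongr
    _ = 2 * δ := by ring

end basic

lemma ah_mono {K A : Type} [TopologicalSpace K] [CompactSpace K] [CStarAlgebra A]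
    {H : Finset C(K, ℂ)} {δ δ' : ℝ} {L : C(K, ℂ) → A} (h : AH H δ L) (hd : δ ≤ δ') :
    AH H δ' L :=
  ⟨h.add, h.smul, h.one, h.str, h.pos, fun f hf g hg => (h.mul f hf g hg).trans hd⟩

lemma ah_hom {K A : Type} [TopologicalSpace K] [CompactSpace K] [CStarAlgebra A]
    (H : Finset C(K, ℂ)) (L : C(K, ℂ) →⋆ₐ[ℂ] A) : AH H 0 (fun f => L f) where
  add := fun f g => map_add L f g
  smul := fun c f => map_smul L c f
  one := map_one L
  str := fun f => map_star L f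
  pos := fun f => ⟨L f, by
    show L (star f * f) = star (L f) * L f
    rw [map_mul, map_star]⟩
  mul := fun f _ g _ => by
    show ‖L (f * g) - L f * L g‖ ≤ 0
    rw [map_mul, sub_self, norm_zero]

lemma rel_mono {K A : Type} [TopologicalSpace K] [CStarAlgebra A] {φ : A →L[ℂ] ℂ}
    {G : Finset C(K, ℂ)} {ε ε' c : ℝ} {E : A} {L : C(K, ℂ) → A} {E' : A} {L' : C(K, ℂ) → A}
    (h : Rel φ G ε c E L E' L') (he : ε ≤ ε') : Rel φ G ε' c E L E' L' := by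
  obtain ⟨I, J, a, x, b, x', y, h1, h2, h3, h4, h5, h6, h7, h8, h9, h10⟩ := h
  exact ⟨I, J, a, x, b, x', y, h1, h2, h3, h4, h5, h6, h7, h8, h9,
    fun g hg => (h10 g hg).trans he⟩

/-- a common modulus of continuity -/
lemma modulus {K : Type} [MetricSpace K] [CompactSpace K] (H : Finset C(K, ℂ)) {ε : ℝ}
    (hε : 0 < ε) : ∃ ρ : ℝ, 0 < ρ ∧ ∀ f ∈ H, ∀ x y : K, dist x y < ρ → ‖f x - f y‖ ≤ ε := by
  induction H using Finset.induction_on with
  | empty => exact ⟨1, one_pos, fun f hf => absurd hf (Finset.notMem_empty f)⟩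
  | insert f H _ ih =>
    obtain ⟨ρ, hρ, h⟩ := ih
    have h1 := CompactSpace.uniformContinuous_of_continuous f.continuous
    rw [Metric.uniformContinuous_iff] at h1
    obtain ⟨ρ', hρ', h'⟩ := h1 ε hε
    refine ⟨min ρ ρ', lt_min hρ hρ', fun g hg x y hxy => ?_⟩
    rw [Finset.mem_insert] at hg
    rcases hg with hg | hg
    · subst hg
      have h2 := h' (hxy.trans_le (min_le_right _ _))
      rw [dist_eq_norm] at h2
      exact h2.le
    · exact h g hg x y (hxy.trans_le (min_le_left _ _))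

lemma norm_L {K A : Type} [TopologicalSpace K] [CompactSpace K] [CStarAlgebra A]
    (L : C(K, ℂ) →⋆ₐ[ℂ] A) (f : C(K, ℂ)) : ‖L f‖ ≤ ‖f‖ :=
  NonUnitalStarAlgHom.norm_apply_le L f

end RLS_

open RLS_ in
theorem p_RLS (hSLH : T_SLH) (hCU2 : T_CU2) (hCDR : T_CDR) (hRLC : T_RLC) (hCAH : T_CAH) :
    T_RLS := by
  intro K _ _ _ _ _ μ _ k₀ F H ε δ c₁ m₁ hFH hε hδ hc₁ hc₁' hpt
  -- constants
  obtain ⟨B, hB1, hB⟩ : ∃ B : ℝ, 1 ≤ B ∧ ∀ f ∈ H, ‖f‖ ≤ B := by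
    refine ⟨1 + ∑ f ∈ H, ‖f‖, ?_, ?_⟩
    · have : 0 ≤ ∑ f ∈ H, ‖f‖ := Finset.sum_nonneg fun f _ => norm_nonneg f
      linarith
    · intro f hf
      have := Finset.single_le_sum (f := fun f : C(K, ℂ) => ‖f‖) (fun g _ => norm_nonneg g) hf
      linarith
  have hB0 : 0 < B + 1 := by linarith
  obtain ⟨ε₁, hε₁, hε₁ε, hε₁δ⟩ : ∃ ε₁ : ℝ, 0 < ε₁ ∧ 16 * ε₁ ≤ ε ∧ 16 * (ε₁ * (B + 1)) ≤ δ := by
    refine ⟨min ε (δ / (B + 1)) / 16, ?_, ?_, ?_⟩
    · have : 0 < min ε (δ / (B + 1)) := lt_min hε (div_pos hδ hB0)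
      linarith
    · have := min_le_left ε (δ / (B + 1))
      linarith
    · have h1 := min_le_right ε (δ / (B + 1))
      rw [le_div_iff₀ hB0] at h1
      linarith
  obtain ⟨ρ, hρ, hmod⟩ := modulus H hε₁
  refine ⟨ρ, hρ, ?_⟩
  intro K₀ z g g' δ₂' hg hdis hdist hδ₂'
  obtain ⟨δ₀, hδ₀, hcdr⟩ := hCDR K₀ B ε₁ (by linarith) hε₁
  obtain ⟨G, hG⟩ : ∃ G : Finset C(K, ℂ), G = H ∪ (Finset.univ.image fun k => toC (g k)) ∪
      (Finset.univ.image fun k => toC (g' k)) := ⟨_, rfl⟩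
  have hHG : H ⊆ G := by
    intro f hf
    rw [hG]
    exact Finset.mem_union_left _ (Finset.mem_union_left _ hf)
  have hgG : ∀ k, toC (g k) ∈ G := by
    intro k
    rw [hG]
    exact Finset.mem_union_left _ (Finset.mem_union_right _
      (Finset.mem_image_of_mem _ (Finset.mem_univ k)))
  have hg'G : ∀ k, toC (g' k) ∈ G := by
    intro k
    rw [hG]
    exact Finset.mem_union_right _ (Finset.mem_image_of_mem _ (Finset.mem_univ k))
  obtain ⟨δ₂, hδ₂, d1, d2, d3⟩ : ∃ δ₂ : ℝ, 0 < δ₂ ∧ δ₂ ≤ δ₂' ∧ δ₂ ≤ δ₀ ∧ δ₂ ≤ ε₁ := by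
    refine ⟨min δ₂' (min δ₀ ε₁), lt_min hδ₂' (lt_min hδ₀ hε₁), min_le_left _ _,
      (min_le_right _ _).trans (min_le_left _ _), (min_le_right _ _).trans (min_le_right _ _)⟩
  have hK₀ : (0 : ℝ) < 32 * ((K₀ : ℝ) + 1) := by positivity
  refine ⟨G, δ₂, c₁ / (32 * ((K₀ : ℝ) + 1)), hHG, hδ₂, div_pos hc₁ hK₀, ?_⟩
  intro A _ φ L J q x n p hR htr hDec hc₃ hp hn hsum
  obtain ⟨hq1, hq2, hq3⟩ := hDec
  -- the slots
  have hn' : ∀ k, 0 < n k → n k * (φ p).re < (φ (L (toC (g k)))).re := by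
    intro k hk
    have h1 := hn k hk
    have h2 := htr _ (hgG k)
    have h3 : ∫ x, (toC (g k)) x ∂μ = ((∫ x, g k x ∂μ : ℝ) : ℂ) :=
      integral_complex_ofReal (f := fun x => g k x)
    rw [h3] at h2
    have h4 := (Complex.abs_re_le_norm _).trans h2
    rw [Complex.sub_re, Complex.ofReal_re] at h4
    have h5 := (abs_le.mp h4).1
    linarith
  obtain ⟨v, hv, hLv⟩ := hSLH K A φ L K₀ g g' n p hR hp hg hdis hn'
  obtain ⟨Q, hQ⟩ : ∃ Q : Fin K₀ → A, Q = fun k => ∑ i, v ⟨k, i⟩ * star (v ⟨k, i⟩) := ⟨_, rfl⟩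
  have hQp : ∀ k, IsStarProjection (Q k) := by
    intro k
    have h1 : PI p (fun i : Fin (n k) => v ⟨k, i⟩) := by
      refine ⟨fun a => hv.1 _, fun a b hab => hv.2 _ _ ?_⟩
      intro h2
      exact hab (eq_of_heq (Sigma.mk.inj h2).2)
    have h2 := AMP_.Q_proj hp h1
    rw [hQ]
    exact h2
  have hLQ : ∀ k, L (toC (g' k)) * Q k = Q k := by
    intro k
    rw [hQ]
    simp only
    rw [Finset.mul_sum]
    refine Finset.sum_congr rfl fun i _ => ?_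
    rw [← mul_assoc, hLv ⟨k, i⟩]
  have hSm : ∑ s, v s * star (v s) = ∑ k, Q k := by
    rw [Fintype.sum_sigma, hQ]
  have hSf : ∀ f : C(K, ℂ), ∑ s, f (z s.1) • (v s * star (v s)) = ∑ k, f (z k) • Q k := by
    intro f
    rw [Fintype.sum_sigma, hQ]
    refine Finset.sum_congr rfl fun k _ => ?_
    rw [Finset.smul_sum]
  have hosc : ∀ f ∈ H, ∀ k x, g' k x ≠ 0 → ‖f x - f (z k)‖ ≤ ε₁ := fun f hf k x hx =>
    hmod f hf x (z k) (hdist k x hx)
  have hg01 : ∀ k x, 0 ≤ g' k x ∧ g' k x ≤ 1 := fun k x => ⟨(hg k x).2.2.1, (hg k x).2.2.2.1⟩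
  have hcu : ∀ f ∈ H, (∀ k l, k ≠ l → Q k * Q l = 0) ∧
      ‖L f * (∑ k, Q k) - ∑ k, f (z k) • Q k‖ ≤ ε₁ ∧
      ‖L f * (1 - ∑ k, Q k) - (1 - ∑ k, Q k) * L f‖ ≤ 2 * ε₁ ∧
      ‖L f - ((1 - ∑ k, Q k) * L f * (1 - ∑ k, Q k) + ∑ k, f (z k) • Q k)‖ ≤ 2 * ε₁ :=
    fun f hf => hCU2 K A L K₀ g' z Q f ε₁ hg01 hdis hQp hLQ hε₁.le (hosc f hf)
  have hQo : ∀ k l, k ≠ l → Q k * Q l = 0 := by
    intro k l hkl
    exact (hCU2 K A L K₀ g' z Q 0 0 hg01 hdis hQp hLQ le_rfl (by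
      intro k x _
      simp)).1 k l hkl
  have hep : IsStarProjection (1 - ∑ k, Q k) := compl_proj (sum_proj Q hQp hQo)
  have hEp : IsStarProjection (1 - ∑ j, q j) := compl_proj (sum_proj q hq1 hq2)
  -- the trace of the complement
  have hφe : (φ (1 - ∑ k, Q k)).re < c₁ / 16 := by
    rw [← hSm, map_sub, hR.ts.one, map_sum, Fintype.sum_sigma]
    have h1 : ∀ k : Fin K₀, ∑ i : Fin (n k), φ (v ⟨k, i⟩ * star (v ⟨k, i⟩)) = n k * φ p := by
      intro k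
      have h2 : ∀ i : Fin (n k), φ (v ⟨k, i⟩ * star (v ⟨k, i⟩)) = φ p := by
        intro i
        rw [hR.ts.tr, hv.1]
      rw [Finset.sum_congr rfl fun i _ => h2 i, Finset.sum_const, Finset.card_univ,
        Fintype.card_fin, nsmul_eq_mul]
    rw [Finset.sum_congr rfl fun k _ => h1 k, Complex.sub_re, Complex.one_re, Complex.re_sum]
    have h3 : ∀ k : Fin K₀, ((n k : ℂ) * φ p).re = n k * (φ p).re := by
      intro k
      simp
    rw [Finset.sum_congr rfl fun k _ => h3 k]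
    exact hsum
  -- the relation
  have hLH : ∀ f ∈ H, ‖L f‖ ≤ B ∧ ∀ x, ‖f x‖ ≤ B := fun f hf =>
    ⟨(norm_L L f).trans (hB f hf), fun x => (f.norm_coe_le_norm x).trans (hB f hf)⟩
  have hg'n : ∀ k, ‖toC (g' k)‖ ≤ 1 := by
    intro k
    rw [ContinuousMap.norm_le _ zero_le_one]
    intro x
    show ‖((g' k x : ℝ) : ℂ)‖ ≤ 1
    rw [Complex.norm_real, Real.norm_of_nonneg (hg01 k x).1]
    exact (hg01 k x).2
  have hne : ∀ k x, toC (g' k) x ≠ 0 → g' k x ≠ 0 := by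
    intro k x h1 h2
    apply h1
    show ((g' k x : ℝ) : ℂ) = 0
    rw [h2, Complex.ofReal_zero]
  have hrel : Rel φ H (ε₁ + 2 * ε₁ + ε₁) (c₁ / 8) (1 - ∑ k, Q k) (fun f => L f) (1 - ∑ j, q j)
      (fun f => L f) := by
    refine hcdr K A φ hR (fun f => L f) H z (fun k => toC (g' k)) Q J q x ε₁ (2 * ε₁) (c₁ / 8)
      hε₁.le (by linarith) hQp hQo hq1 hq2 ?_ hLH ?_ ?_ ?_ ?_ ?_ ?_
    · intro k
      refine ⟨(norm_L L _).trans (hg'n k), ?_⟩
      show ‖L (toC (g' k)) * Q k - Q k‖ ≤ δ₀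
      rw [hLQ k, sub_self, norm_zero]
      exact hδ₀.le
    · exact fun f hf => (hq3 f (hHG hf)).trans d2
    · exact fun k => (hq3 _ (hg'G k)).trans d2
    · intro k l x hkl hx
      show ((g' l x : ℝ) : ℂ) = 0
      rw [hdis k l x hkl (hne k x hx), Complex.ofReal_zero]
    · exact fun f hf k x hx => hosc f hf k x (hne k x hx)
    · exact fun f hf => (hcu f hf).2.2.2
    · have h1 : (K₀ : ℝ) * (φ (1 - ∑ j, q j)).re ≤ c₁ / 32 := by
        have h2 : (K₀ : ℝ) * (φ (1 - ∑ j, q j)).re ≤ K₀ * (c₁ / (32 * ((K₀ : ℝ) + 1))) :=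
          mul_le_mul_of_nonneg_left hc₃.le (Nat.cast_nonneg K₀)
        have h3 : (K₀ : ℝ) * (c₁ / (32 * ((K₀ : ℝ) + 1))) ≤ c₁ / 32 := by
          rw [mul_div_assoc', div_le_div_iff₀ hK₀ (by norm_num)]
          nlinarith [(Nat.cast_nonneg K₀ : (0 : ℝ) ≤ K₀)]
        exact h2.trans h3
      linarith
  -- the almost homomorphisms
  have hBn : 0 ≤ B := by linarith
  have hAH0 := ah_hom H L
  have hcomm1 : ∀ f ∈ H, ‖L f‖ ≤ B ∧ ‖L f * (1 - ∑ k, Q k) - (1 - ∑ k, Q k) * L f‖ ≤ 2 * ε₁ :=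
    fun f hf => ⟨(hLH f hf).1, (hcu f hf).2.2.1⟩
  have hcomm2 : ∀ f ∈ H, ‖L f‖ ≤ B ∧ ‖L f * (1 - ∑ j, q j) - (1 - ∑ j, q j) * L f‖ ≤ 2 * ε₁ :=
    fun f hf => ⟨(hLH f hf).1, (comm_le q hq1 hq2 (L f) (fun j => f (x j))
      (hq3 f (hHG hf))).trans (by linarith)⟩
  have hle : 0 + B * (2 * ε₁) ≤ δ := by nlinarith
  have hAH1 : AH H δ (cmp k₀ (1 - ∑ k, Q k) (fun f => L f)) :=
    ah_mono (hCAH K A k₀ _ H 0 (2 * ε₁) B (fun f => L f) hep hAH0 hcomm1 hBn).1 hle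
  have hAH2 : AH H δ (cmp k₀ (1 - ∑ j, q j) (fun f => L f)) :=
    ah_mono (hCAH K A k₀ _ H 0 (2 * ε₁) B (fun f => L f) hEp hAH0 hcomm2 hBn).1 hle
  have hchn := hRLC K A φ k₀ H F H δ ε (c₁ / 8) m₁ (1 - ∑ k, Q k) (1 - ∑ j, q j) (fun f => L f)
    (fun f => L f) hR hep hEp hδ.le hε.le (rel_mono hrel (by linarith)) hAH1 hAH2
    (Finset.Subset.refl H) hFH hpt (by linarith)
  refine ⟨v, hv, ?_, ?_⟩
  · intro f hf
    rw [hSm, hSf f]
    exact (hcu f hf).2.2.2.trans (by linarith)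
  · rw [hSm]
    exact hchn

end Pool.Agent.FPS
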