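import Pool.Agent.FPS.Targets1
import Pool.Agent.FPS.Targets2
import Pool.Agent.FPS.Targets3
import Pool.Agent.FPS.Targets5
import Pool.Agent.FPS.P_RLS

set_option autoImplicit false

/-!
# FPS: CDB, Fact D, the stage between the second decomposition and the slots
-/

open scoped Classical
open MeasureTheory Pool.Agent.FPZ

noncomputable section

namespace Pool.Agent.FPS

namespace CDB_

/-- composition with a continuous map -/
def cm {K A : Type} [TopologicalSpace K] [CompactSpace K] [CStarAlgebra A]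
    (ι : C(K, ℂ) →⋆ₐ[ℂ] A) (c : C(K, K)) : C(K, ℂ) →⋆ₐ[ℂ] A :=
  ι.comp (ContinuousMap.compStarAlgHom' ℂ ℂ c)

lemma cm_apply {K A : Type} [TopologicalSpace K] [CompactSpace K] [CStarAlgebra A]
    (ι : C(K, ℂ) →⋆ₐ[ℂ] A) (c : C(K, K)) (f : C(K, ℂ)) : cm ι c f = ι (f.comp c) := rfl

/-- the steps of the first chain -/
lemma step {K A : Type} [TopologicalSpace K] [CompactSpace K] [CStarAlgebra A]
    (ι : C(K, ℂ) →⋆ₐ[ℂ] A) (k₀ : K) (e : A) (he : ‖e‖ ≤ 1) (c c' : C(K, K)) (f : C(K, ℂ))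
    {ε : ℝ} (hε : 0 ≤ ε) (h : ∀ x, ‖f (c x) - f (c' x)‖ ≤ ε) :
    ‖cmp k₀ e (fun f => ι (f.comp c)) f - cmp k₀ e (fun f => ι (f.comp c')) f‖ ≤ ε := by
  have e1 : cmp k₀ e (fun f => ι (f.comp c)) f - cmp k₀ e (fun f => ι (f.comp c')) f =
      e * ι (f.comp c - f.comp c') * e := by
    unfold cmp
    rw [map_sub, mul_sub, sub_mul]
    abel
  have h1 : ‖ι (f.comp c - f.comp c')‖ ≤ ε := by
    refine (RLS_.norm_L ι _).trans ?_
    rw [ContinuousMap.norm_le _ hε]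
    exact h
  rw [e1]
  calc ‖e * ι (f.comp c - f.comp c') * e‖ ≤ ‖e‖ * ‖ι (f.comp c - f.comp c')‖ * ‖e‖ :=
        (norm_mul_le _ _).trans (mul_le_mul_of_nonneg_right (norm_mul_le _ _) (norm_nonneg _))
    _ ≤ 1 * ε * 1 := by gcongr
    _ = ε := by ring

end CDB_

open RLS_ in
theorem p_CDB (hSLH : T_SLH) (hCU2 : T_CU2) (hCHE : T_CHE) (hCAH : T_CAH) (hCDR : T_CDR)
    (hRLC : T_RLC) (hTRN : T_TRN) (hREV : T_REV) : T_CDB := by
  intro K A _ _ _ _ _ _ μ _ k₀ c φ ι H F δ ε c₀ mh m₂ ci hR hint hFH hδ hε hc₀ hc₀1 hci0 hcim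
    hstep hpt
  -- constants
  obtain ⟨B, hB1, hB⟩ : ∃ B : ℝ, 1 ≤ B ∧ ∀ f ∈ H, ‖f‖ ≤ B := by
    refine ⟨1 + ∑ f ∈ H, ‖f‖, ?_, ?_⟩
    · have : 0 ≤ ∑ f ∈ H, ‖f‖ := Finset.sum_nonneg fun f _ => norm_nonneg f
      linarith
    · intro f hf
      have := Finset.single_le_sum (f := fun f : C(K, ℂ) => ‖f‖) (fun g _ => norm_nonneg g) hf
      linarith
  have hB0 : 0 < B + 1 := by linarith
  obtain ⟨ε₁, hε₁, hε₁ε, hε₁δ⟩ : ∃ ε₁ : ℝ, 0 < ε₁ ∧ 16 * ε₁ ≤ ε ∧ 16 * (ε₁ * (B + 1)) ≤ δ := by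
    refine ⟨min ε (δ / (B + 1)) / 16, ?_, ?_, ?_⟩
    · have : 0 < min ε (δ / (B + 1)) := lt_min hε (div_pos hδ hB0)
      linarith
    · have := min_le_left ε (δ / (B + 1))
      linarith
    · have h1 := min_le_right ε (δ / (B + 1))
      rw [le_div_iff₀ hB0] at h1
      linarith
  refine ⟨H, ε₁, hε₁, ?_⟩
  intro K' z' g' Q' hAD
  obtain ⟨hrng, hdis', hosc', hada, ⟨hQ'p, hQ'o, hQ'd⟩, hcom', htra'⟩ := hAD
  obtain ⟨δc, hδc, hcdr⟩ := hCDR K' B ε₁ (by linarith) hε₁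
  obtain ⟨Hb, hHb⟩ : ∃ Hb : Finset C(K, ℂ), Hb = H ∪
      ((Finset.range (mh + 1) ×ˢ H).image fun q => q.2.comp (ci q.1)) ∪
      (Finset.univ.image fun k => (toC (g' k)).comp c) := ⟨_, rfl⟩
  have hHHb : ∀ f ∈ H, f ∈ Hb := by
    intro f hf
    rw [hHb]
    exact Finset.mem_union_left _ (Finset.mem_union_left _ hf)
  have hciHb : ∀ f ∈ H, ∀ i ≤ mh, f.comp (ci i) ∈ Hb := by
    intro f hf i hi
    rw [hHb]
    refine Finset.mem_union_left _ (Finset.mem_union_right _ ?_)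
    refine Finset.mem_image.2 ⟨(i, f), ?_, rfl⟩
    exact Finset.mem_product.2 ⟨Finset.mem_range.2 (by omega), hf⟩
  have hgHb : ∀ k, (toC (g' k)).comp c ∈ Hb := by
    intro k
    rw [hHb]
    exact Finset.mem_union_right _ (Finset.mem_image_of_mem _ (Finset.mem_univ k))
  obtain ⟨ε₂, hε₂, h21, h2c⟩ : ∃ ε₂ : ℝ, 0 < ε₂ ∧ 4 * ε₂ ≤ ε₁ ∧ 4 * ε₂ ≤ δc := by
    refine ⟨min ε₁ δc / 4, ?_, ?_, ?_⟩
    · have := lt_min hε₁ hδc
      linarith
    · have := min_le_left ε₁ δc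
      linarith
    · have := min_le_right ε₁ δc
      linarith
  obtain ⟨ρ, hρ, hmod⟩ := modulus Hb hε₂
  have hK' : (0 : ℝ) < 4 * ((K' : ℝ) + 1) := by positivity
  refine ⟨ρ, c₀ / (4 * ((K' : ℝ) + 1)), hρ, div_pos hc₀ hK', ?_⟩
  intro K₀ z g g'' n p hg hdis hdist hp hn hsum
  -- the slots
  have hn' : ∀ k, 0 < n k → n k * (φ p).re < (φ (ι (toC (g k)))).re := by
    intro k hk
    have h1 := hn k hk
    have h3 : ∫ x, (toC (g k)) x ∂μ = ((∫ x, g k x ∂μ : ℝ) : ℂ) :=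
      integral_complex_ofReal (f := fun x => g k x)
    rw [hint, h3, Complex.ofReal_re]
    exact h1
  obtain ⟨v, hv, hLv⟩ := hSLH K A φ ι K₀ g g'' n p hR hp hg hdis hn'
  obtain ⟨Q, hQ⟩ : ∃ Q : Fin K₀ → A, Q = fun k => ∑ i, v ⟨k, i⟩ * star (v ⟨k, i⟩) := ⟨_, rfl⟩
  have hQp : ∀ k, IsStarProjection (Q k) := by
    intro k
    have h1 : PI p (fun i : Fin (n k) => v ⟨k, i⟩) := by
      refine ⟨fun a => hv.1 _, fun a b hab => hv.2 _ _ ?_⟩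
      intro h2
      exact hab (eq_of_heq (Sigma.mk.inj h2).2)
    have h2 := AMP_.Q_proj hp h1
    rw [hQ]
    exact h2
  have hLQ : ∀ k, ι (toC (g'' k)) * Q k = Q k := by
    intro k
    rw [hQ]
    simp only
    rw [Finset.mul_sum]
    refine Finset.sum_congr rfl fun i _ => ?_
    rw [← mul_assoc, hLv ⟨k, i⟩]
  have hSm : ∑ s, v s * star (v s) = ∑ k, Q k := by
    rw [Fintype.sum_sigma, hQ]
  have hSf : ∀ f : C(K, ℂ), ∑ s, f (z s.1) • (v s * star (v s)) = ∑ k, f (z k) • Q k := by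
    intro f
    rw [Fintype.sum_sigma, hQ]
    refine Finset.sum_congr rfl fun k _ => ?_
    rw [Finset.smul_sum]
  have hosc : ∀ f ∈ Hb, ∀ k x, g'' k x ≠ 0 → ‖f x - f (z k)‖ ≤ ε₂ := fun f hf k x hx =>
    hmod f hf x (z k) (hdist k x hx)
  have hg01 : ∀ k x, 0 ≤ g'' k x ∧ g'' k x ≤ 1 := fun k x => ⟨(hg k x).2.2.1, (hg k x).2.2.2.1⟩
  have hcu : ∀ f ∈ Hb, (∀ k l, k ≠ l → Q k * Q l = 0) ∧
      ‖ι f * (∑ k, Q k) - ∑ k, f (z k) • Q k‖ ≤ ε₂ ∧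
      ‖ι f * (1 - ∑ k, Q k) - (1 - ∑ k, Q k) * ι f‖ ≤ 2 * ε₂ ∧
      ‖ι f - ((1 - ∑ k, Q k) * ι f * (1 - ∑ k, Q k) + ∑ k, f (z k) • Q k)‖ ≤ 2 * ε₂ :=
    fun f hf => hCU2 K A ι K₀ g'' z Q f ε₂ hg01 hdis hQp hLQ hε₂.le (hosc f hf)
  have hQo : ∀ k l, k ≠ l → Q k * Q l = 0 := by
    intro k l hkl
    exact (hCU2 K A ι K₀ g'' z Q 0 0 hg01 hdis hQp hLQ le_rfl (by
      intro k x _
      simp)).1 k l hkl
  have hep : IsStarProjection (1 - ∑ k, Q k) := compl_proj (sum_proj Q hQp hQo)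
  have hEp : IsStarProjection (1 - ∑ j, Q' j) := compl_proj (sum_proj Q' hQ'p hQ'o)
  have hen : ‖(1 - ∑ k, Q k : A)‖ ≤ 1 := AMP_.norm_proj hep
  -- the trace of the complement
  have hφe : (φ (1 - ∑ k, Q k)).re < c₀ / (4 * ((K' : ℝ) + 1)) := by
    rw [← hSm, map_sub, hR.ts.one, map_sum, Fintype.sum_sigma]
    have h1 : ∀ k : Fin K₀, ∑ i : Fin (n k), φ (v ⟨k, i⟩ * star (v ⟨k, i⟩)) = n k * φ p := by
      intro k
      have h2 : ∀ i : Fin (n k), φ (v ⟨k, i⟩ * star (v ⟨k, i⟩)) = φ p := by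
        intro i
        rw [hR.ts.tr, hv.1]
      rw [Finset.sum_congr rfl fun i _ => h2 i, Finset.sum_const, Finset.card_univ,
        Fintype.card_fin, nsmul_eq_mul]
    rw [Finset.sum_congr rfl fun k _ => h1 k, Complex.sub_re, Complex.one_re, Complex.re_sum]
    have h3 : ∀ k : Fin K₀, ((n k : ℂ) * φ p).re = n k * (φ p).re := by
      intro k
      simp
    rw [Finset.sum_congr rfl fun k _ => h3 k]
    exact hsum
  have hφe4 : (φ (1 - ∑ k, Q k)).re < c₀ / 4 := by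
    refine hφe.trans_le (div_le_div_of_nonneg_left hc₀.le (by norm_num) ?_)
    have : (0 : ℝ) ≤ K' := Nat.cast_nonneg K'
    linarith
  -- the first chain
  have hBn : 0 ≤ B := by linarith
  have hnorm : ∀ i, ∀ f ∈ H, ‖ι (f.comp (ci i))‖ ≤ B := by
    intro i f hf
    refine (norm_L ι _).trans (le_trans ?_ (hB f hf))
    rw [ContinuousMap.norm_le _ (norm_nonneg f)]
    exact fun x => f.norm_coe_le_norm (ci i x)
  have hle : 0 + B * (2 * ε₁) ≤ δ := by nlinarith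
  have hAH : ∀ i ≤ mh, AH H δ (cmp k₀ (1 - ∑ k, Q k) (fun f => ι (f.comp (ci i)))) ∧
      Spt k₀ (1 - ∑ k, Q k) (cmp k₀ (1 - ∑ k, Q k) (fun f => ι (f.comp (ci i)))) := by
    intro i hi
    have h1 := hCAH K A k₀ (1 - ∑ k, Q k) H 0 (2 * ε₁) B (fun f => ι (f.comp (ci i))) hep
      (ah_hom H (CDB_.cm ι (ci i))) (fun f hf => ⟨hnorm i f hf,
        ((hcu _ (hciHb f hf i hi)).2.2.1).trans (by linarith)⟩) hBn
    exact ⟨ah_mono h1.1 hle, h1.2⟩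
  have hchn1 := hCHE K A φ k₀ H δ F ε (c₀ / 4) mh (1 - ∑ k, Q k)
    (fun i => cmp k₀ (1 - ∑ k, Q k) (fun f => ι (f.comp (ci i)))) hep hφe4 hAH
    (fun i hi f hf => CDB_.step ι k₀ _ hen (ci i) (ci (i + 1)) f hε.le (hstep f hf i hi))
  simp only [hci0, hcim, ContinuousMap.comp_id] at hchn1
  -- the relation
  have hcH : ∀ f ∈ H, f.comp c ∈ Hb := fun f hf => by
    have := hciHb f hf mh le_rfl
    rwa [hcim] at this
  have hLH : ∀ f ∈ H, ‖ι (f.comp c)‖ ≤ B ∧ ∀ x, ‖f x‖ ≤ B := fun f hf => by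
    have := hnorm mh f hf
    rw [hcim] at this
    exact ⟨this, fun x => (f.norm_coe_le_norm x).trans (hB f hf)⟩
  have hg'n : ∀ k, ‖(toC (g' k)).comp c‖ ≤ 1 := by
    intro k
    rw [ContinuousMap.norm_le _ zero_le_one]
    intro x
    show ‖((g' k (c x) : ℝ) : ℂ)‖ ≤ 1
    rw [Complex.norm_real, Real.norm_of_nonneg (hrng k _).1]
    exact (hrng k _).2
  have hne : ∀ k x, toC (g' k) x ≠ 0 → g' k x ≠ 0 := by
    intro k x h1 h2
    apply h1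
    show ((g' k x : ℝ) : ℂ) = 0
    rw [h2, Complex.ofReal_zero]
  have hrel : Rel φ H (ε₁ + ε₁ + ε₁) (c₀ / 2) (1 - ∑ k, Q' k) (fun f => ι (f.comp c))
      (1 - ∑ k, Q k) (fun f => ι (f.comp c)) := by
    refine hcdr K A φ hR (fun f => ι (f.comp c)) H z' (fun k => toC (g' k)) Q' K₀ Q
      (fun k => c (z k)) ε₁ ε₁ (c₀ / 2)
      hε₁.le hε₁.le hQ'p hQ'o hQp hQo ?_ hLH ?_ ?_ ?_ ?_ ?_ ?_
    · intro k
      refine ⟨(norm_L ι _).trans (hg'n k), ?_⟩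
      show ‖ι ((toC (g' k)).comp c) * Q' k - Q' k‖ ≤ δc
      have h1 : ι ((toC (g' k)).comp c) * Q' k = Q' k := hada k
      rw [h1, sub_self, norm_zero]
      exact hδc.le
    · exact fun f hf => ((hcu _ (hcH f hf)).2.2.2).trans (by linarith)
    · exact fun k => ((hcu _ (hgHb k)).2.2.2).trans (by linarith)
    · intro k l x hkl hx
      show ((g' l x : ℝ) : ℂ) = 0
      rw [hdis' k l x hkl (hne k x hx), Complex.ofReal_zero]
    · exact fun f hf k x hx => hosc' f hf k x (hne k x hx)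
    · exact fun f hf => hQ'd f hf
    · have h1 : (K' : ℝ) * (φ (1 - ∑ k, Q k)).re ≤ c₀ / 4 := by
        have h2 : (K' : ℝ) * (φ (1 - ∑ k, Q k)).re ≤ K' * (c₀ / (4 * ((K' : ℝ) + 1))) :=
          mul_le_mul_of_nonneg_left hφe.le (Nat.cast_nonneg K')
        have h3 : (K' : ℝ) * (c₀ / (4 * ((K' : ℝ) + 1))) ≤ c₀ / 4 := by
          rw [mul_div_assoc', div_le_div_iff₀ hK' (by norm_num)]
          nlinarith [(Nat.cast_nonneg K' : (0 : ℝ) ≤ K')]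
        exact h2.trans h3
      linarith
  -- the second chain
  have hAHe : AH H δ (cmp k₀ (1 - ∑ k, Q k) (fun f => ι (f.comp c))) ∧
      Spt k₀ (1 - ∑ k, Q k) (cmp k₀ (1 - ∑ k, Q k) (fun f => ι (f.comp c))) := by
    have := hAH mh le_rfl
    rwa [hcim] at this
  have hAHE : AH H δ (cmp k₀ (1 - ∑ k, Q' k) (fun f => ι (f.comp c))) :=
    ah_mono (hCAH K A k₀ (1 - ∑ k, Q' k) H 0 (2 * ε₁) B (fun f => ι (f.comp c)) hEp
      (ah_hom H (CDB_.cm ι c)) (fun f hf => ⟨(hLH f hf).1,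
        (hcom' f hf).trans (by linarith)⟩) hBn).1 hle
  have hchn2 := hRLC K A φ k₀ H F H δ ε (c₀ / 2) m₂ (1 - ∑ k, Q' k) (1 - ∑ k, Q k)
    (fun f => ι (f.comp c)) (fun f => ι (f.comp c)) hR hEp hep hδ.le hε.le
    (rel_mono hrel (by linarith)) hAHE hAHe.1 (Finset.Subset.refl H) hFH hpt (by linarith)
  have hchn3 := (hREV K A φ k₀ H δ F ε (c₀ / 2) (2 * m₂ + 1) _ _ _ _ hε.le hchn2).1
  have hchn4 := hTRN K A φ k₀ H δ F ε (c₀ / 4) (c₀ / 2) mh (2 * m₂ + 1) _ _ _ _ _ _ hR hep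
    hAHe.2 (by linarith) hchn1 hchn3
  have hchn5 := (hREV K A φ k₀ H δ F ε _ _ _ _ _ _ hε.le hchn4).2 c₀ (mh + (2 * m₂ + 1))
    (by linarith) le_rfl
  refine ⟨v, hv, ?_, ?_⟩
  · intro f hf
    rw [hSm, hSf f]
    exact (hcu f (hHHb f hf)).2.2.2.trans (by linarith)
  · rw [hSm]
    exact hchn5

end Pool.Agent.FPS
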