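import Pool.Agent.FPS.Targets1
import Pool.Agent.FPZ.Targets1

set_option autoImplicit false

/-!
# FPS CDP: a subprojection of `Q` which is almost orthogonal to `E`
-/

open scoped Classical
open MeasureTheory Pool.Agent.FPZ

noncomputable section

namespace Pool.Agent.FPS

namespace CDP_

/-- a projection is a contraction -/
lemma proj_norm {A : Type} [CStarAlgebra A] {p : A} (hp : IsStarProjection p) : ‖p‖ ≤ 1 := by
  have h1 : star p * p = p := by
    rw [hp.isSelfAdjoint.star_eq]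
    exact hp.isIdempotentElem
  have h2 : ‖p‖ * ‖p‖ = ‖p‖ := by
    rw [← CStarRing.norm_star_mul_self, h1]
  nlinarith [norm_nonneg p]

end CDP_

open CDP_ in
theorem p_CDP (h_PQN : T_PQN) (h_QCA : T_QCA) (h_TSB : T_TSB) : T_CDP := by
  intro A _ φ hR Q E lam δ hQ hE hlam hδ
  rcases lt_or_ge lam 0 with h0 | h0
  · refine ⟨0, IsStarProjection.zero A, by simp, by simpa using h0, ?_⟩
    simpa using hδ.le
  obtain ⟨h1, -, -, h3, -⟩ := h_TSB A φ hR.ts
  have hQ1 := (h1 Q hQ).2.1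
  have hE0 := (h1 E hE).1
  obtain ⟨T₀, hT⟩ : ∃ T₀ : ℝ, T₀ = (φ Q).re - (φ E).re := ⟨_, rfl⟩
  have hT1 : T₀ ≤ 1 := by linarith
  rw [← hT] at hlam
  -- a projection with trace between `lam` and `lam₂`
  obtain ⟨X, Y, P₀, -, -, -, -, -, hP, hP1, hP2⟩ := hR.ric ∅ 1 lam ((lam + T₀) / 2) one_pos h0
    (by linarith) (by linarith)
  obtain ⟨C, hC, hC'⟩ := h_QCA ((lam + T₀) / 2) T₀ (by linarith) (by linarith) hT1
  obtain ⟨n, hn⟩ := exists_nat_gt (C ^ 2 / δ ^ 2)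
  have hn0 : (0 : ℝ) < n := lt_of_le_of_lt (by positivity) hn
  have hn1 : 1 ≤ n := by
    have : 0 < n := by exact_mod_cast hn0
    omega
  have hn2 : C ^ 2 < n * δ ^ 2 := by
    rwa [div_lt_iff₀ (by positivity)] at hn
  obtain ⟨g1, g2, g3, -, g5, g6⟩ := h_PQN A φ Q E n hR.ts hQ hE hn1
  obtain ⟨f, hf⟩ : ∃ f : A, f = (Q * (1 - E) * Q) ^ n := ⟨_, rfl⟩
  rw [← hf] at g1 g2 g3 g5 g6
  obtain ⟨x, hx1, hx2⟩ := hC' A φ hR f P₀ g1 g2 (by linarith) hP hP2
  obtain ⟨k1, k2⟩ := h3 P₀ (f * x) hP hx2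
  refine ⟨f * x * star (f * x), k1, ?_, ?_, ?_⟩
  · rw [← mul_assoc, ← mul_assoc, g3]
  · rw [k2]
    exact hP1
  · have h4 : ‖f * x‖ ≤ 1 := by
      have h5 : ‖f * x‖ * ‖f * x‖ ≤ 1 := by
        rw [← CStarRing.norm_star_mul_self, hx2]
        exact proj_norm hP
      nlinarith [norm_nonneg (f * x)]
    have h6 : ‖E * (f * x * star (f * x))‖ ≤ ‖E * f‖ * C := by
      have h7 : E * (f * x * star (f * x)) = (E * f) * x * star (f * x) := by
        simp only [mul_assoc]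
      rw [h7]
      calc ‖(E * f) * x * star (f * x)‖ ≤ ‖(E * f) * x‖ * ‖star (f * x)‖ := norm_mul_le _ _
        _ ≤ ‖(E * f) * x‖ * 1 := by
            rw [norm_star]
            exact mul_le_mul_of_nonneg_left h4 (norm_nonneg _)
        _ ≤ ‖E * f‖ * ‖x‖ := by
            rw [mul_one]
            exact norm_mul_le _ _
        _ ≤ ‖E * f‖ * C := mul_le_mul_of_nonneg_left hx1 (norm_nonneg _)
    refine h6.trans ?_
    have h8 : (‖E * f‖ * C) ^ 2 ≤ δ ^ 2 := by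
      rw [mul_pow]
      have h9 : ‖E * f‖ ^ 2 * (2 * n + 1) ≤ 1 := by
        rwa [le_div_iff₀ (by positivity)] at g5
      have h10 : ‖E * f‖ ^ 2 * C ^ 2 ≤ ‖E * f‖ ^ 2 * (n * δ ^ 2) :=
        mul_le_mul_of_nonneg_left hn2.le (by positivity)
      have h11 : ‖E * f‖ ^ 2 * n ≤ 1 := by
        nlinarith [sq_nonneg ‖E * f‖]
      have h12 : ‖E * f‖ ^ 2 * (n * δ ^ 2) ≤ 1 * δ ^ 2 := by
        rw [← mul_assoc]
        exact mul_le_mul_of_nonneg_right h11 (by positivity)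
      linarith
    exact le_of_sq_le_sq h8 hδ.le

end Pool.Agent.FPS
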