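import Pool.Agent.FPS.Targets1
import Pool.Agent.FPS.Targets2
import Pool.Agent.FPZ.Targets2
import Pool.Agent.FPZ.P_DGN
import Pool.Agent.FPZ.P_TSB

set_option autoImplicit false

/-!
# FPS, target CDR: comparison of two decompositions
-/

open scoped Classical
open MeasureTheory Pool.Agent.FPZ

noncomputable section

namespace Pool.Agent.FPS

namespace CDR_

theorem norm_le_one {A : Type} [CStarAlgebra A] {v R : A} (hR : IsStarProjection R)
    (hv : star v * v = R) : ‖v‖ ≤ 1 := by
  have h1 : ‖v‖ * ‖v‖ = ‖R‖ := by rw [← CStarRing.norm_star_mul_self, hv]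
  have h5 : ‖R‖ ≤ 1 := hR.norm_le
  nlinarith [norm_nonneg v]

/-- an almost subprojection -/
theorem one (hPLE : T_PLE) {A : Type} [CStarAlgebra A] {P r : A} {η : ℝ}
    (hP : IsStarProjection P) (hr : IsStarProjection r) (h : ‖P - r * P‖ ≤ η)
    (hη : η ≤ 1 / 4) : ∃ V : A, star V * V = P ∧ r * V = V ∧ ‖V - P‖ ≤ 3 * η := by
  have hPs : star P = P := hP.isSelfAdjoint
  have hPP : P * P = P := hP.isIdempotentElem
  have hrs : star r = r := hr.isSelfAdjoint
  have hrr : r * r = r := hr.isIdempotentElem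
  have hη0 : 0 ≤ η := (norm_nonneg _).trans h
  have h1 : star (r * P) * (r * P) = P * (r * P) := by
    rw [star_mul, hPs, hrs]
    calc P * r * (r * P) = P * ((r * r) * P) := by simp only [mul_assoc]
      _ = P * (r * P) := by rw [hrr]
  have h2 : ‖star (r * P) * (r * P) - P‖ ≤ η := by
    have h3 : star (r * P) * (r * P) - P = -(P * (P - r * P)) := by
      rw [h1, mul_sub, hPP]
      abel
    rw [h3, norm_neg]
    calc ‖P * (P - r * P)‖ ≤ ‖P‖ * ‖P - r * P‖ := norm_mul_le _ _
      _ ≤ 1 * η := mul_le_mul hP.norm_le h (norm_nonneg _) zero_le_one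
      _ = η := one_mul η
  obtain ⟨x, hx1, -, hx3, -⟩ := hPLE A P (r * P) η hP (by rw [mul_assoc, hPP]) h2 hη
  refine ⟨r * P * x, hx3, ?_, ?_⟩
  · rw [← mul_assoc, ← mul_assoc, hrr]
  · have h4 : r * P * x - P = r * P * (x - 1) + -(P - r * P) := by
      rw [mul_sub, mul_one]
      abel
    have h5 : ‖r * P‖ ≤ 1 := by
      calc ‖r * P‖ ≤ ‖r‖ * ‖P‖ := norm_mul_le _ _
        _ ≤ 1 * 1 := mul_le_mul hr.norm_le hP.norm_le (norm_nonneg _) zero_le_one
        _ = 1 := one_mul 1
    rw [h4]
    calc ‖r * P * (x - 1) + -(P - r * P)‖ ≤ ‖r * P * (x - 1)‖ + ‖-(P - r * P)‖ :=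
          norm_add_le _ _
      _ ≤ 1 * (2 * η) + η := by
          rw [norm_neg]
          refine add_le_add ?_ h
          exact (norm_mul_le _ _).trans (mul_le_mul h5 hx1 (norm_nonneg _) zero_le_one)
      _ = 3 * η := by ring

/-- a unitary near `1` which extends an isometry near a projection -/
theorem uni (hPLE : T_PLE) {A : Type} [CStarAlgebra A] {φ : A →L[ℂ] ℂ} (hφ : TS φ) {P V : A}
    {κ : ℝ} (hP : IsStarProjection P) (hV : star V * V = P) (h : ‖V - P‖ ≤ κ)
    (hκ : κ ≤ 1 / 8) : ∃ y : A, Uni y ∧ y * P = V ∧ ‖y - 1‖ ≤ 7 * κ ∧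
      y * (1 - P) = (1 - V * star V) * y := by
  have hPs : star P = P := hP.isSelfAdjoint
  have hPP : P * P = P := hP.isIdempotentElem
  have hκ0 : 0 ≤ κ := (norm_nonneg _).trans h
  have hV1 : ‖V‖ ≤ 1 := norm_le_one hP hV
  have hVP : V * P = V := DGN_.mul_proj hP hV
  have hF : IsStarProjection (V * star V) := DGN_.range_proj hP hV
  set F : A := V * star V with hFdef
  have hFs : star F = F := hF.isSelfAdjoint
  have hFF : F * F = F := hF.isIdempotentElem
  have hFV : F * V = V := by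
    rw [hFdef, mul_assoc, hV, hVP]
  have hFP : ‖F - P‖ ≤ 2 * κ := by
    have h1 : F - P = V * star (V - P) + (V - P) * P := by
      rw [star_sub, hPs, mul_sub, sub_mul, hPP, hVP]
      abel
    rw [h1]
    calc ‖V * star (V - P) + (V - P) * P‖ ≤ ‖V * star (V - P)‖ + ‖(V - P) * P‖ :=
          norm_add_le _ _
      _ ≤ 1 * κ + κ * 1 := by
          refine add_le_add ?_ ?_
          · refine (norm_mul_le _ _).trans (mul_le_mul hV1 ?_ (norm_nonneg _) zero_le_one)
            rwa [norm_star]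
          · exact (norm_mul_le _ _).trans (mul_le_mul h hP.norm_le (norm_nonneg _) hκ0)
      _ = 2 * κ := by ring
  have hP' : IsStarProjection (1 - P) := hP.one_sub
  have hF' : IsStarProjection (1 - F) := hF.one_sub
  have hP's : star (1 - P) = 1 - P := hP'.isSelfAdjoint
  have hP'P' : (1 - P) * (1 - P) = 1 - P := hP'.isIdempotentElem
  have hF's : star (1 - F) = 1 - F := hF'.isSelfAdjoint
  have hF'F' : (1 - F) * (1 - F) = 1 - F := hF'.isIdempotentElem
  have h2 : (1 - F) * (1 - P) - (1 - P) = -((F - P) * (1 - P)) := by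
    have : (F - P) * (1 - P) = F * (1 - P) := by
      rw [sub_mul, mul_sub P, mul_one, hPP, sub_self, sub_zero]
    rw [this, sub_mul, one_mul]
    abel
  have h3 : ‖(1 - F) * (1 - P) - (1 - P)‖ ≤ 2 * κ := by
    rw [h2, norm_neg]
    calc ‖(F - P) * (1 - P)‖ ≤ ‖F - P‖ * ‖1 - P‖ := norm_mul_le _ _
      _ ≤ 2 * κ * 1 := mul_le_mul hFP hP'.norm_le (norm_nonneg _) (by linarith)
      _ = 2 * κ := mul_one _
  have h4 : star ((1 - F) * (1 - P)) * ((1 - F) * (1 - P)) = (1 - P) * ((1 - F) * (1 - P)) := by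
    rw [star_mul, hP's, hF's]
    calc (1 - P) * (1 - F) * ((1 - F) * (1 - P)) = (1 - P) * (((1 - F) * (1 - F)) * (1 - P)) := by
          simp only [mul_assoc]
      _ = _ := by rw [hF'F']
  have h5 : ‖star ((1 - F) * (1 - P)) * ((1 - F) * (1 - P)) - (1 - P)‖ ≤ 2 * κ := by
    have h6 : star ((1 - F) * (1 - P)) * ((1 - F) * (1 - P)) - (1 - P) =
        (1 - P) * ((1 - F) * (1 - P) - (1 - P)) := by
      rw [h4, mul_sub (1 - P) ((1 - F) * (1 - P)) (1 - P), hP'P']
    rw [h6]
    calc ‖(1 - P) * ((1 - F) * (1 - P) - (1 - P))‖ ≤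
          ‖1 - P‖ * ‖(1 - F) * (1 - P) - (1 - P)‖ := norm_mul_le _ _
      _ ≤ 1 * (2 * κ) := mul_le_mul hP'.norm_le h3 (norm_nonneg _) zero_le_one
      _ = 2 * κ := one_mul _
  obtain ⟨x, hx1, -, hx3, hx4⟩ := hPLE A (1 - P) ((1 - F) * (1 - P)) (2 * κ) hP'
    (by rw [mul_assoc, hP'P']) h5 (by linarith)
  set W : A := (1 - F) * (1 - P) * x with hW
  have hFW : F * W = 0 := by
    rw [hW, ← mul_assoc, ← mul_assoc, mul_sub F, mul_one, hFF, sub_self, zero_mul, zero_mul]
  have hWP : W * P = 0 := by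
    rw [← hx4, mul_assoc, sub_mul 1 P P, one_mul, hPP, sub_self, mul_zero]
  have hVW : star V * W = 0 := by
    have h7 : star V = star V * F := by
      conv_lhs => rw [← hFV]
      rw [star_mul, hFs]
    rw [h7, mul_assoc, hFW, mul_zero]
  have hWV : star W * V = 0 := by
    have := congrArg star hVW
    rwa [star_mul, star_star, star_zero] at this
  have hyy : star (V + W) * (V + W) = 1 := by
    rw [star_add, add_mul, mul_add, mul_add, hV, hVW, hWV, hx3]
    abel
  have hp1 : IsStarProjection (1 : A) := IsStarProjection.one A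
  have hyp : IsStarProjection ((V + W) * star (V + W)) := DGN_.range_proj hp1 hyy
  have he : (V + W) * star (V + W) = 1 := by
    have h8 : IsStarProjection (1 - (V + W) * star (V + W)) := hyp.one_sub
    have h9 : φ (1 - (V + W) * star (V + W)) = 0 := by
      rw [map_sub, hφ.tr, hyy, sub_self]
    have h10 := hφ.fth (1 - (V + W) * star (V + W)) (by
      have ha : star (1 - (V + W) * star (V + W)) = 1 - (V + W) * star (V + W) :=
        h8.isSelfAdjoint
      have hb : (1 - (V + W) * star (V + W)) * (1 - (V + W) * star (V + W)) =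
        1 - (V + W) * star (V + W) := h8.isIdempotentElem
      rw [ha, hb, h9])
    exact (sub_eq_zero.1 h10).symm
  refine ⟨V + W, ⟨hyy, he⟩, ?_, ?_, ?_⟩
  · rw [add_mul, hVP, hWP, add_zero]
  · have h11 : V + W - 1 = (V - P) + ((1 - F) * (1 - P) * (x - 1) +
        ((1 - F) * (1 - P) - (1 - P))) := by
      rw [hW, mul_sub _ x 1, mul_one]
      abel
    have h12 : ‖(1 - F) * (1 - P)‖ ≤ 1 := by
      calc ‖(1 - F) * (1 - P)‖ ≤ ‖1 - F‖ * ‖1 - P‖ := norm_mul_le _ _
        _ ≤ 1 * 1 := mul_le_mul hF'.norm_le hP'.norm_le (norm_nonneg _) zero_le_one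
        _ = 1 := one_mul 1
    rw [h11]
    calc ‖(V - P) + ((1 - F) * (1 - P) * (x - 1) + ((1 - F) * (1 - P) - (1 - P)))‖
        ≤ ‖V - P‖ + (‖(1 - F) * (1 - P) * (x - 1)‖ + ‖(1 - F) * (1 - P) - (1 - P)‖) :=
          (norm_add_le _ _).trans (add_le_add le_rfl (norm_add_le _ _))
      _ ≤ κ + (1 * (2 * (2 * κ)) + 2 * κ) := by
          refine add_le_add h (add_le_add ?_ h3)
          exact (norm_mul_le _ _).trans (mul_le_mul h12 hx1 (norm_nonneg _) zero_le_one)
      _ = 7 * κ := by ring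
  · rw [mul_sub, mul_one, sub_mul, one_mul, add_mul, hVP, hWP, mul_add, hFV, hFW]

/-- at most one index is active -/
theorem pick {A : Type} [CStarAlgebra A] {m : ℕ} (G : Fin m → Prop) (u : Fin m → ℂ) (v : ℂ)
    (q : A) (hG : ∀ k l, G k → G l → k = l) :
    (∑ k, u k • (if G k then q else 0)) + v • (if ∀ k, ¬ G k then q else 0) =
      (if h : ∃ k, G k then u h.choose else v) • q := by
  by_cases h : ∃ k, G k
  · rw [dif_pos h, if_neg (by push Not; exact h), smul_zero, add_zero,
      Finset.sum_eq_single h.choose]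
    · rw [if_pos h.choose_spec]
    · intro l _ hl
      rw [if_neg (fun hGl => hl (hG _ _ hGl h.choose_spec)), smul_zero]
    · intro hn
      exact absurd (Finset.mem_univ _) hn
  · rw [dif_neg h]
    push Not at h
    rw [if_pos h, Finset.sum_eq_zero, zero_add]
    intro k _
    rw [if_neg (h k), smul_zero]

theorem pick_one {A : Type} [CStarAlgebra A] {m : ℕ} (G : Fin m → Prop)
    (q : A) (hG : ∀ k l, G k → G l → k = l) :
    (∑ k, (if G k then q else 0)) + (if ∀ k, ¬ G k then q else 0) = q := by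
  have h := pick G (fun _ => 1) 1 q hG
  simp only [one_smul, dite_eq_ite, ite_self] at h
  exact h

section

variable {A : Type} [CStarAlgebra A] {K₀ J : ℕ}

/-- block projections -/
theorem block (q : Fin J → A) (hq : ∀ j, IsStarProjection (q j))
    (ho : ∀ i j, i ≠ j → q i * q j = 0) (S : Fin J → Prop) :
    IsStarProjection (∑ j, if S j then q j else 0) := by
  refine DGN_.sum_proj (fun j => if S j then q j else 0) ?_ ?_
  · intro j
    by_cases h : S j
    · simp only [h, if_true]
      exact hq j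
    · simp only [h, if_false]
      exact IsStarProjection.zero A
  · intro i j hij
    by_cases hi : S i
    · by_cases hj : S j
      · simp only [hi, hj, if_true]
        exact ho i j hij
      · simp only [hj, if_false, mul_zero]
    · simp only [hi, if_false, zero_mul]

theorem block_mul (q : Fin J → A) (hq : ∀ j, IsStarProjection (q j))
    (ho : ∀ i j, i ≠ j → q i * q j = 0) (S : Fin J → Prop) (j : Fin J) :
    (∑ j, if S j then q j else 0) * q j = if S j then q j else 0 := by
  rw [Finset.sum_mul, Finset.sum_eq_single j]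
  · by_cases h : S j
    · simp only [h, if_true]
      exact (hq j).isIdempotentElem
    · simp only [h, if_false, zero_mul]
  · intro i _ hij
    by_cases h : S i
    · simp only [h, if_true]
      exact ho i j hij
    · simp only [h, if_false, zero_mul]
  · intro h
    exact absurd (Finset.mem_univ _) h

theorem block_orth (q : Fin J → A) (hq : ∀ j, IsStarProjection (q j))
    (ho : ∀ i j, i ≠ j → q i * q j = 0) (S S' : Fin J → Prop)
    (hS : ∀ j, S j → ¬ S' j) :
    (∑ j, if S j then q j else 0) * (∑ j, if S' j then q j else 0) = 0 := by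
  rw [Finset.mul_sum]
  refine Finset.sum_eq_zero fun j _ => ?_
  by_cases h : S' j
  · rw [if_pos h, block_mul q hq ho, if_neg (fun h' => hS j h' h)]
  · rw [if_neg h, mul_zero]

theorem sub_proj {Q P : A} (hQ : IsStarProjection Q) (hP : IsStarProjection P)
    (h : Q * P = P) : IsStarProjection (Q - P) := by
  have hQs : star Q = Q := hQ.isSelfAdjoint
  have hPs : star P = P := hP.isSelfAdjoint
  have hQQ : Q * Q = Q := hQ.isIdempotentElem
  have hPP : P * P = P := hP.isIdempotentElem
  have h' : P * Q = P := by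
    have := congrArg star h
    rwa [star_mul, hQs, hPs] at this
  refine ⟨?_, ?_⟩
  · change (Q - P) * (Q - P) = Q - P
    rw [sub_mul, mul_sub, mul_sub, hQQ, h, h', hPP]
    abel
  · change star (Q - P) = Q - P
    rw [star_sub, hQs, hPs]

theorem sub_orth {Q P Q' P' : A} (hQ : IsStarProjection Q) (hP : IsStarProjection P)
    (h : Q * P = P) (h' : Q' * P' = P') (ho : Q * Q' = 0) : (Q - P) * (Q' - P') = 0 := by
  have hQs : star Q = Q := hQ.isSelfAdjoint
  have hPs : star P = P := hP.isSelfAdjoint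
  have h1 : P * Q = P := by
    have := congrArg star h
    rwa [star_mul, hQs, hPs] at this
  have h2 : P * Q' = 0 := by rw [← h1, mul_assoc, ho, mul_zero]
  have h3 : Q * P' = 0 := by rw [← h', ← mul_assoc, ho, zero_mul]
  have h4 : P * P' = 0 := by rw [← h', ← mul_assoc, h2, zero_mul]
  rw [sub_mul, mul_sub, mul_sub, ho, h2, h3, h4]
  simp

end

/-- the cut projections are almost below the blocks -/
theorem cut {A : Type} [CStarAlgebra A] {Lg Q P E' D r : A} {δ : ℝ} (hδ : 0 ≤ δ)
    (hP : IsStarProjection P) (hE : IsStarProjection E') (hr : IsStarProjection r)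
    (hQP : Q * P = P) (h1 : ‖Lg‖ ≤ 1) (h2 : ‖Lg * Q - Q‖ ≤ δ)
    (h3 : ‖Lg - (E' * Lg * E' + D)‖ ≤ δ) (h4 : ‖E' * P‖ ≤ δ) (h5 : (1 - r) * D = 0) :
    ‖P - r * P‖ ≤ 3 * δ := by
  have hP1 : ‖P‖ ≤ 1 := hP.norm_le
  have hE1 : ‖E'‖ ≤ 1 := hE.norm_le
  have hr1 : ‖1 - r‖ ≤ 1 := hr.one_sub.norm_le
  have e1 : P - Lg * P = -((Lg * Q - Q) * P) := by
    rw [sub_mul, mul_assoc, hQP]
    abel
  have e2 : P - r * P = (1 - r) * (P - Lg * P) + (1 - r) * ((Lg - (E' * Lg * E' + D)) * P) +
      (1 - r) * (E' * Lg * (E' * P)) := by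
    have e3 : (1 - r) * (P - Lg * P) + (1 - r) * ((Lg - (E' * Lg * E' + D)) * P) +
      (1 - r) * (E' * Lg * (E' * P)) = P - r * P - (1 - r) * D * P := by noncomm_ring
    rw [e3, h5, zero_mul, sub_zero]
  have n1 : ‖(1 - r) * (P - Lg * P)‖ ≤ δ := by
    rw [e1]
    calc ‖(1 - r) * -((Lg * Q - Q) * P)‖ ≤ ‖1 - r‖ * ‖-((Lg * Q - Q) * P)‖ := norm_mul_le _ _
      _ ≤ 1 * (δ * 1) := by
          rw [norm_neg]
          refine mul_le_mul hr1 ?_ (norm_nonneg _) zero_le_one
          exact (norm_mul_le _ _).trans (mul_le_mul h2 hP1 (norm_nonneg _) hδ)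
      _ = δ := by ring
  have n2 : ‖(1 - r) * ((Lg - (E' * Lg * E' + D)) * P)‖ ≤ δ := by
    calc ‖(1 - r) * ((Lg - (E' * Lg * E' + D)) * P)‖ ≤
          ‖1 - r‖ * ‖(Lg - (E' * Lg * E' + D)) * P‖ := norm_mul_le _ _
      _ ≤ 1 * (δ * 1) := by
          refine mul_le_mul hr1 ?_ (norm_nonneg _) zero_le_one
          exact (norm_mul_le _ _).trans (mul_le_mul h3 hP1 (norm_nonneg _) hδ)
      _ = δ := by ring
  have n3 : ‖(1 - r) * (E' * Lg * (E' * P))‖ ≤ δ := by
    have n4 : ‖E' * Lg‖ ≤ 1 * 1 :=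
      (norm_mul_le _ _).trans (mul_le_mul hE1 h1 (norm_nonneg _) zero_le_one)
    calc ‖(1 - r) * (E' * Lg * (E' * P))‖ ≤ ‖1 - r‖ * ‖E' * Lg * (E' * P)‖ := norm_mul_le _ _
      _ ≤ 1 * (1 * 1 * δ) := by
          refine mul_le_mul hr1 ?_ (norm_nonneg _) zero_le_one
          exact (norm_mul_le _ _).trans (mul_le_mul n4 h4 (norm_nonneg _) (by norm_num))
      _ = δ := by ring
  rw [e2]
  calc ‖(1 - r) * (P - Lg * P) + (1 - r) * ((Lg - (E' * Lg * E' + D)) * P) +
      (1 - r) * (E' * Lg * (E' * P))‖ ≤ δ + δ + δ :=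
        (norm_add_le _ _).trans (add_le_add ((norm_add_le _ _).trans (add_le_add n1 n2)) n3)
    _ = 3 * δ := by ring

theorem conj_near {A : Type} [CStarAlgebra A] {y X : A} {κ B : ℝ} (hy : Uni y)
    (h : ‖y - 1‖ ≤ κ) (hX : ‖X‖ ≤ B) (hκ : 0 ≤ κ) (hB : 0 ≤ B) :
    ‖y * X * star y - X‖ ≤ 2 * κ * B := by
  have h1 : y * X * star y - X = (y - 1) * X * star y + X * star (y - 1) := by
    rw [star_sub, star_one]
    noncomm_ring
  have hp1 : IsStarProjection (1 : A) := IsStarProjection.one A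
  have h2 : ‖star y‖ ≤ 1 := by
    rw [norm_star]
    exact norm_le_one hp1 hy.1
  rw [h1]
  calc ‖(y - 1) * X * star y + X * star (y - 1)‖ ≤
      ‖(y - 1) * X * star y‖ + ‖X * star (y - 1)‖ := norm_add_le _ _
    _ ≤ κ * B * 1 + B * κ := by
        refine add_le_add ?_ ?_
        · refine (norm_mul_le _ _).trans (mul_le_mul ?_ h2 (norm_nonneg _) (by positivity))
          exact (norm_mul_le _ _).trans (mul_le_mul h hX (norm_nonneg _) hκ)
        · refine (norm_mul_le _ _).trans (mul_le_mul hX ?_ (norm_nonneg _) hB)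
          rwa [norm_star]
    _ = 2 * κ * B := by ring

theorem conj_le {A : Type} [CStarAlgebra A] {y X : A} (hy : Uni y) : ‖y * X * star y‖ ≤ ‖X‖ := by
  have hp1 : IsStarProjection (1 : A) := IsStarProjection.one A
  have h2 : ‖y‖ ≤ 1 := norm_le_one hp1 hy.1
  have h3 : ‖star y‖ ≤ 1 := by rwa [norm_star]
  calc ‖y * X * star y‖ ≤ ‖y‖ * ‖X‖ * ‖star y‖ :=
        (norm_mul_le _ _).trans (mul_le_mul_of_nonneg_right (norm_mul_le _ _) (norm_nonneg _))
    _ ≤ 1 * ‖X‖ * 1 := by
        refine mul_le_mul ?_ h3 (norm_nonneg _) (by positivity)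
        exact mul_le_mul_of_nonneg_right h2 (norm_nonneg _)
    _ = ‖X‖ := by ring

end CDR_

theorem p_CDR (hCDP : T_CDP) (hPLE : T_PLE) : T_CDR := by
  intro K₀ B ε₃ hB hε₃
  have hK0 : (0 : ℝ) ≤ K₀ := Nat.cast_nonneg K₀
  obtain ⟨δ, hδ, hδ1, hδ2⟩ : ∃ δ : ℝ, 0 < δ ∧ δ * (100 * (K₀ + 1)) ≤ 1 ∧
      δ * (1 + 126 * B * K₀) ≤ ε₃ := by
    have h1 : (0 : ℝ) < 100 * (K₀ + 1) := by positivity
    have h2 : (0 : ℝ) < 1 + 126 * B * K₀ := by positivity
    refine ⟨min (1 / (100 * (K₀ + 1))) (ε₃ / (1 + 126 * B * K₀)), by positivity, ?_, ?_⟩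
    · calc min (1 / (100 * ((K₀ : ℝ) + 1))) (ε₃ / (1 + 126 * B * K₀)) * (100 * (K₀ + 1)) ≤
            1 / (100 * (K₀ + 1)) * (100 * (K₀ + 1)) :=
            mul_le_mul_of_nonneg_right (min_le_left _ _) h1.le
        _ = 1 := by field_simp
    · calc min (1 / (100 * ((K₀ : ℝ) + 1))) (ε₃ / (1 + 126 * B * K₀)) * (1 + 126 * B * K₀) ≤
            ε₃ / (1 + 126 * B * K₀) * (1 + 126 * B * K₀) :=
            mul_le_mul_of_nonneg_right (min_le_right _ _) h2.le
        _ = ε₃ := by field_simp
  have hδ3 : 3 * δ ≤ 1 / 4 := by nlinarith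
  have hδ4 : 9 * K₀ * δ ≤ 1 / 8 := by nlinarith
  refine ⟨δ, hδ, ?_⟩
  intro K A _ _ φ hφ L G z g Q J q z' ε₁ δ₁ c hε₁ hδ₁ hQ hQo hq hqo hg hG hL hLg hdis hosc hLQ
    hc
  have hSq : IsStarProjection (∑ j, q j) := DGN_.sum_proj q hq hqo
  have hSQ : IsStarProjection (∑ k, Q k) := DGN_.sum_proj Q hQ hQo
  have hE' : IsStarProjection (1 - ∑ j, q j) := hSq.one_sub
  set E' : A := 1 - ∑ j, q j with hE'def
  set E : A := 1 - ∑ k, Q k with hEdef
  -- the extra room
  obtain ⟨δ', hδ', hroom⟩ : ∃ δ' : ℝ, 0 < δ' ∧ (φ E).re + K₀ * ((φ E').re + δ') < c := by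
    have hgap : 0 < c - ((φ E).re + K₀ * (φ E').re) := by linarith
    refine ⟨(c - ((φ E).re + K₀ * (φ E').re)) / (K₀ + 1), by positivity, ?_⟩
    have h1 : (K₀ : ℝ) * ((c - ((φ E).re + K₀ * (φ E').re)) / (K₀ + 1)) <
        c - ((φ E).re + K₀ * (φ E').re) := by
      rw [← mul_div_assoc, div_lt_iff₀ (by positivity)]
      nlinarith
    rw [mul_add]
    linarith
  have hcdp := fun k => hCDP A φ hφ (Q k) E' ((φ (Q k)).re - (φ E').re - δ') δ (hQ k) hE'
    (by linarith) hδ
  choose P hP hQP hPφ hEP using hcdp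
  -- the blocks
  obtain ⟨S, hS⟩ : ∃ S : Fin K₀ → Fin J → Prop, ∀ k j, S k j ↔ g k (z' j) ≠ 0 :=
    ⟨_, fun _ _ => Iff.rfl⟩
  set r : Fin K₀ → A := fun k => ∑ j, if S k j then q j else 0 with hrdef
  have hr : ∀ k, IsStarProjection (r k) := fun k => CDR_.block q hq hqo (S k)
  have hSS : ∀ k l j, k ≠ l → S k j → ¬ S l j := fun k l j hkl h1 h2 =>
    (hS l j).1 h2 (hdis k l (z' j) hkl ((hS k j).1 h1))
  have hSu : ∀ j k l, S k j → S l j → k = l := fun j k l h1 h2 => by
    by_contra h3
    exact hSS k l j h3 h1 h2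
  have hrq : ∀ k j, r k * q j = if S k j then q j else 0 := fun k j =>
    CDR_.block_mul q hq hqo (S k) j
  have hrr : ∀ k l, k ≠ l → r k * r l = 0 := fun k l hkl =>
    CDR_.block_orth q hq hqo (S k) (S l) (fun j => hSS k l j hkl)
  have hcut : ∀ k, ‖P k - r k * P k‖ ≤ 3 * δ := by
    intro k
    refine CDR_.cut hδ.le (hP k) hE' (hr k) (hQP k) (hg k).1 (hg k).2 (hLg k) (hEP k) ?_
    rw [Finset.mul_sum]
    refine Finset.sum_eq_zero fun j _ => ?_
    rw [mul_smul_comm, sub_mul, one_mul, hrq k j]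
    by_cases h : S k j
    · rw [if_pos h, sub_self, smul_zero]
    · have h0 : g k (z' j) = 0 := by
        by_contra h1
        exact h ((hS k j).2 h1)
      rw [h0, zero_smul]
  choose V hV1 hV2 hV3 using fun k => CDR_.one hPLE (hP k) (hr k) (hcut k) hδ3
  have hPs : ∀ k, star (P k) = P k := fun k => (hP k).isSelfAdjoint
  have hPPk : ∀ k, P k * P k = P k := fun k => (hP k).isIdempotentElem
  have hQs : ∀ k, star (Q k) = Q k := fun k => (hQ k).isSelfAdjoint
  have hPQ : ∀ k, P k * Q k = P k := fun k => by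
    have := congrArg star (hQP k)
    rwa [star_mul, hQs, hPs] at this
  have hPP : ∀ k l, k ≠ l → P k * P l = 0 := fun k l hkl => by
    rw [← hPQ k, mul_assoc, ← hQP l, ← mul_assoc (Q k), hQo k l hkl, zero_mul, mul_zero]
  have hVP : ∀ k, V k * P k = V k := fun k => DGN_.mul_proj (hP k) (hV1 k)
  have hsV : ∀ k, star (V k) * r k = star (V k) := fun k => by
    have h1 := congrArg star (hV2 k)
    have h2 : star (r k) = r k := (hr k).isSelfAdjoint
    rwa [star_mul, h2] at h1
  have hPsV : ∀ k, P k * star (V k) = star (V k) := fun k => by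
    have h1 := congrArg star (hVP k)
    rwa [star_mul, hPs] at h1
  have hVV : ∀ k l, k ≠ l → star (V k) * V l = 0 := fun k l hkl => by
    rw [← hsV k, mul_assoc, ← hV2 l, ← mul_assoc (r k), hrr k l hkl, zero_mul, mul_zero]
  have hVV' : ∀ k l, k ≠ l → V k * star (V l) = 0 := fun k l hkl => by
    rw [← hVP k, mul_assoc, ← hPsV l, ← mul_assoc (P k), hPP k l hkl, zero_mul, mul_zero]
  have hVPkl : ∀ k l, k ≠ l → V k * P l = 0 := fun k l hkl => by
    rw [← hVP k, mul_assoc, hPP k l hkl, mul_zero]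
  have hSP : IsStarProjection (∑ k, P k) := DGN_.sum_proj P hP hPP
  have hSV : star (∑ k, V k) * (∑ k, V k) = ∑ k, P k := by
    rw [star_sum, Finset.sum_mul_sum]
    refine Finset.sum_congr rfl fun k _ => ?_
    rw [Finset.sum_eq_single k, hV1 k]
    · intro l _ hl
      exact hVV k l (Ne.symm hl)
    · intro h
      exact absurd (Finset.mem_univ _) h
  have hSV' : (∑ k, V k) * star (∑ k, V k) = ∑ k, V k * star (V k) := by
    rw [star_sum, Finset.sum_mul_sum]
    refine Finset.sum_congr rfl fun k _ => ?_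
    rw [Finset.sum_eq_single k]
    · intro l _ hl
      exact hVV' k l (Ne.symm hl)
    · intro h
      exact absurd (Finset.mem_univ _) h
  have hSn : ‖(∑ k, V k) - ∑ k, P k‖ ≤ 9 * K₀ * δ := by
    rw [← Finset.sum_sub_distrib]
    refine (norm_sum_le _ _).trans ?_
    calc ∑ k, ‖V k - P k‖ ≤ ∑ _k : Fin K₀, 3 * (3 * δ) := Finset.sum_le_sum fun k _ => hV3 k
      _ = 9 * K₀ * δ := by
        rw [Finset.sum_const, Finset.card_univ, Fintype.card_fin, nsmul_eq_mul]
        ring
  obtain ⟨y, hy, hyP, hy1, hyc⟩ := CDR_.uni hPLE hφ.ts hSP hSV hSn hδ4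
  rw [hSV'] at hyc
  have hyPk : ∀ k, y * P k = V k := by
    intro k
    have h1 : (∑ l, P l) * P k = P k := by
      rw [Finset.sum_mul, Finset.sum_eq_single k, hPPk k]
      · intro l _ hl
        exact hPP l k hl
      · intro h
        exact absurd (Finset.mem_univ _) h
    have h2 : (∑ l, V l) * P k = V k := by
      rw [Finset.sum_mul, Finset.sum_eq_single k, hVP k]
      · intro l _ hl
        exact hVPkl l k hl
      · intro h
        exact absurd (Finset.mem_univ _) h
    calc y * P k = y * ((∑ l, P l) * P k) := by rw [h1]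
      _ = (∑ l, V l) * P k := by rw [← mul_assoc, hyP]
      _ = V k := h2
  have hyF : ∀ k, y * P k * star y = V k * star (V k) := by
    intro k
    have h1 : P k * star y = star (V k) := by
      have h2 := congrArg star (hyPk k)
      rwa [star_mul, hPs] at h2
    calc y * P k * star y = y * P k * (P k * star y) := by
          rw [mul_assoc, mul_assoc, ← mul_assoc (P k) (P k), hPPk]
      _ = V k * star (V k) := by rw [hyPk, h1]
  have hrF : ∀ k, r k * (V k * star (V k)) = V k * star (V k) := fun k => by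
    rw [← mul_assoc, hV2]
  have hFk : ∀ k, IsStarProjection (V k * star (V k)) := fun k =>
    DGN_.range_proj (hP k) (hV1 k)
  -- the free projections
  set b2 : Fin J → A := fun j => if ∀ k, ¬ S k j then q j else 0 with hb2
  have hb2p : ∀ j, IsStarProjection (b2 j) := fun j => by
    by_cases h : ∀ k, ¬ S k j
    · simp only [hb2, if_pos h]
      exact hq j
    · simp only [hb2, if_neg h]
      exact IsStarProjection.zero A
  have hrb2 : ∀ k j, r k * b2 j = 0 := fun k j => by
    by_cases h : ∀ k, ¬ S k j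
    · simp only [hb2, if_pos h]
      rw [hrq k j, if_neg (h k)]
    · simp only [hb2, if_neg h, mul_zero]
  have hFb2 : ∀ k j, (r k - V k * star (V k)) * b2 j = 0 := fun k j => by
    have h1 : V k * star (V k) * b2 j = 0 := by
      rw [← hsV k, mul_assoc, mul_assoc, hrb2, mul_zero, mul_zero]
    rw [sub_mul, hrb2, h1, sub_zero]
  have hb1p : ∀ k, IsStarProjection (r k - V k * star (V k)) := fun k =>
    CDR_.sub_proj (hr k) (hFk k) (hrF k)
  have hb2F : ∀ k j, b2 j * (r k - V k * star (V k)) = 0 := fun k j => by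
    have h1 := congrArg star (hFb2 k j)
    have h2 : star (r k - V k * star (V k)) = r k - V k * star (V k) := (hb1p k).isSelfAdjoint
    have h3 : star (b2 j) = b2 j := (hb2p j).isSelfAdjoint
    rwa [star_mul, h2, h3, star_zero] at h1
  have hEq : ∀ j, E' * q j = 0 := fun j => by
    have h1 : (∑ i, q i) * q j = q j := by
      rw [Finset.sum_mul, Finset.sum_eq_single j]
      · exact (hq j).isIdempotentElem
      · intro i _ hi
        exact hqo i j hi
      · intro h
        exact absurd (Finset.mem_univ _) h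
    rw [hE'def, sub_mul, one_mul, h1, sub_self]
  have hEr : ∀ k, E' * r k = 0 := fun k => by
    rw [hrdef]
    simp only
    rw [Finset.mul_sum]
    refine Finset.sum_eq_zero fun j _ => ?_
    by_cases h : S k j
    · rw [if_pos h, hEq]
    · rw [if_neg h, mul_zero]
  have hQk : ∀ k, E * Q k = 0 := fun k => by
    have h1 : (∑ i, Q i) * Q k = Q k := by
      rw [Finset.sum_mul, Finset.sum_eq_single k]
      · exact (hQ k).isIdempotentElem
      · intro i _ hi
        exact hQo i k hi
      · intro h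
        exact absurd (Finset.mem_univ _) h
    rw [hEdef, sub_mul, one_mul, h1, sub_self]
  have hsumr : (∑ k, r k) + ∑ j, b2 j = ∑ j, q j := by
    rw [hrdef]
    simp only
    rw [Finset.sum_comm, ← Finset.sum_add_distrib]
    exact Finset.sum_congr rfl fun j _ => CDR_.pick_one (fun k => S k j) (q j) (hSu j)
  have hEa : E + ∑ k, (Q k - P k) = 1 - ∑ k, P k := by
    rw [Finset.sum_sub_distrib, hEdef]
    abel
  have hsumF : (∑ k, (r k - V k * star (V k))) + ∑ j, b2 j =
      (∑ j, q j) - ∑ k, V k * star (V k) := by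
    rw [Finset.sum_sub_distrib, ← hsumr]
    abel
  refine ⟨K₀, K₀ + J, fun k => Q k - P k, z, Fin.append (fun k => r k - V k * star (V k)) b2,
    Fin.append z z', y, hy, ?_, ?_, ?_, ?_, ?_, ?_, ?_, ?_, ?_⟩
  · exact fun k => CDR_.sub_proj (hQ k) (hP k) (hQP k)
  · exact fun k l hkl => CDR_.sub_orth (hQ k) (hP k) (hQP k) (hQP l) (hQo k l hkl)
  · intro k
    have h1 : E * P k = 0 := by rw [← hQP k, ← mul_assoc, hQk, zero_mul]
    rw [mul_sub, hQk, h1, sub_zero]
  · intro j
    refine Fin.addCases (fun k => ?_) (fun j => ?_) j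
    · rw [Fin.append_left]
      exact hb1p k
    · rw [Fin.append_right]
      exact hb2p j
  · intro i j
    refine Fin.addCases (fun k => ?_) (fun j' => ?_) i <;>
      refine Fin.addCases (fun l => ?_) (fun l' => ?_) j <;> intro hne
    · rw [Fin.append_left, Fin.append_left]
      have hkl : k ≠ l := fun h => hne (by rw [h])
      exact CDR_.sub_orth (hr k) (hFk k) (hrF k) (hrF l) (hrr k l hkl)
    · rw [Fin.append_left, Fin.append_right]
      exact hFb2 k l'
    · rw [Fin.append_left, Fin.append_right]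
      exact hb2F l j'
    · rw [Fin.append_right, Fin.append_right]
      have hkl : j' ≠ l' := fun h => hne (by rw [h])
      simp only [hb2]
      split_ifs
      · exact hqo j' l' hkl
      · rw [mul_zero]
      · rw [zero_mul]
      · rw [zero_mul]
  · intro j
    refine Fin.addCases (fun k => ?_) (fun j => ?_) j
    · rw [Fin.append_left, mul_sub, hEr, ← hrF k, ← mul_assoc, hEr, zero_mul, sub_zero]
    · rw [Fin.append_right]
      simp only [hb2]
      split_ifs
      · exact hEq j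
      · rw [mul_zero]
  · rw [hEa, Fin.sum_univ_add]
    simp only [Fin.append_left, Fin.append_right]
    rw [hsumF, hyc, hE'def]
    congr 1
    abel
  · rw [hEa]
    have h1 : (φ (1 - ∑ k, P k)).re = 1 - ∑ k, (φ (P k)).re := by
      rw [map_sub, hφ.ts.one, map_sum, Complex.sub_re, Complex.one_re, Complex.re_sum]
    have h2 : (φ E).re = 1 - ∑ k, (φ (Q k)).re := by
      rw [hEdef, map_sub, hφ.ts.one, map_sum, Complex.sub_re, Complex.one_re, Complex.re_sum]
    have h3 : ∑ k, ((φ (Q k)).re - (φ E').re - δ') ≤ ∑ k, (φ (P k)).re :=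
      Finset.sum_le_sum fun k _ => (hPφ k).le
    have h4 : ∑ k, ((φ (Q k)).re - (φ E').re - δ') =
        ∑ k, (φ (Q k)).re - K₀ * ((φ E').re + δ') := by
      rw [Finset.sum_sub_distrib, Finset.sum_sub_distrib, Finset.sum_const, Finset.sum_const,
        Finset.card_univ, Fintype.card_fin, nsmul_eq_mul, nsmul_eq_mul]
      ring
    rw [h1]
    linarith
  · intro f hf
    rw [Fin.sum_univ_add]
    simp only [Fin.append_left, Fin.append_right]
    set d : Fin J → ℂ := fun j =>
      if h : ∃ k, S k j then f (z h.choose) else f (z' j) with hd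
    have hdn : ∀ j, ‖d j - f (z' j)‖ ≤ ε₁ := by
      intro j
      simp only [hd]
      by_cases h : ∃ k, S k j
      · rw [dif_pos h, norm_sub_rev]
        exact hosc f hf h.choose (z' j) ((hS _ _).1 h.choose_spec)
      · rw [dif_neg h, sub_self, norm_zero]
        exact hε₁
    have h1 : (∑ k, f (z k) • r k) + ∑ j, f (z' j) • b2 j = ∑ j, d j • q j := by
      have h2 : ∀ k, f (z k) • r k = ∑ j, f (z k) • (if S k j then q j else 0) := fun k => by
        rw [← Finset.smul_sum]
      rw [Finset.sum_congr rfl fun k _ => h2 k, Finset.sum_comm, ← Finset.sum_add_distrib]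
      exact Finset.sum_congr rfl fun j _ =>
        CDR_.pick (fun k => S k j) (fun k => f (z k)) (f (z' j)) (q j) (hSu j)
    have h2 : (∑ k, f (z k) • (r k - V k * star (V k))) + ∑ j, f (z' j) • b2 j =
        ∑ j, f (z' j) • q j + ∑ j, (d j - f (z' j)) • q j -
          ∑ k, f (z k) • (V k * star (V k)) := by
      have h3 : ∑ k, f (z k) • (r k - V k * star (V k)) =
          ∑ k, f (z k) • r k - ∑ k, f (z k) • (V k * star (V k)) := by
        rw [← Finset.sum_sub_distrib]
        exact Finset.sum_congr rfl fun k _ => smul_sub _ _ _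
      have h4 : ∑ j, (d j - f (z' j)) • q j = ∑ j, d j • q j - ∑ j, f (z' j) • q j := by
        rw [← Finset.sum_sub_distrib]
        exact Finset.sum_congr rfl fun j _ => sub_smul _ _ _
      rw [h3, h4, ← h1]
      abel
    have h3 : y * (E * L f * E + ∑ k, f (z k) • (Q k - P k)) * star y =
        y * (E * L f * E + ∑ k, f (z k) • Q k) * star y -
          ∑ k, f (z k) • (V k * star (V k)) := by
      have h4 : ∑ k, f (z k) • (Q k - P k) =
          ∑ k, f (z k) • Q k - ∑ k, f (z k) • P k := by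
        rw [← Finset.sum_sub_distrib]
        exact Finset.sum_congr rfl fun k _ => smul_sub _ _ _
      have h5 : y * (∑ k, f (z k) • P k) * star y = ∑ k, f (z k) • (V k * star (V k)) := by
        rw [Finset.mul_sum, Finset.sum_mul]
        refine Finset.sum_congr rfl fun k _ => ?_
        rw [mul_smul_comm, smul_mul_assoc, hyF]
      rw [h4, ← h5]
      noncomm_ring
    have h4 : y * (E * L f * E + ∑ k, f (z k) • (Q k - P k)) * star y -
        (E' * L f * E' + ((∑ k, f (z k) • (r k - V k * star (V k))) +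
          ∑ j, f (z' j) • b2 j)) =
        -(y * (L f - (E * L f * E + ∑ k, f (z k) • Q k)) * star y) +
        (y * L f * star y - L f) + (L f - (E' * L f * E' + ∑ j, f (z' j) • q j)) -
          ∑ j, (d j - f (z' j)) • q j := by
      rw [h2, h3, mul_sub y (L f), sub_mul (y * L f)]
      abel
    rw [h4]
    have n1 : ‖-(y * (L f - (E * L f * E + ∑ k, f (z k) • Q k)) * star y)‖ ≤ δ₁ := by
      rw [norm_neg]
      exact (CDR_.conj_le hy).trans (hLQ f hf)
    have n2 : ‖y * L f * star y - L f‖ ≤ 2 * (7 * (9 * K₀ * δ)) * B :=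
      CDR_.conj_near hy hy1 (hG f hf).1 (by positivity) hB.le
    have n3 := hL f hf
    have n4 : ‖∑ j, (d j - f (z' j)) • q j‖ ≤ ε₁ :=
      DGN_.norm_diag q (fun j => d j - f (z' j)) ε₁ hε₁ hq hqo hdn
    calc _ ≤ δ₁ + 2 * (7 * (9 * K₀ * δ)) * B + δ + ε₁ := by
          refine (norm_sub_le _ _).trans (add_le_add ?_ n4)
          refine (norm_add_le _ _).trans (add_le_add ?_ n3)
          exact (norm_add_le _ _).trans (add_le_add n1 n2)
      _ = ε₁ + δ₁ + δ * (1 + 126 * B * K₀) := by ring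
      _ ≤ ε₁ + δ₁ + ε₃ := by linarith

end Pool.Agent.FPS
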