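import Pool.Agent.FPS.Targets5

/-! CHE: a chain of almost homomorphisms supported in one projection. -/

set_option autoImplicit false

open scoped Classical
open MeasureTheory Pool.Agent.FPZ

noncomputable section

namespace Pool.Agent.FPS

theorem p_CHE : T_CHE := by
  intro K A _ _ _ φ k₀ H δ F ε c m E Γ hE hφ hΓ hcl
  have hone : Uni (1 : A) := ⟨by simp, by simp⟩
  have hEE : E * (1 * E) = 1 * E := by
    rw [one_mul]
    exact hE.isIdempotentElem
  refine ⟨E, Γ, 1, 1, hE, hφ, hΓ, hcl, hone, hone, hEE, hEE, ?_, ?_⟩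
  · intro f
    simp
  · intro f
    simp

end Pool.Agent.FPS
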