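import Pool.Agent.FPS.Targets7

set_option autoImplicit false

/-!
# FPS: CM1, the collapse of the circle
-/

open scoped Classical unitInterval
open MeasureTheory Pool.Agent.FPZ

noncomputable section

namespace Pool.Agent.FPS

namespace CM1_

lemma cpt_continuous : Continuous cpt := by
  unfold cpt
  exact Continuous.subtype_mk (by fun_prop) _

lemma cpt_zero : cpt 0 = 1 := by
  apply Subtype.ext
  simp [cpt]

lemma cpt_one : cpt 1 = 1 := by
  apply Subtype.ext
  simp [cpt, Complex.exp_two_pi_mul_I]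

lemma cpt_re (s : ℝ) : (cpt s).1.re = Real.cos (2 * Real.pi * s) := by
  have h : (cpt s).1 = Complex.exp ((2 * Real.pi * s : ℝ) * Complex.I) := by
    simp [cpt]
  rw [h, Complex.exp_ofReal_mul_I_re]

lemma cpt_im (s : ℝ) : (cpt s).1.im = Real.sin (2 * Real.pi * s) := by
  have h : (cpt s).1 = Complex.exp ((2 * Real.pi * s : ℝ) * Complex.I) := by
    simp [cpt]
  rw [h, Complex.exp_ofReal_mul_I_im]

lemma cpt_surj (z : S1) : ∃ s : I, cpt s = z := by
  have hz : ‖z.1‖ = 1 := by simp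
  have h1 := Complex.norm_mul_exp_arg_mul_I z.1
  rw [hz, Complex.ofReal_one, one_mul] at h1
  have hpi := Real.pi_pos
  have ha1 := Complex.neg_pi_lt_arg z.1
  have ha2 := Complex.arg_le_pi z.1
  rcases le_or_gt 0 z.1.arg with h | h
  · have hm : z.1.arg / (2 * Real.pi) ∈ I := by
      refine ⟨by positivity, ?_⟩
      rw [div_le_one (by positivity)]
      linarith
    refine ⟨⟨z.1.arg / (2 * Real.pi), hm⟩, ?_⟩
    · apply Subtype.ext
      refine Eq.trans ?_ h1
      show Complex.exp (2 * Real.pi * ((z.1.arg / (2 * Real.pi) : ℝ) : ℂ) * Complex.I) = _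
      congr 1
      have : (Real.pi : ℂ) ≠ 0 := by exact_mod_cast hpi.ne'
      push_cast
      field_simp
  · have hm : (z.1.arg + 2 * Real.pi) / (2 * Real.pi) ∈ I := by
      refine ⟨by apply div_nonneg <;> linarith, ?_⟩
      rw [div_le_one (by positivity)]
      linarith
    refine ⟨⟨(z.1.arg + 2 * Real.pi) / (2 * Real.pi), hm⟩, ?_⟩
    · apply Subtype.ext
      refine Eq.trans ?_ h1
      show Complex.exp (2 * Real.pi * (((z.1.arg + 2 * Real.pi) / (2 * Real.pi) : ℝ) : ℂ) *
        Complex.I) = _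
      have h2 : (2 * Real.pi * (((z.1.arg + 2 * Real.pi) / (2 * Real.pi) : ℝ) : ℂ) *
        Complex.I) = z.1.arg * Complex.I + 2 * Real.pi * Complex.I := by
        have : (Real.pi : ℂ) ≠ 0 := by exact_mod_cast hpi.ne'
        push_cast
        field_simp
      rw [h2, Complex.exp_add, Complex.exp_two_pi_mul_I, mul_one]

/-- The collapsing function of the interval. -/
def um : C(I, I) := ⟨fun s => Set.projIcc 0 1 zero_le_one (2 * (s : ℝ) - 1 / 2),
  continuous_projIcc.comp (by fun_prop)⟩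

lemma um_low {s : I} (h : (s : ℝ) ≤ 1 / 4) : um s = 0 :=
  Set.projIcc_of_le_left zero_le_one (by linarith)

lemma um_high {s : I} (h : 3 / 4 ≤ (s : ℝ)) : um s = 1 :=
  Set.projIcc_of_right_le zero_le_one (by linarith)

lemma um_mid {s : I} (h : 1 / 4 ≤ (s : ℝ)) (h' : (s : ℝ) ≤ 3 / 4) :
    (um s : ℝ) = 2 * s - 1 / 2 := by
  have h1 : (2 * (s : ℝ) - 1 / 2) ∈ Set.Icc (0 : ℝ) 1 := ⟨by linarith, by linarith⟩
  show ((Set.projIcc 0 1 zero_le_one (2 * (s : ℝ) - 1 / 2) : I) : ℝ) = _
  rw [Set.projIcc_of_mem _ h1]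

end CM1_

open CM1_

theorem p_CM1 (h_HTC : T_HTC) (h_SPC : T_SPC) (h_NHI : T_NHI) (h_NU1 : T_NU1) : T_CM1 := by
  obtain ⟨c, H, hc, H0, H1, -, -⟩ := h_HTC um (um_low (by simp)) (um_high (by
    show (3 / 4 : ℝ) ≤ ((1 : I) : ℝ)
    simp
    norm_num))
  have hlow : ∀ s : I, (s : ℝ) ≤ 1 / 4 → c (cpt s) = 1 := by
    intro s hs
    rw [hc, um_low hs]
    simpa using cpt_zero
  have hhigh : ∀ s : I, 3 / 4 ≤ (s : ℝ) → c (cpt s) = 1 := by
    intro s hs
    rw [hc, um_high hs]
    simpa using cpt_one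
  have hO : IsOpen {z : S1 | 0 < z.1.re} :=
    isOpen_lt continuous_const (Complex.continuous_re.comp continuous_subtype_val)
  refine ⟨c, {z : S1 | 0 < z.1.re}, ?_, hO, ?_, ?_, ?_⟩
  · exact ContinuousMap.Homotopic.symm ⟨{
      toContinuousMap := H
      map_zero_left := H0
      map_one_left := H1 }⟩
  · intro z hz
    obtain ⟨s, rfl⟩ := cpt_surj z
    have hz' : 0 < (cpt s).1.re := hz
    rw [cpt_re] at hz'
    rcases le_or_gt (s : ℝ) (1 / 4) with h | h
    · exact hlow s h
    rcases le_or_gt (3 / 4) (s : ℝ) with h' | h'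
    · exact hhigh s h'
    exfalso
    have hpi := Real.pi_pos
    have h2 := Real.cos_nonpos_of_pi_div_two_le_of_le (x := 2 * Real.pi * s)
      (by nlinarith) (by nlinarith)
    linarith
  · have h1 := h_NHI.1 (Metric.sphere (0 : ℂ) 1) Metric.isClosed_sphere.measurableSet
    have h2 := h_SPC.1.2.1
    have h3 := h_SPC.1.2.2
    rw [h1] at h2 h3
    refine ENNReal.toReal_pos ?_ (measure_ne_top _ _)
    refine hO.measure_ne_zero _ ⟨1, ?_⟩
    show (0 : ℝ) < ((1 : S1) : ℂ).re
    simp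
  · intro g
    obtain ⟨-, -, h1, h2⟩ := h_NU1
    have h3 : ∫ x, g (c x) ∂(nHX S1) = ∫ s in (0 : ℝ)..1, g (c (cpt s)) := h2 (g.comp c)
    rw [h1, h2, h3]
    have hcont : Continuous fun s : ℝ => g (c (cpt s)) :=
      g.continuous.comp (c.continuous.comp cpt_continuous)
    have i1 : ∫ s in (0 : ℝ)..(1 / 4), g (c (cpt s)) = (1 / 4) * g 1 := by
      have e : ∫ s in (0 : ℝ)..(1 / 4), g (c (cpt s)) = ∫ s in (0 : ℝ)..(1 / 4), g 1 := by
        refine intervalIntegral.integral_congr fun s hs => ?_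
        rw [Set.uIcc_of_le (by norm_num)] at hs
        have := hlow ⟨s, hs.1, by linarith [hs.2]⟩ hs.2
        simp only [this]
      rw [e, intervalIntegral.integral_const]
      simp
    have i3 : ∫ s in (3 / 4 : ℝ)..1, g (c (cpt s)) = (1 / 4) * g 1 := by
      have e : ∫ s in (3 / 4 : ℝ)..1, g (c (cpt s)) = ∫ s in (3 / 4 : ℝ)..1, g 1 := by
        refine intervalIntegral.integral_congr fun s hs => ?_
        rw [Set.uIcc_of_le (by norm_num)] at hs
        have := hhigh ⟨s, by linarith [hs.1], hs.2⟩ hs.1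
        simp only [this]
      rw [e, intervalIntegral.integral_const]
      norm_num
    have i2 : ∫ s in (1 / 4 : ℝ)..(3 / 4), g (c (cpt s)) =
        (1 / 2) * ∫ s in (0 : ℝ)..1, g (cpt s) := by
      have e : ∫ s in (1 / 4 : ℝ)..(3 / 4), g (c (cpt s)) =
          ∫ s in (1 / 4 : ℝ)..(3 / 4), (fun t => g (cpt t)) (2 * s - 1 / 2) := by
        refine intervalIntegral.integral_congr fun s hs => ?_
        rw [Set.uIcc_of_le (by norm_num)] at hs
        have h4 := hc ⟨s, by linarith [hs.1], by linarith [hs.2]⟩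
        rw [um_mid hs.1 hs.2] at h4
        simp only
        rw [h4]
      rw [e, intervalIntegral.integral_comp_mul_sub (fun t => g (cpt t)) two_ne_zero (1 / 2)]
      norm_num
    rw [← intervalIntegral.integral_add_adjacent_intervals (hcont.intervalIntegrable 0 (1 / 4))
      (hcont.intervalIntegrable (1 / 4) 1), ← intervalIntegral.integral_add_adjacent_intervals
      (hcont.intervalIntegrable (1 / 4) (3 / 4)) (hcont.intervalIntegrable (3 / 4) 1), i1, i2, i3]
    ring

end Pool.Agent.FPS
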