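import Pool.Agent.FPS.Defs4

set_option autoImplicit false

/-!
# FPS targets 4: the homotopy data for the three-sphere and the circle

Every target has its complete proof in the docstring. (Decidability instances inside `1 : Matrix n n ℂ` and `opn` may differ; they are equal
by `Subsingleton`.)
-/

open scoped Classical
open MeasureTheory Pool.Agent.FPZ

noncomputable section

namespace Pool.Agent.FPS

/-- The coordinate functions of the two-sphere. -/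
def co (a : Fin 3) : C(S2, ℂ) := ⟨fun m => (((m : E3) a : ℝ) : ℂ), by fun_prop⟩

/-! ## Coherent states -/

/-- BK1. Basic properties of `bk`. PROOF. The integrands are continuous on `[0,1]²` in `(x, φ)` up to the poles: `nv x φ` is continuous (`‖..‖ = 1` for `x ∈ [0,1]`), `cs` is continuous. `bk N 1 = 1`: `∫_0^1 e^(-2πi(i-j)φ) dφ = 0` for `i ≠ j`, `C(N,i) ∫ x^i (1-x)^(N-i) = 1 / (N + 1)` (Beta integral).
With `c = cs N x φ` (a column vector), `bn N M = (N + 1) ∫∫ (c c*) ⊗ M(nv x φ)`. Norm: for vectors `η, η'`: `⟨η, bn N M η'⟩ = (N + 1) ∫∫ ⟨(c* ⊗ 1) η, M (c* ⊗ 1) η'⟩`, at most `B (N + 1) ∫∫ ‖(c* ⊗ 1) η‖ ‖(c* ⊗ 1) η'‖ ≤ B ‖η‖ ‖η'‖` (Cauchy-Schwarz, `(N+1) ∫∫ ‖(c* ⊗ 1) η‖² = ‖η‖²`).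
Positivity: `⟨η, bn N M η⟩ ≥ 0` if all `M x` are positive semidefinite; `Matrix.PosSemidef` gives `Q`. -/
def T_BK1 : Prop := (∀ N f g, bk N (f + g) = bk N f + bk N g) ∧ (∀ N (c : ℂ) f, bk N (c • f) = c • bk N f) ∧ (∀ N, bk N 1 = 1) ∧ (∀ N f, bk N (star f) = (bk N f).conjTranspose) ∧
  ∀ (N : ℕ) (n : Type) [Fintype n] (M : C(S2, Matrix n n ℂ)), (∀ B : ℝ, 0 ≤ B → (∀ x, opn (M x) ≤ B) → opn (bn N M) ≤ B) ∧
    ((∀ x, ∃ Q : Matrix n n ℂ, M x = Q.conjTranspose * Q) → ∃ Q : Matrix (Fin (N + 1) × n) (Fin (N + 1) × n) ℂ, bn N M = Q.conjTranspose * Q)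

/-- BK2. The coordinates. PROOF. Integrate: `∫ (2x - 1) C(N,i) x^i (1-x)^(N-i) = (2 (i+1)/(N+2) - 1) / (N + 1)`; the phase of the second integrand is `e^(2πiφ(1 - i + j))`, for `i = j + 1`: `(N+1) · 2 √(C(N,j+1) C(N,j)) ∫ x^(j+1) (1-x)^(N-j) = 2 (N+1) C(N,j) √((N-j)/(j+1)) (j+1)! (N-j)! / (N+2)!`
`= 2 √((j+1)(N-j)) / (N+2)`. -/
def T_BK2 : Prop := (∀ N i j, bk N (co 2) i j = if i = j then ((2 * (i : ℕ) - N : ℝ) / (N + 2) : ℂ) else 0) ∧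
  ∀ N (i j : Fin (N + 1)), bk N (co 0 + Complex.I • co 1) i j = if (i : ℕ) = j + 1 then ((2 * Real.sqrt (((j : ℕ) + 1) * (N - (j : ℕ))) : ℝ) / (N + 2) : ℂ) else 0

/-- BK3. Asymptotic multiplicativity (uses T_BK1, T_BK2). PROOF. `D_N(f, g) = bk (star f * g) - bk f ^* bk g`. With `c = cs N x φ`: `D_N(f, g) = (N+1) ∫∫ (f(nv) - bk f)^* c c^* (g(nv) - bk g)` (use `(N+1) ∫∫ c c^* = 1`), so `‖D(f, g)‖² ≤ ‖D(f, f)‖ ‖D(g, g)‖` (Cauchy-Schwarz for `⟨η, D(f,g) η'⟩`) and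
`D(g+h, g+h) ≤ 2 D(g,g) + 2 D(h,h)`, `‖D(g,g)‖ ≤ ‖g‖²`. `𝓜 = {g | ‖D_N(g,g)‖ → 0 and ‖D_N(star g, star g)‖ → 0}` is closed under `star`, sums, uniform limits, and products: `bk (g h) = bk g bk h + D(star g, h)`, `bk (star h * (star g g h)) = (bk h)^* bk (star g g h) + D(h, ·)`, `bk (star g g h) = bk (star g g) bk h + D(star g g, h)`,
`bk (star g g) = (bk g)^* bk g + D(g, g)`. From T_BK2: `∑_a bk (co a) ^ 2 = N / (N+2)` (`bk(co 0)² + bk(co 1)² = (T T^* + T^* T) / 2` for `T = bk (co 0 + i co 1)`), `∑_a co a ^ 2 = 1`, so `∑_a D(co a, co a) = 2 / (N + 2)`, all terms positive. Stone-Weierstrass: `𝓜` is everything. `D(star f, g) → 0`. -/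
def T_BK3 : Prop := ∀ (f g : C(S2, ℂ)) (δ : ℝ), 0 < δ → ∃ N₀ : ℕ, ∀ N ≥ N₀, opn (bk N (f * g) - bk N f * bk N g) ≤ δ

/-- BK4. The spectrum of `(bk ⊗ id) (n · σ)` (uses T_BK1, T_BK2). PROOF. `X = [[D, T*], [T, -D]]` (blocks of size `N+1`; index `(a, i)`), `D = bk (co 2)`, `T = bk (co 0 + i co 1)`; `bn N M = (1 + X) / 2`. `X² = N/(N+2) - (2/(N+2)) X`: `D² + T* T` is diagonal with entries
`((2i-N)² + 4 (i+1)(N-i)) / (N+2)² = (N² + 4N - 4i) / (N+2)²`, `D² + T T*` has `((2i-N)² + 4 i (N-i+1)) / (N+2)² = (N² + 4i)/(N+2)²`, `D T* - T* D = -(2/(N+2)) T*`, `T D - D T = -(2/(N+2)) T`. So `P = ((N+2)/(N+1)) (1 + X)/2` is a projection, its trace is `(N+2)/(N+1) · (N+1)` (`tr X = 0`). -/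
def T_BK4 : Prop := ∀ N : ℕ, ∃ P : Matrix (Fin (N + 1) × Fin 2) (Fin (N + 1) × Fin 2) ℂ, P * P = P ∧ P.conjTranspose = P ∧ P.trace = N + 2 ∧
  ∀ M : C(S2, Matrix (Fin 2) (Fin 2) ℂ), (∀ m : S2, M m = pp (m : E3)) → bn N M = (((N : ℂ) + 1) / (N + 2)) • P

/-- BKU. Uniformity in a parameter (uses T_BK1, T_BK3). PROOF. `y ↦ sl f y` is continuous from the compact space `Y` to `C(S2, ℂ)` (`ContinuousMap.curry`); `‖bk N (f g) - bk N f bk N g‖` changes by at most a constant times the distance when `f, g` are changed (T_BK1 with `n = Unit`: `opn (bk N f) ≤ sup |f|`); cover the image by finitely many balls. -/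
def T_BKU : Prop := ∀ (Y : Type) [TopologicalSpace Y] [CompactSpace Y] (f g : C(Y × S2, ℂ)) (δ : ℝ), 0 < δ →
  ∃ N₀ : ℕ, ∀ N ≥ N₀, ∀ y, opn (bk N (sl (f * g) y) - bk N (sl f y) * bk N (sl g y)) ≤ δ

/-- BXC. Values and closeness (uses T_BK1). PROOF. Continuity of `y ↦ bn N (sl M y)`: entries, `opn (bk N f) ≤ sup |f|`, `ContinuousMap.curry`. The second part is T_BK1. -/
def T_BXC : Prop := ∀ (Y n : Type) [TopologicalSpace Y] [Fintype n] (N : ℕ) (M : C(Y × S2, Matrix n n ℂ)), (∀ y, bx N M y = bn N (sl M y)) ∧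
  ∀ (M' : C(Y × S2, Matrix n n ℂ)) (ε : ℝ), 0 ≤ ε → (∀ p, opn (M p - M' p) ≤ ε) → ∀ y, opn (bx N M y - bx N M' y) ≤ ε

/-- BXH. Composition with an exact homomorphism (uses T_BK1, T_BKU, T_BXC). PROOF. Linearity, unit, star: T_BK1. Positivity: `P (star f * f) (y, m) = (P f (y,m))^* P f (y,m)` and T_BK1. Multiplicativity: the `(a,i),(c,j)` entry of `bx (P (f g)) - bx (P f) bx (P g)` is the `(a,c)` entry of `∑_l (bk (F_il G_lj) - bk F_il bk G_lj)`, T_BKU for the finitely many pairs of entries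
(`opn` of a block matrix is at most the sum of the `opn` of the blocks). -/
def T_BXH : Prop := ∀ (K Y n : Type) [TopologicalSpace K] [CompactSpace K] [TopologicalSpace Y] [CompactSpace Y] [Fintype n] (P : C(K, ℂ) → C(Y × S2, Matrix n n ℂ)) (H : Finset C(K, ℂ)) (δ : ℝ), EHM P → 0 < δ →
  ∃ N₀ : ℕ, ∀ N ≥ N₀, AHM H δ (fun f => bx N (P f))

/-! ## The maps `κ` and `γ` -/

/-- KAV. The map `κ` (`kap`). PROOF. `pp (un v)`, `pm (un v)` are continuous at `v ≠ 0` and bounded; at `w = 0` both coefficients tend to `g h`, `pp v + pm v = 1`. For a unit vector `v`: `sg v ^ 2 = 1`, `pp v`, `pm v` are orthogonal projections with sum `1`; for `w = 0` the value is `g (s1 h 0) • 1`, `h = ± 1`. Diagonal form: `J = 2`, or `J = 1` if `w = 0`. -/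
def T_KAV : Prop := (∀ g x, kap g x = kapf g x) ∧ KP k3 kap

/-- GMV. Values of `γ` (uses T_BK1, T_BXC or its proof). PROOF. `(z, m) ↦ |im z| • mt (im z) m` is continuous (norm `|im z|`); `|im z|² + (re z)² = 1`. `gam N f 1 = bk N (const (f k3)) = f k3 • 1`. -/
def T_GMV : Prop := ∃ Gm : C(S1 × S2, M3), (∀ (z : S1) (m : S2), Gm (z, m) = m3 (|z.1.im| • (mt z.1.im m : E3)) z.1.re ∧ (Gm (z, m)).1 = (|z.1.im| • (mt z.1.im m : E3), z.1.re)) ∧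
  (∀ N f z, gam N f z = bk N (sl (f.comp Gm) z)) ∧ ∀ N f, gam N f 1 = f k3 • (1 : Matrix (Fin (N + 1)) (Fin (N + 1)) ℂ)

/-- GMH. `γ` is asymptotically multiplicative (uses T_GMV, T_BK1, T_BKU). -/
def T_GMH : Prop := ∀ (H : Finset C(M3, ℂ)) (δ : ℝ), 0 < δ → ∃ N₀ : ℕ, ∀ N ≥ N₀, AHM H δ (gam N)

/-- GMP. Points can be moved in `γ`, with a number of steps independent of `N` (uses T_GMV, T_BK1). PROOF. `f.comp Gm` is uniformly continuous: there is `ρ > 0` such that `dist z z' < ρ` implies `‖f (Gm (z, m)) - f (Gm (z', m))‖ ≤ ε` for all `m`, `f ∈ F`, hence `opn (gam N f z - gam N f z') ≤ ε`; the circle is connected and compact: chains of `m₁` steps of length `< ρ`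
(`w l = exp (i θ l / m₁)`). -/
def T_GMP : Prop := ∀ (F : Finset C(M3, ℂ)) (ε : ℝ), 0 < ε → ∃ m₁ : ℕ, ∀ (N : ℕ) (x : S1), ∃ w : ℕ → S1, w 0 = 1 ∧ w m₁ = x ∧ ∀ l < m₁, ∀ f ∈ F, opn (gam N f (w l) - gam N f (w (l + 1))) ≤ ε

/-! ## Homotopies through exact homomorphisms -/

/-- `e^{is}` acts on the circle between `γ` and `κ`. -/
def xi (s : ℝ) (f : C(M3, ℂ)) (x : M3) (m : S2) : Matrix (Fin 2) (Fin 2) ℂ :=
  f (m3 (|x.1.2 * Real.sin s + ‖x.1.1‖ * Real.cos s| • (mt (x.1.2 * Real.sin s + ‖x.1.1‖ * Real.cos s) m : E3)) (x.1.2 * Real.cos s - ‖x.1.1‖ * Real.sin s)) • pp (un x.1.1) +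
  f (m3 (|x.1.2 * Real.sin s - ‖x.1.1‖ * Real.cos s| • (mt (x.1.2 * Real.sin s - ‖x.1.1‖ * Real.cos s) m : E3)) (x.1.2 * Real.cos s + ‖x.1.1‖ * Real.sin s)) • pm (un x.1.1)

/-- The rotation of `ℝ³ × ℝ³`. -/
def th (s : ℝ) (f : C(M3, ℂ)) (x : M3) (m : S2) : Matrix (Fin 2) (Fin 2) ℂ :=
  f (m3 (Real.cos s • x.1.1 + Real.sin s • (|x.1.2| • (mt x.1.2 m : E3))) ‖-Real.sin s • x.1.1 + Real.cos s • (|x.1.2| • (mt x.1.2 m : E3))‖) • pp (un (-Real.sin s • x.1.1 + Real.cos s • (|x.1.2| • (mt x.1.2 m : E3)))) +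
  f (m3 (Real.cos s • x.1.1 + Real.sin s • (|x.1.2| • (mt x.1.2 m : E3))) (-‖-Real.sin s • x.1.1 + Real.cos s • (|x.1.2| • (mt x.1.2 m : E3))‖)) • pm (un (-Real.sin s • x.1.1 + Real.cos s • (|x.1.2| • (mt x.1.2 m : E3))))

/-- XIT. PROOF. Joint continuity of `(s, x, m) ↦ xi s f x m`: `|y| • mt y m` is continuous in `(y, m)`; the only problem is `x.1.1 = 0`, where the two coefficients coincide, and `pp + pm = 1`, `pp (un v)`, `pm (un v)` bounded. The points are on the sphere (`y² + x² = ‖w‖² + h² = 1`). Compactness of `[0, π/2] × M3 × S2`: uniform continuity in `s`. For fixed `s` the map is a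
homomorphism: `pp (un w)`, `pm (un w)` are orthogonal projections with sum `1` if `w ≠ 0`, and for `w = 0` the value is a multiple of `1`. -/
def T_XIT : Prop := (∀ s : ℝ, ∃ P : C(M3, ℂ) → C(M3 × S2, Matrix (Fin 2) (Fin 2) ℂ), EHM P ∧ ∀ f x m, P f (x, m) = xi s f x m) ∧
  ∀ (f : C(M3, ℂ)) (ε : ℝ), 0 < ε → ∃ δ : ℝ, 0 < δ ∧ ∀ s s' : ℝ, 0 ≤ s → s ≤ Real.pi / 2 → 0 ≤ s' → s' ≤ Real.pi / 2 → |s - s'| < δ → ∀ x m, opn (xi s f x m - xi s' f x m) ≤ ε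

/-- THT. PROOF. As T_XIT: with `T, V` the rotated vectors, `‖T‖² + ‖V‖² = ‖w‖² + h² = 1`, and at `V = 0` the two coefficients coincide. -/
def T_THT : Prop := (∀ s : ℝ, ∃ P : C(M3, ℂ) → C(M3 × S2, Matrix (Fin 2) (Fin 2) ℂ), EHM P ∧ ∀ f x m, P f (x, m) = th s f x m) ∧
  ∀ (f : C(M3, ℂ)) (ε : ℝ), 0 < ε → ∃ δ : ℝ, 0 < δ ∧ ∀ s s' : ℝ, 0 ≤ s → s ≤ Real.pi / 2 → 0 ≤ s' → s' ≤ Real.pi / 2 → |s - s'| < δ → ∀ x m, opn (th s f x m - th s' f x m) ≤ ε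

/-- XEP. The end points. PROOF. `xi (π/2)`: coefficients `f (m3 (|h| • mt h m) (∓‖w‖))`; `th (π/2)`: `T = |h| • mt h m`, `V = -w`, `pp (un (-w)) = pm (un w)`. `xi 0`: `|±‖w‖| = ‖w‖`, `mt (-‖w‖) m = n0` if `w ≠ 0`. `th 0`: `V = |h| • mt h m`, `‖V‖ = |h|`, `un V = mt h m` if `h ≠ 0`; if `h = 0` both sides are `f (m3 w 0) • 1`. -/
def T_XEP : Prop := ∀ (f : C(M3, ℂ)) (x : M3) (m : S2), xi (Real.pi / 2) f x m = th (Real.pi / 2) f x m ∧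
  xi 0 f x m = f (m3 (‖x.1.1‖ • (m : E3)) x.1.2) • pp (un x.1.1) + f (m3 (‖x.1.1‖ • (n0 : E3)) x.1.2) • pm (un x.1.1) ∧
  th 0 f x m = f (m3 x.1.1 |x.1.2|) • pp (mt x.1.2 m : E3) + f (m3 x.1.1 (-|x.1.2|)) • pm (mt x.1.2 m : E3)

/-- PIC. The chain (uses T_XIT, T_THT, T_XEP). PROOF. `th (π/2 · i/M)` for `i ≤ M`, then `xi (π/2 · (1 - i/M))`. -/
def T_PIC : Prop := ∀ (F : Finset C(M3, ℂ)) (ε : ℝ), 0 < ε → ∃ (M : ℕ) (P : ℕ → C(M3, ℂ) → C(M3 × S2, Matrix (Fin 2) (Fin 2) ℂ)), (∀ i, EHM (P i)) ∧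
  (∀ i < M, ∀ f ∈ F, ∀ p, opn (P i f p - P (i + 1) f p) ≤ ε) ∧
  (∀ f x m, P 0 f (x, m) = f (m3 x.1.1 |x.1.2|) • pp (mt x.1.2 m : E3) + f (m3 x.1.1 (-|x.1.2|)) • pm (mt x.1.2 m : E3)) ∧
  ∀ f x m, P M f (x, m) = f (m3 (‖x.1.1‖ • (m : E3)) x.1.2) • pp (un x.1.1) + f (m3 (‖x.1.1‖ • (n0 : E3)) x.1.2) • pm (un x.1.1)

/-! ## Folding -/

/-- PRK. PROOF. Projections in `M_n(ℂ)`: `trace = rank`. Choose orthonormal bases of the range of `P₀` and of its complement, and an orthonormal basis of the range of `P` (one element more), of its complement; `X` maps the first `rank P₀` vectors into the range of `P`; `ζ` is the last basis vector of the range of `P`. -/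
def T_PRK : Prop := ∀ (n : Type) [Fintype n] (P P₀ : Matrix n n ℂ), P * P = P → P.conjTranspose = P → P₀ * P₀ = P₀ → P₀.conjTranspose = P₀ → P.trace = P₀.trace + 1 →
  ∃ (X : Matrix n n ℂ) (ζ : n → ℂ), X.conjTranspose * X = 1 ∧ X * X.conjTranspose = 1 ∧ ∑ a, ‖ζ a‖ ^ 2 = 1 ∧ P = X * P₀ * X.conjTranspose + Matrix.of (fun a b => ζ a * star (ζ b))

/-- UPA. Paths of unitary matrices. PROOF. The spectrum of `X` is a finite subset of the circle, every function on it is continuous; `X_s = cfc (fun z => exp (i s arg z)) X` (functional calculus of the normal matrix `X`), `‖X_s - X_t‖ ≤ π |s - t|`, `X_0 = 1`, `X_1 = X`. (Or diagonalise `X`.) -/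
def T_UPA : Prop := ∀ (n : Type) [Fintype n] (X : Matrix n n ℂ) (M : ℕ), X.conjTranspose * X = 1 → X * X.conjTranspose = 1 → 0 < M →
  ∃ Xi : ℕ → Matrix n n ℂ, Xi 0 = 1 ∧ Xi M = X ∧ (∀ i, (Xi i).conjTranspose * Xi i = 1 ∧ Xi i * (Xi i).conjTranspose = 1) ∧ ∀ i < M, opn (Xi i - Xi (i + 1)) ≤ 4 / M

/-- FLD. Folding (uses T_PRK, T_UPA, q_HTP). PROOF. For projections `R, R'` let `Φ(R, R') f x = f (u x) • R + f (l x) • (1 - R)` on `Kp` and `f (u x) • R' + f (l x) • (1 - R')` on `Km` (continuous: `u = l` on the intersection of the closed sets `Kp`, `Km`; an exact homomorphism). `Ψ m` is the same with `B, P₀`; its defect of multiplicativity on `Kp` is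
`(f(u) g(u) + f(l) g(l) - f(u) g(l) - f(l) g(u)) • (B - B²)`, `B - B² = t (1 - t) P`; positivity: `0 ≤ B ≤ 1`. `Ψ (m-1) = Φ(P, P₀)`. T_PRK: `X, ζ`, T_UPA: `X_i`: `Φ(P, X_i P₀ X_i^*)` moves by `≤ 4 ‖f‖ ‖X_i - X_(i+1)‖`; at the end `R' = X P₀ X^*`, `P = R' + ζ ζ^*`:
`Φ f x = f (u x) • R' + f x • ζ ζ^* + f (l x) • (1 - P)` (`u = id` on `Kp`, `l = id` on `Km`). Replace `u, l` by the homotopies to `k₀` (T_HTP-type discretisation of `Homotopic u (const k₀)`): end `f x • ζ ζ^* + f k₀ • (1 - ζ ζ^*)`. The number of steps depends only on `F, ε` (and the homotopies). -/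
def T_FLD : Prop := ∀ (K : Type) [MetricSpace K] [CompactSpace K] (k₀ : K) (u l : C(K, K)) (Kp Km : Set K), IsClosed Kp → IsClosed Km → Kp ∪ Km = Set.univ → (∀ x ∈ Kp ∩ Km, u x = l x) → (∀ x ∈ Kp, u x = x) → (∀ x ∈ Km, l x = x) →
  ContinuousMap.Homotopic u (ContinuousMap.const K k₀) → ContinuousMap.Homotopic l (ContinuousMap.const K k₀) → ∀ (F : Finset C(K, ℂ)) (ε : ℝ), 0 < ε →
  ∃ m : ℕ, ∀ (n : Type) [Fintype n] (P P₀ : Matrix n n ℂ) (t δ : ℝ) (H : Finset C(K, ℂ)), P * P = P → P.conjTranspose = P → P₀ * P₀ = P₀ → P₀.conjTranspose = P₀ → P.trace = P₀.trace + 1 → 0 ≤ t → t ≤ 1 →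
  (∀ f ∈ F, 2 * ‖f‖ * (1 - t) ≤ ε) → (∀ f ∈ H, ∀ g ∈ H, 4 * ‖f‖ * ‖g‖ * (1 - t) ≤ δ) → 0 ≤ δ →
  ∃ (Ψ : ℕ → C(K, ℂ) → C(K, Matrix n n ℂ)) (ζ : n → ℂ), ∑ a, ‖ζ a‖ ^ 2 = 1 ∧ (∀ i ≤ m, AHM H δ (Ψ i)) ∧ (∀ i < m, ∀ f ∈ F, ∀ x, opn (Ψ i f x - Ψ (i + 1) f x) ≤ ε) ∧
    (∀ f x a b, Ψ 0 f x a b = f x * (ζ a * star (ζ b)) + f k₀ * ((1 : Matrix n n ℂ) a b - ζ a * star (ζ b))) ∧
    (∀ f, ∀ x ∈ Kp, Ψ m f x = f (u x) • ((t : ℂ) • P) + f (l x) • (1 - (t : ℂ) • P)) ∧ ∀ f, ∀ x ∈ Km, Ψ m f x = f (u x) • P₀ + f (l x) • (1 - P₀)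

/-- HTC. Contractions on the three-sphere. PROOF. `u (w, h) = (w, |h|)`, `l (w, h) = (w, -|h|)`. Homotopy `((1-s) w, √(1 - (1-s)² ‖w‖²))` from `u` to `k3`; `l`: `((1-s) w, -√(1 - (1-s)² ‖w‖²))` to `(0, -1)`, then `(sin (π s) n0, -cos (π s))` to `(0, 1)`. -/
def T_HTC3 : Prop := ∃ u l : C(M3, M3), (∀ x, (u x).1 = (x.1.1, |x.1.2|) ∧ (l x).1 = (x.1.1, -|x.1.2|)) ∧ ContinuousMap.Homotopic u (ContinuousMap.const M3 k3) ∧ ContinuousMap.Homotopic l (ContinuousMap.const M3 k3)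

/-- HT1. Contractions on the circle. PROOF. `u z = re z + i |im z|`, `l z = conj (u z)`; homotopy `exp (i (1-s) arccos (re z))`, and its conjugate. -/
def T_HTC1 : Prop := ∃ u l : C(S1, S1), (∀ z, (u z).1 = ⟨z.1.re, |z.1.im|⟩ ∧ (l z).1 = ⟨z.1.re, -|z.1.im|⟩) ∧ ContinuousMap.Homotopic u (ContinuousMap.const S1 1) ∧ ContinuousMap.Homotopic l (ContinuousMap.const S1 1)

/-- HES. The homotopy data of the three-sphere (uses T_BK1, T_BK4, T_BXC, T_BXH, T_KAV, T_GMV, T_GMH, T_GMP, T_PIC, T_FLD, T_HTC3, T_HTC1). PROOF. Given `F', ε'`: T_FLD for the circle (`u, l` of T_HTC1, `Kp = {0 ≤ im}`, `Km = {im ≤ 0}`): `m'`. Given `F, ε`: T_FLD for `M3` (T_HTC3, `Kp = {0 ≤ h}`, `Km = {h ≤ 0}`): `m_a`; T_PIC: `M`, `P i`; T_GMP: `m₁`;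
`m = m_a + M`. Given `H, H', δ` take `N` so large that T_BXH holds for `P i`, `i ≤ M`, with `H, δ`, T_GMH holds, and `1 - t = 1 / (N + 2)` (`t = (N+1)/(N+2)`) is small enough for T_FLD. `k = N + 1`, `γ = gam N`, `P` from T_BK4, `P₀ = 1 ⊗ pp n0` (trace `N + 1`). `Ψ i` for `i ≤ m_a` from T_FLD with `n = Fin (N+1) × Fin 2`, `Ψ (m_a + i) = bx N (P i)`:
`bx N (P 0 f) x = bn N (m ↦ f (u x) • pp m + f (l x) • pm m) = f (u x) • t P + f (l x) • (1 - t P)` if `0 ≤ h`, and `1 ⊗ (f (u x) • pp n0 + f (l x) • pm n0)` otherwise. `bx N (P M f) x` at `(a, i), (c, j)` is `gam f (s1 h ‖w‖) a c * pp (un w) i j + gam f (s1 h (-‖w‖)) a c * pm (un w) i j = kap (ent (gam N f) a c) x i j`.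
`Ψ'`: T_FLD for the circle with `n = Fin 2 × Fin (N+1)` and the reindexed `P, P₀`: `gam N (ent (kap g) i j) z a c = bk N (m ↦ kap g (Gm (z, m)) i j) a c`, `kap g (Gm (z, m)) = g (u z) • pp (mt (im z) m) + g (l z) • pm (mt (im z) m)`. -/
def T_HES : Prop := HE M3 k3 2 kap

/-- HEC. The homotopy data of the circle (uses T_PTC). PROOF. `κ g x = g x • 1`, `k = 1`, `γ f x = f x • 1`, `Ψ i f x = f x • 1` for all `i`, `m = m' = 0`, `ζ = 1`. -/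
def T_HEC : Prop := ∃ κ : C(S1, ℂ) → C(S1, Matrix (Fin 1) (Fin 1) ℂ), KP 1 κ ∧ (∀ g x, κ g x = g x • (1 : Matrix (Fin 1) (Fin 1) ℂ)) ∧ HE S1 1 1 κ

end Pool.Agent.FPS
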