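import Pool.Agent.FPS.Targets7
import Pool.Agent.FPS.Targets4

set_option autoImplicit false

/-!
# FPS: the collapse of the three-sphere (CM3)
-/

open scoped Classical unitInterval
open MeasureTheory Pool.Agent.FPZ

noncomputable section

namespace Pool.Agent.FPS

namespace CM3_

lemma hle (x : M3) : x.1.2 ≤ 1 := by
  have := x.2
  nlinarith [sq_nonneg ‖x.1.1‖, sq_nonneg (x.1.2 - 1)]

lemma hge (x : M3) : -1 ≤ x.1.2 := by
  have := x.2
  nlinarith [sq_nonneg ‖x.1.1‖, sq_nonneg (x.1.2 + 1)]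

lemma hzero (x : M3) (h : x.1.1 = 0) : x.1.2 = 1 ∨ x.1.2 = -1 := by
  have h2 := x.2
  rw [h, norm_zero] at h2
  have : (x.1.2 - 1) * (x.1.2 + 1) = 0 := by nlinarith
  rcases mul_eq_zero.1 this with h3 | h3
  · left; linarith
  · right; linarith

lemma norm_un (v : E3) (hv : v ≠ 0) : ‖un v‖ = 1 := by
  rw [un, norm_smul, norm_inv, norm_norm, inv_mul_cancel₀ (norm_ne_zero_iff.2 hv)]

lemma norm_un_le (v : E3) : ‖un v‖ ≤ 1 := by
  by_cases hv : v = 0
  · rw [hv, un, norm_zero, inv_zero, zero_smul, norm_zero]; norm_num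
  · exact (norm_un v hv).le

lemma norm_smul_un (v : E3) : ‖v‖ • un v = v := by
  by_cases hv : v = 0
  · rw [hv, un, norm_zero, zero_smul]
  · rw [un, smul_smul, mul_inv_cancel₀ (norm_ne_zero_iff.2 hv), one_smul]

/-- The radius function. -/
def rf (G : C(ℝ, ℝ)) (a : ℝ) : ℝ := Real.pi * max 0 (4 * G a - 3)

lemma rf_cont (G : C(ℝ, ℝ)) : Continuous (rf G) := by
  unfold rf
  fun_prop

/-- The angle in the homotopy. -/
def rho (G : C(ℝ, ℝ)) (p : ℝ × M3) : ℝ :=
  (1 - p.1) * Real.arccos p.2.1.2 + p.1 * rf G p.2.1.2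

lemma rho_cont (G : C(ℝ, ℝ)) : Continuous (rho G) := by
  unfold rho
  have h1 : Continuous fun p : ℝ × M3 => p.2.1.2 := by fun_prop
  have h2 := Real.continuous_arccos.comp h1
  have h3 := (rf_cont G).comp h1
  exact ((continuous_const.sub continuous_fst).mul h2).add (continuous_fst.mul h3)

lemma sin_rho (G : C(ℝ, ℝ)) (h1 : G 1 = 0) (h2 : G (-1) = 1) (p : ℝ × M3) (hp : p.2.1.1 = 0) :
    Real.sin (rho G p) = 0 := by
  rcases hzero p.2 hp with h | h
  · have : rho G p = 0 := by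
      rw [rho, h, rf, h1, Real.arccos_one]
      norm_num
    rw [this, Real.sin_zero]
  · have : rho G p = Real.pi := by
      rw [rho, h, rf, h2, Real.arccos_neg_one]
      norm_num
      ring
    rw [this, Real.sin_pi]

/-- The first component of the homotopy. -/
def fc (G : C(ℝ, ℝ)) (p : ℝ × M3) : E3 := Real.sin (rho G p) • un p.2.1.1

lemma fc_cont (G : C(ℝ, ℝ)) (h1 : G 1 = 0) (h2 : G (-1) = 1) : Continuous (fc G) := by
  rw [continuous_iff_continuousAt]
  intro p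
  have hs : Continuous fun p : ℝ × M3 => Real.sin (rho G p) :=
    Real.continuous_sin.comp (rho_cont G)
  have hw : Continuous fun p : ℝ × M3 => p.2.1.1 := by fun_prop
  by_cases hp : p.2.1.1 = 0
  · have h0 : fc G p = 0 := by
      rw [fc, sin_rho G h1 h2 p hp, zero_smul]
    rw [ContinuousAt, h0]
    have hs0 : Filter.Tendsto (fun p : ℝ × M3 => |Real.sin (rho G p)|) (nhds p) (nhds 0) := by
      have := (hs.abs).tendsto p
      rwa [sin_rho G h1 h2 p hp, abs_zero] at this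
    refine squeeze_zero_norm (fun q => ?_) hs0
    rw [fc, norm_smul, Real.norm_eq_abs]
    exact mul_le_of_le_one_right (abs_nonneg _) (norm_un_le _)
  · refine ContinuousAt.smul hs.continuousAt ?_
    show ContinuousAt (fun p : ℝ × M3 => ‖p.2.1.1‖⁻¹ • p.2.1.1) p
    refine ContinuousAt.smul (ContinuousAt.inv₀ hw.norm.continuousAt ?_) hw.continuousAt
    exact norm_ne_zero_iff.2 hp

lemma fc_norm (G : C(ℝ, ℝ)) (h1 : G 1 = 0) (h2 : G (-1) = 1) (p : ℝ × M3) :
    ‖fc G p‖ = |Real.sin (rho G p)| := by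
  by_cases hp : p.2.1.1 = 0
  · rw [fc, sin_rho G h1 h2 p hp, zero_smul, norm_zero, abs_zero]
  · rw [fc, norm_smul, norm_un _ hp, mul_one, Real.norm_eq_abs]

/-- The homotopy. -/
def hm (G : C(ℝ, ℝ)) (h1 : G 1 = 0) (h2 : G (-1) = 1) (p : ℝ × M3) : M3 :=
  ⟨(fc G p, Real.cos (rho G p)), by
    show ‖fc G p‖ ^ 2 + Real.cos (rho G p) ^ 2 = 1
    rw [fc_norm G h1 h2 p, sq_abs]
    exact Real.sin_sq_add_cos_sq _⟩

lemma hm_cont (G : C(ℝ, ℝ)) (h1 : G 1 = 0) (h2 : G (-1) = 1) : Continuous (hm G h1 h2) := by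
  refine Continuous.subtype_mk ?_ _
  exact (fc_cont G h1 h2).prodMk (Real.continuous_cos.comp (rho_cont G))

lemma hm_zero (G : C(ℝ, ℝ)) (h1 : G 1 = 0) (h2 : G (-1) = 1) (x : M3) :
    hm G h1 h2 (0, x) = x := by
  have hr : rho G (0, x) = Real.arccos x.1.2 := by
    simp [rho]
  apply Subtype.ext
  apply Prod.ext
  · show fc G (0, x) = x.1.1
    have : Real.sin (Real.arccos x.1.2) = ‖x.1.1‖ := by
      rw [Real.sin_arccos]
      have : 1 - x.1.2 ^ 2 = ‖x.1.1‖ ^ 2 := by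
        have := x.2
        linarith
      rw [this, Real.sqrt_sq (norm_nonneg _)]
    rw [fc, hr, this]
    exact norm_smul_un _
  · show Real.cos (rho G (0, x)) = x.1.2
    rw [hr, Real.cos_arccos (hge x) (hle x)]

lemma rho_one (G : C(ℝ, ℝ)) (x : M3) : rho G (1, x) = rf G x.1.2 := by
  simp [rho]

lemma tr_pp (v : E3) : ∑ i, pp v i i = 1 := by
  rw [Fin.sum_univ_two]
  simp [pp, sg]
  ring

lemma tr_pm (v : E3) : ∑ i, pm v i i = 1 := by
  rw [Fin.sum_univ_two]
  simp [pm, sg]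
  ring

lemma tr_kapf (g : C(S1, ℂ)) (x : M3) :
    ∑ i, kapf g x i i = g (s1 x.1.2 ‖x.1.1‖) + g (s1 x.1.2 (-‖x.1.1‖)) := by
  have e : ∀ i, kapf g x i i = g (s1 x.1.2 ‖x.1.1‖) * pp (un x.1.1) i i
      + g (s1 x.1.2 (-‖x.1.1‖)) * pm (un x.1.1) i i := by
    intro i
    simp [kapf]
  simp only [e]
  rw [Finset.sum_add_distrib, ← Finset.mul_sum, ← Finset.mul_sum, tr_pp, tr_pm, mul_one, mul_one]

lemma s1_cpt (ρ : ℝ) : s1 (Real.cos ρ) (Real.sin ρ) = cpt (ρ / (2 * Real.pi)) := by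
  have e : (⟨Real.cos ρ, Real.sin ρ⟩ : ℂ) = Complex.exp (ρ * Complex.I) := by
    rw [Complex.exp_mul_I]
    apply Complex.ext
    · simp [Complex.cos_ofReal_re, Complex.sin_ofReal_im]
    · simp [Complex.cos_ofReal_im, Complex.sin_ofReal_re]
  have hn : ‖(⟨Real.cos ρ, Real.sin ρ⟩ : ℂ)‖ = 1 := by
    rw [e, Complex.norm_exp_ofReal_mul_I]
  rw [s1, dif_pos hn]
  apply Subtype.ext
  show (⟨Real.cos ρ, Real.sin ρ⟩ : ℂ) = Complex.exp (2 * Real.pi * (ρ / (2 * Real.pi) : ℝ) * Complex.I)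
  rw [e]
  congr 1
  have hpi : (Real.pi : ℂ) ≠ 0 := by
    exact_mod_cast Real.pi_ne_zero
  push_cast
  field_simp

lemma s1_cpt' (ρ : ℝ) : s1 (Real.cos ρ) (-Real.sin ρ) = cpt (-(ρ / (2 * Real.pi))) := by
  have := s1_cpt (-ρ)
  rw [Real.cos_neg, Real.sin_neg] at this
  rw [this, neg_div]

lemma cpt_cont : Continuous cpt := by
  unfold cpt
  refine Continuous.subtype_mk ?_ _
  fun_prop

lemma cpt_per (s : ℝ) : cpt (s + 1) = cpt s := by
  apply Subtype.ext
  show Complex.exp (2 * Real.pi * ((s + 1 : ℝ) : ℂ) * Complex.I)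
    = Complex.exp (2 * Real.pi * (s : ℂ) * Complex.I)
  have : (2 * Real.pi * ((s + 1 : ℝ) : ℂ) * Complex.I)
      = 2 * Real.pi * (s : ℂ) * Complex.I + 2 * Real.pi * Complex.I := by
    push_cast
    ring
  rw [this, Complex.exp_add, Complex.exp_two_pi_mul_I, mul_one]

lemma cpt_zero : cpt 0 = 1 := by
  apply Subtype.ext
  show Complex.exp (2 * Real.pi * ((0 : ℝ) : ℂ) * Complex.I) = 1
  simp

/-- The function in the integral formula. -/
def ff (g : C(S1, ℂ)) : C(ℝ, ℂ) :=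
  ⟨fun y => g (cpt (max 0 (4 * y - 3) / 2)) + g (cpt (-(max 0 (4 * y - 3) / 2))), by
    have h1 : Continuous fun y : ℝ => max 0 (4 * y - 3) / 2 := by fun_prop
    exact (g.continuous.comp (cpt_cont.comp h1)).add (g.continuous.comp (cpt_cont.comp h1.neg))⟩

lemma ff_int (g : C(S1, ℂ)) :
    ∫ y in (0 : ℝ)..1, ff g y = (3 / 2) * g 1 + (1 / 2) * ∫ s in (0 : ℝ)..1, g (cpt s) := by
  have hg : Continuous fun s : ℝ => g (cpt s) := g.continuous.comp cpt_cont
  have hi : ∀ a b : ℝ, IntervalIntegrable (ff g) volume a b :=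
    fun a b => (ff g).continuous.intervalIntegrable a b
  rw [← intervalIntegral.integral_add_adjacent_intervals (hi 0 (3 / 4)) (hi (3 / 4) 1)]
  have e1 : ∫ y in (0 : ℝ)..(3 / 4), ff g y = (3 / 2) * g 1 := by
    have : ∫ y in (0 : ℝ)..(3 / 4), ff g y = ∫ y in (0 : ℝ)..(3 / 4), (2 * g 1 : ℂ) := by
      apply intervalIntegral.integral_congr
      intro y hy
      rw [Set.uIcc_of_le (by norm_num)] at hy
      have hm : max 0 (4 * y - 3) = 0 := max_eq_left (by linarith [hy.2])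
      show g (cpt (max 0 (4 * y - 3) / 2)) + g (cpt (-(max 0 (4 * y - 3) / 2))) = 2 * g 1
      rw [hm, zero_div, neg_zero, cpt_zero]
      ring
    rw [this, intervalIntegral.integral_const]
    simp only [sub_zero, Complex.real_smul]
    push_cast
    ring
  have e2 : ∫ y in (3 / 4 : ℝ)..1, ff g y
      = (1 / 2) * ∫ s in (0 : ℝ)..1, g (cpt s) := by
    have a1 : ∫ y in (3 / 4 : ℝ)..1, ff g y
        = ∫ y in (3 / 4 : ℝ)..1, (g (cpt (2 * y - 3 / 2)) + g (cpt (3 / 2 - 2 * y))) := by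
      apply intervalIntegral.integral_congr
      intro y hy
      rw [Set.uIcc_of_le (by norm_num)] at hy
      have hm : max 0 (4 * y - 3) = 4 * y - 3 := max_eq_right (by linarith [hy.1])
      show g (cpt (max 0 (4 * y - 3) / 2)) + g (cpt (-(max 0 (4 * y - 3) / 2)))
        = g (cpt (2 * y - 3 / 2)) + g (cpt (3 / 2 - 2 * y))
      rw [hm]
      congr 3 <;> ring
    have c1 : Continuous fun y : ℝ => g (cpt (2 * y - 3 / 2)) := by
      exact hg.comp (by fun_prop : Continuous fun y : ℝ => 2 * y - 3 / 2)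
    have c2 : Continuous fun y : ℝ => g (cpt (3 / 2 - 2 * y)) := by
      exact hg.comp (by fun_prop : Continuous fun y : ℝ => 3 / 2 - 2 * y)
    rw [a1, intervalIntegral.integral_add (c1.intervalIntegrable _ _) (c2.intervalIntegrable _ _)]
    have b1 := intervalIntegral.integral_comp_mul_sub (a := 3 / 4) (b := 1)
      (fun s : ℝ => g (cpt s)) (c := 2) (by norm_num) (3 / 2)
    have b2 := intervalIntegral.integral_comp_sub_mul (a := 3 / 4) (b := 1)
      (fun s : ℝ => g (cpt s)) (c := 2) (by norm_num) (3 / 2)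
    rw [b1, b2]
    norm_num
    have hs : ∫ s in (0 : ℝ)..1, g (cpt s) = ∫ s in (-(1 / 2) : ℝ)..(1 / 2), g (cpt s) := by
      have hper : Function.Periodic (fun s : ℝ => g (cpt s)) 1 := fun s => by
        show g (cpt (s + 1)) = g (cpt s)
        rw [cpt_per]
      have := hper.intervalIntegral_add_eq 0 (-(1 / 2))
      rw [zero_add] at this
      rw [this]
      norm_num
    rw [hs, ← intervalIntegral.integral_add_adjacent_intervals
      (hg.intervalIntegrable (-(1 / 2)) 0) (hg.intervalIntegrable 0 (1 / 2))]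
    norm_num
    ring
  rw [e1, e2]

end CM3_

open CM3_ in
/-- The collapse of the three-sphere. -/
theorem p_CM3 (h_PIT : T_PIT) (h_KAV : T_KAV) (h_NU1 : T_NU1) : T_CM3 := by
  intro μ _ hμ
  have hcont : Continuous fun x : M3 => x.1.2 := by fun_prop
  obtain ⟨G, hG1, hG2, hG3⟩ := h_PIT M3 μ ⟨fun x : M3 => x.1.2, hcont⟩ hμ
  have hG1' : ∀ a, G a = (μ {x : M3 | a ≤ x.1.2}).toReal := hG1
  have hG2' : ∀ y : ℝ, 0 ≤ y → y ≤ 1 → (μ {x : M3 | G x.1.2 < y}).toReal = y := hG2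
  have hG3' : ∀ f : C(ℝ, ℂ), ∫ x : M3, f (G x.1.2) ∂μ = ∫ y in (0 : ℝ)..1, f y := hG3
  have h1 : G 1 = 0 := by
    rw [hG1']
    have : {x : M3 | 1 ≤ x.1.2} = {x : M3 | x.1.2 = 1} := by
      ext x
      exact ⟨fun h => le_antisymm (hle x) h, fun h => h.ge⟩
    rw [this, hμ 1]
    simp
  have h2 : G (-1) = 1 := by
    rw [hG1']
    have : {x : M3 | -1 ≤ x.1.2} = Set.univ := by
      ext x
      exact ⟨fun _ => trivial, fun _ => hge x⟩
    rw [this, measure_univ]
    simp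
  have hG01 : ∀ a, 0 ≤ G a ∧ G a ≤ 1 := by
    intro a
    rw [hG1']
    refine ⟨ENNReal.toReal_nonneg, ?_⟩
    have := prob_le_one (μ := μ) (s := {x : M3 | a ≤ x.1.2})
    calc (μ {x : M3 | a ≤ x.1.2}).toReal ≤ (1 : ENNReal).toReal :=
          ENNReal.toReal_mono (by simp) this
      _ = 1 := by simp
  let c : C(M3, M3) := ⟨fun x => hm G h1 h2 (1, x),
    (hm_cont G h1 h2).comp (by fun_prop : Continuous fun x : M3 => ((1 : ℝ), x))⟩
  have hc : ∀ x, c x = hm G h1 h2 (1, x) := fun x => rfl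
  refine ⟨c, {x | G x.1.2 < 3 / 4}, ?_, ?_, ?_, ?_, ?_⟩
  · refine ⟨⟨⟨fun p => hm G h1 h2 ((p.1 : ℝ), p.2), ?_⟩, ?_, ?_⟩⟩
    · exact (hm_cont G h1 h2).comp
        (by fun_prop : Continuous fun p : I × M3 => ((p.1 : ℝ), p.2))
    · intro x
      exact hm_zero G h1 h2 x
    · intro x
      rfl
  · exact isOpen_lt (G.continuous.comp hcont) continuous_const
  · intro x hx
    have hx' : G x.1.2 < 3 / 4 := hx
    have hr : rho G (1, x) = 0 := by
      rw [rho_one, rf, max_eq_left (by linarith), mul_zero]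
    rw [hc]
    apply Subtype.ext
    apply Prod.ext
    · show fc G (1, x) = 0
      rw [fc, hr, Real.sin_zero, zero_smul]
    · show Real.cos (rho G (1, x)) = 1
      rw [hr, Real.cos_zero]
  · rw [hG2' (3 / 4) (by norm_num) (by norm_num)]
    norm_num
  · intro g
    have key : ∀ x, ∑ i, kap g (c x) i i = ff g (G x.1.2) := by
      intro x
      rw [h_KAV.1 g (c x), tr_kapf, hc]
      set τ : ℝ := max 0 (4 * G x.1.2 - 3) with hτ
      have hτ0 : 0 ≤ τ := le_max_left _ _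
      have hτ1 : τ ≤ 1 := max_le (by norm_num) (by linarith [(hG01 x.1.2).2])
      have hr : rho G (1, x) = Real.pi * τ := by
        rw [rho_one, rf]
      have hn : ‖(hm G h1 h2 (1, x)).1.1‖ = Real.sin (Real.pi * τ) := by
        show ‖fc G (1, x)‖ = _
        rw [fc_norm G h1 h2, hr, abs_of_nonneg]
        apply Real.sin_nonneg_of_nonneg_of_le_pi
        · positivity
        · nlinarith [Real.pi_pos]
      have hh : (hm G h1 h2 (1, x)).1.2 = Real.cos (Real.pi * τ) := by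
        show Real.cos (rho G (1, x)) = _
        rw [hr]
      rw [hn, hh, s1_cpt, s1_cpt']
      show _ = g (cpt (τ / 2)) + g (cpt (-(τ / 2)))
      have : Real.pi * τ / (2 * Real.pi) = τ / 2 := by
        field_simp
      rw [this]
    simp only [key]
    rw [hG3' (ff g), ff_int, h_NU1.2.2.1 g, h_NU1.2.2.2 g]
    push_cast
    ring

end Pool.Agent.FPS
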