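import Pool.Agent.FPS.Targets1
import Pool.Agent.FPZ.Targets1

set_option autoImplicit false

/-!
# FPS: cancellation (target T_CNC)
-/

open scoped Classical
open MeasureTheory Pool.Agent.FPZ

noncomputable section

namespace Pool.Agent.FPS

namespace CNC_

variable {A : Type} [CStarAlgebra A]

theorem uni_mul {u v : A} (hu : Uni u) (hv : Uni v) : Uni (u * v) := by
  constructor
  · calc star (u * v) * (u * v) = star v * (star u * u) * v := by rw [star_mul]; noncomm_ring
      _ = 1 := by rw [hu.1, mul_one, hv.1]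
  · calc (u * v) * star (u * v) = u * (v * star v) * star u := by rw [star_mul]; noncomm_ring
      _ = 1 := by rw [hv.2, mul_one, hu.2]

theorem proj_mul (w P : A) (hP : IsStarProjection P) (hw : star w * w = P) : w * P = w := by
  have h1 : P * P = P := hP.isIdempotentElem
  have h2 : star P = P := hP.isSelfAdjoint
  have h3 : star (w * P - w) * (w * P - w) = 0 := by
    calc star (w * P - w) * (w * P - w) =
        star P * (star w * w) * P - star P * (star w * w) - (star w * w) * P + star w * w := by
          rw [star_sub, star_mul]; noncomm_ring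
      _ = 0 := by rw [hw, h2, h1, h1]; noncomm_ring
  have h4 := (CStarRing.star_mul_self_eq_zero_iff _).1 h3
  exact sub_eq_zero.1 h4

/-- the sum over a set of pairwise orthogonal projections -/
theorem sum_mul_mem {n : ℕ} {p : Fin n → A} (hp : ∀ i, IsStarProjection (p i))
    (ho : ∀ i j, i ≠ j → p i * p j = 0) (S : Finset (Fin n)) {j : Fin n} (hj : j ∈ S) :
    (∑ i ∈ S, p i) * p j = p j := by
  rw [Finset.sum_mul, Finset.sum_eq_single_of_mem j hj (fun i _ hi => ho i j hi)]
  exact (hp j).isIdempotentElem

theorem mul_sum_mem {n : ℕ} {p : Fin n → A} (hp : ∀ i, IsStarProjection (p i))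
    (ho : ∀ i j, i ≠ j → p i * p j = 0) (S : Finset (Fin n)) {j : Fin n} (hj : j ∈ S) :
    p j * (∑ i ∈ S, p i) = p j := by
  rw [Finset.mul_sum, Finset.sum_eq_single_of_mem j hj (fun i _ hi => ho j i (Ne.symm hi))]
  exact (hp j).isIdempotentElem

theorem sum_mul_not {n : ℕ} {p : Fin n → A}
    (ho : ∀ i j, i ≠ j → p i * p j = 0) (S : Finset (Fin n)) {j : Fin n} (hj : j ∉ S) :
    (∑ i ∈ S, p i) * p j = 0 := by
  rw [Finset.sum_mul]
  exact Finset.sum_eq_zero fun i hi => ho i j (fun h => hj (h ▸ hi))

theorem sum_proj {n : ℕ} {p : Fin n → A} (hp : ∀ i, IsStarProjection (p i))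
    (ho : ∀ i j, i ≠ j → p i * p j = 0) (S : Finset (Fin n)) :
    (∑ i ∈ S, p i) * (∑ i ∈ S, p i) = ∑ i ∈ S, p i ∧ star (∑ i ∈ S, p i) = ∑ i ∈ S, p i := by
  constructor
  · rw [Finset.mul_sum]
    exact Finset.sum_congr rfl fun j hj => sum_mul_mem hp ho S hj
  · rw [star_sum]
    exact Finset.sum_congr rfl fun j _ => (hp j).isSelfAdjoint

theorem ind (h_CAN : T_CAN) (h_TSB : T_TSB) (φ : A →L[ℂ] ℂ) (hR : Rich φ) (P w : A)
    (hP : IsStarProjection P) (hw : star w * w = P) {n : ℕ} (p : Fin n → A)
    (hp : ∀ i, IsStarProjection (p i) ∧ (φ (p i)).re < (1 - (φ P).re) / 2)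
    (ho : ∀ i j, i ≠ j → p i * p j = 0) (hs : ∑ i, p i = P) (S : Finset (Fin n)) :
    ∃ u : A, Uni u ∧ ∀ i ∈ S, u * p i = w * p i := by
  induction S using Finset.induction_on with
  | empty => exact ⟨1, by simp [Uni], by simp⟩
  | insert k S hk ih =>
    obtain ⟨u, hu, hup⟩ := ih
    have hp1 : ∀ i, IsStarProjection (p i) := fun i => (hp i).1
    set Q : A := ∑ i ∈ S, p i with hQ
    obtain ⟨hQQ, hQs⟩ := sum_proj hp1 ho S
    rw [← hQ] at hQQ hQs
    have hQk : Q * p k = 0 := sum_mul_not ho S hk
    have hpP : ∀ i, P * p i = p i := fun i => by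
      rw [← hs]; exact sum_mul_mem hp1 ho Finset.univ (Finset.mem_univ i)
    have hpP' : ∀ i, p i * P = p i := fun i => by
      rw [← hs]; exact mul_sum_mem hp1 ho Finset.univ (Finset.mem_univ i)
    have hQP : Q * P = Q := by
      rw [hQ, Finset.sum_mul]; exact Finset.sum_congr rfl fun i _ => hpP' i
    have hkk : p k * p k = p k := (hp1 k).isIdempotentElem
    have hks : star (p k) = p k := (hp1 k).isSelfAdjoint
    have hwQ : u * Q = w * Q := by
      rw [hQ, Finset.mul_sum, Finset.mul_sum]
      exact Finset.sum_congr rfl hup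
    have hQw : Q * star u = Q * star w := by
      have h1 := congrArg star hwQ
      rw [star_mul, star_mul, hQs] at h1
      exact h1
    set M : A := u * Q * star u with hM
    have hM' : M = w * Q * star w := by
      calc M = u * Q * (Q * star u) := by
            rw [hM]
            calc u * Q * star u = u * (Q * Q) * star u := by rw [hQQ]
              _ = u * Q * (Q * star u) := by noncomm_ring
        _ = w * Q * (Q * star w) := by rw [hwQ, hQw]
        _ = w * (Q * Q) * star w := by noncomm_ring
        _ = w * Q * star w := by rw [hQQ]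
    have hMp : IsStarProjection M := by
      refine ⟨?_, ?_⟩
      · show M * M = M
        calc M * M = u * Q * (star u * u) * Q * star u := by rw [hM]; noncomm_ring
          _ = u * (Q * Q) * star u := by rw [hu.1]; noncomm_ring
          _ = M := by rw [hQQ]
      · show star M = M
        rw [hM, star_mul, star_mul, star_star, hQs, mul_assoc]
    set q : A := u * p k * star u with hq
    have hqp : IsStarProjection q := by
      refine ⟨?_, ?_⟩
      · show q * q = q
        calc q * q = u * p k * (star u * u) * p k * star u := by rw [hq]; noncomm_ring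
          _ = u * (p k * p k) * star u := by rw [hu.1]; noncomm_ring
          _ = q := by rw [hkk]
      · show star q = q
        rw [hq, star_mul, star_mul, star_star, hks, mul_assoc]
    set v : A := w * p k * star u with hv
    have hvv : star v * v = q := by
      calc star v * v = u * (p k * ((star w * w) * p k)) * star u := by
            rw [hv, star_mul, star_mul, star_star, hks]; noncomm_ring
        _ = u * p k * star u := by rw [hw, hpP, hkk]
        _ = q := rfl
    have hMq : M * q = 0 := by
      calc M * q = u * Q * (star u * u) * p k * star u := by rw [hM, hq]; noncomm_ring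
        _ = u * (Q * p k) * star u := by rw [hu.1]; noncomm_ring
        _ = 0 := by rw [hQk]; noncomm_ring
    have hMv : M * v = 0 := by
      calc M * v = w * (Q * (star w * w)) * p k * star u := by rw [hM', hv]; noncomm_ring
        _ = w * (Q * p k) * star u := by rw [hw, hQP]; noncomm_ring
        _ = 0 := by rw [hQk]; noncomm_ring
    have hφM : φ M = φ Q := by
      rw [hM, hR.ts.tr (u * Q) (star u), ← mul_assoc, hu.1, one_mul]
    have hφq : φ q = φ (p k) := by
      rw [hq, hR.ts.tr (u * p k) (star u), ← mul_assoc, hu.1, one_mul]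
    have hsum : (φ Q).re + (φ (p k)).re ≤ (φ P).re := by
      have h1 : (φ P).re = ∑ i, (φ (p i)).re := by
        rw [← hs, map_sum, Complex.re_sum]
      have h2 : (φ Q).re + (φ (p k)).re = ∑ i ∈ insert k S, (φ (p i)).re := by
        rw [Finset.sum_insert hk, hQ, map_sum, Complex.re_sum, add_comm]
      rw [h1, h2]
      exact Finset.sum_le_sum_of_subset_of_nonneg (Finset.subset_univ _)
        fun i _ _ => ((h_TSB A φ hR.ts).1 (p i) (hp1 i)).1
    have hlt : (φ M).re + 2 * (φ q).re < 1 := by
      rw [hφM, hφq]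
      have := (hp k).2
      have h3 : 0 ≤ (φ (p k)).re := ((h_TSB A φ hR.ts).1 (p k) (hp1 k)).1
      have h4 : (φ P).re < 1 := by linarith
      linarith
    obtain ⟨u', hu', h1, h2, _⟩ := h_CAN A φ hR M q v hMp hqp hvv hMq hMv hlt
    refine ⟨u' * u, uni_mul hu' hu, ?_⟩
    intro i hi
    rcases Finset.mem_insert.1 hi with rfl | hi
    · calc u' * u * p i = u' * (u * p i * (star u * u)) := by rw [hu.1]; noncomm_ring
        _ = u' * q * u := by rw [hq]; noncomm_ring
        _ = w * p i * (star u * u) := by rw [h1, hv]; noncomm_ring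
        _ = w * p i := by rw [hu.1, mul_one]
    · have hMu : M * (u * p i) = u * p i := by
        calc M * (u * p i) = u * Q * (star u * u) * p i := by rw [hM]; noncomm_ring
          _ = u * (Q * p i) := by rw [hu.1]; noncomm_ring
          _ = u * p i := by rw [hQ, sum_mul_mem hp1 ho S hi]
      calc u' * u * p i = u' * (M * (u * p i)) := by rw [hMu, mul_assoc]
        _ = (u' * M) * (u * p i) := by noncomm_ring
        _ = w * p i := by rw [h2, hMu, hup i hi]

end CNC_

theorem p_CNC (h_CAN : T_CAN) (h_SPT : T_SPT) (h_TSB : T_TSB) : T_CNC := by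
  intro A _ φ hR P w hP hw
  have hB := h_TSB A φ hR.ts
  have hwP := CNC_.proj_mul w P hP hw
  have hPP : P * P = P := hP.isIdempotentElem
  have hPs : star P = P := hP.isSelfAdjoint
  have compl : ∀ Q : A, IsStarProjection Q → IsStarProjection (1 - Q) := by
    intro Q hQ
    have h1 : Q * Q = Q := hQ.isIdempotentElem
    have h2 : star Q = Q := hQ.isSelfAdjoint
    refine ⟨?_, ?_⟩
    · show (1 - Q) * (1 - Q) = 1 - Q
      calc (1 - Q) * (1 - Q) = 1 - Q - Q + Q * Q := by noncomm_ring
        _ = 1 - Q := by rw [h1]; noncomm_ring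
    · show star (1 - Q) = 1 - Q
      rw [star_sub, star_one, h2]
  have full : ∀ Q : A, IsStarProjection Q → (φ Q).re = 1 → Q = 1 := by
    intro Q hQ h1
    have h2 := (hB.1 (1 - Q) (compl Q hQ)).2.2.2
    have h3 : (φ (1 - Q)).re = 0 := by
      rw [map_sub, hR.ts.one, Complex.sub_re, h1, Complex.one_re, sub_self]
    exact (sub_eq_zero.1 (h2 h3)).symm
  by_cases h1 : (φ P).re = 1
  · have hP1 := full P hP h1
    obtain ⟨h2, h3⟩ := hB.2.2.2.1 P w hP hw
    have h4 : w * star w = 1 := full _ h2 (by rw [h3]; exact h1)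
    refine ⟨w, ⟨by rw [hw, hP1], h4⟩, hwP⟩
  · have hlt : (φ P).re < 1 := lt_of_le_of_ne (hB.1 P hP).2.1 h1
    obtain ⟨n, p, hp, ho, hs⟩ := h_SPT A φ hR P ((1 - (φ P).re) / 2) hP (by linarith)
    obtain ⟨u, hu, hup⟩ := CNC_.ind h_CAN h_TSB φ hR P w hP hw p hp ho hs Finset.univ
    refine ⟨u, hu, ?_⟩
    calc u * P = ∑ i, u * p i := by rw [← hs, Finset.mul_sum]
      _ = ∑ i, w * p i := Finset.sum_congr rfl hup
      _ = w * P := by rw [← hs, Finset.mul_sum]
      _ = w := hwP

end Pool.Agent.FPS
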