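import Pool.Agent.FPS.Targets2

set_option autoImplicit false

/-!
# FPS: CPM, complete positivity of positive maps of `C(K)`
-/

open scoped Classical ComplexOrder MatrixOrder
open MeasureTheory Pool.Agent.FPZ

noncomputable section

namespace Pool.Agent.FPS

namespace CPM_

/-! ### matrices -/

/-- a positive semidefinite matrix has a root -/
theorem root {n : Type} [Fintype n] {P : Matrix n n ℂ} (hP : P.PosSemidef) :
    ∃ N : Matrix n n ℂ, P = N.conjTranspose * N := by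
  obtain ⟨B, hB⟩ := CStarAlgebra.nonneg_iff_eq_star_mul_self.mp hP.nonneg
  exact ⟨B, hB⟩

/-- the defect of a contraction -/
theorem defect {n : Type} [Fintype n] (M : Matrix n n ℂ) {B : ℝ}
    (h : opn M ≤ B) :
    ∃ N : Matrix n n ℂ, ((B : ℂ) ^ 2) • (1 : Matrix n n ℂ) - M.conjTranspose * M =
      N.conjTranspose * N := by
  refine root (Matrix.PosSemidef.of_dotProduct_mulVec_nonneg ?_ ?_)
  · refine Matrix.IsHermitian.sub ?_ (Matrix.isHermitian_conjTranspose_mul_self M)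
    unfold Matrix.IsHermitian
    rw [Matrix.conjTranspose_smul, Matrix.conjTranspose_one]
    congr 1
    simp
  · intro x
    have hx : ‖Matrix.toEuclideanCLM (n := n) (𝕜 := ℂ) M (WithLp.toLp 2 x)‖ ≤
        B * ‖(WithLp.toLp 2 x : EuclideanSpace ℂ n)‖ :=
      ((Matrix.toEuclideanCLM (n := n) (𝕜 := ℂ) M).le_opNorm _).trans
        (mul_le_mul_of_nonneg_right h (norm_nonneg _))
    have hx2 : ‖Matrix.toEuclideanCLM (n := n) (𝕜 := ℂ) M (WithLp.toLp 2 x)‖ ^ 2 ≤
        B ^ 2 * ‖(WithLp.toLp 2 x : EuclideanSpace ℂ n)‖ ^ 2 := by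
      rw [← mul_pow]
      exact pow_le_pow_left₀ (norm_nonneg _) hx 2
    rw [Matrix.toEuclideanCLM_toLp, EuclideanSpace.norm_sq_eq, EuclideanSpace.norm_sq_eq] at hx2
    have h1 : star x ⬝ᵥ (((B : ℂ) ^ 2) • (1 : Matrix n n ℂ) - M.conjTranspose * M).mulVec x =
        ((B ^ 2 * ∑ i, ‖x i‖ ^ 2 - ∑ i, ‖(M.mulVec x) i‖ ^ 2 : ℝ) : ℂ) := by
      rw [Matrix.sub_mulVec, dotProduct_sub, Matrix.smul_mulVec, Matrix.one_mulVec,
        dotProduct_smul, ← Matrix.mulVec_mulVec, Matrix.dotProduct_mulVec,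
        Matrix.vecMul_conjTranspose, star_star]
      have h2 : ∀ y : n → ℂ, star y ⬝ᵥ y = ((∑ i, ‖y i‖ ^ 2 : ℝ) : ℂ) := by
        intro y
        unfold dotProduct
        push_cast
        refine Finset.sum_congr rfl fun i _ => ?_
        rw [Pi.star_apply, ← Complex.conj_mul']
        rfl
      rw [h2, h2]
      push_cast
      rfl
    rw [h1]
    exact Complex.zero_le_real.mpr (sub_nonneg.mpr hx2)

/-! ### sums of squares in a C*-algebra -/

section alg

variable {A : Type} [CStarAlgebra A]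

theorem pos_zero : Pos (0 : A) := ⟨0, by simp⟩

theorem pos_sq (a : A) : Pos (star a * a) := ⟨a, rfl⟩

theorem pos_sum (h : T_PSM) {ι : Type} (s : Finset ι) (f : ι → A) (hf : ∀ i ∈ s, Pos (f i)) :
    Pos (∑ i ∈ s, f i) := by
  classical
  induction s using Finset.induction_on with
  | empty => simpa using pos_zero
  | insert a s ha ih =>
    rw [Finset.sum_insert ha]
    exact (h A).1 _ _ (hf a (Finset.mem_insert_self a s))
      (ih fun i hi => hf i (Finset.mem_insert_of_mem hi))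

/-- the quadratic form of `N* N` is a sum of squares -/
theorem gram {n : Type} [Fintype n] (N : Matrix n n ℂ) (u : n → A) :
    ∑ a, ∑ b, (N.conjTranspose * N) a b • (star (u a) * u b) =
      ∑ c, star (∑ b, N c b • u b) * ∑ b, N c b • u b := by
  have h1 : ∀ c, star (∑ b, N c b • u b) * ∑ b, N c b • u b =
      ∑ a, ∑ b, (star (N c a) * N c b) • (star (u a) * u b) := by
    intro c
    rw [star_sum, Finset.sum_mul]
    refine Finset.sum_congr rfl fun a _ => ?_
    rw [Finset.mul_sum]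
    refine Finset.sum_congr rfl fun b _ => ?_
    rw [star_smul, smul_mul_smul_comm]
  symm
  simp_rw [h1]
  rw [Finset.sum_comm]
  refine Finset.sum_congr rfl fun a _ => ?_
  rw [Finset.sum_comm]
  refine Finset.sum_congr rfl fun b _ => ?_
  rw [← Finset.sum_smul]
  rfl

/-- Cauchy-Schwarz -/
theorem cs (h : T_PSM) {I : Type} [Fintype I] (u v : I → A) (z S : A)
    (hz : z = ∑ i, star (u i) * v i) (hS : S = ∑ i, star (u i) * u i) (hS1 : ‖S‖ ≤ 1) :
    Pos (∑ i, star (v i) * v i - star z * z) := by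
  have hSp : Pos S := by
    rw [hS]
    exact pos_sum h _ _ fun i _ => pos_sq _
  have h1 : Pos (1 - S) := (h A).2.2.2.2.2.1 S hSp hS1
  have h2 : Pos (star z * (1 - S) * z) := (h A).2.2.1 _ z h1
  have h3 : Pos (∑ i, star (v i - u i * z) * (v i - u i * z)) :=
    pos_sum h _ _ fun i _ => pos_sq _
  have h4 : ∑ i, star (v i - u i * z) * (v i - u i * z) =
      ∑ i, star (v i) * v i - star z * z - star z * z + star z * S * z := by
    have h5 : ∀ i, star (v i - u i * z) * (v i - u i * z) =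
        star (v i) * v i - star (star (u i) * v i) * z - star z * (star (u i) * v i) +
          star z * (star (u i) * u i) * z := by
      intro i
      rw [star_sub, star_mul, star_mul, star_star]
      noncomm_ring
    simp_rw [h5]
    rw [Finset.sum_add_distrib, Finset.sum_sub_distrib, Finset.sum_sub_distrib,
      ← Finset.sum_mul, ← Finset.sum_mul, ← Finset.mul_sum, ← Finset.mul_sum, ← star_sum, ← hz,
      ← hS]
  have h6 := (h A).1 _ _ h3 h2
  have h7 : ∑ i, star (v i - u i * z) * (v i - u i * z) + star z * (1 - S) * z =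
      ∑ i, star (v i) * v i - star z * z := by
    rw [h4]
    noncomm_ring
  rwa [h7] at h6

/-- norm of a positive element below another one -/
theorem norm_mono (h : T_PSM) {a b : A} (ha : Pos a) (hab : Pos (b - a)) : ‖a‖ ≤ ‖b‖ := by
  have h1 := (h A).2.2.2.2.1 a (b - a) ha hab
  rwa [add_sub_cancel] at h1

/-- the finite version -/
theorem fin_norm (h : T_PSM) {n ι : Type} [Fintype n] [Fintype ι] (M : ι → Matrix n n ℂ)
    (u : ι → n → A) (S : A) (hS : S = ∑ i, ∑ a, star (u i a) * u i a) (hS1 : ‖S‖ ≤ 1) {B : ℝ}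
    (hB : 0 ≤ B) (hM : ∀ i, opn (M i) ≤ B) :
    ‖∑ i, ∑ a, ∑ b, M i a b • (star (u i a) * u i b)‖ ≤ B := by
  obtain ⟨z, hz⟩ : ∃ z : A, z = ∑ i, ∑ a, ∑ b, M i a b • (star (u i a) * u i b) := ⟨_, rfl⟩
  rw [← hz]
  have hz' : z = ∑ p : ι × n, star (u p.1 p.2) * ∑ b, M p.1 p.2 b • u p.1 b := by
    rw [hz, Fintype.sum_prod_type]
    refine Finset.sum_congr rfl fun i _ => Finset.sum_congr rfl fun a _ => ?_
    rw [Finset.mul_sum]
    refine Finset.sum_congr rfl fun b _ => ?_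
    rw [mul_smul_comm]
  have hS' : S = ∑ p : ι × n, star (u p.1 p.2) * u p.1 p.2 := by
    rw [hS, Fintype.sum_prod_type]
  have h1 := cs h (fun p : ι × n => u p.1 p.2) (fun p : ι × n => ∑ b, M p.1 p.2 b • u p.1 b)
    z S hz' hS' hS1
  obtain ⟨V, hV⟩ : ∃ V : A, V = ∑ p : ι × n, star (∑ b, M p.1 p.2 b • u p.1 b) *
    ∑ b, M p.1 p.2 b • u p.1 b := ⟨_, rfl⟩
  have h1' : Pos (V - star z * z) := by
    rw [hV]
    exact h1
  have h2 : ‖star z * z‖ ≤ ‖V‖ := norm_mono h (pos_sq z) h1'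
  have hVp : Pos V := by
    rw [hV]
    exact pos_sum h _ _ fun i _ => pos_sq _
  have hV2 : V = ∑ i, ∑ a, ∑ b, ((M i).conjTranspose * M i) a b • (star (u i a) * u i b) := by
    rw [hV, Fintype.sum_prod_type]
    refine Finset.sum_congr rfl fun i _ => ?_
    exact (gram (M i) (u i)).symm
  have h3 : Pos (((B : ℂ) ^ 2) • S - V) := by
    have h4 : ((B : ℂ) ^ 2) • S - V = ∑ i, ∑ a, ∑ b,
        (((B : ℂ) ^ 2) • (1 : Matrix n n ℂ) - (M i).conjTranspose * M i) a b •
          (star (u i a) * u i b) := by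
      rw [hV2, hS, Finset.smul_sum, ← Finset.sum_sub_distrib]
      refine Finset.sum_congr rfl fun i _ => ?_
      rw [Finset.smul_sum, ← Finset.sum_sub_distrib]
      refine Finset.sum_congr rfl fun a _ => ?_
      simp_rw [Matrix.sub_apply, sub_smul]
      rw [Finset.sum_sub_distrib]
      congr 1
      simp_rw [Matrix.smul_apply, Matrix.one_apply, smul_eq_mul, mul_ite, mul_one, mul_zero,
        ite_smul, zero_smul]
      rw [Finset.sum_ite_eq, if_pos (Finset.mem_univ a)]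
    rw [h4]
    refine pos_sum h _ _ fun i _ => ?_
    obtain ⟨N, hN⟩ := defect (M i) (hM i)
    rw [hN, gram]
    exact pos_sum h _ _ fun c _ => pos_sq _
  have h5 : ‖V‖ ≤ ‖((B : ℂ) ^ 2) • S‖ := norm_mono h hVp h3
  have h6 : ‖((B : ℂ) ^ 2) • S‖ ≤ B ^ 2 := by
    rw [norm_smul, norm_pow, Complex.norm_real, Real.norm_eq_abs, sq_abs]
    exact mul_le_of_le_one_right (sq_nonneg B) hS1
  rw [CStarRing.norm_star_mul_self] at h2
  have h7 : ‖z‖ * ‖z‖ ≤ B ^ 2 := h2.trans (h5.trans h6)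
  rw [← sq] at h7
  exact le_of_sq_le_sq h7 hB

theorem fin_pos (h : T_PSM) {n ι : Type} [Fintype n] [Fintype ι] (M : ι → Matrix n n ℂ)
    (u : ι → n → A) (hM : ∀ i, ∃ N : Matrix n n ℂ, M i = N.conjTranspose * N) :
    Pos (∑ i, ∑ a, ∑ b, M i a b • (star (u i a) * u i b)) := by
  refine pos_sum h _ _ fun i _ => ?_
  obtain ⟨N, hN⟩ := hM i
  rw [hN, gram]
  exact pos_sum h _ _ fun c _ => pos_sq _

end alg

/-! ### functions -/

section func

variable {K A n : Type} [TopologicalSpace K] [CompactSpace K] [CStarAlgebra A] [Fintype n]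

/-- the root of a nonnegative function -/
def rt (g : C(K, ℂ)) : C(K, ℂ) :=
  ⟨fun x => ((Real.sqrt (g x).re : ℝ) : ℂ), Complex.continuous_ofReal.comp
    (Real.continuous_sqrt.comp (Complex.continuous_re.comp g.continuous))⟩

/-- nonnegative function -/
def NN (g : C(K, ℂ)) : Prop := ∀ x, 0 ≤ (g x).re ∧ (g x).im = 0

omit [CompactSpace K] in
theorem rt_spec (g : C(K, ℂ)) (hg : NN g) : star (rt g) * rt g = g := by
  ext x
  change star ((Real.sqrt (g x).re : ℝ) : ℂ) * ((Real.sqrt (g x).re : ℝ) : ℂ) = g x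
  rw [Complex.star_def, Complex.conj_ofReal, ← Complex.ofReal_mul, Real.mul_self_sqrt (hg x).1]
  apply Complex.ext
  · exact Complex.ofReal_re _
  · rw [Complex.ofReal_im, (hg x).2]

theorem posL {L : C(K, ℂ) → A} (hL : AH ∅ 0 L) (g : C(K, ℂ)) (hg : NN g) : Pos (L g) := by
  rw [← rt_spec g hg]
  exact hL.pos _

/-- `L` as a linear map -/
def Lin {L : C(K, ℂ) → A} (hL : AH ∅ 0 L) : C(K, ℂ) →ₗ[ℂ] A where
  toFun := L
  map_add' := hL.add
  map_smul' := hL.smul

theorem Lin_apply {L : C(K, ℂ) → A} (hL : AH ∅ 0 L) (f : C(K, ℂ)) : Lin hL f = L f := rfl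

theorem bd1 (h : T_PSM) {L : C(K, ℂ) → A} (hL : AH ∅ 0 L) (g : C(K, ℂ)) {c : ℝ} (hc : 0 < c)
    (hg : NN g) (hgc : ∀ x, (g x).re ≤ c) : ‖L g‖ ≤ c := by
  have h1 : Pos ((c⁻¹ : ℝ) • L g) := (h A).2.1 _ _ (inv_nonneg.mpr hc.le) (posL hL g hg)
  have h2 : (1 : A) - (c⁻¹ : ℝ) • L g = L (1 - ((c⁻¹ : ℝ) : ℂ) • g) := by
    rw [← Lin_apply hL, ← Lin_apply hL, map_sub, map_smul, Complex.coe_smul, Lin_apply,
      Lin_apply, hL.one]
  have h3 : Pos ((1 : A) - (c⁻¹ : ℝ) • L g) := by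
    rw [h2]
    refine posL hL _ fun x => ?_
    have h4 : ((1 - ((c⁻¹ : ℝ) : ℂ) • g : C(K, ℂ)) x) = 1 - ((c⁻¹ : ℝ) : ℂ) * g x := rfl
    rw [h4]
    constructor
    · rw [Complex.sub_re, Complex.one_re, Complex.re_ofReal_mul, sub_nonneg,
        inv_mul_le_one₀ hc]
      exact hgc x
    · rw [Complex.sub_im, Complex.one_im, Complex.im_ofReal_mul, (hg x).2]
      ring
  have h5 := (h A).2.2.2.2.2.2 _ h1 h3
  rw [norm_smul, Real.norm_eq_abs, abs_of_pos (inv_pos.mpr hc), inv_mul_le_one₀ hc] at h5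
  exact h5

theorem bd2 (h : T_PSM) {L : C(K, ℂ) → A} (hL : AH ∅ 0 L) (f : C(K, ℂ)) {ε : ℝ} (hε : 0 < ε)
    (hf : ∀ x, ‖f x‖ ≤ ε) : ‖L f‖ ≤ 6 * ε := by
  obtain ⟨g1, hg1⟩ : ∃ g : C(K, ℂ), ∀ x, g x = (((f x).re + ε : ℝ) : ℂ) :=
    ⟨⟨fun x => (((f x).re + ε : ℝ) : ℂ), Complex.continuous_ofReal.comp
      ((Complex.continuous_re.comp f.continuous).add continuous_const)⟩, fun x => rfl⟩
  obtain ⟨g2, hg2⟩ : ∃ g : C(K, ℂ), ∀ x, g x = (((f x).im + ε : ℝ) : ℂ) :=
    ⟨⟨fun x => (((f x).im + ε : ℝ) : ℂ), Complex.continuous_ofReal.comp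
      ((Complex.continuous_im.comp f.continuous).add continuous_const)⟩, fun x => rfl⟩
  obtain ⟨g3, hg3⟩ : ∃ g : C(K, ℂ), ∀ x, g x = ((ε : ℝ) : ℂ) :=
    ⟨⟨fun x => ((ε : ℝ) : ℂ), continuous_const⟩, fun x => rfl⟩
  have h1 : ‖L g1‖ ≤ 2 * ε := by
    refine bd1 h hL g1 (by linarith) (fun x => ?_) fun x => ?_
    · have h2 := (abs_le.mp ((Complex.abs_re_le_norm (f x)).trans (hf x))).1
      rw [hg1, Complex.ofReal_re, Complex.ofReal_im]
      exact ⟨by linarith, rfl⟩
    · have h2 := (abs_le.mp ((Complex.abs_re_le_norm (f x)).trans (hf x))).2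
      rw [hg1, Complex.ofReal_re]
      linarith
  have h2 : ‖L g2‖ ≤ 2 * ε := by
    refine bd1 h hL g2 (by linarith) (fun x => ?_) fun x => ?_
    · have h2 := (abs_le.mp ((Complex.abs_im_le_norm (f x)).trans (hf x))).1
      rw [hg2, Complex.ofReal_re, Complex.ofReal_im]
      exact ⟨by linarith, rfl⟩
    · have h2 := (abs_le.mp ((Complex.abs_im_le_norm (f x)).trans (hf x))).2
      rw [hg2, Complex.ofReal_re]
      linarith
  have h3 : ‖L g3‖ ≤ ε := by
    refine bd1 h hL g3 hε (fun x => ?_) fun x => ?_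
    · rw [hg3, Complex.ofReal_re, Complex.ofReal_im]
      exact ⟨hε.le, rfl⟩
    · rw [hg3, Complex.ofReal_re]
  have h4 : f = g1 + Complex.I • g2 - (g3 + Complex.I • g3) := by
    ext x
    have h5 : (g1 + Complex.I • g2 - (g3 + Complex.I • g3) : C(K, ℂ)) x =
      g1 x + Complex.I * g2 x - (g3 x + Complex.I * g3 x) := rfl
    rw [h5, hg1, hg2, hg3]
    apply Complex.ext
    · simp
    · simp
  have h5 : L f = L g1 + Complex.I • L g2 - (L g3 + Complex.I • L g3) := by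
    conv_lhs => rw [h4]
    rw [← Lin_apply hL, map_sub, map_add, map_add, map_smul, map_smul]
    rfl
  have h6 : ‖Complex.I • L g2‖ = ‖L g2‖ := by rw [norm_smul, Complex.norm_I, one_mul]
  have h7 : ‖Complex.I • L g3‖ = ‖L g3‖ := by rw [norm_smul, Complex.norm_I, one_mul]
  have h8 : ‖L f‖ ≤ (‖L g1‖ + ‖Complex.I • L g2‖) + (‖L g3‖ + ‖Complex.I • L g3‖) := by
    rw [h5]
    exact (norm_sub_le _ _).trans (add_le_add (norm_add_le _ _) (norm_add_le _ _))
  rw [h6, h7] at h8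
  linarith

/-- partition of unity -/
theorem pou [T2Space K] (M : C(K, Matrix n n ℂ)) {ε : ℝ} (hε : 0 < ε) :
    ∃ (ι : Type) (_ : Fintype ι) (y : ι → K) (g : ι → C(K, ℂ)), (∀ i, NN (g i)) ∧
      ∑ i, g i = 1 ∧ ∀ x a b, ‖M x a b - ∑ i, M (y i) a b * g i x‖ ≤ ε := by
  obtain ⟨U, hU⟩ : ∃ U : K → Set K, ∀ y x, x ∈ U y ↔ ∀ a b, ‖M x a b - M y a b‖ < ε :=
    ⟨fun y => {x | ∀ a b, ‖M x a b - M y a b‖ < ε}, fun y x => Iff.rfl⟩
  have hUo : ∀ y, IsOpen (U y) := by
    intro y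
    have h1 : U y = ⋂ a, ⋂ b, {x | ‖ent M a b x - M y a b‖ < ε} := by
      ext x
      rw [hU]
      simp only [Set.mem_iInter, Set.mem_ofPred_eq]
      exact Iff.rfl
    rw [h1]
    exact isOpen_iInter_of_finite fun a => isOpen_iInter_of_finite fun b =>
      isOpen_lt (((ent M a b).continuous.sub continuous_const).norm) continuous_const
  have hUs : ∀ y, y ∈ U y := by
    intro y
    rw [hU]
    intro a b
    rw [sub_self, norm_zero]
    exact hε
  obtain ⟨t, -, ht⟩ := isCompact_univ.elim_nhds_subcover U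
    (fun y _ => (hUo y).mem_nhds (hUs y))
  have hcov : (Set.univ : Set K) ⊆ ⋃ i : {y // y ∈ t}, U i.1 := by
    intro x hx
    obtain ⟨y, hy, hxy⟩ := Set.mem_iUnion₂.mp (ht hx)
    exact Set.mem_iUnion.mpr ⟨⟨y, hy⟩, hxy⟩
  obtain ⟨f, hf⟩ := PartitionOfUnity.exists_isSubordinate isClosed_univ
    (fun i : {y // y ∈ t} => U i.1) (fun i => hUo i.1) hcov
  have hsum : ∀ x, ∑ i, f i x = 1 := by
    intro x
    rw [← finsum_eq_sum_of_fintype]
    exact f.sum_eq_one (Set.mem_univ x)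
  obtain ⟨g, hg⟩ : ∃ g : {y // y ∈ t} → C(K, ℂ), ∀ i x, g i x = ((f i x : ℝ) : ℂ) :=
    ⟨fun i => ⟨fun x => ((f i x : ℝ) : ℂ),
      Complex.continuous_ofReal.comp (f i).continuous⟩, fun i x => rfl⟩
  have hgs : ∀ x, ∑ i, g i x = 1 := by
    intro x
    simp_rw [hg]
    rw [← Complex.ofReal_sum, hsum, Complex.ofReal_one]
  refine ⟨{y // y ∈ t}, inferInstance, fun i => i.1, g, fun i x => ?_, ?_, ?_⟩
  · rw [hg, Complex.ofReal_re, Complex.ofReal_im]
    exact ⟨f.nonneg i x, rfl⟩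
  · ext x
    rw [ContinuousMap.coe_sum, Finset.sum_apply, hgs]
    rfl
  · intro x a b
    have h1 : M x a b - ∑ i : {y // y ∈ t}, M i.1 a b * g i x =
        ∑ i : {y // y ∈ t}, (M x a b - M i.1 a b) * g i x := by
      simp_rw [sub_mul]
      rw [Finset.sum_sub_distrib, ← Finset.mul_sum, hgs, mul_one]
    rw [h1]
    calc ‖∑ i : {y // y ∈ t}, (M x a b - M i.1 a b) * g i x‖
        ≤ ∑ i : {y // y ∈ t}, ‖(M x a b - M i.1 a b) * g i x‖ := norm_sum_le _ _
      _ ≤ ∑ i : {y // y ∈ t}, ε * f i x := by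
        refine Finset.sum_le_sum fun i _ => ?_
        rw [norm_mul, hg, Complex.norm_real, Real.norm_eq_abs, abs_of_nonneg (f.nonneg i x)]
        by_cases h0 : f i x = 0
        · rw [h0, mul_zero, mul_zero]
        · have h2 : x ∈ U i.1 := hf i (subset_tsupport _ h0)
          exact mul_le_mul_of_nonneg_right ((hU i.1 x).mp h2 a b).le (f.nonneg i x)
      _ = ε := by rw [← Finset.mul_sum, hsum, mul_one]

/-- approximation by finite sums -/
theorem approx [T2Space K] (h : T_PSM) {L : C(K, ℂ) → A} (hL : AH ∅ 0 L) (τ : n → A)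
    (M : C(K, Matrix n n ℂ)) {ε : ℝ} (hε : 0 < ε) :
    ∃ (ι : Type) (_ : Fintype ι) (y : ι → K) (u : ι → n → A),
      ∑ a, τ a * star (τ a) = ∑ i, ∑ a, star (u i a) * u i a ∧
      ‖(∑ a, ∑ b, τ a * L (ent M a b) * star (τ b)) -
        ∑ i, ∑ a, ∑ b, M (y i) a b • (star (u i a) * u i b)‖ ≤
        (∑ a, ∑ b, ‖τ a‖ * ‖τ b‖) * (6 * ε) := by
  obtain ⟨ι, hι, y, g, hg, hg1, hM⟩ := pou M hε
  have h1 : ∀ i, ∃ t : A, L (g i) = star t * t := fun i => posL hL (g i) (hg i)
  choose t ht using h1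
  have hu : ∀ i a b, star (t i * star (τ a)) * (t i * star (τ b)) =
      τ a * L (g i) * star (τ b) := by
    intro i a b
    rw [star_mul, star_star, ht]
    simp only [mul_assoc]
  refine ⟨ι, hι, y, fun i a => t i * star (τ a), ?_, ?_⟩
  · simp_rw [hu]
    rw [Finset.sum_comm]
    refine Finset.sum_congr rfl fun a _ => ?_
    rw [← Finset.sum_mul, ← Finset.mul_sum]
    have h2 : ∑ i, L (g i) = 1 := by
      rw [← hL.one, ← hg1, ← Lin_apply hL, map_sum]
      rfl
    rw [h2, mul_one]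
  · simp_rw [hu]
    have h2 : ∑ i, ∑ a, ∑ b, M (y i) a b • (τ a * L (g i) * star (τ b)) =
        ∑ a, ∑ b, τ a * L (∑ i, M (y i) a b • g i) * star (τ b) := by
      rw [Finset.sum_comm]
      refine Finset.sum_congr rfl fun a _ => ?_
      rw [Finset.sum_comm]
      refine Finset.sum_congr rfl fun b _ => ?_
      rw [← Lin_apply hL, map_sum, Finset.mul_sum, Finset.sum_mul]
      refine Finset.sum_congr rfl fun i _ => ?_
      rw [map_smul, mul_smul_comm, smul_mul_assoc]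
      rfl
    rw [h2, ← Finset.sum_sub_distrib, Finset.sum_mul]
    refine (norm_sum_le _ _).trans (Finset.sum_le_sum fun a _ => ?_)
    rw [← Finset.sum_sub_distrib, Finset.sum_mul]
    refine (norm_sum_le _ _).trans (Finset.sum_le_sum fun b _ => ?_)
    have h3 : τ a * L (ent M a b) * star (τ b) -
        τ a * L (∑ i, M (y i) a b • g i) * star (τ b) =
        τ a * L (ent M a b - ∑ i, M (y i) a b • g i) * star (τ b) := by
      rw [← sub_mul, ← mul_sub]
      congr 2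
      rw [← Lin_apply hL, ← Lin_apply hL, ← map_sub]
      rfl
    rw [h3]
    have h4 : ‖L (ent M a b - ∑ i, M (y i) a b • g i)‖ ≤ 6 * ε := by
      refine bd2 h hL _ hε fun x => ?_
      have h5 : (ent M a b - ∑ i, M (y i) a b • g i : C(K, ℂ)) x =
          M x a b - ∑ i, M (y i) a b * g i x := by
        rw [ContinuousMap.sub_apply, ContinuousMap.coe_sum, Finset.sum_apply]
        rfl
      rw [h5]
      exact hM x a b
    calc ‖τ a * L (ent M a b - ∑ i, M (y i) a b • g i) * star (τ b)‖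
        ≤ ‖τ a‖ * ‖L (ent M a b - ∑ i, M (y i) a b • g i)‖ * ‖star (τ b)‖ :=
          (norm_mul_le _ _).trans (mul_le_mul_of_nonneg_right (norm_mul_le _ _)
            (norm_nonneg _))
      _ ≤ ‖τ a‖ * (6 * ε) * ‖τ b‖ := by
          rw [norm_star]
          exact mul_le_mul_of_nonneg_right (mul_le_mul_of_nonneg_left h4 (norm_nonneg _))
            (norm_nonneg _)
      _ = ‖τ a‖ * ‖τ b‖ * (6 * ε) := by ring

end func

end CPM_

/-- CPM: complete positivity of positive maps of `C(K)` -/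
theorem p_CPM (h_PSM : T_PSM) : T_CPM := by
  intro K n A _ _ _ _ _ L τ M hL hτ
  obtain ⟨C, hC⟩ : ∃ C : ℝ, C = ∑ a, ∑ b, ‖τ a‖ * ‖τ b‖ := ⟨_, rfl⟩
  have hC0 : 0 ≤ C := by
    rw [hC]
    exact Finset.sum_nonneg fun a _ => Finset.sum_nonneg fun b _ =>
      mul_nonneg (norm_nonneg _) (norm_nonneg _)
  refine ⟨?_, ?_⟩
  · intro B hB hM
    refine le_of_forall_pos_le_add fun δ hδ => ?_
    obtain ⟨ε, hε, hεδ⟩ : ∃ ε : ℝ, 0 < ε ∧ C * (6 * ε) ≤ δ := by
      refine ⟨δ / (6 * (C + 1)), by positivity, ?_⟩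
      have h1 : C * (6 * (δ / (6 * (C + 1)))) = δ * (C / (C + 1)) := by
        field_simp
      rw [h1]
      exact mul_le_of_le_one_right hδ.le ((div_le_one (by linarith)).mpr (by linarith))
    obtain ⟨ι, hι, y, u, hu1, hu2⟩ := CPM_.approx h_PSM hL τ M hε
    have h1 := CPM_.fin_norm h_PSM (fun i => M (y i)) u _ hu1 hτ hB fun i => hM (y i)
    rw [← hC] at hu2
    have h2 := norm_sub_norm_le (∑ a, ∑ b, τ a * L (ent M a b) * star (τ b))
      (∑ i, ∑ a, ∑ b, M (y i) a b • (star (u i a) * u i b))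
    linarith
  · intro hM
    have hcl : IsClosed {a : A | Pos a} := (h_PSM A).2.2.2.1
    have h1 : (∑ a, ∑ b, τ a * L (ent M a b) * star (τ b)) ∈ closure {a : A | Pos a} := by
      rw [Metric.mem_closure_iff]
      intro δ hδ
      obtain ⟨ε, hε, hεδ⟩ : ∃ ε : ℝ, 0 < ε ∧ C * (6 * ε) < δ := by
        refine ⟨δ / (6 * (C + 1)), by positivity, ?_⟩
        have h1 : C * (6 * (δ / (6 * (C + 1)))) = δ * (C / (C + 1)) := by
          field_simp
        rw [h1]
        have h2 : C / (C + 1) < 1 := (div_lt_one (by linarith)).mpr (by linarith)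
        calc δ * (C / (C + 1)) < δ * 1 := mul_lt_mul_of_pos_left h2 hδ
          _ = δ := mul_one δ
      obtain ⟨ι, hι, y, u, -, hu2⟩ := CPM_.approx h_PSM hL τ M hε
      refine ⟨∑ i, ∑ a, ∑ b, M (y i) a b • (star (u i a) * u i b),
        CPM_.fin_pos h_PSM (fun i => M (y i)) u fun i => hM (y i), ?_⟩
      rw [dist_eq_norm]
      rw [← hC] at hu2
      linarith
    rwa [hcl.closure_eq] at h1

end Pool.Agent.FPS
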