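import Pool.Agent.FPS.Targets3
import Pool.Agent.FPZ.Targets3

set_option autoImplicit false

/-!
# FPS, target CU2: the cut estimate for projections below bump functions
-/

open scoped Classical
open MeasureTheory Pool.Agent.FPZ

noncomputable section

namespace Pool.Agent.FPS

namespace CU2_

theorem norm_le_one {A : Type} [CStarAlgebra A] {P : A} (hs : star P = P) (hP : P * P = P) : ‖P‖ ≤ 1 := by
  have h1 : ‖star P * P‖ = ‖P‖ * ‖P‖ := CStarRing.norm_star_mul_self
  rw [hs, hP] at h1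
  by_contra h
  push Not at h
  nlinarith

theorem star_toC {K : Type} [TopologicalSpace K] (g : C(K, ℝ)) : star (toC g) = toC g := by
  ext x
  exact Complex.conj_ofReal _

theorem mul_toC {K : Type} [TopologicalSpace K] {n : ℕ} (g : Fin n → C(K, ℝ))
    (hg : ∀ k l x, k ≠ l → g k x ≠ 0 → g l x = 0) (k l : Fin n) (h : k ≠ l) :
    toC (g k) * toC (g l) = 0 := by
  ext x
  change (g k x : ℂ) * (g l x : ℂ) = 0
  by_cases hx : g k x = 0
  · rw [hx]
    simp
  · rw [hg k l x h hx]
    simp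

/-- the projections are orthogonal -/
theorem orth {K A : Type} [TopologicalSpace K] [CompactSpace K] [CStarAlgebra A] (L : C(K, ℂ) →⋆ₐ[ℂ] A)
    {n : ℕ} (g : Fin n → C(K, ℝ)) (q : Fin n → A) (hg : ∀ k l x, k ≠ l → g k x ≠ 0 → g l x = 0)
    (hq : ∀ k, IsStarProjection (q k)) (hL : ∀ k, L (toC (g k)) * q k = q k) (k l : Fin n) (h : k ≠ l) :
    q k * q l = 0 := by
  have h1 : q k * L (toC (g k)) = q k := by
    have h2 := congrArg star (hL k)
    rw [star_mul, (hq k).isSelfAdjoint.star_eq, ← map_star, star_toC] at h2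
    exact h2
  calc q k * q l = q k * L (toC (g k)) * (L (toC (g l)) * q l) := by rw [h1, hL l]
    _ = q k * L (toC (g k) * toC (g l)) * q l := by rw [map_mul]; noncomm_ring
    _ = 0 := by rw [mul_toC g hg k l h, map_zero, mul_zero, zero_mul]

/-- the first estimate -/
theorem main {K A : Type} [TopologicalSpace K] [CompactSpace K] [CStarAlgebra A] (L : C(K, ℂ) →⋆ₐ[ℂ] A)
    {n : ℕ} (g : Fin n → C(K, ℝ)) (z : Fin n → K) (q : Fin n → A) (f : C(K, ℂ)) (ε : ℝ)
    (h01 : ∀ k x, 0 ≤ g k x ∧ g k x ≤ 1) (hg : ∀ k l x, k ≠ l → g k x ≠ 0 → g l x = 0)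
    (hL : ∀ k, L (toC (g k)) * q k = q k) (hQ : ‖∑ k, q k‖ ≤ 1) (hε : 0 ≤ ε)
    (hf : ∀ k x, g k x ≠ 0 → ‖f x - f (z k)‖ ≤ ε) :
    ‖L f * (∑ k, q k) - ∑ k, f (z k) • q k‖ ≤ ε := by
  set m : C(K, ℂ) := ∑ k, (f - algebraMap ℂ C(K, ℂ) (f (z k))) * toC (g k) with hm
  have hmx : ∀ x, m x = ∑ k, (f x - f (z k)) * (g k x : ℂ) := by
    intro x
    rw [hm, ContinuousMap.sum_apply]
    exact Finset.sum_congr rfl fun k _ => rfl
  have hmn : ‖m‖ ≤ ε := by
    rw [ContinuousMap.norm_le _ hε]
    intro x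
    rw [hmx x]
    by_cases hx : ∃ k, g k x ≠ 0
    · obtain ⟨k, hk⟩ := hx
      rw [Finset.sum_eq_single k]
      · rw [norm_mul]
        have h2 : ‖(g k x : ℂ)‖ ≤ 1 := by
          rw [Complex.norm_real, Real.norm_eq_abs, abs_of_nonneg (h01 k x).1]
          exact (h01 k x).2
        calc ‖f x - f (z k)‖ * ‖(g k x : ℂ)‖ ≤ ε * 1 :=
              mul_le_mul (hf k x hk) h2 (norm_nonneg _) hε
          _ = ε := mul_one _
      · intro k' _ hk'
        rw [hg k k' x (Ne.symm hk') hk]
        simp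
      · intro h
        exact absurd (Finset.mem_univ _) h
    · push Not at hx
      rw [Finset.sum_eq_zero]
      · simpa using hε
      · intro k _
        rw [hx k]
        simp
  have hkey : ∀ k, L m * q k = L f * q k - f (z k) • q k := by
    intro s
    rw [hm, map_sum, Finset.sum_mul, Finset.sum_eq_single s]
    · rw [map_mul, mul_assoc, hL s, map_sub, sub_mul, AlgHomClass.commutes, ← Algebra.smul_def]
    · intro k _ hk
      rw [map_mul, mul_assoc]
      have h3 : L (toC (g k)) * q s = 0 := by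
        calc L (toC (g k)) * q s = L (toC (g k)) * (L (toC (g s)) * q s) := by rw [hL s]
          _ = L (toC (g k) * toC (g s)) * q s := by rw [map_mul, mul_assoc]
          _ = 0 := by rw [mul_toC g hg k s hk, map_zero, zero_mul]
      rw [h3, mul_zero]
    · intro h
      exact absurd (Finset.mem_univ _) h
  have hfin : L f * (∑ k, q k) - ∑ k, f (z k) • q k = L m * ∑ k, q k := by
    rw [Finset.mul_sum, Finset.mul_sum, ← Finset.sum_sub_distrib]
    exact Finset.sum_congr rfl fun k _ => (hkey k).symm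
  rw [hfin]
  calc ‖L m * ∑ k, q k‖ ≤ ‖L m‖ * ‖∑ k, q k‖ := norm_mul_le _ _
    _ ≤ ε * 1 := mul_le_mul ((NonUnitalStarAlgHom.norm_apply_le L m).trans hmn) hQ (norm_nonneg _) hε
    _ = ε := mul_one _

end CU2_

theorem p_CU2 (h_QCO : T_QCO) : T_CU2 := by
  intro K A _ _ _ L n g z q f ε h01 hg hq hL hε hf
  have ho := CU2_.orth L g q hg hq hL
  have hs : star (∑ k, q k) = ∑ k, q k := by
    rw [star_sum]
    exact Finset.sum_congr rfl fun k _ => (hq k).isSelfAdjoint.star_eq
  have hsum : ∀ c : Fin n → ℂ, (∑ k, q k) * (∑ k, c k • q k) = ∑ k, c k • q k := by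
    intro c
    rw [Finset.sum_mul]
    refine Finset.sum_congr rfl fun k _ => ?_
    rw [Finset.mul_sum, Finset.sum_eq_single k]
    · rw [mul_smul_comm, (hq k).isIdempotentElem.eq]
    · intro l _ hl
      rw [mul_smul_comm, ho k l (Ne.symm hl), smul_zero]
    · intro h
      exact absurd (Finset.mem_univ _) h
  have hsum' : ∀ c : Fin n → ℂ, (∑ k, c k • q k) * (∑ k, q k) = ∑ k, c k • q k := by
    intro c
    rw [Finset.sum_mul]
    refine Finset.sum_congr rfl fun k _ => ?_
    rw [Finset.mul_sum, Finset.sum_eq_single k]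
    · rw [smul_mul_assoc, (hq k).isIdempotentElem.eq]
    · intro l _ hl
      rw [smul_mul_assoc, ho k l (Ne.symm hl), smul_zero]
    · intro h
      exact absurd (Finset.mem_univ _) h
  have hQQ : (∑ k, q k) * (∑ k, q k) = ∑ k, q k := by
    have h := hsum fun _ => 1
    simpa only [one_smul] using h
  have hQn : ‖∑ k, q k‖ ≤ 1 := CU2_.norm_le_one hs hQQ
  have h1 := CU2_.main L g z q f ε h01 hg hL hQn hε hf
  have h2 := CU2_.main L g z q (star f) ε h01 hg hL hQn hε (by
    intro k x hk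
    have h3 : (star f) x - (star f) (z k) = star (f x - f (z k)) := by
      rw [star_sub]
      rfl
    rw [h3, norm_star]
    exact hf k x hk)
  have h4 : star (L f) * (∑ k, q k) - star (∑ k, f (z k) • q k)
      = L (star f) * (∑ k, q k) - ∑ k, (star f) (z k) • q k := by
    rw [← map_star, star_sum]
    congr 1
    refine Finset.sum_congr rfl fun k _ => ?_
    rw [star_smul, (hq k).isSelfAdjoint.star_eq]
    rfl
  have h5 := h_QCO A (∑ k, q k) (L f) (∑ k, f (z k) • q k) ε ⟨hQQ, hs⟩ (hsum _) (hsum' _) h1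
    (by rw [h4]; exact h2)
  exact ⟨ho, h1, h5.1, h5.2⟩

end Pool.Agent.FPS
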