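import Pool.Agent.FPZ.Targets1
import Pool.Agent.FPS.Targets1
import Pool.Agent.FPS.Targets3

set_option autoImplicit false

/-!
# FPS: DEX, adapted decompositions
-/

open scoped Classical
open MeasureTheory Pool.Agent.FPZ

noncomputable section

namespace Pool.Agent.FPS.DEX_

theorem toC_mul {K : Type} [TopologicalSpace K] (f g : C(K, ℝ)) : toC (f * g) = toC f * toC g := by
  ext x
  simp [toC]

theorem toC_star {K : Type} [TopologicalSpace K] (f : C(K, ℝ)) : star (toC f) = toC f := by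
  ext x
  simp [toC]

theorem toC_norm {K : Type} [TopologicalSpace K] [CompactSpace K] (g : C(K, ℝ)) (h : ∀ x, 0 ≤ g x ∧ g x ≤ 1) :
    ‖toC g‖ ≤ 1 := by
  rw [ContinuousMap.norm_le _ zero_le_one]
  intro x
  have h1 : ‖toC g x‖ = |g x| := by
    simp [toC]
  rw [h1, abs_of_nonneg (h x).1]
  exact (h x).2

/-- `L f` commutes with `e₀`. -/
theorem comm {K A : Type} [TopologicalSpace K] [CompactSpace K] [CStarAlgebra A]
    (L : C(K, ℂ) →⋆ₐ[ℂ] A) (k₀ : K) (e₀ : A) (he : IsStarProjection e₀)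
    (h : ∀ f, L f * (1 - e₀) = f k₀ • (1 - e₀)) (f : C(K, ℂ)) : L f * e₀ = e₀ * L f := by
  have h2 := congrArg star (h (star f))
  have hs : star (1 - e₀) = 1 - e₀ := by
    rw [star_sub, star_one, he.isSelfAdjoint.star_eq]
  rw [star_mul, star_smul, map_star, star_star, hs] at h2
  have h3 : star ((star f) k₀) = f k₀ := by
    simp
  rw [h3] at h2
  have h4 := h f
  have h5 : L f * (1 - e₀) = (1 - e₀) * L f := by
    rw [h4, h2]
  rw [mul_sub, sub_mul, mul_one, one_mul] at h5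
  exact sub_right_injective h5

theorem re_smul {A : Type} [CStarAlgebra A] (φ : A →L[ℂ] ℂ) (r : ℝ) (a : A) :
    (φ ((r : ℂ) • a)).re = r * (φ a).re := by
  rw [map_smul, smul_eq_mul, Complex.re_ofReal_mul]

/-- `φ (L g e₀) ≤ ∫ g` for `g ≥ 0`. -/
theorem trc {K A : Type} [TopologicalSpace K] [CompactSpace K] [CStarAlgebra A]
    (h_TSB : T_TSB) (φ : A →L[ℂ] ℂ) (hts : TS φ)
    (L : C(K, ℂ) →⋆ₐ[ℂ] A) (k₀ : K) (e₀ : A) (he : IsStarProjection e₀)
    (h : ∀ f, L f * (1 - e₀) = f k₀ • (1 - e₀)) (g : C(K, ℝ)) (hg : 0 ≤ g k₀) :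
    (φ (L (toC g) * e₀)).re ≤ (φ (L (toC g))).re := by
  have h1 : L (toC g) * e₀ = L (toC g) - (g k₀ : ℂ) • (1 - e₀) := by
    have h2 := h (toC g)
    have h3 : toC g k₀ = (g k₀ : ℂ) := rfl
    rw [h3] at h2
    rw [← h2]
    noncomm_ring
  rw [h1, map_sub, Complex.sub_re, re_smul]
  have h4 : 0 ≤ (φ (1 - e₀)).re := ((h_TSB A φ hts).1 (1 - e₀) he.one_sub).1
  have h5 := mul_nonneg hg h4
  linarith

/-- One cell. -/
theorem piece {K A : Type} [TopologicalSpace K] [CompactSpace K] [CStarAlgebra A]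
    (h_QCA : T_QCA) (h_TSB : T_TSB) (φ : A →L[ℂ] ℂ) (hR : Rich φ)
    (L : C(K, ℂ) →⋆ₐ[ℂ] A) (k₀ : K) (e₀ : A) (he : IsStarProjection e₀)
    (h : ∀ f, L f * (1 - e₀) = f k₀ • (1 - e₀)) (g g' : C(K, ℝ)) (hg : ∀ x, 0 ≤ g x ∧ g x ≤ 1)
    (hgg : ∀ x, g' x * g x = g x) (hT : (φ (L (toC g))).re ≤ 1) (η : ℝ) (hη : 0 < η) :
    ∃ Q : A, IsStarProjection Q ∧ L (toC g') * Q = Q ∧ e₀ * Q = Q ∧
      (φ (L (toC g) * e₀)).re - η < (φ Q).re := by
  have hts := hR.ts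
  have hcom := comm L k₀ e₀ he h
  by_cases hpos : 0 < (φ (L (toC g) * e₀)).re
  · set T := (φ (L (toC g) * e₀)).re with hTdef
    have hT1 : T ≤ 1 := (trc h_TSB φ hts L k₀ e₀ he h g (hg k₀).1).trans hT
    obtain ⟨X, Y, P, -, -, -, -, -, hP, hPa, hPb⟩ := hR.ric ∅ 1 (max 0 (T - η)) T one_pos
      (le_max_left _ _) (max_lt hpos (by linarith)) hT1
    have hP0 : 0 ≤ (φ P).re := ((h_TSB A φ hts).1 P hP).1
    obtain ⟨C, -, hC⟩ := h_QCA (((φ P).re + T) / 2) T (by linarith) (by linarith) hT1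
    have hG : Pos (L (toC g) * e₀) := by
      let s : C(K, ℝ) := ⟨fun x => Real.sqrt (g x), Real.continuous_sqrt.comp g.continuous⟩
      have hs : s * s = g := by
        ext x
        exact Real.mul_self_sqrt (hg x).1
      refine ⟨L (toC s) * e₀, ?_⟩
      rw [star_mul, ← map_star, toC_star, he.isSelfAdjoint.star_eq]
      calc L (toC g) * e₀ = L (toC g) * (e₀ * e₀) := by rw [he.isIdempotentElem.eq]
        _ = e₀ * L (toC g) * e₀ := by rw [← mul_assoc, hcom]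
        _ = e₀ * (L (toC s) * L (toC s)) * e₀ := by rw [← map_mul, ← toC_mul, hs]
        _ = e₀ * L (toC s) * (L (toC s) * e₀) := by noncomm_ring
    have hn : ‖L (toC g) * e₀‖ ≤ 1 := by
      have h1 : ‖L (toC g)‖ ≤ 1 := (NonUnitalStarAlgHom.norm_apply_le (F := C(K, ℂ) →⋆ₐ[ℂ] A) L (toC g)).trans (toC_norm g hg)
      have h2 : ‖e₀‖ ≤ 1 := he.norm_le
      calc ‖L (toC g) * e₀‖ ≤ ‖L (toC g)‖ * ‖e₀‖ := norm_mul_le _ _
        _ ≤ 1 * 1 := by gcongr
        _ = 1 := one_mul 1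
    obtain ⟨x, -, hx⟩ := hC A φ hR (L (toC g) * e₀) P hG hn le_rfl hP (by linarith)
    set v := L (toC g) * e₀ * x with hv
    obtain ⟨hv1, hv2⟩ := (h_TSB A φ hts).2.2.2.1 P v hP hx
    refine ⟨v * star v, hv1, ?_, ?_, ?_⟩
    · rw [← mul_assoc]
      congr 1
      rw [hv, ← mul_assoc, ← mul_assoc, ← map_mul, ← toC_mul]
      congr 4
      ext y
      exact hgg y
    · rw [← mul_assoc]
      congr 1
      rw [hv, hcom, ← mul_assoc, ← mul_assoc, he.isIdempotentElem.eq]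
    · rw [hv2]
      exact (le_max_right _ _).trans_lt hPa
  · refine ⟨0, IsStarProjection.zero A, mul_zero _, mul_zero _, ?_⟩
    rw [map_zero, Complex.zero_re]
    linarith

theorem modulus {K : Type} [MetricSpace K] [CompactSpace K] (G : Finset C(K, ℂ)) (ε : ℝ) (hε : 0 < ε) :
    ∃ ρ : ℝ, 0 < ρ ∧ ∀ f ∈ G, ∀ x y : K, dist x y < ρ → ‖f x - f y‖ ≤ ε := by
  induction G using Finset.induction_on with
  | empty => exact ⟨1, one_pos, fun f hf => absurd hf (Finset.notMem_empty f)⟩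
  | insert f G hf ih =>
    obtain ⟨ρ, hρ, h1⟩ := ih
    have h2 : UniformContinuous f := CompactSpace.uniformContinuous_of_continuous f.continuous
    obtain ⟨ρ', hρ', h3⟩ := Metric.uniformContinuous_iff.1 h2 ε hε
    refine ⟨min ρ ρ', lt_min hρ hρ', fun f' hf' x y hxy => ?_⟩
    rcases Finset.mem_insert.1 hf' with rfl | hf'
    · rw [← dist_eq_norm]
      exact (h3 (hxy.trans_le (min_le_right _ _))).le
    · exact h1 f' hf' x y (hxy.trans_le (min_le_left _ _))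

/-- `φ (e₀) - ∑ φ (L (g k) e₀) ≤ 1 - ∑ ∫ g k`. -/
theorem mass {K A : Type} [TopologicalSpace K] [CompactSpace K] [CStarAlgebra A]
    (h_TSB : T_TSB) (φ : A →L[ℂ] ℂ) (hts : TS φ)
    (L : C(K, ℂ) →⋆ₐ[ℂ] A) (k₀ : K) (e₀ : A) (he : IsStarProjection e₀)
    (h : ∀ f, L f * (1 - e₀) = f k₀ • (1 - e₀)) {n : ℕ} (g : Fin n → C(K, ℝ)) (hg : ∑ k, g k k₀ ≤ 1) :
    (φ e₀).re - ∑ k, (φ (L (toC (g k)) * e₀)).re ≤ 1 - ∑ k, (φ (L (toC (g k)))).re := by
  have h1 : toC (1 - ∑ k, g k) = 1 - ∑ k, toC (g k) := by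
    ext x
    simp [toC]
  have h2 := trc h_TSB φ hts L k₀ e₀ he h (1 - ∑ k, g k) (by
    rw [ContinuousMap.sub_apply, ContinuousMap.sum_apply, ContinuousMap.one_apply]
    linarith)
  rw [h1, map_sub, map_one, map_sum, sub_mul, one_mul, Finset.sum_mul, map_sub, map_sub, map_sum, map_sum,
    hts.one, Complex.sub_re, Complex.sub_re, Complex.re_sum, Complex.re_sum, Complex.one_re] at h2
  exact h2

theorem sum_le {K : Type} [TopologicalSpace K] {n : ℕ} (g g' : Fin n → C(K, ℝ))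
    (h1 : ∀ k x, 0 ≤ g k x ∧ g k x ≤ 1 ∧ 0 ≤ g' k x ∧ g' k x ≤ 1 ∧ g' k x * g k x = g k x)
    (h2 : ∀ k l x, k ≠ l → g' k x ≠ 0 → g' l x = 0) (x : K) : ∑ k, g k x ≤ 1 := by
  by_cases h : ∃ k, g k x ≠ 0
  · obtain ⟨k, hk⟩ := h
    have hk' : g' k x ≠ 0 := by
      intro h0
      have h3 := (h1 k x).2.2.2.2
      rw [h0, zero_mul] at h3
      exact hk h3.symm
    rw [Finset.sum_eq_single k]
    · exact (h1 k x).2.1
    · intro l _ hl
      have h3 := (h1 l x).2.2.2.2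
      rw [h2 k l x (Ne.symm hl) hk', zero_mul] at h3
      exact h3.symm
    · intro h3
      exact absurd (Finset.mem_univ k) h3
  · push Not at h
    rw [Finset.sum_eq_zero fun k _ => h k]
    exact zero_le_one

end Pool.Agent.FPS.DEX_

namespace Pool.Agent.FPS

open DEX_ in
theorem p_DEX (h_SYM : T_SYM) (h_QCA : T_QCA) (h_CU2 : T_CU2) (h_TSB : T_TSB) : T_DEX := by
  intro K A _ _ _ _ _ μ _ φ L k₀ e₀ G ε c hR hφ he h hε hc
  have hts := hR.ts
  obtain ⟨ρ, hρ, hmod⟩ := modulus G (ε / 2) (by linarith)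
  obtain ⟨K₀, z, g, g', k', h1, h2, h3, h4, h5, -⟩ := h_SYM K μ k₀ ρ (c / 2) hρ (by linarith)
  have hφg : ∀ k, (φ (L (toC (g k)))).re = ∫ x, g k x ∂μ := by
    intro k
    rw [hφ]
    have h6 : ∫ x, toC (g k) x ∂μ = ((∫ x, g k x ∂μ : ℝ) : ℂ) := integral_ofReal
    rw [h6, Complex.ofReal_re]
  have hφ1 : ∀ k, (φ (L (toC (g k)))).re ≤ 1 := by
    intro k
    rw [hφg k]
    have h6 : ∫ x, g k x ∂μ ≤ ∫ _x : K, (1 : ℝ) ∂μ := by
      refine integral_mono ?_ (integrable_const _) fun x => (h1 k x).2.1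
      exact (g k).continuous.integrable_of_hasCompactSupport (HasCompactSupport.of_compactSpace _)
    rwa [integral_const, smul_eq_mul, mul_one, probReal_univ] at h6
  have hη : 0 < c / (4 * ((K₀ : ℝ) + 1)) := by positivity
  have hex : ∀ k, ∃ Q : A, IsStarProjection Q ∧ L (toC (g' k)) * Q = Q ∧ e₀ * Q = Q ∧
      (φ (L (toC (g k)) * e₀)).re - c / (4 * ((K₀ : ℝ) + 1)) < (φ Q).re := fun k =>
    piece h_QCA h_TSB φ hR L k₀ e₀ he h (g k) (g' k) (fun x => ⟨(h1 k x).1, (h1 k x).2.1⟩)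
      (fun x => (h1 k x).2.2.2.2) (hφ1 k) _ hη
  choose Q hQ1 hQ2 hQ3 hQ4 using hex
  have hQ5 : ∀ k, Q k * (1 - e₀) = 0 := by
    intro k
    have h6 := congrArg star (hQ3 k)
    rw [star_mul, (hQ1 k).isSelfAdjoint.star_eq, he.isSelfAdjoint.star_eq] at h6
    rw [mul_sub, mul_one, h6, sub_self]
  set Q' : Fin K₀ → A := fun k => Q k + if k = k' then 1 - e₀ else 0 with hQ'
  have hQ'1 : ∀ k, IsStarProjection (Q' k) := by
    intro k
    by_cases hk : k = k'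
    · simp only [hQ', hk, if_true]
      exact (hQ1 k').add he.one_sub (hQ5 k')
    · simp only [hQ', hk, if_false, add_zero]
      exact hQ1 k
  have hQ'2 : ∀ k, L (toC (g' k)) * Q' k = Q' k := by
    intro k
    by_cases hk : k = k'
    · simp only [hQ', hk, if_true]
      have h6 : toC (g' k') k₀ = 1 := by
        change ((g' k' k₀ : ℝ) : ℂ) = 1
        rw [h5, Complex.ofReal_one]
      rw [mul_add, hQ2, h, h6, one_smul]
    · simp only [hQ', hk, if_false, add_zero]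
      exact hQ2 k
  have hsum : ∑ k, Q' k = ∑ k, Q k + (1 - e₀) := by
    rw [hQ', Finset.sum_add_distrib, Finset.sum_ite_eq' Finset.univ k', if_pos (Finset.mem_univ k')]
  have hsum' : 1 - ∑ k, Q' k = e₀ - ∑ k, Q k := by
    rw [hsum]
    abel
  have hcu := fun (f : C(K, ℂ)) (hf : f ∈ G) => h_CU2 K A L K₀ g' z Q' f (ε / 2)
    (fun k x => ⟨(h1 k x).2.2.1, (h1 k x).2.2.2.1⟩) h2 hQ'1 hQ'2 (by linarith)
    (fun k x hx => hmod f hf x (z k) (h3 k x hx))
  have hcu1 := (h_CU2 K A L K₀ g' z Q' 1 0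
    (fun k x => ⟨(h1 k x).2.2.1, (h1 k x).2.2.2.1⟩) h2 hQ'1 hQ'2 le_rfl
    (fun k x hx => by simp)).1
  have hε2 : 2 * (ε / 2) = ε := by ring
  refine ⟨K₀, z, g', Q', fun k x => ⟨(h1 k x).2.2.1, (h1 k x).2.2.2.1⟩, h2,
    fun f hf k x hx => (hmod f hf x (z k) (h3 k x hx)).trans (by linarith), hQ'2,
    ⟨hQ'1, hcu1, fun f hf => ?_⟩, fun f hf => ?_, ?_, ?_⟩
  · have h6 := (hcu f hf).2.2.2
    rw [hε2] at h6
    exact h6
  · have h6 := (hcu f hf).2.2.1
    rw [hε2] at h6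
    exact h6
  · rw [hsum', mul_sub, he.isIdempotentElem.eq, Finset.mul_sum]
    simp only [hQ3]
  · rw [hsum', map_sub, map_sum, Complex.sub_re, Complex.re_sum]
    have h6 := mass h_TSB φ hts L k₀ e₀ he h g (sum_le g g' h1 h2 k₀)
    simp only [hφg] at h6
    have h7 : ∑ k, ((φ (L (toC (g k)) * e₀)).re - c / (4 * ((K₀ : ℝ) + 1))) ≤ ∑ k, (φ (Q k)).re :=
      Finset.sum_le_sum fun k _ => (hQ4 k).le
    rw [Finset.sum_sub_distrib, Finset.sum_const, Finset.card_univ, Fintype.card_fin, nsmul_eq_mul] at h7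
    have h8 : (K₀ : ℝ) * (c / (4 * ((K₀ : ℝ) + 1))) ≤ c / 4 := by
      have h9 : (0 : ℝ) ≤ K₀ := Nat.cast_nonneg _
      rw [← mul_div_assoc, div_le_div_iff₀ (by positivity) (by norm_num)]
      nlinarith
    linarith

end Pool.Agent.FPS
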