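import Pool.Agent.FPS.Targets7

set_option autoImplicit false

/-!
# FPS target EM3: the model of the three-sphere
-/

open scoped Classical unitInterval
open MeasureTheory Pool.Agent.FPZ

noncomputable section

namespace Pool.Agent.FPS

namespace EM3_

/-- The map to the model. -/
def to3 (x : EuclideanSpace ℝ (Fin 4)) : E3 × ℝ := (!₂[x 0, x 1, x 2], x 3)

/-- The map from the model. -/
def from3 (p : E3 × ℝ) : EuclideanSpace ℝ (Fin 4) := !₂[p.1 0, p.1 1, p.1 2, p.2]

theorem to3_cont : Continuous to3 := by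
  unfold to3
  fun_prop

theorem from3_cont : Continuous from3 := by
  unfold from3
  fun_prop

theorem from_to (x : EuclideanSpace ℝ (Fin 4)) : from3 (to3 x) = x := by
  ext i
  fin_cases i <;> simp [from3, to3]

theorem to_from (p : E3 × ℝ) : to3 (from3 p) = p := by
  refine Prod.ext ?_ ?_
  · ext i
    fin_cases i <;> simp [from3, to3]
  · simp [from3, to3]

theorem norm_to (x : EuclideanSpace ℝ (Fin 4)) : ‖(to3 x).1‖ ^ 2 + (to3 x).2 ^ 2 = ‖x‖ ^ 2 := by
  rw [EuclideanSpace.norm_sq_eq, EuclideanSpace.norm_sq_eq]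
  simp [to3, Fin.sum_univ_succ]
  ring

theorem norm_from (p : E3 × ℝ) : ‖from3 p‖ ^ 2 = ‖p.1‖ ^ 2 + p.2 ^ 2 := by
  rw [← norm_to, to_from]

theorem mem_to (x : S3) : ‖(to3 x.1).1‖ ^ 2 + (to3 x.1).2 ^ 2 = 1 := by
  have h := x.2
  rw [mem_sphere_zero_iff_norm] at h
  rw [norm_to, h]; norm_num

theorem mem_from (p : M3) : from3 p.1 ∈ Metric.sphere (0 : EuclideanSpace ℝ (Fin 4)) 1 := by
  rw [mem_sphere_zero_iff_norm]
  have h := norm_from p.1
  rw [p.2] at h
  nlinarith [norm_nonneg (from3 p.1)]

/-- The homeomorphism of the sphere with the model. -/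
def hom : S3 ≃ₜ M3 where
  toFun x := ⟨to3 x.1, mem_to x⟩
  invFun p := ⟨from3 p.1, mem_from p⟩
  left_inv x := by
    apply Subtype.ext
    exact from_to x
  right_inv p := by
    apply Subtype.ext
    exact to_from p
  continuous_toFun := Continuous.subtype_mk (to3_cont.comp continuous_subtype_val) mem_to
  continuous_invFun := Continuous.subtype_mk (from3_cont.comp continuous_subtype_val) mem_from

theorem conn : ConnectedSpace S3 := by
  rw [← isConnected_iff_connectedSpace]
  refine isConnected_sphere ?_ _ (by norm_num)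
  rw [rank_eq_card_basis (EuclideanSpace.basisFun (Fin 4) ℝ).toBasis]
  norm_num [Fintype.card_fin]

end EM3_

theorem p_EM3 : T_EM3 := by
  refine ⟨?_, EM3_.hom, fun x => rfl⟩
  have := EM3_.conn
  exact EM3_.hom.surjective.connectedSpace EM3_.hom.continuous

end Pool.Agent.FPS
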