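import Pool.Agent.FPS.Targets6
import Pool.Agent.FPZ.P_EXT

set_option autoImplicit false

/-!
# FPS, target EMB: the embedding
-/

open scoped Classical
open MeasureTheory Pool.Agent.FPZ

noncomputable section

namespace Pool.Agent.FPS

namespace EMB_

theorem free_reindex {I J R : Type} [Monoid R] (f : R → ℂ) (S : J → Set R) (e : I → J)
    (he : Function.Injective e) (h : Free f S) : Free f (fun i => S (e i)) := by
  intro l hl hc hx
  have h1 := h (l.map (fun y => (e y.1, y.2))) (by simpa using hl) ?_ ?_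
  · rw [List.map_map] at h1
    exact h1
  · rw [List.isChain_map]
    exact hc.imp fun a b hab hab' => hab (he hab')
  · intro x hxl
    obtain ⟨y, hy, rfl⟩ := List.mem_map.1 hxl
    exact hx y hy

theorem map_amp {K K' n A D : Type} [TopologicalSpace K] [TopologicalSpace K'] [Fintype n]
    [CStarAlgebra A] [CStarAlgebra D] (ψ : D →⋆ₐ[ℂ] A) (k₀ : K) (τ : n → D) (L : C(K', ℂ) → D)
    (γ : C(K, ℂ) → C(K', Matrix n n ℂ)) (f : C(K, ℂ)) :
    ψ (amp k₀ τ L γ f) = amp k₀ (fun a => ψ (τ a)) (fun g => ψ (L g)) γ f := by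
  unfold amp
  simp only [map_add, map_sum, map_mul, map_star, map_smul, map_sub, map_one]

theorem sub_cal {A : Type} [CStarAlgebra A] (T : Set A) : T ⊆ (cal T : Set A) := by
  intro x hx
  exact StarSubalgebra.le_topologicalClosure _ (StarAlgebra.subset_adjoin ℂ T hx)

end EMB_

theorem p_EMB (hRSB : T_RSB) (hEMX : T_EMX) (hOMG : T_OMG) (hFRG : T_FRG) (hASC : T_ASC)
    (hISO : T_ISO) : T_EMB := by
  intro K A A₁ _ _ _ _ _ _ μ _ ν t φ ι q φ₁ ι₁ q₁ c k₀ r κ O h h₁ ht hκ hO hc hr hμ hν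
  have hJ : ({j : ℕ | ∃ i, j = 2 * i} : Set ℕ).Infinite :=
    Set.infinite_of_injective_forall_mem (f := fun i : ℕ => 2 * i)
      (fun a b hab => by simpa using hab) (fun i => ⟨i, rfl⟩)
  obtain ⟨hR, ι', hι'⟩ := hRSB K A μ t φ ι q {j : ℕ | ∃ i, j = 2 * i} hJ ht h
  have hval : ∀ f, res φ (GA ι q {j : ℕ | ∃ i, j = 2 * i}) (ι' f) = ∫ x, f x ∂μ := by
    intro f
    change φ ((ι' f : (GA ι q {j : ℕ | ∃ i, j = 2 * i} : StarSubalgebra ℂ A)) : A) = _
    rw [hι', h.valZ]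
  obtain ⟨e₀', s', hEM⟩ := hEMX K (GA ι q {j : ℕ | ∃ i, j = 2 * i}) μ
    (res φ (GA ι q {j : ℕ | ∃ i, j = 2 * i})) ι' c k₀ r O hR hval hO hc hr hμ
  obtain ⟨ω', hω, hωt⟩ := hOMG K (GA ι q {j : ℕ | ∃ i, j = 2 * i}) μ
    (res φ (GA ι q {j : ℕ | ∃ i, j = 2 * i})) ι' c k₀ r e₀' s' κ hR.ts hκ hEM
  set ψ : (GA ι q {j : ℕ | ∃ i, j = 2 * i} : StarSubalgebra ℂ A) →⋆ₐ[ℂ] A :=
    (GA ι q {j : ℕ | ∃ i, j = 2 * i}).subtype with hψ
  have hψι : ∀ f, ψ (ι' f) = ι f := hι'
  set ω : C(S1, ℂ) →⋆ₐ[ℂ] A := ψ.comp ω' with hωdef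
  have hωv : ∀ g, ω g = amp 1 (fun i => ψ (s' i)) (fun f => ι (f.comp c)) κ g := by
    intro g
    change ψ (ω' g) = _
    rw [hω, EMB_.map_amp]
    congr 1
    funext f
    exact hψι _
  have hωφ : ∀ g, φ (ω g) = (∫ x, ∑ i, κ g (c x) i i ∂μ) + (1 - (r : ℂ)) * g 1 := hωt
  have hEM' : EM μ φ ι c k₀ r (ψ e₀') (fun i => ψ (s' i)) := by
    refine ⟨h.valZ, ?_, ?_, ?_, ?_⟩
    · refine ⟨?_, ?_⟩
      · change ψ e₀' * ψ e₀' = ψ e₀'
        rw [← map_mul]
        exact congrArg ψ hEM.pr.isIdempotentElem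
      · change star (ψ e₀') = ψ e₀'
        rw [← map_star]
        exact congrArg ψ hEM.pr.isSelfAdjoint
    · intro f
      have h2 := congrArg ψ (hEM.spt f)
      simpa only [map_mul, map_sub, map_one, map_smul, hψι] using h2
    · intro i
      have h2 := congrArg ψ (hEM.pis.1 i)
      simpa only [map_mul, map_star] using h2
    · intro i j hij
      have h2 := congrArg ψ (hEM.pis.2 i j hij)
      simpa only [map_mul, map_star, map_zero] using h2
  have hodd : ∀ i : ℕ, 2 * i + 1 ∈ ({j : ℕ | ∃ i, j = 2 * i} : Set ℕ)ᶜ := by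
    rintro i ⟨k, hk⟩
    omega
  have hωr : ∀ x ∈ Set.range ω, x ∈ (GA ι q {j : ℕ | ∃ i, j = 2 * i} : Set A) := by
    rintro _ ⟨g, rfl⟩
    exact (ω' g).2
  have hfree : Free φ (fun o : Option ℕ => o.elim (Set.range ω)
      (fun i => Set.range (q (2 * i + 1)))) := by
    have h2 := hASC ℕ A (φ : A →ₗ[ℂ] ℂ) ω.range.toSubalgebra
      (EA q ({j : ℕ | ∃ i, j = 2 * i} : Set ℕ)ᶜ).toSubalgebra
      (fun i => (q (2 * i + 1)).range.toSubalgebra) h.ts.one ?_ ?_ ?_
    · intro l hl hch hx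
      refine h2 l hl hch fun x hxl => ⟨?_, (hx x hxl).2⟩
      have h3 := (hx x hxl).1
      revert h3
      generalize x.1 = o
      intro h3
      cases o with
      | none => exact h3
      | some i => exact h3
    · have h3 := hFRG K A μ t φ ι q {j : ℕ | ∃ i, j = 2 * i} h
      intro l hl hch hx
      refine h3 l hl hch fun x hxl => ⟨?_, (hx x hxl).2⟩
      have h4 := (hx x hxl).1
      revert h4
      generalize x.1 = o
      intro h4
      cases o with
      | true => exact hωr _ h4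
      | false => exact h4
    · rintro i _ ⟨x, rfl⟩
      refine EMB_.sub_cal _ ?_
      exact Set.mem_iUnion₂.2 ⟨2 * i + 1, hodd i, x, rfl⟩
    · exact EMB_.free_reindex φ (fun o : Option ℕ => o.elim (Set.range ι)
        (fun i => Set.range (q i))) (fun i : ℕ => some (2 * i + 1))
        (fun a b hab => by simpa using hab) h.free
  obtain ⟨α, hα1, hα2, hα3⟩ := hISO (Option ℕ) A₁ A (EXT_.Fam S1) φ₁ φ (EXT_.emb ι₁ q₁)
    (EXT_.emb ω (fun i => q (2 * i + 1))) h₁.ts h.ts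
    (by rw [EXT_.range_emb]; exact h₁.free)
    (by rw [EXT_.range_emb]; exact hfree)
    (by
      have h5 : ∀ g : C(S1, ℂ), φ₁ (ι₁ g) = φ (ω g) := fun g => by
        rw [h₁.valZ, hωφ, hν]
      have h6 : ∀ (i : ℕ) (x : ℂ × ℂ), φ₁ (q₁ i x) = φ (q (2 * i + 1) x) := fun i x => by
        rw [h₁.valP, h.valP]
      intro o
      cases o with
      | none => exact h5
      | some i => exact h6 i)
    (by
      have h4 : (⋃ i, Set.range (EXT_.emb ι₁ q₁ i)) = Set.range ι₁ ∪ ⋃ i, Set.range (q₁ i) := by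
        rw [Set.iUnion_option]
        rfl
      rw [h4]
      exact h₁.gen)
  refine ⟨ψ e₀', fun i => ψ (s' i), α, hEM', e₀'.2, fun i => (s' i).2, hα3, hα2, ?_, ?_⟩
  · intro g
    rw [← hωv]
    exact hα1 none g
  · intro i x
    exact hα1 (some i) x

end Pool.Agent.FPS
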