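import Pool.Agent.FPS.Targets5
import Pool.Agent.FPS.Targets1
import Pool.Agent.FPZ.Targets1
import Pool.Agent.FPZ.Targets2

set_option autoImplicit false

/-!
# FPS: existence of the setting of the embedding (target T_EMX)
-/

open scoped Classical
open MeasureTheory Pool.Agent.FPZ

noncomputable section

namespace Pool.Agent.FPS

namespace EMX_

/-- The image of a function with values in the unit interval is positive. -/
theorem pos_toC {K A : Type} [TopologicalSpace K] [CompactSpace K] [CStarAlgebra A]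
    (ι : C(K, ℂ) →⋆ₐ[ℂ] A) (g : C(K, ℝ)) (hg : ∀ z, 0 ≤ g z) : Pos (ι (toC g)) := by
  let h : C(K, ℝ) := ⟨fun z => Real.sqrt (g z), Real.continuous_sqrt.comp g.continuous⟩
  refine ⟨ι (toC h), ?_⟩
  rw [← map_star, ← map_mul]
  congr 1
  ext z
  have h1 : Real.sqrt (g z) * Real.sqrt (g z) = g z := Real.mul_self_sqrt (hg z)
  have h2 : ((Real.sqrt (g z) : ℝ) : ℂ) * ((Real.sqrt (g z) : ℝ) : ℂ) = ((g z : ℝ) : ℂ) := by
    rw [← Complex.ofReal_mul, h1]
  simpa [toC, h] using h2.symm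

theorem norm_toC {K A : Type} [TopologicalSpace K] [CompactSpace K] [CStarAlgebra A]
    (ι : C(K, ℂ) →⋆ₐ[ℂ] A) (g : C(K, ℝ)) (hg : ∀ z, 0 ≤ g z ∧ g z ≤ 1) : ‖ι (toC g)‖ ≤ 1 := by
  have h1 : ‖ι (toC g)‖ ≤ ‖toC g‖ := NonUnitalStarAlgHom.norm_apply_le ι (toC g)
  refine h1.trans ((ContinuousMap.norm_le _ zero_le_one).mpr fun z => ?_)
  have : ‖((g z : ℝ) : ℂ)‖ ≤ 1 := by
    rw [Complex.norm_real, Real.norm_eq_abs, abs_of_nonneg (hg z).1]
    exact (hg z).2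
  simpa [toC] using this

end EMX_

open EMX_

theorem p_EMX (h_GFN : FPZ.T_GFN) (h_TSB : FPZ.T_TSB) (h_QCA : T_QCA) (h_RDV : T_RDV) :
    T_EMX := by
  intro K A _ _ _ _ _ μ _ φ ι c k₀ r O hR hval hO hc hr hμ
  obtain ⟨g, g', hg, hg', hgg, hg0, hint⟩ := h_GFN K μ O (1 - 1 / (r : ℝ)) hO hμ
  have hTS := hR.ts
  obtain ⟨t1, -, -, t4, -⟩ := h_TSB A φ hTS
  have hφg : φ (ι (toC g)) = ((∫ z, g z ∂μ : ℝ) : ℂ) := by
    rw [hval]
    exact integral_ofReal
  have hT1 : ∫ z, g z ∂μ ≤ 1 := by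
    have h1 : ∫ z, g z ∂μ ≤ ∫ _z : K, (1 : ℝ) ∂μ := by
      refine integral_mono ?_ (integrable_const _) fun z => (hg z).2
      exact g.continuous.integrable_of_hasCompactSupport
        (HasCompactSupport.of_compactSpace _)
    simpa using h1
  have hr1 : (1 : ℝ) ≤ r := by exact_mod_cast hr
  have h0a : 0 ≤ 1 - 1 / (r : ℝ) := by
    have : 1 / (r : ℝ) ≤ 1 := by
      rw [div_le_one (by linarith)]
      exact hr1
    linarith
  obtain ⟨X, Y, R, -, -, -, -, -, hRp, hRa, hRb⟩ :=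
    hR.ric ∅ 1 (1 - 1 / (r : ℝ)) (∫ z, g z ∂μ) one_pos h0a hint hT1
  obtain ⟨C, -, hC⟩ := h_QCA (((φ R).re + ∫ z, g z ∂μ) / 2) (∫ z, g z ∂μ) (by linarith)
    (by linarith) hT1
  obtain ⟨x, -, hx⟩ := hC A φ hR (ι (toC g)) R (pos_toC ι g fun z => (hg z).1)
    (norm_toC ι g hg) (by rw [hφg, Complex.ofReal_re]) hRp (by linarith)
  obtain ⟨hQp, hQφ⟩ := t4 R (ι (toC g) * x) hRp hx
  set Q : A := ι (toC g) * x * star (ι (toC g) * x) with hQ
  have hgQ : ι (toC g') * Q = Q := by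
    have h1 : ι (toC g') * ι (toC g) = ι (toC g) := by
      rw [← map_mul]
      congr 1
      ext z
      have := hgg z
      have h2 : ((g' z : ℝ) : ℂ) * ((g z : ℝ) : ℂ) = ((g z : ℝ) : ℂ) := by
        rw [← Complex.ofReal_mul, this]
      simpa [toC] using h2
    rw [hQ, ← mul_assoc, ← mul_assoc, h1]
  have hep : IsStarProjection (1 - Q) := hQp.one_sub
  have hφe : (r : ℝ) * (φ (1 - Q)).re < (φ 1).re := by
    rw [map_sub, hTS.one, Complex.sub_re, Complex.one_re, hQφ]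
    have h1 : 1 - (φ R).re < 1 / (r : ℝ) := by linarith
    have h2 : (r : ℝ) * (1 - (φ R).re) < r * (1 / (r : ℝ)) :=
      mul_lt_mul_of_pos_left h1 (by linarith)
    rwa [mul_one_div_cancel (by linarith)] at h2
  obtain ⟨u, hu, -⟩ := h_RDV A φ hR (1 - Q) 1 r hep (IsStarProjection.one A) hφe
  refine ⟨1 - Q, u, hval, hep, fun f => ?_, hu⟩
  have h1 : (1 : A) - (1 - Q) = Q := by abel
  rw [h1]
  have h2 : f.comp c * toC g' = f k₀ • toC g' := by
    ext z
    by_cases hz : z ∈ O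
    · simp [toC, hc z hz]
    · simp [toC, hg0 z hz]
  calc ι (f.comp c) * Q = ι (f.comp c) * (ι (toC g') * Q) := by rw [hgQ]
    _ = ι (f.comp c * toC g') * Q := by rw [map_mul, mul_assoc]
    _ = f k₀ • (ι (toC g') * Q) := by rw [h2, map_smul, smul_mul_assoc]
    _ = f k₀ • Q := by rw [hgQ]

end Pool.Agent.FPS
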