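import Pool.Agent.FPS.Targets7
import Pool.Agent.FPZ.P_RST
import Pool.Agent.FPZ.Targets1

set_option autoImplicit false

/-!
# FPS, target EXA: existence of the algebra over the circle
-/

open scoped Classical
open MeasureTheory Pool.Agent.FPZ

noncomputable section

namespace Pool.Agent.FPS

namespace EXA_

theorem free_reindex {I J R : Type} [Monoid R] (f : R → ℂ) (S : J → Set R) (e : I → J)
    (he : Function.Injective e) (h : Free f S) : Free f (fun i => S (e i)) := by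
  intro l hl hc hx
  have h1 := h (l.map (fun y => (e y.1, y.2))) (by simpa using hl) ?_ ?_
  · rw [List.map_map] at h1
    exact h1
  · rw [List.isChain_map]
    exact hc.imp fun a b hab hab' => hab (he hab')
  · intro x hxl
    obtain ⟨y, hy, rfl⟩ := List.mem_map.1 hxl
    exact hx y hy

theorem sub_cal {A : Type} [CStarAlgebra A] (T : Set A) : T ⊆ (cal T : Set A) := by
  intro x hx
  exact StarSubalgebra.le_topologicalClosure _ (StarAlgebra.subset_adjoin ℂ T hx)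

/-- a free family with the right restrictions gives an algebra `FS` -/
theorem mkFS {Z A : Type} [TopologicalSpace Z] [CompactSpace Z] [MeasurableSpace Z]
    [CStarAlgebra A] (ν : Measure Z) (t : ℝ) (φ : A →L[ℂ] ℂ) (ω : C(Z, ℂ) →⋆ₐ[ℂ] A)
    (p : ℕ → ℂ × ℂ →⋆ₐ[ℂ] A) (hts : TS φ) (hv : ∀ g, φ (ω g) = ∫ z, g z ∂ν)
    (hp : ∀ i x, φ (p i x) = t * x.1 + (1 - t) * x.2)
    (hfr : Free φ (fun o : Option ℕ => o.elim (Set.range ω) (fun i => Set.range (p i)))) :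
    ∃ (A₁ : Type) (_ : CStarAlgebra A₁) (φ₁ : A₁ →L[ℂ] ℂ) (ι₁ : C(Z, ℂ) →⋆ₐ[ℂ] A₁)
      (q₁ : ℕ → ℂ × ℂ →⋆ₐ[ℂ] A₁), FS ν t φ₁ ι₁ q₁ := by
  obtain ⟨T, hT⟩ : ∃ T : Set A, T = Set.range ω ∪ ⋃ i, Set.range (p i) := ⟨_, rfl⟩
  have hω : ∀ g, ω g ∈ (cal T : StarSubalgebra ℂ A) := fun g =>
    sub_cal T (hT ▸ Or.inl ⟨g, rfl⟩)
  have hpp : ∀ i x, p i x ∈ (cal T : StarSubalgebra ℂ A) := fun i x =>
    sub_cal T (hT ▸ Or.inr (Set.mem_iUnion.2 ⟨i, x, rfl⟩))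
  refine ⟨(cal T : StarSubalgebra ℂ A), inferInstance, res φ (cal T),
    StarAlgHom.codRestrict ω _ hω, fun i => StarAlgHom.codRestrict (p i) _ (hpp i), ?_⟩
  refine ⟨RST_ts φ _ hts, fun g => hv g, fun i x => hp i x, ?_, ?_⟩
  · refine RST_free φ _ (fun o : Option ℕ => o.elim (Set.range ω) (fun i => Set.range (p i))) _
      id Function.injective_id ?_ hfr
    rintro (_ | i) x hx
    · obtain ⟨g, rfl⟩ := hx
      exact ⟨g, rfl⟩
    · obtain ⟨g, rfl⟩ := hx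
      exact ⟨g, rfl⟩
  · refine RST_gen T _ ?_
    refine Eq.trans ?_ hT.symm
    ext a
    constructor
    · rintro ⟨d, hd, rfl⟩
      rcases hd with ⟨g, rfl⟩ | hd
      · exact Or.inl ⟨g, rfl⟩
      · obtain ⟨i, x, rfl⟩ := Set.mem_iUnion.1 hd
        exact Or.inr (Set.mem_iUnion.2 ⟨i, x, rfl⟩)
    · rintro (⟨g, rfl⟩ | ha)
      · exact ⟨_, Or.inl ⟨g, rfl⟩, rfl⟩
      · obtain ⟨i, x, rfl⟩ := Set.mem_iUnion.1 ha
        exact ⟨_, Or.inr (Set.mem_iUnion.2 ⟨i, x, rfl⟩), rfl⟩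

end EXA_

theorem p_EXA (hRSB : T_RSB) (hEMX : T_EMX) (hOMG : T_OMG) (hFRG : T_FRG) (hASC : T_ASC) :
    T_EXA := by
  intro K A _ _ _ _ _ μ _ ν t φ ι q c k₀ r κ O h ht hκ hO hc hr hμ hν
  have hJ : ({j : ℕ | ∃ i, j = 2 * i} : Set ℕ).Infinite :=
    Set.infinite_of_injective_forall_mem (f := fun i : ℕ => 2 * i)
      (fun a b hab => by simpa using hab) (fun i => ⟨i, rfl⟩)
  obtain ⟨hR, ι', hι'⟩ := hRSB K A μ t φ ι q {j : ℕ | ∃ i, j = 2 * i} hJ ht h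
  have hval : ∀ f, res φ (GA ι q {j : ℕ | ∃ i, j = 2 * i}) (ι' f) = ∫ x, f x ∂μ := by
    intro f
    change φ ((ι' f : (GA ι q {j : ℕ | ∃ i, j = 2 * i} : StarSubalgebra ℂ A)) : A) = _
    rw [hι', h.valZ]
  obtain ⟨e₀', s', hEM⟩ := hEMX K (GA ι q {j : ℕ | ∃ i, j = 2 * i}) μ
    (res φ (GA ι q {j : ℕ | ∃ i, j = 2 * i})) ι' c k₀ r O hR hval hO hc hr hμ
  obtain ⟨ω', hω, hωt⟩ := hOMG K (GA ι q {j : ℕ | ∃ i, j = 2 * i}) μ
    (res φ (GA ι q {j : ℕ | ∃ i, j = 2 * i})) ι' c k₀ r e₀' s' κ hR.ts hκ hEM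
  set ψ : (GA ι q {j : ℕ | ∃ i, j = 2 * i} : StarSubalgebra ℂ A) →⋆ₐ[ℂ] A :=
    (GA ι q {j : ℕ | ∃ i, j = 2 * i}).subtype with hψ
  set ω : C(S1, ℂ) →⋆ₐ[ℂ] A := ψ.comp ω' with hωdef
  have hωφ : ∀ g, φ (ω g) = (∫ x, ∑ i, κ g (c x) i i ∂μ) + (1 - (r : ℂ)) * g 1 := hωt
  have hodd : ∀ i : ℕ, 2 * i + 1 ∈ ({j : ℕ | ∃ i, j = 2 * i} : Set ℕ)ᶜ := by
    rintro i ⟨k, hk⟩
    omega
  have hωr : ∀ x ∈ Set.range ω, x ∈ (GA ι q {j : ℕ | ∃ i, j = 2 * i} : Set A) := by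
    rintro _ ⟨g, rfl⟩
    exact (ω' g).2
  have hfree : Free φ (fun o : Option ℕ => o.elim (Set.range ω)
      (fun i => Set.range (q (2 * i + 1)))) := by
    have h2 := hASC ℕ A (φ : A →ₗ[ℂ] ℂ) ω.range.toSubalgebra
      (EA q ({j : ℕ | ∃ i, j = 2 * i} : Set ℕ)ᶜ).toSubalgebra
      (fun i => (q (2 * i + 1)).range.toSubalgebra) h.ts.one ?_ ?_ ?_
    · intro l hl hch hx
      refine h2 l hl hch fun x hxl => ⟨?_, (hx x hxl).2⟩
      have h3 := (hx x hxl).1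
      revert h3
      generalize x.1 = o
      intro h3
      cases o with
      | none => exact h3
      | some i => exact h3
    · have h3 := hFRG K A μ t φ ι q {j : ℕ | ∃ i, j = 2 * i} h
      intro l hl hch hx
      refine h3 l hl hch fun x hxl => ⟨?_, (hx x hxl).2⟩
      have h4 := (hx x hxl).1
      revert h4
      generalize x.1 = o
      intro h4
      cases o with
      | true => exact hωr _ h4
      | false => exact h4
    · rintro i _ ⟨x, rfl⟩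
      refine EXA_.sub_cal _ ?_
      exact Set.mem_iUnion₂.2 ⟨2 * i + 1, hodd i, x, rfl⟩
    · exact EXA_.free_reindex φ (fun o : Option ℕ => o.elim (Set.range ι)
        (fun i => Set.range (q i))) (fun i : ℕ => some (2 * i + 1))
        (fun a b hab => by simpa using hab) h.free
  exact EXA_.mkFS ν t φ ω (fun i => q (2 * i + 1)) h.ts (fun g => by rw [hωφ, hν])
    (fun i x => h.valP (2 * i + 1) x) hfree

end Pool.Agent.FPS
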