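import Pool.Agent.FPS.Targets5

set_option autoImplicit false

/-!
# FPS targets 6: Fact C, transfer, the step and the general theorem

Every target has its complete proof in the docstring.
-/

open scoped Classical
open MeasureTheory Pool.Agent.FPZ

noncomputable section

namespace Pool.Agent.FPS

/-- The identity function of the circle. -/
def idz : C(S1, ℂ) := ⟨fun z => (z : ℂ), continuous_subtype_val⟩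

/-! ## Fact C -/

/-- EDF. Facts on `η` (uses T_AMP, q_TSB not needed). `V = ∑ v a star (v a)`. PROOF. `amp k₀ v ι₁ γ f = ∑_ab v a ι₁ (..) star (v b) + f k₀ (1 - V)`; so `η f = (block in V) + ∑ f (z s) r' s + f k₀ (1 - V - ∑ r' s)`. AH: T_AMP for the amplification; the defect of `η` is the defect of the block in `V`; positivity: add orthogonal positive elements
(`‖f (z s)‖² r' s` etc.). -/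
def T_EDF : Prop := ∀ (K D S : Type) [TopologicalSpace K] [CompactSpace K] [T2Space K] [Fintype S] [CStarAlgebra D] (ι₁ : C(S1, ℂ) →⋆ₐ[ℂ] D) (k₀ : K) (k : ℕ) (γ : C(K, ℂ) → C(S1, Matrix (Fin k) (Fin k) ℂ)) (E₁ : D) (v : Fin k → D) (r' : S → D) (z : S → K) (η : C(K, ℂ) → D),
  ED (fun g => ι₁ g) k₀ γ E₁ v r' z η → IsStarProjection (∑ a, v a * star (v a)) ∧ (∀ f, (∑ a, v a * star (v a)) * η f = η f * (∑ a, v a * star (v a))) ∧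
  (∀ f, (∑ a, v a * star (v a)) * η f * (∑ a, v a * star (v a)) = ∑ a, ∑ b, v a * ι₁ (ent (γ f) a b) * star (v b)) ∧ (∀ s, (∑ a, v a * star (v a)) * r' s = 0) ∧ IsStarProjection (1 - ∑ a, v a * star (v a) - ∑ s, r' s) ∧
  (∀ s, r' s * (1 - ∑ a, v a * star (v a) - ∑ s, r' s) = 0) ∧ (∀ f, η f = (∑ a, v a * star (v a)) * η f * (∑ a, v a * star (v a)) + ∑ s, f (z s) • r' s + f k₀ • (1 - ∑ a, v a * star (v a) - ∑ s, r' s)) ∧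
  ∀ (H : Finset C(K, ℂ)) (G : Finset C(S1, ℂ)) (δγ δ₂ : ℝ), 0 ≤ δγ → 0 ≤ δ₂ → AHM H δγ γ → AH G δ₂ (cmp 1 E₁ (fun g => ι₁ g)) → (∀ f ∈ H, ∀ a b, ent (γ f) a b ∈ G) → AH H (δγ + (k : ℝ) ^ 3 * δ₂) η

/-- KPM. Movable points for `κ` (uses T_PTC). PROOF. T_PTC for the entries of `κ g`, `g ∈ F'`, and `ε' / (r² + 1)`; `opn M ≤ ∑ |M i j|`. -/
def T_KPM : Prop := ∀ (K : Type) [MetricSpace K] [CompactSpace K] [ConnectedSpace K] (k₀ : K) (r : ℕ) (κ : C(S1, ℂ) → C(K, Matrix (Fin r) (Fin r) ℂ)) (F' : Finset C(S1, ℂ)) (ε' : ℝ), 0 < ε' →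
  ∃ m₁ : ℕ, ∀ x : K, ∃ w : ℕ → K, w 0 = k₀ ∧ w m₁ = x ∧ ∀ l < m₁, ∀ g ∈ F', opn (κ g (w l) - κ g (w (l + 1))) ≤ ε'

/-- KHM. Homotopy in `κ` (uses q_HTP). PROOF. T_HTP for the entries of `κ g` and `ε' / (r² + 1)`. -/
def T_KHM : Prop := ∀ (K : Type) [MetricSpace K] [CompactSpace K] (r : ℕ) (κ : C(S1, ℂ) → C(K, Matrix (Fin r) (Fin r) ℂ)) (c : C(K, K)) (F' : Finset C(S1, ℂ)) (ε' : ℝ), 0 < ε' → ContinuousMap.Homotopic (ContinuousMap.id K) c →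
  ∃ (mh : ℕ) (ci : ℕ → C(K, K)), ci 0 = ContinuousMap.id K ∧ ci mh = c ∧ ∀ g ∈ F', ∀ i < mh, ∀ x, opn (κ g (ci i x) - κ g (ci (i + 1) x)) ≤ ε'

/-- FCC. Fact C (uses T_UQE, T_KPM, T_KHM, T_CDR, T_GRL, T_AMP, T_AMX, T_AMM, T_LK3, T_EDF, T_CHE, T_CAH, T_RDV, T_TRN, T_REV, q_TSB). `L f = η (f.comp c)`, `e = 1 - ∑ Q`, `V = ∑ v a star (v a)`, `E₁ = 1 - ∑ Q₁`, `Eη = ∑ t i star (t i)`. PROOF. `m₁` (T_KPM), `mh, ci` (T_KHM), `m₀ = 1 + (2 m₁ + 1) + mh + m'`.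
T_UQE for `S1, ν, 1, F', ε', m₀`: `H', G₀, δU, δ₂U, C, C₃`. `G' = G₀ ∪ F' ∪ ..`, `Gk` = entries of `κ g`, `g ∈ H' ∪ F'` (and stars); `δ'` small compared with everything so far, `c'` small (`c' ≤ C / (16 r²)`, `r c' ≤ C₃`). Given the bumps: T_CDR for `K₀`, `B`, small `ε₃` gives `δc`. `Hη` = `f.comp c` for `f ∈ Gk ∪ {toC (g k)}`, and `f.comp (ci i)` for `f ∈ Gk`; `δη ≤ δc`, ...;
`cV ≤ C / (16 r² (K₀ + 1))`, `cV ≤ C₃`. Given `k, γ, Ψ'`: `G₁` = `G₀`, entries of `γ f` (`f ∈ Hη`) and of `Ψ' i g` (`g ∈ H'`), `δ₁` small (T_CAH: `cmp 1 E₁ ι₁` is AH on these with `r³ k³ δ₂` small). Given the data: T_EDF: `η` is AH on `Hη`, so `L` is AH on `Gk`. CHAIN (all with `1 ∈ S1` as base point): (1) T_CHE with one step: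
`cmp 1 Eη ρ`, `amp 1 t L κ` (the second is AH by T_AMP, T_CAH; the first by T_CAH). (2) T_CDR for `L`: adapted `Q`, second decomposition `r' s` at `c (zs s)`, `1 - V - ∑ r'` at `c k₀` (exact, T_EDF): `Rel φ₁ Gk ε₂ c_r e L V L` with `r² ε₂ ≤ ε'`, `r c_r ≤ C / 4`; T_RDV: `σ : Fin r → D`, `PI V σ`; T_GRL for `κ` (`K := S1`, `K' := K`, `n = Fin r`):
from `(Eη, amp 1 t L κ)` to `(∑ σ star σ, amp 1 σ L κ)`. (3) T_AMX with `L := η`, `Ψ i g x = κ g (ci (mh - i) x)`, `E := V`: to `(.., amp 1 σ η κ)` (`amp 1 σ L κ = amp 1 σ η (κ ∘ c)`). (4) T_AMM (`n₁ = Fin r`, `n₂ = Fin k`, `L₁ = η`, `L₂ = ι₁`): `amp 1 σ η κ = amp 1 (σ i v a) ι₁ (Ψ' m')`; T_LK3 for `ι₁`, `E₁`, reversed: to `(E₁, cmp 1 E₁ ι₁)`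
(`r k φ₁ E₁ < C / 4`). T_TRN, T_REV. T_UQE for `ρ` and `ι₁` (decompositions `q, x` and `Q₁, z₁`; `φ₁ Eη = r φ₁ e`). -/
def T_FCC : Prop := ∀ (K : Type) [MetricSpace K] [CompactSpace K] [ConnectedSpace K] (k₀ : K) (r : ℕ) (κ : C(S1, ℂ) → C(K, Matrix (Fin r) (Fin r) ℂ)) (c : C(K, K)) (ν : Measure S1) [IsProbabilityMeasure ν] [ν.IsOpenPosMeasure]
  (F' : Finset C(S1, ℂ)) (ε' : ℝ) (m' : ℕ), 0 < r → KP k₀ κ → ContinuousMap.Homotopic (ContinuousMap.id K) c → 0 < ε' →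
  ∃ (H' G' : Finset C(S1, ℂ)) (Gk : Finset C(K, ℂ)) (δ' c' : ℝ), F' ⊆ G' ∧ 0 < δ' ∧ δ' ≤ ε' ∧ 0 < c' ∧
  ∀ (K₀ : ℕ) (z : Fin K₀ → K) (g : Fin K₀ → C(K, ℝ)), (∀ k x, 0 ≤ g k x ∧ g k x ≤ 1) → (∀ k l x, k ≠ l → g k x ≠ 0 → g l x = 0) → (∀ f ∈ Gk, ∀ k x, g k x ≠ 0 → ‖f x - f (z k)‖ ≤ δ') →
  ∃ (Hη : Finset C(K, ℂ)) (δη cV : ℝ), 0 < δη ∧ 0 < cV ∧
  ∀ (k : ℕ) (γ : C(K, ℂ) → C(S1, Matrix (Fin k) (Fin k) ℂ)), 0 < k → AHM Hη δη γ → CDt 1 H' δ' F' ε' m' (fun g x => Matrix.of fun (a b : Fin r × Fin k) => γ (ent (κ g) a.1 b.1) x a.2 b.2) →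
  ∃ (G₁ : Finset C(S1, ℂ)) (δ₁ : ℝ), 0 < δ₁ ∧
  ∀ (D S : Type) [CStarAlgebra D] [Fintype S] (φ₁ : D →L[ℂ] ℂ) (ι₁ ρ : C(S1, ℂ) →⋆ₐ[ℂ] D) (K₁ : ℕ) (z₁ : Fin K₁ → S1) (g₁ : Fin K₁ → C(S1, ℝ)) (Q₁ : Fin K₁ → D) (v : Fin k → D) (r' : S → D) (zs : S → K) (η : C(K, ℂ) → D) (Q : Fin K₀ → D) (t : Fin r → D) (J : ℕ) (q : Fin J → D) (x : Fin J → S1),
    Rich φ₁ → (∀ g, φ₁ (ι₁ g) = ∫ x, g x ∂ν) → AD G₁ δ₁ (cV / k) φ₁ (fun g => ι₁ g) z₁ g₁ Q₁ → ED (fun g => ι₁ g) k₀ γ (1 - ∑ i, Q₁ i) v r' zs η → (∀ k, IsStarProjection (Q k)) → (∀ k l, k ≠ l → Q k * Q l = 0) → PI (1 - ∑ k, Q k) t →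
    (∀ k, ‖η ((toC (g k)).comp c) * Q k - Q k‖ ≤ δη) → (∀ f ∈ Gk, ‖η (f.comp c) - ((1 - ∑ k, Q k) * η (f.comp c) * (1 - ∑ k, Q k) + ∑ k, f (z k) • Q k)‖ ≤ δ') → (φ₁ (1 - ∑ k, Q k)).re < c' →
    (∀ f ∈ G', ‖φ₁ (ρ f) - ∫ x, f x ∂ν‖ ≤ δ') → Dec G' δ' (fun f => ρ f) q x → 1 - ∑ j, q j = ∑ i, t i * star (t i) → (∀ f ∈ G', ‖cmp 1 (∑ i, t i * star (t i)) (fun f => ρ f) f - amp 1 t (fun f => η (f.comp c)) κ f‖ ≤ δ') →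
    ∃ W : D, Uni W ∧ ∀ f ∈ F', ‖W * ρ f * star W - ι₁ f‖ ≤ 10 * ε'

/-! ## Transfer -/

/-- TRP. Transfer of a finite family of orthogonal projections. PROOF. `x = ∑ (i + 1) P i` is selfadjoint with spectrum in `{1, .., n}`, `d` selfadjoint in `D` with `‖x - α d‖` small, the spectrum of `d` (that of `α d`) is close to `{1, .., n}`; `P' i = cfc f_i d`, `f_i` the bump function `1` near `i + 1`, `0` near the others (continuous): exact orthogonal projections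
with sum `1`; `P i = cfc f_i x` and `‖cfc f x - cfc f (α d)‖` is small (uniform approximation of `f` by a polynomial on `[-n-1, n+1]`; or resolvent estimates). -/
def T_TRP : Prop := ∀ (n : ℕ) (ε : ℝ), 0 < ε → ∃ δ : ℝ, 0 < δ ∧ ∀ (A D : Type) [CStarAlgebra A] [CStarAlgebra D] (α : D →⋆ₐ[ℂ] A) (P : Fin n → A), Isometry α → (∀ i, IsStarProjection (P i)) → (∀ i j, i ≠ j → P i * P j = 0) → ∑ i, P i = 1 →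
  (∀ i, ∃ d, ‖P i - α d‖ ≤ δ) → ∃ P' : Fin n → D, (∀ i, IsStarProjection (P' i)) ∧ (∀ i j, i ≠ j → P' i * P' j = 0) ∧ ∑ i, P' i = 1 ∧ ∀ i, ‖P i - α (P' i)‖ ≤ ε

/-- TRI. Transfer of an isometry between projections (uses q_PLE). PROOF. `c = R' d e'`, `α c ≈ R t e = t`, `star c * c ≈ e'`; T_PLE: `t' = c x`, `star t' * t' = e'`, `R' t' = t'`; `t' star t'` is a projection below `R'` at distance `< 1` from it, so equal. -/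
def T_TRI : Prop := ∀ ε : ℝ, 0 < ε → ∃ δ : ℝ, 0 < δ ∧ ∀ (A D : Type) [CStarAlgebra A] [CStarAlgebra D] (α : D →⋆ₐ[ℂ] A) (e R t : A) (e' R' : D), Isometry α → IsStarProjection e → IsStarProjection R → IsStarProjection e' → IsStarProjection R' →
  star t * t = e → t * star t = R → ‖e - α e'‖ ≤ δ → ‖R - α R'‖ ≤ δ → (∃ d, ‖t - α d‖ ≤ δ) → ∃ t' : D, star t' * t' = e' ∧ t' * star t' = R' ∧ ‖t - α t'‖ ≤ ε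

/-- IDZ. PROOF. Stone-Weierstrass; the continuous functional calculus of a unitary composed with the restriction of functions to the spectrum. -/
def T_IDZ : Prop := cal ({idz} : Set C(S1, ℂ)) = ⊤ ∧ ∀ (A : Type) [CStarAlgebra A] (y : A), Uni y → ∃ ρ : C(S1, ℂ) →⋆ₐ[ℂ] A, ρ idz = y

/-- APE. Two homomorphisms close on generators (as T_APG). -/
def T_APE : Prop := ∀ (A : Type) [CStarAlgebra A] (T : Set A), cal T = ⊤ → ∀ (E : Finset A) (ε : ℝ), 0 < ε → ∃ (T₀ : Finset A) (δ : ℝ), (T₀ : Set A) ⊆ T ∧ 0 < δ ∧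
  ∀ (A' : Type) [CStarAlgebra A'] (σ σ' : A →⋆ₐ[ℂ] A'), (∀ b ∈ T₀, ‖σ b - σ' b‖ ≤ δ) → ∀ a ∈ E, ‖σ a - σ' a‖ ≤ ε

/-- APD. Homomorphisms mapping generators near a subalgebra (as T_APG: the set of `a` with the property is a closed star subalgebra; star homomorphisms are contractive). -/
def T_APD : Prop := ∀ (A : Type) [CStarAlgebra A] (T : Set A) (E : Finset A) (ε : ℝ), 0 < ε → (∀ a ∈ E, a ∈ cal T) → ∃ (T₀ : Finset A) (δ : ℝ), (T₀ : Set A) ⊆ T ∧ 0 < δ ∧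
  ∀ (A' : Type) [CStarAlgebra A'] (σ : A →⋆ₐ[ℂ] A') (D : StarSubalgebra ℂ A'), (∀ b ∈ T₀, ∃ d ∈ D, ‖σ b - d‖ ≤ δ) → ∀ a ∈ E, ∃ d ∈ D, ‖σ a - d‖ ≤ ε

/-- ST2. Transfer of the data of Fact C (uses T_TRP, T_TRI, T_IDZ, T_APE, T_OCR, q_UAP, q_TSB). `e = 1 - ∑ Q`, `t i = s i e`, `E = ∑ t i star (t i) = 1 - ∑ q`. PROOF. `Gt` = all `f.comp c` for `f ∈ Gk ∪ {toC (g k)}` and `f = (κ g)_ij`, `g ∈ G'`. The families `(e, Q k)` and `(t i star (t i), q j)` are families of orthogonal projections with sum `1`;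
apply T_TRP to their images under `θ` (small tolerance), T_TRI to `θ (t i)`: `Q', e' = 1 - ∑ Q'`, `t'`, `R' i = t' i star (t' i)`, `q'` with `∑ R' + ∑ q' = 1`. `y` unitary with `α y ≈ θ (ω idz)` (T_UAP; `α` is isometric, its range is closed), `ρ idz = y` (T_IDZ); T_APE (for `C(S1)`, `{idz}`): `α (ρ f) ≈ θ (ω f)` for `f ∈ G'`.
All the statements are images of the exact or `δ'/2`-approximate statements in `A`, up to small errors: `L (g k) Q k = Q k`; `Dec Gk`; `φ e < c'` (strict: the error is smaller than the gap; `|φ' b| ≤ ‖b‖`); `φ (ω f) = ∫ f dν`; `Dec G'` of `ω`; and `E ω f E = ∑ t i L (κ f)_ij star (t j)` (T_OCR). -/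
def T_ST2 : Prop := ∀ (K A : Type) [MetricSpace K] [CompactSpace K] [MeasurableSpace K] [BorelSpace K] [CStarAlgebra A] (μ : Measure K) [IsProbabilityMeasure μ] (ν : Measure S1) [IsProbabilityMeasure ν] (k₀ : K) (r : ℕ) (κ : C(S1, ℂ) → C(K, Matrix (Fin r) (Fin r) ℂ)) (c : C(K, K))
  (φ : A →L[ℂ] ℂ) (ι : C(K, ℂ) →⋆ₐ[ℂ] A) (ω : C(S1, ℂ) →⋆ₐ[ℂ] A) (e₀ : A) (s : Fin r → A) (K₀ : ℕ) (z : Fin K₀ → K) (g : Fin K₀ → C(K, ℝ)) (Q : Fin K₀ → A) (J : ℕ) (q : Fin J → A) (x : Fin J → S1) (Gk : Finset C(K, ℂ)) (G' : Finset C(S1, ℂ)) (δ' δη c' : ℝ),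
  TS φ → KP k₀ κ → EM μ φ ι c k₀ r e₀ s → (∀ g, ω g = amp 1 s (fun f => ι (f.comp c)) κ g) → (∀ g, φ (ω g) = ∫ x, g x ∂ν) → 0 < δ' → 0 < δη → AD Gk (δ' / 2) c' φ (fun f => ι (f.comp c)) z g Q → e₀ * (1 - ∑ k, Q k) = 1 - ∑ k, Q k → Dec G' (δ' / 2) (fun g => ω g) q x →
  1 - ∑ j, q j = ∑ i, s i * (1 - ∑ k, Q k) * star (s i * (1 - ∑ k, Q k)) → ∃ (Gt : Finset C(K, ℂ)) (δt : ℝ), 0 < δt ∧
  ∀ (A' D : Type) [CStarAlgebra A'] [CStarAlgebra D] (φ' : A' →L[ℂ] ℂ) (φ₁ : D →L[ℂ] ℂ) (α : D →⋆ₐ[ℂ] A') (θ : A →⋆ₐ[ℂ] A') (η : C(K, ℂ) → D), Isometry α → TS φ' → (∀ a, φ' (α a) = φ₁ a) → (∀ a, φ' (θ a) = φ a) →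
    (∀ k, ∃ d, ‖θ (Q k) - α d‖ ≤ δt) → (∀ i, ∃ d, ‖θ (s i * (1 - ∑ k, Q k)) - α d‖ ≤ δt) → (∀ j, ∃ d, ‖θ (q j) - α d‖ ≤ δt) → (∃ d, ‖θ (ω idz) - α d‖ ≤ δt) → (∀ f ∈ Gt, ‖θ (ι f) - α (η f)‖ ≤ δt) →
    ∃ (Q' : Fin K₀ → D) (t : Fin r → D) (q' : Fin J → D) (ρ : C(S1, ℂ) →⋆ₐ[ℂ] D), (∀ k, IsStarProjection (Q' k)) ∧ (∀ k l, k ≠ l → Q' k * Q' l = 0) ∧ PI (1 - ∑ k, Q' k) t ∧
      (∀ k, ‖η ((toC (g k)).comp c) * Q' k - Q' k‖ ≤ δη) ∧ (∀ f ∈ Gk, ‖η (f.comp c) - ((1 - ∑ k, Q' k) * η (f.comp c) * (1 - ∑ k, Q' k) + ∑ k, f (z k) • Q' k)‖ ≤ δ') ∧ (φ₁ (1 - ∑ k, Q' k)).re < c' ∧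
      (∀ f ∈ G', ‖φ₁ (ρ f) - ∫ x, f x ∂ν‖ ≤ δ') ∧ Dec G' δ' (fun f => ρ f) q' x ∧ 1 - ∑ j, q' j = ∑ i, t i * star (t i) ∧ (∀ f ∈ G', ‖cmp 1 (∑ i, t i * star (t i)) (fun f => ρ f) f - amp 1 t (fun f => η (f.comp c)) κ f‖ ≤ δ') ∧
      ∀ f ∈ G', ‖θ (ω f) - α (ρ f)‖ ≤ δ'

/-- MAP. Images of the data under an injective homomorphism. PROOF. Immediate (`ψ` is contractive). -/
def T_MAP : Prop := ∀ (K K' D D' S : Type) [TopologicalSpace K] [TopologicalSpace K'] [CStarAlgebra D] [CStarAlgebra D'] [Fintype S] (ψ : D →⋆ₐ[ℂ] D') (φ : D →L[ℂ] ℂ) (φ' : D' →L[ℂ] ℂ), (∀ a, φ' (ψ a) = φ a) →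
  (∀ (G : Finset C(K', ℂ)) (ε c : ℝ) (L : C(K', ℂ) → D) (K₀ : ℕ) (z : Fin K₀ → K') (g : Fin K₀ → C(K', ℝ)) (Q : Fin K₀ → D), AD G ε c φ L z g Q → AD G ε c φ' (fun f => ψ (L f)) z g (fun k => ψ (Q k))) ∧
  ∀ (ι₁ : C(S1, ℂ) → D) (k₀ : K) (k : ℕ) (γ : C(K, ℂ) → C(S1, Matrix (Fin k) (Fin k) ℂ)) (E₁ : D) (v : Fin k → D) (r' : S → D) (z : S → K) (η : C(K, ℂ) → D), ED ι₁ k₀ γ E₁ v r' z η →
    ED (fun g => ψ (ι₁ g)) k₀ γ (ψ E₁) (fun a => ψ (v a)) (fun s => ψ (r' s)) z (fun f => ψ (η f))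

/-! ## Blocks and automorphisms -/

/-- AUJ. As T_AUT for a general set of indices (uses q_ISO, q_FRG). PROOF. As FPZ/P_AUT with `J` instead of `{j | n ≤ j}`. The trace is preserved (uniqueness in T_ISO: `φ (Θ a) = φ a`). -/
def T_AUJ : Prop := ∀ (Z A : Type) [TopologicalSpace Z] [CompactSpace Z] [MeasurableSpace Z] [CStarAlgebra A] (μ : Measure Z) (t : ℝ)
  (φ : A →L[ℂ] ℂ) (ι : C(Z, ℂ) →⋆ₐ[ℂ] A) (κ : ℕ → ℂ × ℂ →⋆ₐ[ℂ] A) (J : Set ℕ) (w : A), FS μ t φ ι κ → w ∈ GA ι κ J → Uni w →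
  ∃ ψ : A ≃⋆ₐ[ℂ] A, (∀ x ∈ GA ι κ J, ψ x = w * x * star w) ∧ (∀ x ∈ EA κ Jᶜ, ψ x = x) ∧ ∀ a, φ (ψ a) = φ a

/-- PER. Permutation automorphisms (uses q_ISO). -/
def T_PER : Prop := ∀ (Z A : Type) [TopologicalSpace Z] [CompactSpace Z] [MeasurableSpace Z] [CStarAlgebra A] (μ : Measure Z) (t : ℝ)
  (φ : A →L[ℂ] ℂ) (ι : C(Z, ℂ) →⋆ₐ[ℂ] A) (κ : ℕ → ℂ × ℂ →⋆ₐ[ℂ] A) (π : ℕ ≃ ℕ), FS μ t φ ι κ →
  ∃ ψ : A ≃⋆ₐ[ℂ] A, (∀ g, ψ (ι g) = ι g) ∧ (∀ i x, ψ (κ i x) = κ (π i) x) ∧ ∀ a, φ (ψ a) = φ a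

/-- RSJ. Restriction to a block (as q_RST, for an injective enumeration `e` of the set of indices). -/
def T_RSJ : Prop := ∀ (Z A : Type) [TopologicalSpace Z] [CompactSpace Z] [MeasurableSpace Z] [CStarAlgebra A] (μ : Measure Z) (t : ℝ)
  (φ : A →L[ℂ] ℂ) (ι : C(Z, ℂ) →⋆ₐ[ℂ] A) (κ : ℕ → ℂ × ℂ →⋆ₐ[ℂ] A) (e : ℕ → ℕ), Function.Injective e → FS μ t φ ι κ →
  ∃ (ι' : C(Z, ℂ) →⋆ₐ[ℂ] (GA ι κ (Set.range e) : StarSubalgebra ℂ A)) (κ' : ℕ → ℂ × ℂ →⋆ₐ[ℂ] (GA ι κ (Set.range e) : StarSubalgebra ℂ A)),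
    (∀ g, ((ι' g : (GA ι κ (Set.range e) : StarSubalgebra ℂ A)) : A) = ι g) ∧ (∀ i x, ((κ' i x : (GA ι κ (Set.range e) : StarSubalgebra ℂ A)) : A) = κ (e i) x) ∧
    FS μ t (res φ (GA ι κ (Set.range e))) ι' κ'

/-- RSB. Infinite blocks are rich (uses T_RSJ, T_RIC). PROOF. `J = range e` for an injective `e` (`Nat.Subtype.orderIsoOfNat` or `Nat.nth`). -/
def T_RSB : Prop := ∀ (Z A : Type) [TopologicalSpace Z] [CompactSpace Z] [MeasurableSpace Z] [CStarAlgebra A] (μ : Measure Z) (t : ℝ)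
  (φ : A →L[ℂ] ℂ) (ι : C(Z, ℂ) →⋆ₐ[ℂ] A) (κ : ℕ → ℂ × ℂ →⋆ₐ[ℂ] A) (J : Set ℕ), J.Infinite → Irrational t → FS μ t φ ι κ → Rich (res φ (GA ι κ J)) ∧
  ∃ ι' : C(Z, ℂ) →⋆ₐ[ℂ] (GA ι κ J : StarSubalgebra ℂ A), ∀ g, ((ι' g : (GA ι κ J : StarSubalgebra ℂ A)) : A) = ι g

/-- The data of the embedding `α : A₁ → A`. -/
structure EB {K A A₁ : Type} [TopologicalSpace K] [CompactSpace K] [MeasurableSpace K] [CStarAlgebra A] [CStarAlgebra A₁] (μ : Measure K) (φ : A →L[ℂ] ℂ)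
    (ι : C(K, ℂ) →⋆ₐ[ℂ] A) (q : ℕ → ℂ × ℂ →⋆ₐ[ℂ] A) (φ₁ : A₁ →L[ℂ] ℂ) (ι₁ : C(S1, ℂ) →⋆ₐ[ℂ] A₁) (q₁ : ℕ → ℂ × ℂ →⋆ₐ[ℂ] A₁) (c : C(K, K)) (k₀ : K) (r : ℕ)
    (κ : C(S1, ℂ) → C(K, Matrix (Fin r) (Fin r) ℂ)) (e₀ : A) (s : Fin r → A) (α : A₁ →⋆ₐ[ℂ] A) : Prop where
  em : EM μ φ ι c k₀ r e₀ s
  mee : e₀ ∈ GA ι q {j | ∃ i, j = 2 * i}
  mes : ∀ i, s i ∈ GA ι q {j | ∃ i, j = 2 * i}
  iso : Isometry α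
  tra : ∀ a, φ (α a) = φ₁ a
  vz : ∀ g, α (ι₁ g) = amp 1 s (fun f => ι (f.comp c)) κ g
  vp : ∀ i x, α (q₁ i x) = q (2 * i + 1) x

/-- EMB. The embedding (uses T_RSJ, T_RSB, T_RIC, T_EMX, T_OMG, q_FRG, q_ASC, q_ISO). PROOF. Let `B₀ = GA ι q {even}` (T_RSJ with `e i = 2 i`). T_EMX, T_OMG in `B₀`: `e₀, s, ω`. The range of `ω` is in `B₀`, so it is free from `EA q {odd}` (T_FRG; `{even}ᶜ = {odd}`); T_ASC: the family `range ω, range (q (2 i + 1))` is free (the subfamily `q (2i+1)` of a free family is free).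
T_ISO: `α` with `α (ι₁ g) = ω g`, `α (q₁ i x) = q (2 i + 1) x`: the traces agree by `hν` and T_OMG. -/
def T_EMB : Prop := ∀ (K A A₁ : Type) [MetricSpace K] [CompactSpace K] [MeasurableSpace K] [BorelSpace K] [CStarAlgebra A] [CStarAlgebra A₁] (μ : Measure K) [IsProbabilityMeasure μ] (ν : Measure S1) (t : ℝ) (φ : A →L[ℂ] ℂ) (ι : C(K, ℂ) →⋆ₐ[ℂ] A) (q : ℕ → ℂ × ℂ →⋆ₐ[ℂ] A)
  (φ₁ : A₁ →L[ℂ] ℂ) (ι₁ : C(S1, ℂ) →⋆ₐ[ℂ] A₁) (q₁ : ℕ → ℂ × ℂ →⋆ₐ[ℂ] A₁) (c : C(K, K)) (k₀ : K) (r : ℕ) (κ : C(S1, ℂ) → C(K, Matrix (Fin r) (Fin r) ℂ)) (O : Set K), FS μ t φ ι q → FS ν t φ₁ ι₁ q₁ → Irrational t → KP k₀ κ → IsOpen O → (∀ x ∈ O, c x = k₀) →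
  0 < r → 1 - 1 / (r : ℝ) < (μ O).toReal → (∀ g : C(S1, ℂ), ∫ x, g x ∂ν = (∫ x, ∑ i, κ g (c x) i i ∂μ) + (1 - (r : ℂ)) * g 1) → ∃ (e₀ : A) (s : Fin r → A) (α : A₁ →⋆ₐ[ℂ] A), EB μ φ ι q φ₁ ι₁ q₁ c k₀ r κ e₀ s α

/-- ST1. Fact D with automorphisms (uses T_FCD, T_DEX, T_RSB, T_RSJ, T_AUJ, T_PER, q_TSB). `Jn = {j | ∀ i < n, j ≠ 2 i + 1}`, `JA = {j | ∀ i < n, j ≠ 4 i + 3}`. PROOF. `α` maps `GA ι₁ q₁ Jn` into `GA ι q JA` (`α (ι₁ g) ∈ GA ι q {even}`; `2 j + 1 ≠ 4 i + 3` for `j ∈ Jn`). T_RSB: both blocks are rich. T_FCD for the blocks (restrictions of `ι, ι₁, α, e₀, s`):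
`H, δ`; given `k, γ`: `G₁, δ₁, c₁`; given `Gs, δs, cs` T_DEX for `ι₁` in the block (`e₀ := 1`, `k₀ := 1`, `G := G₁ ∪ Gs`, `min δ₁ δs`, `min c₁ cs`) gives `K₁, z₁, g₁, Q₁`; T_FCD: `v, S, r', z, η, W`. `θ₁ = ψ_W ∘ χ_π`, `ψ_W` from T_AUJ (`J = JA`, `w = W`), `χ_π` from T_PER for a permutation with `π i = 4 i + 3` for `i < n`:
`θ₁ (ι f) = W ι f star W`, `θ₁ (q i x) = ψ_W (q (4 i + 3) x) = q (4 i + 3) x`. -/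
def T_ST1 : Prop := ∀ (K A A₁ : Type) [MetricSpace K] [CompactSpace K] [ConnectedSpace K] [MeasurableSpace K] [BorelSpace K] [CStarAlgebra A] [CStarAlgebra A₁] (μ : Measure K) [IsProbabilityMeasure μ] [μ.IsOpenPosMeasure] (ν : Measure S1) [IsProbabilityMeasure ν] (t : ℝ) (φ : A →L[ℂ] ℂ) (ι : C(K, ℂ) →⋆ₐ[ℂ] A) (q : ℕ → ℂ × ℂ →⋆ₐ[ℂ] A)
  (φ₁ : A₁ →L[ℂ] ℂ) (ι₁ : C(S1, ℂ) →⋆ₐ[ℂ] A₁) (q₁ : ℕ → ℂ × ℂ →⋆ₐ[ℂ] A₁) (c : C(K, K)) (k₀ : K) (r : ℕ) (κ : C(S1, ℂ) → C(K, Matrix (Fin r) (Fin r) ℂ)) (e₀ : A) (s : Fin r → A) (α : A₁ →⋆ₐ[ℂ] A) (F : Finset C(K, ℂ)) (ε : ℝ) (n m m₁ : ℕ),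
  FS μ t φ ι q → FS ν t φ₁ ι₁ q₁ → Irrational t → KP k₀ κ → 0 < r → ContinuousMap.Homotopic (ContinuousMap.id K) c → EB μ φ ι q φ₁ ι₁ q₁ c k₀ r κ e₀ s α → 0 < ε →
  ∃ (H : Finset C(K, ℂ)) (δ : ℝ), 0 < δ ∧ ∀ (k : ℕ) (γ : C(K, ℂ) → C(S1, Matrix (Fin k) (Fin k) ℂ)), 0 < k → AHM H δ γ → (∀ f, γ f 1 = f k₀ • (1 : Matrix (Fin k) (Fin k) ℂ)) →
    (∀ x : S1, ∃ w : ℕ → S1, w 0 = 1 ∧ w m₁ = x ∧ ∀ l < m₁, ∀ f ∈ F, opn (γ f (w l) - γ f (w (l + 1))) ≤ ε) → CDt k₀ H δ F ε m (fun f x => Matrix.of fun (a b : Fin k × Fin r) => κ (ent (γ f) a.1 b.1) x a.2 b.2) →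
  ∀ (Gs : Finset C(S1, ℂ)) (δs cs : ℝ), 0 < δs → 0 < cs → ∃ (ι₁' : C(S1, ℂ) →⋆ₐ[ℂ] (GA ι₁ q₁ {j | ∀ i < n, j ≠ 2 * i + 1} : StarSubalgebra ℂ A₁)) (K₁ : ℕ) (z₁ : Fin K₁ → S1) (g₁ : Fin K₁ → C(S1, ℝ)) (Q₁ : Fin K₁ → (GA ι₁ q₁ {j | ∀ i < n, j ≠ 2 * i + 1} : StarSubalgebra ℂ A₁))
    (v : Fin k → (GA ι₁ q₁ {j | ∀ i < n, j ≠ 2 * i + 1} : StarSubalgebra ℂ A₁)) (S : Type) (_ : Fintype S) (r' : S → (GA ι₁ q₁ {j | ∀ i < n, j ≠ 2 * i + 1} : StarSubalgebra ℂ A₁)) (z : S → K) (η : C(K, ℂ) → (GA ι₁ q₁ {j | ∀ i < n, j ≠ 2 * i + 1} : StarSubalgebra ℂ A₁)) (θ : A ≃⋆ₐ[ℂ] A),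
    (∀ g, ((ι₁' g : (GA ι₁ q₁ {j | ∀ i < n, j ≠ 2 * i + 1} : StarSubalgebra ℂ A₁)) : A₁) = ι₁ g) ∧ AD Gs δs cs (res φ₁ (GA ι₁ q₁ {j | ∀ i < n, j ≠ 2 * i + 1})) (fun g => ι₁' g) z₁ g₁ Q₁ ∧ ED (fun g => ι₁' g) k₀ γ (1 - ∑ i, Q₁ i) v r' z η ∧
    (∀ f ∈ F, ‖θ (ι f) - α ((η f : (GA ι₁ q₁ {j | ∀ i < n, j ≠ 2 * i + 1} : StarSubalgebra ℂ A₁)) : A₁)‖ ≤ 10 * ε) ∧ (∀ i < n, ∀ x, θ (q i x) = q (4 * i + 3) x) ∧ ∀ a, φ (θ a) = φ a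

/-- STP. The step (uses T_ST1, T_ST2, T_FCC, T_DEX, T_QCE, T_OCR, T_ODC, T_OMG, T_APD, T_RSB, T_RSJ, T_AUJ, T_PER, T_MAP, T_IDZ, q_TSB). PROOF. See section STEP of `Pool/Agent/FPS/Blueprint2.md`. -/
def T_STP : Prop := ∀ (K A A₁ : Type) [MetricSpace K] [CompactSpace K] [ConnectedSpace K] [MeasurableSpace K] [BorelSpace K] [CStarAlgebra A] [CStarAlgebra A₁] (μ : Measure K) [IsProbabilityMeasure μ] [μ.IsOpenPosMeasure] (ν : Measure S1) [IsProbabilityMeasure ν] [ν.IsOpenPosMeasure] (t : ℝ) (φ : A →L[ℂ] ℂ) (ι : C(K, ℂ) →⋆ₐ[ℂ] A) (q : ℕ → ℂ × ℂ →⋆ₐ[ℂ] A)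
  (φ₁ : A₁ →L[ℂ] ℂ) (ι₁ : C(S1, ℂ) →⋆ₐ[ℂ] A₁) (q₁ : ℕ → ℂ × ℂ →⋆ₐ[ℂ] A₁) (c : C(K, K)) (k₀ : K) (r : ℕ) (κ : C(S1, ℂ) → C(K, Matrix (Fin r) (Fin r) ℂ)) (e₀ : A) (s : Fin r → A) (α : A₁ →⋆ₐ[ℂ] A) (F : Finset C(K, ℂ)) (ε : ℝ) (n n₁ : ℕ),
  FS μ t φ ι q → FS ν t φ₁ ι₁ q₁ → Irrational t → KP k₀ κ → HE K k₀ r κ → 0 < r → ContinuousMap.Homotopic (ContinuousMap.id K) c → EB μ φ ι q φ₁ ι₁ q₁ c k₀ r κ e₀ s α → 0 < ε →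
  ∃ θ : A ≃⋆ₐ[ℂ] A, ‖θ (α (ι₁ idz)) - α (ι₁ idz)‖ ≤ ε ∧ (∀ i < n₁, ∀ x, θ (α (q₁ i x)) = α (q₁ i x)) ∧ (∀ f ∈ F, ∃ a, ‖θ (ι f) - α a‖ ≤ ε) ∧ ∀ i < n, ∀ x, ∃ a, θ (q i x) = α a

/-- OSI. One-sided approximate intertwining. PROOF. Choose inductively automorphisms `θ_n` and elements `a_(i,n)`, `i ≤ n`: with `ψ_n = θ_n ∘ .. ∘ θ_1`, `‖ψ_n (d i) - α a_(i,n)‖ ≤ 2⁻ⁿ` for `i ≤ n`, and `‖θ_n (α a) - α a‖ ≤ 2⁻ⁿ` for `a = d₁ i` (`i ≤ n`) and for all earlier `a_(i,m)`, `m < n`. Then `ψ_n⁻¹ ∘ α` converges pointwise on the dense set `d₁`, hence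
everywhere, to an isometric homomorphism `σ`, and `‖d i - σ a_(i,n)‖ ≤ 2⁻ⁿ + ∑_{m>n} 2⁻ᵐ`, so the (closed) range of `σ` contains all `d i`. -/
def T_OSI : Prop := ∀ (A A₁ : Type) [CStarAlgebra A] [CStarAlgebra A₁] (d : ℕ → A) (d₁ : ℕ → A₁) (α : A₁ →⋆ₐ[ℂ] A), DenseRange d → DenseRange d₁ → Isometry α →
  (∀ (E₁ : Finset A₁) (E : Finset A) (ε : ℝ), 0 < ε → ∃ θ : A ≃⋆ₐ[ℂ] A, (∀ a ∈ E₁, ‖θ (α a) - α a‖ ≤ ε) ∧ ∀ b ∈ E, ∃ a, ‖θ b - α a‖ ≤ ε) → Nonempty (A₁ ≃⋆ₐ[ℂ] A)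

/-- THX. The general theorem (uses T_EMB, T_STP, T_OSI, T_APE, T_APD, T_IDZ, q_SEP). PROOF. T_EMB: `α`. T_SEP for both algebras. T_OSI: given `E₁, E, ε`: T_APE for `A₁` and the generating set `{ι₁ idz} ∪ ⋃ range (q₁ i)` (it generates, by T_IDZ) for the homomorphisms `θ ∘ α` and `α`, T_APD for `A`, the generating set `range ι ∪ ⋃ range (q i)` and `D = range α`: finitely many generators; T_STP. -/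
def T_THX : Prop := ∀ (K A A₁ : Type) [MetricSpace K] [CompactSpace K] [ConnectedSpace K] [MeasurableSpace K] [BorelSpace K] [CStarAlgebra A] [CStarAlgebra A₁] (μ : Measure K) [IsProbabilityMeasure μ] [μ.IsOpenPosMeasure] (ν : Measure S1) [IsProbabilityMeasure ν] [ν.IsOpenPosMeasure] (t : ℝ) (φ : A →L[ℂ] ℂ) (ι : C(K, ℂ) →⋆ₐ[ℂ] A) (q : ℕ → ℂ × ℂ →⋆ₐ[ℂ] A)
  (φ₁ : A₁ →L[ℂ] ℂ) (ι₁ : C(S1, ℂ) →⋆ₐ[ℂ] A₁) (q₁ : ℕ → ℂ × ℂ →⋆ₐ[ℂ] A₁) (c : C(K, K)) (k₀ : K) (r : ℕ) (κ : C(S1, ℂ) → C(K, Matrix (Fin r) (Fin r) ℂ)) (O : Set K), FS μ t φ ι q → FS ν t φ₁ ι₁ q₁ → Irrational t → KP k₀ κ → HE K k₀ r κ → 0 < r →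
  ContinuousMap.Homotopic (ContinuousMap.id K) c → IsOpen O → (∀ x ∈ O, c x = k₀) → 1 - 1 / (r : ℝ) < (μ O).toReal → (∀ g : C(S1, ℂ), ∫ x, g x ∂ν = (∫ x, ∑ i, κ g (c x) i i ∂μ) + (1 - (r : ℂ)) * g 1) → Nonempty (A₁ ≃⋆ₐ[ℂ] A)

end Pool.Agent.FPS
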