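import Pool.Agent.FPS.Inst
import Pool.Agent.FPS.Targets6
import Pool.Agent.FPS.P_CDA

set_option autoImplicit false

/-!
# FPS, target FCC: Fact C (helper30)
-/

open scoped Classical
open MeasureTheory Pool.Agent.FPZ

noncomputable section

namespace Pool.Agent.FPS

namespace FCC_

theorem opn_symm {n : Type} [Fintype n] (A B : Matrix n n ℂ) : opn (A - B) = opn (B - A) := by
  have h : A - B = -(B - A) := by abel
  unfold opn
  rw [h, map_neg, norm_neg]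

theorem opn_zero {n : Type} [Fintype n] : opn (0 : Matrix n n ℂ) = 0 := by
  unfold opn
  rw [map_zero, norm_zero]

/-- an exact homomorphism, composed with a map of the space, is almost multiplicative -/
theorem ahm {K Y Y' n : Type} [TopologicalSpace K] [CompactSpace K] [TopologicalSpace Y]
    [TopologicalSpace Y'] [Fintype n] (H : Finset C(K, ℂ)) {P : C(K, ℂ) → C(Y, Matrix n n ℂ)}
    (hP : EHM P) (u : C(Y', Y)) : AHM H 0 (fun f => (P f).comp u) where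
  add := fun f g => by
    ext x a b
    rw [hP.add]
    rfl
  smul := fun t f => by
    ext x a b
    rw [hP.smul]
    rfl
  one := fun x => hP.one (u x)
  str := fun f x => hP.str f (u x)
  pos := fun f x => ⟨P f (u x), by
    change P (star f * f) (u x) = _
    rw [hP.mul, hP.str]⟩
  mul := fun f _ g _ x => by
    change opn (P (f * g) (u x) - P f (u x) * P g (u x)) ≤ 0
    rw [hP.mul, sub_self, opn_zero]

/-- the points of the decomposition of `η` as a finite family -/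
theorem fam {D S : Type} [CStarAlgebra D] [Fintype S] {K : Type} (r' : S → D) (zs : S → K) (k₀ : K)
    (R V : D) (hR : IsStarProjection R) (hr : ∀ s, IsStarProjection (r' s))
    (ho : ∀ s s', s ≠ s' → r' s * r' s' = 0) (hrR : ∀ s, r' s * R = 0)
    (hV : R = 1 - V - ∑ s, r' s) :
    ∃ (J : ℕ) (q' : Fin J → D) (z' : Fin J → K), (∀ j, IsStarProjection (q' j)) ∧
      (∀ i j, i ≠ j → q' i * q' j = 0) ∧ 1 - ∑ j, q' j = V ∧
      ∀ f : K → ℂ, ∑ j, f (z' j) • q' j = ∑ s, f (zs s) • r' s + f k₀ • R := by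
  have hRr : ∀ s, R * r' s = 0 := by
    intro s
    have h := congrArg star (hrR s)
    rwa [star_mul, star_zero, hR.isSelfAdjoint.star_eq, (hr s).isSelfAdjoint.star_eq] at h
  let e := Fintype.equivFin (Option S)
  let qo : Option S → D := fun o => o.elim R r'
  let zo : Option S → K := fun o => o.elim k₀ zs
  have hq : ∀ o, IsStarProjection (qo o) := by
    intro o
    rcases o with _ | s
    · exact hR
    · exact hr s
  have hqq : ∀ o o', o ≠ o' → qo o * qo o' = 0 := by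
    intro o o' h
    rcases o with _ | s <;> rcases o' with _ | s'
    · exact absurd rfl h
    · exact hRr s'
    · exact hrR s
    · exact ho s s' fun h' => h (by rw [h'])
  refine ⟨Fintype.card (Option S), fun j => qo (e.symm j), fun j => zo (e.symm j), fun j => hq _,
    fun i j hij => hqq _ _ fun h => hij (e.symm.injective h), ?_, ?_⟩
  · have h1 : ∑ j, qo (e.symm j) = ∑ o, qo o := Equiv.sum_comp e.symm qo
    rw [h1, Fintype.sum_option]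
    change 1 - (R + ∑ s, r' s) = V
    rw [hV]
    abel
  · intro f
    have h1 : ∑ j, f (zo (e.symm j)) • qo (e.symm j) = ∑ o, f (zo o) • qo o :=
      Equiv.sum_comp e.symm (fun o => f (zo o) • qo o)
    rw [h1, Fintype.sum_option]
    change f k₀ • R + ∑ s, f (zs s) • r' s = _
    exact add_comm _ _

end FCC_

theorem p_FCC (h_UQE : T_UQE) (h_KPM : T_KPM) (h_KHM : T_KHM) (h_CDR : T_CDR) (h_GRL : T_GRL)
    (h_AMP : T_AMP) (h_AMX : T_AMX) (h_AMM : T_AMM) (h_LK3 : T_LK3) (h_EDF : T_EDF)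
    (h_CHE : T_CHE) (h_CAH : T_CAH) (h_RDV : T_RDV) (h_TRN : T_TRN) (h_REV : T_REV)
    (h_AHN : T_AHN) : T_FCC := by
  intro K _ _ _ k₀ r κ c ν _ _ F' ε' m' hr hκ hhom hε'
  have hconn : ConnectedSpace S1 := by
    refine isConnected_iff_connectedSpace.mp (isConnected_sphere ?_ 0 zero_le_one)
    rw [Complex.rank_real_complex]
    exact_mod_cast one_lt_two
  have hrR : (1 : ℝ) ≤ r := by exact_mod_cast hr
  have hr0 : (0 : ℝ) < r := by linarith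
  have hner : Nonempty (Fin r) := ⟨⟨0, hr⟩⟩
  obtain ⟨m₁, hm₁⟩ := h_KPM K k₀ r κ F' ε' hε'
  obtain ⟨mh, ci, hci0, hcim, hci⟩ := h_KHM K r κ c F' ε' hε' hhom
  obtain ⟨H', G₀, δU, δ₂U, C, C₃, hFH, hHG, hδU, hδ₂U, hC, hC8, hC₃, huqe⟩ :=
    h_UQE S1 ν 1 F' ε' (1 + (2 * m₁ + 1) + mh + m') hε'
  set Gk : Finset C(K, ℂ) := (H' ×ˢ (Finset.univ : Finset (Fin r × Fin r))).image
    (fun p => ent (κ p.1) p.2.1 p.2.2) with hGk
  have hGkm : ∀ g ∈ H', ∀ i j, ent (κ g) i j ∈ Gk := fun g hg i j =>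
    Finset.mem_image.2 ⟨(g, (i, j)), Finset.mem_product.2 ⟨hg, Finset.mem_univ _⟩, rfl⟩
  obtain ⟨Bk, hBk1, hBk⟩ := CDA_.bound Gk
  obtain ⟨BH, hBH1, hBH⟩ := CDA_.bound H'
  have hBk0 : 0 < Bk := by linarith
  have hBH0 : 0 < BH := by linarith
  set δ₂ : ℝ := δU / (r : ℝ) ^ 3 with hδ₂
  have hδ₂0 : 0 < δ₂ := by positivity
  have hδ₂e : 0 + (r : ℝ) ^ 3 * δ₂ ≤ δU := by
    rw [hδ₂]
    field_simp
    linarith
  set ε₂ : ℝ := ε' / (r : ℝ) ^ 2 with hε₂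
  have hε₂0 : 0 < ε₂ := by positivity
  have hε₂e : (r : ℝ) ^ 2 * ε₂ ≤ ε' := by
    rw [hε₂]
    field_simp
    exact le_rfl
  obtain ⟨δ', hδ'0, hd1, hd2, hd3, hd4, hd5, hd6⟩ : ∃ δ' : ℝ, 0 < δ' ∧ δ' ≤ ε' ∧ δ' ≤ δ₂U ∧
      δ' ≤ δU / 2 ∧ Bk * (2 * δ') ≤ δ₂ / 2 ∧ δ' ≤ ε₂ / 4 ∧ BH * (2 * δ') ≤ δU := by
    refine ⟨min ε' (min δ₂U (min (δU / 2) (min (δ₂ / (4 * Bk)) (min (ε₂ / 4) (δU / (2 * BH)))))),
      ?_, ?_, ?_, ?_, ?_, ?_, ?_⟩
    · exact lt_min hε' (lt_min hδ₂U (lt_min (by positivity) (lt_min (by positivity)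
        (lt_min (by positivity) (by positivity)))))
    · exact min_le_left _ _
    · exact (min_le_right _ _).trans (min_le_left _ _)
    · exact (min_le_right _ _).trans ((min_le_right _ _).trans (min_le_left _ _))
    · have h := (min_le_right ε' (min δ₂U (min (δU / 2) (min (δ₂ / (4 * Bk))
        (min (ε₂ / 4) (δU / (2 * BH))))))).trans ((min_le_right _ _).trans
        ((min_le_right _ _).trans (min_le_left _ _)))
      rw [le_div_iff₀ (by positivity)] at h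
      linarith
    · exact (min_le_right _ _).trans ((min_le_right _ _).trans ((min_le_right _ _).trans
        ((min_le_right _ _).trans (min_le_left _ _))))
    · have h := (min_le_right ε' (min δ₂U (min (δU / 2) (min (δ₂ / (4 * Bk))
        (min (ε₂ / 4) (δU / (2 * BH))))))).trans ((min_le_right _ _).trans
        ((min_le_right _ _).trans ((min_le_right _ _).trans (min_le_right _ _))))
      rw [le_div_iff₀ (by positivity)] at h
      linarith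
  set ε₃ : ℝ := ε₂ - 2 * δ' with hε₃
  have hε₃0 : 0 < ε₃ := by linarith
  obtain ⟨c', hc'0, hc1, hc2, hc3⟩ : ∃ c' : ℝ, 0 < c' ∧ r * c' ≤ C / 8 ∧ c' ≤ C / (8 * r) ∧
      r * c' ≤ C₃ := by
    refine ⟨min (C / (8 * r)) (C₃ / r), lt_min (by positivity) (by positivity), ?_,
      min_le_left _ _, ?_⟩
    · have h := min_le_left (C / (8 * (r : ℝ))) (C₃ / r)
      rw [le_div_iff₀ (by positivity)] at h
      linarith
    · have h := min_le_right (C / (8 * (r : ℝ))) (C₃ / r)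
      rw [le_div_iff₀ (by positivity)] at h
      linarith
  refine ⟨H', G₀, Gk, δ', c', hFH.trans hHG, hδ'0, hd1, hc'0, ?_⟩
  intro K₀ z g hg01 hgd hgo
  obtain ⟨δc, hδc, hcdr⟩ := h_CDR K₀ Bk ε₃ hBk0 hε₃0
  set Hη : Finset C(K, ℂ) := ((Finset.range (mh + 1)) ×ˢ Gk).image
    (fun p => p.2.comp (ci p.1)) with hHη
  have hHηm : ∀ i ≤ mh, ∀ f ∈ Gk, f.comp (ci i) ∈ Hη := fun i hi f hf =>
    Finset.mem_image.2 ⟨(i, f), Finset.mem_product.2 ⟨Finset.mem_range.2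
      (Nat.lt_succ_of_le hi), hf⟩, rfl⟩
  have hHηc : ∀ f ∈ Gk, f.comp c ∈ Hη := fun f hf => by
    have h := hHηm mh le_rfl f hf
    rwa [hcim] at h
  obtain ⟨cV, hcV0, hv1, hv2, hv3⟩ : ∃ cV : ℝ, 0 < cV ∧ K₀ * cV ≤ C / (8 * r) ∧ cV ≤ C₃ ∧
      r * cV ≤ C / 8 := by
    refine ⟨min (C / (8 * r * ((K₀ : ℝ) + 1))) C₃, lt_min (by positivity) hC₃, ?_,
      min_le_right _ _, ?_⟩
    · have h := min_le_left (C / (8 * (r : ℝ) * ((K₀ : ℝ) + 1))) C₃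
      have h0 : 0 < min (C / (8 * (r : ℝ) * ((K₀ : ℝ) + 1))) C₃ := lt_min (by positivity) hC₃
      rw [le_div_iff₀ (by positivity)] at h
      rw [le_div_iff₀ (by positivity)]
      have hp : 0 < min (C / (8 * (r : ℝ) * ((K₀ : ℝ) + 1))) C₃ * (8 * r) := by positivity
      nlinarith
    · have h := min_le_left (C / (8 * (r : ℝ) * ((K₀ : ℝ) + 1))) C₃
      have h0 : 0 < min (C / (8 * (r : ℝ) * ((K₀ : ℝ) + 1))) C₃ := lt_min (by positivity) hC₃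
      rw [le_div_iff₀ (by positivity)] at h
      have hp : 0 < min (C / (8 * (r : ℝ) * ((K₀ : ℝ) + 1))) C₃ * (8 * r) := by positivity
      have hK : (0 : ℝ) ≤ K₀ := Nat.cast_nonneg _
      nlinarith
  obtain ⟨δη, hδη0, he1, he2⟩ : ∃ δη : ℝ, 0 < δη ∧ δη ≤ δc ∧ δη ≤ δ₂ / 4 :=
    ⟨min δc (δ₂ / 4), lt_min hδc (by positivity), min_le_left _ _, min_le_right _ _⟩
  refine ⟨Hη, δη, cV, hδη0, hcV0, ?_⟩
  intro k γ hk hγ hCD
  obtain ⟨Ψ', ζ, hζ, hΨA, hΨs, hΨ0, hΨm⟩ := hCD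
  have hkR : (1 : ℝ) ≤ k := by exact_mod_cast hk
  have hk0 : (0 : ℝ) < k := by linarith
  set G₁ : Finset C(S1, ℂ) := G₀ ∪ ((Hη ×ˢ (Finset.univ : Finset (Fin k × Fin k))).image
    (fun p => ent (γ p.1) p.2.1 p.2.2) ∪ ((Finset.range (m' + 1)) ×ˢ (H' ×ˢ
    (Finset.univ : Finset ((Fin r × Fin k) × (Fin r × Fin k))))).image
    (fun p => ent (Ψ' p.1 p.2.1) p.2.2.1 p.2.2.2)) with hG₁
  have hG₁0 : ∀ f ∈ G₀, f ∈ G₁ := fun f hf => Finset.mem_union_left _ hf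
  have hG₁γ : ∀ f ∈ Hη, ∀ a b, ent (γ f) a b ∈ G₁ := fun f hf a b =>
    Finset.mem_union_right _ (Finset.mem_union_left _ (Finset.mem_image.2 ⟨(f, (a, b)),
      Finset.mem_product.2 ⟨hf, Finset.mem_univ _⟩, rfl⟩))
  have hG₁Ψ : ∀ i ≤ m', ∀ f ∈ H', ∀ a b, ent (Ψ' i f) a b ∈ G₁ := fun i hi f hf a b =>
    Finset.mem_union_right _ (Finset.mem_union_right _ (Finset.mem_image.2 ⟨(i, (f, (a, b))),
      Finset.mem_product.2 ⟨Finset.mem_range.2 (Nat.lt_succ_of_le hi), Finset.mem_product.2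
        ⟨hf, Finset.mem_univ _⟩⟩, rfl⟩))
  obtain ⟨B₁, hB₁1, hB₁⟩ := CDA_.bound G₁
  have hB₁0 : 0 < B₁ := by linarith
  obtain ⟨δ₁, hδ₁0, hf1, hf2, hf3⟩ : ∃ δ₁ : ℝ, 0 < δ₁ ∧ δ₁ ≤ δ₂U ∧
      (k : ℝ) ^ 3 * (B₁ * δ₁) ≤ δ₂ / 4 ∧ ((r : ℝ) * k) ^ 3 * (B₁ * δ₁) ≤ δU / 2 := by
    refine ⟨min δ₂U (min (δ₂ / (4 * (k : ℝ) ^ 3 * B₁)) (δU / (2 * ((r : ℝ) * k) ^ 3 * B₁))),
      lt_min hδ₂U (lt_min (by positivity) (by positivity)), min_le_left _ _, ?_, ?_⟩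
    · have h := (min_le_right δ₂U (min (δ₂ / (4 * (k : ℝ) ^ 3 * B₁))
        (δU / (2 * ((r : ℝ) * k) ^ 3 * B₁)))).trans (min_le_left _ _)
      rw [le_div_iff₀ (by positivity)] at h
      linarith
    · have h := (min_le_right δ₂U (min (δ₂ / (4 * (k : ℝ) ^ 3 * B₁))
        (δU / (2 * ((r : ℝ) * k) ^ 3 * B₁)))).trans (min_le_right _ _)
      rw [le_div_iff₀ (by positivity)] at h
      linarith
  refine ⟨G₁, δ₁, hδ₁0, ?_⟩
  intro D S _ _ φ₁ ι₁ ρ K₁ z₁ g₁ Q₁ v r' zs η Q t J q x hφ hν hAD hED hQp hQo ht hQη hQd hQt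
    hρν hDρ hqt hρκ
  have hts := hφ.ts
  -- the corners
  obtain ⟨e, he⟩ : ∃ e : D, e = 1 - ∑ k, Q k := ⟨_, rfl⟩
  obtain ⟨V, hV⟩ : ∃ V : D, V = ∑ a, v a * star (v a) := ⟨_, rfl⟩
  obtain ⟨T, hT⟩ : ∃ T : D, T = ∑ i, t i * star (t i) := ⟨_, rfl⟩
  obtain ⟨E₁, hE₁⟩ : ∃ E₁ : D, E₁ = 1 - ∑ i, Q₁ i := ⟨_, rfl⟩
  rw [← he] at ht hQd hQt
  rw [← hT] at hqt hρκ
  rw [← hE₁] at hED
  have hep : IsStarProjection e := he ▸ (CDA_.compl Q hQp hQo).1
  have hE₁p : IsStarProjection E₁ := hED.pre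
  have hιn : ∀ g, ‖ι₁ g‖ ≤ ‖g‖ := fun g => NonUnitalStarAlgHom.norm_apply_le ι₁ g
  have hρn : ∀ g, ‖ρ g‖ ≤ ‖g‖ := fun g => NonUnitalStarAlgHom.norm_apply_le ρ g
  -- the compression of ι₁
  have hAH1 : AH G₁ (B₁ * δ₁) (cmp 1 E₁ (fun g => ι₁ g)) := by
    refine CDA_.ah_mono (h_CAH S1 D 1 E₁ G₁ 0 δ₁ B₁ (fun g => ι₁ g) hE₁p (CDA_.ah_hom G₁ ι₁)
      (fun f hf => ⟨(hιn f).trans (hB₁ f hf), ?_⟩) hB₁0.le).1 (by linarith)
    rw [hE₁]
    exact hAD.com f hf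
  -- η
  obtain ⟨hVp, hVc, hVη, hVr, hRp, hrR, hηd, hηA⟩ := h_EDF K D S ι₁ k₀ k γ E₁ v r' zs η hED
  rw [← hV] at hVp hVc hVη hVr hRp hrR hηd
  have hηAH : AH Hη (δ₂ / 2) η := by
    refine CDA_.ah_mono (hηA Hη G₁ δη (B₁ * δ₁) hδη0.le (by positivity) hγ hAH1 hG₁γ) ?_
    linarith
  have hηn : ∀ f, ‖η f‖ ≤ ‖f‖ := h_AHN K D Hη (δ₂ / 2) η hηAH
  obtain ⟨L, hL⟩ : ∃ L : C(K, ℂ) → D, L = fun f => η (f.comp c) := ⟨_, rfl⟩
  have hLf : ∀ f, L f = η (f.comp c) := fun f => congrFun hL f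
  have hLA : AH Gk (δ₂ / 2) L := by
    refine ⟨fun f g => ?_, fun t f => ?_, ?_, fun f => ?_, fun f => ?_, fun f hf g hg => ?_⟩
    · rw [hLf, hLf, hLf, ← hηAH.add]; rfl
    · rw [hLf, hLf, ← hηAH.smul]; rfl
    · rw [hLf, ← hηAH.one]; rfl
    · rw [hLf, hLf, ← hηAH.str]; rfl
    · rw [hLf]; exact hηAH.pos (f.comp c)
    · rw [hLf, hLf, hLf]
      exact hηAH.mul _ (hHηc f hf) _ (hHηc g hg)
  have hcn : ∀ f : C(K, ℂ), ‖f.comp c‖ ≤ ‖f‖ := fun f => by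
    rw [ContinuousMap.norm_le _ (norm_nonneg _)]
    exact fun x => f.norm_coe_le_norm (c x)
  have hLn : ∀ f, ‖L f‖ ≤ ‖f‖ := fun f => by
    rw [hLf]
    exact (hηn _).trans (hcn f)
  rw [← hL] at hρκ
  simp only [← hLf] at hQη hQd
  -- almost multiplicativity in the corners
  have hLe : AH Gk δ₂ (cmp k₀ e L) := by
    refine CDA_.ah_mono (h_CAH K D k₀ e Gk (δ₂ / 2) (2 * δ') Bk L hep hLA
      (fun f hf => ⟨(hLn f).trans (hBk f hf), ?_⟩) hBk0.le).1 (by linarith)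
    have h : Dec Gk δ' L Q z := ⟨hQp, hQo, fun f hf => by rw [← he]; exact hQd f hf⟩
    rw [he]
    exact CDA_.dec_comm h f hf
  have hLV : AH Gk δ₂ (cmp k₀ V L) := by
    refine CDA_.ah_mono (h_CAH K D k₀ V Gk (δ₂ / 2) 0 Bk L hVp hLA
      (fun f hf => ⟨(hLn f).trans (hBk f hf), ?_⟩) hBk0.le).1 (by linarith)
    rw [hLf, hVc, sub_self, norm_zero]
  obtain ⟨Bη, hBη1, hBη⟩ := CDA_.bound Hη
  have hηV : AH Hη δ₂ (cmp k₀ V η) := by
    refine CDA_.ah_mono (h_CAH K D k₀ V Hη (δ₂ / 2) 0 Bη η hVp hηAH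
      (fun f hf => ⟨(hηn f).trans (hBη f hf), ?_⟩) (by linarith)).1 (by linarith)
    rw [hVc, sub_self, norm_zero]
  -- traces
  have hTφ : (φ₁ T).re = r * (φ₁ e).re := by
    rw [hT, CDA_.tr_pi φ₁ hts e t ht, Fintype.card_fin]
    simp
  have hVφ : (φ₁ V).re = k * (φ₁ E₁).re := by
    rw [hV, CDA_.tr_pi φ₁ hts E₁ v hED.piv, Fintype.card_fin]
    simp
  have hVlt : (φ₁ V).re < cV := by
    have h := hAD.tra
    rw [← hE₁, lt_div_iff₀ hk0] at h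
    rw [hVφ]
    linarith
  have hE₁lt : (φ₁ E₁).re < cV := by
    have h := hAD.tra
    rw [← hE₁] at h
    refine lt_of_lt_of_le h ?_
    rw [div_le_iff₀ hk0]
    nlinarith
  -- the relation
  obtain ⟨J', q', z', hq'p, hq'o, hq'V, hq'f⟩ := FCC_.fam r' (fun s => c (zs s)) (c k₀)
    (1 - V - ∑ s, r' s) V hRp hED.prr hED.orr hrR rfl
  have hLdec : ∀ f, L f = V * L f * V + ∑ j, f (z' j) • q' j := by
    intro f
    rw [hq'f, hLf]
    have h := hηd (f.comp c)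
    rw [add_assoc] at h
    exact h
  have hrel : Rel φ₁ Gk ε₂ (C / (4 * r)) e L V L := by
    have h := hcdr K D φ₁ hφ L Gk z (fun i => toC (g i)) Q J' q' z' δ' δ' (C / (4 * r)) hδ'0.le
      hδ'0.le hQp hQo hq'p hq'o (fun i => ?_) (fun f hf => ?_) (fun f hf => ?_) (fun i => ?_)
      (fun i j y hij hy => ?_) (fun f hf i y hy => ?_) (fun f hf => ?_) ?_
    · rw [← he, hq'V] at h
      have e' : δ' + δ' + ε₃ = ε₂ := by rw [hε₃]; ring
      rwa [e'] at h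
    · refine ⟨(hLn _).trans ?_, (hQη i).trans he1⟩
      rw [ContinuousMap.norm_le _ zero_le_one]
      intro y
      change ‖((g i y : ℝ) : ℂ)‖ ≤ 1
      rw [Complex.norm_real, Real.norm_eq_abs, abs_of_nonneg (hg01 i y).1]
      exact (hg01 i y).2
    · exact ⟨(hLn f).trans (hBk f hf), fun y => (ContinuousMap.norm_coe_le_norm f y).trans
        (hBk f hf)⟩
    · rw [hq'V, ← hLdec, sub_self, norm_zero]
      exact hδc.le
    · rw [hq'V, ← hLdec, sub_self, norm_zero]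
      exact hδc.le
    · have hy' : g i y ≠ 0 := fun h0 => hy (by change ((g i y : ℝ) : ℂ) = 0; rw [h0]; simp)
      change ((g j y : ℝ) : ℂ) = 0
      rw [hgd i j y hij hy']
      simp
    · have hy' : g i y ≠ 0 := fun h0 => hy (by change ((g i y : ℝ) : ℂ) = 0; rw [h0]; simp)
      exact hgo f hf i y hy'
    · rw [← he]
      exact hQd f hf
    · rw [← he, hq'V]
      have hK : (0 : ℝ) ≤ K₀ := Nat.cast_nonneg _
      have h1 : (K₀ : ℝ) * (φ₁ V).re ≤ K₀ * cV := mul_le_mul_of_nonneg_left hVlt.le hK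
      have h2 : C / (8 * r) + C / (8 * r) = C / (4 * r) := by
        field_simp
        ring
      linarith
  -- κ
  have hκH : AHM H' 0 κ := FCC_.ahm H' hκ.hom (ContinuousMap.id K)
  -- copies
  obtain ⟨σ, hσ, -⟩ := h_RDV D φ₁ hφ V 1 r hVp ⟨IsIdempotentElem.one, IsSelfAdjoint.one _⟩ (by
    rw [hts.one, Complex.one_re]
    have h1 : (r : ℝ) * (φ₁ V).re ≤ r * cV := mul_le_mul_of_nonneg_left hVlt.le hr0.le
    linarith)
  obtain ⟨Sg, hSg⟩ : ∃ Sg : D, Sg = ∑ a, σ a * star (σ a) := ⟨_, rfl⟩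
  -- step 1
  obtain ⟨hA1, hS1, hP1⟩ := h_AMP S1 K (Fin r) D 1 k₀ e t H' Gk 0 δ₂ L κ hep ht hLe hκH le_rfl
    hδ₂0.le (fun f hf a b => hGkm f hf a b)
  rw [Fintype.card_fin] at hA1
  rw [← hT] at hS1 hP1
  have hρA : AH H' δU (cmp 1 T (fun f => ρ f)) ∧ Spt 1 T (cmp 1 T (fun f => ρ f)) := by
    have h := h_CAH S1 D 1 T H' 0 (2 * δ') BH (fun f => ρ f) hP1 (CDA_.ah_hom H' ρ)
      (fun f hf => ⟨(hρn f).trans (hBH f hf), ?_⟩) hBH0.le
    · exact ⟨CDA_.ah_mono h.1 (by linarith), h.2⟩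
    · rw [← hqt]
      exact CDA_.dec_comm hDρ f (hHG hf)
  have hc1T : (φ₁ T).re < C / 4 := by
    rw [hTφ]
    have h1 : (r : ℝ) * (φ₁ e).re ≤ r * c' := mul_le_mul_of_nonneg_left hQt.le hr0.le
    linarith
  have hch1 : Chn φ₁ 1 H' δU F' ε' (C / 4) 1 T (cmp 1 T (fun f => ρ f)) T (amp 1 t L κ) := by
    have h := h_CHE S1 D φ₁ 1 H' δU F' ε' (C / 4) 1 T
      (fun i => if i = 0 then cmp 1 T (fun f => ρ f) else amp 1 t L κ) hP1 hc1T ?_ ?_
    · simpa using h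
    · intro i _
      rcases Nat.eq_zero_or_pos i with h0 | h0
      · subst h0
        simpa using hρA
      · have h0' : i ≠ 0 := h0.ne'
        simp only [h0', if_false]
        exact ⟨CDA_.ah_mono hA1 hδ₂e, hS1⟩
    · intro i hi f hf
      have h0 : i = 0 := by omega
      subst h0
      simp only [if_true, zero_add, one_ne_zero, if_false]
      exact (hρκ f (hHG (hFH hf))).trans hd1
  -- step 2
  have hch2 : Chn φ₁ 1 H' δU F' ε' (C / 4) (2 * m₁ + 1) T (amp 1 t L κ) Sg (amp 1 σ L κ) := by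
    have h := h_GRL S1 K (Fin r) D φ₁ 1 k₀ H' F' Gk δU 0 δ₂ ε' ε₂ (C / (4 * r)) m₁ e V L L κ t σ
      hφ hep hVp le_rfl hδ₂0.le hε₂0.le hrel hLe hLV (fun f hf a b => hGkm f hf a b)
      (fun f hf a b => hGkm f (hFH hf) a b) hκH (fun f => (hκ.bas f).trans (congrArg (fun M => f 1 • M) (one_inst _ _))) hm₁
      (by rw [Fintype.card_fin]; exact hε₂e) ?_ (by rw [Fintype.card_fin]; exact hδ₂e) ht hσ
    · rw [← hT, ← hSg, Fintype.card_fin] at h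
      have e0 : (r : ℝ) * (C / (4 * r)) = C / 4 := by field_simp
      rwa [e0] at h
    · rw [Fintype.card_fin]
      have e0 : (r : ℝ) * (C / (4 * r)) = C / 4 := by field_simp
      rw [e0]
      linarith
  -- step 3
  have hrV : (r : ℝ) * (φ₁ V).re < C / 4 := by
    have h1 : (r : ℝ) * (φ₁ V).re ≤ r * cV := mul_le_mul_of_nonneg_left hVlt.le hr0.le
    linarith
  have hch3 : Chn φ₁ 1 H' δU F' ε' (C / 4) mh Sg (amp 1 σ L κ) Sg (amp 1 σ η κ) := by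
    have h := h_AMX S1 K (Fin r) D φ₁ 1 k₀ V σ H' F' Hη δU 0 δ₂ ε' (C / 4) mh η
      (fun i g => (κ g).comp (ci (mh - i))) hts hVp hσ hηV le_rfl hδ₂0.le hε'.le
      (fun i _ => FCC_.ahm H' hκ.hom _)
      (fun i _ f hf a b => hHηm (mh - i) (Nat.sub_le _ _) _ (hGkm f hf a b))
      (fun i hi f hf y => ?_) (by rw [Fintype.card_fin]; exact hδ₂e)
      (by rw [Fintype.card_fin]; exact hrV)
    · rw [← hSg] at h
      have e1 : amp 1 σ η (fun g => (κ g).comp (ci (mh - 0))) = amp 1 σ L κ := by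
        rw [Nat.sub_zero, hcim]
        funext f
        unfold amp
        congr 1
        refine Finset.sum_congr rfl fun a _ => Finset.sum_congr rfl fun b _ => ?_
        rw [hLf]
        rfl
      have e2 : amp 1 σ η (fun g => (κ g).comp (ci (mh - mh))) = amp 1 σ η κ := by
        rw [Nat.sub_self, hci0]
        rfl
      rw [e1, e2] at h
      exact h
    · obtain ⟨j, hj⟩ : ∃ j, j = mh - (i + 1) := ⟨_, rfl⟩
      have hj1 : mh - i = j + 1 := by omega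
      have hj2 : j < mh := by omega
      change opn (κ f (ci (mh - i) y) - κ f (ci (mh - (i + 1)) y)) ≤ ε'
      rw [← hj, hj1, FCC_.opn_symm]
      exact hci f hf j hj2 y
  -- step 4
  obtain ⟨hτ, hτs, hτa⟩ := h_AMM S1 K S1 (Fin r) (Fin k) D 1 E₁ v σ η (fun g => ι₁ g) γ κ (Ψ' m')
    hE₁p hED.piv (by rw [← hV]; exact hσ) (fun f => by rw [← hV]; exact hVη f)
    (fun f y a b => by rw [hΨm f y]; rfl)
  have hcard : (Fintype.card (Fin r × Fin k) : ℝ) = r * k := by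
    rw [Fintype.card_prod, Fintype.card_fin, Fintype.card_fin]
    push_cast
    ring
  have hlk := h_LK3 S1 (Fin r × Fin k) D φ₁ 1 E₁ (fun a => σ a.1 * v a.2) H' F' G₁ δU δ'
    (B₁ * δ₁) ε' (C / 4) m' (fun g => ι₁ g) Ψ' ζ hφ hE₁p hτ hAH1 hδ'0.le (by positivity) hε'.le hζ
    hΨA hG₁Ψ hΨs hΨ0 (map_add ι₁) (map_smul ι₁) (map_one ι₁) (by rw [hcard]; linarith)
    (by
      rw [hcard]
      rw [hVφ] at hrV
      linarith)
  have hfun : amp 1 (fun a : Fin r × Fin k => σ a.1 * v a.2) (fun g => ι₁ g) (Ψ' m')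
      = amp 1 σ η κ := funext fun f => (hτa f).symm
  rw [hτs, hfun, ← hSg] at hlk
  have hch4 := (h_REV S1 D φ₁ 1 H' δU F' ε' _ m' _ _ _ _ hε'.le hlk).1
  -- the chain
  obtain ⟨-, hS2, hP2⟩ := h_AMP S1 K (Fin r) D 1 k₀ V σ H' Gk 0 δ₂ L κ hVp hσ hLV hκH le_rfl
    hδ₂0.le (fun f hf a b => hGkm f hf a b)
  obtain ⟨-, hS3, -⟩ := h_AMP S1 K (Fin r) D 1 k₀ V σ H' Hη 0 δ₂ η κ hVp hσ hηV hκH le_rfl
    hδ₂0.le (fun f hf a b => by
      have h := hHηm 0 (Nat.zero_le _) _ (hGkm f hf a b)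
      rw [hci0] at h
      exact h)
  rw [← hSg] at hS2 hP2 hS3
  have hc12 := h_TRN S1 D φ₁ 1 H' δU F' ε' _ _ _ _ _ _ _ _ _ _ hφ hP1 hS1 (by linarith) hch1 hch2
  have hc123 := h_TRN S1 D φ₁ 1 H' δU F' ε' _ _ _ _ _ _ _ _ _ _ hφ hP2 hS2 (by linarith) hc12 hch3
  have hc1234 := h_TRN S1 D φ₁ 1 H' δU F' ε' _ _ _ _ _ _ _ _ _ _ hφ hP2 hS3 (by linarith) hc123
    hch4
  have e4 : C / 4 + C / 4 + C / 4 + C / 4 = C := by ring
  rw [e4] at hc1234
  -- uniqueness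
  refine huqe D φ₁ ρ ι₁ J K₁ q Q₁ x z₁ hφ (fun f hf => (hρν f hf).trans hd2) (fun f _ => ?_)
    ⟨hDρ.1, hDρ.2.1, fun f hf => (hDρ.2.2 f hf).trans hd2⟩
    ⟨hAD.dec.1, hAD.dec.2.1, fun f hf => (hAD.dec.2.2 f (hG₁0 f hf)).trans hf1⟩ ?_ ?_ ?_
  · rw [hν, sub_self, norm_zero]
    exact hδ₂U.le
  · rw [hqt, hTφ]
    have h1 : (r : ℝ) * (φ₁ e).re < r * c' := mul_lt_mul_of_pos_left hQt hr0
    linarith
  · rw [← hE₁]
    linarith
  · rw [hqt, ← hE₁]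
    exact hc1234

end Pool.Agent.FPS
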