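import Pool.Agent.FPS.Targets2
import Pool.Agent.FPS.Targets3
import Pool.Agent.FPZ.Targets1
import Pool.Agent.FPZ.P_DGN

set_option autoImplicit false

/-!
# FPS UQE: uniqueness for two homomorphisms (helper53)
-/

open scoped Classical
open MeasureTheory Pool.Agent.FPZ

noncomputable section

namespace Pool.Agent.FPS

namespace UQE_

variable {A : Type} [CStarAlgebra A]

/-- the complement of the range projections -/
theorem proj_e {S : Type} [Fintype S] {p : A} {v : S → A} (hp : IsStarProjection p)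
    (hv : PI p v) : IsStarProjection (1 - ∑ s, v s * star (v s)) :=
  (DGN_.sum_proj _ (fun s => DGN_.range_proj hp (hv.1 s))
    (fun s s' h => DGN_.range_orth (hv.2 s s' h))).one_sub

theorem star_e {S : Type} [Fintype S] {p : A} {v : S → A} (hp : IsStarProjection p)
    (hv : PI p v) (s : S) : star (v s) * (1 - ∑ t, v t * star (v t)) = 0 := by
  have h1 : star (v s) * ∑ t, v t * star (v t) = star (v s) := by
    rw [Finset.mul_sum, Finset.sum_eq_single s]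
    · rw [← mul_assoc, hv.1 s]
      have := congrArg star (DGN_.mul_proj hp (hv.1 s))
      rw [star_mul, hp.isSelfAdjoint.star_eq] at this
      exact this
    · intro b _ hb
      rw [← mul_assoc, hv.2 s b (Ne.symm hb), zero_mul]
    · intro h
      exact absurd (Finset.mem_univ s) h
  rw [mul_sub, mul_one, h1, sub_self]

theorem tr_e {S : Type} [Fintype S] {φ : A →L[ℂ] ℂ} (hφ : TS φ) {p : A} {v : S → A}
    (hv : PI p v) :
    (φ (1 - ∑ s, v s * star (v s))).re = 1 - (Fintype.card S : ℝ) * (φ p).re := by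
  have h1 : ∀ s, φ (v s * star (v s)) = φ p := fun s => by rw [hφ.tr, hv.1 s]
  rw [map_sub, hφ.one, map_sum]
  simp only [h1]
  rw [Finset.sum_const, Finset.card_univ, nsmul_eq_mul]
  simp

theorem spt {K : Type} [TopologicalSpace K] (k₀ : K) {e : A} (he : IsStarProjection e)
    (L : C(K, ℂ) → A) : Spt k₀ e (cmp k₀ e L) := by
  intro f
  have hee : e * e = e := he.isIdempotentElem.eq
  unfold cmp
  have h1 : e * (e * L f * e + f k₀ • (1 - e)) * e = e * L f * e := by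
    have h2 : e * (1 - e) = 0 := by rw [mul_sub, mul_one, hee, sub_self]
    rw [mul_add, add_mul, mul_smul_comm, h2, smul_zero, zero_mul, add_zero, ← mul_assoc,
      ← mul_assoc, hee, mul_assoc, hee]
  rw [h1]

theorem modulus {K : Type} [MetricSpace K] (k₀ : K) (F : Finset C(K, ℂ)) (ε : ℝ) (hε : 0 < ε) :
    ∃ r₀ : ℝ, 0 < r₀ ∧ ∀ x, dist x k₀ < r₀ → ∀ f ∈ F, ‖f x - f k₀‖ ≤ ε := by
  induction F using Finset.induction_on with
  | empty => exact ⟨1, one_pos, by simp⟩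
  | insert f F hf ih =>
    obtain ⟨r, hr, h⟩ := ih
    obtain ⟨d, hd, h'⟩ := Metric.continuousAt_iff.1 (f.continuous.continuousAt (x := k₀)) ε hε
    refine ⟨min r d, lt_min hr hd, fun x hx g hg => ?_⟩
    rcases Finset.mem_insert.1 hg with rfl | hg
    · have := h' (lt_of_lt_of_le hx (min_le_right _ _))
      rw [dist_eq_norm] at this
      exact this.le
    · exact h x (lt_of_lt_of_le hx (min_le_left _ _)) g hg

theorem norm_one_le : ‖(1 : A)‖ ≤ 1 := by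
  have h : ‖(1 : A)‖ * ‖(1 : A)‖ = ‖(1 : A)‖ := by
    rw [← CStarRing.norm_star_mul_self, star_one, one_mul]
  nlinarith [norm_nonneg (1 : A)]

theorem conj_le {W X : A} (hW : Uni W) : ‖W * X * star W‖ ≤ ‖X‖ := by
  have h1 : ‖W‖ ≤ 1 := by
    have : ‖W‖ * ‖W‖ ≤ 1 := by
      rw [← CStarRing.norm_star_mul_self, hW.1]
      exact norm_one_le
    nlinarith [norm_nonneg W]
  calc ‖W * X * star W‖ ≤ ‖W * X‖ * ‖star W‖ := norm_mul_le _ _
    _ ≤ (‖W‖ * ‖X‖) * ‖star W‖ := by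
        gcongr
        exact norm_mul_le _ _
    _ ≤ (1 * ‖X‖) * 1 := by
        rw [norm_star]
        gcongr
    _ = ‖X‖ := by ring

theorem sum_split {S M : Type} [Fintype S] [AddCommMonoid M] (S₀ : Finset S)
    [Fintype {s // s ∉ S₀}] (g : S → M) :
    ∑ s, g s = ∑ s ∈ S₀, g s + ∑ s : {s // s ∉ S₀}, g s := by
  rw [← Finset.sum_add_sum_compl S₀ g]
  congr 1
  exact Finset.sum_subtype _ (fun x => Finset.mem_compl) _

theorem near {K S : Type} [TopologicalSpace K] [Fintype S] (k₀ : K) (S₀ : Finset S)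
    [Fintype {s // s ∉ S₀}] {p : A} {v : S → A} (hp : IsStarProjection p) (hv : PI p v)
    (L : C(K, ℂ) → A) (z : S → K) (f : C(K, ℂ)) (ε : ℝ) (hε : 0 ≤ ε)
    (h0 : ∀ s ∈ S₀, ‖f (z s) - f k₀‖ ≤ ε)
    (h : ‖L f - ((1 - ∑ s, v s * star (v s)) * L f * (1 - ∑ s, v s * star (v s)) +
      ∑ s, f (z s) • (v s * star (v s)))‖ ≤ ε) :
    ‖L f - nf k₀ (cmp k₀ (1 - ∑ s, v s * star (v s)) L) (fun s : {s // s ∉ S₀} => v s)
      (fun s : {s // s ∉ S₀} => z s) f‖ ≤ 2 * ε := by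
  obtain ⟨c, hc⟩ : ∃ c : S → ℂ, c = fun s => if s ∈ S₀ then f (z s) - f k₀ else 0 := ⟨_, rfl⟩
  have h1 : ‖∑ s, c s • (v s * star (v s))‖ ≤ ε := by
    refine DGN_.norm_diag (fun s => v s * star (v s)) c ε hε
      (fun s => DGN_.range_proj hp (hv.1 s)) (fun s s' h => DGN_.range_orth (hv.2 s s' h)) ?_
    intro s
    rw [hc]
    by_cases hs : s ∈ S₀
    · simp only [hs, if_true]
      exact h0 s hs
    · simp only [hs, if_false]
      rw [norm_zero]
      exact hε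
  have h2 : ∑ s, c s • (v s * star (v s)) =
      ∑ s ∈ S₀, (f (z s) - f k₀) • (v s * star (v s)) := by
    rw [hc]
    simp only [ite_smul, zero_smul]
    rw [Finset.sum_ite_mem, Finset.univ_inter]
  have h3 : ∑ s, f (z s) • (v s * star (v s)) = f k₀ • ∑ s, v s * star (v s) +
      (∑ s ∈ S₀, (f (z s) - f k₀) • (v s * star (v s)) +
        ∑ s : {s // s ∉ S₀}, (f (z s) - f k₀) • (v s * star (v s))) := by
    rw [← sum_split S₀ (fun s => (f (z s) - f k₀) • (v s * star (v s))), Finset.smul_sum,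
      ← Finset.sum_add_distrib]
    refine Finset.sum_congr rfl fun s _ => ?_
    rw [← add_smul]
    congr 1
    ring
  have h4 : L f - nf k₀ (cmp k₀ (1 - ∑ s, v s * star (v s)) L) (fun s : {s // s ∉ S₀} => v s)
      (fun s : {s // s ∉ S₀} => z s) f =
      (L f - ((1 - ∑ s, v s * star (v s)) * L f * (1 - ∑ s, v s * star (v s)) +
        ∑ s, f (z s) • (v s * star (v s)))) + ∑ s, c s • (v s * star (v s)) := by
    rw [h2, h3]
    unfold nf cmp
    have h5 : (1 : A) - (1 - ∑ s, v s * star (v s)) = ∑ s, v s * star (v s) := by abel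
    rw [h5]
    abel
  rw [h4]
  calc _ ≤ ‖L f - ((1 - ∑ s, v s * star (v s)) * L f * (1 - ∑ s, v s * star (v s)) +
        ∑ s, f (z s) • (v s * star (v s)))‖ + ‖∑ s, c s • (v s * star (v s))‖ := norm_add_le _ _
    _ ≤ ε + ε := add_le_add h h1
    _ = 2 * ε := by ring

theorem proj_q {J : ℕ} {q : Fin J → A} (h1 : ∀ j, IsStarProjection (q j))
    (h2 : ∀ i j, i ≠ j → q i * q j = 0) : IsStarProjection (1 - ∑ j, q j) :=
  (DGN_.sum_proj q h1 h2).one_sub

end UQE_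

open UQE_ in
theorem p_UQE (h_PTC : T_PTC) (h_UQC : T_UQC) (h_SYX : T_SYX) (h_RLS : T_RLS) (h_TRN : T_TRN)
    (h_REV : T_REV) (h_UNM : T_UNM) (h_TSB : T_TSB) : T_UQE := by
  intro K _ _ _ _ _ μ _ _ k₀ F ε m₀ hε
  obtain ⟨m₁, hm₁⟩ := h_PTC K k₀ F ε hε
  obtain ⟨H, δ, r, N, y, hFH, hδ, hr, hUQ⟩ :=
    h_UQC K F ε ((2 * m₁ + 1) + m₀ + (2 * m₁ + 1)) hε
  obtain ⟨r₀, hr₀, hmod⟩ := modulus k₀ F ε hε
  obtain ⟨c₁, hc₁, hc₁', hsys⟩ :=
    h_SYX K μ k₀ r r₀ ((2 * m₁ + 1) + m₀ + (2 * m₁ + 1)) N y hr hr₀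
  obtain ⟨ρ, hρ, hrls⟩ := h_RLS K μ k₀ F H ε δ c₁ m₁ hFH hε hδ hc₁ hc₁' hm₁
  obtain ⟨K₀, z, g, g', δ₂', η₀, hg, hgg, hgz, hδ₂', hη₀, hcell⟩ :=
    hsys ρ (c₁ / 16) hρ (by positivity) (by linarith)
  obtain ⟨G, δ₂, c₃, hHG, hδ₂, hc₃, hmain⟩ := hrls K₀ z g g' δ₂' hg hgg hgz hδ₂'
  refine ⟨H, G, δ, δ₂, c₁ / 8, c₃, hFH, hHG, hδ, hδ₂, by positivity, by linarith, hc₃, ?_⟩
  intro A _ φ L L' J J' q q' x x' hR hL hL' hD hD' hq hq' hch
  obtain ⟨_, _, p, -, -, -, -, -, hp, hp0, hp1⟩ :=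
    hR.ric ∅ 1 0 (min η₀ 1) one_pos le_rfl (lt_min hη₀ one_pos) (min_le_right _ _)
  obtain ⟨n, S₀, T, hn, hns, hS₀, hT, hTS₀, hTT, hS₀c, hTc⟩ :=
    hcell (φ p).re hp0 (lt_of_lt_of_le hp1 (min_le_left _ _))
  obtain ⟨v, hv, hve, hvc⟩ := hmain A φ L J q x n p hR hL hD hq hp hn hns
  obtain ⟨v', hv', hve', hvc'⟩ := hmain A φ L' J' q' x' n p hR hL' hD' hq' hp hn hns
  have he := proj_e hp hv
  have he' := proj_e hp hv'
  -- the chain
  have hch1 := h_TRN K A φ k₀ H δ F ε (c₁ / 8) (c₁ / 8) (2 * m₁ + 1) m₀ _ _ _ _ _ _ hR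
    (proj_q hD.1 hD.2.1) (spt k₀ (proj_q hD.1 hD.2.1) _) (by linarith) hvc hch
  have hch2 := h_TRN K A φ k₀ H δ F ε (c₁ / 8 + c₁ / 8) (c₁ / 8) (2 * m₁ + 1 + m₀) (2 * m₁ + 1)
    _ _ _ _ _ _ hR (proj_q hD'.1 hD'.2.1) (spt k₀ (proj_q hD'.1 hD'.2.1) _) (by linarith) hch1
    (h_REV K A φ k₀ H δ F ε (c₁ / 8) (2 * m₁ + 1) _ _ _ _ hε.le hvc').1
  -- traces
  have hcardS : (Fintype.card (Σ k : Fin K₀, Fin (n k)) : ℝ) * (φ p).re =
      ∑ k, n k * (φ p).re := by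
    rw [Fintype.card_sigma]
    simp only [Fintype.card_fin]
    push_cast
    rw [Finset.sum_mul]
  have hcard1 : (Fintype.card (Σ k : Fin K₀, Fin (n k)) : ℝ) =
      S₀.card + Fintype.card {s // s ∉ S₀} := by
    have := sum_split S₀ (fun _ => (1 : ℝ))
    simpa using this
  have hv1 : PI p (fun s : {s // s ∉ S₀} => v s) :=
    ⟨fun s => hv.1 s, fun s t hst => hv.2 s t (fun h => hst (Subtype.ext h))⟩
  have hv1' : PI p (fun s : {s // s ∉ S₀} => v' s) :=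
    ⟨fun s => hv'.1 s, fun s t hst => hv'.2 s t (fun h => hst (Subtype.ext h))⟩
  have htr : (φ (1 - ∑ s : {s // s ∉ S₀}, v s * star (v s))).re =
      S₀.card * (φ p).re + (1 - ∑ k, n k * (φ p).re) := by
    rw [tr_e hR.ts hv1, ← hcardS, hcard1]
    ring
  have hpos : 0 ≤ 1 - ∑ k, n k * (φ p).re := by
    have h1 := (h_TSB A φ hR.ts).1 _ he
    have h2 := tr_e hR.ts hv
    rw [hcardS] at h2
    rw [← h2]
    exact h1.1
  obtain ⟨W, hW, hWf⟩ := h_UNM K A {s // s ∉ S₀} φ k₀ F H ε δ r (c₁ / 8 + c₁ / 8 + c₁ / 8)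
    ((2 * m₁ + 1) + m₀ + (2 * m₁ + 1)) N y _ _ p _ _ (fun s => v s) (fun s => v' s)
    (fun s => z s.1.1) (fun i j => (T i j).subtype (fun s => s ∉ S₀)) hR hUQ hp hv1 hv1' he he'
    (fun s => star_e hp hv s) (fun s => star_e hp hv' s) (spt k₀ he _) (spt k₀ he' _) hch2
    (by rw [htr]; linarith)
    (fun i j s hs => hT i j s (Finset.mem_subtype.1 hs))
    (fun i j i' j' hij => by
      rw [Finset.disjoint_left]
      intro s hs hs'
      exact Finset.disjoint_left.1 (hTT i j i' j' hij) (Finset.mem_subtype.1 hs)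
        (Finset.mem_subtype.1 hs'))
    (fun i j => by
      have h1 : ((T i j).subtype (fun s => s ∉ S₀)).card = (T i j).card := by
        rw [Finset.card_subtype]
        congr 1
        rw [Finset.filter_eq_self]
        intro s hs
        exact Finset.disjoint_left.1 (hTS₀ i j) hs
      rw [h1, htr]
      exact hTc i j)
  refine ⟨W, hW, fun f hf => ?_⟩
  have h1 := near k₀ S₀ hp hv (fun f => L f) (fun s => z s.1) f ε hε.le
    (fun s hs => hmod _ (hS₀ s hs) f hf) (hve f (hFH hf))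
  have h2 := near k₀ S₀ hp hv' (fun f => L' f) (fun s => z s.1) f ε hε.le
    (fun s hs => hmod _ (hS₀ s hs) f hf) (hve' f (hFH hf))
  have h3 := hWf f hf
  obtain ⟨X, hX⟩ : ∃ X, X = nf k₀ (cmp k₀ (1 - ∑ s, v s * star (v s)) (fun f => L f))
    (fun s : {s // s ∉ S₀} => v s) (fun s => z s.1.1) f := ⟨_, rfl⟩
  obtain ⟨X', hX'⟩ : ∃ X, X = nf k₀ (cmp k₀ (1 - ∑ s, v' s * star (v' s)) (fun f => L' f))
    (fun s : {s // s ∉ S₀} => v' s) (fun s => z s.1.1) f := ⟨_, rfl⟩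
  rw [← hX] at h1 h3
  rw [← hX'] at h2 h3
  have h4 : W * L f * star W - L' f =
      W * (L f - X) * star W + (W * X * star W - X') + -(L' f - X') := by
    noncomm_ring
  rw [h4]
  have h5 : ‖W * (L f - X) * star W‖ ≤ 2 * ε := (conj_le hW).trans h1
  have h6 : ‖-(L' f - X')‖ ≤ 2 * ε := by
    rw [norm_neg]
    exact h2
  calc _ ≤ ‖W * (L f - X) * star W + (W * X * star W - X')‖ + ‖-(L' f - X')‖ := norm_add_le _ _
    _ ≤ ‖W * (L f - X) * star W‖ + ‖W * X * star W - X'‖ + ‖-(L' f - X')‖ := by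
        gcongr
        exact norm_add_le _ _
    _ ≤ 2 * ε + 2 * ε + 2 * ε := by linarith
    _ ≤ 10 * ε := by linarith

end Pool.Agent.FPS
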