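import Pool.Agent.FPS.Targets5
import Pool.Agent.FPS.Targets1
import Pool.Agent.FPS.P_UQE
import Pool.Agent.FPZ.Targets3

set_option autoImplicit false

/-!
# FPS FCD: Fact D (helper49)
-/

open scoped Classical
open MeasureTheory Pool.Agent.FPZ

noncomputable section

namespace Pool.Agent.FPS

namespace FCD_

variable {A : Type} [CStarAlgebra A]

/-- `AD` is monotone in the trace bound. -/
theorem ad_mono {K : Type} [TopologicalSpace K] {G : Finset C(K, ℂ)} {ε c c' : ℝ} {φ : A →L[ℂ] ℂ}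
    {L : C(K, ℂ) → A} {K₀ : ℕ} {z : Fin K₀ → K} {g : Fin K₀ → C(K, ℝ)} {Q : Fin K₀ → A}
    (h : AD G ε c φ L z g Q) (hc : c ≤ c') : AD G ε c' φ L z g Q :=
  { rng := h.rng
    dis := h.dis
    osc := h.osc
    ada := h.ada
    dec := h.dec
    com := h.com
    tra := lt_of_lt_of_le h.tra hc }

/-- sum of the ranges of `v` -/
theorem proj_s {S : Type} [Fintype S] {p : A} {v : S → A} (hp : IsStarProjection p)
    (hv : PI p v) : IsStarProjection (∑ s, v s * star (v s)) :=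
  DGN_.sum_proj _ (fun s => DGN_.range_proj hp (hv.1 s))
    (fun s s' h => DGN_.range_orth (hv.2 s s' h))

/-- the sum of the ranges is a left unit for `v a` -/
theorem sum_mul_v {S : Type} [Fintype S] {p : A} {v : S → A} (hp : IsStarProjection p)
    (hv : PI p v) (a : S) : (∑ s, v s * star (v s)) * v a = v a := by
  have h := congrArg star (UQE_.star_e hp hv a)
  rw [star_mul, star_star, star_zero, (UQE_.proj_e hp hv).isSelfAdjoint.star_eq, sub_mul,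
    one_mul, sub_eq_zero] at h
  exact h.symm

/-- an amplification is supported in the sum of the ranges -/
theorem spt_amp {K K' n : Type} [TopologicalSpace K] [TopologicalSpace K'] [Fintype n] (k₀ : K)
    {E : A} {τ : n → A} (hE : IsStarProjection E) (hτ : PI E τ) (L : C(K', ℂ) → A)
    (γ : C(K, ℂ) → C(K', Matrix n n ℂ)) :
    Spt k₀ (∑ a, τ a * star (τ a)) (amp k₀ τ L γ) := by
  intro f
  obtain ⟨P, hP⟩ : ∃ P, P = ∑ a, τ a * star (τ a) := ⟨_, rfl⟩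
  have hPp : IsStarProjection P := hP ▸ proj_s hE hτ
  have hl : ∀ a, P * τ a = τ a := fun a => hP ▸ sum_mul_v hE hτ a
  have hr : ∀ a, star (τ a) * P = star (τ a) := by
    intro a
    have := congrArg star (hl a)
    rwa [star_mul, hPp.isSelfAdjoint.star_eq] at this
  have hPP : P * P = P := hPp.isIdempotentElem.eq
  unfold amp
  rw [← hP]
  obtain ⟨X, hX⟩ : ∃ X, X = ∑ a, ∑ b, τ a * L (ent (γ f) a b) * star (τ b) := ⟨_, rfl⟩
  have hXX : P * X * P = X := by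
    rw [hX, Finset.mul_sum, Finset.sum_mul]
    refine Finset.sum_congr rfl fun a _ => ?_
    rw [Finset.mul_sum, Finset.sum_mul]
    refine Finset.sum_congr rfl fun b _ => ?_
    rw [← mul_assoc, ← mul_assoc, hl a, mul_assoc, hr b]
  rw [← hX]
  have h2 : P * (1 - P) = 0 := by rw [mul_sub, mul_one, hPP, sub_self]
  have h1 : P * (X + f k₀ • (1 - P)) * P = X := by
    rw [mul_add, add_mul, mul_smul_comm, h2, smul_zero, zero_mul, add_zero, hXX]
  rw [h1]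

theorem map_amp {A₁ : Type} [CStarAlgebra A₁] (α : A₁ →⋆ₐ[ℂ] A) {K K' n : Type}
    [TopologicalSpace K] [TopologicalSpace K'] [Fintype n] (k₀ : K) (v : n → A₁)
    (L : C(K', ℂ) → A₁) (γ : C(K, ℂ) → C(K', Matrix n n ℂ)) (f : C(K, ℂ)) :
    α (amp k₀ v L γ f) = amp k₀ (fun a => α (v a)) (fun g => α (L g)) γ f := by
  unfold amp
  rw [map_add, map_smul, map_sub, map_one, map_sum, map_sum]
  simp only [map_sum, map_mul, map_star]

theorem map_pi {A₁ S : Type} [CStarAlgebra A₁] (α : A₁ →⋆ₐ[ℂ] A) {p : A₁} {v : S → A₁}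
    (hv : PI p v) : PI (α p) (fun s => α (v s)) := by
  refine ⟨fun s => ?_, fun s t h => ?_⟩
  · rw [← map_star, ← map_mul, hv.1 s]
  · rw [← map_star, ← map_mul, hv.2 s t h, map_zero]

theorem map_proj {A₁ : Type} [CStarAlgebra A₁] (α : A₁ →⋆ₐ[ℂ] A) {p : A₁}
    (hp : IsStarProjection p) : IsStarProjection (α p) := by
  refine ⟨?_, ?_⟩
  · have h : p * p = p := hp.isIdempotentElem.eq
    change α p * α p = α p
    rw [← map_mul, h]
  · have h : star p = p := hp.isSelfAdjoint.star_eq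
    change star (α p) = α p
    rw [← map_star, h]

end FCD_

open UQE_ FCD_ in
theorem p_FCD (h_UQC : T_UQC) (h_SYX : T_SYX) (h_CDA : T_CDA) (h_CDB : T_CDB) (h_TRN : T_TRN)
    (h_UNM : T_UNM) (h_RDV : T_RDV) (h_PTC : T_PTC) (h_HTP : T_HTP) (h_TSB : T_TSB) : T_FCD := by
  intro K A A₁ _ _ _ _ _ _ _ μ _ _ k₀ r κ c φ φ₁ ι ι₁ α e₀ s F ε m m₁ hr hR hR₁ hKP hHom hEM hα
    hω hε
  obtain ⟨mh, ci, hci0, hcim, hci⟩ := h_HTP K c F ε hε hHom
  obtain ⟨m₂, hm₂⟩ := h_PTC K k₀ F ε hε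
  obtain ⟨H₀, δ₀, r₁, N, y, hFH, hδ₀, hr₁, hUQ⟩ :=
    h_UQC K F ε ((mh + (2 * m₂ + 1)) + (m + (2 * m₁ + 1))) hε
  obtain ⟨r₀, hr₀, hmod⟩ := modulus k₀ F ε hε
  obtain ⟨C₁, hC₁, hC₁', hsys⟩ :=
    h_SYX K μ k₀ r₁ r₀ ((mh + (2 * m₂ + 1)) + (m + (2 * m₁ + 1))) N y hr₁ hr₀
  refine ⟨H₀, δ₀ / 2, by positivity, ?_⟩
  intro k γ hk hγ hγb hmov hCD
  obtain ⟨G₁, δ₁, c₁, hδ₁, hc₁, hA⟩ := h_CDA K A A₁ μ k₀ r κ c φ φ₁ ι ι₁ α e₀ s H₀ F δ₀ ε (C₁ / 8)
    m m₁ k γ hr hR hKP hEM hα hω hδ₀ hε (by positivity) (by linarith) hk hγ hγb hmov hCD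
  have hkpos : (0 : ℝ) < k := Nat.cast_pos.2 hk
  refine ⟨G₁, δ₁, min c₁ (C₁ / (8 * k)), hδ₁, lt_min hc₁ (by positivity), ?_⟩
  intro K₁ z₁ g₁ Q₁ hAD
  have hAD1 := ad_mono hAD (min_le_left _ _)
  have hE₁ : IsStarProjection (1 - ∑ i, Q₁ i) := proj_q hAD.dec.1 hAD.dec.2.1
  have hkE : (k : ℝ) * (φ₁ (1 - ∑ i, Q₁ i)).re < C₁ / 8 := by
    have h1 : (φ₁ (1 - ∑ i, Q₁ i)).re < C₁ / (8 * k) := lt_of_lt_of_le hAD.tra (min_le_right _ _)
    have h2 : (k : ℝ) * (C₁ / (8 * k)) = C₁ / 8 := by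
      field_simp
    calc (k : ℝ) * (φ₁ (1 - ∑ i, Q₁ i)).re < k * (C₁ / (8 * k)) :=
          mul_lt_mul_of_pos_left h1 hkpos
      _ = C₁ / 8 := h2
  obtain ⟨v, hv, -⟩ := h_RDV A₁ φ₁ hR₁ (1 - ∑ i, Q₁ i) 1 k hE₁ (IsStarProjection.one _)
    (by rw [hR₁.ts.one, Complex.one_re]; linarith)
  obtain ⟨G', ε', hε', hB⟩ := h_CDB K A μ k₀ c φ ι H₀ F δ₀ ε (C₁ / 8) mh m₂ ci hR hEM.val hFH hδ₀ hε
    (by positivity) (by linarith) hci0 hcim hci hm₂
  obtain ⟨K', z', g', Q', hAD', hch2⟩ := hA K₁ z₁ g₁ Q₁ hAD1 v hv G' ε' (C₁ / 8 / 4) hε'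
    (by positivity)
  obtain ⟨ρ, c₂, hρ, hc₂, hmain⟩ := hB K' z' g' Q' hAD'
  obtain ⟨K₀, z, g, g'', δ₂', η₀, hg, hgg, hgz, hδ₂', hη₀, hcell⟩ :=
    hsys ρ (min c₂ (C₁ / 8)) hρ (lt_min hc₂ (by positivity)) (min_le_right _ _)
  obtain ⟨_, _, p₁, -, -, -, -, -, hp₁, hp0, hp1⟩ :=
    hR₁.ric ∅ 1 0 (min η₀ 1) one_pos le_rfl (lt_min hη₀ one_pos) (min_le_right _ _)
  obtain ⟨n, S₀, T, hn, hns, hS₀, hT, hTS₀, hTT, hS₀c, hTc⟩ :=
    hcell (φ₁ p₁).re hp0 (lt_of_lt_of_le hp1 (min_le_left _ _))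
  have hpp : φ (α p₁) = φ₁ p₁ := hα p₁
  have hp : IsStarProjection (α p₁) := map_proj α hp₁
  obtain ⟨vι, hvι, hvie, hch1⟩ := hmain K₀ z g g'' n (α p₁) hg hgg hgz hp
    (fun k hk => by
      rw [hpp]
      have := hn k hk
      linarith)
    (by
      rw [hpp]
      exact lt_of_lt_of_le hns (min_le_left _ _))
  have he := proj_e hp hvι
  -- the chain
  have hQ' := proj_q hAD'.dec.1 hAD'.dec.2.1
  have hch := h_TRN K A φ k₀ H₀ δ₀ F ε (C₁ / 8) (C₁ / 8) (mh + (2 * m₂ + 1)) (m + (2 * m₁ + 1))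
    _ _ _ _ _ _ hR hQ' (spt k₀ hQ' _) (by linarith) hch1 hch2
  -- traces
  have hcardS : (Fintype.card (Σ k : Fin K₀, Fin (n k)) : ℝ) * (φ₁ p₁).re =
      ∑ k, n k * (φ₁ p₁).re := by
    rw [Fintype.card_sigma]
    simp only [Fintype.card_fin]
    push_cast
    rw [Finset.sum_mul]
  have hcard1 : (Fintype.card (Σ k : Fin K₀, Fin (n k)) : ℝ) =
      S₀.card + Fintype.card {s // s ∉ S₀} := by
    have := sum_split S₀ (fun _ => (1 : ℝ))
    simpa using this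
  have hpos : 0 ≤ 1 - ∑ k, n k * (φ₁ p₁).re := by
    have h1 := (h_TSB A φ hR.ts).1 _ he
    have h2 := tr_e hR.ts hvι
    rw [hpp, hcardS] at h2
    rw [← h2]
    exact h1.1
  have hE₁s : IsStarProjection (∑ a, v a * star (v a)) := proj_s hE₁ hv
  have hqtr : (φ₁ (1 - ∑ a, v a * star (v a))).re = 1 - (k : ℝ) * (φ₁ (1 - ∑ i, Q₁ i)).re := by
    rw [tr_e hR₁.ts hv, Fintype.card_fin]
  have hS₁ : ((Fintype.card {s // s ∉ S₀} : ℕ) : ℝ) * (φ₁ p₁).re =
      1 - (S₀.card * (φ₁ p₁).re + (1 - ∑ k, n k * (φ₁ p₁).re)) := by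
    rw [← hcardS, hcard1]
    ring
  obtain ⟨u, hu, hqu⟩ := h_RDV A₁ φ₁ hR₁ p₁ (1 - ∑ a, v a * star (v a))
    (Fintype.card {s // s ∉ S₀}) hp₁ hE₁s.one_sub (by rw [hqtr, hS₁]; linarith)
  obtain ⟨v', hv'⟩ : ∃ v' : {s // s ∉ S₀} → A₁, v' = fun s => u (Fintype.equivFin _ s) := ⟨_, rfl⟩
  have hv'1 : PI p₁ v' := by
    rw [hv']
    exact ⟨fun s => hu.1 _, fun s t hst => hu.2 _ _ (fun h => hst ((Fintype.equivFin _).injective h))⟩
  have hqv' : ∀ s, (1 - ∑ a, v a * star (v a)) * v' s = v' s := by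
    intro s
    rw [hv']
    exact hqu _
  have hsv' : ∀ s, star (v' s) * (1 - ∑ a, v a * star (v a)) = star (v' s) := by
    intro s
    have := congrArg star (hqv' s)
    rwa [star_mul, hE₁s.one_sub.isSelfAdjoint.star_eq] at this
  have hvi1 : PI (α p₁) (fun s : {s // s ∉ S₀} => vι s) :=
    ⟨fun s => hvι.1 s, fun s t hst => hvι.2 s t (fun h => hst (Subtype.ext h))⟩
  have htr : (φ (1 - ∑ s : {s // s ∉ S₀}, vι s * star (vι s))).re =
      S₀.card * (φ₁ p₁).re + (1 - ∑ k, n k * (φ₁ p₁).re) := by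
    rw [tr_e hR.ts hvi1, hpp, hS₁]
    ring
  obtain ⟨W, hW, hWf⟩ := h_UNM K A {s // s ∉ S₀} φ k₀ F H₀ ε δ₀ r₁ (C₁ / 8 + C₁ / 8)
    ((mh + (2 * m₂ + 1)) + (m + (2 * m₁ + 1))) N y (1 - ∑ s, vι s * star (vι s))
    (∑ a, α (v a) * star (α (v a))) (α p₁)
    (cmp k₀ (1 - ∑ s, vι s * star (vι s)) (fun f => ι f))
    (amp k₀ (fun a => α (v a)) (fun g => α (ι₁ g)) γ)
    (fun s => vι s) (fun s => α (v' s))
    (fun s => z s.1.1) (fun i j => (T i j).subtype (fun s => s ∉ S₀)) hR hUQ hp hvi1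
    (map_pi α hv'1) he (proj_s (map_proj α hE₁) (map_pi α hv))
    (fun s => star_e hp hvι s)
    (fun s => by
      have h1 : star (v' s) * ∑ a, v a * star (v a) = 0 := by
        have := hsv' s
        rw [mul_sub, mul_one, sub_eq_self] at this
        exact this
      have h2 := congrArg α h1
      rw [map_zero, map_mul, map_star, map_sum] at h2
      simp only [map_mul, map_star] at h2
      exact h2)
    (spt k₀ he _) (spt_amp k₀ (map_proj α hE₁) (map_pi α hv) _ γ) hch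
    (by rw [htr]; linarith)
    (fun i j s hs => hT i j s (Finset.mem_subtype.1 hs))
    (fun i j i' j' hij => by
      rw [Finset.disjoint_left]
      intro s hs hs'
      exact Finset.disjoint_left.1 (hTT i j i' j' hij) (Finset.mem_subtype.1 hs)
        (Finset.mem_subtype.1 hs'))
    (fun i j => by
      have h1 : ((T i j).subtype (fun s => s ∉ S₀)).card = (T i j).card := by
        rw [Finset.card_subtype]
        congr 1
        rw [Finset.filter_eq_self]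
        intro s hs
        exact Finset.disjoint_left.1 (hTS₀ i j) hs
      rw [h1, htr, hpp]
      exact hTc i j)
  refine ⟨v, {s // s ∉ S₀}, inferInstance, fun s => v' s * star (v' s), fun s => z s.1.1,
    fun f => amp k₀ v (fun g => ι₁ g) γ f + ∑ s : {s // s ∉ S₀}, (f (z s.1.1) - f k₀) •
      (v' s * star (v' s)), W, ?_, hW, fun f hf => ?_⟩
  · exact {
      pre := hE₁
      piv := hv
      prr := fun s => DGN_.range_proj hp₁ (hv'1.1 s)
      orr := fun s s' h => DGN_.range_orth (hv'1.2 s s' h)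
      orv := fun s a => by
        have h1 : (1 - ∑ b, v b * star (v b)) * v a = 0 := by
          rw [sub_mul, one_mul, sum_mul_v hE₁ hv, sub_self]
        rw [← hsv' s, mul_assoc, mul_assoc, h1, mul_zero, mul_zero]
      eta := fun f => rfl }
  · have h1 := near k₀ S₀ hp hvι (fun f => ι f) (fun s => z s.1) f ε hε.le
      (fun s hs => hmod _ (hS₀ s hs) f hf) (hvie f (hFH hf))
    have h3 := hWf f hf
    obtain ⟨X, hX⟩ : ∃ X, X = nf k₀ (cmp k₀ (1 - ∑ s, vι s * star (vι s)) (fun f => ι f))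
      (fun s : {s // s ∉ S₀} => vι s) (fun s => z s.1.1) f := ⟨_, rfl⟩
    rw [← hX] at h1 h3
    have h2 : α (amp k₀ v (fun g => ι₁ g) γ f + ∑ s : {s // s ∉ S₀}, (f (z s.1.1) - f k₀) •
        (v' s * star (v' s))) = nf k₀ (amp k₀ (fun a => α (v a)) (fun g => α (ι₁ g)) γ)
        (fun s => α (v' s)) (fun s : {s // s ∉ S₀} => z s.1.1) f := by
      unfold nf
      rw [map_add, map_amp, map_sum]
      simp only [map_smul, map_mul, map_star]
    rw [h2]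
    obtain ⟨Y, hY⟩ : ∃ Y, Y = nf k₀ (amp k₀ (fun a => α (v a)) (fun g => α (ι₁ g)) γ)
        (fun s => α (v' s)) (fun s : {s // s ∉ S₀} => z s.1.1) f := ⟨_, rfl⟩
    rw [← hY] at h3
    rw [← hY]
    have h4 : W * ι f * star W - Y = W * (ι f - X) * star W + (W * X * star W - Y) := by
      noncomm_ring
    rw [h4]
    have h5 : ‖W * (ι f - X) * star W‖ ≤ 2 * ε := (conj_le hW).trans h1
    calc _ ≤ ‖W * (ι f - X) * star W‖ + ‖W * X * star W - Y‖ := norm_add_le _ _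
      _ ≤ 2 * ε + 2 * ε := add_le_add h5 h3
      _ ≤ 10 * ε := by linarith

end Pool.Agent.FPS
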