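import Pool.Agent.FPS.Targets7
import Pool.Agent.FPS.Targets4
import Pool.Agent.FPZ.Targets1

set_option autoImplicit false

open scoped Classical unitInterval
open MeasureTheory Pool.Agent.FPZ

noncomputable section

namespace Pool.Agent.FPS

namespace FI3_

theorem map_openPos {X Y : Type} [TopologicalSpace X] [MeasurableSpace X] [BorelSpace X]
    [TopologicalSpace Y] [MeasurableSpace Y] [BorelSpace Y] (e : X ≃ₜ Y) (μ : Measure X)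
    (hμ : μ.IsOpenPosMeasure) : (Measure.map e μ).IsOpenPosMeasure := by
  constructor
  intro U hU hne
  rw [Measure.map_apply e.continuous.measurable hU.measurableSet]
  refine hμ.open_pos _ (hU.preimage e.continuous) ?_
  obtain ⟨y, hy⟩ := hne
  exact ⟨e.symm y, by simpa using hy⟩

end FI3_

theorem p_FI3 (h_ZFS : Pool.Agent.FPZ.T_ZFS) (h_SPC : Pool.Agent.FPZ.T_SPC)
    (h_NHI : Pool.Agent.FPZ.T_NHI) (h_THX : T_THX) (h_EXA : T_EXA) (h_NU1 : T_NU1) (h_NS3 : T_NS3)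
    (h_EM3 : T_EM3) (h_HMO : T_HMO) (h_CM3 : T_CM3) (h_CM1 : T_CM1) (h_KAV : T_KAV)
    (h_HES : T_HES) (h_HEC : T_HEC) : T_FI3 := by
  intro t ht A A' B B' _ _ _ _ ψ κ φ ι j ψ' κ' φ' ι' j' hB hZ hB' hZ'
  obtain ⟨⟨hcS1, hpS1, hoS1⟩, -⟩ := h_SPC
  have hms : MeasurableSet (Metric.sphere (0 : ℂ) 1) := Metric.isClosed_sphere.measurableSet
  have hnH := h_NHI.1 _ hms
  rw [hnH] at hpS1 hoS1
  have := hcS1
  have := hpS1
  have := hoS1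
  obtain ⟨hpN, hoN, -, -⟩ := h_NU1
  have := hpN
  have := hoN
  obtain ⟨hpS3, hoS3, hlS3⟩ := h_NS3
  have := hpS3
  have := hoS3
  obtain ⟨hcM, e, he⟩ := h_EM3
  have := hcM
  have hFS := h_ZFS S1 A B (nHX S1) t ψ κ φ ι j hB hZ
  have hFS' := h_ZFS S3 A' B' nS t ψ' κ' φ' ι' j' hB' hZ'
  obtain ⟨ι'', hFS''⟩ := h_HMO S3 M3 A' e nS t φ' ι' _ hFS'
  have hpM : IsProbabilityMeasure (Measure.map e nS) :=
    Measure.isProbabilityMeasure_map e.continuous.aemeasurable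
  have hoM : (Measure.map e nS).IsOpenPosMeasure := FI3_.map_openPos e nS hoS3
  have hlev : ∀ a : ℝ, (Measure.map e nS) {x : M3 | x.1.2 = a} = 0 := by
    intro a
    have hcl : IsClosed {x : M3 | x.1.2 = a} :=
      isClosed_eq (continuous_snd.comp continuous_subtype_val) continuous_const
    rw [Measure.map_apply e.continuous.measurable hcl.measurableSet]
    have : e ⁻¹' {x : M3 | x.1.2 = a} = {x : S3 | (x : EuclideanSpace ℝ (Fin 4)) 3 = a} := by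
      ext x
      simp [he x]
    rw [this]
    exact hlS3 a
  obtain ⟨c, O, hc, hO, hcO, hOm, hform⟩ := h_CM3 (Measure.map e nS) hlev
  have hKP : KP k3 kap := h_KAV.2
  have hOm' : 1 - 1 / ((2 : ℕ) : ℝ) < ((Measure.map e nS) O).toReal := by
    refine lt_of_eq_of_lt ?_ hOm
    norm_num
  obtain ⟨A₁, _, φ₁, ι₁, q₁, hFS₁⟩ := h_EXA M3 A' (Measure.map e nS) nu1 t φ' ι'' _ c k3 2 kap O
    hFS'' ht hKP hO hcO (by norm_num) hOm' hform
  obtain ⟨E₁⟩ := h_THX M3 A' A₁ (Measure.map e nS) nu1 t φ' ι'' _ φ₁ ι₁ q₁ c k3 2 kap O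
    hFS'' hFS₁ ht hKP h_HES (by norm_num) hc hO hcO hOm' hform
  obtain ⟨κ₁, hKP₁, hκ₁, hHE₁⟩ := h_HEC
  obtain ⟨c₁, O₁, hc₁, hO₁, hcO₁, hOm₁, hform₁⟩ := h_CM1
  have hform₁' : ∀ g : C(S1, ℂ), ∫ x, g x ∂nu1 =
      (∫ x, ∑ i, κ₁ g (c₁ x) i i ∂(nHX S1)) + (1 - ((1 : ℕ) : ℂ)) * g 1 := by
    intro g
    rw [hform₁ g]
    simp [hκ₁]
  have hOm₁' : 1 - 1 / ((1 : ℕ) : ℝ) < ((nHX S1) O₁).toReal := by
    simpa using hOm₁
  obtain ⟨E₂⟩ := h_THX S1 A A₁ (nHX S1) nu1 t φ ι _ φ₁ ι₁ q₁ c₁ 1 1 κ₁ O₁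
    hFS hFS₁ ht hKP₁ hHE₁ (by norm_num) hc₁ hO₁ hcO₁ hOm₁' hform₁'
  exact ⟨E₂.symm.trans E₁⟩

end Pool.Agent.FPS
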