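import Pool.Agent.FPS.Targets4
import Pool.Agent.FPZ.P_HTP

/-!
# FPS-FLD: folding
-/

set_option autoImplicit false

open scoped Classical
open Pool.Agent.FPZ

noncomputable section

namespace Pool.Agent.FPS

namespace FLD_

/-! ## The operator norm of matrices -/

lemma opn_add {n : Type} [Fintype n] (A B : Matrix n n ℂ) : opn (A + B) ≤ opn A + opn B := by
  unfold opn
  rw [map_add]
  exact norm_add_le _ _

lemma opn_mul {n : Type} [Fintype n] (A B : Matrix n n ℂ) : opn (A * B) ≤ opn A * opn B := by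
  unfold opn
  rw [map_mul]
  exact norm_mul_le _ _

lemma opn_smul {n : Type} [Fintype n] (c : ℂ) (A : Matrix n n ℂ) : opn (c • A) = ‖c‖ * opn A := by
  unfold opn
  rw [map_smul, norm_smul]

lemma opn_neg {n : Type} [Fintype n] (A : Matrix n n ℂ) : opn (-A) = opn A := by
  unfold opn
  rw [map_neg, norm_neg]

lemma opn_zero {n : Type} [Fintype n] : opn (0 : Matrix n n ℂ) = 0 := by
  unfold opn
  rw [map_zero, norm_zero]

lemma opn_nonneg {n : Type} [Fintype n] (A : Matrix n n ℂ) : 0 ≤ opn A := norm_nonneg _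

lemma opn_conj {n : Type} [Fintype n] (A : Matrix n n ℂ) : opn A.conjTranspose = opn A := by
  unfold opn
  rw [← Matrix.star_eq_conjTranspose, map_star, ContinuousLinearMap.star_eq_adjoint]
  exact LinearIsometryEquiv.norm_map ContinuousLinearMap.adjoint _

lemma opn_le_one {n : Type} [Fintype n] (A B : Matrix n n ℂ) (h : A.conjTranspose * A = B)
    (hB : B = A ∨ B = 1) : opn A ≤ 1 := by
  have h1 : opn A * opn A = opn B := by
    unfold opn
    rw [← h, ← Matrix.star_eq_conjTranspose, map_mul, map_star,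
      ContinuousLinearMap.star_eq_adjoint]
    exact (ContinuousLinearMap.norm_adjoint_comp_self _).symm
  rcases hB with rfl | rfl
  · nlinarith [opn_nonneg B, sq_nonneg (opn B - 1)]
  · have h2 : opn (1 : Matrix n n ℂ) ≤ 1 := by
      unfold opn
      rw [map_one]
      exact ContinuousLinearMap.norm_id_le
    nlinarith [opn_nonneg A]

lemma opn_proj {n : Type} [Fintype n] (P : Matrix n n ℂ) (h1 : P * P = P)
    (h2 : P.conjTranspose = P) : opn P ≤ 1 :=
  opn_le_one P P (by rw [h2, h1]) (Or.inl rfl)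

/-! ## Pointwise almost homomorphisms -/

/-- pointwise version of `AHM` -/
structure PW {K n : Type} [TopologicalSpace K] [CompactSpace K] [Fintype n]
    (H : Finset C(K, ℂ)) (δ : ℝ) (ψ : C(K, ℂ) → Matrix n n ℂ) : Prop where
  add : ∀ f g, ψ (f + g) = ψ f + ψ g
  smul : ∀ (c : ℂ) (f : C(K, ℂ)), ψ (c • f) = c • ψ f
  one : ψ 1 = 1
  str : ∀ f, ψ (star f) = (ψ f).conjTranspose
  pos : ∀ f, ∃ N : Matrix n n ℂ, ψ (star f * f) = N.conjTranspose * N
  mul : ∀ f ∈ H, ∀ g ∈ H, opn (ψ (f * g) - ψ f * ψ g) ≤ δ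

lemma ahm_of_pw {K K' n : Type} [TopologicalSpace K] [CompactSpace K] [TopologicalSpace K']
    [Fintype n] {H : Finset C(K, ℂ)} {δ : ℝ} {γ : C(K, ℂ) → C(K', Matrix n n ℂ)}
    (h : ∀ x, PW H δ (fun f => γ f x)) : AHM H δ γ where
  add f g := ContinuousMap.ext fun x => (h x).add f g
  smul c f := ContinuousMap.ext fun x => (h x).smul c f
  one x := (h x).one
  str f x := (h x).str f
  pos f x := (h x).pos f
  mul f hf g hg x := (h x).mul f hf g hg

lemma pw3 {K n : Type} [TopologicalSpace K] [CompactSpace K] [Fintype n]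
    (H : Finset C(K, ℂ)) {δ : ℝ} (hδ : 0 ≤ δ) (a b c : K) (E F G : Matrix n n ℂ)
    (hE : E * E = E) (hF : F * F = F) (hG : G * G = G) (sE : E.conjTranspose = E)
    (sF : F.conjTranspose = F) (sG : G.conjTranspose = G) (hEF : E * F = 0) (hFE : F * E = 0)
    (hEG : E * G = 0) (hGE : G * E = 0) (hFG : F * G = 0) (hGF : G * F = 0)
    (hs : E + F + G = 1) : PW H δ (fun f => f a • E + f b • F + f c • G) := by
  have hmul : ∀ f g : C(K, ℂ), (f * g) a • E + (f * g) b • F + (f * g) c • G =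
      (f a • E + f b • F + f c • G) * (g a • E + g b • F + g c • G) := by
    intro f g
    simp only [mul_add, add_mul, smul_mul_assoc, mul_smul_comm, hE, hF, hG, hEF, hFE, hEG, hGE,
      hFG, hGF, smul_zero, add_zero, zero_add, ContinuousMap.mul_apply, smul_smul]
    rw [mul_comm (f a), mul_comm (f b), mul_comm (f c)]
  have hstr : ∀ f : C(K, ℂ), (star f) a • E + (star f) b • F + (star f) c • G =
      (f a • E + f b • F + f c • G).conjTranspose := by
    intro f
    rw [Matrix.conjTranspose_add, Matrix.conjTranspose_add, Matrix.conjTranspose_smul,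
      Matrix.conjTranspose_smul, Matrix.conjTranspose_smul, sE, sF, sG]
    rfl
  refine ⟨?_, ?_, ?_, hstr, ?_, ?_⟩
  · intro f g
    simp only [ContinuousMap.add_apply, add_smul]
    abel
  · intro c' f
    simp only [ContinuousMap.smul_apply, smul_add, smul_smul, smul_eq_mul]
  · simp only [ContinuousMap.one_apply, one_smul]
    exact hs
  · intro f
    refine ⟨f a • E + f b • F + f c • G, ?_⟩
    rw [hmul, hstr]
  · intro f _ g _
    rw [hmul, sub_self, opn_zero]
    exact hδ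

lemma pw2 {K n : Type} [TopologicalSpace K] [CompactSpace K] [Fintype n]
    (H : Finset C(K, ℂ)) {δ : ℝ} (hδ : 0 ≤ δ) (a b : K) (R : Matrix n n ℂ)
    (hR : R * R = R) (sR : R.conjTranspose = R) :
    PW H δ (fun f => f a • R + f b • (1 - R)) := by
  have h := pw3 H hδ a b a R (1 - R) 0 hR (by rw [sub_mul, mul_sub, mul_sub, hR]; simp)
    (by simp) sR
    (by rw [Matrix.conjTranspose_sub, sR, Matrix.conjTranspose_one]) (by simp)
    (by rw [mul_sub, hR]; simp) (by rw [sub_mul, hR]; simp) (by simp) (by simp) (by simp)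
    (by simp) (by simp)
  have e : (fun f : C(K, ℂ) => f a • R + f b • (1 - R)) =
      fun f : C(K, ℂ) => f a • R + f b • (1 - R) + f a • (0 : Matrix n n ℂ) := by
    funext f
    rw [smul_zero, add_zero]
  rw [e]
  exact h

lemma pwt {K n : Type} [TopologicalSpace K] [CompactSpace K] [Fintype n]
    (H : Finset C(K, ℂ)) {δ : ℝ} (a b : K) (P : Matrix n n ℂ)
    (hP : P * P = P) (sP : P.conjTranspose = P) (t : ℝ) (h0 : 0 ≤ t) (h1 : t ≤ 1)
    (hδ : ∀ f ∈ H, ∀ g ∈ H, 4 * ‖f‖ * ‖g‖ * (1 - t) ≤ δ) :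
    PW H δ (fun f => f a • ((t : ℂ) • P) + f b • (1 - (t : ℂ) • P)) := by
  have key : ∀ x y : ℂ, x • ((t : ℂ) • P) + y • (1 - (t : ℂ) • P) =
      y • (1 : Matrix n n ℂ) + ((x - y) * t) • P := by
    intro x y
    rw [smul_sub, smul_smul, smul_smul, sub_mul, sub_smul]
    abel
  refine ⟨?_, ?_, ?_, ?_, ?_, ?_⟩
  · intro f g
    simp only [ContinuousMap.add_apply, add_smul]
    abel
  · intro c' f
    simp only [ContinuousMap.smul_apply, smul_add, smul_smul, smul_eq_mul, mul_assoc]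
  · simp only [ContinuousMap.one_apply, one_smul]
    abel
  · intro f
    have ht : ((t : ℂ) • P).conjTranspose = (t : ℂ) • P := by
      rw [Matrix.conjTranspose_smul, sP]
      congr 1
      exact Complex.conj_ofReal t
    rw [Matrix.conjTranspose_add, Matrix.conjTranspose_smul (f a), ht,
      Matrix.conjTranspose_smul (f b), Matrix.conjTranspose_sub, Matrix.conjTranspose_one, ht]
    rfl
  · intro f
    set α : ℝ := Real.sqrt (t * ‖f a‖ ^ 2 + (1 - t) * ‖f b‖ ^ 2) with hα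
    have hα2 : (α : ℂ) * α = t * (‖f a‖ : ℂ) ^ 2 + (1 - t) * (‖f b‖ : ℂ) ^ 2 := by
      rw [← Complex.ofReal_mul, hα, Real.mul_self_sqrt]
      · push_cast
        ring
      · have := sub_nonneg.2 h1
        positivity
    refine ⟨(α : ℂ) • P + (‖f b‖ : ℂ) • (1 - P), ?_⟩
    have hs : ∀ x : K, (star f * f) x = (‖f x‖ : ℂ) ^ 2 := by
      intro x
      rw [ContinuousMap.mul_apply]
      change (starRingEnd ℂ) (f x) * f x = _
      rw [← Complex.normSq_eq_conj_mul_self, Complex.normSq_eq_norm_sq]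
      push_cast
      rfl
    have hct : ((α : ℂ) • P + (‖f b‖ : ℂ) • (1 - P)).conjTranspose =
        (α : ℂ) • P + (‖f b‖ : ℂ) • (1 - P) := by
      rw [Matrix.conjTranspose_add, Matrix.conjTranspose_smul, Matrix.conjTranspose_smul,
        Matrix.conjTranspose_sub, Matrix.conjTranspose_one, sP]
      congr 1
      · congr 1
        exact Complex.conj_ofReal α
      · congr 1
        exact Complex.conj_ofReal ‖f b‖
    rw [hct, hs, hs, key]
    have e1 : ((α : ℂ) • P + (‖f b‖ : ℂ) • (1 - P)) * ((α : ℂ) • P + (‖f b‖ : ℂ) • (1 - P)) =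
        (‖f b‖ : ℂ) ^ 2 • (1 : Matrix n n ℂ) + ((α : ℂ) * α - (‖f b‖ : ℂ) ^ 2) • P := by
      have e2 : (α : ℂ) • P + (‖f b‖ : ℂ) • (1 - P) =
          (‖f b‖ : ℂ) • (1 : Matrix n n ℂ) + ((α : ℂ) - ‖f b‖) • P := by
        rw [smul_sub, sub_smul]
        abel
      rw [e2]
      simp only [mul_add, add_mul, smul_mul_assoc, mul_smul_comm, hP, one_mul, mul_one, smul_smul,
        smul_add]
      have e3 : ((α : ℂ) * α - (‖f b‖ : ℂ) ^ 2) =
          (‖f b‖ : ℂ) * ((α : ℂ) - ‖f b‖) + ((α : ℂ) - ‖f b‖) * ‖f b‖ +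
            ((α : ℂ) - ‖f b‖) * ((α : ℂ) - ‖f b‖) := by ring
      rw [e3, add_smul, add_smul, pow_two, mul_comm ((α : ℂ) - ‖f b‖) (‖f b‖ : ℂ)]
      abel
    rw [e1, hα2]
    congr 2
    ring
  · intro f hf g hg
    have e1 : (f * g) a • ((t : ℂ) • P) + (f * g) b • (1 - (t : ℂ) • P) -
        (f a • ((t : ℂ) • P) + f b • (1 - (t : ℂ) • P)) *
          (g a • ((t : ℂ) • P) + g b • (1 - (t : ℂ) • P)) =
        ((f a - f b) * (g a - g b) * (t * (1 - t) : ℝ)) • P := by
      rw [key, key, key, ContinuousMap.mul_apply, ContinuousMap.mul_apply]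
      simp only [mul_add, add_mul, smul_mul_assoc, mul_smul_comm, hP, one_mul, mul_one, smul_smul,
        smul_add]
      have e3 : ((f a - f b) * (g a - g b) * (t * (1 - t) : ℝ)) =
          ((f a * g a - f b * g b) * t) - ((g b * ((f a - f b) * t)) +
            (((g a - g b) * t) * f b) + ((g a - g b) * t) * ((f a - f b) * t)) := by
        push_cast
        ring
      rw [e3, sub_smul, add_smul, add_smul, mul_comm (g b) (f b)]
      abel
    rw [e1, opn_smul, norm_mul, norm_mul, Complex.norm_real, Real.norm_eq_abs]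
    have hp : opn P ≤ 1 := opn_proj P hP sP
    have hfa : ‖f a - f b‖ ≤ 2 * ‖f‖ := by
      have := norm_sub_le (f a) (f b)
      linarith [f.norm_coe_le_norm a, f.norm_coe_le_norm b]
    have hga : ‖g a - g b‖ ≤ 2 * ‖g‖ := by
      have := norm_sub_le (g a) (g b)
      linarith [g.norm_coe_le_norm a, g.norm_coe_le_norm b]
    have ht : |t * (1 - t)| ≤ 1 - t := by
      rw [abs_of_nonneg (mul_nonneg h0 (sub_nonneg.2 h1))]
      nlinarith
    calc ‖f a - f b‖ * ‖g a - g b‖ * |t * (1 - t)| * opn P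
        ≤ (2 * ‖f‖) * (2 * ‖g‖) * (1 - t) * 1 := by
          have := sub_nonneg.2 h1
          have := opn_nonneg P
          gcongr
      _ = 4 * ‖f‖ * ‖g‖ * (1 - t) := by ring
      _ ≤ δ := hδ f hf g hg

/-! ## Glueing -/

lemma glue {K n : Type} [TopologicalSpace K] [Fintype n] (u l : C(K, K)) (Kp Km : Set K)
    (hp : IsClosed Kp) (hm : IsClosed Km) (hU : Kp ∪ Km = Set.univ)
    (hI : ∀ x ∈ Kp ∩ Km, u x = l x) (A B : Matrix n n ℂ) (f : C(K, ℂ)) :
    ∃ g : C(K, Matrix n n ℂ), (∀ x ∈ Kp, g x = f (u x) • A + f (l x) • (1 - A)) ∧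
      ∀ x ∈ Km, g x = f (u x) • B + f (l x) • (1 - B) := by
  have hI' : ∀ x ∈ Kp ∩ Km, ∀ A' : Matrix n n ℂ, f (u x) • A' + f (l x) • (1 - A') =
      f (l x) • (1 : Matrix n n ℂ) := by
    intro x hx A'
    rw [hI x hx, ← smul_add, add_sub_cancel]
  have hcont : Continuous (Kp.piecewise (fun x => f (u x) • A + f (l x) • (1 - A))
      (fun x => f (u x) • B + f (l x) • (1 - B))) := by
    apply Continuous.piecewise
    · intro x hx
      have h1 : x ∈ Kp := hp.frontier_subset hx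
      have h2 : x ∈ Km := by
        have h3 : x ∈ closure Kpᶜ := by
          have := frontier_subset_closure (s := Kpᶜ)
          rw [frontier_compl] at this
          exact this hx
        have h4 : Kpᶜ ⊆ Km := by
          intro y hy
          have : y ∈ Kp ∪ Km := by rw [hU]; trivial
          exact this.resolve_left hy
        exact (hm.closure_subset_iff.2 h4) h3
      rw [hI' x ⟨h1, h2⟩, hI' x ⟨h1, h2⟩]
    · fun_prop
    · fun_prop
  refine ⟨⟨_, hcont⟩, ?_, ?_⟩
  · intro x hx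
    rw [ContinuousMap.coe_mk, Set.piecewise_eq_of_mem _ _ _ hx]
  · intro x hx
    by_cases h : x ∈ Kp
    · rw [ContinuousMap.coe_mk, Set.piecewise_eq_of_mem _ _ _ h, hI' x ⟨h, hx⟩, hI' x ⟨h, hx⟩]
    · rw [ContinuousMap.coe_mk, Set.piecewise_eq_of_notMem _ _ _ h]

/-- the vector projection -/
def vp {n : Type} [Fintype n] (ζ : n → ℂ) : Matrix n n ℂ :=
  Matrix.of (fun a b => ζ a * star (ζ b))

lemma vp_conj {n : Type} [Fintype n] (ζ : n → ℂ) : (vp ζ).conjTranspose = vp ζ := by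
  ext a b
  simp [vp, Matrix.conjTranspose_apply, mul_comm]

lemma vp_mul {n : Type} [Fintype n] (ζ : n → ℂ) (h : ∑ a, ‖ζ a‖ ^ 2 = 1) :
    vp ζ * vp ζ = vp ζ := by
  ext a b
  simp only [vp, Matrix.mul_apply, Matrix.of_apply]
  have h1 : ∀ j, ζ a * star (ζ j) * (ζ j * star (ζ b)) =
      ((‖ζ j‖ ^ 2 : ℝ) : ℂ) * (ζ a * star (ζ b)) := by
    intro j
    have h2 : star (ζ j) * ζ j = ((‖ζ j‖ ^ 2 : ℝ) : ℂ) := by
      change (starRingEnd ℂ) (ζ j) * ζ j = _
      rw [← Complex.normSq_eq_conj_mul_self, Complex.normSq_eq_norm_sq]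
    rw [← h2]
    ring
  rw [Finset.sum_congr rfl fun j _ => h1 j, ← Finset.sum_mul, ← Complex.ofReal_sum, h]
  simp

/-- orthogonality of two projections whose sum is a projection -/
lemma orth {n : Type} [Fintype n] (R Z : Matrix n n ℂ) (hR : R * R = R) (hZ : Z * Z = Z)
    (h : (R + Z) * (R + Z) = R + Z) : R * Z = 0 ∧ Z * R = 0 := by
  have h1 : R * Z + Z * R = 0 := by
    have : (R + Z) * (R + Z) = R + Z + (R * Z + Z * R) := by
      rw [add_mul, mul_add, mul_add, hR, hZ]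
      abel
    rw [this] at h
    exact add_eq_left.1 h
  have h2 : R * Z + R * Z * R = 0 := by
    have := congrArg (fun M => R * M) h1
    simp only [mul_add, mul_zero] at this
    rw [← mul_assoc, hR, ← mul_assoc] at this
    exact this
  have h3 : R * Z * R + Z * R = 0 := by
    have := congrArg (fun M => M * R) h1
    simp only [add_mul, zero_mul] at this
    rw [mul_assoc Z R R, hR] at this
    exact this
  have h4 : R * Z = Z * R := by
    have h5 : R * Z = -(R * Z * R) := eq_neg_of_add_eq_zero_left h2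
    have h6 : Z * R = -(R * Z * R) := by
      rw [add_comm] at h3
      exact eq_neg_of_add_eq_zero_left h3
    rw [h5, h6]
  have h7 : (2 : ℂ) • (R * Z) = 0 := by
    rw [two_smul]
    nth_rewrite 2 [h4]
    exact h1
  have h8 : R * Z = 0 := (smul_eq_zero.1 h7).resolve_left two_ne_zero
  exact ⟨h8, by rw [← h4, h8]⟩

/-- conjugating a projection by a unitary -/
lemma cproj {n : Type} [Fintype n] (Y P : Matrix n n ℂ) (hY : Y.conjTranspose * Y = 1)
    (hP : P * P = P) (sP : P.conjTranspose = P) :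
    (Y * P * Y.conjTranspose) * (Y * P * Y.conjTranspose) = Y * P * Y.conjTranspose ∧
      (Y * P * Y.conjTranspose).conjTranspose = Y * P * Y.conjTranspose := by
  constructor
  · calc (Y * P * Y.conjTranspose) * (Y * P * Y.conjTranspose)
        = Y * P * (Y.conjTranspose * Y) * P * Y.conjTranspose := by simp only [mul_assoc]
      _ = Y * (P * P) * Y.conjTranspose := by rw [hY, mul_one, mul_assoc Y P P]
      _ = Y * P * Y.conjTranspose := by rw [hP]
  · rw [Matrix.conjTranspose_mul, Matrix.conjTranspose_mul, Matrix.conjTranspose_conjTranspose,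
      sP, mul_assoc]

lemma cproj_diff {n : Type} [Fintype n] (Y Y' P : Matrix n n ℂ) (hY : Y.conjTranspose * Y = 1)
    (hY' : Y'.conjTranspose * Y' = 1) (hP : P * P = P) (sP : P.conjTranspose = P) :
    opn (Y * P * Y.conjTranspose - Y' * P * Y'.conjTranspose) ≤ 2 * opn (Y - Y') := by
  have h1 : Y * P * Y.conjTranspose - Y' * P * Y'.conjTranspose =
      (Y - Y') * (P * Y.conjTranspose) + (Y' * P) * (Y - Y').conjTranspose := by
    rw [Matrix.conjTranspose_sub, sub_mul, mul_sub]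
    simp only [mul_assoc]
    abel
  have hp := opn_proj P hP sP
  have hy : opn Y.conjTranspose ≤ 1 := by
    rw [opn_conj]
    exact opn_le_one Y 1 hY (Or.inr rfl)
  have hy' : opn Y' ≤ 1 := opn_le_one Y' 1 hY' (Or.inr rfl)
  have h2 : opn (P * Y.conjTranspose) ≤ 1 :=
    (opn_mul _ _).trans (mul_le_one₀ hp (opn_nonneg _) hy)
  have h3 : opn (Y' * P) ≤ 1 := (opn_mul _ _).trans (mul_le_one₀ hy' (opn_nonneg _) hp)
  rw [h1]
  refine (opn_add _ _).trans ?_
  have h4 := opn_mul (Y - Y') (P * Y.conjTranspose)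
  have h5 := opn_mul (Y' * P) (Y - Y').conjTranspose
  rw [opn_conj] at h5
  have h6 := opn_nonneg (Y - Y')
  nlinarith [opn_nonneg (P * Y.conjTranspose), opn_nonneg (Y' * P)]

lemma bound_diff {K : Type} [TopologicalSpace K] [CompactSpace K] (f : C(K, ℂ)) (a b : K) :
    ‖f a - f b‖ ≤ 2 * ‖f‖ := by
  have := norm_sub_le (f a) (f b)
  linarith [f.norm_coe_le_norm a, f.norm_coe_le_norm b]

open scoped unitInterval in
/-- discretisation of a pair of homotopies, reversed -/
lemma steps {K : Type} [MetricSpace K] [CompactSpace K] (k₀ : K) (u l : C(K, K))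
    (hu : ContinuousMap.Homotopic u (ContinuousMap.const K k₀))
    (hl : ContinuousMap.Homotopic l (ContinuousMap.const K k₀)) (F : Finset C(K, ℂ)) (ε : ℝ)
    (hε : 0 < ε) : ∃ (m : ℕ) (U L : ℕ → C(K, K)), (∀ x, U 0 x = k₀) ∧ (∀ x, L 0 x = k₀) ∧
      U m = u ∧ L m = l ∧ ∀ f ∈ F, ∀ i < m, ∀ x, ‖f (U i x) - f (U (i + 1) x)‖ ≤ ε ∧
        ‖f (L i x) - f (L (i + 1) x)‖ ≤ ε := by
  obtain ⟨Hu⟩ := hu.symm
  obtain ⟨Hl⟩ := hl.symm
  obtain ⟨δ₁, hδ₁, hmod₁⟩ := HTP_.modulus Hu.toContinuousMap F hε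
  obtain ⟨δ₂, hδ₂, hmod₂⟩ := HTP_.modulus Hl.toContinuousMap F hε
  obtain ⟨n, hn⟩ := exists_nat_one_div_lt (lt_min hδ₁ hδ₂)
  have hm0 : (0 : ℝ) < (n : ℝ) + 1 := by positivity
  let c : ℕ → I := fun i => Set.projIcc 0 1 zero_le_one ((i : ℝ) / ((n : ℝ) + 1))
  have h0 : c 0 = 0 := by
    apply Subtype.ext
    simp [c]
  have h1 : c (n + 1) = 1 := by
    apply Subtype.ext
    simp only [c, Set.coe_projIcc]
    push_cast
    rw [div_self hm0.ne']
    simp
  have hd : ∀ i, dist (c i) (c (i + 1)) < min δ₁ δ₂ := by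
    intro i
    have h1 : dist (c i) (c (i + 1)) ≤ dist ((i : ℝ) / ((n : ℝ) + 1))
        (((i + 1 : ℕ) : ℝ) / ((n : ℝ) + 1)) := by
      have := (LipschitzWith.projIcc (zero_le_one (α := ℝ))).dist_le_mul
        ((i : ℝ) / ((n : ℝ) + 1)) (((i + 1 : ℕ) : ℝ) / ((n : ℝ) + 1))
      rw [NNReal.coe_one, one_mul] at this
      exact this
    have h2 : dist ((i : ℝ) / ((n : ℝ) + 1)) (((i + 1 : ℕ) : ℝ) / ((n : ℝ) + 1)) =
        1 / ((n : ℝ) + 1) := by
      rw [Real.dist_eq, ← sub_div]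
      push_cast
      rw [show (i : ℝ) - ((i : ℝ) + 1) = -1 by ring, abs_div, abs_neg, abs_one, abs_of_pos hm0]
    rw [h2] at h1
    exact lt_of_le_of_lt h1 hn
  refine ⟨n + 1, fun i => ⟨fun z => Hu (c i, z), by fun_prop⟩,
    fun i => ⟨fun z => Hl (c i, z), by fun_prop⟩, ?_, ?_, ?_, ?_, ?_⟩
  · intro x
    simp [h0]
  · intro x
    simp [h0]
  · ext x
    simp [h1]
  · ext x
    simp [h1]
  · intro f hf i _ x
    exact ⟨hmod₁ f hf _ _ x (lt_of_lt_of_le (hd i) (min_le_left _ _)),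
      hmod₂ f hf _ _ x (lt_of_lt_of_le (hd i) (min_le_right _ _))⟩

lemma exists_steps {K : Type} [TopologicalSpace K] [CompactSpace K] (F : Finset C(K, ℂ)) (ε : ℝ)
    (hε : 0 < ε) : ∃ M : ℕ, 0 < M ∧ ∀ f ∈ F, 2 * ‖f‖ * (2 * (4 / M)) ≤ ε := by
  obtain ⟨C, hC⟩ : ∃ C : ℝ, ∀ f ∈ F, ‖f‖ ≤ C := by
    refine ⟨∑ f ∈ F, ‖f‖, fun f hf => ?_⟩
    exact Finset.single_le_sum (f := fun f : C(K, ℂ) => ‖f‖) (fun g _ => norm_nonneg g) hf
  obtain ⟨M, hM⟩ := exists_nat_gt (16 * C / ε)
  refine ⟨M + 1, Nat.succ_pos _, fun f hf => ?_⟩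
  have h1 : (0 : ℝ) < ((M + 1 : ℕ) : ℝ) := by positivity
  have h2 : 16 * C / ε < ((M + 1 : ℕ) : ℝ) := by
    push_cast
    linarith
  rw [div_lt_iff₀ hε] at h2
  have h3 : 2 * ‖f‖ * (2 * (4 / ((M + 1 : ℕ) : ℝ))) = 16 * ‖f‖ / ((M + 1 : ℕ) : ℝ) := by
    field_simp
    ring
  rw [h3, div_le_iff₀ h1]
  nlinarith [hC f hf]

end FLD_

open FLD_ in
/-- folding -/
theorem p_FLD (h_PRK : T_PRK) (h_UPA : T_UPA) : T_FLD := by
  intro K _ _ k₀ u l Kp Km hp hm hU hI hup hlm hhu hhl F ε hε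
  obtain ⟨M₁, U, L, hU0, hL0, hUm, hLm, hst⟩ := steps k₀ u l hhu hhl F (ε / 2) (half_pos hε)
  obtain ⟨M₂, hM₂, hb⟩ := exists_steps F ε hε
  refine ⟨M₁ + M₂ + 1, ?_⟩
  intro n _ P P₀ t δ H hP sP hP₀ sP₀ htr ht0 ht1 hFt hHt hδ
  obtain ⟨X, ζ, hX, hX', hζ, hPX⟩ := h_PRK n P P₀ hP sP hP₀ sP₀ htr
  obtain ⟨Xi, hXi0, hXiM, hXiu, hXis⟩ := h_UPA n X M₂ hX hX' hM₂
  -- the intermediate projections
  set R : ℕ → Matrix n n ℂ := fun j => Xi (M₂ - j) * P₀ * (Xi (M₂ - j)).conjTranspose with hR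
  have hRp : ∀ j, R j * R j = R j ∧ (R j).conjTranspose = R j :=
    fun j => cproj _ _ (hXiu _).1 hP₀ sP₀
  have hR0 : R 0 = X * P₀ * X.conjTranspose := by
    simp only [hR, Nat.sub_zero, hXiM]
  have hRM : R M₂ = P₀ := by
    simp only [hR, Nat.sub_self, hXi0, Matrix.conjTranspose_one, one_mul, mul_one]
  have hRs : ∀ j < M₂, opn (R j - R (j + 1)) ≤ 2 * (4 / M₂) := by
    intro j hj
    have h1 := cproj_diff (Xi (M₂ - j)) (Xi (M₂ - (j + 1))) P₀ (hXiu _).1 (hXiu _).1 hP₀ sP₀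
    have h2 := hXis (M₂ - (j + 1)) (by omega)
    have h3 : M₂ - (j + 1) + 1 = M₂ - j := by omega
    rw [h3] at h2
    have h4 : opn (Xi (M₂ - j) - Xi (M₂ - (j + 1))) = opn (Xi (M₂ - (j + 1)) - Xi (M₂ - j)) := by
      rw [← opn_neg, neg_sub]
    rw [h4] at h1
    exact h1.trans (by linarith)
  -- orthogonality
  have hZ := vp_mul ζ hζ
  have sZ := vp_conj ζ
  have hPZ : P = R 0 + vp ζ := by
    rw [hR0]
    exact hPX
  obtain ⟨hRZ, hZR⟩ := orth (R 0) (vp ζ) (hRp 0).1 hZ (by rw [← hPZ, hP])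
  have hZP : vp ζ * (1 - P) = 0 := by
    rw [mul_sub, mul_one, hPZ, mul_add, hZR, hZ, zero_add, sub_self]
  have hPZ' : (1 - P) * vp ζ = 0 := by
    rw [sub_mul, one_mul, hPZ, add_mul, hRZ, hZ, zero_add, sub_self]
  have hRP : R 0 * (1 - P) = 0 := by
    rw [mul_sub, mul_one, hPZ, mul_add, hRZ, (hRp 0).1, add_zero, sub_self]
  have hPR : (1 - P) * R 0 = 0 := by
    rw [sub_mul, one_mul, hPZ, add_mul, hZR, (hRp 0).1, add_zero, sub_self]
  have hQ : (1 - P) * (1 - P) = 1 - P := by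
    rw [mul_sub, mul_one, sub_mul, one_mul, hP, sub_self, sub_zero]
  have sQ : (1 - P).conjTranspose = 1 - P := by
    rw [Matrix.conjTranspose_sub, Matrix.conjTranspose_one, sP]
  have hsum : vp ζ + R 0 + (1 - P) = 1 := by
    rw [hPZ]
    abel
  -- the maps
  choose G hGp hGm using fun (A B : Matrix n n ℂ) (f : C(K, ℂ)) =>
    glue u l Kp Km hp hm hU hI A B f
  let Θ : ℕ → C(K, ℂ) → C(K, Matrix n n ℂ) := fun i f =>
    ⟨fun x => f x • vp ζ + f (U i x) • R 0 + f (L i x) • (1 - P), by fun_prop⟩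
  have hΘ : ∀ i f x, Θ i f x = f x • vp ζ + f (U i x) • R 0 + f (L i x) • (1 - P) :=
    fun i f x => rfl
  let Ψ : ℕ → C(K, ℂ) → C(K, Matrix n n ℂ) := fun i =>
    if i ≤ M₁ then Θ i else if i ≤ M₁ + M₂ then G P (R (i - M₁)) else G ((t : ℂ) • P) P₀
  have hΨ1 : ∀ i ≤ M₁, Ψ i = Θ i := fun i hi => if_pos hi
  have hΨ2' : ∀ j, 0 < j → j ≤ M₂ → Ψ (M₁ + j) = G P (R j) := by
    intro j hj hj'
    simp only [Ψ]
    rw [if_neg (by omega), if_pos (by omega), Nat.add_sub_cancel_left]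
  have hΘG : ∀ f x, Θ M₁ f x = G P (R 0) f x := by
    intro f x
    rw [hΘ, hUm, hLm]
    have hx : x ∈ Kp ∪ Km := by rw [hU]; trivial
    rcases hx with hx | hx
    · rw [hGp _ _ _ _ hx, hup x hx]
      have e : f x • P = f x • R 0 + f x • vp ζ := by rw [← smul_add, ← hPZ]
      rw [e]
      abel
    · rw [hGm _ _ _ _ hx, hlm x hx]
      have : (1 : Matrix n n ℂ) - R 0 = vp ζ + (1 - P) := by
        rw [hPZ]
        abel
      rw [this, smul_add]
      abel
  have hΨ2 : ∀ j ≤ M₂, ∀ f x, Ψ (M₁ + j) f x = G P (R j) f x := by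
    intro j hj f x
    rcases Nat.eq_zero_or_pos j with rfl | h0
    · rw [add_zero, hΨ1 _ le_rfl]
      exact hΘG f x
    · rw [hΨ2' j h0 hj]
  have hΨ3 : Ψ (M₁ + M₂ + 1) = G ((t : ℂ) • P) P₀ := by
    simp only [Ψ]
    rw [if_neg (by omega), if_neg (by omega)]
  refine ⟨Ψ, ζ, hζ, ?_, ?_, ?_, ?_, ?_⟩
  · -- almost homomorphisms
    intro i hi
    rcases Nat.lt_or_ge M₁ i with h1 | h1
    · rcases Nat.lt_or_ge (M₁ + M₂) i with h2 | h2
      · obtain rfl : i = M₁ + M₂ + 1 := by omega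
        rw [hΨ3]
        apply ahm_of_pw
        intro x
        have hx : x ∈ Kp ∪ Km := by rw [hU]; trivial
        rcases hx with hx | hx
        · rw [show (fun f => G ((t : ℂ) • P) P₀ f x) = fun f : C(K, ℂ) =>
            f (u x) • ((t : ℂ) • P) + f (l x) • (1 - (t : ℂ) • P) from
            funext fun f => hGp _ _ f x hx]
          exact pwt H _ _ P hP sP t ht0 ht1 hHt
        · rw [show (fun f => G ((t : ℂ) • P) P₀ f x) = fun f : C(K, ℂ) =>
            f (u x) • P₀ + f (l x) • (1 - P₀) from funext fun f => hGm _ _ f x hx]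
          exact pw2 H hδ _ _ P₀ hP₀ sP₀
      · obtain ⟨j, rfl⟩ := Nat.exists_eq_add_of_le h1.le
        rw [hΨ2' j (by omega) (by omega)]
        apply ahm_of_pw
        intro x
        have hx : x ∈ Kp ∪ Km := by rw [hU]; trivial
        rcases hx with hx | hx
        · rw [show (fun f => G P (R j) f x) = fun f : C(K, ℂ) =>
            f (u x) • P + f (l x) • (1 - P) from funext fun f => hGp _ _ f x hx]
          exact pw2 H hδ _ _ P hP sP
        · rw [show (fun f => G P (R j) f x) = fun f : C(K, ℂ) =>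
            f (u x) • R j + f (l x) • (1 - R j) from funext fun f => hGm _ _ f x hx]
          exact pw2 H hδ _ _ (R j) (hRp j).1 (hRp j).2
    · rw [hΨ1 i h1]
      apply ahm_of_pw
      intro x
      exact pw3 H hδ x (U i x) (L i x) (vp ζ) (R 0) (1 - P) hZ (hRp 0).1 hQ sZ (hRp 0).2 sQ
        hZR hRZ hZP hPZ' hRP hPR hsum
  · -- steps
    intro i hi f hf x
    rcases Nat.lt_or_ge i M₁ with h1 | h1
    · rw [hΨ1 i h1.le, hΨ1 (i + 1) h1, hΘ, hΘ]
      have e : f x • vp ζ + f (U i x) • R 0 + f (L i x) • (1 - P) -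
          (f x • vp ζ + f (U (i + 1) x) • R 0 + f (L (i + 1) x) • (1 - P)) =
          (f (U i x) - f (U (i + 1) x)) • R 0 + (f (L i x) - f (L (i + 1) x)) • (1 - P) := by
        rw [sub_smul, sub_smul]
        abel
      rw [e]
      refine (opn_add _ _).trans ?_
      rw [opn_smul, opn_smul]
      obtain ⟨h2, h3⟩ := hst f hf i h1 x
      have h4 := opn_proj (R 0) (hRp 0).1 (hRp 0).2
      have h5 := opn_proj (1 - P) hQ sQ
      have h6 := opn_nonneg (R 0)
      have h7 := opn_nonneg (1 - P)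
      have h8 := norm_nonneg (f (U i x) - f (U (i + 1) x))
      have h9 := norm_nonneg (f (L i x) - f (L (i + 1) x))
      nlinarith
    · rcases Nat.lt_or_ge i (M₁ + M₂) with h2 | h2
      · obtain ⟨j, rfl⟩ := Nat.exists_eq_add_of_le h1
        rw [hΨ2 j (by omega), add_assoc, hΨ2 (j + 1) (by omega)]
        have hx : x ∈ Kp ∪ Km := by rw [hU]; trivial
        rcases hx with hx | hx
        · rw [hGp _ _ f x hx, hGp _ _ f x hx, sub_self, opn_zero]
          exact hε.le
        · rw [hGm _ _ f x hx, hGm _ _ f x hx]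
          have e : f (u x) • R j + f (l x) • (1 - R j) -
              (f (u x) • R (j + 1) + f (l x) • (1 - R (j + 1))) =
              (f (u x) - f (l x)) • (R j - R (j + 1)) := by
            rw [smul_sub, smul_sub, smul_sub, sub_smul, sub_smul]
            abel
          rw [e, opn_smul]
          have h3 := bound_diff f (u x) (l x)
          have h4 := hRs j (by omega)
          calc ‖f (u x) - f (l x)‖ * opn (R j - R (j + 1)) ≤ 2 * ‖f‖ * (2 * (4 / M₂)) :=
                mul_le_mul h3 h4 (opn_nonneg _) (by positivity)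
            _ ≤ ε := hb f hf
      · obtain rfl : i = M₁ + M₂ := by omega
        rw [hΨ3, hΨ2 M₂ le_rfl, hRM]
        have hx : x ∈ Kp ∪ Km := by rw [hU]; trivial
        rcases hx with hx | hx
        · rw [hGp _ _ f x hx, hGp _ _ f x hx]
          have e : f (u x) • P + f (l x) • (1 - P) -
              (f (u x) • ((t : ℂ) • P) + f (l x) • (1 - (t : ℂ) • P)) =
              ((f (u x) - f (l x)) * (1 - t : ℝ)) • P := by
            have e1 : ((f (u x) - f (l x)) * ((1 - t : ℝ) : ℂ)) =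
                f (u x) - f (l x) - (f (u x) * t - f (l x) * t) := by
              push_cast
              ring
            rw [e1, smul_sub, smul_sub, smul_smul, smul_smul, sub_smul, sub_smul, sub_smul]
            abel
          rw [e, opn_smul, norm_mul, Complex.norm_real, Real.norm_eq_abs,
            abs_of_nonneg (sub_nonneg.2 ht1)]
          have h3 := bound_diff f (u x) (l x)
          have h4 := opn_proj P hP sP
          have h5 := sub_nonneg.2 ht1
          calc ‖f (u x) - f (l x)‖ * (1 - t) * opn P ≤ 2 * ‖f‖ * (1 - t) * 1 :=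
                mul_le_mul (mul_le_mul_of_nonneg_right h3 h5) h4 (opn_nonneg _) (by positivity)
            _ ≤ ε := by
                rw [mul_one]
                exact hFt f hf
        · rw [hGm _ _ f x hx, hGm _ _ f x hx, sub_self, opn_zero]
          exact hε.le
  · -- start
    intro f x a b
    rw [hΨ1 0 (Nat.zero_le _), hΘ, hU0, hL0]
    have e : f x • vp ζ + f k₀ • R 0 + f k₀ • (1 - P) =
        f x • vp ζ + f k₀ • ((1 : Matrix n n ℂ) - vp ζ) := by
      rw [add_assoc, ← smul_add]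
      congr 2
      rw [hPZ]
      abel
    rw [e]
    simp only [Matrix.add_apply, Matrix.smul_apply, Matrix.sub_apply, vp, Matrix.of_apply,
      smul_eq_mul]
  · intro f x hx
    rw [hΨ3]
    exact hGp _ _ f x hx
  · intro f x hx
    rw [hΨ3]
    exact hGm _ _ f x hx

end Pool.Agent.FPS
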