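import Pool.Agent.FPS.Inst
import Pool.Agent.FPS.Targets4

set_option autoImplicit false

/-!
# FPS, target GMH: `gam` is asymptotically multiplicative
-/

open scoped Classical
open MeasureTheory Pool.Agent.FPZ

noncomputable section

namespace Pool.Agent.FPS

namespace GMH_

/-- The one by one matrix valued function. -/
def un1 (f : C(S2, ℂ)) : C(S2, Matrix Unit Unit ℂ) :=
  ⟨fun x => f x • (1 : Matrix Unit Unit ℂ), f.continuous.smul continuous_const⟩

theorem bn_un1 (N : ℕ) (f : C(S2, ℂ)) (i j : Fin (N + 1)) (u v : Unit) :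
    bn N (un1 f) (i, u) (j, v) = bk N f i j := by
  have h : ent (un1 f) u v = f := by
    ext x
    simp [ent, un1]
  simp [bn, h]

/-- positivity of `bk` -/
theorem bk_pos (h : T_BK1) (N : ℕ) (F : C(S2, ℂ)) :
    ∃ Q : Matrix (Fin (N + 1)) (Fin (N + 1)) ℂ, bk N (star F * F) = Q.conjTranspose * Q := by
  obtain ⟨Q, hQ⟩ := (h.2.2.2.2 N Unit (un1 (star F * F))).2
    (fun x => ⟨F x • (1 : Matrix Unit Unit ℂ), by
      ext u v
      simp [un1, Matrix.mul_apply]⟩)
  refine ⟨Matrix.of fun i j => Q (i, ()) (j, ()), ?_⟩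
  ext i j
  rw [← bn_un1 N (star F * F) i j () (), hQ, Matrix.mul_apply, Matrix.mul_apply,
    Fintype.sum_prod_type]
  refine Finset.sum_congr rfl fun a _ => ?_
  simp [Matrix.conjTranspose_apply]

end GMH_

open GMH_ in
theorem p_GMH (h_GMV : T_GMV) (h_BK1 : T_BK1) (h_BKU : T_BKU) : T_GMH := by
  intro H δ hδ
  obtain ⟨Gm, -, hg, -⟩ := h_GMV
  choose N0 hN0 using fun f g : C(M3, ℂ) => h_BKU S1 (f.comp Gm) (g.comp Gm) δ hδ
  refine ⟨H.sup fun f => H.sup fun g => N0 f g, fun N hN => ?_⟩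
  constructor
  · intro f g
    ext1 z
    rw [ContinuousMap.add_apply, hg, hg, hg, ← h_BK1.1]
    rfl
  · intro c f
    ext1 z
    rw [ContinuousMap.smul_apply, hg, hg, ← h_BK1.2.1]
    rfl
  · intro z
    rw [hg]
    refine (h_BK1.2.2.1 N).trans ?_
    exact one_inst _ _
  · intro f z
    rw [hg, hg, ← h_BK1.2.2.2.1]
    rfl
  · intro f z
    rw [hg]
    exact bk_pos h_BK1 N (sl (f.comp Gm) z)
  · intro f hf g hgH z
    rw [hg, hg, hg]
    have h1 : N0 f g ≤ N :=
      ((Finset.le_sup (f := fun g => N0 f g) hgH).trans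
        (Finset.le_sup (f := fun f => H.sup fun g => N0 f g) hf)).trans hN
    exact hN0 f g N h1 z

end Pool.Agent.FPS
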