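import Pool.Agent.FPS.Targets4
import Pool.Agent.FPS.P_AHN

set_option autoImplicit false

/-!
# FPS: GMP, points can be moved in `γ` (helper27)
-/

open scoped Classical
open MeasureTheory Pool.Agent.FPZ

noncomputable section

namespace Pool.Agent.FPS

namespace GMP_

/-- the operator norm of a matrix after renaming the indices -/
theorem opn_reindex {a b : Type} [Fintype a] [Fintype b] (e : a ≃ b) (M : Matrix a a ℂ)
    (M' : Matrix b b ℂ) (h : ∀ i j, M i j = M' (e i) (e j)) : opn M ≤ opn M' := by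
  unfold opn
  refine ContinuousLinearMap.opNorm_le_bound _ (norm_nonneg _) (fun v => ?_)
  set v' : EuclideanSpace ℂ b := WithLp.toLp 2 (fun j => v (e.symm j)) with hv'
  have h1 : ‖v'‖ = ‖v‖ := by
    rw [EuclideanSpace.norm_eq, EuclideanSpace.norm_eq]
    congr 1
    exact Equiv.sum_comp e.symm (fun i => ‖v i‖ ^ 2)
  have h2 : ‖Matrix.toEuclideanCLM (n := a) (𝕜 := ℂ) M v‖ =
      ‖Matrix.toEuclideanCLM (n := b) (𝕜 := ℂ) M' v'‖ := by
    rw [EuclideanSpace.norm_eq, EuclideanSpace.norm_eq]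
    congr 1
    rw [← Equiv.sum_comp e]
    refine Finset.sum_congr rfl (fun i _ => ?_)
    congr 2
    show (M.mulVec (WithLp.ofLp v)) i = (M'.mulVec (WithLp.ofLp v')) (e i)
    unfold Matrix.mulVec dotProduct
    rw [← Equiv.sum_comp e]
    refine Finset.sum_congr rfl (fun j _ => ?_)
    show M i j * v j = M' (e i) (e j) * v' (e j)
    have h3 : v' (e j) = v j := by
      show v (e.symm (e j)) = v j
      rw [Equiv.symm_apply_apply]
    rw [h i j, h3]
  rw [h2, ← h1]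
  exact ContinuousLinearMap.le_opNorm _ _

/-- the norm of `bk` -/
theorem opn_bk (h_BK1 : T_BK1) (N : ℕ) (g : C(S2, ℂ)) (B : ℝ) (hB : 0 ≤ B)
    (hg : ∀ x, ‖g x‖ ≤ B) : opn (bk N g) ≤ B := by
  set M : C(S2, Matrix Unit Unit ℂ) :=
    ⟨fun x => fun _ _ => g x, continuous_pi fun _ => continuous_pi fun _ => g.continuous⟩ with hM
  have h1 := (h_BK1.2.2.2.2 N Unit M).1 B hB fun x =>
    (AHN_.opn_unit (M x) (g x) fun _ _ => rfl).trans (hg x)
  refine le_trans (opn_reindex (Equiv.prodPUnit (Fin (N + 1))).symm (bk N g) (bn N M) ?_) h1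
  intro i j
  have h2 : ent M () () = g := by
    ext x
    rfl
  show bk N g i j = bk N (ent M () ()) i j
  rw [h2]

theorem bk_sub (h_BK1 : T_BK1) (N : ℕ) (f g : C(S2, ℂ)) : bk N f - bk N g = bk N (f - g) := by
  have h1 : f - g = f + (-1 : ℂ) • g := by
    ext x
    simp [sub_eq_add_neg]
  rw [h1, h_BK1.1, h_BK1.2.1, neg_one_smul, sub_eq_add_neg]

/-- the point at the angle `t` -/
def pt (t : ℝ) : S1 := ⟨Complex.exp (t * Complex.I), by
  rw [mem_sphere_zero_iff_norm, Complex.norm_exp_ofReal_mul_I]⟩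

theorem dist_pt (s t : ℝ) : dist (pt s) (pt t) ≤ |t - s| := by
  rw [Subtype.dist_eq, dist_comm, Complex.dist_eq]
  show ‖Complex.exp (t * Complex.I) - Complex.exp (s * Complex.I)‖ ≤ _
  have h1 : Complex.exp (t * Complex.I) - Complex.exp (s * Complex.I) =
      Complex.exp (s * Complex.I) * (Complex.exp (Complex.I * ((t - s : ℝ) : ℂ)) - 1) := by
    rw [mul_sub, ← Complex.exp_add, mul_one]
    congr 2
    push_cast
    ring
  rw [h1, norm_mul, Complex.norm_exp_ofReal_mul_I, one_mul]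
  exact Real.norm_exp_I_mul_ofReal_sub_one_le

theorem pt_zero : pt 0 = 1 := by
  apply Subtype.ext
  show Complex.exp ((0 : ℝ) * Complex.I) = ((1 : S1) : ℂ)
  simp

theorem pt_arg (x : S1) : pt (Complex.arg x.1) = x := by
  apply Subtype.ext
  show Complex.exp ((Complex.arg x.1 : ℝ) * Complex.I) = x.1
  have h1 := Complex.norm_mul_exp_arg_mul_I x.1
  have h2 : ‖x.1‖ = 1 := mem_sphere_zero_iff_norm.1 x.2
  rwa [h2, Complex.ofReal_one, one_mul] at h1

/-- uniform continuity for a finite set of functions -/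
theorem unif (F : Finset C(M3, ℂ)) (Gm : C(S1 × S2, M3)) (ε : ℝ) (hε : 0 < ε) :
    ∃ ρ : ℝ, 0 < ρ ∧ ∀ f ∈ F, ∀ (z z' : S1) (m : S2), dist z z' < ρ →
      ‖f (Gm (z, m)) - f (Gm (z', m))‖ ≤ ε := by
  induction F using Finset.induction_on with
  | empty => exact ⟨1, one_pos, by simp⟩
  | insert a s ha ih =>
    obtain ⟨ρ, hρ, h1⟩ := ih
    have h2 : UniformContinuous (a.comp Gm) :=
      CompactSpace.uniformContinuous_of_continuous (a.comp Gm).continuous
    obtain ⟨ρ', hρ', h3⟩ := Metric.uniformContinuous_iff.1 h2 ε hε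
    refine ⟨min ρ ρ', lt_min hρ hρ', fun f hf z z' m hz => ?_⟩
    rcases Finset.mem_insert.1 hf with rfl | hf
    · have h4 : dist (z, m) (z', m) < ρ' := by
        rw [Prod.dist_eq, dist_self, max_eq_left dist_nonneg]
        exact lt_of_lt_of_le hz (min_le_right _ _)
      have h5 := h3 h4
      rw [dist_eq_norm] at h5
      exact h5.le
    · exact h1 f hf z z' m (lt_of_lt_of_le hz (min_le_left _ _))

end GMP_

open GMP_ in
/-- GMP: points can be moved in `γ` -/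
theorem p_GMP (h_GMV : T_GMV) (h_BK1 : T_BK1) : T_GMP := by
  intro F ε hε
  obtain ⟨Gm, -, hG, -⟩ := h_GMV
  obtain ⟨ρ, hρ, hu⟩ := unif F Gm ε hε
  obtain ⟨m₁, hm⟩ := exists_nat_gt (Real.pi / ρ)
  have hm0 : (0 : ℝ) < m₁ := lt_trans (div_pos Real.pi_pos hρ) hm
  refine ⟨m₁, fun N x => ?_⟩
  set θ : ℝ := Complex.arg x.1 with hθ
  refine ⟨fun l => pt (θ * l / m₁), ?_, ?_, ?_⟩
  · show pt (θ * ((0 : ℕ) : ℝ) / m₁) = 1
    rw [Nat.cast_zero, mul_zero, zero_div, pt_zero]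
  · show pt (θ * (m₁ : ℝ) / m₁) = x
    rw [mul_div_assoc, div_self hm0.ne', mul_one, hθ, pt_arg]
  · intro l _ f hf
    show opn (gam N f (pt (θ * (l : ℝ) / m₁)) - gam N f (pt (θ * ((l + 1 : ℕ) : ℝ) / m₁))) ≤ ε
    have hd : dist (pt (θ * (l : ℝ) / m₁)) (pt (θ * ((l + 1 : ℕ) : ℝ) / m₁)) < ρ := by
      refine lt_of_le_of_lt (dist_pt _ _) ?_
      have h1 : θ * ((l + 1 : ℕ) : ℝ) / m₁ - θ * (l : ℝ) / m₁ = θ / m₁ := by
        push_cast
        ring
      rw [h1, abs_div, abs_of_pos hm0, div_lt_iff₀ hm0]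
      have h2 : |θ| ≤ Real.pi := Complex.abs_arg_le_pi _
      rw [div_lt_iff₀ hρ] at hm
      linarith
    rw [hG, hG, bk_sub h_BK1]
    refine opn_bk h_BK1 N _ ε hε.le (fun m => ?_)
    show ‖f (Gm (pt (θ * (l : ℝ) / m₁), m)) - f (Gm (pt (θ * ((l + 1 : ℕ) : ℝ) / m₁), m))‖ ≤ ε
    exact hu f hf _ _ m hd

end Pool.Agent.FPS
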