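import Pool.Agent.FPS.Targets4

set_option autoImplicit false

/-!
# FPS: values of gamma (target T_GMV)
-/

open scoped Classical
open MeasureTheory Pool.Agent.FPZ

noncomputable section

namespace Pool.Agent.FPS

namespace GMV_

theorem mt_eq (y : ℝ) (m : S2) : |y| • (mt y m : E3) = (max y 0) • (m : E3) + (max (-y) 0) • (n0 : E3) := by
  unfold mt
  split_ifs with h
  · rw [abs_of_nonneg h, max_eq_left h, max_eq_right (by linarith), zero_smul, add_zero]
  · have h' : y < 0 := not_le.1 h
    rw [abs_of_neg h', max_eq_right h'.le, max_eq_left (by linarith), zero_smul, zero_add]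

theorem nrm_eq (y : ℝ) (m : S2) : ‖|y| • (m : E3)‖ = |y| := by
  rw [norm_smul, Real.norm_eq_abs, abs_abs]
  have : ‖(m : E3)‖ = 1 := by simpa using m.2
  rw [this, mul_one]

theorem circ (z : S1) : z.1.im ^ 2 + z.1.re ^ 2 = 1 := by
  have h : ‖(z : ℂ)‖ = 1 := by simpa using z.2
  have h2 : Complex.normSq (z : ℂ) = 1 := by rw [Complex.normSq_eq_norm_sq, h]; norm_num
  rw [Complex.normSq_apply] at h2
  nlinarith [h2]

theorem mem (z : S1) (m : S2) : ‖|z.1.im| • (mt z.1.im m : E3)‖ ^ 2 + z.1.re ^ 2 = 1 := by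
  rw [nrm_eq, sq_abs, circ]

def Gm : C(S1 × S2, M3) where
  toFun p := ⟨(|p.1.1.im| • (mt p.1.1.im p.2 : E3), p.1.1.re), mem p.1 p.2⟩
  continuous_toFun := by
    refine Continuous.subtype_mk ?_ _
    refine Continuous.prodMk ?_ ?_
    · simp_rw [mt_eq]
      have h1 : Continuous fun p : S1 × S2 => p.1.1.im := Complex.continuous_im.comp (continuous_subtype_val.comp continuous_fst)
      have h2 : Continuous fun p : S1 × S2 => (p.2 : E3) := continuous_subtype_val.comp continuous_snd
      exact ((h1.max continuous_const).smul h2).add ((h1.neg.max continuous_const).smul continuous_const)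
    · exact Complex.continuous_re.comp (continuous_subtype_val.comp continuous_fst)

theorem Gm_val (z : S1) (m : S2) : (Gm (z, m)).1 = (|z.1.im| • (mt z.1.im m : E3), z.1.re) := rfl

theorem Gm_m3 (z : S1) (m : S2) : Gm (z, m) = m3 (|z.1.im| • (mt z.1.im m : E3)) z.1.re := by
  unfold m3
  rw [dif_pos (mem z m)]
  rfl

theorem mkC_eq {Y X : Type} [TopologicalSpace Y] [TopologicalSpace X] [Zero X] (F : Y → X) (h : Continuous F) :
    mkC F = ⟨F, h⟩ := by
  unfold mkC
  rw [dif_pos h]

theorem mkC_apply {Y X : Type} [TopologicalSpace Y] [TopologicalSpace X] [Zero X] (F : Y → X) (h : Continuous F) (y : Y) :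
    mkC F y = F y := by
  rw [mkC_eq F h]
  rfl

theorem inner_eq (f : C(M3, ℂ)) (z : S1) :
    (mkC fun m : S2 => f (m3 (|z.1.im| • (mt z.1.im m : E3)) z.1.re)) = sl (f.comp Gm) z := by
  have h : (fun m : S2 => f (m3 (|z.1.im| • (mt z.1.im m : E3)) z.1.re)) = sl (f.comp Gm) z := by
    funext m
    rw [← Gm_m3]
    rfl
  ext m
  rw [mkC_apply _ (by rw [h]; exact (sl (f.comp Gm) z).continuous), ← Gm_m3]
  rfl

/-- a scalar function as a function with values in the matrices over `Unit` -/
def toU (g : C(S1 × S2, ℂ)) : C(S1 × S2, Matrix Unit Unit ℂ) :=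
  ⟨fun p => Matrix.of fun _ _ => g p, continuous_pi fun _ => continuous_pi fun _ => g.continuous⟩

theorem cont (h_BXC : T_BXC) (N : ℕ) (g : C(S1 × S2, ℂ)) : Continuous fun z => bk N (sl g z) := by
  have h := (h_BXC S1 Unit N (toU g)).1
  refine continuous_pi fun i => continuous_pi fun j => ?_
  have h1 : (fun z => bk N (sl g z) i j) = fun z => bx N (toU g) z (i, ()) (j, ()) := by
    funext z
    rw [h z]
    rfl
  rw [h1]
  exact (continuous_apply (j, ())).comp ((continuous_apply (i, ())).comp (bx N (toU g)).continuous)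

end GMV_

open GMV_ in
theorem p_GMV (h_BK1 : T_BK1) (h_BXC : T_BXC) : T_GMV := by
  have hgam : ∀ (N : ℕ) (f : C(M3, ℂ)) (z : S1), gam N f z = bk N (sl (f.comp Gm) z) := by
    intro N f z
    unfold gam
    have h : (fun z : S1 => bk N (mkC fun m : S2 => f (m3 (|z.1.im| • (mt z.1.im m : E3)) z.1.re))) =
        fun z => bk N (sl (f.comp Gm) z) := by
      funext z
      rw [inner_eq]
    rw [h, mkC_apply _ (cont h_BXC N _)]
  refine ⟨Gm, fun z m => ⟨Gm_m3 z m, Gm_val z m⟩, hgam, ?_⟩
  intro N f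
  rw [hgam]
  have h : sl (f.comp Gm) 1 = f k3 • (1 : C(S2, ℂ)) := by
    ext m
    have h1 : Gm (1, m) = k3 := by
      apply Subtype.ext
      rw [Gm_val]
      simp [k3]
    show f (Gm (1, m)) = f k3 • (1 : ℂ)
    rw [h1, smul_eq_mul, mul_one]
  rw [h, h_BK1.2.1, h_BK1.2.2.1]

end Pool.Agent.FPS
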