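import Pool.Agent.FPS.Targets1
import Pool.Agent.FPS.Targets2

set_option autoImplicit false

/-!
# FPS: from a relation on `K'` to a chain on `K`
-/

open scoped Classical
open MeasureTheory Pool.Agent.FPZ

noncomputable section

namespace Pool.Agent.FPS

namespace GRL_

variable {A : Type} [CStarAlgebra A]

/-! ### projections -/

theorem mul_right_eq {u p : A} (hp : IsStarProjection p) (hu : star u * u = p) : u * p = u := by
  have h1 : p * p = p := hp.isIdempotentElem
  have h2 : star p = p := hp.isSelfAdjoint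
  have h3 : star (u * p - u) * (u * p - u) = 0 := by
    have : star (u * p - u) * (u * p - u)
        = star p * (star u * u) * p - star p * (star u * u) - (star u * u) * p + star u * u := by
      simp only [star_sub, star_mul]
      noncomm_ring
    rw [this, hu, h2, h1, h1]
    simp
  have h4 : u * p - u = 0 := by
    rwa [CStarRing.star_mul_self_eq_zero_iff] at h3
  exact sub_eq_zero.mp h4

theorem star_eq {u p : A} (hp : IsStarProjection p) (hu : star u * u = p) :
    p * star u = star u := by
  have h := congrArg star (mul_right_eq hp hu)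
  rw [star_mul, hp.isSelfAdjoint.star_eq] at h
  exact h

theorem norm_pi {u p : A} (hp : IsStarProjection p) (hu : star u * u = p) : ‖u‖ ≤ 1 := by
  have h1 : ‖u‖ * ‖u‖ ≤ 1 := by
    rw [← CStarRing.norm_star_mul_self, hu]
    exact IsStarProjection.norm_le p hp
  nlinarith [norm_nonneg u]

/-- orthogonality of projections is symmetric -/
theorem orth_symm {p q : A} (hp : star p = p) (hq : star q = q) (h : p * q = 0) :
    q * p = 0 := by
  have := congrArg star h
  rwa [star_mul, hp, hq, star_zero] at this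

theorem proj_sum {I : ℕ} {a : Fin I → A} (ha : ∀ i, IsStarProjection (a i))
    (ho : ∀ i i', i ≠ i' → a i * a i' = 0) : IsStarProjection (∑ i, a i) := by
  refine ⟨?_, ?_⟩
  · show (∑ i, a i) * (∑ i, a i) = ∑ i, a i
    rw [Finset.sum_mul]
    refine Finset.sum_congr rfl fun i _ => ?_
    rw [Finset.mul_sum, Finset.sum_eq_single i]
    · exact (ha i).isIdempotentElem
    · intro j _ hj
      exact ho i j (Ne.symm hj)
    · intro h
      exact absurd (Finset.mem_univ i) h
  · show star (∑ i, a i) = ∑ i, a i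
    rw [star_sum]
    exact Finset.sum_congr rfl fun i _ => (ha i).isSelfAdjoint

theorem char_mul {I : ℕ} {a : Fin I → A} (ha : ∀ i, IsStarProjection (a i))
    (ho : ∀ i i', i ≠ i' → a i * a i' = 0) (f g : Fin I → ℂ) :
    (∑ i, f i • a i) * (∑ i, g i • a i) = ∑ i, (f i * g i) • a i := by
  rw [Finset.sum_mul]
  refine Finset.sum_congr rfl fun i _ => ?_
  rw [Finset.mul_sum, Finset.sum_eq_single i]
  · rw [smul_mul_smul_comm, (ha i).isIdempotentElem.eq]
  · intro j _ hj
    rw [smul_mul_smul_comm, ho i j (Ne.symm hj), smul_zero]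
  · intro h
    exact absurd (Finset.mem_univ i) h

theorem proj_add {E S : A} (hE : IsStarProjection E) (hS : IsStarProjection S)
    (h : E * S = 0) : IsStarProjection (E + S) := by
  have h' := orth_symm hE.isSelfAdjoint hS.isSelfAdjoint h
  refine ⟨?_, ?_⟩
  · show (E + S) * (E + S) = E + S
    rw [mul_add, add_mul, add_mul, h, h', hE.isIdempotentElem.eq, hS.isIdempotentElem.eq]
    simp
  · show star (E + S) = E + S
    rw [star_add, hE.isSelfAdjoint.star_eq, hS.isSelfAdjoint.star_eq]

/-! ### block maps -/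

/-- the block diagonal map of the compression of `L` and point evaluations -/
def blk {K : Type} [TopologicalSpace K] {I : ℕ} (k : K) (E : A) (a : Fin I → A) (x : Fin I → K)
    (L : C(K, ℂ) → A) : C(K, ℂ) → A :=
  fun g => E * L g * E + ∑ i, g (x i) • a i + g k • (1 - E - ∑ i, a i)

theorem blk_AH (hPSM : T_PSM) {K : Type} [TopologicalSpace K] [CompactSpace K] {I : ℕ} {k : K}
    {E : A} {a : Fin I → A} (x : Fin I → K) {L : C(K, ℂ) → A} {G : Finset C(K, ℂ)} {δ : ℝ}
    (hE : IsStarProjection E) (ha : ∀ i, IsStarProjection (a i))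
    (ho : ∀ i i', i ≠ i' → a i * a i' = 0) (hEa : ∀ i, E * a i = 0)
    (hL : AH G δ (cmp k E L)) : AH G δ (blk k E a x L) := by
  obtain ⟨hadd, -, hconj, -, -, -, -⟩ := hPSM A
  have hEE : E * E = E := hE.isIdempotentElem
  have hEs : star E = E := hE.isSelfAdjoint
  have has : ∀ i, star (a i) = a i := fun i => (ha i).isSelfAdjoint
  have haa : ∀ i, a i * a i = a i := fun i => (ha i).isIdempotentElem
  have haE : ∀ i, a i * E = 0 := fun i => orth_symm hEs (has i) (hEa i)
  obtain ⟨S, hS⟩ : ∃ S : A, S = ∑ i, a i := ⟨_, rfl⟩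
  have hSp : IsStarProjection S := hS ▸ proj_sum ha ho
  have hSS : S * S = S := hSp.isIdempotentElem
  have hSs : star S = S := hSp.isSelfAdjoint
  have hES : E * S = 0 := by
    rw [hS, Finset.mul_sum]
    exact Finset.sum_eq_zero fun i _ => hEa i
  have hSE : S * E = 0 := orth_symm hEs hSs hES
  obtain ⟨R, hR⟩ : ∃ R : A, R = 1 - E - S := ⟨_, rfl⟩
  have hRs : star R = R := by rw [hR, star_sub, star_sub, star_one, hEs, hSs]
  have hER : E * R = 0 := by
    rw [hR, mul_sub, mul_sub, hEE, hES]
    simp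
  have hRE : R * E = 0 := orth_symm hEs hRs hER
  have hRR : R * R = R := by
    have h1 : R * R = R * (1 - E - S) := by rw [← hR]
    have h2 : R * S = 0 := by
      rw [hR, sub_mul, sub_mul, hSS, hES]
      simp
    rw [h1, mul_sub, mul_sub, hRE, h2]
    simp
  have haS : ∀ i, S * a i = a i := by
    intro i
    rw [hS, Finset.sum_mul, Finset.sum_eq_single i]
    · exact haa i
    · intro j _ hj
      exact ho j i hj
    · intro h
      exact absurd (Finset.mem_univ i) h
  have hRa : ∀ i, R * a i = 0 := by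
    intro i
    rw [hR, sub_mul, sub_mul, haS, hEa]
    simp
  have haR : ∀ i, a i * R = 0 := fun i => orth_symm hRs (has i) (hRa i)
  -- the compression
  have hN : ∀ g, E * cmp k E L g * E = E * L g * E := by
    intro g
    have e1 : E * cmp k E L g * E = (E * E) * L g * (E * E) + g k • (E * (1 - E) * E) := by
      unfold cmp
      rw [mul_add, add_mul]
      congr 1
      · simp only [mul_assoc]
      · rw [mul_smul_comm, smul_mul_assoc]
    rw [e1, hEE, mul_sub, hEE, mul_one, sub_self]
    simp
  have hblk : ∀ g, blk k E a x L g =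
      E * cmp k E L g * E + ∑ i, g (x i) • a i + g k • R := by
    intro g
    rw [hN, blk, hR, hS]
  have hcE : ∀ g, E * cmp k E L g = E * cmp k E L g * E := by
    intro g
    rw [hN]
    unfold cmp
    rw [mul_add, mul_smul_comm, mul_sub, hEE]
    simp only [mul_one, sub_self, smul_zero, add_zero, ← mul_assoc, hEE]
  refine ⟨?_, ?_, ?_, ?_, ?_, ?_⟩
  · intro f g
    simp only [hblk]
    rw [hL.add, mul_add, add_mul]
    simp only [ContinuousMap.add_apply, add_smul, Finset.sum_add_distrib]
    abel
  · intro c f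
    simp only [hblk]
    rw [hL.smul, mul_smul_comm, smul_mul_assoc, smul_add, smul_add, Finset.smul_sum]
    simp only [ContinuousMap.smul_apply, smul_eq_mul, mul_smul]
  · rw [hblk, hL.one]
    simp only [ContinuousMap.one_apply, one_smul, mul_one, hEE]
    rw [hR, ← hS]
    abel
  · intro f
    simp only [hblk]
    rw [hL.str, star_add, star_add, star_mul, star_mul, hEs, star_smul, hRs, star_sum]
    simp only [star_smul, has, ContinuousMap.star_apply, mul_assoc]
  · intro f
    rw [hblk]
    refine hadd _ _ (hadd _ _ ?_ ?_) ?_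
    · have h1 := hconj _ E (hL.pos f)
      rwa [hEs] at h1
    · refine ⟨∑ i, f (x i) • a i, ?_⟩
      have e1 : star (∑ i, f (x i) • a i) = ∑ i, (star (f (x i))) • a i := by
        rw [star_sum]
        exact Finset.sum_congr rfl fun i _ => by rw [star_smul, has]
      rw [e1, char_mul ha ho]
      rfl
    · refine ⟨f k • R, ?_⟩
      rw [star_smul, hRs, smul_mul_smul_comm, hRR]
      rfl
  · intro f hf g hg
    have hPR : ∀ u : Fin I → ℂ, (∑ i, u i • a i) * R = 0 := by
      intro u
      rw [Finset.sum_mul]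
      exact Finset.sum_eq_zero fun i _ => by rw [smul_mul_assoc, haR, smul_zero]
    have hRP : ∀ u : Fin I → ℂ, R * (∑ i, u i • a i) = 0 := by
      intro u
      rw [Finset.mul_sum]
      exact Finset.sum_eq_zero fun i _ => by rw [mul_smul_comm, hRa, smul_zero]
    have hPE : ∀ u : Fin I → ℂ, (∑ i, u i • a i) * E = 0 := by
      intro u
      rw [Finset.sum_mul]
      exact Finset.sum_eq_zero fun i _ => by rw [smul_mul_assoc, haE, smul_zero]
    have hEP : ∀ u : Fin I → ℂ, E * (∑ i, u i • a i) = 0 := by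
      intro u
      rw [Finset.mul_sum]
      exact Finset.sum_eq_zero fun i _ => by rw [mul_smul_comm, hEa, smul_zero]
    have key : blk k E a x L (f * g) - blk k E a x L f * blk k E a x L g =
        E * (cmp k E L (f * g) - cmp k E L f * cmp k E L g) * E := by
      simp only [hblk]
      obtain ⟨P, hP⟩ : ∃ P : A, P = ∑ i, f (x i) • a i := ⟨_, rfl⟩
      obtain ⟨Q, hQ⟩ : ∃ Q : A, Q = ∑ i, g (x i) • a i := ⟨_, rfl⟩
      have hPQ : P * Q = ∑ i, (f * g) (x i) • a i := by
        rw [hP, hQ, char_mul ha ho]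
        rfl
      have h1 : P * R = 0 := hP ▸ hPR _
      have h2 : R * Q = 0 := hQ ▸ hRP _
      have h3 : P * E = 0 := hP ▸ hPE _
      have h4 : E * Q = 0 := hQ ▸ hEP _
      rw [← hPQ, ← hP, ← hQ]
      obtain ⟨X, hX⟩ : ∃ X : A, X = cmp k E L f := ⟨_, rfl⟩
      obtain ⟨Y, hY⟩ : ∃ Y : A, Y = cmp k E L g := ⟨_, rfl⟩
      obtain ⟨Z, hZ⟩ : ∃ Z : A, Z = cmp k E L (f * g) := ⟨_, rfl⟩
      have hXE : E * X = E * X * E := by rw [hX]; exact hcE f
      rw [← hX, ← hY, ← hZ]
      have e1 : (E * X * E + P + f k • R) * (E * Y * E + Q + g k • R) =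
          E * X * (E * E) * Y * E + E * X * (E * Q) + g k • (E * X * (E * R)) +
          (P * E) * Y * E + P * Q + g k • (P * R) +
          f k • ((R * E) * Y * E) + f k • (R * Q) + (f k * g k) • (R * R) := by
        simp only [mul_add, add_mul, smul_mul_assoc, mul_smul_comm, smul_add, smul_smul,
          mul_assoc, mul_comm (g k) (f k)]
        abel
      rw [e1, hEE, h4, hER, h3, h1, hRE, h2, hRR]
      have e2 : E * X * E * Y * E = E * X * Y * E := by rw [← hXE]
      rw [e2, ContinuousMap.mul_apply]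
      simp only [mul_zero, zero_mul, smul_zero, add_zero, mul_sub, sub_mul, mul_assoc]
      abel
    rw [key]
    have hE1 : ‖E‖ ≤ 1 := IsStarProjection.norm_le E hE
    calc ‖E * (cmp k E L (f * g) - cmp k E L f * cmp k E L g) * E‖
        ≤ ‖E * (cmp k E L (f * g) - cmp k E L f * cmp k E L g)‖ * ‖E‖ := norm_mul_le _ _
      _ ≤ ‖E‖ * ‖cmp k E L (f * g) - cmp k E L f * cmp k E L g‖ * ‖E‖ := by
          apply mul_le_mul_of_nonneg_right (norm_mul_le _ _) (norm_nonneg _)
      _ ≤ 1 * ‖cmp k E L (f * g) - cmp k E L f * cmp k E L g‖ * 1 := by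
          apply mul_le_mul _ hE1 (norm_nonneg _) (by positivity)
          apply mul_le_mul_of_nonneg_right hE1 (norm_nonneg _)
      _ ≤ δ := by
          rw [one_mul, mul_one]
          exact hL.mul f hf g hg

theorem blk_Spt {K : Type} [TopologicalSpace K] {I : ℕ} {k : K}
    {E : A} {a : Fin I → A} (x : Fin I → K) {L : C(K, ℂ) → A}
    (hE : IsStarProjection E) (ha : ∀ i, IsStarProjection (a i))
    (ho : ∀ i i', i ≠ i' → a i * a i' = 0) (hEa : ∀ i, E * a i = 0) :
    Spt k (E + ∑ i, a i) (blk k E a x L) := by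
  have hEE : E * E = E := hE.isIdempotentElem
  have hEs : star E = E := hE.isSelfAdjoint
  have has : ∀ i, star (a i) = a i := fun i => (ha i).isSelfAdjoint
  have haa : ∀ i, a i * a i = a i := fun i => (ha i).isIdempotentElem
  have haE : ∀ i, a i * E = 0 := fun i => orth_symm hEs (has i) (hEa i)
  obtain ⟨S, hS⟩ : ∃ S : A, S = ∑ i, a i := ⟨_, rfl⟩
  have hSp : IsStarProjection S := hS ▸ proj_sum ha ho
  have hSS : S * S = S := hSp.isIdempotentElem
  have hSs : star S = S := hSp.isSelfAdjoint
  have hES : E * S = 0 := by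
    rw [hS, Finset.mul_sum]
    exact Finset.sum_eq_zero fun i _ => hEa i
  have hSE : S * E = 0 := orth_symm hEs hSs hES
  have haS : ∀ i, S * a i = a i := by
    intro i
    rw [hS, Finset.sum_mul, Finset.sum_eq_single i]
    · exact haa i
    · intro j _ hj
      exact ho j i hj
    · intro h
      exact absurd (Finset.mem_univ i) h
  have hSa : ∀ i, a i * S = a i := by
    intro i
    have := congrArg star (haS i)
    rwa [star_mul, hSs, has] at this
  intro g
  rw [← hS]
  unfold blk
  rw [← hS]
  obtain ⟨P, hP⟩ : ∃ P : A, P = ∑ i, g (x i) • a i := ⟨_, rfl⟩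
  have hSP : S * P = P := by
    rw [hP, Finset.mul_sum]
    exact Finset.sum_congr rfl fun i _ => by rw [mul_smul_comm, haS]
  have hPS : P * S = P := by
    rw [hP, Finset.sum_mul]
    exact Finset.sum_congr rfl fun i _ => by rw [smul_mul_assoc, hSa]
  have hEP : E * P = 0 := by
    rw [hP, Finset.mul_sum]
    exact Finset.sum_eq_zero fun i _ => by rw [mul_smul_comm, hEa, smul_zero]
  have hPE : P * E = 0 := by
    rw [hP, Finset.sum_mul]
    exact Finset.sum_eq_zero fun i _ => by rw [smul_mul_assoc, haE, smul_zero]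
  rw [← hP]
  have e1 : (E + S) * (E * L g * E + P + g k • (1 - E - S)) * (E + S) =
      (E * E) * L g * (E * E) + (E * E) * L g * (E * S) + (S * E) * L g * E * (E + S) +
      E * P * (E + S) + S * P * E + S * P * S + g k • ((E + S) * (1 - E - S) * (E + S)) := by
    simp only [mul_add, add_mul, smul_mul_assoc, mul_smul_comm, mul_assoc, smul_add]
    abel
  have e2 : (E + S) * (1 - E - S) = 0 := by
    simp only [add_mul, mul_sub, mul_one, hEE, hSS, hES, hSE]
    abel
  rw [e1, hEE, hES, hSE, hEP, hSP, hPE, hPS, e2]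
  simp only [mul_zero, zero_mul, smul_zero, add_zero]
  rw [sub_sub]

theorem cmp_of_spt {K : Type} [TopologicalSpace K] {k : K} {C : A} {L : C(K, ℂ) → A}
    (h : Spt k C L) : cmp k C L = L := by
  funext g
  exact (h g).symm

theorem conj_AH (hPSM : T_PSM) {K : Type} [TopologicalSpace K] [CompactSpace K]
    {L : C(K, ℂ) → A} {G : Finset C(K, ℂ)} {δ : ℝ} {y : A} (hy : Uni y) (hL : AH G δ L) :
    AH G δ (fun g => y * L g * star y) := by
  obtain ⟨-, -, hconj, -, -, -, -⟩ := hPSM A
  have hy1 : ‖y‖ ≤ 1 := norm_pi (IsStarProjection.one A) hy.1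
  have hy2 : ‖star y‖ ≤ 1 := by rwa [norm_star]
  refine ⟨?_, ?_, ?_, ?_, ?_, ?_⟩
  · intro f g
    show y * L (f + g) * star y = _
    rw [hL.add, mul_add, add_mul]
  · intro c f
    show y * L (c • f) * star y = _
    rw [hL.smul, mul_smul_comm, smul_mul_assoc]
  · show y * L 1 * star y = 1
    rw [hL.one, mul_one, hy.2]
  · intro f
    show y * L (star f) * star y = star (y * L f * star y)
    rw [hL.str, star_mul, star_mul, star_star, mul_assoc]
  · intro f
    have h1 := hconj _ (star y) (hL.pos f)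
    rwa [star_star] at h1
  · intro f hf g hg
    have e1 : y * L (f * g) * star y - y * L f * star y * (y * L g * star y) =
        y * (L (f * g) - L f * L g) * star y := by
      have e2 : y * L f * star y * (y * L g * star y) =
          y * L f * (star y * y) * L g * star y := by simp only [mul_assoc]
      rw [e2, hy.1, mul_one, mul_sub, sub_mul]
      simp only [mul_assoc]
    show ‖y * L (f * g) * star y - y * L f * star y * (y * L g * star y)‖ ≤ δ
    rw [e1]
    calc ‖y * (L (f * g) - L f * L g) * star y‖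
        ≤ ‖y * (L (f * g) - L f * L g)‖ * ‖star y‖ := norm_mul_le _ _
      _ ≤ ‖y‖ * ‖L (f * g) - L f * L g‖ * ‖star y‖ := by
          apply mul_le_mul_of_nonneg_right (norm_mul_le _ _) (norm_nonneg _)
      _ ≤ 1 * ‖L (f * g) - L f * L g‖ * 1 := by
          apply mul_le_mul _ hy2 (norm_nonneg _) (by positivity)
          apply mul_le_mul_of_nonneg_right hy1 (norm_nonneg _)
      _ ≤ δ := by
          rw [one_mul, mul_one]
          exact hL.mul f hf g hg

theorem conj_Spt {K : Type} [TopologicalSpace K] {k : K} {C : A}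
    {L : C(K, ℂ) → A} {y : A} (hy : Uni y) (hL : Spt k C L) :
    Spt k (y * C * star y) (fun g => y * L g * star y) := by
  intro g
  show y * L g * star y = _
  have e1 : y * C * star y * (y * L g * star y) * (y * C * star y) =
      y * (C * L g * C) * star y := by
    have : y * C * star y * (y * L g * star y) * (y * C * star y) =
        y * (C * (star y * y) * L g * (star y * y) * C) * star y := by simp only [mul_assoc]
    rw [this, hy.1, mul_one, mul_one]
  rw [e1]
  have e2 : g k • (1 - y * C * star y) = y * (g k • (1 - C)) * star y := by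
    rw [mul_smul_comm, smul_mul_assoc, mul_sub, sub_mul, mul_one, hy.2]
  rw [e2, ← add_mul, ← mul_add, ← hL g]

theorem conj_proj {C y : A} (hy : Uni y) (hC : IsStarProjection C) :
    IsStarProjection (y * C * star y) := by
  refine ⟨?_, ?_⟩
  · show y * C * star y * (y * C * star y) = y * C * star y
    have : y * C * star y * (y * C * star y) = y * (C * (star y * y) * C) * star y := by
      simp only [mul_assoc]
    rw [this, hy.1, mul_one, hC.isIdempotentElem.eq]
  · show star (y * C * star y) = y * C * star y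
    rw [star_mul, star_mul, star_star, hC.isSelfAdjoint.star_eq, mul_assoc]

/-! ### amplifications -/

theorem pi_mul {n : Type} {C : A} {t : n → A} (ht : PI C t) (a b : n) :
    star (t a) * t b = if a = b then C else 0 := by
  by_cases h : a = b
  · rw [if_pos h, ← h, ht.1]
  · rw [if_neg h, ht.2 a b h]

/-- the range projection of a family acts on the members of the family -/
theorem range_mul {n : Type} [Fintype n] {C : A} {t : n → A} (hC : IsStarProjection C)
    (ht : PI C t) (b : n) : (∑ a, t a * star (t a)) * t b = t b := by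
  rw [Finset.sum_mul, Finset.sum_eq_single b]
  · rw [mul_assoc, ht.1, mul_right_eq hC (ht.1 b)]
  · intro a _ hab
    rw [mul_assoc, ht.2 a b hab, mul_zero]
  · intro h
    exact absurd (Finset.mem_univ b) h

theorem range_proj {n : Type} [Fintype n] {C : A} {t : n → A} (hC : IsStarProjection C)
    (ht : PI C t) : IsStarProjection (∑ a, t a * star (t a)) := by
  refine ⟨?_, ?_⟩
  · show (∑ a, t a * star (t a)) * (∑ a, t a * star (t a)) = ∑ a, t a * star (t a)
    conv_lhs => rw [Finset.mul_sum]
    refine Finset.sum_congr rfl fun b _ => ?_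
    rw [← mul_assoc, range_mul hC ht]
  · show star (∑ a, t a * star (t a)) = ∑ a, t a * star (t a)
    rw [star_sum]
    exact Finset.sum_congr rfl fun a _ => by rw [star_mul, star_star]

theorem amp_sub {K K' n : Type} [TopologicalSpace K] [TopologicalSpace K'] [Fintype n] (k₀ : K)
    (t : n → A) (L L' : C(K', ℂ) → A) (γ : C(K, ℂ) → C(K', Matrix n n ℂ)) (f : C(K, ℂ)) :
    amp k₀ t L γ f - amp k₀ t L' γ f =
      ∑ a, ∑ b, t a * (L (ent (γ f) a b) - L' (ent (γ f) a b)) * star (t b) := by
  unfold amp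
  rw [add_sub_add_right_eq_sub, ← Finset.sum_sub_distrib]
  refine Finset.sum_congr rfl fun a _ => ?_
  rw [← Finset.sum_sub_distrib]
  refine Finset.sum_congr rfl fun b _ => ?_
  rw [mul_sub, sub_mul]

theorem opn_zero {n : Type} [Fintype n] : opn (0 : Matrix n n ℂ) = 0 := by
  unfold opn
  rw [map_zero, norm_zero]

/-- characters at matrix coefficients: a contraction -/
theorem step (hCPM : T_CPM) (hPSM : T_PSM) {n : Type} [Fintype n] {I : ℕ} {C : A} {t : n → A}
    {p : Fin I → A} (hC : IsStarProjection C) (ht : PI C t) (hp : ∀ i, IsStarProjection (p i))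
    (ho : ∀ i i', i ≠ i' → p i * p i' = 0) (N : Fin I → Matrix n n ℂ) {ε : ℝ} (hε : 0 ≤ ε)
    (hN : ∀ i, opn (N i) ≤ ε) :
    ‖∑ a, ∑ b, t a * (∑ i, N i a b • p i) * star (t b)‖ ≤ ε := by
  obtain ⟨hadd, -, hconj, -, -, -, -⟩ := hPSM A
  have hcmp : ∀ g : C(Fin (I + 1), ℂ),
      cmp (0 : Fin (I + 1)) (0 : A) (fun _ => 0) g = g 0 • (1 : A) := by
    intro g
    simp [cmp]
  have h0 : AH (∅ : Finset C(Fin (I + 1), ℂ)) 0
      (cmp (0 : Fin (I + 1)) (0 : A) (fun _ => 0)) := by
    refine ⟨?_, ?_, ?_, ?_, ?_, ?_⟩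
    · intro f g
      simp only [hcmp, ContinuousMap.add_apply, add_smul]
    · intro c f
      simp only [hcmp, ContinuousMap.smul_apply, smul_eq_mul, mul_smul]
    · simp only [hcmp, ContinuousMap.one_apply, one_smul]
    · intro f
      simp only [hcmp, ContinuousMap.star_apply, star_smul, star_one]
    · intro f
      refine ⟨f 0 • 1, ?_⟩
      simp only [hcmp, star_smul, star_one, smul_mul_smul_comm, mul_one]
      rfl
    · intro f hf
      exact absurd hf (Finset.notMem_empty f)
  have h1 : AH (∅ : Finset C(Fin (I + 1), ℂ)) 0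
      (blk (0 : Fin (I + 1)) (0 : A) p Fin.succ (fun _ => 0)) :=
    blk_AH hPSM Fin.succ (IsStarProjection.zero A) hp ho (fun i => zero_mul _) h0
  let M : C(Fin (I + 1), Matrix n n ℂ) :=
    ⟨fun s => Fin.cases (motive := fun _ => Matrix n n ℂ) 0 N s, continuous_of_discreteTopology⟩
  have hM0 : M 0 = 0 := rfl
  have hMs : ∀ i : Fin I, M i.succ = N i := fun i => rfl
  have h2 := (hCPM (Fin (I + 1)) n A _ t M h1
    (IsStarProjection.norm_le _ (range_proj hC ht))).1 ε hε (by
      intro s
      refine Fin.cases ?_ ?_ s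
      · rw [hM0, opn_zero]
        exact hε
      · intro i
        rw [hMs]
        exact hN i)
  have h3 : ∀ a b, blk (0 : Fin (I + 1)) (0 : A) p Fin.succ (fun _ => 0) (ent M a b) =
      ∑ i, N i a b • p i := by
    intro a b
    have e1 : (ent M a b) 0 = 0 := by
      show M 0 a b = 0
      rw [hM0]
      rfl
    have e2 : ∀ i : Fin I, (ent M a b) i.succ = N i a b := by
      intro i
      show M i.succ a b = N i a b
      rw [hMs]
    unfold blk
    simp only [e1, e2, zero_smul, mul_zero, zero_add, add_zero]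
  simp only [h3] at h2
  exact h2

/-- the ends of the chain -/
theorem ends (hCNC : T_CNC) {n K K' : Type} [TopologicalSpace K] [TopologicalSpace K']
    [Fintype n] {φ : A →L[ℂ] ℂ} (hφ : Rich φ) {k₀ : K} {k₀' : K'} {C E v : A} {t τ : n → A}
    {L Λ : C(K', ℂ) → A} {γ : C(K, ℂ) → C(K', Matrix n n ℂ)} (hC : IsStarProjection C)
    (hE : IsStarProjection E) (ht : PI C t) (hτ : PI E τ) (hv : star v * v = E)
    (hCv : C * v = v) (hγ : ∀ f, γ f k₀' = f k₀ • (1 : Matrix n n ℂ))
    (hΛ : ∀ g, Λ g = v * L g * star v + g k₀' • (1 - v * star v)) :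
    ∃ u : A, Uni u ∧ (∑ a, t a * star (t a)) * (u * ∑ a, τ a * star (τ a)) =
        u * ∑ a, τ a * star (τ a) ∧
      ∀ f, amp k₀ t Λ γ f = u * amp k₀ τ L γ f * star u := by
  have hvE : v * E = v := mul_right_eq hE hv
  have hτE : ∀ a, τ a * E = τ a := fun a => mul_right_eq hE (hτ.1 a)
  have hEτ : ∀ a, E * star (τ a) = star (τ a) := fun a => star_eq hE (hτ.1 a)
  have htC : ∀ a, t a * C = t a := fun a => mul_right_eq hC (ht.1 a)
  have hP := range_proj hE hτ
  obtain ⟨P, hPdef⟩ : ∃ P : A, P = ∑ a, τ a * star (τ a) := ⟨_, rfl⟩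
  obtain ⟨Q, hQdef⟩ : ∃ Q : A, Q = ∑ a, t a * star (t a) := ⟨_, rfl⟩
  obtain ⟨T, hTdef⟩ : ∃ T : A, T = ∑ a, t a * v * star (τ a) := ⟨_, rfl⟩
  rw [← hPdef] at hP
  have hTs : star T = ∑ a, τ a * star v * star (t a) := by
    rw [hTdef, star_sum]
    exact Finset.sum_congr rfl fun a _ => by
      rw [star_mul, star_mul, star_star, mul_assoc]
  have hTτ : ∀ b, T * τ b = t b * v := by
    intro b
    rw [hTdef, Finset.sum_mul, Finset.sum_eq_single b]
    · rw [mul_assoc, hτ.1, mul_assoc, hvE]
    · intro a _ hab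
      rw [mul_assoc, hτ.2 a b hab, mul_zero]
    · intro h
      exact absurd (Finset.mem_univ b) h
  have hTT : star T * T = P := by
    have e1 : ∀ a, star (t a) * T = v * star (τ a) := by
      intro a
      rw [hTdef, Finset.mul_sum, Finset.sum_eq_single a]
      · rw [← mul_assoc, ← mul_assoc, ht.1, hCv]
      · intro b _ hab
        rw [← mul_assoc, ← mul_assoc, ht.2 a b (Ne.symm hab), zero_mul, zero_mul]
      · intro h
        exact absurd (Finset.mem_univ a) h
    rw [hTs, Finset.sum_mul, hPdef]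
    refine Finset.sum_congr rfl fun a _ => ?_
    rw [mul_assoc, e1, mul_assoc, ← mul_assoc (star v), hv, hEτ]
  obtain ⟨u, hu, huP⟩ := hCNC A φ hφ P T hP hTT
  have huτ : ∀ a, u * τ a = t a * v := by
    intro a
    have : P * τ a = τ a := by rw [hPdef]; exact range_mul hE hτ a
    rw [← this, ← mul_assoc, huP, hTτ]
  have hτu : ∀ a, star (τ a) * star u = star v * star (t a) := by
    intro a
    rw [← star_mul, huτ, star_mul]
  refine ⟨u, hu, ?_, ?_⟩
  · rw [← hPdef, ← hQdef, huP, hTdef, Finset.mul_sum]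
    refine Finset.sum_congr rfl fun a _ => ?_
    rw [← mul_assoc, ← mul_assoc, hQdef, range_mul hC ht]
  · intro f
    have hR : u * amp k₀ τ L γ f * star u =
        (∑ a, ∑ b, t a * (v * L (ent (γ f) a b) * star v) * star (t b)) +
        f k₀ • (1 - ∑ a, t a * (v * star v) * star (t a)) := by
      unfold amp
      rw [mul_add, add_mul, Finset.mul_sum, Finset.sum_mul]
      congr 1
      · refine Finset.sum_congr rfl fun a _ => ?_
        rw [Finset.mul_sum, Finset.sum_mul]
        refine Finset.sum_congr rfl fun b _ => ?_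
        have : u * (τ a * L (ent (γ f) a b) * star (τ b)) * star u =
            (u * τ a) * L (ent (γ f) a b) * (star (τ b) * star u) := by
          simp only [mul_assoc]
        rw [this, huτ, hτu]
        simp only [mul_assoc]
      · rw [mul_smul_comm, smul_mul_assoc, mul_sub, sub_mul, mul_one, hu.2, Finset.mul_sum,
          Finset.sum_mul]
        congr 2
        refine Finset.sum_congr rfl fun a _ => ?_
        have : u * (τ a * star (τ a)) * star u = (u * τ a) * (star (τ a) * star u) := by
          simp only [mul_assoc]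
        rw [this, huτ, hτu]
        simp only [mul_assoc]
    rw [hR]
    unfold amp
    have e1 : ∀ a b, (ent (γ f) a b) k₀' = if a = b then f k₀ else 0 := by
      intro a b
      show γ f k₀' a b = _
      rw [hγ, Matrix.smul_apply, Matrix.one_apply]
      by_cases hab : a = b
      · rw [if_pos hab, if_pos hab, smul_eq_mul, mul_one]
      · rw [if_neg hab, if_neg hab, smul_zero]
    have e2 : ∀ a b, t a * Λ (ent (γ f) a b) * star (t b) =
        t a * (v * L (ent (γ f) a b) * star v) * star (t b) +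
        if a = b then f k₀ • (t a * star (t a) - t a * (v * star v) * star (t a)) else 0 := by
      intro a b
      rw [hΛ, e1, mul_add, add_mul]
      congr 1
      by_cases hab : a = b
      · rw [if_pos hab, if_pos hab, ← hab, mul_smul_comm, smul_mul_assoc, mul_sub, sub_mul,
          mul_one]
      · rw [if_neg hab, if_neg hab, zero_smul, mul_zero, zero_mul]
    simp only [e2, Finset.sum_add_distrib]
    rw [add_assoc]
    congr 1
    have e3 : ∑ a, ∑ b, (if a = b then
        f k₀ • (t a * star (t a) - t a * (v * star v) * star (t a)) else 0) =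
        f k₀ • ((∑ a, t a * star (t a)) - ∑ a, t a * (v * star v) * star (t a)) := by
      rw [← Finset.sum_sub_distrib, Finset.smul_sum]
      refine Finset.sum_congr rfl fun a _ => ?_
      rw [Finset.sum_ite_eq]
      simp
    rw [e3, ← smul_add]
    congr 1
    abel

end GRL_

open GRL_ in
theorem p_GRL (h_AMP : T_AMP) (h_CPM : T_CPM) (h_RDV : T_RDV) (h_CNC : T_CNC) (h_PSM : T_PSM) :
    T_GRL := by
  intro K K' n A _ _ _ _ _ _ _ _ _ φ k₀ k₀' H F G δ δγ δ₂ ε ε₂ c m₁ E E' L L' γ τ τ' hφ hE hE'
    hδγ hδ₂ hε₂ hRel hAH hAH' hHG hFG hγ hγ₀ hpath hcard hc hδ hτ hτ'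
  obtain ⟨I, J, a, x, b, x', y, hy, ha, hao, hEa, hb, hbo, hEb, hyc, hφc, hG⟩ := hRel
  have hEE : E * E = E := hE.isIdempotentElem
  have hEs : star E = E := hE.isSelfAdjoint
  have hE's : star E' = E' := hE'.isSelfAdjoint
  have hε : 0 ≤ ε := le_trans (by positivity) hcard
  -- the chains of points
  have hw := fun i => hpath (x i)
  choose w hw0 hw1 hw2 using hw
  have hw' := fun j => hpath (x' j)
  choose w' hw'0 hw'1 hw'2 using hw'
  -- the projection
  have hSa := proj_sum ha hao
  have hSb := proj_sum hb hbo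
  have hESa : E * ∑ i, a i = 0 := by
    rw [Finset.mul_sum]
    exact Finset.sum_eq_zero fun i _ => hEa i
  have hESb : E' * ∑ j, b j = 0 := by
    rw [Finset.mul_sum]
    exact Finset.sum_eq_zero fun j _ => hEb j
  obtain ⟨C, hC⟩ : ∃ C : A, C = E' + ∑ j, b j := ⟨_, rfl⟩
  have hCp : IsStarProjection C := hC ▸ proj_add hE' hSb hESb
  have hCy : y * (E + ∑ i, a i) * star y = C := by
    rw [hyc, mul_assoc, hy.2, mul_one, hC]
  have htr := hφ.ts.tr
  have hφC : (φ C).re < c := by
    rw [← hCy, htr, ← mul_assoc, hy.1, one_mul]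
    exact hφc
  have hcpos : (0 : ℝ) < Fintype.card n := by exact_mod_cast Fintype.card_pos
  obtain ⟨u₀, hu₀, -⟩ := h_RDV A φ hφ C 1 (Fintype.card n) hCp (IsStarProjection.one A) (by
    rw [hφ.ts.one, Complex.one_re]
    have : Fintype.card n * (φ C).re < Fintype.card n * c := by
      exact mul_lt_mul_of_pos_left hφC hcpos
    linarith)
  obtain ⟨t, ht⟩ : ∃ t : n → A, PI C t := by
    refine ⟨fun i => u₀ (Fintype.equivFin n i), fun i => hu₀.1 _, fun i j hij => ?_⟩
    exact hu₀.2 _ _ fun h => hij ((Fintype.equivFin n).injective h)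
  -- the two families of maps
  obtain ⟨Λ, hΛ⟩ : ∃ Λ : ℕ → C(K', ℂ) → A, ∀ l, Λ l = fun g =>
      y * blk k₀' E a (fun i => w i l) L g * star y := ⟨_, fun l => rfl⟩
  obtain ⟨Λ', hΛ'⟩ : ∃ Λ' : ℕ → C(K', ℂ) → A, ∀ l, Λ' l =
      blk k₀' E' b (fun j => w' j l) L' := ⟨_, fun l => rfl⟩
  have hΛAH : ∀ l, AH G δ₂ (Λ l) := by
    intro l
    rw [hΛ]
    exact conj_AH h_PSM hy (blk_AH h_PSM _ hE ha hao hEa hAH)
  have hΛS : ∀ l, Spt k₀' C (Λ l) := by
    intro l
    rw [hΛ, ← hCy]
    exact conj_Spt hy (blk_Spt _ hE ha hao hEa)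
  have hΛ'AH : ∀ l, AH G δ₂ (Λ' l) := by
    intro l
    rw [hΛ']
    exact blk_AH h_PSM _ hE' hb hbo hEb hAH'
  have hΛ'S : ∀ l, Spt k₀' C (Λ' l) := by
    intro l
    rw [hΛ', hC]
    exact blk_Spt _ hE' hb hbo hEb
  have hamp : ∀ M : C(K', ℂ) → A, AH G δ₂ M → Spt k₀' C M →
      AH H δ (amp k₀ t M γ) ∧ Spt k₀ (∑ i, t i * star (t i)) (amp k₀ t M γ) := by
    intro M hM hS
    obtain ⟨h1, h2, -⟩ := h_AMP K K' n A k₀ k₀' C t H G δγ δ₂ M γ hCp ht
      (by rw [cmp_of_spt hS]; exact hM) hγ hδγ hδ₂ hHG
    exact ⟨⟨h1.add, h1.smul, h1.one, h1.str, h1.pos, fun f hf g hg =>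
      (h1.mul f hf g hg).trans hδ⟩, h2⟩
  -- the steps
  have hstep : ∀ l < m₁, ∀ f ∈ F, ‖amp k₀ t (Λ l) γ f - amp k₀ t (Λ (l + 1)) γ f‖ ≤ ε := by
    intro l hl f hf
    have h1 := step h_CPM h_PSM (p := fun i => y * a i * star y) hCp ht
      (fun i => conj_proj hy (ha i)) (fun i i' hii => by
        have : y * a i * star y * (y * a i' * star y) =
            y * (a i * (star y * y) * a i') * star y := by simp only [mul_assoc]
        rw [this, hy.1, mul_one, hao i i' hii]
        simp)
      (fun i => γ f (w i l) - γ f (w i (l + 1))) hε (fun i => hw2 i l hl f hf)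
    rw [amp_sub]
    have h2 : ∀ g : C(K', ℂ), Λ l g - Λ (l + 1) g =
        ∑ i, (g (w i l) - g (w i (l + 1))) • (y * a i * star y) := by
      intro g
      rw [hΛ, hΛ]
      show y * blk k₀' E a (fun i => w i l) L g * star y -
        y * blk k₀' E a (fun i => w i (l + 1)) L g * star y = _
      rw [← sub_mul, ← mul_sub]
      have h3 : blk k₀' E a (fun i => w i l) L g - blk k₀' E a (fun i => w i (l + 1)) L g =
          ∑ i, (g (w i l) - g (w i (l + 1))) • a i := by
        unfold blk
        simp only [sub_smul, Finset.sum_sub_distrib]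
        abel
      rw [h3, Finset.mul_sum, Finset.sum_mul]
      exact Finset.sum_congr rfl fun i _ => by rw [mul_smul_comm, smul_mul_assoc]
    simp only [h2]
    exact h1
  have hstep' : ∀ l < m₁, ∀ f ∈ F, ‖amp k₀ t (Λ' l) γ f - amp k₀ t (Λ' (l + 1)) γ f‖ ≤ ε := by
    intro l hl f hf
    have h1 := step h_CPM h_PSM (p := b) hCp ht hb hbo
      (fun j => γ f (w' j l) - γ f (w' j (l + 1))) hε (fun j => hw'2 j l hl f hf)
    rw [amp_sub]
    have h2 : ∀ g : C(K', ℂ), Λ' l g - Λ' (l + 1) g =
        ∑ j, (g (w' j l) - g (w' j (l + 1))) • b j := by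
      intro g
      rw [hΛ', hΛ']
      unfold blk
      simp only [sub_smul, Finset.sum_sub_distrib]
      abel
    simp only [h2]
    exact h1
  have hmid : ∀ f ∈ F, ‖amp k₀ t (Λ m₁) γ f - amp k₀ t (Λ' m₁) γ f‖ ≤ ε := by
    intro f hf
    rw [amp_sub]
    have h1 : ∀ g ∈ G, ‖Λ m₁ g - Λ' m₁ g‖ ≤ ε₂ := by
      intro g hg
      have h2 : Λ m₁ g - Λ' m₁ g = y * (E * L g * E + ∑ i, g (x i) • a i) * star y -
          (E' * L' g * E' + ∑ j, g (x' j) • b j) := by
        rw [hΛ, hΛ']
        show y * blk k₀' E a (fun i => w i m₁) L g * star y -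
          blk k₀' E' b (fun j => w' j m₁) L' g = _
        unfold blk
        simp only [hw1, hw'1]
        have h3 : y * (g k₀' • (1 - E - ∑ i, a i)) * star y =
            g k₀' • (1 - E' - ∑ j, b j) := by
          rw [mul_smul_comm, smul_mul_assoc, sub_sub, mul_sub, sub_mul, mul_one, hy.2, hCy, hC,
            sub_sub]
        rw [mul_add, add_mul, h3]
        abel
      rw [h2]
      exact hG g hg
    have ht1 : ∀ i, ‖t i‖ ≤ 1 := fun i => norm_pi hCp (ht.1 i)
    calc ‖∑ i, ∑ j, t i * (Λ m₁ (ent (γ f) i j) - Λ' m₁ (ent (γ f) i j)) * star (t j)‖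
        ≤ ∑ i : n, ∑ j : n, ε₂ := by
          refine (norm_sum_le _ _).trans (Finset.sum_le_sum fun i _ => ?_)
          refine (norm_sum_le _ _).trans (Finset.sum_le_sum fun j _ => ?_)
          have h4 := h1 _ (hFG f hf i j)
          calc ‖t i * (Λ m₁ (ent (γ f) i j) - Λ' m₁ (ent (γ f) i j)) * star (t j)‖
              ≤ ‖t i‖ * ‖Λ m₁ (ent (γ f) i j) - Λ' m₁ (ent (γ f) i j)‖ * ‖star (t j)‖ :=
                (norm_mul_le _ _).trans
                  (mul_le_mul_of_nonneg_right (norm_mul_le _ _) (norm_nonneg _))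
            _ ≤ 1 * ‖Λ m₁ (ent (γ f) i j) - Λ' m₁ (ent (γ f) i j)‖ * 1 := by
                apply mul_le_mul _ _ (norm_nonneg _) (by positivity)
                · exact mul_le_mul_of_nonneg_right (ht1 i) (norm_nonneg _)
                · rw [norm_star]
                  exact ht1 j
            _ ≤ ε₂ := by
                rw [one_mul, mul_one]
                exact h4
      _ = (Fintype.card n : ℝ) ^ 2 * ε₂ := by
          simp only [Finset.sum_const, Finset.card_univ, nsmul_eq_mul]
          ring
      _ ≤ ε := hcard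
  -- the ends
  obtain ⟨u, hu, huC, hu0⟩ := ends h_CNC hφ (k₀ := k₀) (k₀' := k₀') (v := y * E) (L := L)
    (Λ := Λ 0) (γ := γ) hCp hE ht hτ
    (by
      rw [star_mul, hEs, mul_assoc, ← mul_assoc (star y), hy.1, one_mul, hEE])
    (by
      have h1 : C * y = y * (E + ∑ i, a i) := by rw [hyc, hC]
      rw [← mul_assoc, h1, mul_assoc, add_mul, hEE,
        orth_symm hEs hSa.isSelfAdjoint hESa, add_zero])
    hγ₀
    (by
      intro g
      rw [hΛ]
      show y * blk k₀' E a (fun i => w i 0) L g * star y = _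
      unfold blk
      simp only [hw0]
      rw [star_mul, hEs, ← Finset.smul_sum]
      have h1 : E * L g * E + g k₀' • ∑ i, a i + g k₀' • (1 - E - ∑ i, a i) =
          E * L g * E + g k₀' • (1 - E) := by
        rw [add_assoc, ← smul_add]
        congr 2
        abel
      rw [h1, mul_add, add_mul, mul_smul_comm, smul_mul_assoc, mul_sub, sub_mul, mul_one, hy.2]
      have h2 : y * E * (E * star y) = y * E * star y := by
        rw [mul_assoc, ← mul_assoc E, hEE, ← mul_assoc]
      rw [h2]
      simp only [mul_assoc])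
  obtain ⟨u', hu', huC', hu0'⟩ := ends h_CNC hφ (k₀ := k₀) (k₀' := k₀') (v := E') (L := L')
    (Λ := Λ' 0) (γ := γ) hCp hE' ht hτ'
    (by rw [hE's]; exact hE'.isIdempotentElem)
    (by
      rw [hC, add_mul, orth_symm hE's hSb.isSelfAdjoint hESb, add_zero]
      exact hE'.isIdempotentElem)
    hγ₀
    (by
      intro g
      rw [hΛ']
      unfold blk
      simp only [hw'0]
      rw [hE's, ← Finset.smul_sum]
      have h1 : E' * L' g * E' + g k₀' • ∑ j, b j + g k₀' • (1 - E' - ∑ j, b j) =
          E' * L' g * E' + g k₀' • (1 - E') := by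
        rw [add_assoc, ← smul_add]
        congr 2
        abel
      rw [h1, hE'.isIdempotentElem.eq])
  -- the chain
  refine ⟨∑ i, t i * star (t i), fun i => if i ≤ m₁ then amp k₀ t (Λ i) γ else
    amp k₀ t (Λ' (2 * m₁ + 1 - i)) γ, u, u', range_proj hCp ht, ?_, ?_, ?_, hu, hu', huC, huC',
    ?_, ?_⟩
  · rw [map_sum]
    have h1 : ∀ i, φ (t i * star (t i)) = φ C := by
      intro i
      rw [htr, ht.1]
    simp only [h1, Finset.sum_const, Finset.card_univ, nsmul_eq_mul]
    have h2 : ((Fintype.card n : ℂ) * φ C).re = Fintype.card n * (φ C).re := by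
      rw [Complex.mul_re]
      simp
    rw [h2]
    exact mul_lt_mul_of_pos_left hφC hcpos
  · intro i _
    by_cases h : i ≤ m₁
    · simp only [h, if_true]
      exact hamp _ (hΛAH i) (hΛS i)
    · simp only [h, if_false]
      exact hamp _ (hΛ'AH _) (hΛ'S _)
  · intro i hi f hf
    rcases lt_trichotomy i m₁ with h | h | h
    · have h1 : i ≤ m₁ := h.le
      have h2 : i + 1 ≤ m₁ := h
      simp only [h1, h2, if_true]
      exact hstep i h f hf
    · have h1 : i ≤ m₁ := h.le
      have h2 : ¬ i + 1 ≤ m₁ := by omega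
      have h3 : 2 * m₁ + 1 - (i + 1) = m₁ := by omega
      simp only [h1, h2, h3, if_true, if_false]
      rw [h]
      exact hmid f hf
    · have h1 : ¬ i ≤ m₁ := by omega
      have h2 : ¬ i + 1 ≤ m₁ := by omega
      obtain ⟨s, hs⟩ : ∃ s, s = 2 * m₁ - i := ⟨_, rfl⟩
      have h3 : 2 * m₁ + 1 - (i + 1) = s := by omega
      have h4 : 2 * m₁ + 1 - i = s + 1 := by omega
      simp only [h1, h2, h3, h4, if_false]
      rw [norm_sub_rev]
      exact hstep' s (by omega) f hf
  · intro f
    simp only [Nat.zero_le, if_true]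
    exact hu0 f
  · intro f
    have h1 : ¬ 2 * m₁ + 1 ≤ m₁ := by omega
    simp only [h1, if_false, Nat.sub_self]
    exact hu0' f

end Pool.Agent.FPS
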