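import Pool.Agent.FPS.Targets4
import Pool.Agent.FPS.Targets2

set_option autoImplicit false
set_option linter.unusedSectionVars false

/-!
# FPS: T_HEC, the homotopy data of the circle (helper12)
-/

open scoped Classical
open MeasureTheory Pool.Agent.FPZ

noncomputable section

namespace Pool.Agent.FPS

namespace HEC_

variable {K n : Type} [TopologicalSpace K] [Fintype n]

/-- the matrix valued function of size one with the entry `f` -/
def sc (f : C(K, ℂ)) : C(K, Matrix n n ℂ) :=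
  ⟨fun x => Matrix.of fun _ _ => f x, by
    refine continuous_matrix fun a b => ?_
    exact f.continuous⟩

theorem sc_ap (f : C(K, ℂ)) (x : K) (a b : n) : (sc f : C(K, Matrix n n ℂ)) x a b = f x := rfl

theorem sc_add (f g : C(K, ℂ)) : (sc (f + g) : C(K, Matrix n n ℂ)) = sc f + sc g := by
  ext x a b
  rfl

theorem sc_smul (c : ℂ) (f : C(K, ℂ)) : (sc (c • f) : C(K, Matrix n n ℂ)) = c • sc f := by
  ext x a b
  rfl

theorem sc_str (f : C(K, ℂ)) (x : K) :
    (sc (star f) : C(K, Matrix n n ℂ)) x = ((sc f : C(K, Matrix n n ℂ)) x).conjTranspose := by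
  ext a b
  rfl

theorem sc_one [Subsingleton n] (x : K) : (sc 1 : C(K, Matrix n n ℂ)) x = 1 := by
  ext a b
  rw [Subsingleton.elim a b, Matrix.one_apply_eq]
  rfl

theorem sc_mul [Subsingleton n] (f g : C(K, ℂ)) (x : K) :
    (sc (f * g) : C(K, Matrix n n ℂ)) x = (sc f : C(K, Matrix n n ℂ)) x * sc g x := by
  ext a b
  rw [Matrix.mul_apply, Fintype.sum_subsingleton _ a]
  rfl

theorem opn_zero : opn (0 : Matrix n n ℂ) = 0 := by
  unfold opn
  rw [map_zero, norm_zero]

theorem opn_sub [Subsingleton n] (f : C(K, ℂ)) (x y : K) :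
    opn ((sc f : C(K, Matrix n n ℂ)) x - (sc f : C(K, Matrix n n ℂ)) y) ≤ ‖f x - f y‖ := by
  have h : (sc f : C(K, Matrix n n ℂ)) x - (sc f : C(K, Matrix n n ℂ)) y =
      (f x - f y) • (1 : Matrix n n ℂ) := by
    ext a b
    rw [Matrix.sub_apply, Matrix.smul_apply, Subsingleton.elim a b, Matrix.one_apply_eq,
      smul_eq_mul, mul_one]
    rfl
  rw [h]
  unfold opn
  rw [map_smul, norm_smul, map_one]
  exact mul_le_of_le_one_right (norm_nonneg _) ContinuousLinearMap.norm_id_le

theorem ahm [CompactSpace K] [Subsingleton n] (H : Finset C(K, ℂ)) (δ : ℝ) (hδ : 0 < δ) :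
    AHM H δ (sc : C(K, ℂ) → C(K, Matrix n n ℂ)) where
  add := sc_add
  smul := sc_smul
  one := sc_one
  str := sc_str
  pos := fun f x => ⟨(sc f : C(K, Matrix n n ℂ)) x, by rw [sc_mul, sc_str]⟩
  mul := fun f _ g _ x => by
    rw [sc_mul, sub_self, opn_zero]
    exact hδ.le

theorem ehm [Subsingleton n] : EHM (sc : C(K, ℂ) → C(K, Matrix n n ℂ)) where
  add := sc_add
  smul := sc_smul
  one := sc_one
  str := sc_str
  mul := sc_mul

theorem sc_eq (f : C(K, ℂ)) (x : K) :
    (sc f : C(K, Matrix (Fin 1) (Fin 1) ℂ)) x = f x • (1 : Matrix (Fin 1) (Fin 1) ℂ) := by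
  ext a b
  rw [Matrix.smul_apply, Subsingleton.elim a b, Matrix.one_apply_eq, smul_eq_mul, mul_one]
  rfl

end HEC_

open HEC_

/-- HEC. -/
theorem p_HEC (h_PTC : T_PTC) : T_HEC := by
  have : ConnectedSpace S1 :=
    isConnected_iff_connectedSpace.1 (isConnected_sphere (by simp) _ zero_le_one)
  refine ⟨sc, ⟨ehm, fun g => sc_eq g 1, ?_⟩, sc_eq, ?_⟩
  · intro x
    refine ⟨1, fun _ => x, fun _ => 1, fun l => ⟨one_mul 1, Matrix.conjTranspose_one⟩, ?_, ?_, ?_⟩
    · intro l l' h
      exact absurd (Subsingleton.elim l l') h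
    · simp
    · intro g
      rw [sc_eq]
      simp
  · intro F' ε' hε'
    refine ⟨0, fun F ε hε => ?_⟩
    obtain ⟨m₁, hm₁⟩ := h_PTC S1 1 F ε hε
    refine ⟨0, m₁, fun H H' δ hδ => ⟨1, sc, one_pos, ahm H δ hδ, fun f => sc_eq f 1, ?_, ?_, ?_⟩⟩
    · intro x
      obtain ⟨w, h0, h1, h2⟩ := hm₁ x
      exact ⟨w, h0, h1, fun l hl f hf => (opn_sub f _ _).trans (h2 l hl f hf)⟩
    · refine ⟨fun _ => sc, fun _ => 1, ?_, fun _ _ => ahm H δ hδ, ?_, ?_, ?_⟩
      · simp
      · intro i hi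
        omega
      · intro f x a b
        rw [Subsingleton.elim a b, Matrix.one_apply_eq, sc_ap]
        simp
      · intro f x a b
        rw [sc_ap, sc_ap]
        rfl
    · refine ⟨fun _ => sc, fun _ => 1, ?_, fun _ _ => ahm H' δ hδ, ?_, ?_, ?_⟩
      · simp
      · intro i hi
        omega
      · intro f x a b
        rw [Subsingleton.elim a b, Matrix.one_apply_eq, sc_ap]
        simp
      · intro f x a b
        rw [sc_ap, sc_ap]
        rfl

end Pool.Agent.FPS
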