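import Pool.Agent.FPS.Inst
import Pool.Agent.FPS.Targets4

set_option autoImplicit false

/-!
# FPS, HES: the homotopy data of the three-sphere
-/

open scoped Classical
open MeasureTheory Pool.Agent.FPZ

noncomputable section

namespace Pool.Agent.FPS

namespace HES_

theorem pm_eq (v : E3) : pm v = 1 - pp v := by
  unfold pm pp
  ext i j
  simp only [Matrix.sub_apply, Matrix.smul_apply, Matrix.add_apply, smul_eq_mul]
  ring

theorem pp_zero : pp (0 : E3) = (1 / 2 : ℂ) • (1 : Matrix (Fin 2) (Fin 2) ℂ) := by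
  unfold pp sg
  ext i j
  fin_cases i <;> fin_cases j <;> simp

theorem cont_pp : Continuous fun m : S2 => pp (m : E3) := by
  unfold pp sg
  refine continuous_pi fun i => continuous_pi fun j => ?_
  fin_cases i <;> fin_cases j <;> simp <;> fun_prop

/-- the projection valued function `pp` -/
def QQ : C(S2, Matrix (Fin 2) (Fin 2) ℂ) := ⟨fun m => pp (m : E3), cont_pp⟩

theorem bn_apply {n : Type} [Fintype n] (N : ℕ) (M : C(S2, Matrix n n ℂ)) (a c : Fin (N + 1) × n) :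
    bn N M a c = bk N (ent M a.2 c.2) a.1 c.1 := rfl

theorem bk_const (h1 : T_BK1) (N : ℕ) (c : ℂ) (f : C(S2, ℂ)) (hf : ∀ m, f m = c) (a b : Fin (N + 1)) :
    bk N f a b = if a = b then c else 0 := by
  have hf' : f = c • (1 : C(S2, ℂ)) := by
    ext m
    simp [hf m]
  rw [hf', h1.2.1, h1.2.2.1, Matrix.smul_apply, Matrix.one_apply]
  split_ifs <;> simp

/-- `bk` of a combination -/
theorem bk_comb (h1 : T_BK1) (N : ℕ) (p q : ℂ) (f g h : C(S2, ℂ)) (hf : ∀ m, f m = p * g m + q * h m)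
    (a b : Fin (N + 1)) : bk N f a b = p * bk N g a b + q * bk N h a b := by
  have hf' : f = p • g + q • h := by
    ext m
    simp [hf m]
  rw [hf', h1.1, h1.2.1, h1.2.1]
  simp [Matrix.add_apply, Matrix.smul_apply]

/-- value of `bk` on the combination of the entries of `pp m` and `pm m` -/
theorem bk_pp (h1 : T_BK1) (N : ℕ) (P : Matrix (Fin (N + 1) × Fin 2) (Fin (N + 1) × Fin 2) ℂ) (t : ℂ)
    (hP : bn N QQ = t • P) (f : C(S2, ℂ)) (α β : ℂ) (i j : Fin 2)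
    (hf : ∀ m, f m = α * pp (m : E3) i j + β * pm (m : E3) i j) (a c : Fin (N + 1)) :
    bk N f a c = α * (t * P (a, i) (c, j)) + β * ((if (a, i) = (c, j) then 1 else 0) - t * P (a, i) (c, j)) := by
  have e1 : bk N (ent QQ i j) a c = t * P (a, i) (c, j) := by
    have := congrFun (congrFun hP (a, i)) (c, j)
    rw [bn_apply] at this
    simpa [Matrix.smul_apply] using this
  have e2 := bk_comb h1 N (α - β) β f (ent QQ i j) (ContinuousMap.const S2 (if i = j then 1 else 0)) (by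
    intro m
    rw [hf m, pm_eq]
    simp only [Matrix.sub_apply, Matrix.one_apply, ContinuousMap.const_apply]
    have : ent QQ i j m = pp (m : E3) i j := rfl
    rw [this]
    ring) a c
  rw [e2, e1, bk_const h1 N (if i = j then 1 else 0) _ (fun m => rfl)]
  by_cases h : i = j
  · by_cases h' : a = c
    · simp [h, h']
      ring
    · simp [h, h']
      ring
  · simp [h]
    ring

/-! ## points -/

theorem m3_eq (y : M3) (w : E3) (h : ℝ) (hy : y.1 = (w, h)) : m3 w h = y := by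
  have h1 : ‖w‖ ^ 2 + h ^ 2 = 1 := by
    have := y.2
    rw [hy] at this
    exact this
  unfold m3
  rw [dif_pos h1]
  exact Subtype.ext hy.symm

theorem s1_eq (z : S1) (x y : ℝ) (hz : z.1 = ⟨x, y⟩) : s1 x y = z := by
  have h1 : ‖(⟨x, y⟩ : ℂ)‖ = 1 := by
    rw [← hz]
    simp
  unfold s1
  rw [dif_pos h1]
  exact Subtype.ext hz.symm

theorem s1_val (x y : ℝ) (h : y ^ 2 + x ^ 2 = 1) : (s1 x y).1 = ⟨x, y⟩ := by
  have h1 : ‖(⟨x, y⟩ : ℂ)‖ = 1 := by
    rw [Complex.norm_def, Complex.normSq_mk]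
    rw [show x * x + y * y = 1 by nlinarith]
    simp
  unfold s1
  rw [dif_pos h1]

/-- the projection `1 ⊗ pp n0` -/
def P0 (N : ℕ) : Matrix (Fin (N + 1) × Fin 2) (Fin (N + 1) × Fin 2) ℂ :=
  Matrix.of fun a c => if a.1 = c.1 then pp (n0 : E3) a.2 c.2 else 0

/-- value of `bk` on a constant -/
theorem bk_p0 (h1 : T_BK1) (N : ℕ) (f : C(S2, ℂ)) (α β : ℂ) (i j : Fin 2)
    (hf : ∀ m, f m = α * pp (n0 : E3) i j + β * pm (n0 : E3) i j) (a c : Fin (N + 1)) :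
    bk N f a c = α * P0 N (a, i) (c, j) + β * ((if (a, i) = (c, j) then 1 else 0) - P0 N (a, i) (c, j)) := by
  rw [bk_const h1 N _ f hf, pm_eq]
  simp only [P0, Matrix.of_apply, Matrix.sub_apply, Matrix.one_apply]
  by_cases h : i = j
  · by_cases h' : a = c
    · simp [h, h']
    · simp [h, h']
  · by_cases h' : a = c
    · simp [h, h']
    · simp [h']

/-- The first end point for the three-sphere. -/
theorem end3 (h1 : T_BK1) (hbx : T_BXC) (N : ℕ) (P : Matrix (Fin (N + 1) × Fin 2) (Fin (N + 1) × Fin 2) ℂ)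
    (t : ℂ) (hP : bn N QQ = t • P) (f : C(M3, ℂ)) (G : C(M3 × S2, Matrix (Fin 2) (Fin 2) ℂ))
    (hG : ∀ x m, G (x, m) = f (m3 x.1.1 |x.1.2|) • pp (mt x.1.2 m : E3) +
      f (m3 x.1.1 (-|x.1.2|)) • pm (mt x.1.2 m : E3)) (u l : C(M3, M3))
    (hul : ∀ x, (u x).1 = (x.1.1, |x.1.2|) ∧ (l x).1 = (x.1.1, -|x.1.2|)) (x : M3) :
    (0 ≤ x.1.2 → bx N G x = f (u x) • (t • P) + f (l x) • (1 - t • P)) ∧
    (x.1.2 < 0 → bx N G x = f (u x) • P0 N + f (l x) • (1 - P0 N)) := by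
  have hu := m3_eq _ _ _ (hul x).1
  have hl := m3_eq _ _ _ (hul x).2
  rw [(hbx M3 (Fin 2) N G).1 x]
  refine ⟨fun hx => ?_, fun hx => ?_⟩
  · ext ⟨a, i⟩ ⟨c, j⟩
    rw [bn_apply]
    refine (bk_pp h1 N P t hP _ (f (u x)) (f (l x)) i j ?_ a c).trans ?_
    · intro m
      change G (x, m) i j = _
      rw [hG, hu, hl]
      simp [mt, hx]
    · simp only [Matrix.add_apply, Matrix.smul_apply, Matrix.sub_apply, Matrix.one_apply, smul_eq_mul]
  · ext ⟨a, i⟩ ⟨c, j⟩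
    rw [bn_apply]
    refine (bk_p0 h1 N _ (f (u x)) (f (l x)) i j ?_ a c).trans ?_
    · intro m
      change G (x, m) i j = _
      rw [hG, hu, hl]
      simp [mt, not_le.mpr hx]
    · simp only [Matrix.add_apply, Matrix.smul_apply, Matrix.sub_apply, Matrix.one_apply, smul_eq_mul]

/-- The last end point for the three-sphere. -/
theorem last3 (h1 : T_BK1) (hbx : T_BXC) (hk : T_KAV) (N : ℕ) (Gm : C(S1 × S2, M3))
    (hGm : ∀ (z : S1) (m : S2), Gm (z, m) = m3 (|z.1.im| • (mt z.1.im m : E3)) z.1.re ∧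
      (Gm (z, m)).1 = (|z.1.im| • (mt z.1.im m : E3), z.1.re))
    (hgam : ∀ N f z, gam N f z = bk N (sl (f.comp Gm) z)) (f : C(M3, ℂ))
    (G : C(M3 × S2, Matrix (Fin 2) (Fin 2) ℂ))
    (hG : ∀ x m, G (x, m) = f (m3 (‖x.1.1‖ • (m : E3)) x.1.2) • pp (un x.1.1) +
      f (m3 (‖x.1.1‖ • (n0 : E3)) x.1.2) • pm (un x.1.1)) (x : M3) (a b : Fin (N + 1) × Fin 2) :
    bx N G x a b = kap (ent (gam N f) a.1 b.1) x a.2 b.2 := by
  obtain ⟨a, i⟩ := a
  obtain ⟨c, j⟩ := b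
  have hn1 : ‖x.1.1‖ ^ 2 + x.1.2 ^ 2 = 1 := x.2
  have hn2 : (-‖x.1.1‖) ^ 2 + x.1.2 ^ 2 = 1 := by rw [neg_sq]; exact x.2
  have v1 := s1_val x.1.2 ‖x.1.1‖ hn1
  have v2 := s1_val x.1.2 (-‖x.1.1‖) hn2
  rw [(hbx M3 (Fin 2) N G).1 x, bn_apply, hk.1]
  simp only [kapf, Matrix.add_apply, Matrix.smul_apply, smul_eq_mul]
  have e1 : ent (gam N f) a c (s1 x.1.2 ‖x.1.1‖) = bk N (sl (f.comp Gm) (s1 x.1.2 ‖x.1.1‖)) a c := by
    rw [← hgam]
    rfl
  have e2 : ent (gam N f) a c (s1 x.1.2 (-‖x.1.1‖)) = bk N (sl (f.comp Gm) (s1 x.1.2 (-‖x.1.1‖))) a c := by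
    rw [← hgam]
    rfl
  rw [e1, e2]
  refine (bk_comb h1 N (pp (un x.1.1) i j) (pm (un x.1.1) i j) _ (sl (f.comp Gm) (s1 x.1.2 ‖x.1.1‖))
    (sl (f.comp Gm) (s1 x.1.2 (-‖x.1.1‖))) ?_ a c).trans (by ring)
  intro m
  change G (x, m) i j = pp (un x.1.1) i j * f (Gm (s1 x.1.2 ‖x.1.1‖, m)) +
    pm (un x.1.1) i j * f (Gm (s1 x.1.2 (-‖x.1.1‖), m))
  rw [hG, (hGm _ m).1, (hGm _ m).1]
  have w1 : |(s1 x.1.2 ‖x.1.1‖).1.im| • (mt (s1 x.1.2 ‖x.1.1‖).1.im m : E3) = ‖x.1.1‖ • (m : E3) := by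
    rw [v1]
    simp [mt]
  have w2 : |(s1 x.1.2 (-‖x.1.1‖)).1.im| • (mt (s1 x.1.2 (-‖x.1.1‖)).1.im m : E3) =
      ‖x.1.1‖ • (n0 : E3) := by
    rw [v2]
    simp only [abs_neg, abs_norm]
    rcases (norm_nonneg x.1.1).eq_or_lt with h0 | h0
    · rw [← h0]
      simp
    · have : ¬ (0 : ℝ) ≤ -‖x.1.1‖ := by linarith
      simp only [mt, if_neg this]
  rw [w1, w2, v1, v2]
  simp only [Matrix.add_apply, Matrix.smul_apply, smul_eq_mul]
  ring

/-- values of `κ` at the points of `γ` -/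
theorem kap_val (hk : T_KAV) (Gm : C(S1 × S2, M3))
    (hGm : ∀ (z : S1) (m : S2), Gm (z, m) = m3 (|z.1.im| • (mt z.1.im m : E3)) z.1.re ∧
      (Gm (z, m)).1 = (|z.1.im| • (mt z.1.im m : E3), z.1.re)) (u l : C(S1, S1))
    (hul : ∀ z, (u z).1 = ⟨z.1.re, |z.1.im|⟩ ∧ (l z).1 = ⟨z.1.re, -|z.1.im|⟩) (g : C(S1, ℂ)) (z : S1)
    (m : S2) : kap g (Gm (z, m)) = g (u z) • pp (mt z.1.im m : E3) + g (l z) • pm (mt z.1.im m : E3) := by
  have hu := s1_eq _ _ _ (hul z).1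
  have hl := s1_eq _ _ _ (hul z).2
  have hmt : ‖(mt z.1.im m : E3)‖ = 1 := by simp
  rw [hk.1]
  unfold kapf
  rw [(hGm z m).2]
  have hn : ‖|z.1.im| • (mt z.1.im m : E3)‖ = |z.1.im| := by
    rw [norm_smul, hmt]
    simp
  simp only [hn, hu, hl]
  by_cases h0 : z.1.im = 0
  · have hlu : l z = u z := by
      apply Subtype.ext
      rw [(hul z).1, (hul z).2, h0]
      simp
    rw [hlu, ← smul_add, ← smul_add, pm_eq, pm_eq]
    simp
  · have hun : un (|z.1.im| • (mt z.1.im m : E3)) = (mt z.1.im m : E3) := by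
      unfold un
      rw [hn, smul_smul, inv_mul_cancel₀ (abs_ne_zero.mpr h0), one_smul]
    rw [hun]

/-- The last end point for the circle. -/
theorem last1 (h1 : T_BK1) (hk : T_KAV) (N : ℕ) (P : Matrix (Fin (N + 1) × Fin 2) (Fin (N + 1) × Fin 2) ℂ)
    (t : ℂ) (hP : bn N QQ = t • P) (Gm : C(S1 × S2, M3))
    (hGm : ∀ (z : S1) (m : S2), Gm (z, m) = m3 (|z.1.im| • (mt z.1.im m : E3)) z.1.re ∧
      (Gm (z, m)).1 = (|z.1.im| • (mt z.1.im m : E3), z.1.re))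
    (hgam : ∀ N f z, gam N f z = bk N (sl (f.comp Gm) z)) (u l : C(S1, S1))
    (hul : ∀ z, (u z).1 = ⟨z.1.re, |z.1.im|⟩ ∧ (l z).1 = ⟨z.1.re, -|z.1.im|⟩) (g : C(S1, ℂ)) (z : S1)
    (i j : Fin 2) (a c : Fin (N + 1)) :
    (0 ≤ z.1.im → gam N (ent (kap g) i j) z a c = g (u z) * (t * P (a, i) (c, j)) +
      g (l z) * ((if (a, i) = (c, j) then 1 else 0) - t * P (a, i) (c, j))) ∧
    (z.1.im < 0 → gam N (ent (kap g) i j) z a c = g (u z) * P0 N (a, i) (c, j) +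
      g (l z) * ((if (a, i) = (c, j) then 1 else 0) - P0 N (a, i) (c, j))) := by
  rw [hgam]
  refine ⟨fun hz => ?_, fun hz => ?_⟩
  · refine bk_pp h1 N P t hP _ (g (u z)) (g (l z)) i j ?_ a c
    intro m
    change kap g (Gm (z, m)) i j = _
    rw [kap_val hk Gm hGm u l hul]
    simp [mt, hz]
  · refine bk_p0 h1 N _ (g (u z)) (g (l z)) i j ?_ a c
    intro m
    change kap g (Gm (z, m)) i j = _
    rw [kap_val hk Gm hGm u l hul]
    simp [mt, not_le.mpr hz]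

/-! ## the projection `P0` -/

theorem pp_n0 : pp (n0 : E3) = !![1, 0; 0, 0] := by
  have h02 : ¬ ((0 : Fin 3) = 2) := by decide
  have h12 : ¬ ((1 : Fin 3) = 2) := by decide
  unfold pp sg n0
  ext i j
  fin_cases i <;> fin_cases j <;> simp [h02, h12]
  norm_num

theorem P0_mul (N : ℕ) : P0 N * P0 N = P0 N := by
  have hpp : pp (n0 : E3) * pp (n0 : E3) = pp (n0 : E3) := by
    rw [pp_n0]
    ext i j
    fin_cases i <;> fin_cases j <;> simp
  ext ⟨a, i⟩ ⟨c, j⟩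
  rw [Matrix.mul_apply, Fintype.sum_prod_type]
  simp only [P0, Matrix.of_apply]
  have hx : ∀ b : Fin (N + 1), (∑ k : Fin 2, (if a = b then pp (n0 : E3) i k else 0) *
      (if b = c then pp (n0 : E3) k j else 0)) = if a = b then (if b = c then pp (n0 : E3) i j else 0) else 0 := by
    intro b
    by_cases h : a = b
    · by_cases h' : b = c
      · simp only [h, h', if_true]
        rw [← Matrix.mul_apply, hpp]
      · simp [h']
    · simp [h]
  rw [Finset.sum_congr rfl fun b _ => hx b]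
  simp

theorem P0_herm (N : ℕ) : (P0 N).conjTranspose = P0 N := by
  ext ⟨a, i⟩ ⟨c, j⟩
  simp only [P0, Matrix.conjTranspose_apply, Matrix.of_apply, pp_n0]
  by_cases h : a = c
  · subst h
    fin_cases i <;> fin_cases j <;> simp
  · simp [h, Ne.symm h]

theorem P0_trace (N : ℕ) : (P0 N).trace = N + 1 := by
  unfold Matrix.trace
  rw [Fintype.sum_prod_type]
  simp [P0, pp_n0]

/-- entries of the unit matrix, for any decidability instance -/
theorem one_app {n : Type} (i1 : DecidableEq n) (a b : n) :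
    (@OfNat.ofNat (Matrix n n ℂ) 1 (@One.toOfNat1 _ (@Matrix.one n ℂ i1 _ _))) a b =
      @ite ℂ (a = b) (Classical.propDecidable _) 1 0 := by
  rw [Matrix.one_apply]
  split_ifs <;> rfl

/-! ## numbers -/

theorem ex_one (c ε : ℝ) (hε : 0 < ε) : ∃ N₀ : ℕ, ∀ N : ℕ, N₀ ≤ N →
    c * (1 - ((N : ℝ) + 1) / ((N : ℝ) + 2)) ≤ ε := by
  obtain ⟨N₀, hN₀⟩ := exists_nat_ge (c / ε)
  refine ⟨N₀, fun N hN => ?_⟩
  have h1 : (N₀ : ℝ) ≤ N := by exact_mod_cast hN
  have h2 : (0 : ℝ) < (N : ℝ) + 2 := by positivity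
  have h3 : 1 - ((N : ℝ) + 1) / ((N : ℝ) + 2) = 1 / ((N : ℝ) + 2) := by
    field_simp
    ring
  rw [h3, mul_one_div, div_le_iff₀ h2]
  rw [div_le_iff₀ hε] at hN₀
  nlinarith

theorem tnn (N : ℕ) : 0 ≤ ((N : ℝ) + 1) / ((N : ℝ) + 2) ∧ ((N : ℝ) + 1) / ((N : ℝ) + 2) ≤ 1 := by
  refine ⟨by positivity, ?_⟩
  rw [div_le_one (by positivity)]
  linarith

theorem ex_F {K : Type} [TopologicalSpace K] [CompactSpace K] (F : Finset C(K, ℂ)) (ε : ℝ) (hε : 0 < ε) :
    ∃ N₀ : ℕ, ∀ N : ℕ, N₀ ≤ N → ∀ f ∈ F, 2 * ‖f‖ * (1 - ((N : ℝ) + 1) / ((N : ℝ) + 2)) ≤ ε := by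
  obtain ⟨N₀, hN₀⟩ := ex_one (∑ f ∈ F, 2 * ‖f‖) ε hε
  refine ⟨N₀, fun N hN f hf => le_trans ?_ (hN₀ N hN)⟩
  have h1 : 2 * ‖f‖ ≤ ∑ f ∈ F, 2 * ‖f‖ :=
    Finset.single_le_sum (f := fun f : C(K, ℂ) => 2 * ‖f‖) (fun g _ => by positivity) hf
  have h2 := (tnn N).2
  exact mul_le_mul_of_nonneg_right h1 (by linarith)

theorem ex_H {K : Type} [TopologicalSpace K] [CompactSpace K] (H : Finset C(K, ℂ)) (δ : ℝ) (hδ : 0 < δ) :
    ∃ N₀ : ℕ, ∀ N : ℕ, N₀ ≤ N → ∀ f ∈ H, ∀ g ∈ H,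
      4 * ‖f‖ * ‖g‖ * (1 - ((N : ℝ) + 1) / ((N : ℝ) + 2)) ≤ δ := by
  obtain ⟨N₀, hN₀⟩ := ex_one (4 * (∑ f ∈ H, ‖f‖) * (∑ f ∈ H, ‖f‖)) δ hδ
  refine ⟨N₀, fun N hN f hf g hg => le_trans ?_ (hN₀ N hN)⟩
  have h1 : ∀ f ∈ H, ‖f‖ ≤ ∑ f ∈ H, ‖f‖ := fun f hf =>
    Finset.single_le_sum (f := fun f : C(K, ℂ) => ‖f‖) (fun g _ => norm_nonneg g) hf
  have h2 := (tnn N).2
  have h3 : ‖f‖ * ‖g‖ ≤ (∑ f ∈ H, ‖f‖) * (∑ f ∈ H, ‖f‖) :=
    mul_le_mul (h1 f hf) (h1 g hg) (norm_nonneg g) (le_trans (norm_nonneg f) (h1 f hf))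
  have h4 : 4 * ‖f‖ * ‖g‖ ≤ 4 * (∑ f ∈ H, ‖f‖) * (∑ f ∈ H, ‖f‖) := by
    rw [mul_assoc, mul_assoc]
    linarith
  exact mul_le_mul_of_nonneg_right h4 (by linarith)

end HES_

open HES_ in
theorem p_HES (h1 : T_BK1) (h4 : T_BK4) (hbc : T_BXC) (hbh : T_BXH) (hk : T_KAV) (hgv : T_GMV)
    (hgh : T_GMH) (hgp : T_GMP) (hpc : T_PIC) (hf : T_FLD) (h3 : T_HTC3) (hc1 : T_HTC1) : T_HES := by
  obtain ⟨Gm, hGm, hgam, hgam1⟩ := hgv
  obtain ⟨u3, l3, hul3, hu3, hl3⟩ := h3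
  obtain ⟨u1, l1, hul1, hu1, hl1⟩ := hc1
  intro F' ε' hε'
  obtain ⟨m', hm'⟩ := hf S1 1 u1 l1 {z | 0 ≤ z.1.im} {z | z.1.im ≤ 0}
    (isClosed_le continuous_const (Complex.continuous_im.comp continuous_subtype_val))
    (isClosed_le (Complex.continuous_im.comp continuous_subtype_val) continuous_const)
    (by
      ext z
      simpa using le_total 0 z.1.im)
    (by
      rintro z ⟨hz1, hz2⟩
      have h0 : z.1.im = 0 := le_antisymm hz2 hz1
      apply Subtype.ext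
      rw [(hul1 z).1, (hul1 z).2, h0]
      simp)
    (by
      intro z hz
      have hz' : 0 ≤ z.1.im := hz
      apply Subtype.ext
      rw [(hul1 z).1, abs_of_nonneg hz'])
    (by
      intro z hz
      have hz' : z.1.im ≤ 0 := hz
      apply Subtype.ext
      rw [(hul1 z).2, abs_of_nonpos hz', neg_neg])
    hu1 hl1 F' ε' hε'
  refine ⟨m', ?_⟩
  intro F ε hε
  obtain ⟨ma, hma⟩ := hf M3 k3 u3 l3 {x | 0 ≤ x.1.2} {x | x.1.2 ≤ 0}
    (isClosed_le continuous_const (continuous_snd.comp continuous_subtype_val))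
    (isClosed_le (continuous_snd.comp continuous_subtype_val) continuous_const)
    (by
      ext z
      simpa using le_total 0 z.1.2)
    (by
      rintro z ⟨hz1, hz2⟩
      have h0 : z.1.2 = 0 := le_antisymm hz2 hz1
      apply Subtype.ext
      rw [(hul3 z).1, (hul3 z).2, h0]
      simp)
    (by
      intro z hz
      have hz' : 0 ≤ z.1.2 := hz
      apply Subtype.ext
      rw [(hul3 z).1, abs_of_nonneg hz'])
    (by
      intro z hz
      have hz' : z.1.2 ≤ 0 := hz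
      apply Subtype.ext
      rw [(hul3 z).2, abs_of_nonpos hz', neg_neg])
    hu3 hl3 F ε hε
  obtain ⟨M, Q, hQh, hQc, hQ0, hQM⟩ := hpc F ε hε
  obtain ⟨m₁, hm₁⟩ := hgp F ε hε
  refine ⟨ma + M, m₁, ?_⟩
  intro H H' δ hδ
  -- the choice of `N`
  choose Nq hNq using fun i : ℕ => hbh M3 M3 (Fin 2) (Q i) H δ (hQh i) hδ
  obtain ⟨Ng, hNg⟩ := hgh H δ hδ
  obtain ⟨N1, hN1⟩ := ex_F F ε hε
  obtain ⟨N2, hN2⟩ := ex_H H δ hδ
  obtain ⟨N3, hN3⟩ := ex_F F' ε' hε'
  obtain ⟨N4, hN4⟩ := ex_H H' δ hδ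
  set N : ℕ := Ng + N1 + N2 + N3 + N4 + ∑ i ∈ Finset.range (M + 1), Nq i with hN
  have hQN : ∀ i ≤ M, Nq i ≤ N := by
    intro i hi
    have : Nq i ≤ ∑ i ∈ Finset.range (M + 1), Nq i :=
      Finset.single_le_sum (f := Nq) (fun _ _ => Nat.zero_le _) (Finset.mem_range.mpr (by omega))
    omega
  obtain ⟨P, hPP, hPs, hPt, hPb⟩ := h4 N
  set t : ℝ := ((N : ℝ) + 1) / ((N : ℝ) + 2) with ht
  have htc : (t : ℂ) = ((N : ℂ) + 1) / ((N : ℂ) + 2) := by
    rw [ht]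
    push_cast
    ring
  have hP : bn N QQ = (t : ℂ) • P := by
    rw [htc]
    exact hPb QQ (fun m => rfl)
  obtain ⟨Φ, ζ, hζ, hΦ, hΦc, hΦ0, hΦp, hΦm⟩ := hma (Fin (N + 1) × Fin 2) P (P0 N) t δ H hPP hPs (P0_mul N)
    (P0_herm N) (by rw [hPt, P0_trace]; ring) (tnn N).1 (tnn N).2 (hN1 N (by omega)) (hN2 N (by omega)) hδ.le
  have key : ∀ f x, Φ ma f x = bx N (Q 0 f) x := by
    intro f x
    by_cases hx : 0 ≤ x.1.2
    · rw [hΦp f x hx]
      exact (congrArg (fun M => f (u3 x) • ((t : ℂ) • P) + f (l3 x) • (M - (t : ℂ) • P)) (one_inst _ _)).trans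
        ((end3 h1 hbc N P t hP f (Q 0 f) (hQ0 f) u3 l3 hul3 x).1 hx).symm
    · rw [hΦm f x (le_of_not_ge hx)]
      exact (congrArg (fun M => f (u3 x) • P0 N + f (l3 x) • (M - P0 N)) (one_inst _ _)).trans
        ((end3 h1 hbc N P t hP f (Q 0 f) (hQ0 f) u3 l3 hul3 x).2 (not_le.mp hx)).symm
  refine ⟨N + 1, gam N, Nat.succ_pos N, hNg N (by omega), hgam1 N, hm₁ N, ?_, ?_⟩
  · refine ⟨fun i => if i ≤ ma then Φ i else fun f => bx N (Q (i - ma) f), ζ, hζ, ?_, ?_, ?_, ?_⟩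
    · intro i hi
      by_cases him : i ≤ ma
      · simp only [him, if_true]
        exact hΦ i him
      · simp only [him, if_false]
        exact hNq (i - ma) N (hQN _ (by omega))
    · intro i hi f hfF x
      by_cases him : i < ma
      · have h5 : i ≤ ma := by omega
        have h6 : i + 1 ≤ ma := by omega
        simp only [h5, h6, if_true]
        exact hΦc i him f hfF x
      · obtain ⟨j, rfl⟩ : ∃ j, i = ma + j := ⟨i - ma, by omega⟩
        have h6 : ¬ ma + j + 1 ≤ ma := by omega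
        have h7 : ma + j + 1 - ma = j + 1 := by omega
        have h8 := (hbc M3 (Fin 2) N (Q j f)).2 (Q (j + 1) f) ε hε.le (hQc j (by omega) f hfF) x
        simp only [h6, if_false, h7]
        rcases Nat.eq_zero_or_pos j with rfl | hj
        · simp only [add_zero, le_refl, if_true]
          rw [key f x]
          exact h8
        · have h9 : ¬ ma + j ≤ ma := by omega
          have h10 : ma + j - ma = j := by omega
          simp only [h9, if_false, h10]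
          exact h8
    · intro f x a b
      simp only [Nat.zero_le, if_true]
      exact (hΦ0 f x a b).trans (congrArg (fun M : Matrix (Fin (N + 1) × Fin 2) (Fin (N + 1) × Fin 2) ℂ =>
        f x * (ζ a * star (ζ b)) + f k3 * (M a b - ζ a * star (ζ b))) (one_inst _ _))
    · intro f x a b
      have h11 : (if ma + M ≤ ma then Φ (ma + M) else fun f => bx N (Q (ma + M - ma) f)) f x = bx N (Q M f) x := by
        rcases Nat.eq_zero_or_pos M with hM | hM
        · simp only [hM, add_zero, le_refl, if_true]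
          exact key f x
        · have h9 : ¬ ma + M ≤ ma := by omega
          have h10 : ma + M - ma = M := by omega
          simp only [h9, if_false, h10]
      rw [h11]
      exact last3 h1 hbc hk N Gm hGm hgam f (Q M f) (hQM f) x a b
  · set e : Fin 2 × Fin (N + 1) ≃ Fin (N + 1) × Fin 2 := Equiv.prodComm _ _ with he
    have htr : ∀ X : Matrix (Fin (N + 1) × Fin 2) (Fin (N + 1) × Fin 2) ℂ, (X.submatrix e e).trace = X.trace := by
      intro X
      unfold Matrix.trace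
      exact Equiv.sum_comp e (fun a => X a a)
    obtain ⟨Ψ', ζ', hζ', hΨ, hΨc, hΨ0, hΨp, hΨm⟩ := hm' (Fin 2 × Fin (N + 1)) (P.submatrix e e)
      ((P0 N).submatrix e e) t δ H' (by rw [Matrix.submatrix_mul_equiv, hPP])
      (by rw [Matrix.conjTranspose_submatrix, hPs]) (by rw [Matrix.submatrix_mul_equiv, P0_mul])
      (by rw [Matrix.conjTranspose_submatrix, P0_herm]) (by rw [htr, htr, hPt, P0_trace]; ring) (tnn N).1 (tnn N).2
      (hN3 N (by omega)) (hN4 N (by omega)) hδ.le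
    refine ⟨Ψ', ζ', hζ', hΨ, hΨc, ?_, ?_⟩
    · intro g x a b
      exact (hΨ0 g x a b).trans (congrArg (fun M : Matrix (Fin 2 × Fin (N + 1)) (Fin 2 × Fin (N + 1)) ℂ =>
        g x * (ζ' a * star (ζ' b)) + g 1 * (M a b - ζ' a * star (ζ' b))) (one_inst _ _))
    · rintro g z ⟨i, a⟩ ⟨j, c⟩
      have hl1 := last1 h1 hk N P t hP Gm hGm hgam u1 l1 hul1 g z i j a c
      have e1 : e (i, a) = (a, i) := rfl
      have e2 : e (j, c) = (c, j) := rfl
      by_cases hz : 0 ≤ z.1.im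
      · rw [hΨp g z hz]
        refine Eq.trans ?_ (hl1.1 hz).symm
        simp only [Matrix.add_apply, Matrix.smul_apply, Matrix.sub_apply, smul_eq_mul, Matrix.submatrix_apply]
        rw [e1, e2, one_app]
        by_cases hab : a = c
        · by_cases hij : i = j
          · simp [hab, hij]
          · simp [hab, hij]
        · simp [hab]
      · rw [hΨm g z (le_of_not_ge hz)]
        refine Eq.trans ?_ (hl1.2 (not_le.mp hz)).symm
        simp only [Matrix.add_apply, Matrix.smul_apply, Matrix.sub_apply, smul_eq_mul, Matrix.submatrix_apply]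
        rw [e1, e2, one_app]
        by_cases hab : a = c
        · by_cases hij : i = j
          · simp [hab, hij]
          · simp [hab, hij]
        · simp [hab]

end Pool.Agent.FPS
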