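import Pool.Agent.FPS.Targets3

set_option autoImplicit false

/-!
# FPS, target HST: disjoint groups
-/

open scoped Classical
open MeasureTheory Pool.Agent.FPZ

noncomputable section

namespace Pool.Agent.FPS

theorem p_HST : T_HST := by
  intro S I _ _ Nb d hd
  have key : ∀ s : Finset I, ∃ T : I → Finset S, (∀ a ∈ s, T a ⊆ Nb a) ∧
      (∀ a ∈ s, (T a).card = d a) ∧ ∀ a ∈ s, ∀ b ∈ s, a ≠ b → Disjoint (T a) (T b) := by
    intro s
    induction s using Finset.induction_on with
    | empty => exact ⟨fun _ => ∅, by simp, by simp, by simp⟩
    | insert a s ha ih =>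
      obtain ⟨T, h1, h2, h3⟩ := ih
      have hU : (s.biUnion T).card ≤ ∑ b ∈ s, d b :=
        Finset.card_biUnion_le.trans (Finset.sum_le_sum fun b hb => (h2 b hb).le)
      have hsum : ∑ b ∈ s, d b + d a ≤ (Nb a).card := by
        refine le_trans ?_ (hd a)
        rw [add_comm, ← Finset.sum_insert ha]
        exact Finset.sum_le_sum_of_subset (Finset.subset_univ _)
      have hc : d a ≤ (Nb a \ s.biUnion T).card := by
        have h4 := Finset.le_card_sdiff (s.biUnion T) (Nb a)
        omega
      obtain ⟨t, ht1, ht2⟩ := Finset.exists_subset_card_eq hc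
      have ht3 : ∀ b ∈ s, Disjoint t (T b) := by
        intro b hb
        rw [Finset.disjoint_left]
        intro x hx hx'
        exact (Finset.mem_sdiff.1 (ht1 hx)).2 (Finset.mem_biUnion.2 ⟨b, hb, hx'⟩)
      have hne : ∀ b ∈ s, Function.update T a t b = T b := by
        intro b hb
        have hba : b ≠ a := fun h => ha (by rw [← h]; exact hb)
        exact Function.update_of_ne hba _ _
      have hea : Function.update T a t a = t := Function.update_self _ _ _
      refine ⟨Function.update T a t, ?_, ?_, ?_⟩
      · intro b hb
        rcases Finset.mem_insert.1 hb with rfl | hb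
        · rw [hea]
          exact ht1.trans Finset.sdiff_subset
        · rw [hne b hb]
          exact h1 b hb
      · intro b hb
        rcases Finset.mem_insert.1 hb with rfl | hb
        · rw [hea]
          exact ht2
        · rw [hne b hb]
          exact h2 b hb
      · intro b hb b' hb' hbb
        rcases Finset.mem_insert.1 hb with h5 | h5 <;> rcases Finset.mem_insert.1 hb' with h6 | h6
        · exact absurd (h5.trans h6.symm) hbb
        · rw [h5, hea, hne b' h6]
          exact ht3 b' h6
        · rw [h6, hea, hne b h5]
          exact (ht3 b h5).symm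
        · rw [hne b h5, hne b' h6]
          exact h3 b h5 b' h6 hbb
  obtain ⟨T, h1, h2, h3⟩ := key Finset.univ
  exact ⟨T, fun a => h1 a (Finset.mem_univ _), fun a => h2 a (Finset.mem_univ _),
    fun a b => h3 a (Finset.mem_univ _) b (Finset.mem_univ _)⟩

end Pool.Agent.FPS
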