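import Pool.Agent.FPS.Targets4

set_option autoImplicit false

/-!
# FPS: HTC1, contractions on the circle
-/

open scoped Classical
open MeasureTheory Pool.Agent.FPZ

noncomputable section

namespace Pool.Agent.FPS

namespace HTC1_

/-- The point `exp (i θ)`. -/
def ex (θ : ℝ) : S1 := ⟨Complex.exp (θ * Complex.I), by
  rw [mem_sphere_zero_iff_norm, Complex.norm_exp_ofReal_mul_I]⟩

lemma ex_continuous : Continuous ex := by
  unfold ex
  exact Continuous.subtype_mk (by fun_prop) _

lemma ex_zero : ex 0 = 1 := by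
  apply Subtype.ext
  simp [ex]

lemma ex_re (θ : ℝ) : (ex θ).1.re = Real.cos θ := by
  simp [ex, Complex.exp_ofReal_mul_I_re]

lemma ex_im (θ : ℝ) : (ex θ).1.im = Real.sin θ := by
  simp [ex, Complex.exp_ofReal_mul_I_im]

lemma sq1 (z : S1) : z.1.re ^ 2 + z.1.im ^ 2 = 1 := by
  have h : ‖z.1‖ = 1 := by simp
  have h2 := Complex.sq_norm z.1
  rw [h, Complex.normSq_apply] at h2
  nlinarith

lemma cosa (z : S1) : Real.cos (Real.arccos z.1.re) = z.1.re := by
  have h := sq1 z
  apply Real.cos_arccos <;> nlinarith [sq_nonneg z.1.im]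

lemma sina (z : S1) : Real.sin (Real.arccos z.1.re) = |z.1.im| := by
  have h := sq1 z
  rw [Real.sin_arccos, ← Real.sqrt_sq_eq_abs]
  congr 1
  linarith

/-- The map `z ↦ exp (i σ arccos (re z))`. -/
def um (σ : ℝ) : C(S1, S1) :=
  ⟨fun z => ex (σ * Real.arccos z.1.re), ex_continuous.comp (continuous_const.mul
    (Real.continuous_arccos.comp (Complex.continuous_re.comp continuous_subtype_val)))⟩

lemma um_hom (σ : ℝ) : ContinuousMap.Homotopic (um σ) (ContinuousMap.const S1 1) := by
  refine ⟨{
    toFun := fun p => ex ((1 - (p.1 : ℝ)) * (σ * Real.arccos p.2.1.re))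
    continuous_toFun := ?_
    map_zero_left := ?_
    map_one_left := ?_ }⟩
  · refine ex_continuous.comp ((continuous_const.sub
      (continuous_subtype_val.comp continuous_fst)).mul (continuous_const.mul
      (Real.continuous_arccos.comp (Complex.continuous_re.comp
        (continuous_subtype_val.comp continuous_snd)))))
  · intro z
    simp [um]
  · intro z
    simp [ex_zero]

end HTC1_

open HTC1_

theorem p_HTC1 : T_HTC1 := by
  refine ⟨um 1, um (-1), fun z => ⟨?_, ?_⟩, um_hom 1, um_hom (-1)⟩
  · apply Complex.ext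
    · show (ex (1 * Real.arccos z.1.re)).1.re = z.1.re
      rw [one_mul, ex_re, cosa]
    · show (ex (1 * Real.arccos z.1.re)).1.im = |z.1.im|
      rw [one_mul, ex_im, sina]
  · apply Complex.ext
    · show (ex (-1 * Real.arccos z.1.re)).1.re = z.1.re
      rw [neg_one_mul, ex_re, Real.cos_neg, cosa]
    · show (ex (-1 * Real.arccos z.1.re)).1.im = -|z.1.im|
      rw [neg_one_mul, ex_im, Real.sin_neg, sina]

end Pool.Agent.FPS
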