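import Pool.Agent.FPS.Targets4

set_option autoImplicit false

/-!
# FPS: contractions on the three-sphere
-/

open scoped Classical
open MeasureTheory Pool.Agent.FPZ

noncomputable section

namespace Pool.Agent.FPS.HTC3_

theorem norm_le (x : M3) : ‖x.1.1‖ ≤ 1 := by
  have h := x.2
  nlinarith [norm_nonneg x.1.1, sq_nonneg x.1.2]

theorem norm_smul_le (s : unitInterval) (x : M3) : ‖(1 - (s : ℝ)) • x.1.1‖ ≤ 1 := by
  have h1 := norm_le x
  have h2 : 0 ≤ 1 - (s : ℝ) := by linarith [s.2.2]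
  have h3 : 1 - (s : ℝ) ≤ 1 := by linarith [s.2.1]
  rw [norm_smul, Real.norm_eq_abs, abs_of_nonneg h2]
  nlinarith [norm_nonneg x.1.1]

theorem val_eq (e : ℝ) (he : e ^ 2 = 1) (s : unitInterval) (x : M3) :
    ‖(1 - (s : ℝ)) • x.1.1‖ ^ 2 +
      (e * Real.sqrt (1 - ‖(1 - (s : ℝ)) • x.1.1‖ ^ 2)) ^ 2 = 1 := by
  have h1 := norm_smul_le s x
  have h2 : 0 ≤ 1 - ‖(1 - (s : ℝ)) • x.1.1‖ ^ 2 := by
    nlinarith [norm_nonneg ((1 - (s : ℝ)) • x.1.1)]
  rw [mul_pow, he, Real.sq_sqrt h2]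
  ring

/-- the contraction of the hemisphere -/
def G (e : ℝ) (he : e ^ 2 = 1) : C(unitInterval × M3, M3) where
  toFun p := ⟨((1 - (p.1 : ℝ)) • p.2.1.1,
    e * Real.sqrt (1 - ‖(1 - (p.1 : ℝ)) • p.2.1.1‖ ^ 2)), val_eq e he p.1 p.2⟩
  continuous_toFun := by
    refine Continuous.subtype_mk ?_ _
    have h1 : Continuous fun p : unitInterval × M3 => (1 - (p.1 : ℝ)) • p.2.1.1 := by fun_prop
    refine h1.prodMk ?_
    exact continuous_const.mul (Real.continuous_sqrt.comp (continuous_const.sub (h1.norm.pow 2)))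

/-- the fold -/
def fo (e : ℝ) (he : e ^ 2 = 1) : C(M3, M3) where
  toFun x := ⟨(x.1.1, e * |x.1.2|), by
    show ‖x.1.1‖ ^ 2 + (e * |x.1.2|) ^ 2 = 1
    rw [mul_pow, he, sq_abs, one_mul]
    exact x.2⟩
  continuous_toFun := by
    refine Continuous.subtype_mk ?_ _
    have h1 : Continuous fun x : M3 => x.1.1 := by fun_prop
    have h2 : Continuous fun x : M3 => x.1.2 := by fun_prop
    exact h1.prodMk (continuous_const.mul h2.abs)

/-- the pole -/
def po (e : ℝ) (he : e ^ 2 = 1) : M3 := ⟨(0, e), by simpa using he⟩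

theorem homotopic_po (e : ℝ) (he : e ^ 2 = 1) :
    ContinuousMap.Homotopic (fo e he) (ContinuousMap.const M3 (po e he)) := by
  refine ⟨⟨G e he, ?_, ?_⟩⟩
  · intro x
    have hx := x.2
    apply Subtype.ext
    show ((1 - ((0 : unitInterval) : ℝ)) • x.1.1,
      e * Real.sqrt (1 - ‖(1 - ((0 : unitInterval) : ℝ)) • x.1.1‖ ^ 2)) = (x.1.1, e * |x.1.2|)
    have h0 : ((0 : unitInterval) : ℝ) = 0 := rfl
    have h1 : (1 - ((0 : unitInterval) : ℝ)) • x.1.1 = x.1.1 := by rw [h0, sub_zero, one_smul]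
    rw [h1]
    have h2 : 1 - ‖x.1.1‖ ^ 2 = x.1.2 ^ 2 := by linarith
    rw [h2, Real.sqrt_sq_eq_abs]
  · intro x
    apply Subtype.ext
    show ((1 - ((1 : unitInterval) : ℝ)) • x.1.1,
      e * Real.sqrt (1 - ‖(1 - ((1 : unitInterval) : ℝ)) • x.1.1‖ ^ 2)) = (0, e)
    have h0 : ((1 : unitInterval) : ℝ) = 1 := rfl
    have h1 : (1 - ((1 : unitInterval) : ℝ)) • x.1.1 = 0 := by rw [h0, sub_self, zero_smul]
    rw [h1]
    simp

/-- the path between the poles -/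
def pa : C(unitInterval × M3, M3) where
  toFun p := ⟨(Real.sin (Real.pi * (p.1 : ℝ)) • (n0 : E3), -Real.cos (Real.pi * (p.1 : ℝ))), by
    have h1 : ‖(n0 : E3)‖ = 1 := by simp
    show ‖Real.sin (Real.pi * (p.1 : ℝ)) • (n0 : E3)‖ ^ 2 + (-Real.cos (Real.pi * (p.1 : ℝ))) ^ 2 = 1
    rw [norm_smul, h1, mul_one, Real.norm_eq_abs, sq_abs, neg_sq]
    exact Real.sin_sq_add_cos_sq _⟩
  continuous_toFun := by
    refine Continuous.subtype_mk ?_ _
    have h1 : Continuous fun p : unitInterval × M3 => (p.1 : ℝ) := by fun_prop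
    have h2 : Continuous fun p : unitInterval × M3 => Real.pi * (p.1 : ℝ) := continuous_const.mul h1
    exact ((Real.continuous_sin.comp h2).smul continuous_const).prodMk
      (Real.continuous_cos.comp h2).neg

theorem po_homotopic (h1 : (-1 : ℝ) ^ 2 = 1) (h2 : (1 : ℝ) ^ 2 = 1) :
    ContinuousMap.Homotopic (ContinuousMap.const M3 (po (-1) h1))
      (ContinuousMap.const M3 (po 1 h2)) := by
  refine ⟨⟨pa, ?_, ?_⟩⟩
  · intro x
    apply Subtype.ext
    show (Real.sin (Real.pi * ((0 : unitInterval) : ℝ)) • (n0 : E3),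
      -Real.cos (Real.pi * ((0 : unitInterval) : ℝ))) = (0, -1)
    have h0 : ((0 : unitInterval) : ℝ) = 0 := rfl
    rw [h0]
    simp
  · intro x
    apply Subtype.ext
    show (Real.sin (Real.pi * ((1 : unitInterval) : ℝ)) • (n0 : E3),
      -Real.cos (Real.pi * ((1 : unitInterval) : ℝ))) = (0, 1)
    have h0 : ((1 : unitInterval) : ℝ) = 1 := rfl
    rw [h0]
    simp

theorem po_one (h : (1 : ℝ) ^ 2 = 1) : po 1 h = k3 := rfl

end Pool.Agent.FPS.HTC3_

namespace Pool.Agent.FPS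

open HTC3_

theorem p_HTC3 : T_HTC3 := by
  have h1 : (1 : ℝ) ^ 2 = 1 := by norm_num
  have h2 : (-1 : ℝ) ^ 2 = 1 := by norm_num
  refine ⟨fo 1 h1, fo (-1) h2, fun x => ⟨?_, ?_⟩, ?_, ?_⟩
  · show (x.1.1, 1 * |x.1.2|) = (x.1.1, |x.1.2|)
    rw [one_mul]
  · show (x.1.1, -1 * |x.1.2|) = (x.1.1, -|x.1.2|)
    rw [neg_one_mul]
  · have h := homotopic_po 1 h1
    rwa [po_one] at h
  · have h := (homotopic_po (-1) h2).trans (po_homotopic h2 h1)
    rwa [po_one] at h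

end Pool.Agent.FPS
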