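import Pool.Agent.FPS.Targets6

set_option autoImplicit false

/-!
# IDZ: the identity generates `C(S1)`; functional calculus of unitaries
-/

open scoped Classical
open MeasureTheory Pool.Agent.FPZ

noncomputable section

namespace Pool.Agent.FPS

namespace IDZ_

theorem gen : cal ({idz} : Set C(S1, ℂ)) = ⊤ := by
  unfold cal
  apply ContinuousMap.starSubalgebra_topologicalClosure_eq_top_of_separatesPoints
  intro x y hxy
  refine ⟨idz, ⟨idz, ?_, rfl⟩, ?_⟩
  · exact StarAlgebra.subset_adjoin ℂ _ (Set.mem_singleton _)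
  · intro h
    exact hxy (Subtype.ext h)

theorem hom (A : Type) [CStarAlgebra A] (y : A) (hy : Uni y) :
    ∃ ρ : C(S1, ℂ) →⋆ₐ[ℂ] A, ρ idz = y := by
  have hn : IsStarNormal y := ⟨by
    change star y * y = y * star y
    rw [hy.1, hy.2]⟩
  have hu : y ∈ unitary A := Unitary.mem_iff.2 ⟨hy.1, hy.2⟩
  have hsub : ∀ z : spectrum ℂ y, (z : ℂ) ∈ Metric.sphere (0 : ℂ) 1 := fun z =>
    spectrum.subset_circle_of_unitary hu z.2
  let j : C(spectrum ℂ y, S1) := ⟨fun z => ⟨(z : ℂ), hsub z⟩,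
    Continuous.subtype_mk continuous_subtype_val _⟩
  let Φ : C(spectrum ℂ y, ℂ) →⋆ₐ[ℂ] A :=
    (StarAlgebra.elemental ℂ y).subtype.comp
      ((continuousFunctionalCalculus y : C(spectrum ℂ y, ℂ) ≃⋆ₐ[ℂ] _) :
        C(spectrum ℂ y, ℂ) →⋆ₐ[ℂ] StarAlgebra.elemental ℂ y)
  refine ⟨Φ.comp (j.compStarAlgHom' ℂ ℂ), ?_⟩
  have h1 : (j.compStarAlgHom' ℂ ℂ) idz = (ContinuousMap.id ℂ).restrict (spectrum ℂ y) := by
    ext z
    rfl
  have h2 : (Φ.comp (j.compStarAlgHom' ℂ ℂ)) idz = Φ ((j.compStarAlgHom' ℂ ℂ) idz) := rfl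
  rw [h2, h1]
  have h3 : Φ ((ContinuousMap.id ℂ).restrict (spectrum ℂ y)) =
      ((continuousFunctionalCalculus y ((ContinuousMap.id ℂ).restrict (spectrum ℂ y)) :
        StarAlgebra.elemental ℂ y) : A) := rfl
  rw [h3, continuousFunctionalCalculus_map_id]

end IDZ_

/-- The identity generates `C(S1)`, and the functional calculus of a unitary. -/
theorem p_IDZ : T_IDZ := ⟨IDZ_.gen, fun A _ y hy => IDZ_.hom A y hy⟩

end Pool.Agent.FPS
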