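import Pool.Agent.FPS.Inst
import Pool.Agent.FPS.Targets4

set_option autoImplicit false

/-!
# FPS: the map `κ` on the three-sphere (KAV)
-/

open scoped Classical
open MeasureTheory Pool.Agent.FPZ

noncomputable section

namespace Pool.Agent.FPS

namespace KAV_

/-- The three Pauli matrices. -/
def pa0 : Matrix (Fin 2) (Fin 2) ℂ := !![0, 1; 1, 0]
/-- The three Pauli matrices. -/
def pa1 : Matrix (Fin 2) (Fin 2) ℂ := !![0, -Complex.I; Complex.I, 0]
/-- The three Pauli matrices. -/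
def pa2 : Matrix (Fin 2) (Fin 2) ℂ := !![1, 0; 0, -1]

theorem sg_eq (v : E3) :
    sg v = ((v 0 : ℝ) : ℂ) • pa0 + ((v 1 : ℝ) : ℂ) • pa1 + ((v 2 : ℝ) : ℂ) • pa2 := by
  ext i j
  fin_cases i <;> fin_cases j <;> simp [sg, pa0, pa1, pa2] <;> ring

theorem sg_zero : sg 0 = 0 := by
  ext i j
  fin_cases i <;> fin_cases j <;> simp [sg]

theorem nrm_sq (v : E3) : ‖v‖ ^ 2 = v 0 ^ 2 + v 1 ^ 2 + v 2 ^ 2 := by
  rw [EuclideanSpace.norm_sq_eq, Fin.sum_univ_three]
  simp [sq_abs]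

theorem sg_sq (v : E3) : sg v * sg v = ((‖v‖ ^ 2 : ℝ) : ℂ) • (1 : Matrix (Fin 2) (Fin 2) ℂ) := by
  have hI : Complex.I * Complex.I = -1 := Complex.I_mul_I
  rw [nrm_sq]
  ext i j
  fin_cases i <;> fin_cases j <;> simp [sg, Matrix.mul_apply, Fin.sum_univ_two] <;>
    first
    | linear_combination (-(((v 1 : ℝ) : ℂ) ^ 2)) * hI
    | ring

theorem sg_herm (v : E3) : (sg v).conjTranspose = sg v := by
  ext i j
  fin_cases i <;> fin_cases j <;> simp [sg, Matrix.conjTranspose_apply] <;> ring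

theorem norm_un {w : E3} (hw : w ≠ 0) : ‖un w‖ = 1 := by
  unfold un
  rw [norm_smul, norm_inv, norm_norm, inv_mul_cancel₀ (norm_ne_zero_iff.mpr hw)]

theorem pp_add_pm (v : E3) : pp v + pm v = 1 := by
  unfold pp pm
  rw [← smul_add]
  have : (1 : Matrix (Fin 2) (Fin 2) ℂ) + sg v + (1 - sg v) = (2 : ℂ) • 1 := by
    rw [two_smul]; abel
  rw [this, smul_smul]
  norm_num

theorem pp_herm (v : E3) : (pp v).conjTranspose = pp v := by
  unfold pp
  rw [Matrix.conjTranspose_smul, Matrix.conjTranspose_add, sg_herm, Matrix.conjTranspose_one]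
  simp

theorem pm_herm (v : E3) : (pm v).conjTranspose = pm v := by
  unfold pm
  rw [Matrix.conjTranspose_smul, Matrix.conjTranspose_sub, sg_herm, Matrix.conjTranspose_one]
  simp

theorem sg_sq1 {v : E3} (hv : ‖v‖ = 1) : sg v * sg v = 1 := by
  rw [sg_sq, hv]
  simp

theorem pp_pp {v : E3} (hv : ‖v‖ = 1) : pp v * pp v = pp v := by
  unfold pp
  rw [smul_mul_smul_comm, add_mul, mul_add, mul_add, sg_sq1 hv, one_mul, mul_one, one_mul]
  have : (1 : Matrix (Fin 2) (Fin 2) ℂ) + sg v + (sg v + 1) = (2 : ℂ) • (1 + sg v) := by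
    rw [two_smul]; abel
  rw [this, smul_smul]
  norm_num

theorem pm_pm {v : E3} (hv : ‖v‖ = 1) : pm v * pm v = pm v := by
  unfold pm
  rw [smul_mul_smul_comm, sub_mul, mul_sub, mul_sub, sg_sq1 hv, one_mul, mul_one, one_mul]
  have : (1 : Matrix (Fin 2) (Fin 2) ℂ) - sg v - (sg v - 1) = (2 : ℂ) • (1 - sg v) := by
    rw [two_smul]; abel
  rw [this, smul_smul]
  norm_num

theorem pp_pm {v : E3} (hv : ‖v‖ = 1) : pp v * pm v = 0 := by
  unfold pm pp
  rw [smul_mul_smul_comm, add_mul, mul_sub, mul_sub, sg_sq1 hv, one_mul, mul_one, one_mul]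
  have : (1 : Matrix (Fin 2) (Fin 2) ℂ) - sg v + (sg v - 1) = 0 := by abel
  rw [this, smul_zero]

theorem pm_pp {v : E3} (hv : ‖v‖ = 1) : pm v * pp v = 0 := by
  unfold pm pp
  rw [smul_mul_smul_comm, sub_mul, mul_add, mul_add, sg_sq1 hv, one_mul, mul_one, one_mul]
  have : (1 : Matrix (Fin 2) (Fin 2) ℂ) + sg v - (sg v + 1) = 0 := by abel
  rw [this, smul_zero]

theorem nrm1 {a b : ℝ} (h : b ^ 2 + a ^ 2 = 1) : ‖(⟨a, b⟩ : ℂ)‖ = 1 := by
  have h2 : ‖(⟨a, b⟩ : ℂ)‖ ^ 2 = 1 := by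
    rw [← Complex.normSq_eq_norm_sq, Complex.normSq_mk]
    nlinarith
  have h3 : (0 : ℝ) ≤ ‖(⟨a, b⟩ : ℂ)‖ := norm_nonneg _
  nlinarith

theorem s1_val {a b : ℝ} (h : b ^ 2 + a ^ 2 = 1) : ((s1 a b : S1) : ℂ) = ⟨a, b⟩ := by
  unfold s1
  rw [dif_pos (nrm1 h)]

theorem cont_s1 (σ : ℝ) (hσ : σ ^ 2 = 1) :
    Continuous (fun x : M3 => s1 x.1.2 (σ * ‖x.1.1‖)) := by
  rw [continuous_induced_rng]
  have h : (Subtype.val ∘ fun x : M3 => s1 x.1.2 (σ * ‖x.1.1‖)) =
      fun x : M3 => ((x.1.2 : ℝ) : ℂ) + ((σ * ‖x.1.1‖ : ℝ) : ℂ) * Complex.I := by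
    funext x
    have hx := x.2
    have : (σ * ‖x.1.1‖) ^ 2 + x.1.2 ^ 2 = 1 := by
      rw [mul_pow, hσ, one_mul]; exact hx
    show ((s1 x.1.2 (σ * ‖x.1.1‖) : S1) : ℂ) = _
    rw [s1_val this]
    exact Complex.mk_eq_add_mul_I _ _
  rw [h]
  fun_prop

/-- The form of `kapf` with the Pauli matrices. -/
theorem kapf_eq (g : C(S1, ℂ)) (x : M3) : kapf g x =
    (1 / 2 * (g (s1 x.1.2 ‖x.1.1‖) + g (s1 x.1.2 (-‖x.1.1‖)))) • (1 : Matrix (Fin 2) (Fin 2) ℂ) +
    (1 / 2 * (g (s1 x.1.2 ‖x.1.1‖) - g (s1 x.1.2 (-‖x.1.1‖)))) • sg (un x.1.1) := by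
  unfold kapf pp pm
  module

theorem cont_coef (g : C(S1, ℂ)) (i : Fin 3) : Continuous (fun x : M3 =>
    (1 / 2 * (g (s1 x.1.2 ‖x.1.1‖) - g (s1 x.1.2 (-‖x.1.1‖)))) * ((un x.1.1 i : ℝ) : ℂ)) := by
  have h1 : Continuous (fun x : M3 => s1 x.1.2 ‖x.1.1‖) := by
    have := cont_s1 1 (by norm_num)
    simpa using this
  have h2 : Continuous (fun x : M3 => s1 x.1.2 (-‖x.1.1‖)) := by
    have := cont_s1 (-1) (by norm_num)
    simpa using this
  have h3 : Continuous (fun x : M3 =>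
      (1 / 2 * (g (s1 x.1.2 ‖x.1.1‖) - g (s1 x.1.2 (-‖x.1.1‖))) : ℂ)) := by
    have h1' := g.continuous.comp h1
    have h2' := g.continuous.comp h2
    exact continuous_const.mul (h1'.sub h2')
  rw [continuous_iff_continuousAt]
  intro x
  by_cases hx : x.1.1 = 0
  · have hz : (fun x : M3 =>
        (1 / 2 * (g (s1 x.1.2 ‖x.1.1‖) - g (s1 x.1.2 (-‖x.1.1‖))) : ℂ)) x = 0 := by
      show (1 / 2 * (g (s1 x.1.2 ‖x.1.1‖) - g (s1 x.1.2 (-‖x.1.1‖))) : ℂ) = 0
      rw [hx, norm_zero, neg_zero, sub_self, mul_zero]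
    have hz2 : (1 / 2 * (g (s1 x.1.2 ‖x.1.1‖) - g (s1 x.1.2 (-‖x.1.1‖)))) * ((un x.1.1 i : ℝ) : ℂ)
        = 0 := by
      have := hz
      simp only at this
      rw [this, zero_mul]
    rw [ContinuousAt]
    beta_reduce
    rw [hz2]
    have ht := h3.tendsto x
    beta_reduce at hz
    rw [hz] at ht
    refine squeeze_zero_norm (fun y => ?_) (tendsto_norm_zero.comp ht)
    rw [norm_mul]
    refine mul_le_of_le_one_right (norm_nonneg _) ?_
    rw [Complex.norm_real]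
    refine (PiLp.norm_apply_le (un y.1.1) i).trans ?_
    by_cases hy : y.1.1 = 0
    · rw [hy]
      simp [un]
    · exact (norm_un hy).le
  · refine h3.continuousAt.mul ?_
    have h4 : ContinuousAt (fun x : M3 => un x.1.1) x := by
      have h6 : ContinuousAt (fun x : M3 => ‖x.1.1‖) x := by fun_prop
      have h7 : ContinuousAt (fun x : M3 => x.1.1) x := by fun_prop
      have h8 : ContinuousAt (fun x : M3 => ‖x.1.1‖⁻¹) x :=
        ContinuousAt.inv₀ h6 (norm_ne_zero_iff.mpr hx)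
      exact ContinuousAt.smul h8 h7
    have h5 : ContinuousAt (fun v : E3 => ((v i : ℝ) : ℂ)) (un x.1.1) := by fun_prop
    exact ContinuousAt.comp (f := fun x : M3 => un x.1.1) h5 h4

theorem cont_kapf (g : C(S1, ℂ)) : Continuous (kapf g) := by
  have h1 : Continuous (fun x : M3 => s1 x.1.2 ‖x.1.1‖) := by
    have := cont_s1 1 (by norm_num)
    simpa using this
  have h2 : Continuous (fun x : M3 => s1 x.1.2 (-‖x.1.1‖)) := by
    have := cont_s1 (-1) (by norm_num)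
    simpa using this
  have h3 : Continuous (fun x : M3 =>
      (1 / 2 * (g (s1 x.1.2 ‖x.1.1‖) + g (s1 x.1.2 (-‖x.1.1‖))) : ℂ)) := by
    have h1' := g.continuous.comp h1
    have h2' := g.continuous.comp h2
    exact continuous_const.mul (h1'.add h2')
  have h4 : kapf g = fun x : M3 =>
      (1 / 2 * (g (s1 x.1.2 ‖x.1.1‖) + g (s1 x.1.2 (-‖x.1.1‖)))) • (1 : Matrix (Fin 2) (Fin 2) ℂ) +
      (((1 / 2 * (g (s1 x.1.2 ‖x.1.1‖) - g (s1 x.1.2 (-‖x.1.1‖)))) * ((un x.1.1 0 : ℝ) : ℂ)) • pa0 +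
      ((1 / 2 * (g (s1 x.1.2 ‖x.1.1‖) - g (s1 x.1.2 (-‖x.1.1‖)))) * ((un x.1.1 1 : ℝ) : ℂ)) • pa1 +
      ((1 / 2 * (g (s1 x.1.2 ‖x.1.1‖) - g (s1 x.1.2 (-‖x.1.1‖)))) * ((un x.1.1 2 : ℝ) : ℂ)) • pa2)
      := by
    funext x
    rw [kapf_eq, sg_eq]
    module
  rw [h4]
  exact (h3.smul continuous_const).add ((((cont_coef g 0).smul continuous_const).add
    ((cont_coef g 1).smul continuous_const)).add ((cont_coef g 2).smul continuous_const))

theorem kap_apply (g : C(S1, ℂ)) (x : M3) : kap g x = kapf g x := by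
  unfold kap mkC
  rw [dif_pos (cont_kapf g)]
  rfl

/-- The diagonal form. -/
theorem dia (x : M3) : ∃ (J : ℕ) (lam : Fin J → S1) (p : Fin J → Matrix (Fin 2) (Fin 2) ℂ),
    (∀ l, p l * p l = p l ∧ (p l).conjTranspose = p l) ∧
    (∀ l l', l ≠ l' → p l * p l' = 0) ∧ ∑ l, p l = 1 ∧ ∀ g, kapf g x = ∑ l, g (lam l) • p l := by
  by_cases hx : x.1.1 = 0
  · refine ⟨1, fun _ => s1 x.1.2 0, fun _ => 1, fun l => ⟨one_mul 1, Matrix.conjTranspose_one⟩,
      fun l l' h => absurd (Subsingleton.elim l l') h, by simp, fun g => ?_⟩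
    unfold kapf
    rw [hx, norm_zero, neg_zero, ← smul_add, pp_add_pm]
    simp
  · have h1 := norm_un hx
    refine ⟨2, ![s1 x.1.2 ‖x.1.1‖, s1 x.1.2 (-‖x.1.1‖)], ![pp (un x.1.1), pm (un x.1.1)],
      ?_, ?_, ?_, fun g => ?_⟩
    · intro l
      fin_cases l
      · exact ⟨pp_pp h1, pp_herm _⟩
      · exact ⟨pm_pm h1, pm_herm _⟩
    · intro l l' h
      fin_cases l <;> fin_cases l'
      · exact absurd rfl h
      · exact pp_pm h1
      · exact pm_pp h1
      · exact absurd rfl h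
    · rw [Fin.sum_univ_two]
      exact pp_add_pm _
    · rw [Fin.sum_univ_two]
      rfl

theorem s1_one : s1 1 0 = 1 := by
  apply Subtype.ext
  rw [s1_val (by norm_num)]
  rfl

end KAV_

open KAV_ in
theorem p_KAV : T_KAV := by
  refine ⟨kap_apply, ?_, ?_, ?_⟩
  · refine ⟨fun f g => ?_, fun c f => ?_, fun x => ?_, fun f x => ?_, fun f g x => ?_⟩
    · ext1 x
      rw [ContinuousMap.add_apply, kap_apply, kap_apply, kap_apply]
      unfold kapf
      rw [ContinuousMap.add_apply, ContinuousMap.add_apply]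
      module
    · ext1 x
      rw [ContinuousMap.smul_apply, kap_apply, kap_apply]
      unfold kapf
      rw [ContinuousMap.smul_apply, ContinuousMap.smul_apply, smul_eq_mul, smul_eq_mul]
      module
    · obtain ⟨J, lam, p, -, -, h3, h4⟩ := dia x
      rw [kap_apply, h4]
      have h5 : ∑ l, (1 : C(S1, ℂ)) (lam l) • p l = ∑ l, p l :=
        Finset.sum_congr rfl fun l _ => by simp
      rw [h5, h3]
      exact one_inst _ _
    · obtain ⟨J, lam, p, h1, -, -, h4⟩ := dia x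
      rw [kap_apply, kap_apply, h4, h4, Matrix.conjTranspose_sum]
      refine Finset.sum_congr rfl fun l _ => ?_
      rw [Matrix.conjTranspose_smul, (h1 l).2]
      rfl
    · obtain ⟨J, lam, p, h1, h2, -, h4⟩ := dia x
      rw [kap_apply, kap_apply, kap_apply, h4, h4, h4, Finset.sum_mul]
      refine Finset.sum_congr rfl fun l _ => ?_
      rw [Finset.mul_sum, Finset.sum_eq_single l]
      · rw [smul_mul_smul_comm, (h1 l).1]
        rfl
      · intro l' _ hl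
        rw [smul_mul_smul_comm, h2 l l' (Ne.symm hl), smul_zero]
      · intro h
        exact absurd (Finset.mem_univ l) h
  · intro g
    rw [kap_apply]
    unfold kapf
    have e1 : (k3 : M3).1.1 = 0 := rfl
    have e2 : (k3 : M3).1.2 = 1 := rfl
    rw [e1, e2, norm_zero, neg_zero, s1_one, ← smul_add, pp_add_pm]
  · intro x
    obtain ⟨J, lam, p, h1, h2, h3, h4⟩ := dia x
    exact ⟨J, lam, p, h1, h2, h3, fun g => by rw [kap_apply, h4]⟩

end Pool.Agent.FPS
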