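import Pool.Agent.FPS.Targets6
import Pool.Agent.FPZ.Targets3

set_option autoImplicit false

/-!
# FPS, target KHM: discretisation of a homotopy in the coefficient map
-/

open scoped Classical
open MeasureTheory Pool.Agent.FPZ

noncomputable section

namespace Pool.Agent.FPS

namespace KHM_

theorem norm_le_sum {n : Type} [Fintype n] (y : EuclideanSpace ℂ n) :
    ‖y‖ ≤ ∑ i, ‖y i‖ := by
  rw [EuclideanSpace.norm_eq]
  apply Real.sqrt_le_iff.mpr
  refine ⟨Finset.sum_nonneg fun i _ => norm_nonneg _, ?_⟩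
  exact Finset.sum_sq_le_sq_sum_of_nonneg (fun i _ => norm_nonneg _)

theorem opn_le {n : Type} [Fintype n] (M : Matrix n n ℂ) :
    opn M ≤ ∑ i, ∑ j, ‖M i j‖ := by
  unfold opn
  refine ContinuousLinearMap.opNorm_le_bound _
    (Finset.sum_nonneg fun i _ => Finset.sum_nonneg fun j _ => norm_nonneg _) ?_
  intro x
  refine (norm_le_sum _).trans ?_
  rw [Finset.sum_mul]
  refine Finset.sum_le_sum fun i _ => ?_
  have h : (Matrix.toEuclideanCLM (n := n) (𝕜 := ℂ) M x) i = ∑ j, M i j * x j := by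
    rw [Matrix.ofLp_toEuclideanCLM]
    rfl
  rw [h, Finset.sum_mul]
  refine (norm_sum_le _ _).trans (Finset.sum_le_sum fun j _ => ?_)
  rw [norm_mul]
  exact mul_le_mul_of_nonneg_left (PiLp.norm_apply_le x j) (norm_nonneg _)

end KHM_

theorem p_KHM (h : T_HTP) : T_KHM := by
  intro K _ _ r κ c F' ε' hε hc
  have hr : (0 : ℝ) < (r : ℝ) ^ 2 + 1 := by positivity
  obtain ⟨m, fi, h0, hm, hF⟩ := h K c
    (F'.biUnion fun g => (Finset.univ : Finset (Fin r × Fin r)).image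
      fun p => ent (κ g) p.1 p.2) (ε' / ((r : ℝ) ^ 2 + 1)) (by positivity) hc
  refine ⟨m, fi, h0, hm, ?_⟩
  intro g hg i hi x
  refine (KHM_.opn_le _).trans ?_
  have h1 : ∀ a b : Fin r, ‖(κ g (fi i x) - κ g (fi (i + 1) x)) a b‖ ≤
      ε' / ((r : ℝ) ^ 2 + 1) := by
    intro a b
    have h2 := hF (ent (κ g) a b) (by
      rw [Finset.mem_biUnion]
      refine ⟨g, hg, ?_⟩
      rw [Finset.mem_image]
      exact ⟨(a, b), Finset.mem_univ _, rfl⟩) i hi x
    exact h2
  calc ∑ a, ∑ b, ‖(κ g (fi i x) - κ g (fi (i + 1) x)) a b‖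
      ≤ ∑ _a : Fin r, ∑ _b : Fin r, ε' / ((r : ℝ) ^ 2 + 1) :=
        Finset.sum_le_sum fun a _ => Finset.sum_le_sum fun b _ => h1 a b
    _ = (r : ℝ) ^ 2 * (ε' / ((r : ℝ) ^ 2 + 1)) := by
        simp only [Finset.sum_const, Finset.card_univ, Fintype.card_fin, nsmul_eq_mul]
        ring
    _ ≤ ε' := by
        rw [mul_div_assoc', div_le_iff₀ hr]
        nlinarith

end Pool.Agent.FPS
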