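import Pool.Agent.FPS.Targets6
import Pool.Agent.FPS.Targets2

set_option autoImplicit false

/-!
# FPS: KPM, movable points for `κ` (helper21)
-/

open scoped Classical
open MeasureTheory Pool.Agent.FPZ

noncomputable section

namespace Pool.Agent.FPS

namespace KPM_

/-- A matrix with entries bounded by `δ` has operator norm at most `n * δ`. -/
theorem opn_le {n : Type} [Fintype n] (M : Matrix n n ℂ) (δ : ℝ) (hδ : 0 ≤ δ)
    (h : ∀ i j, ‖M i j‖ ≤ δ) : opn M ≤ (Fintype.card n : ℝ) * δ := by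
  have hn : (0 : ℝ) ≤ (Fintype.card n : ℝ) * δ := mul_nonneg (Nat.cast_nonneg _) hδ
  refine ContinuousLinearMap.opNorm_le_bound _ hn fun v => ?_
  have h0 : ∀ i, ‖(Matrix.toEuclideanCLM (n := n) (𝕜 := ℂ) M v) i‖ ≤ δ * ∑ j, ‖v j‖ := by
    intro i
    rw [Matrix.ofLp_toEuclideanCLM]
    simp only [Matrix.mulVec, dotProduct]
    refine (norm_sum_le _ _).trans ?_
    rw [Finset.mul_sum]
    refine Finset.sum_le_sum fun j _ => ?_
    rw [norm_mul]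
    exact mul_le_mul_of_nonneg_right (h i j) (norm_nonneg _)
  have h1 : (∑ j, ‖v j‖) ^ 2 ≤ (Fintype.card n : ℝ) * ‖v‖ ^ 2 := by
    rw [EuclideanSpace.norm_sq_eq]
    have := sq_sum_le_card_mul_sum_sq (s := (Finset.univ : Finset n)) (f := fun j => ‖v j‖)
    simpa using this
  have h2 : ‖Matrix.toEuclideanCLM (n := n) (𝕜 := ℂ) M v‖ ^ 2
      ≤ ((Fintype.card n : ℝ) * δ * ‖v‖) ^ 2 := by
    rw [EuclideanSpace.norm_sq_eq]
    calc ∑ i, ‖(Matrix.toEuclideanCLM (n := n) (𝕜 := ℂ) M v) i‖ ^ 2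
        ≤ ∑ _i : n, (δ * ∑ j, ‖v j‖) ^ 2 :=
          Finset.sum_le_sum fun i _ => pow_le_pow_left₀ (norm_nonneg _) (h0 i) 2
      _ = (Fintype.card n : ℝ) * (δ ^ 2 * (∑ j, ‖v j‖) ^ 2) := by
          rw [Finset.sum_const, Finset.card_univ, nsmul_eq_mul, mul_pow]
      _ ≤ (Fintype.card n : ℝ) * (δ ^ 2 * ((Fintype.card n : ℝ) * ‖v‖ ^ 2)) :=
          mul_le_mul_of_nonneg_left (mul_le_mul_of_nonneg_left h1 (sq_nonneg _))
            (Nat.cast_nonneg _)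
      _ = ((Fintype.card n : ℝ) * δ * ‖v‖) ^ 2 := by ring
  exact le_of_sq_le_sq h2 (mul_nonneg hn (norm_nonneg v))

end KPM_

/-- KPM: movable points for `κ`. -/
theorem p_KPM (h_PTC : T_PTC) : T_KPM := by
  intro K _ _ _ k₀ r κ F' ε' hε
  set F : Finset C(K, ℂ) :=
    F'.biUnion fun g => Finset.univ.image fun p : Fin r × Fin r => ent (κ g) p.1 p.2 with hF
  have hr : (0 : ℝ) < (r : ℝ) ^ 2 + 1 := by positivity
  obtain ⟨m, hm⟩ := h_PTC K k₀ F (ε' / ((r : ℝ) ^ 2 + 1)) (div_pos hε hr)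
  refine ⟨m, fun x => ?_⟩
  obtain ⟨w, hw0, hwm, hw⟩ := hm x
  refine ⟨w, hw0, hwm, fun l hl g hg => ?_⟩
  have h1 : ∀ i j, ‖(κ g (w l) - κ g (w (l + 1))) i j‖ ≤ ε' / ((r : ℝ) ^ 2 + 1) := by
    intro i j
    refine hw l hl (ent (κ g) i j) ?_
    rw [hF, Finset.mem_biUnion]
    exact ⟨g, hg, Finset.mem_image.2 ⟨(i, j), Finset.mem_univ _, rfl⟩⟩
  refine (KPM_.opn_le _ _ (div_pos hε hr).le h1).trans ?_
  rw [Fintype.card_fin, mul_div_assoc', div_le_iff₀ hr]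
  have h2 : (r : ℝ) ≤ (r : ℝ) ^ 2 + 1 := by nlinarith [sq_nonneg ((r : ℝ) - 1)]
  nlinarith

end Pool.Agent.FPS
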