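import Pool.Agent.FPS.Targets5
import Pool.Agent.FPS.Targets1
import Pool.Agent.FPS.P_AMP

set_option autoImplicit false

/-!
# FPS: LK3, the chain of amplifications that starts with id plus points (helper12)
-/

open scoped Classical
open MeasureTheory Pool.Agent.FPZ

noncomputable section

namespace Pool.Agent.FPS

namespace LK3_

open AMP_

variable {n A : Type} [Fintype n] [CStarAlgebra A] {E : A} {τ : n → A}

/-- the isometry with the coefficients `ζ` -/
def T (τ : n → A) (ζ : n → ℂ) : A := ∑ a, ζ a • τ a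

lemma star_T (τ : n → A) (ζ : n → ℂ) : star (T τ ζ) = ∑ a, star (ζ a) • star (τ a) := by
  unfold T
  rw [star_sum]
  exact Finset.sum_congr rfl fun a _ => star_smul _ _

lemma T_iso (h : PI E τ) (ζ : n → ℂ) (hζ : ∑ a, ‖ζ a‖ ^ 2 = 1) :
    star (T τ ζ) * T τ ζ = E := by
  rw [star_T]
  unfold T
  rw [Finset.sum_mul]
  have h1 : ∀ a, star (ζ a) • star (τ a) * ∑ b, ζ b • τ b = ((‖ζ a‖ ^ 2 : ℝ) : ℂ) • E := by
    intro a
    rw [Finset.mul_sum, Finset.sum_eq_single a]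
    · rw [smul_mul_smul_comm, h.1 a]
      congr 1
      have h2 : star (ζ a) * ζ a = ((Complex.normSq (ζ a) : ℝ) : ℂ) := by
        rw [Complex.star_def]
        exact Complex.normSq_eq_conj_mul_self.symm
      rw [h2, Complex.normSq_eq_norm_sq]
    · intro b _ hb
      rw [smul_mul_smul_comm, h.2 a b (Ne.symm hb), smul_zero]
    · intro h1
      exact absurd (Finset.mem_univ a) h1
  rw [Finset.sum_congr rfl fun a _ => h1 a, ← Finset.sum_smul, ← Complex.ofReal_sum, hζ,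
    Complex.ofReal_one, one_smul]

lemma Q_T (hE : IsStarProjection E) (h : PI E τ) (ζ : n → ℂ) : Q τ * T τ ζ = T τ ζ := by
  unfold T
  rw [Finset.mul_sum]
  refine Finset.sum_congr rfl fun a _ => ?_
  rw [mul_smul_comm, Q_mul hE h a]

lemma T_mul_star (τ : n → A) (ζ : n → ℂ) (x : A) :
    T τ ζ * x * star (T τ ζ) = ∑ a, ∑ b, (ζ a * star (ζ b)) • (τ a * x * star (τ b)) := by
  rw [star_T]
  unfold T
  rw [Finset.sum_mul, Finset.sum_mul]
  refine Finset.sum_congr rfl fun a _ => ?_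
  rw [Finset.mul_sum]
  refine Finset.sum_congr rfl fun b _ => ?_
  rw [smul_mul_assoc, smul_mul_assoc, mul_smul_comm, smul_smul]

lemma ah_mono {K : Type} [TopologicalSpace K] [CompactSpace K] {H : Finset C(K, ℂ)}
    {δ δ' : ℝ} {L : C(K, ℂ) → A} (h : AH H δ L) (hδ : δ ≤ δ') : AH H δ' L :=
  ⟨h.add, h.smul, h.one, h.str, h.pos, fun f hf g hg => (h.mul f hf g hg).trans hδ⟩

lemma amp0 {K : Type} [TopologicalSpace K] (k₀ : K) (L : C(K, ℂ) → A)
    (Ψ : C(K, ℂ) → C(K, Matrix n n ℂ)) (ζ : n → ℂ)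
    (hΨ : ∀ f x a b, Ψ f x a b = f x * (ζ a * star (ζ b)) +
      f k₀ * ((1 : Matrix n n ℂ) a b - ζ a * star (ζ b)))
    (hadd : ∀ f g, L (f + g) = L f + L g) (hsmul : ∀ (t : ℂ) f, L (t • f) = t • L f)
    (hone : L 1 = 1) (f : C(K, ℂ)) :
    amp k₀ τ L Ψ f = T τ ζ * L f * star (T τ ζ) + f k₀ • (1 - T τ ζ * star (T τ ζ)) := by
  have h1 : ∀ a b, ent (Ψ f) a b = (ζ a * star (ζ b)) • f +
      (f k₀ * ((1 : Matrix n n ℂ) a b - ζ a * star (ζ b))) • (1 : C(K, ℂ)) := by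
    intro a b
    ext x
    show Ψ f x a b = (ζ a * star (ζ b)) * f x +
      (f k₀ * ((1 : Matrix n n ℂ) a b - ζ a * star (ζ b))) * 1
    rw [hΨ, mul_one, mul_comm (f x)]
  have h2 : ∀ a b, τ a * L (ent (Ψ f) a b) * star (τ b) =
      (ζ a * star (ζ b)) • (τ a * L f * star (τ b)) +
      (f k₀ * ((1 : Matrix n n ℂ) a b - ζ a * star (ζ b))) • (τ a * star (τ b)) := by
    intro a b
    rw [h1, hadd, hsmul, hsmul, hone, mul_add, add_mul, mul_smul_comm, smul_mul_assoc,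
      mul_smul_comm, smul_mul_assoc, mul_one]
  have h3 : ∑ a, ∑ b, (1 : Matrix n n ℂ) a b • (τ a * star (τ b)) = Q τ := by
    unfold Q
    refine Finset.sum_congr rfl fun a _ => ?_
    rw [Finset.sum_eq_single a]
    · rw [Matrix.one_apply_eq, one_smul]
    · intro b _ hb
      rw [Matrix.one_apply_ne (Ne.symm hb), zero_smul]
    · intro h
      exact absurd (Finset.mem_univ a) h
  have h4 : T τ ζ * star (T τ ζ) = ∑ a, ∑ b, (ζ a * star (ζ b)) • (τ a * star (τ b)) := by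
    have h5 := T_mul_star τ ζ 1
    simp only [mul_one] at h5
    exact h5
  have h5 : ∑ a, ∑ b, (f k₀ * ((1 : Matrix n n ℂ) a b - ζ a * star (ζ b))) •
      (τ a * star (τ b)) = f k₀ • (Q τ - T τ ζ * star (T τ ζ)) := by
    rw [h4, ← h3, smul_sub, Finset.smul_sum, Finset.smul_sum, ← Finset.sum_sub_distrib]
    refine Finset.sum_congr rfl fun a _ => ?_
    rw [Finset.smul_sum, Finset.smul_sum, ← Finset.sum_sub_distrib]
    refine Finset.sum_congr rfl fun b _ => ?_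
    rw [smul_smul, smul_smul, ← sub_smul, mul_sub]
  show ∑ a, ∑ b, τ a * L (ent (Ψ f) a b) * star (τ b) + f k₀ • (1 - Q τ) = _
  rw [T_mul_star]
  have h6 : ∑ a, ∑ b, τ a * L (ent (Ψ f) a b) * star (τ b) =
      ∑ a, ∑ b, (ζ a * star (ζ b)) • (τ a * L f * star (τ b)) +
      f k₀ • (Q τ - T τ ζ * star (T τ ζ)) := by
    rw [← h5, ← Finset.sum_add_distrib]
    refine Finset.sum_congr rfl fun a _ => ?_
    rw [← Finset.sum_add_distrib]
    exact Finset.sum_congr rfl fun b _ => h2 a b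
  rw [h6, add_assoc, ← smul_add]
  congr 2
  abel

end LK3_

open AMP_ LK3_ in
/-- LK3 -/
theorem p_LK3 (h_AMP : T_AMP) (h_AMC : T_AMC) (h_CNC : T_CNC) : T_LK3 := by
  intro K n A _ _ _ _ _ φ k₀ E τ H F G δ δΨ δ₂ ε c m L Ψ ζ hφ hE hτ hL hδΨ hδ₂ hε hζ hΨ hG
    hstep hΨ0 hadd hsmul hone hδ hc
  obtain ⟨w, hw, hwE⟩ := h_CNC A φ hφ E (T τ ζ) hE (T_iso hτ ζ hζ)
  have hA : ∀ i ≤ m, AH H δ (amp k₀ τ L (Ψ i)) ∧ Spt k₀ (Q τ) (amp k₀ τ L (Ψ i)) := by
    intro i hi
    obtain ⟨h1, h2, -⟩ := h_AMP K K n A k₀ k₀ E τ H G δΨ δ₂ L (Ψ i) hE hτ hL (hΨ i hi) hδΨ hδ₂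
      (hG i hi)
    exact ⟨ah_mono h1 hδ, h2⟩
  have hφQ : φ (Q τ) = Fintype.card n * φ E := by
    unfold Q
    rw [map_sum, Finset.sum_congr rfl fun a _ => ?_, Finset.sum_const, Finset.card_univ,
      nsmul_eq_mul]
    rw [hφ.ts.tr, hτ.1 a]
  refine ⟨Q τ, fun i => amp k₀ τ L (Ψ i), w, 1, Q_proj hE hτ, ?_, hA, ?_, hw, ?_, ?_, ?_, ?_,
    ?_⟩
  · have h1 : ((Fintype.card n : ℂ) * φ E).re = Fintype.card n * (φ E).re := by simp
    rw [hφQ, h1]
    exact hc
  · intro i hi f hf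
    exact h_AMC K K n A k₀ k₀ E τ G δ₂ ε L (Ψ i) (Ψ (i + 1)) f hE hτ hL hε (hstep i hi f hf)
  · exact ⟨by rw [star_one, one_mul], by rw [star_one, one_mul]⟩
  · rw [hwE]
    exact Q_T hE hτ ζ
  · show Q τ * (1 * Q τ) = 1 * Q τ
    rw [one_mul]
    exact (Q_proj hE hτ).isIdempotentElem
  · intro f
    have h1 : E * star w = star (T τ ζ) := by
      rw [← hwE, star_mul, (show star E = E from hE.isSelfAdjoint)]
    have h2 : w * (E * L f * E) * star w = T τ ζ * L f * star (T τ ζ) := by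
      calc w * (E * L f * E) * star w = (w * E) * L f * (E * star w) := by
            simp only [mul_assoc]
        _ = T τ ζ * L f * star (T τ ζ) := by rw [hwE, h1]
    have h3 : w * (1 - E) * star w = 1 - T τ ζ * star (T τ ζ) := by
      rw [mul_sub, mul_one, sub_mul, hw.2]
      congr 1
      calc w * E * star w = w * (E * E) * star w := by
            rw [(show E * E = E from hE.isIdempotentElem)]
        _ = (w * E) * (E * star w) := by simp only [mul_assoc]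
        _ = T τ ζ * star (T τ ζ) := by rw [hwE, h1]
    show amp k₀ τ L (Ψ 0) f = w * (E * L f * E + f k₀ • (1 - E)) * star w
    rw [amp0 k₀ L (Ψ 0) ζ hΨ0 hadd hsmul hone f, mul_add, add_mul, h2, mul_smul_comm,
      smul_mul_assoc, h3]
  · intro f
    rw [one_mul, star_one, mul_one]

end Pool.Agent.FPS
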