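import Pool.Agent.FPS.Targets6

set_option autoImplicit false

/-!
# FPS, MAP: images of the data under a homomorphism
-/

open scoped Classical
open MeasureTheory Pool.Agent.FPZ

noncomputable section

namespace Pool.Agent.FPS

namespace MAP_

variable {D D' : Type} [CStarAlgebra D] [CStarAlgebra D']

/-- homomorphisms are contractive -/
lemma nle (ψ : D →⋆ₐ[ℂ] D') (a : D) : ‖ψ a‖ ≤ ‖a‖ := NonUnitalStarAlgHom.norm_apply_le ψ a

/-- images of projections are projections -/
lemma prj (ψ : D →⋆ₐ[ℂ] D') {p : D} (h : IsStarProjection p) : IsStarProjection (ψ p) := by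
  refine ⟨?_, ?_⟩
  · have := h.1
    unfold IsIdempotentElem at this ⊢
    rw [← map_mul, this]
  · have h2 : star p = p := h.2
    change star (ψ p) = ψ p
    rw [← map_star, h2]

end MAP_

open MAP_ in
/-- MAP: images of the data under a homomorphism. -/
theorem p_MAP : T_MAP := by
  intro K K' D D' S _ _ _ _ _ ψ φ φ' hφ
  refine ⟨?_, ?_⟩
  · intro G ε c L K₀ z g Q h
    have hsum : (1 : D') - ∑ k, ψ (Q k) = ψ (1 - ∑ k, Q k) := by
      simp [map_sub, map_sum]
    refine ⟨h.rng, h.dis, h.osc, ?_, ⟨?_, ?_, ?_⟩, ?_, ?_⟩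
    · intro k
      rw [← map_mul, h.ada k]
    · intro j
      exact prj ψ (h.dec.1 j)
    · intro i j hij
      rw [← map_mul, h.dec.2.1 i j hij, map_zero]
    · intro f hf
      refine le_trans ?_ (h.dec.2.2 f hf)
      rw [hsum]
      refine le_trans (le_of_eq ?_) (nle ψ _)
      congr 1
      simp only [map_sub, map_add, map_mul, map_sum, map_smul, map_one]
    · intro f hf
      refine le_trans ?_ (h.com f hf)
      rw [hsum]
      refine le_trans (le_of_eq ?_) (nle ψ _)
      congr 1
      simp only [map_sub, map_mul, map_sum, map_one]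
    · rw [hsum, hφ]
      exact h.tra
  · intro ι₁ k₀ k γ E₁ v r' z η h
    refine ⟨prj ψ h.pre, ⟨?_, ?_⟩, fun s => prj ψ (h.prr s), ?_, ?_, ?_⟩
    · intro a
      rw [← map_star, ← map_mul, h.piv.1 a]
    · intro a b hab
      rw [← map_star, ← map_mul, h.piv.2 a b hab, map_zero]
    · intro s s' hs
      rw [← map_mul, h.orr s s' hs, map_zero]
    · intro s a
      rw [← map_mul, h.orv s a, map_zero]
    · intro f
      rw [h.eta f]
      simp only [amp, map_add, map_sum, map_mul, map_sub, map_smul, map_one, map_star]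

end Pool.Agent.FPS
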