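import Pool.Agent.FPS.Targets7

set_option autoImplicit false

/-!
# NS3: the surface measure of the three-sphere
-/

open scoped Classical unitInterval Pointwise
open MeasureTheory Pool.Agent.FPZ

noncomputable section

namespace Pool.Agent.FPS

namespace NS3_

/-- a measurable set in `ℝ⁴` all of whose lines in a coordinate direction are finite is null -/
theorem slice (i : Fin 4) (S : Set (Fin 4 → ℝ)) (hS : MeasurableSet S)
    (h : ∀ y : Fin 3 → ℝ, {t : ℝ | i.insertNth (α := fun _ => ℝ) t y ∈ S}.Finite) :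
    volume S = 0 := by
  have hp := volume_preserving_piFinSuccAbove (fun _ : Fin 4 => ℝ) i
  have hS' : MeasurableSet
      ((MeasurableEquiv.piFinSuccAbove (fun _ : Fin 4 => ℝ) i).symm ⁻¹' S) :=
    (MeasurableEquiv.measurable _) hS
  rw [← (hp.symm _).measure_preimage hS.nullMeasurableSet, Measure.volume_eq_prod,
    Measure.prod_apply_symm hS']
  rw [lintegral_eq_zero_iff' (measurable_measure_prodMk_right hS').aemeasurable]
  refine Filter.Eventually.of_forall fun y => ?_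
  exact (h y).measure_zero volume

/-- the cone over a level set of the last coordinate is null -/
theorem cone (a : ℝ) : volume {x : EuclideanSpace ℝ (Fin 4) |
    x 3 ^ 2 = a ^ 2 * (x 0 ^ 2 + x 1 ^ 2 + x 2 ^ 2 + x 3 ^ 2)} = 0 := by
  have hp := (EuclideanSpace.volume_preserving_symm_measurableEquiv_toLp (Fin 4))
  have hm : MeasurableSet {x : Fin 4 → ℝ |
      x 3 ^ 2 = a ^ 2 * (x 0 ^ 2 + x 1 ^ 2 + x 2 ^ 2 + x 3 ^ 2)} :=
    measurableSet_eq_fun (by fun_prop) (by fun_prop)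
  have h1 := hp.measure_preimage hm.nullMeasurableSet
  have h2 : volume {x : Fin 4 → ℝ |
      x 3 ^ 2 = a ^ 2 * (x 0 ^ 2 + x 1 ^ 2 + x 2 ^ 2 + x 3 ^ 2)} = 0 := by
    by_cases ha : a = 0
    · refine slice 3 _ hm fun y => ?_
      refine (Set.finite_singleton (0 : ℝ)).subset fun t ht => ?_
      have h3 : t ^ 2 = a ^ 2 * (y 0 ^ 2 + y 1 ^ 2 + y 2 ^ 2 + t ^ 2) := ht
      rw [ha] at h3
      have h4 : t ^ 2 = 0 := by linarith
      exact pow_eq_zero_iff (two_ne_zero) |>.1 h4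
    · refine slice 0 _ hm fun y => ?_
      set c : ℝ := (y 2 ^ 2 - a ^ 2 * (y 0 ^ 2 + y 1 ^ 2 + y 2 ^ 2)) / a ^ 2 with hc
      refine (Set.toFinite ({Real.sqrt c, -Real.sqrt c} : Set ℝ)).subset fun t ht => ?_
      have h3 : y 2 ^ 2 = a ^ 2 * (t ^ 2 + y 0 ^ 2 + y 1 ^ 2 + y 2 ^ 2) := ht
      have ha2 : a ^ 2 ≠ 0 := pow_ne_zero 2 ha
      have h4 : t ^ 2 = c := by
        rw [hc, eq_div_iff ha2]
        linarith
      have h5 : Real.sqrt c = |t| := by rw [← h4, Real.sqrt_sq_eq_abs]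
      rcases abs_choice t with h6 | h6
      · left
        rw [h5, h6]
      · right
        rw [Set.mem_singleton_iff, h5, h6, neg_neg]
  rw [h2] at h1
  exact h1

theorem level (a : ℝ) : (volume : Measure (EuclideanSpace ℝ (Fin 4))).toSphere
    {x : S3 | (x : EuclideanSpace ℝ (Fin 4)) 3 = a} = 0 := by
  have hm : MeasurableSet {x : S3 | (x : EuclideanSpace ℝ (Fin 4)) 3 = a} := by
    refine measurableSet_eq_fun ?_ measurable_const
    have : Continuous fun x : S3 => (x : EuclideanSpace ℝ (Fin 4)) 3 := by fun_prop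
    exact this.measurable
  rw [Measure.toSphere_apply' _ hm]
  refine mul_eq_zero_of_right _ ?_
  refine measure_mono_null ?_ (cone a)
  rintro _ ⟨r, hr, _, ⟨x, hx, rfl⟩, rfl⟩
  have h1 : (x : EuclideanSpace ℝ (Fin 4)) 3 = a := hx
  have h2 : ‖(x : EuclideanSpace ℝ (Fin 4))‖ ^ 2 = 1 := by
    rw [mem_sphere_zero_iff_norm.1 x.2]
    norm_num
  rw [EuclideanSpace.norm_sq_eq, Fin.sum_univ_four] at h2
  simp only [Real.norm_eq_abs, sq_abs] at h2
  simp only [Set.mem_ofPred_eq, PiLp.smul_apply, smul_eq_mul]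
  have h3 : (r * (x : EuclideanSpace ℝ (Fin 4)) 0) ^ 2 +
      (r * (x : EuclideanSpace ℝ (Fin 4)) 1) ^ 2 +
      (r * (x : EuclideanSpace ℝ (Fin 4)) 2) ^ 2 + (r * (x : EuclideanSpace ℝ (Fin 4)) 3) ^ 2 =
      r ^ 2 := by
    linear_combination r ^ 2 * h2
  rw [h3, h1]
  ring

end NS3_

open NS3_ in
theorem p_NS3 : T_NS3 := by
  have hne : (volume : Measure (EuclideanSpace ℝ (Fin 4))).toSphere ≠ 0 :=
    Measure.toSphere_ne_zero _
  have hne' : (volume : Measure (EuclideanSpace ℝ (Fin 4))).toSphere Set.univ ≠ 0 := by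
    rwa [Ne, Measure.measure_univ_eq_zero]
  refine ⟨⟨?_⟩, ⟨fun U hU hne2 => ?_⟩, fun a => ?_⟩
  · rw [nS, Measure.smul_apply, smul_eq_mul]
    exact ENNReal.inv_mul_cancel hne' (measure_ne_top _ _)
  · rw [nS, Measure.smul_apply, smul_eq_mul]
    refine mul_ne_zero (ENNReal.inv_ne_zero.2 (measure_ne_top _ _)) ?_
    exact hU.measure_ne_zero _ hne2
  · rw [nS, Measure.smul_apply, smul_eq_mul, level a, mul_zero]

end Pool.Agent.FPS
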