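import Pool.Agent.FPS.Targets7
import Pool.Agent.FPZ.P_CIR

set_option autoImplicit false

/-!
# FPS NU1: the measure nu1 (helper53)
-/

open scoped Classical unitInterval
open MeasureTheory Pool.Agent.FPZ

noncomputable section

namespace Pool.Agent.FPS

namespace NU1_

theorem eq_nH (h_NHI : T_NHI) : nHX S1 = nH (Metric.sphere (0 : ℂ) 1) :=
  (h_NHI.1 _ Metric.isClosed_sphere.measurableSet).symm

theorem integ (μ : Measure S1) [IsFiniteMeasure μ] (g : C(S1, ℂ)) : Integrable (fun x => g x) μ :=
  g.continuous.integrable_of_hasCompactSupport (HasCompactSupport.of_compactSpace g)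

end NU1_

open NU1_ in
theorem p_NU1 (h_SPC : T_SPC) (h_NHI : T_NHI) (h_CIR : T_CIR) : T_NU1 := by
  have hprob : IsProbabilityMeasure (nHX S1) := by
    rw [eq_nH h_NHI]
    exact h_SPC.1.2.1
  have hopen : (nHX S1).IsOpenPosMeasure := by
    rw [eq_nH h_NHI]
    exact h_SPC.1.2.2
  refine ⟨⟨?_⟩, ⟨?_⟩, ?_, ?_⟩
  · unfold nu1
    rw [Measure.add_apply, Measure.smul_apply, Measure.smul_apply, measure_univ, measure_univ,
      smul_eq_mul, mul_one, ENNReal.inv_two_add_inv_two]
  · intro U hU hne h0
    have h1 : (2⁻¹ : ENNReal) * (nHX S1) U ≤ nu1 U := by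
      unfold nu1
      rw [Measure.add_apply, Measure.smul_apply, Measure.smul_apply, smul_eq_mul, smul_eq_mul]
      exact le_add_self
    rw [h0, nonpos_iff_eq_zero, mul_eq_zero] at h1
    rcases h1 with h1 | h1
    · simp at h1
    · exact hU.measure_ne_zero (nHX S1) hne h1
  · intro g
    unfold nu1
    have h2 : ((2⁻¹ : ENNReal)).toReal = 1 / 2 := by simp
    rw [integral_add_measure, integral_smul_measure, integral_smul_measure, integral_dirac, h2]
    · simp only [Complex.real_smul]
      push_cast
      ring
    · exact (integ (Measure.dirac 1) g).smul_measure (by simp)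
    · exact (integ (nHX S1) g).smul_measure (by simp)
  · intro g
    rw [eq_nH h_NHI, ← h_CIR, integral_map CIR_.cont.aemeasurable
      g.continuous.aestronglyMeasurable]
    rw [intervalIntegral.integral_of_le zero_le_one, ← integral_Icc_eq_integral_Ioc]
    exact integral_subtype measurableSet_Icc (fun s : ℝ => g (cpt s))

end Pool.Agent.FPS
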