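import Pool.Agent.FPS.Targets5

set_option autoImplicit false

open scoped Classical
open MeasureTheory Pool.Agent.FPZ

noncomputable section

namespace Pool.Agent.FPS

namespace OCR_

variable {A : Type} [CStarAlgebra A] {r : ℕ} {e₀ e : A} {s : Fin r → A}

theorem e_mul (h0 : IsStarProjection e₀) (he : IsStarProjection e) (h : e₀ * e = e) :
    e * e₀ = e := by
  have h1 : star (e₀ * e) = star e := congrArg star h
  rwa [star_mul, he.isSelfAdjoint.star_eq, h0.isSelfAdjoint.star_eq] at h1

theorem pi (he : IsStarProjection e) (h : e₀ * e = e)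
    (hs : PI e₀ s) : PI e (fun i => s i * e) := by
  have hee : e * e = e := he.isIdempotentElem.eq
  refine ⟨fun a => ?_, fun a b hab => ?_⟩
  · show star (s a * e) * (s a * e) = e
    rw [star_mul, he.isSelfAdjoint.star_eq, mul_assoc, ← mul_assoc (star (s a)), hs.1 a, h, hee]
  · show star (s a * e) * (s b * e) = 0
    rw [star_mul, he.isSelfAdjoint.star_eq, mul_assoc, ← mul_assoc (star (s a)), hs.2 a b hab,
      zero_mul, mul_zero]

theorem E_mul (h0 : IsStarProjection e₀) (he : IsStarProjection e) (h : e₀ * e = e)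
    (hs : PI e₀ s) (a : Fin r) :
    (∑ i, s i * e * star (s i * e)) * s a = s a * e := by
  rw [Finset.sum_mul, Finset.sum_eq_single a]
  · have h1 : s a * e * star (s a * e) * s a = s a * (e * (e * (star (s a) * s a))) := by
      rw [star_mul, he.isSelfAdjoint.star_eq]
      simp only [mul_assoc]
    rw [h1, hs.1 a, e_mul h0 he h, he.isIdempotentElem.eq]
  · intro b _ hb
    have h1 : s b * e * star (s b * e) * s a = s b * (e * (e * (star (s b) * s a))) := by
      rw [star_mul, he.isSelfAdjoint.star_eq]
      simp only [mul_assoc]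
    rw [h1, hs.2 b a hb, mul_zero, mul_zero, mul_zero]
  · intro h
    exact absurd (Finset.mem_univ a) h

theorem E_star (τ : Fin r → A) :
    star (∑ i, τ i * star (τ i)) = ∑ i, τ i * star (τ i) := by
  rw [star_sum]
  exact Finset.sum_congr rfl fun i _ => by rw [star_mul, star_star]

end OCR_

open OCR_

theorem p_OCR : T_OCR := by
  intro K A _ _ r e₀ e s L κ h0 he h hs
  have hee : e * e = e := he.isIdempotentElem.eq
  have hpi := pi he h hs
  have hE := E_mul h0 he h hs
  have hst : star (∑ i, s i * e * star (s i * e)) = ∑ i, s i * e * star (s i * e) :=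
    E_star (fun i => s i * e)
  have hid : (∑ i, s i * e * star (s i * e)) * (∑ i, s i * e * star (s i * e)) =
      ∑ i, s i * e * star (s i * e) := by
    conv_lhs => rw [Finset.mul_sum]
    refine Finset.sum_congr rfl fun i _ => ?_
    rw [← mul_assoc, ← mul_assoc, hE i, mul_assoc (s i), hee]
  refine ⟨hpi, ⟨hid, hst⟩, fun g => ?_⟩
  have hE' : ∀ b, star (s b) * (∑ i, s i * e * star (s i * e)) = star (s b * e) := by
    intro b
    have h1 := congrArg star (hE b)
    rwa [star_mul, hst] at h1
  obtain ⟨E, hEd⟩ : ∃ E : A, E = ∑ i, s i * e * star (s i * e) := ⟨_, rfl⟩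
  rw [← hEd] at hid hst
  simp only [← hEd] at hE hE' ⊢
  have h2 : (∑ a, s a * star (s a)) * E = E := by
    rw [Finset.sum_mul]
    conv_rhs => rw [hEd]
    refine Finset.sum_congr rfl fun i _ => ?_
    rw [mul_assoc, hE' i, star_mul, he.isSelfAdjoint.star_eq, ← mul_assoc, ← mul_assoc (s i * e),
      mul_assoc (s i) e e, hee]
  have h3 : E * (1 - ∑ a, s a * star (s a)) * E = 0 := by
    rw [mul_assoc, sub_mul, one_mul, h2, sub_self, mul_zero]
  unfold amp
  rw [mul_add, add_mul, mul_smul_comm, smul_mul_assoc, h3, smul_zero, add_zero, Finset.mul_sum,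
    Finset.sum_mul]
  refine Finset.sum_congr rfl fun a _ => ?_
  rw [Finset.mul_sum, Finset.sum_mul]
  refine Finset.sum_congr rfl fun b _ => ?_
  rw [← hE' b, ← hE a]
  simp only [mul_assoc]

end Pool.Agent.FPS
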