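import Pool.Agent.FPS.Targets5
import Pool.Agent.FPZ.P_VCO

set_option autoImplicit false

/-!
# FPS: OMG, the homomorphism `ω` (helper27)
-/

open scoped Classical
open MeasureTheory Pool.Agent.FPZ

noncomputable section

namespace Pool.Agent.FPS

namespace OMG_

variable {K n A : Type} [TopologicalSpace K] [Fintype n] [CStarAlgebra A]

/-- the matrix part of `amp` -/
def mp (s : n → A) (L : C(K, ℂ) → A) (M : n → n → C(K, ℂ)) : A :=
  ∑ a, ∑ b, s a * L (M a b) * star (s b)

/-- the range projection -/
def pr (s : n → A) : A := ∑ a, s a * star (s a)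

omit [Fintype n] in
theorem se' {e : A} (he : IsStarProjection e) {s : n → A} (hs : PI e s) (a : n) :
    s a * e = s a := VCO_.se he (hs.1 a)

omit [Fintype n] in
theorem es' {e : A} (he : IsStarProjection e) {s : n → A} (hs : PI e s) (a : n) :
    e * star (s a) = star (s a) := by
  have h1 := congrArg star (se' he hs a)
  rwa [star_mul, he.isSelfAdjoint.star_eq] at h1

theorem pr_s {e : A} (he : IsStarProjection e) {s : n → A} (hs : PI e s) (b : n) :
    pr s * s b = s b := by
  unfold pr
  rw [Finset.sum_mul, Finset.sum_eq_single b]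
  · rw [mul_assoc, hs.1 b, se' he hs b]
  · intro a _ hab
    rw [mul_assoc, hs.2 a b hab, mul_zero]
  · intro h
    exact absurd (Finset.mem_univ b) h

theorem pr_star (s : n → A) : star (pr s) = pr s := by
  unfold pr
  rw [star_sum]
  refine Finset.sum_congr rfl (fun a _ => ?_)
  rw [star_mul, star_star]

theorem s_pr {e : A} (he : IsStarProjection e) {s : n → A} (hs : PI e s) (b : n) :
    star (s b) * pr s = star (s b) := by
  have h1 := congrArg star (pr_s he hs b)
  rwa [star_mul, pr_star] at h1

theorem pr_pr {e : A} (he : IsStarProjection e) {s : n → A} (hs : PI e s) :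
    pr s * pr s = pr s := by
  conv_lhs => rhs; unfold pr
  rw [Finset.mul_sum]
  unfold pr
  refine Finset.sum_congr rfl (fun a _ => ?_)
  rw [← mul_assoc]
  have := pr_s he hs a
  unfold pr at this
  rw [this]

theorem mp_pr {e : A} (he : IsStarProjection e) {s : n → A} (hs : PI e s) (L : C(K, ℂ) → A)
    (M : n → n → C(K, ℂ)) : mp s L M * (1 - pr s) = 0 := by
  unfold mp
  rw [Finset.sum_mul]
  refine Finset.sum_eq_zero (fun a _ => ?_)
  rw [Finset.sum_mul]
  refine Finset.sum_eq_zero (fun b _ => ?_)
  rw [mul_assoc, mul_sub, mul_one, s_pr he hs, sub_self, mul_zero]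

theorem pr_mp {e : A} (he : IsStarProjection e) {s : n → A} (hs : PI e s) (L : C(K, ℂ) → A)
    (M : n → n → C(K, ℂ)) : (1 - pr s) * mp s L M = 0 := by
  unfold mp
  rw [Finset.mul_sum]
  refine Finset.sum_eq_zero (fun a _ => ?_)
  rw [Finset.mul_sum]
  refine Finset.sum_eq_zero (fun b _ => ?_)
  rw [mul_assoc, ← mul_assoc (1 - pr s), sub_mul, one_mul, pr_s he hs, sub_self, zero_mul]

end OMG_

open OMG_ in
/-- OMG: the homomorphism `ω` -/
theorem p_OMG : T_OMG := by
  intro K A _ _ _ _ _ μ _ φ ι c k₀ r e₀ s κ hφ hκ hE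
  obtain ⟨hval, hpr, hspt, hpi⟩ := hE
  obtain ⟨hhom, hbas, -⟩ := hκ
  have hes : star e₀ = e₀ := hpr.isSelfAdjoint.star_eq
  have hei : e₀ * e₀ = e₀ := hpr.isIdempotentElem.eq
  set L : C(K, ℂ) → A := fun f => ι (f.comp c) with hL
  have Ladd : ∀ f g, L (f + g) = L f + L g := fun f g => by
    show ι ((f + g).comp c) = ι (f.comp c) + ι (g.comp c)
    rw [← map_add]
    rfl
  have Lmul : ∀ f g, L (f * g) = L f * L g := fun f g => by
    show ι ((f * g).comp c) = ι (f.comp c) * ι (g.comp c)
    rw [← map_mul]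
    rfl
  have Lsmul : ∀ (t : ℂ) f, L (t • f) = t • L f := fun t f => by
    show ι ((t • f).comp c) = t • ι (f.comp c)
    rw [← map_smul]
    rfl
  have Lone : L 1 = 1 := by
    show ι ((1 : C(K, ℂ)).comp c) = 1
    rw [← map_one ι]
    rfl
  have Lzero : L 0 = 0 := by
    show ι ((0 : C(K, ℂ)).comp c) = 0
    rw [← map_zero ι]
    rfl
  have Lstar : ∀ f, L (star f) = star (L f) := fun f => by
    show ι ((star f).comp c) = star (ι (f.comp c))
    rw [← map_star]
    rfl
  have Lsum : ∀ (t : Finset (Fin r)) (f : Fin r → C(K, ℂ)), L (∑ i ∈ t, f i) = ∑ i ∈ t, L (f i) := by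
    intro t f
    induction t using Finset.induction_on with
    | empty => rw [Finset.sum_empty, Finset.sum_empty, Lzero]
    | insert a u ha ih => rw [Finset.sum_insert ha, Finset.sum_insert ha, Ladd, ih]
  have hLe1 : ∀ f, L f * (1 - e₀) = f k₀ • (1 - e₀) := hspt
  have hLe2 : ∀ f, (1 - e₀) * L f = f k₀ • (1 - e₀) := fun f => by
    have h1 := congrArg star (hLe1 (star f))
    rw [star_mul, Lstar, star_star, star_smul, star_sub, star_one, hes] at h1
    rw [h1]
    congr 1
    show star ((star f) k₀) = f k₀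
    rw [ContinuousMap.star_apply, star_star]
  have hcom : ∀ f, L f * e₀ = e₀ * L f := fun f => by
    have h1 : L f * e₀ = L f - L f * (1 - e₀) := by rw [mul_sub, mul_one]; abel
    have h2 : e₀ * L f = L f - (1 - e₀) * L f := by rw [sub_mul, one_mul]; abel
    rw [h1, h2, hLe1, hLe2]
  -- the function
  set W : C(S1, ℂ) → A := fun g => mp s L (ent (κ g)) + g 1 • (1 - pr s) with hW
  have hWamp : ∀ g, W g = amp 1 s L κ g := fun g => rfl
  have hent_mul : ∀ f g a b, ent (κ (f * g)) a b = ∑ j, ent (κ f) a j * ent (κ g) j b := by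
    intro f g a b
    ext x
    rw [ContinuousMap.coe_sum, Finset.sum_apply]
    show (κ (f * g) x) a b = ∑ j, (κ f x) a j * (κ g x) j b
    rw [hhom.mul f g x, Matrix.mul_apply]
  have hent_add : ∀ f g a b, ent (κ (f + g)) a b = ent (κ f) a b + ent (κ g) a b := by
    intro f g a b
    ext x
    show (κ (f + g) x) a b = (κ f x) a b + (κ g x) a b
    rw [hhom.add f g]
    rfl
  have hent_smul : ∀ (t : ℂ) f a b, ent (κ (t • f)) a b = t • ent (κ f) a b := by
    intro t f a b
    ext x
    show (κ (t • f) x) a b = t • (κ f x) a b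
    rw [hhom.smul t f]
    rfl
  have hent_star : ∀ f a b, ent (κ (star f)) a b = star (ent (κ f) b a) := by
    intro f a b
    ext x
    show (κ (star f) x) a b = star ((κ f x) b a)
    rw [hhom.str f x]
    rfl
  have hent_one : ∀ a b, ent (κ 1) a b = if a = b then 1 else 0 := by
    intro a b
    ext x
    show (κ 1 x) a b = (if a = b then (1 : C(K, ℂ)) else 0) x
    have h3 : ∀ (D : DecidableEq (Fin r)), (@OfNat.ofNat (Matrix (Fin r) (Fin r) ℂ) 1
        (@One.toOfNat1 (Matrix (Fin r) (Fin r) ℂ) (@Matrix.one (Fin r) ℂ D _ _))) a b =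
        if a = b then 1 else 0 := by
      have h4 : (1 : Matrix (Fin r) (Fin r) ℂ) a b = if a = b then 1 else 0 := Matrix.one_apply
      intro D
      rw [Subsingleton.elim D (instDecidableEqFin r)]
      exact h4
    rw [hhom.one x, h3]
    split_ifs <;> rfl
  have mpadd : ∀ f g, mp s L (ent (κ (f + g))) = mp s L (ent (κ f)) + mp s L (ent (κ g)) := by
    intro f g
    unfold mp
    rw [← Finset.sum_add_distrib]
    refine Finset.sum_congr rfl (fun a _ => ?_)
    rw [← Finset.sum_add_distrib]
    refine Finset.sum_congr rfl (fun b _ => ?_)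
    rw [hent_add, Ladd, mul_add, add_mul]
  have mpsmul : ∀ (t : ℂ) f, mp s L (ent (κ (t • f))) = t • mp s L (ent (κ f)) := by
    intro t f
    unfold mp
    rw [Finset.smul_sum]
    refine Finset.sum_congr rfl (fun a _ => ?_)
    rw [Finset.smul_sum]
    refine Finset.sum_congr rfl (fun b _ => ?_)
    rw [hent_smul, Lsmul, mul_smul_comm, smul_mul_assoc]
  have mpone : mp s L (ent (κ 1)) = pr s := by
    unfold mp pr
    refine Finset.sum_congr rfl (fun a _ => ?_)
    rw [Finset.sum_eq_single a]
    · rw [hent_one, if_pos rfl, Lone, mul_one]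
    · intro b _ hb
      rw [hent_one, if_neg (Ne.symm hb), Lzero, mul_zero, zero_mul]
    · intro h
      exact absurd (Finset.mem_univ a) h
  have mpstar : ∀ f, mp s L (ent (κ (star f))) = star (mp s L (ent (κ f))) := by
    intro f
    unfold mp
    rw [star_sum]
    simp only [star_sum]
    rw [Finset.sum_comm]
    refine Finset.sum_congr rfl (fun a _ => ?_)
    refine Finset.sum_congr rfl (fun b _ => ?_)
    rw [hent_star, Lstar, star_mul, star_mul, star_star, mul_assoc]
  have mpmul : ∀ f g, mp s L (ent (κ (f * g))) = mp s L (ent (κ f)) * mp s L (ent (κ g)) := by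
    intro f g
    have key : ∀ a b : Fin r, (s a * L (ent (κ f) a b) * star (s b)) * mp s L (ent (κ g)) =
        ∑ d, s a * (L (ent (κ f) a b) * L (ent (κ g) b d)) * star (s d) := by
      intro a b
      unfold mp
      rw [Finset.mul_sum, Finset.sum_eq_single b]
      · rw [Finset.mul_sum]
        refine Finset.sum_congr rfl (fun d _ => ?_)
        calc s a * L (ent (κ f) a b) * star (s b) * (s b * L (ent (κ g) b d) * star (s d))
            = s a * L (ent (κ f) a b) * (star (s b) * s b) * L (ent (κ g) b d) * star (s d) := by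
              noncomm_ring
          _ = s a * L (ent (κ f) a b) * (e₀ * L (ent (κ g) b d)) * star (s d) := by
              rw [hpi.1 b]; noncomm_ring
          _ = s a * L (ent (κ f) a b) * (L (ent (κ g) b d)) * (e₀ * star (s d)) := by
              rw [← hcom]; noncomm_ring
          _ = s a * (L (ent (κ f) a b) * L (ent (κ g) b d)) * star (s d) := by
              rw [es' hpr hpi]; noncomm_ring
      · intro j _ hj
        rw [Finset.mul_sum]
        refine Finset.sum_eq_zero (fun d _ => ?_)
        calc s a * L (ent (κ f) a b) * star (s b) * (s j * L (ent (κ g) j d) * star (s d))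
            = s a * L (ent (κ f) a b) * (star (s b) * s j) * L (ent (κ g) j d) * star (s d) := by
              noncomm_ring
          _ = 0 := by rw [hpi.2 b j (Ne.symm hj)]; simp
      · intro h
        exact absurd (Finset.mem_univ b) h
    have h1 : mp s L (ent (κ f)) * mp s L (ent (κ g)) =
        ∑ a, ∑ b, ∑ d, s a * (L (ent (κ f) a b) * L (ent (κ g) b d)) * star (s d) := by
      conv_lhs => lhs; unfold mp
      rw [Finset.sum_mul]
      refine Finset.sum_congr rfl (fun a _ => ?_)
      rw [Finset.sum_mul]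
      refine Finset.sum_congr rfl (fun b _ => ?_)
      exact key a b
    rw [h1]
    conv_lhs => unfold mp
    refine Finset.sum_congr rfl (fun a _ => ?_)
    rw [Finset.sum_comm]
    refine Finset.sum_congr rfl (fun d _ => ?_)
    rw [hent_mul, Lsum, Finset.mul_sum, Finset.sum_mul]
    refine Finset.sum_congr rfl (fun b _ => ?_)
    rw [Lmul]
  have hq : (1 - pr s) * (1 - pr s) = 1 - pr s := by
    have h2 : (1 - pr s) * (1 - pr s) = 1 - pr s - pr s + pr s * pr s := by noncomm_ring
    rw [h2, pr_pr hpr hpi]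
    abel
  have Wone : W 1 = 1 := by
    show mp s L (ent (κ 1)) + (1 : C(S1, ℂ)) 1 • (1 - pr s) = 1
    rw [mpone, ContinuousMap.one_apply, one_smul]
    abel
  have Wmul : ∀ f g, W (f * g) = W f * W g := by
    intro f g
    show mp s L (ent (κ (f * g))) + (f * g) 1 • (1 - pr s) =
      (mp s L (ent (κ f)) + f 1 • (1 - pr s)) * (mp s L (ent (κ g)) + g 1 • (1 - pr s))
    rw [mpmul, add_mul, mul_add, mul_add, mul_smul_comm, mp_pr hpr hpi, smul_zero, add_zero,
      smul_mul_assoc, pr_mp hpr hpi, smul_zero, zero_add, smul_mul_smul_comm, hq]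
    rfl
  have Wadd : ∀ f g, W (f + g) = W f + W g := by
    intro f g
    show mp s L (ent (κ (f + g))) + (f + g) 1 • (1 - pr s) =
      (mp s L (ent (κ f)) + f 1 • (1 - pr s)) + (mp s L (ent (κ g)) + g 1 • (1 - pr s))
    rw [mpadd, ContinuousMap.add_apply, add_smul]
    abel
  have Wsmul : ∀ (t : ℂ) f, W (t • f) = t • W f := by
    intro t f
    show mp s L (ent (κ (t • f))) + (t • f) 1 • (1 - pr s) =
      t • (mp s L (ent (κ f)) + f 1 • (1 - pr s))
    rw [mpsmul, smul_add, ContinuousMap.smul_apply, smul_smul, smul_eq_mul]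
  have Wstar : ∀ f, W (star f) = star (W f) := by
    intro f
    show mp s L (ent (κ (star f))) + (star f) 1 • (1 - pr s) =
      star (mp s L (ent (κ f)) + f 1 • (1 - pr s))
    rw [mpstar, star_add, star_smul, star_sub, star_one, pr_star, ContinuousMap.star_apply]
  have Wzero : W 0 = 0 := by
    have h1 := Wsmul 0 0
    rwa [zero_smul, zero_smul] at h1
  refine ⟨{ toFun := W, map_one' := Wone, map_mul' := Wmul, map_zero' := Wzero,
            map_add' := Wadd,
            commutes' := fun t => by
              rw [Algebra.algebraMap_eq_smul_one, Wsmul, Wone, ← Algebra.algebraMap_eq_smul_one]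
            map_star' := Wstar }, hWamp, ?_⟩
  intro g
  show φ (mp s L (ent (κ g)) + g 1 • (1 - pr s)) = _
  have t1 : ∀ a b, φ (s a * L (ent (κ g) a b) * star (s b)) =
      if a = b then φ (L (ent (κ g) a a)) - ent (κ g) a a k₀ * φ (1 - e₀) else 0 := by
    intro a b
    rw [mul_assoc, hφ.tr, mul_assoc]
    split_ifs with hab
    · subst hab
      rw [hpi.1 a]
      have h2 : L (ent (κ g) a a) * e₀ = L (ent (κ g) a a) - ent (κ g) a a k₀ • (1 - e₀) := by
        rw [← hLe1, mul_sub, mul_one]; abel
      rw [h2, map_sub, map_smul, smul_eq_mul]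
    · rw [hpi.2 b a (Ne.symm hab), mul_zero, map_zero]
  have t2 : φ (mp s L (ent (κ g))) =
      ∑ a, (φ (L (ent (κ g) a a)) - ent (κ g) a a k₀ * φ (1 - e₀)) := by
    unfold mp
    rw [map_sum]
    refine Finset.sum_congr rfl (fun a _ => ?_)
    rw [map_sum]
    simp only [t1]
    rw [Finset.sum_ite_eq]
    simp
  have t3 : ∑ a, φ (L (ent (κ g) a a)) = ∫ x, ∑ i, κ g (c x) i i ∂μ := by
    rw [← map_sum, ← Lsum]
    show φ (ι ((∑ i, ent (κ g) i i).comp c)) = _
    rw [hval]
    refine integral_congr_ae (Filter.Eventually.of_forall fun x => ?_)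
    show (∑ i, ent (κ g) i i) (c x) = ∑ i, κ g (c x) i i
    rw [ContinuousMap.coe_sum, Finset.sum_apply]
    rfl
  have t4 : ∑ a, ent (κ g) a a k₀ = (r : ℂ) * g 1 := by
    have h2 : ∀ a : Fin r, ent (κ g) a a k₀ = g 1 := by
      intro a
      show (κ g k₀) a a = g 1
      rw [hbas g, Matrix.smul_apply, Matrix.one_apply_eq, smul_eq_mul, mul_one]
    simp only [h2]
    rw [Finset.sum_const, Finset.card_univ, Fintype.card_fin, nsmul_eq_mul]
  have t5 : φ (pr s) = (r : ℂ) * φ e₀ := by
    unfold pr
    rw [map_sum]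
    have h2 : ∀ a : Fin r, φ (s a * star (s a)) = φ e₀ := by
      intro a
      rw [hφ.tr, hpi.1 a]
    simp only [h2]
    rw [Finset.sum_const, Finset.card_univ, Fintype.card_fin, nsmul_eq_mul]
  rw [map_add, map_smul, t2, Finset.sum_sub_distrib, ← Finset.sum_mul, t3, t4, map_sub, map_sub,
    hφ.one, t5, smul_eq_mul]
  ring

end Pool.Agent.FPS
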