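import Pool.Agent.FPS.P_OCR
import Pool.Agent.FPS.P_OMG

set_option autoImplicit false

open scoped Classical
open MeasureTheory Pool.Agent.FPZ

noncomputable section

namespace Pool.Agent.FPS

namespace ODC_

variable {A : Type} [CStarAlgebra A] {r : ℕ} {e₀ : A} {s : Fin r → A}

/-- `∑ M i j • s i X star (s j)` -/
def Bm (s : Fin r → A) (M : Matrix (Fin r) (Fin r) ℂ) (X : A) : A :=
  ∑ i, ∑ j, M i j • (s i * X * star (s j))

theorem Bm_star (M : Matrix (Fin r) (Fin r) ℂ) (X : A) :
    star (Bm s M X) = Bm s M.conjTranspose (star X) := by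
  unfold Bm
  rw [Finset.sum_comm]
  simp only [star_sum]
  refine Finset.sum_congr rfl fun i _ => Finset.sum_congr rfl fun j _ => ?_
  rw [star_smul, star_mul, star_mul, star_star, Matrix.conjTranspose_apply, mul_assoc]

theorem Bm_mul (hs : PI e₀ s) (M M' : Matrix (Fin r) (Fin r) ℂ) (X X' : A) :
    Bm s M X * Bm s M' X' = Bm s (M * M') (X * e₀ * X') := by
  unfold Bm
  rw [Finset.sum_mul]
  refine Finset.sum_congr rfl fun i _ => ?_
  have h1 : ∀ j, M i j • (s i * X * star (s j)) * (∑ k, ∑ l, M' k l • (s k * X' * star (s l)))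
      = ∑ l, (M i j * M' j l) • (s i * (X * e₀ * X') * star (s l)) := by
    intro j
    rw [Finset.mul_sum, Finset.sum_eq_single j]
    · rw [Finset.mul_sum]
      refine Finset.sum_congr rfl fun l _ => ?_
      rw [smul_mul_smul_comm]
      congr 1
      calc s i * X * star (s j) * (s j * X' * star (s l))
          = s i * X * (star (s j) * s j) * X' * star (s l) := by simp only [mul_assoc]
        _ = _ := by rw [hs.1 j]; simp only [mul_assoc]
    · intro k _ hk
      rw [Finset.mul_sum]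
      refine Finset.sum_eq_zero fun l _ => ?_
      rw [smul_mul_smul_comm]
      have : s i * X * star (s j) * (s k * X' * star (s l)) = 0 := by
        calc s i * X * star (s j) * (s k * X' * star (s l))
            = s i * X * (star (s j) * s k) * X' * star (s l) := by simp only [mul_assoc]
          _ = 0 := by rw [hs.2 j k (Ne.symm hk)]; simp
      rw [this, smul_zero]
    · intro h; exact absurd (Finset.mem_univ j) h
  rw [Finset.sum_mul]
  simp only [h1]
  rw [Finset.sum_comm]
  refine Finset.sum_congr rfl fun l _ => ?_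
  rw [← Finset.sum_smul, Matrix.mul_apply]

theorem Bm_one (X : A) : Bm s 1 X = ∑ i, s i * X * star (s i) := by
  unfold Bm
  refine Finset.sum_congr rfl fun i _ => ?_
  rw [Finset.sum_eq_single i]
  · rw [Matrix.one_apply_eq, one_smul]
  · intro j _ hj
    rw [Matrix.one_apply_ne (Ne.symm hj), zero_smul]
  · intro h; exact absurd (Finset.mem_univ i) h

theorem Bm_add (M M' : Matrix (Fin r) (Fin r) ℂ) (X : A) :
    Bm s (M + M') X = Bm s M X + Bm s M' X := by
  unfold Bm
  simp only [Matrix.add_apply, add_smul, Finset.sum_add_distrib]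

theorem Bm_smul (c : ℂ) (M : Matrix (Fin r) (Fin r) ℂ) (X : A) :
    Bm s (c • M) X = c • Bm s M X := by
  unfold Bm
  simp only [Matrix.smul_apply, smul_assoc, Finset.smul_sum]

theorem Bm_sum {I : Type} (T : Finset I) (M : I → Matrix (Fin r) (Fin r) ℂ) (X : A) :
    Bm s (∑ i ∈ T, M i) X = ∑ i ∈ T, Bm s (M i) X := by
  induction T using Finset.induction_on with
  | empty => simp [Bm]
  | insert a T ha ih => rw [Finset.sum_insert ha, Finset.sum_insert ha, Bm_add, ih]

theorem Bm_zero (M : Matrix (Fin r) (Fin r) ℂ) : Bm s M 0 = 0 := by simp [Bm]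

theorem Bm_zero' (X : A) : Bm s 0 X = 0 := by simp [Bm]

theorem Bm_e (h0 : IsStarProjection e₀) (hs : PI e₀ s) (M : Matrix (Fin r) (Fin r) ℂ) (X : A) :
    Bm s M (X * e₀) = Bm s M X := by
  unfold Bm
  refine Finset.sum_congr rfl fun i _ => Finset.sum_congr rfl fun j _ => ?_
  rw [← mul_assoc, mul_assoc (s i * X), OMG_.es' h0 hs j]

theorem pr_Bm (h0 : IsStarProjection e₀) (hs : PI e₀ s) (M : Matrix (Fin r) (Fin r) ℂ) (X : A) :
    (∑ i, s i * star (s i)) * Bm s M X = Bm s M X := by
  unfold Bm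
  rw [Finset.mul_sum]
  refine Finset.sum_congr rfl fun i _ => ?_
  rw [Finset.mul_sum]
  refine Finset.sum_congr rfl fun j _ => ?_
  rw [mul_smul_comm, mul_assoc (s i), ← mul_assoc _ (s i)]
  have := OMG_.pr_s h0 hs i
  unfold OMG_.pr at this
  rw [this]

theorem norm_s (h0 : IsStarProjection e₀) (hs : PI e₀ s) (i : Fin r) : ‖s i‖ ≤ 1 := by
  have h1 : ‖s i‖ * ‖s i‖ ≤ 1 := by
    rw [← CStarRing.norm_star_mul_self, hs.1 i]
    exact h0.norm_le
  nlinarith [norm_nonneg (s i)]

end ODC_

open ODC_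

theorem p_ODC (h_OCR : T_OCR) : T_ODC := by
  intro K A _ _ r K₀ k₀ e₀ s L κ Gw G ε Q z h0 hs hκ heq hcom hε hdec hG
  obtain ⟨hQ, hQo, hQd⟩ := hdec
  choose J lam p hp hpo hps hpg using fun k => hκ.dia (z k)
  -- the family
  let T := Option (Σ k : Fin K₀, Fin (J k))
  let qq : T → A := fun o => o.elim (1 - ∑ i, s i * star (s i)) (fun a => Bm s (p a.1 a.2) (Q a.1))
  let xx : T → S1 := fun o => o.elim 1 (fun a => lam a.1 a.2)
  have hQe : ∀ k, e₀ * Q k = Q k * e₀ := fun k => (hcom k).symm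
  have he0 : e₀ * e₀ = e₀ := h0.isIdempotentElem.eq
  -- e is a projection
  have hSQ : IsStarProjection (∑ k, Q k) := by
    constructor
    · show (∑ k, Q k) * (∑ k, Q k) = ∑ k, Q k
      rw [Finset.sum_mul]
      refine Finset.sum_congr rfl fun k _ => ?_
      rw [Finset.mul_sum, Finset.sum_eq_single k]
      · exact (hQ k).isIdempotentElem.eq
      · intro l _ hl; exact hQo k l (Ne.symm hl)
      · intro h; exact absurd (Finset.mem_univ k) h
    · show star (∑ k, Q k) = _
      rw [star_sum]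
      exact Finset.sum_congr rfl fun k _ => (hQ k).isSelfAdjoint.star_eq
  have he : IsStarProjection (1 - ∑ k, Q k) := hSQ.one_sub
  -- products
  have hBB : ∀ (M M' : Matrix (Fin r) (Fin r) ℂ) (k l : Fin K₀), Bm s M (Q k) * Bm s M' (Q l)
      = if k = l then Bm s (M * M') (Q k) else 0 := by
    intro M M' k l
    rw [Bm_mul hs]
    split_ifs with h
    · subst h
      rw [mul_assoc, hQe, ← mul_assoc, (hQ k).isIdempotentElem.eq, Bm_e h0 hs]
    · rw [mul_assoc, hQe, ← mul_assoc, hQo k l h, zero_mul, Bm_zero]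
  have hpr : ∀ M X, (1 - ∑ i, s i * star (s i)) * Bm s M X = 0 := fun M X => by
    rw [sub_mul, one_mul, pr_Bm h0 hs, sub_self]
  have hPs : IsStarProjection (∑ i, s i * star (s i)) := by
    constructor
    · exact OMG_.pr_pr h0 hs
    · exact OMG_.pr_star s
  have hBs : ∀ (k : Fin K₀) (l : Fin (J k)), star (Bm s (p k l) (Q k)) = Bm s (p k l) (Q k) := by
    intro k l
    rw [Bm_star, (hp k l).2, (hQ k).isSelfAdjoint.star_eq]
  have hpr' : ∀ (k : Fin K₀) (l : Fin (J k)), Bm s (p k l) (Q k) * (1 - ∑ i, s i * star (s i)) = 0 := by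
    intro k l
    have h1 := congrArg star (hpr (p k l) (Q k))
    rwa [star_mul, hBs, hPs.one_sub.isSelfAdjoint.star_eq, star_zero] at h1
  have hqp : ∀ o, IsStarProjection (qq o) := by
    rintro (_ | ⟨k, l⟩)
    · exact hPs.one_sub
    · constructor
      · show Bm s (p k l) (Q k) * Bm s (p k l) (Q k) = Bm s (p k l) (Q k)
        rw [hBB, if_pos rfl, (hp k l).1]
      · exact hBs k l
  have hqo : ∀ o o', o ≠ o' → qq o * qq o' = 0 := by
    rintro (_ | ⟨k, l⟩) (_ | ⟨k', l'⟩) h
    · exact absurd rfl h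
    · exact hpr _ _
    · exact hpr' k l
    · show Bm s (p k l) (Q k) * Bm s (p k' l') (Q k') = 0
      rw [hBB]
      split_ifs with hk
      · subst hk
        rw [hpo k l l' (fun hh => h (by rw [hh])), Bm_zero']
      · rfl
  have hsumT : ∀ F : T → A, ∑ o, F o = F none + ∑ k, ∑ l, F (some ⟨k, l⟩) := by
    intro F
    rw [Fintype.sum_option, Fintype.sum_sigma]
  have hE : 1 - ∑ o, qq o = ∑ i, s i * (1 - ∑ k, Q k) * star (s i * (1 - ∑ k, Q k)) := by
    rw [hsumT]
    have h1 : ∀ k, ∑ l, qq (some ⟨k, l⟩) = Bm s 1 (Q k) := by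
      intro k
      show ∑ l, Bm s (p k l) (Q k) = _
      rw [← Bm_sum, hps]
    simp only [h1, Bm_one]
    show 1 - ((1 - ∑ i, s i * star (s i)) + ∑ k, ∑ i, s i * Q k * star (s i)) = _
    rw [Finset.sum_comm]
    have h2 : ∀ i, s i * (1 - ∑ k, Q k) * star (s i * (1 - ∑ k, Q k))
        = s i * star (s i) - ∑ k, s i * Q k * star (s i) := by
      intro i
      rw [star_mul, he.isSelfAdjoint.star_eq, ← mul_assoc, mul_assoc (s i),
        he.isIdempotentElem.eq, mul_sub, mul_one, sub_mul, Finset.mul_sum, Finset.sum_mul]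
    simp only [h2, Finset.sum_sub_distrib]
    abel
  -- reindex
  let σ := Fintype.equivFin T
  refine ⟨Fintype.card T, fun j => qq (σ.symm j), fun j => xx (σ.symm j), ⟨fun j => hqp _,
    fun i j hij => hqo _ _ (fun hh => hij (σ.symm.injective hh)), ?_⟩, ?_⟩
  · intro g hg
    have hr1 : ∑ j, qq (σ.symm j) = ∑ o, qq o := Equiv.sum_comp σ.symm qq
    have hr2 : ∑ j, g (xx (σ.symm j)) • qq (σ.symm j) = ∑ o, g (xx o) • qq o :=
      Equiv.sum_comp σ.symm (fun o => g (xx o) • qq o)
    rw [hr1, hr2, hE, (h_OCR K A r e₀ (1 - ∑ k, Q k) s L κ h0 he heq hs).2.2 g, hsumT]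
    have h1 : ∀ k, ∑ l, g (xx (some ⟨k, l⟩)) • qq (some ⟨k, l⟩) = Bm s (κ g (z k)) (Q k) := by
      intro k
      show ∑ l, g (lam k l) • Bm s (p k l) (Q k) = _
      rw [hpg k g, Bm_sum]
      exact Finset.sum_congr rfl fun l _ => (Bm_smul _ _ _).symm
    simp only [h1]
    have h2 : amp 1 s L κ g - ((∑ i, ∑ j, s i * (1 - ∑ k, Q k) * L (ent (κ g) i j) * star (s j * (1 - ∑ k, Q k)))
        + (g (xx none) • qq none + ∑ k, Bm s (κ g (z k)) (Q k)))
        = ∑ i, ∑ j, s i * (L (ent (κ g) i j) - ((1 - ∑ k, Q k) * L (ent (κ g) i j) * (1 - ∑ k, Q k)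
          + ∑ k, ent (κ g) i j (z k) • Q k)) * star (s j) := by
      have h3 : ∀ i j, s i * (L (ent (κ g) i j) - ((1 - ∑ k, Q k) * L (ent (κ g) i j) * (1 - ∑ k, Q k)
          + ∑ k, ent (κ g) i j (z k) • Q k)) * star (s j)
          = s i * L (ent (κ g) i j) * star (s j)
            - s i * (1 - ∑ k, Q k) * L (ent (κ g) i j) * star (s j * (1 - ∑ k, Q k))
            - ∑ k, κ g (z k) i j • (s i * Q k * star (s j)) := by
        intro i j
        rw [star_mul, he.isSelfAdjoint.star_eq, mul_sub, mul_add, sub_mul, add_mul, Finset.mul_sum,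
          Finset.sum_mul]
        have h4 : ∀ k, s i * (ent (κ g) i j (z k) • Q k) * star (s j)
            = κ g (z k) i j • (s i * Q k * star (s j)) := by
          intro k
          rw [mul_smul_comm, smul_mul_assoc]; rfl
        simp only [h4, mul_assoc]
        abel
      simp only [h3, Finset.sum_sub_distrib]
      have h5 : ∑ i, ∑ j, ∑ k, κ g (z k) i j • (s i * Q k * star (s j)) = ∑ k, Bm s (κ g (z k)) (Q k) := by
        unfold Bm
        rw [Finset.sum_comm]
        calc ∑ j, ∑ i, ∑ k, κ g (z k) i j • (s i * Q k * star (s j))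
            = ∑ j, ∑ k, ∑ i, κ g (z k) i j • (s i * Q k * star (s j)) :=
              Finset.sum_congr rfl fun j _ => Finset.sum_comm
          _ = ∑ k, ∑ j, ∑ i, κ g (z k) i j • (s i * Q k * star (s j)) := Finset.sum_comm
          _ = _ := Finset.sum_congr rfl fun k _ => Finset.sum_comm
      rw [h5]
      show ∑ i, ∑ j, s i * L (ent (κ g) i j) * star (s j) + g 1 • (1 - ∑ i, s i * star (s i)) - _ = _
      have h6 : g (xx none) • qq none = g 1 • (1 - ∑ i, s i * star (s i)) := rfl
      rw [h6]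
      abel
    rw [h2]
    calc ‖∑ i, ∑ j, s i * (L (ent (κ g) i j) - ((1 - ∑ k, Q k) * L (ent (κ g) i j) * (1 - ∑ k, Q k)
          + ∑ k, ent (κ g) i j (z k) • Q k)) * star (s j)‖
        ≤ ∑ i : Fin r, ∑ j : Fin r, ε := by
          refine (norm_sum_le _ _).trans (Finset.sum_le_sum fun i _ => ?_)
          refine (norm_sum_le _ _).trans (Finset.sum_le_sum fun j _ => ?_)
          have h7 := hQd _ (hG g hg i j)
          calc _ ≤ ‖s i‖ * ‖L (ent (κ g) i j) - ((1 - ∑ k, Q k) * L (ent (κ g) i j) * (1 - ∑ k, Q k)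
                + ∑ k, ent (κ g) i j (z k) • Q k)‖ * ‖star (s j)‖ := norm_mul₃_le
            _ ≤ 1 * ε * 1 := by
              have h8 := norm_s h0 hs i
              have h9 := norm_s h0 hs j
              rw [norm_star]
              gcongr
            _ = ε := by ring
      _ = (r : ℝ) ^ 2 * ε := by
          simp only [Finset.sum_const, Finset.card_univ, Fintype.card_fin, nsmul_eq_mul]
          ring
  · have hr1 : ∑ j, qq (σ.symm j) = ∑ o, qq o := Equiv.sum_comp σ.symm qq
    rw [hr1, hE]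

end Pool.Agent.FPS
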