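import Pool.Agent.FPS.Targets6
import Pool.Agent.FPZ.P_AUT
import Pool.Agent.FPZ.P_EXT

set_option autoImplicit false

/-!
# FPS: permutation automorphisms (target PER)
-/

open scoped Classical
open MeasureTheory Pool.Agent.FPZ

noncomputable section

namespace Pool.Agent.FPS

namespace PER_

theorem free_comp {I J R : Type} [Monoid R] {f : R → ℂ} {S : I → Set R} (e : J → I)
    (he : Function.Injective e) (h : Free f S) : Free f (fun j => S (e j)) := by
  intro l h1 h2 h3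
  have h4 := h (l.map (fun p => (e p.1, p.2))) (by simpa using h1)
    (by
      rw [List.isChain_map]
      exact h2.imp fun a b hab hc => hab (he hc))
    (by
      intro x hx
      obtain ⟨p, hp, rfl⟩ := List.mem_map.1 hx
      exact h3 p hp)
  have h5 : (l.map (fun p => (e p.1, p.2))).map Prod.snd = l.map Prod.snd := by
    rw [List.map_map]
    rfl
  rw [h5] at h4
  exact h4

variable {Z A : Type} [TopologicalSpace Z] [CompactSpace Z] [MeasurableSpace Z] [CStarAlgebra A]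

theorem fs_comp {μ : Measure Z} {t : ℝ} {φ : A →L[ℂ] ℂ} {ι : C(Z, ℂ) →⋆ₐ[ℂ] A}
    {κ : ℕ → ℂ × ℂ →⋆ₐ[ℂ] A} (π : ℕ ≃ ℕ) (h : FS μ t φ ι κ) :
    FS μ t φ ι (fun i => κ (π i)) := by
  refine ⟨h.ts, h.valZ, fun i x => h.valP (π i) x, ?_, ?_⟩
  · have h1 := free_comp (Option.map π) (Option.map_injective π.injective) h.free
    refine EXT_.free_mono _ _ _ ?_ h1
    intro o
    cases o with
    | none => exact subset_rfl
    | some i => exact subset_rfl
  · have h2 : (⋃ i, Set.range (κ (π i))) = ⋃ i, Set.range (κ i) :=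
      π.surjective.iUnion_comp (fun i => Set.range (κ i))
    rw [h2]
    exact h.gen

/-- The endomorphism. -/
theorem endo (h_ISO : T_ISO) {μ : Measure Z} {t : ℝ} {φ : A →L[ℂ] ℂ} {ι : C(Z, ℂ) →⋆ₐ[ℂ] A}
    {κ : ℕ → ℂ × ℂ →⋆ₐ[ℂ] A} (π : ℕ ≃ ℕ) (h : FS μ t φ ι κ) :
    ∃ Θ : A →⋆ₐ[ℂ] A, (∀ g, Θ (ι g) = ι g) ∧ (∀ i x, Θ (κ i x) = κ (π i) x) ∧
      (∀ a, φ (Θ a) = φ a) ∧ Isometry Θ := by
  have h' := fs_comp π h
  obtain ⟨Θ, h1, h2, h3⟩ := h_ISO (Option ℕ) A A (EXT_.Fam Z) φ φ (EXT_.emb ι κ)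
    (EXT_.emb ι (fun i => κ (π i))) h.ts h.ts
    (by rw [EXT_.range_emb]; exact h.free)
    (by rw [EXT_.range_emb]; exact h'.free)
    (by
      have h6 : ∀ (i : ℕ) (x : ℂ × ℂ), φ (κ i x) = φ (κ (π i) x) := fun i x => by
        rw [h.valP, h.valP]
      intro o
      cases o with
      | none => exact fun c => rfl
      | some i => exact h6 i)
    (by
      have h4 : (⋃ i, Set.range (EXT_.emb ι κ i)) = Set.range ι ∪ ⋃ i, Set.range (κ i) := by
        rw [Set.iUnion_option]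
        rfl
      rw [h4]
      exact h.gen)
  exact ⟨Θ, fun g => h1 none g, fun i x => h1 (some i) x, h2, h3⟩

end PER_

open PER_ in
theorem p_PER (h_ISO : T_ISO) : T_PER := by
  intro Z A _ _ _ _ μ t φ ι κ π h
  obtain ⟨Θ, a1, a2, a3, a4⟩ := endo h_ISO π h
  obtain ⟨Θ', b1, b2, b3, b4⟩ := endo h_ISO π.symm h
  have k1 : ∀ x, (Θ'.comp Θ) x = x := by
    refine AUT_.eq_id _ h.gen (Θ'.comp Θ) (b4.continuous.comp a4.continuous) ?_
    rintro x (⟨g, rfl⟩ | hx)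
    · rw [StarAlgHom.comp_apply, a1, b1]
    · obtain ⟨i, ⟨y, rfl⟩⟩ := Set.mem_iUnion.1 hx
      rw [StarAlgHom.comp_apply, a2, b2, Equiv.symm_apply_apply]
  have k2 : ∀ x, (Θ.comp Θ') x = x := by
    refine AUT_.eq_id _ h.gen (Θ.comp Θ') (a4.continuous.comp b4.continuous) ?_
    rintro x (⟨g, rfl⟩ | hx)
    · rw [StarAlgHom.comp_apply, b1, a1]
    · obtain ⟨i, ⟨y, rfl⟩⟩ := Set.mem_iUnion.1 hx
      rw [StarAlgHom.comp_apply, b2, a2, Equiv.apply_symm_apply]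
  refine ⟨StarAlgEquiv.ofStarAlgHom Θ Θ' ?_ ?_, a1, a2, a3⟩
  · ext x
    exact k1 x
  · ext x
    exact k2 x

end Pool.Agent.FPS
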