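import Pool.Agent.FPS.Targets4

set_option autoImplicit false

/-!
# FPS: PIC, the chain of exact homomorphisms
-/

open scoped Classical
open MeasureTheory Pool.Agent.FPZ

noncomputable section

namespace Pool.Agent.FPS.PIC_

theorem unif {X : Type} (F : Finset X) (Pr : X → ℝ → Prop) (mono : ∀ f δ δ', δ' ≤ δ → Pr f δ → Pr f δ')
    (h : ∀ f, ∃ δ : ℝ, 0 < δ ∧ Pr f δ) : ∃ δ : ℝ, 0 < δ ∧ ∀ f ∈ F, Pr f δ := by
  induction F using Finset.induction_on with
  | empty => exact ⟨1, one_pos, fun f hf => absurd hf (Finset.notMem_empty f)⟩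
  | insert f F _ ih =>
    obtain ⟨δ, hδ, h1⟩ := ih
    obtain ⟨δ', hδ', h2⟩ := h f
    refine ⟨min δ δ', lt_min hδ hδ', fun f' hf' => ?_⟩
    rcases Finset.mem_insert.1 hf' with rfl | hf'
    · exact mono _ _ _ (min_le_right _ _) h2
    · exact mono _ _ _ (min_le_left _ _) (h1 f' hf')

/-- the parameter of the first half -/
def sa (M i : ℕ) : ℝ := Real.pi / 2 * (i / M)

/-- the parameter of the second half -/
def sb (M i : ℕ) : ℝ := Real.pi / 2 * (1 - ((i : ℝ) - M) / M)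

end Pool.Agent.FPS.PIC_

namespace Pool.Agent.FPS

open PIC_ in
theorem p_PIC (h_XIT : T_XIT) (h_THT : T_THT) (h_XEP : T_XEP) : T_PIC := by
  intro F ε hε
  obtain ⟨hx1, hx2⟩ := h_XIT
  obtain ⟨ht1, ht2⟩ := h_THT
  choose Px hPx hPx' using hx1
  choose Pt hPt hPt' using ht1
  obtain ⟨δ₁, hδ₁, h1⟩ := unif F (fun f δ => ∀ s s' : ℝ, 0 ≤ s → s ≤ Real.pi / 2 → 0 ≤ s' →
    s' ≤ Real.pi / 2 → |s - s'| < δ → ∀ x m, opn (xi s f x m - xi s' f x m) ≤ ε)
    (fun f δ δ' hd h s s' a b c d e => h s s' a b c d (e.trans_le hd)) (fun f => hx2 f ε hε)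
  obtain ⟨δ₂, hδ₂, h2⟩ := unif F (fun f δ => ∀ s s' : ℝ, 0 ≤ s → s ≤ Real.pi / 2 → 0 ≤ s' →
    s' ≤ Real.pi / 2 → |s - s'| < δ → ∀ x m, opn (th s f x m - th s' f x m) ≤ ε)
    (fun f δ δ' hd h s s' a b c d e => h s s' a b c d (e.trans_le hd)) (fun f => ht2 f ε hε)
  have hpi : 0 < Real.pi / 2 := by positivity
  obtain ⟨N, hN⟩ := exists_nat_gt (Real.pi / 2 / min δ₁ δ₂)
  have hmin : 0 < min δ₁ δ₂ := lt_min hδ₁ hδ₂
  have hN0 : (0 : ℝ) < N := lt_trans (by positivity) hN
  have hN1 : 0 < N := by exact_mod_cast hN0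
  have hstep : Real.pi / 2 / N < min δ₁ δ₂ := by
    rw [div_lt_iff₀ hmin] at hN
    rw [div_lt_iff₀ hN0]
    linarith
  have hs1 : Real.pi / 2 / N < δ₁ := hstep.trans_le (min_le_left _ _)
  have hs2 : Real.pi / 2 / N < δ₂ := hstep.trans_le (min_le_right _ _)
  have ha0 : sa N 0 = 0 := by simp [sa]
  have haN : sa N N = Real.pi / 2 := by
    rw [sa, div_self hN0.ne', mul_one]
  have hbN : sb N N = Real.pi / 2 := by simp [sb]
  have hb2 : sb N (2 * N) = 0 := by
    have : ((2 * N : ℕ) : ℝ) - N = N := by push_cast; ring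
    rw [sb, this, div_self hN0.ne', sub_self, mul_zero]
  have har : ∀ i ≤ N, 0 ≤ sa N i ∧ sa N i ≤ Real.pi / 2 := by
    intro i hi
    have h3 : (i : ℝ) ≤ N := by exact_mod_cast hi
    have h4 : (i : ℝ) / N ≤ 1 := (div_le_one hN0).2 h3
    have h5 : 0 ≤ (i : ℝ) / N := by positivity
    constructor
    · rw [sa]; positivity
    · rw [sa]; nlinarith
  have hbr : ∀ i, N ≤ i → i ≤ 2 * N → 0 ≤ sb N i ∧ sb N i ≤ Real.pi / 2 := by
    intro i hi hi'
    have h3 : (N : ℝ) ≤ i := by exact_mod_cast hi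
    have h3' : (i : ℝ) ≤ 2 * N := by exact_mod_cast hi'
    have h4 : ((i : ℝ) - N) / N ≤ 1 := (div_le_one hN0).2 (by linarith)
    have h5 : 0 ≤ ((i : ℝ) - N) / N := div_nonneg (by linarith) hN0.le
    constructor
    · rw [sb]; exact mul_nonneg hpi.le (by linarith)
    · rw [sb]; nlinarith
  have had : ∀ i, |sa N i - sa N (i + 1)| = Real.pi / 2 / N := by
    intro i
    have h3 : sa N i - sa N (i + 1) = -(Real.pi / 2 / N) := by
      rw [sa, sa]; push_cast; ring
    rw [h3, abs_neg, abs_of_nonneg (by positivity)]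
  have hbd : ∀ i, |sb N i - sb N (i + 1)| = Real.pi / 2 / N := by
    intro i
    have h3 : sb N i - sb N (i + 1) = Real.pi / 2 / N := by
      rw [sb, sb]; push_cast; ring
    rw [h3, abs_of_nonneg (by positivity)]
  refine ⟨2 * N, fun i => if i ≤ N then Pt (sa N i) else Px (sb N i), ?_, ?_, ?_, ?_⟩
  · intro i
    by_cases hi : i ≤ N
    · simp only [hi, if_true]; exact hPt _
    · simp only [hi, if_false]; exact hPx _
  · intro i hi f hf p
    obtain ⟨x, m⟩ := p
    by_cases hi1 : i + 1 ≤ N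
    · have hi2 : i ≤ N := (Nat.le_succ i).trans hi1
      simp only [hi1, hi2, if_true, hPt']
      exact h2 f hf _ _ (har i hi2).1 (har i hi2).2 (har _ hi1).1 (har _ hi1).2 (by rw [had]; exact hs2) x m
    · have hi3 : N ≤ i := by omega
      have h4 : (if i ≤ N then Pt (sa N i) else Px (sb N i)) f (x, m) = xi (sb N i) f x m := by
        by_cases hi2 : i ≤ N
        · have hi4 : i = N := le_antisymm hi2 hi3
          rw [if_pos hi2, hPt', hi4, haN, hbN]
          exact (h_XEP f x m).1.symm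
        · rw [if_neg hi2, hPx']
      simp only [hi1, if_false, hPx']
      rw [h4]
      exact h1 f hf _ _ (hbr i hi3 hi.le).1 (hbr i hi3 hi.le).2 (hbr (i + 1) (by omega) (by omega)).1
        (hbr (i + 1) (by omega) (by omega)).2 (by rw [hbd]; exact hs1) x m
  · intro f x m
    simp only [Nat.zero_le, if_true, hPt', ha0]
    exact (h_XEP f x m).2.2
  · intro f x m
    have h3 : ¬ 2 * N ≤ N := by omega
    simp only [h3, if_false, hPx', hb2]
    exact (h_XEP f x m).2.1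

end Pool.Agent.FPS
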