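import Pool.Agent.FPS.Targets7

/-!
# FPS, PIT: probability integral transform
-/

set_option autoImplicit false

open scoped Classical unitInterval
open MeasureTheory Pool.Agent.FPZ

namespace Pool.Agent.FPS

namespace PIT_

variable {K : Type} [TopologicalSpace K] [MeasurableSpace K] [BorelSpace K]

/-- The distribution function, from the right. -/
noncomputable def gg (μ : Measure K) (h : C(K, ℝ)) (a : ℝ) : ℝ := (μ {x | a ≤ h x}).toReal

theorem meas_ge (h : C(K, ℝ)) (a : ℝ) : MeasurableSet {x | a ≤ h x} :=
  (isClosed_le continuous_const h.continuous).measurableSet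

theorem gg_eq (μ : Measure K) [IsProbabilityMeasure μ] (h : C(K, ℝ)) (a : ℝ) :
    gg μ h a = ∫ x, Set.indicator {x | a ≤ h x} (fun _ => (1 : ℝ)) x ∂μ := by
  rw [integral_indicator (meas_ge h a)]
  simp [gg, Measure.real]

theorem gg_cont (μ : Measure K) [IsProbabilityMeasure μ] (h : C(K, ℝ))
    (h0 : ∀ a : ℝ, μ {x | h x = a} = 0) : Continuous (gg μ h) := by
  rw [continuous_iff_continuousAt]
  intro a₀
  have e : gg μ h = fun a => ∫ x, Set.indicator {x | a ≤ h x} (fun _ => (1 : ℝ)) x ∂μ :=
    funext (gg_eq μ h)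
  rw [e]
  refine continuousAt_of_dominated (bound := fun _ => (1 : ℝ)) ?_ ?_ (integrable_const _) ?_
  · exact Filter.Eventually.of_forall fun a =>
      (stronglyMeasurable_const.indicator (meas_ge h a)).aestronglyMeasurable
  · refine Filter.Eventually.of_forall fun a => Filter.Eventually.of_forall fun x => ?_
    by_cases hx : x ∈ {x | a ≤ h x}
    · rw [Set.indicator_of_mem hx]; simp
    · rw [Set.indicator_of_notMem hx]; simp
  · have h1 : ∀ᵐ x ∂μ, h x ≠ a₀ := by
      rw [ae_iff]
      simpa using h0 a₀
    filter_upwards [h1] with x hx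
    rcases lt_or_gt_of_ne hx with hlt | hgt
    · have : (fun a => Set.indicator {x | a ≤ h x} (fun _ => (1 : ℝ)) x) =ᶠ[nhds a₀]
          fun _ => (0 : ℝ) := by
        filter_upwards [lt_mem_nhds hlt] with a ha
        exact Set.indicator_of_notMem (by simpa using ha) _
      exact (continuousAt_const.congr this.symm)
    · have : (fun a => Set.indicator {x | a ≤ h x} (fun _ => (1 : ℝ)) x) =ᶠ[nhds a₀]
          fun _ => (1 : ℝ) := by
        filter_upwards [gt_mem_nhds hgt] with a ha
        exact Set.indicator_of_mem (by simpa using le_of_lt ha) _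
      exact (continuousAt_const.congr this.symm)

theorem gg_anti (μ : Measure K) [IsProbabilityMeasure μ] (h : C(K, ℝ)) : Antitone (gg μ h) := by
  intro a b hab
  refine ENNReal.toReal_mono (measure_ne_top _ _) (measure_mono ?_)
  intro x hx
  exact le_trans hab hx

theorem gg_nonneg (μ : Measure K) (h : C(K, ℝ)) (a : ℝ) : 0 ≤ gg μ h a := ENNReal.toReal_nonneg

theorem gg_le_one (μ : Measure K) [IsProbabilityMeasure μ] (h : C(K, ℝ)) (a : ℝ) :
    gg μ h a ≤ 1 := by
  have : μ {x | a ≤ h x} ≤ 1 := prob_le_one
  exact ENNReal.toReal_le_of_le_ofReal zero_le_one (by simpa using this)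

theorem main (μ : Measure K) [IsProbabilityMeasure μ] [CompactSpace K] (h : C(K, ℝ))
    (h0 : ∀ a : ℝ, μ {x | h x = a} = 0) (y : ℝ) (hy0 : 0 ≤ y) (hy1 : y ≤ 1) :
    (μ {x | gg μ h (h x) < y}).toReal = y := by
  rcases hy0.eq_or_lt with rfl | hy
  · have : {x | gg μ h (h x) < 0} = ∅ := by
      ext x
      simpa using gg_nonneg μ h (h x)
    rw [this]
    simp
  have hc := gg_cont μ h h0
  have hanti := gg_anti μ h
  -- bounds for `h`
  obtain ⟨M, hM⟩ := (isCompact_range h.continuous).isBounded.exists_norm_le
  have hM' : ∀ x, |h x| ≤ M := fun x => hM _ ⟨x, rfl⟩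
  have hlarge : gg μ h (M + 1) = 0 := by
    have : {x | M + 1 ≤ h x} = ∅ := by
      ext x
      simp only [Set.mem_ofPred_eq, Set.mem_empty_iff_false, iff_false, not_le]
      have := (abs_le.1 (hM' x)).2
      linarith
    unfold gg
    rw [this]
    simp
  have hsmall : gg μ h (-M) = 1 := by
    have : {x | -M ≤ h x} = Set.univ := by
      ext x
      simp only [Set.mem_ofPred_eq, Set.mem_univ, iff_true]
      exact (abs_le.1 (hM' x)).1
    unfold gg
    rw [this]
    simp
  set S : Set ℝ := {a | gg μ h a < y} with hS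
  have hSne : S.Nonempty := ⟨M + 1, by
    show gg μ h (M + 1) < y
    rw [hlarge]; exact hy⟩
  have hSb : BddBelow S := ⟨-M, fun a ha => by
    by_contra hlt
    have h1 : gg μ h (-M) ≤ gg μ h a := hanti (le_of_lt (not_le.1 hlt))
    rw [hsmall] at h1
    have h2 : gg μ h a < y := ha
    linarith⟩
  have hSo : IsOpen S := isOpen_lt hc continuous_const
  set b := sInf S with hb
  have hbS : b ∉ S := by
    intro hbS
    obtain ⟨ε, hε, hball⟩ := Metric.isOpen_iff.1 hSo b hbS
    have h1 : b - ε / 2 ∈ S := hball (by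
      rw [Metric.mem_ball, Real.dist_eq]
      have : b - ε / 2 - b = -(ε / 2) := by ring
      rw [this, abs_neg, abs_of_pos (by linarith)]
      linarith)
    have := csInf_le hSb h1
    linarith
  have hgeb : y ≤ gg μ h b := not_lt.1 hbS
  have hSup : ∀ a, b < a → a ∈ S := by
    intro a ha
    obtain ⟨s, hs, hsa⟩ := exists_lt_of_csInf_lt hSne ha
    have h1 : gg μ h a ≤ gg μ h s := hanti hsa.le
    have h2 : gg μ h s < y := hs
    exact lt_of_le_of_lt h1 h2
  have hleb : gg μ h b ≤ y := by
    have h1 : Filter.Tendsto (gg μ h) (nhdsWithin b (Set.Ioi b)) (nhds (gg μ h b)) :=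
      hc.continuousAt.tendsto.mono_left nhdsWithin_le_nhds
    refine le_of_tendsto h1 ?_
    filter_upwards [self_mem_nhdsWithin] with a ha
    exact le_of_lt (hSup a ha)
  have hbe : gg μ h b = y := le_antisymm hleb hgeb
  have hset : {x | gg μ h (h x) < y} = {x | b < h x} := by
    ext x
    constructor
    · intro hx
      by_contra hle
      have h1 : gg μ h b ≤ gg μ h (h x) := hanti (not_lt.1 hle)
      have h2 : gg μ h (h x) < y := hx
      linarith
    · intro hx
      exact hSup _ hx
  have hunion : {x | b ≤ h x} = {x | b < h x} ∪ {x | h x = b} := by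
    ext x
    simp only [Set.mem_ofPred_eq, Set.mem_union]
    rw [le_iff_lt_or_eq, eq_comm (a := b)]
  have hμ : μ {x | b ≤ h x} = μ {x | b < h x} := by
    apply le_antisymm
    · rw [hunion]
      refine (measure_union_le _ _).trans ?_
      rw [h0 b, add_zero]
    · refine measure_mono fun x hx => ?_
      have hx' : b < h x := hx
      exact hx'.le
  rw [hset, ← hμ]
  exact hbe

end PIT_

open PIT_ in
/-- PIT: probability integral transform. -/
theorem p_PIT : T_PIT := by
  intro K _ _ _ _ μ _ h h0
  have hc := gg_cont μ h h0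
  refine ⟨⟨gg μ h, hc⟩, fun a => rfl, fun y hy0 hy1 => main μ h h0 y hy0 hy1, ?_⟩
  intro f
  show ∫ x, f (gg μ h (h x)) ∂μ = ∫ y in (0 : ℝ)..1, f y
  have hgm : Measurable fun x => gg μ h (h x) := (hc.comp h.continuous).measurable
  have hmap : μ.map (fun x => gg μ h (h x)) = volume.restrict (Set.Ioc (0 : ℝ) 1) := by
    have : IsProbabilityMeasure (μ.map (fun x => gg μ h (h x))) :=
      Measure.isProbabilityMeasure_map hgm.aemeasurable
    refine Measure.ext_of_Ici _ _ fun a => ?_
    rw [Measure.map_apply hgm measurableSet_Ici, Measure.restrict_apply measurableSet_Ici]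
    rcases le_or_gt a 0 with ha | ha
    · have e1 : (fun x => gg μ h (h x)) ⁻¹' Set.Ici a = Set.univ := by
        ext x
        simp only [Set.mem_preimage, Set.mem_Ici, Set.mem_univ, iff_true]
        exact ha.trans (gg_nonneg μ h _)
      have e2 : Set.Ici a ∩ Set.Ioc (0 : ℝ) 1 = Set.Ioc 0 1 :=
        Set.inter_eq_self_of_subset_right fun z hz => ha.trans hz.1.le
      rw [e1, e2, measure_univ, Real.volume_Ioc]
      simp
    · rcases le_or_gt a 1 with ha1 | ha1
      · have e1 : (fun x => gg μ h (h x)) ⁻¹' Set.Ici a = {x | gg μ h (h x) < a}ᶜ := by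
          ext x
          simp
        have e2 : Set.Ici a ∩ Set.Ioc (0 : ℝ) 1 = Set.Icc a 1 := by
          ext z
          simp only [Set.mem_inter_iff, Set.mem_Ici, Set.mem_Ioc, Set.mem_Icc]
          constructor
          · rintro ⟨h1, h2, h3⟩; exact ⟨h1, h3⟩
          · rintro ⟨h1, h2⟩; exact ⟨h1, ha.trans_le h1, h2⟩
        have hms : MeasurableSet {x | gg μ h (h x) < a} := measurableSet_lt hgm measurable_const
        have e3 : μ {x | gg μ h (h x) < a} = ENNReal.ofReal a := by
          have := main μ h h0 a ha.le ha1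
          have e4 := ENNReal.ofReal_toReal (measure_ne_top μ {x | gg μ h (h x) < a})
          rw [this] at e4
          exact e4.symm
        rw [e1, e2, prob_compl_eq_one_sub hms, e3, Real.volume_Icc,
          ENNReal.ofReal_sub _ ha.le, ENNReal.ofReal_one]
      · have e1 : (fun x => gg μ h (h x)) ⁻¹' Set.Ici a = ∅ := by
          ext x
          simp only [Set.mem_preimage, Set.mem_Ici, Set.mem_empty_iff_false, iff_false, not_le]
          exact (gg_le_one μ h _).trans_lt ha1
        have e2 : Set.Ici a ∩ Set.Ioc (0 : ℝ) 1 = ∅ := by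
          ext z
          simp only [Set.mem_inter_iff, Set.mem_Ici, Set.mem_Ioc, Set.mem_empty_iff_false,
            iff_false, not_and, not_le]
          intro h1 _
          linarith
        rw [e1, e2]
        simp
  rw [intervalIntegral.integral_of_le zero_le_one, ← hmap,
    integral_map hgm.aemeasurable f.continuous.aestronglyMeasurable]

end Pool.Agent.FPS
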