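import Pool.Agent.FPS.Targets1

set_option autoImplicit false

/-!
# FPS, PQN: cutting a projection away from another one
-/

open scoped Classical
open MeasureTheory Pool.Agent.FPZ

noncomputable section

namespace Pool.Agent.FPS

namespace PQN_

variable {A : Type} [CStarAlgebra A]

lemma pos_pow {b T : A} (hT : T = star b * b) (n : ℕ) : Pos (T ^ n) := by
  have hs : star T = T := by rw [hT, star_mul, star_star]
  obtain ⟨m, rfl | rfl⟩ := Nat.even_or_odd' n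
  · refine ⟨T ^ m, ?_⟩
    rw [star_pow, hs, ← pow_add, two_mul]
  · refine ⟨b * T ^ m, ?_⟩
    rw [star_mul, star_pow, hs, mul_assoc, ← mul_assoc (star b), ← hT, ← mul_assoc, ← pow_succ,
      ← pow_add]
    congr 1
    omega

lemma norm_le {p : A} (hp : IsStarProjection p) : ‖p‖ ≤ 1 := by
  have h1 : ‖p‖ * ‖p‖ = ‖p‖ := by
    rw [← CStarRing.norm_star_mul_self, hp.isSelfAdjoint.star_eq, hp.isIdempotentElem.eq]
  nlinarith [norm_nonneg p]

/-- the calculus estimate -/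
lemma real_est (t : ℝ) (h0 : 0 ≤ t) (h1 : t ≤ 1) (n : ℕ) :
    |t ^ (2 * n) - t ^ (2 * n + 1)| ≤ 1 / (2 * n + 1) := by
  have h2 : 0 ≤ t ^ (2 * n) - t ^ (2 * n + 1) := by
    rw [pow_succ]
    nlinarith [pow_nonneg h0 (2 * n)]
  rw [abs_of_nonneg h2, le_div_iff₀ (by positivity)]
  have h3 : ((2 * n + 1 : ℕ) : ℝ) * t ^ (2 * n) ≤ ∑ i ∈ Finset.range (2 * n + 1), t ^ i := by
    have h4 : ∑ _i ∈ Finset.range (2 * n + 1), t ^ (2 * n) ≤
        ∑ i ∈ Finset.range (2 * n + 1), t ^ i := by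
      refine Finset.sum_le_sum fun i hi => ?_
      have := Finset.mem_range.1 hi
      exact pow_le_pow_of_le_one h0 h1 (by omega)
    simpa using h4
  have h4 := geom_sum_mul t (2 * n + 1)
  have h5 : 0 ≤ t ^ (2 * n + 1) := pow_nonneg h0 _
  have h6 : ((2 * n + 1 : ℕ) : ℝ) * t ^ (2 * n) * (1 - t) ≤
      (∑ i ∈ Finset.range (2 * n + 1), t ^ i) * (1 - t) :=
    mul_le_mul_of_nonneg_right h3 (by linarith)
  push_cast at h6
  have h7 : t ^ (2 * n + 1) = t ^ (2 * n) * t := pow_succ _ _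
  rw [h7] at h4 h5 ⊢
  nlinarith

/-- the norm of `T ^ (2 n) (1 - T)` -/
lemma norm_est {b T : A} (hT : T = star b * b) (h1 : ‖T‖ ≤ 1) (hA : ‖(1 : A)‖ ≤ 1) (n : ℕ) :
    ‖T ^ (2 * n) - T ^ (2 * n + 1)‖ ≤ 1 / (2 * n + 1) := by
  have hs : IsSelfAdjoint T := by
    rw [hT]
    exact IsSelfAdjoint.star_mul_self b
  have h2 : T ^ (2 * n) - T ^ (2 * n + 1) =
      cfc (fun x : ℝ => x ^ (2 * n) - x ^ (2 * n + 1)) T := by
    rw [cfc_sub (fun x : ℝ => x ^ (2 * n)) (fun x : ℝ => x ^ (2 * n + 1)) T,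
      cfc_pow_id (R := ℝ) T (2 * n), cfc_pow_id (R := ℝ) T (2 * n + 1)]
  rw [h2]
  refine norm_cfc_le (by positivity) fun x hx => ?_
  rw [Real.norm_eq_abs]
  refine real_est x ?_ ?_ n
  · rw [hT] at hx
    exact spectrum_star_mul_self_nonneg x hx
  · have h3 := spectrum.norm_le_norm_mul_of_mem hx
    have h4 : x ≤ ‖x‖ := Real.le_norm_self x
    have h5 : ‖T‖ * ‖(1 : A)‖ ≤ 1 := by
      calc ‖T‖ * ‖(1 : A)‖ ≤ 1 * 1 := mul_le_mul h1 hA (norm_nonneg _) zero_le_one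
        _ = 1 := one_mul 1
    linarith

variable {Q E : A}

lemma inter (hQ : Q * Q = Q) (hE : E * E = E) (n : ℕ) :
    (Q * (1 - E) * Q) ^ n * (Q * E) = (Q * E) * (E * (1 - Q) * E) ^ n := by
  have h1 : (Q * (1 - E) * Q) * (Q * E) = (Q * E) * (E * (1 - Q) * E) := by
    have e1 : (Q * (1 - E) * Q) * (Q * E) = Q * (1 - E) * (Q * Q) * E := by noncomm_ring
    have e2 : (Q * E) * (E * (1 - Q) * E) = Q * (E * E) * (1 - Q) * E := by noncomm_ring
    rw [e1, e2, hQ, hE]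
    have e3 : Q * (1 - E) * Q * E = (Q * Q) * E - Q * E * Q * E := by noncomm_ring
    have e4 : Q * E * (1 - Q) * E = Q * (E * E) - Q * E * Q * E := by noncomm_ring
    rw [e3, e4, hQ, hE]
  induction n with
  | zero => simp
  | succ n ih => rw [pow_succ', mul_assoc, ih, ← mul_assoc, h1, mul_assoc, ← pow_succ']

lemma mulQ (hQ : Q * Q = Q) (n : ℕ) (hn : 1 ≤ n) :
    Q * (Q * (1 - E) * Q) ^ n = (Q * (1 - E) * Q) ^ n ∧
      (Q * (1 - E) * Q) ^ n * Q = (Q * (1 - E) * Q) ^ n := by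
  obtain ⟨m, rfl⟩ := Nat.exists_eq_add_of_le' hn
  constructor
  · have h1 : Q * (Q * (1 - E) * Q) = Q * (1 - E) * Q := by
      rw [← mul_assoc, ← mul_assoc, hQ]
    rw [pow_succ', ← mul_assoc, h1]
  · have h1 : (Q * (1 - E) * Q) * Q = Q * (1 - E) * Q := by
      rw [mul_assoc, hQ]
    rw [pow_succ, mul_assoc, h1]

/-- one step for the trace -/
lemma trace_step {φ : A →L[ℂ] ℂ} (hφ : TS φ) (hQ : Q * Q = Q) (n : ℕ) (hn : 1 ≤ n) :
    φ ((Q * (1 - E) * Q) ^ (n + 1)) = φ ((Q * (1 - E) * Q) ^ n) -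
      φ ((Q * (1 - E) * Q) ^ n * (Q * E)) := by
  have h1 := mulQ (E := E) hQ n hn
  set T := Q * (1 - E) * Q with hT
  have h2 : T ^ (n + 1) = T ^ n - (T ^ n * (Q * E)) * Q := by
    rw [pow_succ]
    nth_rewrite 2 [hT]
    have e1 : T ^ n * (Q * (1 - E) * Q) = T ^ n * Q * Q - (T ^ n * (Q * E)) * Q := by
      noncomm_ring
    rw [e1, h1.2, h1.2]
  rw [h2, map_sub, hφ.tr (T ^ n * (Q * E)) Q, ← mul_assoc Q, h1.1]

/-- the identity for the traces -/
lemma trace_id {φ : A →L[ℂ] ℂ} (hφ : TS φ) (hQ : Q * Q = Q) (hE : E * E = E) (n : ℕ)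
    (hn : 1 ≤ n) : φ ((Q * (1 - E) * Q) ^ n) - φ Q = φ ((E * (1 - Q) * E) ^ n) - φ E := by
  induction n, hn using Nat.le_induction with
  | base =>
    rw [pow_one, pow_one]
    have e1 : Q * (1 - E) * Q = Q * Q - (Q * E) * Q := by noncomm_ring
    have e2 : E * (1 - Q) * E = E * E - E * (Q * E) := by noncomm_ring
    rw [e1, e2, hQ, hE, map_sub, map_sub, hφ.tr (Q * E) Q, ← mul_assoc, hQ,
      hφ.tr E (Q * E), mul_assoc, hE]
    ring
  | succ n hn ih =>
    have h1 := trace_step (E := E) hφ hQ n hn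
    have h2 := trace_step (E := Q) hφ hE n hn
    have h3 : φ ((Q * (1 - E) * Q) ^ n * (Q * E)) = φ ((E * (1 - Q) * E) ^ n * (E * Q)) := by
      rw [inter hQ hE n, hφ.tr (Q * E), ← mul_assoc, hφ.tr _ E]
      have h4 := (mulQ (Q := E) (E := Q) hE n hn).1
      have h5 := (mulQ (Q := E) (E := Q) hE n hn).2
      rw [← mul_assoc, ← mul_assoc, h4, h5]
    rw [h1, h2, h3]
    linear_combination ih

end PQN_

open PQN_ in
theorem p_PQN : T_PQN := by
  intro A _ φ Q E n hφ hQp hEp hn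
  have hQ : Q * Q = Q := hQp.isIdempotentElem.eq
  have hE : E * E = E := hEp.isIdempotentElem.eq
  have hQs : star Q = Q := hQp.isSelfAdjoint.star_eq
  have hEs : star E = E := hEp.isSelfAdjoint.star_eq
  have h1E : (1 - E) * (1 - E) = 1 - E := by
    have e : (1 - E) * (1 - E) = 1 - E - E + E * E := by noncomm_ring
    rw [e, hE]
    abel
  have h1Q : (1 - Q) * (1 - Q) = 1 - Q := by
    have e : (1 - Q) * (1 - Q) = 1 - Q - Q + Q * Q := by noncomm_ring
    rw [e, hQ]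
    abel
  have hTb : Q * (1 - E) * Q = star ((1 - E) * Q) * ((1 - E) * Q) := by
    rw [star_mul, star_sub, star_one, hEs, hQs]
    calc Q * (1 - E) * Q = Q * ((1 - E) * (1 - E)) * Q := by rw [h1E]
      _ = Q * (1 - E) * ((1 - E) * Q) := by noncomm_ring
  have hSb : E * (1 - Q) * E = star ((1 - Q) * E) * ((1 - Q) * E) := by
    rw [star_mul, star_sub, star_one, hEs, hQs]
    calc E * (1 - Q) * E = E * ((1 - Q) * (1 - Q)) * E := by rw [h1Q]
      _ = E * (1 - Q) * ((1 - Q) * E) := by noncomm_ring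
  have hA : ‖(1 : A)‖ ≤ 1 := norm_le (IsStarProjection.one A)
  have hnQ := norm_le hQp
  have hn1E : ‖1 - E‖ ≤ 1 := norm_le hEp.one_sub
  have hT1 : ‖Q * (1 - E) * Q‖ ≤ 1 := by
    calc ‖Q * (1 - E) * Q‖ ≤ ‖Q‖ * ‖1 - E‖ * ‖Q‖ :=
          (norm_mul_le _ _).trans (mul_le_mul_of_nonneg_right (norm_mul_le _ _) (norm_nonneg _))
      _ ≤ 1 * 1 * 1 := by gcongr
      _ = 1 := by norm_num
  have hmQ := mulQ (E := E) hQ n hn
  have hTs : star (Q * (1 - E) * Q) = Q * (1 - E) * Q := by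
    rw [hTb, star_mul, star_star]
  refine ⟨pos_pow hTb n, ?_, hmQ.1, hmQ.2, ?_, ?_⟩
  · exact (norm_pow_le' _ (by omega)).trans (pow_le_one₀ (norm_nonneg _) hT1)
  · have h1 := norm_est hTb hT1 hA n
    set T := Q * (1 - E) * Q with hT
    have h2 : star (E * T ^ n) * (E * T ^ n) = T ^ (2 * n) - T ^ (2 * n + 1) := by
      rw [star_mul, star_pow, hTs, hEs]
      have e1 : T ^ n * E * (E * T ^ n) = T ^ n * (E * E) * T ^ n := by noncomm_ring
      rw [e1, hE]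
      have e2 : T ^ n * E * T ^ n = (T ^ n * Q) * E * (Q * T ^ n) := by rw [hmQ.1, hmQ.2]
      have e3 : (T ^ n * Q) * E * (Q * T ^ n) = (T ^ n * Q) * (Q * T ^ n) -
          T ^ n * (Q * (1 - E) * Q) * T ^ n := by noncomm_ring
      rw [e2, e3, hmQ.1, hmQ.2, ← hT, ← pow_succ, ← pow_add, ← pow_add]
      congr 2 <;> omega
    rw [sq, ← CStarRing.norm_star_mul_self, h2]
    exact h1
  · have h1 := trace_id hφ hQ hE n hn
    obtain ⟨y, hy⟩ := pos_pow hSb n
    have h2 := (hφ.pos y).1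
    rw [← hy] at h2
    have h3 := congrArg Complex.re h1
    simp only [Complex.sub_re] at h3
    linarith

end Pool.Agent.FPS
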