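import Pool.Agent.FPS.Targets4

/-!
# FPS: PRK, projections in matrix algebras
-/

set_option autoImplicit false

open scoped Classical
open Pool.Agent.FPZ

noncomputable section

namespace Pool.Agent.FPS

namespace PRK_

/-- Every projection is unitarily equivalent to a diagonal projection. -/
lemma diagonalise (n : Type) [Fintype n] (P : Matrix n n ℂ) (h1 : P * P = P)
    (h2 : P.conjTranspose = P) :
    ∃ (U : Matrix n n ℂ) (S : Finset n), U.conjTranspose * U = 1 ∧ U * U.conjTranspose = 1 ∧
      P = U * Matrix.diagonal (fun i => if i ∈ S then (1 : ℂ) else 0) * U.conjTranspose := by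
  have hP : P.IsHermitian := h2
  set U : Matrix n n ℂ := (hP.eigenvectorUnitary : Matrix n n ℂ) with hU
  have hU1 : U.conjTranspose * U = 1 := by
    have := hP.eigenvectorUnitary.2
    rw [Matrix.mem_unitaryGroup_iff'] at this
    exact this
  have hU2 : U * U.conjTranspose = 1 := by
    have := hP.eigenvectorUnitary.2
    rw [Matrix.mem_unitaryGroup_iff] at this
    exact this
  have hsp : P = U * Matrix.diagonal (RCLike.ofReal ∘ hP.eigenvalues : n → ℂ) *
      U.conjTranspose := by
    have := hP.spectral_theorem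
    rw [Unitary.conjStarAlgAut_apply] at this
    exact this
  have hD : Matrix.diagonal (RCLike.ofReal ∘ hP.eigenvalues : n → ℂ) =
      U.conjTranspose * P * U := by
    have hgen : ∀ D Q : Matrix n n ℂ, Q = U * D * U.conjTranspose →
        D = U.conjTranspose * Q * U := by
      intro D Q hQ
      rw [hQ]
      simp only [Matrix.mul_assoc]
      rw [hU1, Matrix.mul_one, ← Matrix.mul_assoc, hU1, Matrix.one_mul]
    exact hgen _ _ hsp
  have hDD : Matrix.diagonal (RCLike.ofReal ∘ hP.eigenvalues : n → ℂ) *
      Matrix.diagonal (RCLike.ofReal ∘ hP.eigenvalues : n → ℂ) =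
      Matrix.diagonal (RCLike.ofReal ∘ hP.eigenvalues : n → ℂ) := by
    rw [hD]
    calc U.conjTranspose * P * U * (U.conjTranspose * P * U)
        = U.conjTranspose * P * (U * U.conjTranspose) * P * U := by
          simp only [Matrix.mul_assoc]
      _ = U.conjTranspose * (P * P) * U := by
          rw [hU2, Matrix.mul_one]
          simp only [Matrix.mul_assoc]
      _ = _ := by rw [h1]
  have hev : ∀ i, hP.eigenvalues i = 0 ∨ hP.eigenvalues i = 1 := by
    intro i
    have h := congrFun (congrFun hDD i) i
    rw [Matrix.diagonal_mul_diagonal, Matrix.diagonal_apply_eq, Matrix.diagonal_apply_eq] at h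
    have h' : ((hP.eigenvalues i : ℂ)) * (hP.eigenvalues i : ℂ) = (hP.eigenvalues i : ℂ) := h
    have h'' : hP.eigenvalues i * hP.eigenvalues i = hP.eigenvalues i := by exact_mod_cast h'
    by_cases h0 : hP.eigenvalues i = 0
    · exact Or.inl h0
    · right
      have := mul_left_cancel₀ h0 (h''.trans (mul_one _).symm)
      exact this
  refine ⟨U, Finset.univ.filter fun i => hP.eigenvalues i = 1, hU1, hU2, ?_⟩
  conv_lhs => rw [hsp]
  congr 2
  congr 1
  funext i
  simp only [Function.comp, Finset.mem_filter, Finset.mem_univ, true_and]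
  rcases hev i with h | h
  · rw [h]; simp
  · rw [h]; simp

lemma trace_eq (n : Type) [Fintype n] (U : Matrix n n ℂ) (S : Finset n)
    (h : U.conjTranspose * U = 1) :
    (U * Matrix.diagonal (fun i => if i ∈ S then (1 : ℂ) else 0) * U.conjTranspose).trace =
      (S.card : ℂ) := by
  rw [Matrix.trace_mul_comm, ← Matrix.mul_assoc, h, Matrix.one_mul, Matrix.trace_diagonal]
  simp

/-- The entries of a diagonalised projection. -/
lemma entry (n : Type) [Fintype n] (U : Matrix n n ℂ) (S : Finset n) (a b : n) :
    (U * Matrix.diagonal (fun i => if i ∈ S then (1 : ℂ) else 0) * U.conjTranspose) a b =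
      ∑ k ∈ S, U a k * star (U b k) := by
  rw [Matrix.mul_apply]
  simp only [Matrix.mul_diagonal, Matrix.conjTranspose_apply]
  rw [← Finset.sum_filter_add_sum_filter_not Finset.univ (fun k => k ∈ S)]
  have h2 : ∑ k ∈ Finset.univ.filter (fun k => ¬ k ∈ S),
      U a k * (if k ∈ S then (1 : ℂ) else 0) * star (U b k) = 0 := by
    refine Finset.sum_eq_zero fun k hk => ?_
    rw [if_neg (Finset.mem_filter.1 hk).2]
    ring
  rw [h2, add_zero]
  have h3 : Finset.univ.filter (fun k => k ∈ S) = S := by ext; simp
  rw [h3]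
  refine Finset.sum_congr rfl fun k hk => ?_
  rw [if_pos hk, mul_one]

end PRK_

open PRK_ in
theorem p_PRK : T_PRK := by
  intro n _ P P₀ h1 h2 h3 h4 h5
  obtain ⟨U, S, hU1, hU2, hP⟩ := diagonalise n P h1 h2
  obtain ⟨V, T, hV1, hV2, hP0⟩ := diagonalise n P₀ h3 h4
  have hcard : S.card = T.card + 1 := by
    have : (S.card : ℂ) = (T.card : ℂ) + 1 := by
      rw [← trace_eq n U S hU1, ← trace_eq n V T hV1, ← hP, ← hP0]
      exact h5
    exact_mod_cast this
  have hne : S.Nonempty := by
    rw [← Finset.card_pos]; omega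
  obtain ⟨s, hs⟩ := hne
  have hcard2 : T.card = (S.erase s).card := by
    rw [Finset.card_erase_of_mem hs]; omega
  let e : {x // x ∈ T} ≃ {x // x ∈ S.erase s} := Finset.equivOfCardEq hcard2
  let σ : Equiv.Perm n := e.extendSubtype
  have hσ : ∀ x, x ∈ T ↔ σ x ∈ S.erase s := by
    intro x
    constructor
    · intro hx
      exact e.extendSubtype_mem x hx
    · intro hx
      by_contra hx'
      exact e.extendSubtype_not_mem x hx' hx
  let W : Matrix n n ℂ := U.submatrix id σ
  have hW1 : W.conjTranspose * W = 1 := by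
    ext i j
    have h := congrFun (congrFun hU1 (σ i)) (σ j)
    rw [Matrix.mul_apply] at h ⊢
    rw [Matrix.one_apply] at h ⊢
    simp only [EmbeddingLike.apply_eq_iff_eq] at h
    exact h
  have hW2 : W * W.conjTranspose = 1 := by
    ext i j
    have h := congrFun (congrFun hU2 i) j
    rw [Matrix.mul_apply] at h ⊢
    rw [← h, ← Equiv.sum_comp σ (fun k => U i k * U.conjTranspose k j)]
    rfl
  refine ⟨W * V.conjTranspose, fun a => U a s, ?_, ?_, ?_, ?_⟩
  · rw [Matrix.conjTranspose_mul, Matrix.conjTranspose_conjTranspose, Matrix.mul_assoc,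
      ← Matrix.mul_assoc W.conjTranspose, hW1, Matrix.one_mul, hV2]
  · rw [Matrix.conjTranspose_mul, Matrix.conjTranspose_conjTranspose, Matrix.mul_assoc,
      ← Matrix.mul_assoc V.conjTranspose, hV1, Matrix.one_mul, hW2]
  · have h := congrFun (congrFun hU1 s) s
    rw [Matrix.mul_apply, Matrix.one_apply_eq] at h
    have h' : ((∑ a, ‖U a s‖ ^ 2 : ℝ) : ℂ) = 1 := by
      rw [← h]
      push_cast
      refine Finset.sum_congr rfl fun a _ => ?_
      rw [Matrix.conjTranspose_apply]
      rw [Complex.star_def, Complex.conj_mul']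
    exact_mod_cast h'
  · have hX : W * V.conjTranspose * P₀ * (W * V.conjTranspose).conjTranspose =
        W * Matrix.diagonal (fun i => if i ∈ T then (1 : ℂ) else 0) * W.conjTranspose := by
      rw [hP0, Matrix.conjTranspose_mul, Matrix.conjTranspose_conjTranspose]
      calc W * V.conjTranspose * (V * Matrix.diagonal (fun i => if i ∈ T then (1 : ℂ) else 0) *
            V.conjTranspose) * (V * W.conjTranspose)
          = W * (V.conjTranspose * V) * Matrix.diagonal (fun i => if i ∈ T then (1 : ℂ) else 0) *
            (V.conjTranspose * V) * W.conjTranspose := by simp only [Matrix.mul_assoc]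
        _ = _ := by rw [hV1, Matrix.mul_one, Matrix.mul_one]
    rw [hX]
    ext a b
    rw [Matrix.add_apply, entry n W T a b, Matrix.of_apply]
    conv_lhs => rw [hP]
    rw [entry n U S a b]
    rw [← Finset.sum_erase_add S _ hs]
    congr 1
    refine (Finset.sum_bij (fun k _ => σ k) (fun k hk => (hσ k).1 hk)
      (fun k _ l _ hkl => σ.injective hkl) (fun k hk => ?_) (fun k _ => rfl)).symm
    refine ⟨σ.symm k, ?_, by simp⟩
    rw [hσ]; simpa using hk

end Pool.Agent.FPS
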