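import Pool.Agent.FPS.Targets2

set_option autoImplicit false

/-!
# FPS: PSM, positive elements of a C*-algebra
-/

open scoped Classical
open MeasureTheory Pool.Agent.FPZ

noncomputable section

namespace Pool.Agent.FPS

namespace PSM_

/-- `Pos a` is `0 ≤ a` in the spectral order -/
theorem pos_iff {A : Type} [CStarAlgebra A] (a : A) :
    Pos a ↔ (CStarAlgebra.spectralOrder A).le 0 a := by
  letI := CStarAlgebra.spectralOrder A
  haveI := CStarAlgebra.spectralOrderedRing A
  exact (CStarAlgebra.nonneg_iff_eq_star_mul_self (a := a)).symm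

end PSM_

theorem p_PSM : T_PSM := by
  intro A _
  letI := CStarAlgebra.spectralOrder A
  haveI := CStarAlgebra.spectralOrderedRing A
  have hp : ∀ a : A, Pos a ↔ 0 ≤ a := PSM_.pos_iff
  refine ⟨?_, ?_, ?_, ?_, ?_, ?_, ?_⟩
  · intro a b ha hb
    rw [hp] at *
    exact add_nonneg ha hb
  · intro a t ht ha
    rw [hp] at *
    exact smul_nonneg ht ha
  · intro a x ha
    rw [hp] at *
    exact star_left_conjugate_nonneg ha x
  · have h : {a : A | Pos a} = {a : A | 0 ≤ a} := by
      ext a
      exact hp a
    rw [h]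
    exact CStarAlgebra.isClosed_nonneg
  · intro a b ha hb
    rw [hp] at *
    exact CStarAlgebra.norm_le_norm_of_nonneg_of_le ha (le_add_of_nonneg_right hb)
  · intro a ha h1
    rw [hp] at *
    rw [sub_nonneg]
    exact (CStarAlgebra.norm_le_one_iff_of_nonneg a ha).1 h1
  · intro a ha h1
    rw [hp] at *
    rw [sub_nonneg] at h1
    exact (CStarAlgebra.norm_le_one_iff_of_nonneg a ha).2 h1

end Pool.Agent.FPS
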