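import Pool.Agent.FPS.Targets2

set_option autoImplicit false

/-!
# FPS, PTC: chains of points in a connected compact space
-/

open scoped Classical
open MeasureTheory Pool.Agent.FPZ

noncomputable section

namespace Pool.Agent.FPS

namespace PTC_

/-- the points reached in `n` steps -/
def Sr {K : Type} [TopologicalSpace K] (k₀ : K) (F : Finset C(K, ℂ)) (ε : ℝ) (n : ℕ) (x : K) : Prop :=
  ∃ w : ℕ → K, w 0 = k₀ ∧ w n = x ∧ ∀ l < n, ∀ f ∈ F, ‖f (w l) - f (w (l + 1))‖ ≤ ε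

theorem Sr_step {K : Type} [TopologicalSpace K] {k₀ : K} {F : Finset C(K, ℂ)} {ε : ℝ} {n : ℕ}
    {x y : K} (h : Sr k₀ F ε n x) (hR : ∀ f ∈ F, ‖f x - f y‖ ≤ ε) : Sr k₀ F ε (n + 1) y := by
  obtain ⟨w, h0, hn, hl⟩ := h
  refine ⟨fun l => if l ≤ n then w l else y, by simp [h0], by simp, fun l hl' f hf => ?_⟩
  rcases Nat.lt_or_ge l n with h1 | h1
  · have h2 : l ≤ n := h1.le
    have h3 : l + 1 ≤ n := h1
    simp only [if_pos h2, if_pos h3]
    exact hl l h1 f hf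
  · have h2 : l = n := by omega
    subst h2
    have h3 : ¬ (l + 1 ≤ l) := by omega
    simp only [le_refl, if_true, if_neg h3]
    rw [hn]
    exact hR f hf

/-- the open set of points one small step away -/
def Vr {K : Type} [TopologicalSpace K] (k₀ : K) (F : Finset C(K, ℂ)) (ε : ℝ) (n : ℕ) : Set K :=
  {y | ∃ x, Sr k₀ F ε n x ∧ ∀ f ∈ F, ‖f x - f y‖ < ε}

theorem isOpen_nb {K : Type} [TopologicalSpace K] (F : Finset C(K, ℂ)) (ε : ℝ) (x : K) :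
    IsOpen {y : K | ∀ f ∈ F, ‖f x - f y‖ < ε} := by
  have h : {y : K | ∀ f ∈ F, ‖f x - f y‖ < ε} = ⋂ f ∈ F, {y : K | ‖f x - f y‖ < ε} := by
    ext y
    simp
  rw [h]
  refine isOpen_biInter_finset fun f _ => ?_
  exact isOpen_lt (by fun_prop) continuous_const

theorem isOpen_Vr {K : Type} [TopologicalSpace K] (k₀ : K) (F : Finset C(K, ℂ)) (ε : ℝ) (n : ℕ) :
    IsOpen (Vr k₀ F ε n) := by
  have h : Vr k₀ F ε n = ⋃ x ∈ {x | Sr k₀ F ε n x}, {y : K | ∀ f ∈ F, ‖f x - f y‖ < ε} := by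
    ext y
    simp [Vr]
  rw [h]
  exact isOpen_biUnion fun x _ => isOpen_nb F ε x

theorem Vr_sub {K : Type} [TopologicalSpace K] {k₀ : K} {F : Finset C(K, ℂ)} {ε : ℝ} {n : ℕ}
    {y : K} (h : y ∈ Vr k₀ F ε n) : Sr k₀ F ε (n + 1) y := by
  obtain ⟨x, hx, h⟩ := h
  exact Sr_step hx fun f hf => (h f hf).le

theorem sub_Vr {K : Type} [TopologicalSpace K] {k₀ : K} {F : Finset C(K, ℂ)} {ε : ℝ} (hε : 0 < ε)
    {n : ℕ} {y : K} (h : Sr k₀ F ε n y) : y ∈ Vr k₀ F ε n :=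
  ⟨y, h, fun f _ => by simpa using hε⟩

theorem Vr_mono {K : Type} [TopologicalSpace K] {k₀ : K} {F : Finset C(K, ℂ)} {ε : ℝ}
    (hε : 0 < ε) : Monotone (Vr k₀ F ε) :=
  monotone_nat_of_le_succ fun _ _ hy => sub_Vr hε (Vr_sub hy)

theorem iUnion_Vr {K : Type} [TopologicalSpace K] [ConnectedSpace K] {k₀ : K}
    {F : Finset C(K, ℂ)} {ε : ℝ} (hε : 0 < ε) : (⋃ n, Vr k₀ F ε n) = Set.univ := by
  have hcl : IsClopen (⋃ n, Vr k₀ F ε n) := by
    refine ⟨?_, isOpen_iUnion fun n => isOpen_Vr k₀ F ε n⟩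
    rw [← isOpen_compl_iff, isOpen_iff_mem_nhds]
    intro y hy
    filter_upwards [(isOpen_nb F ε y).mem_nhds (by simpa using fun _ _ => hε)] with z hz
    intro hz'
    apply hy
    obtain ⟨n, hn⟩ := Set.mem_iUnion.1 hz'
    refine Set.mem_iUnion.2 ⟨n + 1, z, Vr_sub hn, fun f hf => ?_⟩
    rw [norm_sub_rev]
    exact hz f hf
  exact hcl.eq_univ ⟨k₀, Set.mem_iUnion.2 ⟨0, sub_Vr hε ⟨fun _ => k₀, rfl, rfl, by simp⟩⟩⟩

end PTC_

open PTC_ in
theorem p_PTC : T_PTC := by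
  intro K _ _ _ k₀ F ε hε
  obtain ⟨n, hn⟩ := isCompact_univ.elim_directed_cover (Vr k₀ F ε)
    (fun n => isOpen_Vr k₀ F ε n) (iUnion_Vr hε).ge (Vr_mono hε).directed_le
  exact ⟨n + 1, fun x => Vr_sub (hn (Set.mem_univ x))⟩

end Pool.Agent.FPS
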