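import Pool.Agent.FPS.Targets1
import Pool.Agent.FPZ.P_CLS

set_option autoImplicit false

/-!
# FPS (MP_32d866_an): a continuous path of projections gives a unitary (target PTH)
-/

open scoped Classical
open MeasureTheory Pool.Agent.FPZ

noncomputable section

namespace Pool.Agent.FPS

namespace PTH_

variable {A : Type} [CStarAlgebra A]

theorem mul_swap {M P : A} (hM : IsStarProjection M) (hP : IsStarProjection P) (h : M * P = 0) :
    P * M = 0 := by
  have h1 := congrArg star h
  rwa [star_mul, hM.isSelfAdjoint.star_eq, hP.isSelfAdjoint.star_eq, star_zero] at h1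

/-- Close projections orthogonal to `M`: a unitary fixing `M`. -/
theorem step (M P Q : A) (hM : IsStarProjection M) (hP : IsStarProjection P)
    (hQ : IsStarProjection Q) (hMP : M * P = 0) (hMQ : M * Q = 0) (hPQ : ‖P - Q‖ < 1) :
    ∃ u : A, Uni u ∧ u * P = Q * u ∧ u * M = M ∧ M * u = M := by
  have hPM := mul_swap hM hP hMP
  have hQM := mul_swap hM hQ hMQ
  have hM1 : M * M = M := hM.isIdempotentElem.eq
  have hM2 : star M = M := hM.isSelfAdjoint.star_eq
  set D : StarSubalgebra ℂ A := StarSubalgebra.centralizer ℂ ({M} : Set A) with hD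
  have hmem : ∀ x : A, x ∈ D ↔ x * M = M * x := by
    intro x
    rw [hD, StarSubalgebra.mem_centralizer_iff]
    constructor
    · intro h
      exact (h M rfl).1.symm
    · intro h g hg
      rw [Set.mem_singleton_iff] at hg
      subst hg
      rw [hM2]
      exact ⟨h.symm, h.symm⟩
  have hcl : IsClosed (D : Set A) := by
    have : (D : Set A) = {x : A | x * M = M * x} := by
      ext x
      exact hmem x
    rw [this]
    exact isClosed_eq (continuous_id.mul continuous_const) (continuous_const.mul continuous_id)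
  obtain ⟨u, huD, hu1, hu2, hu3⟩ := p_CLS A D P Q hcl hP hQ ((hmem P).2 (by rw [hPM, hMP]))
    ((hmem Q).2 (by rw [hQM, hMQ])) hPQ
  have hc : u * M = M * u := (hmem u).1 huD
  have hc' : M * star u = star u * M := by
    have := congrArg star hc
    rwa [star_mul, star_mul, hM2] at this
  have hMM : M * (1 - M) = 0 := by rw [mul_sub, mul_one, hM1, sub_self]
  have hMM' : (1 - M) * M = 0 := by rw [sub_mul, one_mul, hM1, sub_self]
  have hNN : (1 - M) * (1 - M) = 1 - M := by rw [sub_mul, one_mul, hMM, sub_zero]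
  have hcN : u * (1 - M) = (1 - M) * u := by rw [mul_sub, sub_mul, mul_one, one_mul, hc]
  have hcN' : (1 - M) * star u = star u * (1 - M) := by
    rw [mul_sub, sub_mul, mul_one, one_mul, hc']
  refine ⟨M + (1 - M) * u, ⟨?_, ?_⟩, ?_, ?_, ?_⟩
  · rw [star_add, star_mul, star_sub, star_one, hM2]
    have e1 : (M + star u * (1 - M)) * (M + (1 - M) * u) =
        M * M + M * (1 - M) * u + star u * ((1 - M) * M) + star u * ((1 - M) * (1 - M)) * u := by
      noncomm_ring
    rw [e1, hM1, hMM, hMM', hNN, zero_mul, mul_zero, ← hcN', mul_assoc, hu1]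
    noncomm_ring
  · rw [star_add, star_mul, star_sub, star_one, hM2]
    have e1 : (M + (1 - M) * u) * (M + star u * (1 - M)) =
        M * M + M * star u * (1 - M) + (1 - M) * (u * M) + (1 - M) * (u * star u) * (1 - M) := by
      noncomm_ring
    rw [e1, hM1, hc', mul_assoc, hMM, hc, ← mul_assoc, hMM', hu2, mul_zero, zero_mul, mul_one, hNN]
    noncomm_ring
  · have e1 : (M + (1 - M) * u) * P = M * P + (1 - M) * (u * P) := by noncomm_ring
    have e2 : Q * (M + (1 - M) * u) = Q * M + Q * u - Q * M * u := by noncomm_ring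
    have e3 : (1 - M) * (Q * u) = Q * u - M * Q * u := by noncomm_ring
    rw [e1, e2, hMP, hQM, hu3, e3, hMQ]
    noncomm_ring
  · have e1 : (M + (1 - M) * u) * M = M * M + (1 - M) * (u * M) := by noncomm_ring
    rw [e1, hM1, hc, ← mul_assoc, hMM', zero_mul, add_zero]
  · have e1 : M * (M + (1 - M) * u) = M * M + M * (1 - M) * u := by noncomm_ring
    rw [e1, hM1, hMM, zero_mul, add_zero]

theorem comp {M P Q R u v : A} (hu : Uni u) (hv : Uni v) (h1 : u * P = Q * u) (h2 : v * Q = R * v)
    (hu1 : u * M = M) (hu2 : M * u = M) (hv1 : v * M = M) (hv2 : M * v = M) :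
    Uni (v * u) ∧ v * u * P = R * (v * u) ∧ v * u * M = M ∧ M * (v * u) = M := by
  refine ⟨⟨?_, ?_⟩, ?_, ?_, ?_⟩
  · rw [star_mul, mul_assoc, ← mul_assoc (star v), hv.1, one_mul, hu.1]
  · rw [star_mul, mul_assoc, ← mul_assoc u, hu.2, one_mul, hv.2]
  · rw [mul_assoc, h1, ← mul_assoc, h2, mul_assoc]
  · rw [mul_assoc, hu1, hv1]
  · rw [← mul_assoc, hv2, hu2]

end PTH_

/-- A continuous path of projections orthogonal to `M` gives a unitary fixing `M`. -/
theorem p_PTH : T_PTH := by
  intro A _ M r hM hr hproj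
  obtain ⟨δ, hδ, hunif⟩ := Metric.uniformContinuousOn_iff.1
    (isCompact_Icc.uniformContinuousOn_of_continuous hr) 1 one_pos
  obtain ⟨N, hN⟩ := exists_nat_gt (1 / δ)
  have hN0 : (0 : ℝ) < N := lt_trans (by positivity) hN
  have hmesh : 1 / (N : ℝ) < δ := by
    rw [div_lt_iff₀ hN0]
    rw [div_lt_iff₀ hδ] at hN
    linarith [mul_comm δ (N : ℝ)]
  have hmem : ∀ i : ℕ, i ≤ N → (i : ℝ) / N ∈ Set.Icc (0 : ℝ) 1 := by
    intro i hi
    refine ⟨by positivity, ?_⟩
    rw [div_le_one hN0]
    exact_mod_cast hi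
  have key : ∀ i : ℕ, i ≤ N →
      ∃ u : A, Uni u ∧ u * r 0 = r (i / N) * u ∧ u * M = M ∧ M * u = M := by
    intro i
    induction i with
    | zero =>
      intro _
      refine ⟨1, ⟨by simp, by simp⟩, by simp, by simp, by simp⟩
    | succ i ih =>
      intro hi
      obtain ⟨u, hu, h1, h2, h3⟩ := ih (by omega)
      have m1 := hmem i (by omega)
      have m2 := hmem (i + 1) hi
      have hd : ‖r (i / N) - r (((i + 1 : ℕ) : ℝ) / N)‖ < 1 := by
        rw [← dist_eq_norm]
        refine hunif _ m1 _ m2 ?_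
        have e : (i : ℝ) / N - ((i + 1 : ℕ) : ℝ) / N = -(1 / N) := by
          push_cast
          field_simp
          ring
        rw [Real.dist_eq, e, abs_neg, abs_of_pos (by positivity)]
        exact hmesh
      obtain ⟨v, hv, k1, k2, k3⟩ := PTH_.step M _ _ hM (hproj _ m1).1 (hproj _ m2).1
        (hproj _ m1).2 (hproj _ m2).2 hd
      exact ⟨v * u, PTH_.comp hu hv h1 k1 h2 h3 k2 k3⟩
  obtain ⟨u, hu, h1, h2, h3⟩ := key N le_rfl
  rw [div_self hN0.ne'] at h1
  exact ⟨u, hu, h1, h2, h3⟩

end Pool.Agent.FPS
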