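import Pool.Agent.FPS.Targets1
import Pool.Agent.FPZ.P_POL

set_option autoImplicit false

/-!
# FPS, target QCA: comparison of a projection with a positive contraction
-/

open scoped Classical
open MeasureTheory Pool.Agent.FPZ

noncomputable section

namespace Pool.Agent.FPS

namespace QCA_

theorem norm_le_one {A : Type} [CStarAlgebra A] {v R : A} (hR : IsStarProjection R)
    (hv : star v * v = R) : ‖v‖ ≤ 1 := by
  have h1 : ‖v‖ * ‖v‖ = ‖R‖ := by rw [← CStarRing.norm_star_mul_self, hv]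
  have h2 : ‖R‖ * ‖R‖ = ‖R‖ := by
    have h3 : star R * R = R := by
      have hs : star R = R := hR.isSelfAdjoint
      rw [hs]
      exact hR.isIdempotentElem
    have h4 : ‖star R * R‖ = ‖R‖ * ‖R‖ := CStarRing.norm_star_mul_self
    rw [← h4, h3]
  have h5 : ‖R‖ ≤ 1 := by
    by_contra h6
    push Not at h6
    nlinarith
  nlinarith [norm_nonneg v]

end QCA_

theorem p_QCA (hQ : T_QCP) (hR : T_RCM) : T_QCA := by
  intro lam T₀ hl hlT hT
  obtain ⟨C, hC, h⟩ := hQ lam T₀ hl hlT hT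
  refine ⟨C, hC, ?_⟩
  intro A _ φ hφ f P hf hf1 hfT hP hPl
  have hP0 : 0 ≤ (φ P).re := by
    have h1 : star P * P = P := by
      have hs : star P = P := hP.isSelfAdjoint
      rw [hs]
      exact hP.isIdempotentElem
    have h2 := (hφ.ts.pos P).1
    rwa [h1] at h2
  obtain ⟨R, hRp, hR1, hR2, hRy⟩ := h A φ hφ f f hf hf hf1 hf1 hfT hfT (φ P).re hP0 hPl
  obtain ⟨y, hyC, hy⟩ := hRy 0 le_rfl zero_le_one
  have hy' : y * (f * R) = R := by
    simpa using hy
  obtain ⟨x₀, -, hx₀⟩ := p_POL A ⊤ R f y isClosed_univ hRp trivial trivial hy'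
  obtain ⟨w, hw1, hw2⟩ := hR A φ hφ P R hP hRp hR1
  have hv1 : ‖f * R * x₀‖ ≤ 1 := QCA_.norm_le_one hRp hx₀
  have hw3 : ‖w‖ ≤ 1 := QCA_.norm_le_one hP hw1
  have he : R * x₀ * w = y * (f * R * x₀) * w := by
    calc R * x₀ * w = y * (f * R) * x₀ * w := by rw [hy']
      _ = y * (f * R * x₀) * w := by simp only [mul_assoc]
  refine ⟨R * x₀ * w, ?_, ?_⟩
  · rw [he]
    refine (norm_mul_le _ _).trans ?_
    have h1 : ‖y * (f * R * x₀)‖ ≤ C * 1 :=
      (norm_mul_le _ _).trans (mul_le_mul hyC hv1 (norm_nonneg _) hC.le)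
    calc ‖y * (f * R * x₀)‖ * ‖w‖ ≤ C * 1 * 1 :=
          mul_le_mul h1 hw3 (norm_nonneg _) (by linarith)
      _ = C := by ring
  · have h1 : f * (R * x₀ * w) = f * R * x₀ * w := by simp only [mul_assoc]
    rw [h1, star_mul]
    calc star w * star (f * R * x₀) * (f * R * x₀ * w)
        = star w * (star (f * R * x₀) * (f * R * x₀)) * w := by simp only [mul_assoc]
      _ = star w * R * w := by rw [hx₀]
      _ = star w * w := by rw [mul_assoc, hw2]
      _ = P := hw1

end Pool.Agent.FPS
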