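import Pool.Agent.FPS.Targets5

set_option autoImplicit false

/-!
# FPS, target QCE: adapted projections commute with `e₀`
-/

open scoped Classical
open MeasureTheory Pool.Agent.FPZ

noncomputable section

namespace Pool.Agent.FPS

namespace QCE_

theorem star_toC {K : Type} [TopologicalSpace K] (g : C(K, ℝ)) : star (toC g) = toC g := by
  ext x
  simp [toC]

end QCE_

theorem p_QCE : T_QCE := by
  intro K A _ _ _ L k₀ e₀ K₀ g Q he hL hdis hQ hort had hE k
  set p : A := 1 - e₀ with hpdef
  have hps : star p = p := by rw [hpdef, star_sub, star_one, he.isSelfAdjoint.star_eq]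
  have hpL : ∀ j, p * L (toC (g j)) = (toC (g j) k₀) • p := by
    intro j
    have h1 := congrArg star (hL (toC (g j)))
    rw [star_mul, hps, ← map_star, QCE_.star_toC, star_smul, hps] at h1
    rw [h1]
    congr 1
    have h2 := congrArg (fun f : C(K, ℂ) => f k₀) (QCE_.star_toC (g j))
    simpa using h2
  have hpQ : ∀ j, p * Q j = (toC (g j) k₀) • (p * Q j) := by
    intro j
    calc p * Q j = p * (L (toC (g j)) * Q j) := by rw [had j]
      _ = (p * L (toC (g j))) * Q j := by rw [mul_assoc]
      _ = (toC (g j) k₀) • (p * Q j) := by rw [hpL j, smul_mul_assoc]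
  have hzero : ∀ j, toC (g j) k₀ ≠ 1 → p * Q j = 0 := by
    intro j hj
    have h1 : (1 - toC (g j) k₀) • (p * Q j) = 0 := by
      rw [sub_smul, one_smul, ← hpQ j, sub_self]
    rcases smul_eq_zero.mp h1 with h2 | h2
    · exact absurd (sub_eq_zero.mp h2).symm hj
    · exact h2
  have hpS : p = p * ∑ j, Q j := by
    have h1 : p * (1 - ∑ j, Q j) = 0 := by
      rw [hpdef, sub_mul, one_mul, hE, sub_self]
    rw [mul_sub, mul_one, sub_eq_zero] at h1
    exact h1
  have key : p * Q k = Q k * p := by
    by_cases hk : toC (g k) k₀ = 1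
    · have hgk : g k k₀ ≠ 0 := by
        intro h0
        apply one_ne_zero (α := ℂ)
        rw [← hk]
        simp [toC, h0]
      have hother : ∀ j, j ≠ k → p * Q j = 0 := by
        intro j hj
        apply hzero j
        intro h1
        have h2 : g j k₀ = 0 := hdis k j k₀ (Ne.symm hj) hgk
        have h3 : toC (g j) k₀ = 0 := by simp [toC, h2]
        rw [h3] at h1
        exact zero_ne_one h1
      have h4 : p = p * Q k := by
        calc p = p * ∑ j, Q j := hpS
          _ = ∑ j, p * Q j := by rw [Finset.mul_sum]
          _ = p * Q k := Finset.sum_eq_single k (fun j _ hj => hother j hj)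
              (fun h => absurd (Finset.mem_univ k) h)
      have h5 : p = Q k * p := by
        have := congrArg star h4
        rwa [star_mul, hps, (hQ k).isSelfAdjoint.star_eq] at this
      rw [← h4, ← h5]
    · have h1 := hzero k hk
      have h2 := congrArg star h1
      rw [star_mul, hps, (hQ k).isSelfAdjoint.star_eq, star_zero] at h2
      rw [h1, h2]
  have he₀ : e₀ = 1 - p := by rw [hpdef, sub_sub_cancel]
  rw [he₀, mul_sub, sub_mul, mul_one, one_mul, key]

end Pool.Agent.FPS
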