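import Pool.Agent.FPS.Targets1
import Pool.Agent.FPZ.Targets1

/-!
# FPS, target QCM: quantitative comparison for free elements
-/

set_option autoImplicit false

open scoped Classical
open MeasureTheory Pool.Agent.FPZ

noncomputable section

namespace Pool.Agent.FPS

namespace QCM_

/-- the Neumann series with a bound -/
theorem neumann {A : Type} [CStarAlgebra A] (a : A) (g : ℕ → ℝ) (C : ℝ) (hg : HasSum g C)
    (h : ∀ n, ‖a ^ n‖ ≤ g n) : ∃ S : A, (1 - a) * S = 1 ∧ ‖S‖ ≤ C := by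
  have hs : Summable (fun n => a ^ n) := Summable.of_norm_bounded hg.summable h
  refine ⟨∑' n, a ^ n, ?_, tsum_of_norm_bounded hg h⟩
  have h1 : ∑' n, a ^ n = 1 + a * ∑' n, a ^ n := by
    conv_lhs => rw [hs.tsum_eq_zero_add]
    rw [pow_zero, ← hs.tsum_mul_left]
    congr 1
    refine tsum_congr fun n => ?_
    rw [pow_succ']
  rw [sub_mul, one_mul]
  nth_rewrite 1 [h1]
  exact add_sub_cancel_right _ _

/-- constants -/
theorem consts (lam T₀ : ℝ) (h0 : 0 ≤ lam) (h1 : lam < T₀) (h2 : T₀ ≤ 1) :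
    ∃ L T₁ : ℝ, lam ≤ L ∧ 0 < L ∧ L < T₁ ∧ T₁ < 1 ∧ T₁ ≤ T₀ :=
  ⟨(lam + T₀) / 2, ((lam + T₀) / 2 + T₀) / 2, by linarith, by linarith, by linarith,
    by linarith, by linarith⟩

end QCM_

theorem p_QCM (h_SRD : T_SRD) (h_STB : T_STB) : T_QCM := by
  intro lam T₀ hlam0 hlamT hT1
  obtain ⟨L, T₁, hL, hL0, hLT, hT₁1, hT₁⟩ := QCM_.consts lam T₀ hlam0 hlamT hT1
  have hT₁0 : 0 < T₁ := hL0.trans hLT
  have hL1 : 0 < 1 - L := by linarith
  -- the constants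
  obtain ⟨α, hα⟩ : ∃ α, α = Real.sqrt (L / (1 - L)) := ⟨_, rfl⟩
  obtain ⟨β, hβ⟩ : ∃ β, β = Real.sqrt ((1 - T₁) / T₁) := ⟨_, rfl⟩
  have hα0 : 0 < α := by
    rw [hα]
    exact Real.sqrt_pos.2 (by positivity)
  have hβ0 : 0 < β := by
    rw [hβ]
    exact Real.sqrt_pos.2 (div_pos (by linarith) hT₁0)
  have hα2 : α ^ 2 = L / (1 - L) := by
    rw [hα]
    exact Real.sq_sqrt (by positivity)
  have hβ2 : β ^ 2 = (1 - T₁) / T₁ := by
    rw [hβ]
    exact Real.sq_sqrt (div_pos (by linarith) hT₁0).le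
  have hαβ : α * β < 1 := by
    have h3 : (α * β) ^ 2 < 1 := by
      rw [mul_pow, hα2, hβ2, div_mul_div_comm, div_lt_one (by positivity)]
      nlinarith
    nlinarith [mul_pos hα0 hβ0]
  obtain ⟨s, hs⟩ : ∃ s, s = Real.sqrt (α * β) := ⟨_, rfl⟩
  have hs0 : 0 < s := by
    rw [hs]
    exact Real.sqrt_pos.2 (by positivity)
  have hs2 : s ^ 2 = α * β := by
    rw [hs]
    exact Real.sq_sqrt (by positivity)
  have hs1 : s < 1 := by nlinarith
  obtain ⟨c, hc⟩ : ∃ c, c = s / α := ⟨_, rfl⟩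
  have hc0 : 0 < c := by
    rw [hc]
    positivity
  obtain ⟨M, hM⟩ : ∃ M, M = max (c * (2 / (1 - L))) (c⁻¹ * (1 + 1 / T₁)) := ⟨_, rfl⟩
  have hM0 : 0 < M := by
    rw [hM]
    exact lt_of_lt_of_le (by positivity) (le_max_left _ _)
  obtain ⟨C₀, hC₀⟩ : ∃ C₀, C₀ = (1 - s)⁻¹ + 2 * M * (s / (1 - s) ^ 2) := ⟨_, rfl⟩
  have h1s : 0 < 1 - s := by linarith
  have hC₀0 : 0 < C₀ := by
    rw [hC₀]
    positivity
  have hsum : HasSum (fun n : ℕ => s ^ n + 2 * M * (n * s ^ n)) C₀ := by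
    rw [hC₀]
    refine (hasSum_geometric_of_lt_one hs0.le hs1).add (HasSum.mul_left _ ?_)
    have := hasSum_coe_mul_geometric_of_norm_lt_one (𝕜 := ℝ) (r := s)
      (by rw [Real.norm_eq_abs, abs_of_pos hs0]; exact hs1)
    exact this
  refine ⟨C₀ / T₁, by positivity, ?_⟩
  intro A _ φ X Y R f hts hfree hR hRX hfY hfpos hfn hRlam hfT
  obtain ⟨hstar, -, -, -, hmul, -, hn2, hsm, -, hnn, -⟩ := h_STB A φ hts.toSt
  have hRR : R * R = R := hR.isIdempotentElem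
  have hRs : star R = R := hR.isSelfAdjoint
  have hone : φ 1 = 1 := hts.toSt.one
  -- the trace of the projection
  obtain ⟨hp1, hp2⟩ := hts.toSt.pos R
  rw [hRs, hRR] at hp1 hp2
  obtain ⟨r, hr⟩ : ∃ r, r = (φ R).re := ⟨_, rfl⟩
  rw [← hr] at hp1 hRlam
  have hφR : φ R = (r : ℂ) := by
    apply Complex.ext
    · simp [hr]
    · simpa using hp2
  have hrL : r ≤ L := hRlam.trans hL
  have h1r : 0 < 1 - r := by linarith
  have h1rc : (1 - (r : ℂ)) ≠ 0 := by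
    have : ((1 - r : ℝ) : ℂ) ≠ 0 := by exact_mod_cast h1r.ne'
    simpa using this
  -- the trace of `f`
  obtain ⟨b, hb⟩ := hfpos
  have hfs : star f = f := by rw [hb, star_mul, star_star]
  obtain ⟨hf1, hf2⟩ := hts.toSt.pos b
  rw [← hb] at hf1 hf2
  obtain ⟨T, hT⟩ : ∃ T, T = (φ f).re := ⟨_, rfl⟩
  rw [← hT] at hf1 hfT
  have hφf : φ f = (T : ℂ) := by
    apply Complex.ext
    · simp [hT]
    · simpa using hf2
  have hTT₁ : T₁ ≤ T := hT₁.trans hfT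
  have hT0 : 0 < T := lt_of_lt_of_le hT₁0 hTT₁
  have hTc : (T : ℂ) ≠ 0 := by exact_mod_cast hT0.ne'
  have hff : (φ (f * f)).re ≤ T := by
    have h3 : n2 φ f ^ 2 = (φ (f * f)).re := by rw [hn2, hfs]
    have h4 : n2 φ f ≤ ‖b‖ * n2 φ b := by
      conv_lhs => rw [hb]
      rw [← norm_star b]
      exact hmul _ _
    have h5 : n2 φ b ^ 2 = T := by rw [hn2, ← hb, hT]
    have h6 : ‖b‖ ^ 2 ≤ 1 := by
      have : ‖star b * b‖ = ‖b‖ * ‖b‖ := CStarRing.norm_star_mul_self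
      rw [← hb] at this
      nlinarith
    rw [← h3]
    calc n2 φ f ^ 2 ≤ (‖b‖ * n2 φ b) ^ 2 := pow_le_pow_left₀ (hnn f) h4 2
      _ = ‖b‖ ^ 2 * T := by rw [mul_pow, h5]
      _ ≤ 1 * T := mul_le_mul_of_nonneg_right h6 hT0.le
      _ = T := one_mul T
  -- the elements
  obtain ⟨k, hk⟩ : ∃ k : A, k = (1 - (r : ℂ))⁻¹ • (R - (r : ℂ) • (1 : A)) := ⟨_, rfl⟩
  obtain ⟨g, hg⟩ : ∃ g : A, g = (T : ℂ)⁻¹ • f := ⟨_, rfl⟩
  have hkX : k ∈ X := by
    rw [hk]
    apply X.toSubalgebra.smul_mem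
    apply X.toSubalgebra.sub_mem hRX
    exact X.toSubalgebra.smul_mem (one_mem _) _
  have hgY : 1 - g ∈ Y := by
    rw [hg]
    exact Y.toSubalgebra.sub_mem (one_mem _) (Y.toSubalgebra.smul_mem hfY _)
  have hφk : φ k = 0 := by
    rw [hk]
    simp only [map_smul, map_sub, hone, hφR, smul_eq_mul]
    ring
  have hφg : φ (1 - g) = 0 := by
    rw [hg]
    simp only [map_sub, map_smul, hone, hφf, smul_eq_mul]
    rw [inv_mul_cancel₀ hTc, sub_self]
  have hcs : star ((1 - (r : ℂ))⁻¹) = (1 - (r : ℂ))⁻¹ := by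
    rw [star_inv₀]
    congr 1
    simp
  have hks : star k = k := by
    rw [hk]
    simp only [star_smul, star_sub, hRs, hcs, star_one]
    congr 2
    simp
  have hn2k : n2 φ k ^ 2 = r / (1 - r) := by
    obtain ⟨e, he⟩ : ∃ e : ℂ, e = (1 - (r : ℂ))⁻¹ := ⟨_, rfl⟩
    have hkk : star k * k =
        (e * e * (1 - 2 * (r : ℂ))) • R + (e * e * (r : ℂ) ^ 2) • (1 : A) := by
      rw [hks, hk, ← he]
      simp only [smul_mul_assoc, mul_smul_comm, sub_mul, mul_sub, hRR, one_mul, mul_one, smul_sub,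
        smul_smul]
      module
    rw [hn2, hkk]
    simp only [map_add, map_smul, hφR, hone, smul_eq_mul, mul_one]
    have : e * e * (1 - 2 * (r : ℂ)) * (r : ℂ) + e * e * (r : ℂ) ^ 2 =
        ((r / (1 - r) : ℝ) : ℂ) := by
      rw [he]
      push_cast
      field_simp
      ring
    rw [this, Complex.ofReal_re]
  have hn2g : n2 φ (1 - g) ^ 2 = T⁻¹ * T⁻¹ * (φ (f * f)).re - 1 := by
    rw [hn2]
    have h3 : star (1 - g) * (1 - g) =
        1 - (2 * (T : ℂ)⁻¹) • f + ((T : ℂ)⁻¹ * (T : ℂ)⁻¹) • (f * f) := by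
      have h4 : star ((T : ℂ)⁻¹) = (T : ℂ)⁻¹ := by
        rw [star_inv₀]
        congr 1
        simp
      rw [hg, star_sub, star_one, star_smul, hfs, h4]
      simp only [smul_mul_assoc, mul_smul_comm, sub_mul, mul_sub, one_mul, mul_one, smul_sub,
        smul_smul]
      module
    rw [h3]
    simp only [map_add, map_sub, map_smul, hone, hφf, smul_eq_mul]
    have h5 : 2 * (T : ℂ)⁻¹ * (T : ℂ) = ((2 : ℝ) : ℂ) := by
      rw [mul_assoc, inv_mul_cancel₀ hTc]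
      norm_num
    have h6 : (T : ℂ)⁻¹ * (T : ℂ)⁻¹ = ((T⁻¹ * T⁻¹ : ℝ) : ℂ) := by
      push_cast
      rfl
    rw [h5, h6, Complex.add_re, Complex.sub_re, Complex.one_re, Complex.ofReal_re,
      Complex.re_ofReal_mul]
    ring
  have hkα : n2 φ k ≤ α := by
    have h3 : n2 φ k ^ 2 ≤ α ^ 2 := by
      rw [hn2k, hα2, div_le_div_iff₀ h1r hL1]
      nlinarith
    exact le_of_sq_le_sq h3 hα0.le
  have hgβ : n2 φ (1 - g) ≤ β := by
    have h3 : n2 φ (1 - g) ^ 2 ≤ β ^ 2 := by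
      rw [hn2g, hβ2]
      have h4 : T⁻¹ * T⁻¹ * (φ (f * f)).re ≤ T⁻¹ * T⁻¹ * T :=
        mul_le_mul_of_nonneg_left hff (by positivity)
      have h5 : T⁻¹ * T⁻¹ * T = T⁻¹ := by field_simp
      have h6 : T⁻¹ ≤ T₁⁻¹ := inv_anti₀ hT₁0 hTT₁
      have h7 : (1 - T₁) / T₁ = T₁⁻¹ - 1 := by field_simp
      rw [h7]
      linarith
    exact le_of_sq_le_sq h3 hβ0.le
  -- norms
  have hRn : ‖R‖ ≤ 1 := by
    have h3 : ‖star R * R‖ = ‖R‖ * ‖R‖ := CStarRing.norm_star_mul_self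
    rw [hRs, hRR] at h3
    nlinarith [norm_nonneg R, mul_self_nonneg (‖R‖ - 1)]
  have hone' : ‖(1 : A)‖ ≤ 1 := by
    have h3 : ‖star (1 : A) * 1‖ = ‖(1 : A)‖ * ‖(1 : A)‖ := CStarRing.norm_star_mul_self
    rw [star_one, mul_one] at h3
    nlinarith [norm_nonneg (1 : A), mul_self_nonneg (‖(1 : A)‖ - 1)]
  have hr1 : r ≤ 1 := by linarith
  have hkn : ‖k‖ ≤ 2 / (1 - L) := by
    rw [hk, norm_smul]
    have h3 : ‖(1 - (r : ℂ))⁻¹‖ = (1 - r)⁻¹ := by
      rw [norm_inv]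
      congr 1
      have : (1 - (r : ℂ)) = ((1 - r : ℝ) : ℂ) := by push_cast; rfl
      rw [this, Complex.norm_real, Real.norm_eq_abs, abs_of_pos h1r]
    have h4 : ‖R - (r : ℂ) • (1 : A)‖ ≤ 2 := by
      refine (norm_sub_le _ _).trans ?_
      rw [norm_smul, Complex.norm_real, Real.norm_eq_abs, abs_of_nonneg hp1]
      have : r * ‖(1 : A)‖ ≤ 1 * 1 := mul_le_mul hr1 hone' (norm_nonneg _) (by norm_num)
      linarith
    have h5 : (1 - r)⁻¹ ≤ (1 - L)⁻¹ := inv_anti₀ hL1 (by linarith)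
    rw [h3]
    calc (1 - r)⁻¹ * ‖R - (r : ℂ) • (1 : A)‖ ≤ (1 - L)⁻¹ * 2 :=
          mul_le_mul h5 h4 (norm_nonneg _) (by positivity)
      _ = 2 / (1 - L) := by ring
  have hgn : ‖1 - g‖ ≤ 1 + 1 / T₁ := by
    refine (norm_sub_le _ _).trans (add_le_add hone' ?_)
    rw [hg, norm_smul, norm_inv, Complex.norm_real, Real.norm_eq_abs, abs_of_pos hT0]
    have h5 : T⁻¹ ≤ T₁⁻¹ := inv_anti₀ hT₁0 hTT₁
    calc T⁻¹ * ‖f‖ ≤ T₁⁻¹ * 1 := mul_le_mul h5 hfn (norm_nonneg _) (by positivity)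
      _ = 1 / T₁ := by ring
  -- the scaled elements
  obtain ⟨x, hx⟩ : ∃ x : A, x = (c : ℂ) • k := ⟨_, rfl⟩
  obtain ⟨y, hy⟩ : ∃ y : A, y = ((c⁻¹ : ℝ) : ℂ) • (1 - g) := ⟨_, rfl⟩
  have hxy : x * y = k * (1 - g) := by
    rw [hx, hy, smul_mul_assoc, mul_smul_comm, smul_smul, ← Complex.ofReal_mul,
      mul_inv_cancel₀ hc0.ne', Complex.ofReal_one, one_smul]
  have hnc : ‖(c : ℂ)‖ = c := by
    rw [Complex.norm_real, Real.norm_eq_abs, abs_of_pos hc0]
  have hnci : ‖((c⁻¹ : ℝ) : ℂ)‖ = c⁻¹ := by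
    rw [Complex.norm_real, Real.norm_eq_abs, abs_of_pos (inv_pos.2 hc0)]
  have hpow : ∀ n : ℕ, ‖(x * y) ^ n‖ ≤ s ^ (2 * n) + 2 * n * M * s ^ (2 * n - 1) := by
    refine h_SRD A φ (fun b : Bool => bif b then X else Y) x y s M hts ?_ ?_ ?_ ?_ ?_ ?_ ?_
      hs0.le hs1.le ?_ ?_
    · convert hfree using 2 with b
      cases b <;> rfl
    · rw [hx]
      exact X.toSubalgebra.smul_mem hkX _
    · rw [hy]
      exact Y.toSubalgebra.smul_mem hgY _
    · rw [hx, map_smul, hφk, smul_zero]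
    · rw [hy, map_smul, hφg, smul_zero]
    · rw [hx, hsm, hnc, hc]
      calc s / α * n2 φ k ≤ s / α * α := mul_le_mul_of_nonneg_left hkα (by positivity)
        _ = s := by field_simp
    · rw [hy, hsm, hnci, hc]
      calc (s / α)⁻¹ * n2 φ (1 - g) ≤ (s / α)⁻¹ * β :=
            mul_le_mul_of_nonneg_left hgβ (by positivity)
        _ = s := by
            rw [inv_div, div_mul_eq_mul_div, ← hs2]
            field_simp
    · rw [hx, norm_smul, hnc, hM]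
      exact (mul_le_mul_of_nonneg_left hkn hc0.le).trans (le_max_left _ _)
    · rw [hy, norm_smul, hnci, hM]
      exact (mul_le_mul_of_nonneg_left hgn (inv_pos.2 hc0).le).trans (le_max_right _ _)
  rw [hxy] at hpow
  obtain ⟨S, hS1, hS2⟩ := QCM_.neumann (k * (1 - g)) _ C₀ hsum (fun n => by
    refine (hpow n).trans (add_le_add ?_ ?_)
    · exact pow_le_pow_of_le_one hs0.le hs1.le (by omega)
    · rcases Nat.eq_zero_or_pos n with h0 | h0
      · simp [h0]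
      · have h3 : s ^ (2 * n - 1) ≤ s ^ n := pow_le_pow_of_le_one hs0.le hs1.le (by omega)
        have h4 : (0 : ℝ) ≤ 2 * n * M := by positivity
        calc 2 * (n : ℝ) * M * s ^ (2 * n - 1) ≤ 2 * n * M * s ^ n :=
              mul_le_mul_of_nonneg_left h3 h4
          _ = 2 * M * (n * s ^ n) := by ring)
  -- conclusion
  have hRk : R * k = R := by
    rw [hk, mul_smul_comm, mul_sub, hRR, mul_smul_comm, mul_one]
    have : R - (r : ℂ) • R = (1 - (r : ℂ)) • R := by module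
    rw [this, smul_smul, inv_mul_cancel₀ h1rc, one_smul]
  have hRT : R * (1 - k * (1 - g)) = R * g := by
    rw [mul_sub, mul_one, ← mul_assoc, hRk]
    noncomm_ring
  have hRS : R * g * S = R := by
    rw [← hRT, mul_assoc, hS1, mul_one]
  have h4 := congrArg star hRS
  have hgs : star g = g := by
    rw [hg, star_smul, hfs, star_inv₀]
    congr 2
    simp
  rw [star_mul, star_mul, hgs, hRs] at h4
  refine ⟨(T : ℂ)⁻¹ • star S, ?_, ?_⟩
  · rw [norm_smul, norm_inv, Complex.norm_real, Real.norm_eq_abs, abs_of_pos hT0, norm_star]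
    have h5 : T⁻¹ ≤ T₁⁻¹ := inv_anti₀ hT₁0 hTT₁
    calc T⁻¹ * ‖S‖ ≤ T₁⁻¹ * C₀ := mul_le_mul h5 hS2 (norm_nonneg _) (by positivity)
      _ = C₀ / T₁ := by ring
  · rw [hg] at h4
    rw [smul_mul_assoc, ← mul_smul_comm, ← smul_mul_assoc]
    exact h4

end Pool.Agent.FPS
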