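import Pool.Agent.FPS.Targets1
import Pool.Agent.FPZ.P_STB

set_option autoImplicit false

/-!
# FPS, target QCP: one projection for a segment of positive contractions
-/

open scoped Classical
open MeasureTheory Pool.Agent.FPZ

noncomputable section

namespace Pool.Agent.FPS

namespace QCP_

theorem norm_one_le {A : Type} [CStarAlgebra A] : ‖(1 : A)‖ ≤ 1 := by
  have h : ‖star (1 : A) * 1‖ = ‖(1 : A)‖ * ‖(1 : A)‖ := CStarRing.norm_star_mul_self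
  rw [star_one, mul_one] at h
  by_contra h1
  push Not at h1
  nlinarith

theorem norm_le {A : Type} [CStarAlgebra A] (g : A) (h : ‖star g * g‖ ≤ 1) : ‖g‖ ≤ 1 := by
  rw [CStarRing.norm_star_mul_self] at h
  by_contra h1
  push Not at h1
  nlinarith

theorem star_mul_le {A : Type} [CStarAlgebra A] (g : A) (h : ‖g‖ ≤ 1) : ‖star g * g‖ ≤ 1 := by
  rw [CStarRing.norm_star_mul_self]
  nlinarith [norm_nonneg g]

/-- the difference of two squares -/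
theorem sq_sub {A : Type} [CStarAlgebra A] (g g' : A) (δ : ℝ) (h : ‖g‖ ≤ 1) (h' : ‖g'‖ ≤ 1)
    (hd : ‖g - g'‖ ≤ δ) : ‖star g * g - star g' * g'‖ ≤ 2 * δ := by
  have e : star g * g - star g' * g' = star g * (g - g') + star (g - g') * g' := by
    rw [star_sub]
    noncomm_ring
  rw [e]
  have h1 : ‖star g * (g - g')‖ ≤ 1 * δ := (norm_mul_le _ _).trans
    (mul_le_mul (by rwa [norm_star]) hd (norm_nonneg _) zero_le_one)
  have h2 : ‖star (g - g') * g'‖ ≤ δ * 1 := (norm_mul_le _ _).trans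
    (mul_le_mul (by rwa [norm_star]) h' (norm_nonneg _) ((norm_nonneg _).trans hd))
  linarith [norm_add_le (star g * (g - g')) (star (g - g') * g')]

theorem pos_seg {A : Type} [CStarAlgebra A] (g g' : A) (r s : ℝ) (hr : 0 ≤ r) (hs : 0 ≤ s) :
    Pos (r • (star g * g) + s • (star g' * g')) := by
  let _ := CStarAlgebra.spectralOrder A
  let _ := CStarAlgebra.spectralOrderedRing A
  have h1 : ∀ (t : ℝ) (k : A), 0 ≤ t → (0 : A) ≤ t • (star k * k) := by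
    intro t k ht
    have e : t • (star k * k) = star (Real.sqrt t • k) * (Real.sqrt t • k) := by
      rw [star_smul, star_trivial (Real.sqrt t), smul_mul_smul_comm, Real.mul_self_sqrt ht]
    rw [e]
    exact star_mul_self_nonneg _
  have h2 := add_nonneg (h1 r g hr) (h1 s g' hs)
  obtain ⟨b, hb⟩ := (CStarAlgebra.nonneg_iff_eq_star_mul_self).1 h2
  exact ⟨b, hb⟩

theorem seg_mem {A : Type} [CStarAlgebra A] (Y : StarSubalgebra ℂ A) (f f' : A) (r s : ℝ)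
    (hf : f ∈ Y) (hf' : f' ∈ Y) : r • f + s • f' ∈ Y := by
  have h1 : ∀ (t : ℝ) (k : A), k ∈ Y → t • k ∈ Y := by
    intro t k hk
    have e : t • k = (t : ℂ) • k := (Complex.coe_smul t k).symm
    rw [e]
    exact Y.smul_mem hk _
  exact Y.add_mem (h1 r f hf) (h1 s f' hf')

theorem seg_norm {A : Type} [CStarAlgebra A] (f f' : A) (δ s : ℝ)
    (hf : ‖f‖ ≤ δ) (hf' : ‖f'‖ ≤ δ) (h0 : 0 ≤ s) (h1 : s ≤ 1) :
    ‖(1 - s) • f + s • f'‖ ≤ δ := by
  have h2 : ‖(1 - s) • f‖ ≤ (1 - s) * δ := by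
    rw [norm_smul, Real.norm_of_nonneg (by linarith)]
    exact mul_le_mul_of_nonneg_left hf (by linarith)
  have h3 : ‖s • f'‖ ≤ s * δ := by
    rw [norm_smul, Real.norm_of_nonneg h0]
    exact mul_le_mul_of_nonneg_left hf' h0
  linarith [norm_add_le ((1 - s) • f) (s • f')]

theorem re_smul {A : Type} [CStarAlgebra A] (φ : A →L[ℂ] ℂ) (t : ℝ) (k : A) :
    (φ (t • k)).re = t * (φ k).re := by
  rw [← Complex.coe_smul, map_smul, smul_eq_mul, Complex.re_ofReal_mul]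

/-- inverse of an element near `1` -/
theorem inv_near {A : Type} [CStarAlgebra A] (Z : A) (hZ : ‖Z‖ ≤ 1 / 2) :
    ∃ w : A, w * (1 + Z) = 1 ∧ ‖w‖ ≤ 2 := by
  have h1 : ‖-Z‖ < 1 := by
    rw [norm_neg]
    linarith
  let u := Units.oneSub (-Z) h1
  have hu : (u : A) = 1 + Z := by
    rw [Units.val_oneSub, sub_neg_eq_add]
  refine ⟨((u⁻¹ : Aˣ) : A), ?_, ?_⟩
  · rw [← hu]
    exact u.inv_mul
  · have h2 : ((u⁻¹ : Aˣ) : A) = 1 - Z * ((u⁻¹ : Aˣ) : A) := by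
      have h3 : (u : A) * ((u⁻¹ : Aˣ) : A) = 1 := u.mul_inv
      rw [hu, add_mul, one_mul] at h3
      exact eq_sub_of_add_eq h3
    have h3 : ‖((u⁻¹ : Aˣ) : A)‖ ≤ 1 + 1 / 2 * ‖((u⁻¹ : Aˣ) : A)‖ := by
      conv_lhs => rw [h2]
      refine (norm_sub_le _ _).trans (add_le_add norm_one_le ?_)
      exact (norm_mul_le _ _).trans (mul_le_mul_of_nonneg_right hZ (norm_nonneg _))
    linarith

/-- near elements of norm at most `1` -/
theorem scale {A : Type} [CStarAlgebra A] (Y : StarSubalgebra ℂ A) (g : A) (ε : ℝ) (hε : 0 < ε)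
    (hg : ‖g‖ ≤ 1) (h : ∃ x ∈ Y, ‖g - x‖ ≤ ε) : ∃ x ∈ Y, ‖x‖ ≤ 1 ∧ ‖g - x‖ ≤ 2 * ε := by
  obtain ⟨x, hx, hd⟩ := h
  have h1 : 0 < 1 + ε := by linarith
  have hxn : ‖x‖ ≤ 1 + ε := by
    have h2 : x = g - (g - x) := by abel
    rw [h2]
    exact (norm_sub_le _ _).trans (add_le_add hg hd)
  refine ⟨(1 + ε)⁻¹ • x, ?_, ?_, ?_⟩
  · have h3 := seg_mem Y x x (1 + ε)⁻¹ 0 hx hx
    rwa [zero_smul, add_zero] at h3
  · rw [norm_smul, norm_inv, Real.norm_of_nonneg h1.le, inv_mul_le_iff₀ h1]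
    linarith
  · have h2 : g - (1 + ε)⁻¹ • x = (g - x) + (1 - (1 + ε)⁻¹) • x := by
      rw [sub_smul, one_smul]
      abel
    have h4 : 0 ≤ 1 - (1 + ε)⁻¹ := by
      have : (1 + ε)⁻¹ ≤ 1 := inv_le_one_of_one_le₀ (by linarith)
      linarith
    have h3 : ‖(1 - (1 + ε)⁻¹) • x‖ ≤ ε := by
      rw [norm_smul, Real.norm_of_nonneg h4]
      calc (1 - (1 + ε)⁻¹) * ‖x‖ ≤ (1 - (1 + ε)⁻¹) * (1 + ε) :=
            mul_le_mul_of_nonneg_left hxn h4
        _ = ε := by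
            rw [sub_mul, inv_mul_cancel₀ h1.ne']
            ring
    rw [h2]
    linarith [norm_add_le (g - x) ((1 - (1 + ε)⁻¹) • x)]

end QCP_

theorem p_QCP (hM : T_QCM) : T_QCP := by
  intro lam T₀ hl hlT hT
  obtain ⟨C, hC, h⟩ := hM lam ((lam + T₀) / 2) hl (by linarith) (by linarith)
  refine ⟨2 * C, by linarith, ?_⟩
  intro A _ φ hφ f₀ f₁ hp₀ hp₁ hn₀ hn₁ ht₀ ht₁ a ha hal
  obtain ⟨g₀, rfl⟩ := hp₀
  obtain ⟨g₁, rfl⟩ := hp₁
  have hg₀ := QCP_.norm_le g₀ hn₀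
  have hg₁ := QCP_.norm_le g₁ hn₁
  obtain ⟨ε, hε, hε1, hε2⟩ : ∃ ε : ℝ, 0 < ε ∧ 4 * ε ≤ (T₀ - lam) / 2 ∧ C * (4 * ε) ≤ 1 / 2 := by
    refine ⟨min ((T₀ - lam) / 8) (1 / (8 * C)), lt_min (by linarith) (by positivity), ?_, ?_⟩
    · have := min_le_left ((T₀ - lam) / 8) (1 / (8 * C))
      linarith
    · have h1 := min_le_right ((T₀ - lam) / 8) (1 / (8 * C))
      calc C * (4 * min ((T₀ - lam) / 8) (1 / (8 * C))) ≤ C * (4 * (1 / (8 * C))) := by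
            gcongr
        _ = 1 / 2 := by
            field_simp
            norm_num
  obtain ⟨X, Y, R, -, -, hfree, hap, hRX, hRp, hRa, hRl⟩ :=
    hφ.ric {g₀, g₁} ε a lam hε ha hal (by linarith)
  obtain ⟨k₀, hk₀, hk₀n, hk₀d⟩ := QCP_.scale Y g₀ ε hε hg₀ (hap g₀ (by simp))
  obtain ⟨k₁, hk₁, hk₁n, hk₁d⟩ := QCP_.scale Y g₁ ε hε hg₁ (hap g₁ (by simp))
  have hd₀ := QCP_.sq_sub g₀ k₀ _ hg₀ hk₀n hk₀d
  have hd₁ := QCP_.sq_sub g₁ k₁ _ hg₁ hk₁n hk₁d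
  refine ⟨R, hRp, hRa, hRl, ?_⟩
  intro s hs0 hs1
  obtain ⟨-, -, hb1, hb2, -⟩ := p_STB A φ hφ.ts.toSt
  set F := (1 - s : ℝ) • (star g₀ * g₀) + s • (star g₁ * g₁) with hF
  set F' := (1 - s : ℝ) • (star k₀ * k₀) + s • (star k₁ * k₁) with hF'
  have hdF : ‖F - F'‖ ≤ 4 * ε := by
    have e : F - F' = (1 - s : ℝ) • (star g₀ * g₀ - star k₀ * k₀) +
        s • (star g₁ * g₁ - star k₁ * k₁) := by
      rw [hF, hF', smul_sub, smul_sub]
      abel
    rw [e]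
    refine QCP_.seg_norm _ _ _ _ ?_ ?_ hs0 hs1
    · linarith
    · linarith
  have hm₀ : star k₀ * k₀ ∈ Y := mul_mem (star_mem hk₀) hk₀
  have hm₁ : star k₁ * k₁ ∈ Y := mul_mem (star_mem hk₁) hk₁
  have hF'Y : F' ∈ Y := QCP_.seg_mem Y _ _ _ _ hm₀ hm₁
  have hF'p : Pos F' := QCP_.pos_seg k₀ k₁ _ _ (by linarith) hs0
  have hF'n : ‖F'‖ ≤ 1 := QCP_.seg_norm _ _ _ _ (QCP_.star_mul_le k₀ hk₀n)
    (QCP_.star_mul_le k₁ hk₁n) hs0 hs1
  have hφF : T₀ ≤ (φ F).re := by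
    have e : (φ F).re = (1 - s) * (φ (star g₀ * g₀)).re + s * (φ (star g₁ * g₁)).re := by
      rw [hF, map_add, Complex.add_re, QCP_.re_smul, QCP_.re_smul]
    rw [e]
    nlinarith
  have hφF' : (lam + T₀) / 2 ≤ (φ F').re := by
    have h1 : ‖φ (F - F')‖ ≤ 4 * ε := ((hb1 _).trans (hb2 _)).trans hdF
    have h2 : (φ (F - F')).re ≤ 4 * ε := (Complex.re_le_norm _).trans h1
    rw [map_sub, Complex.sub_re] at h2
    linarith
  obtain ⟨y', hy'n, hy'⟩ := h A φ X Y R F' hφ.ts hfree hRp hRX hF'Y hF'p hF'n hRl.le hφF'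
  have hZ : ‖y' * (F - F')‖ ≤ 1 / 2 := by
    refine (norm_mul_le _ _).trans (le_trans ?_ hε2)
    exact mul_le_mul hy'n hdF (norm_nonneg _) hC.le
  obtain ⟨w, hw1, hw2⟩ := QCP_.inv_near _ hZ
  refine ⟨w * y', ?_, ?_⟩
  · refine (norm_mul_le _ _).trans ?_
    exact mul_le_mul hw2 hy'n (norm_nonneg _) (by norm_num)
  · have h1 : y' * (F * R) = (1 + y' * (F - F')) * R := by
      clear_value F F'
      have h2 : (1 + y' * (F - F')) * R = R + y' * (F * R) - y' * (F' * R) := by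
        noncomm_ring
      rw [h2, hy']
      abel
    rw [mul_assoc, h1, ← mul_assoc, hw1, one_mul]

end Pool.Agent.FPS
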