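import Pool.Agent.FPS.Targets1
import Pool.Agent.FPZ.P_CMP

set_option autoImplicit false

/-!
# FPS: RCM, comparison of projections in a rich algebra (helper12)
-/

open scoped Classical
open MeasureTheory Pool.Agent.FPZ

noncomputable section

namespace Pool.Agent.FPS

namespace RCM_

/-- a projection near a subalgebra is equivalent to one in the subalgebra -/
theorem approx (h_PRT : T_PRT) (h_CLS : T_CLS) {A : Type} [CStarAlgebra A]
    (Y : StarSubalgebra ℂ A) (hY : IsClosed (Y : Set A)) {P d : A} (hP : IsStarProjection P)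
    (hd : d ∈ Y) (hPd : ‖P - d‖ ≤ 1 / 16) :
    ∃ P' ∈ Y, IsStarProjection P' ∧ ∃ u : A, star u * u = 1 ∧ u * star u = 1 ∧
      u * P = P' * u := by
  obtain ⟨P', hP', hP'p, hn⟩ := h_PRT A Y P d hY hP hd (lt_of_le_of_lt hPd (by norm_num))
  obtain ⟨u, _, hu1, hu2, hu3⟩ := h_CLS A ⊤ P P' CMP_.closedTop hP hP'p
    (CMP_.memTop _) (CMP_.memTop _) hn
  exact ⟨P', hP', hP'p, u, hu1, hu2, hu3⟩

end RCM_

/-- RCM: comparison of projections in a rich algebra -/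
theorem p_RCM (h_SQP : T_SQP) (h_PRT : T_PRT) (h_CLS : T_CLS) (h_SUT : T_SUT)
    (h_TSB : T_TSB) : T_RCM := by
  intro A _ φ hR P Q hP hQ hlt
  have hts := hR.ts
  have hTS := (h_TSB A φ hts).1
  obtain ⟨X, Y, R, hXc, hYc, hfree, happ, hRX, hRp, hR1, hR2⟩ :=
    hR.ric {P, Q} (1 / 16) (φ P).re (φ Q).re (by norm_num) (hTS P hP).1 hlt (hTS Q hQ).2.1
  obtain ⟨d, hd, hPd⟩ := happ P (by simp)
  obtain ⟨e, he, hQe⟩ := happ Q (by simp)
  obtain ⟨P', hP', hP'p, u, hu1, hu2, hu3⟩ := RCM_.approx h_PRT h_CLS Y hYc hP hd hPd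
  obtain ⟨Q', hQ', hQ'p, v, hv1, hv2, hv3⟩ := RCM_.approx h_PRT h_CLS Y hYc hQ he hQe
  have htP : φ P' = φ P := CMP_.trace_eq hts hu1 hu2 hu3
  have htQ : φ Q' = φ Q := CMP_.trace_eq hts hv1 hv2 hv3
  have hsub1 : Sub P' R := by
    obtain ⟨w, _, hw1, hw2⟩ := h_SQP A φ Y X ⊤ P' R hts (CMP_.swap φ _ _ hfree)
      CMP_.closedTop hP'p hRp hP' hRX (CMP_.memTop _) (CMP_.memTop _) (by rw [htP]; exact hR1)
    exact ⟨w, hw1, hw2⟩
  have hsub2 : Sub R Q' := by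
    obtain ⟨w, _, hw1, hw2⟩ := h_SQP A φ X Y ⊤ R Q' hts hfree
      CMP_.closedTop hRp hQ'p hRX hQ' (CMP_.memTop _) (CMP_.memTop _) (by rw [htQ]; exact hR2)
    exact ⟨w, hw1, hw2⟩
  have hsub0 : Sub P P' := CMP_.sub_left hP hu1 hu3
  have hsub3 : Sub Q' Q := CMP_.sub_right hQ'p hv1 hv2 hv3
  have s1 : Sub P R := h_SUT A P P' R hP hP'p hsub0 hsub1
  have s2 : Sub P Q' := h_SUT A P R Q' hP hRp s1 hsub2
  exact h_SUT A P Q' Q hP hQ'p s2 hsub3

end Pool.Agent.FPS
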