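import Pool.Agent.FPS.Targets1
import Pool.Agent.FPZ.P_CMP

/-!
# FPS, target RIC: the algebras `FS` are rich
-/

set_option autoImplicit false

open scoped Classical
open MeasureTheory Pool.Agent.FPZ

noncomputable section

namespace Pool.Agent.FPS

namespace RIC_

/-- every element of the algebra is almost in one of the subalgebras -/
theorem approx (h_DIR : T_DIR)
    (Z A : Type) [TopologicalSpace Z] [CompactSpace Z] [MeasurableSpace Z] [CStarAlgebra A]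
    (μ : Measure Z) (t : ℝ) (φ : A →L[ℂ] ℂ) (ι : C(Z, ℂ) →⋆ₐ[ℂ] A) (κ : ℕ → ℂ × ℂ →⋆ₐ[ℂ] A)
    (hF : FS μ t φ ι κ) (ε : ℝ) (hε : 0 < ε) (s : A) :
    ∃ n : ℕ, ∃ d ∈ GA ι κ {j | j < n}, ‖s - d‖ ≤ ε := by
  have hmono : Monotone (fun n : ℕ => Set.range ι ∪ ⋃ i ∈ {j : ℕ | j < n}, Set.range (κ i)) := by
    intro a b hab
    refine Set.union_subset_union_right _ ?_
    refine Set.biUnion_mono ?_ (fun _ _ => le_rfl)
    intro j hj
    exact lt_of_lt_of_le hj hab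
  have hun : (⋃ n : ℕ, (Set.range ι ∪ ⋃ i ∈ {j : ℕ | j < n}, Set.range (κ i)))
      = Set.range ι ∪ ⋃ i, Set.range (κ i) := by
    ext x
    simp only [Set.mem_iUnion, Set.mem_union, Set.mem_ofPred_eq]
    constructor
    · rintro ⟨n, h | ⟨i, _, hi⟩⟩
      · exact Or.inl h
      · exact Or.inr ⟨i, hi⟩
    · rintro (h | ⟨i, hi⟩)
      · exact ⟨0, Or.inl h⟩
      · exact ⟨i + 1, Or.inr ⟨i, Nat.lt_succ_self i, hi⟩⟩
  have hmem : s ∈ cal (⋃ n : ℕ, (Set.range ι ∪ ⋃ i ∈ {j : ℕ | j < n}, Set.range (κ i))) := by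
    rw [hun, hF.gen]
    exact CMP_.memTop _
  obtain ⟨n, d, hd, hPd⟩ := h_DIR A _ hmono s hmem ε hε
  exact ⟨n, d, hd, hPd.le⟩

end RIC_

theorem p_RIC (h_FRG : T_FRG) (h_DIR : T_DIR) (h_DEN : T_DEN) : T_RIC := by
  intro Z A _ _ _ _ μ t φ ι κ hF ht
  refine ⟨hF.ts, ?_⟩
  intro S ε a b hε ha hab hb
  choose n d hd hsd using RIC_.approx h_DIR Z A μ t φ ι κ hF ε hε
  obtain ⟨m, hm⟩ : ∃ m, m = S.sup n := ⟨_, rfl⟩
  obtain ⟨R, hR, hRp, hR1, hR2⟩ := h_DEN Z A μ t φ ι κ hF ht m a b ha hab hb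
  have hJ : ({j : ℕ | j < m} : Set ℕ)ᶜ = {j | m ≤ j} := by
    ext j
    simp only [Set.mem_compl_iff, Set.mem_ofPred_eq, not_lt]
  have hfree := h_FRG Z A μ t φ ι κ {j | j < m} hF
  rw [hJ] at hfree
  refine ⟨EA κ {j | m ≤ j}, GA ι κ {j | j < m}, R, EA_closed κ _, GA_closed ι κ _,
    CMP_.swap φ _ _ hfree, ?_, hR, hRp, hR1, hR2⟩
  intro s hs
  refine ⟨d s, CMP_.GA_mem ι κ (n s) m ?_ _ (hd s), hsd s⟩
  rw [hm]
  exact Finset.le_sup hs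

end Pool.Agent.FPS
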