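import Pool.Agent.FPS.Targets2

set_option autoImplicit false

/-!
# FPS: the case `K = K'` of T_GRL (RLC)
-/

open scoped Classical
open MeasureTheory Pool.Agent.FPZ

noncomputable section

namespace Pool.Agent.FPS

namespace RLC_

/-- scalar matrices -/
def ga (K n : Type) [TopologicalSpace K] [Fintype n] (f : C(K, ℂ)) : C(K, Matrix n n ℂ) :=
  ⟨fun x => f x • (1 : Matrix n n ℂ), f.continuous.smul continuous_const⟩

theorem ga_apply {K n : Type} [TopologicalSpace K] [Fintype n] (f : C(K, ℂ)) (x : K) :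
    ga K n f x = f x • (1 : Matrix n n ℂ) := rfl

theorem ent_ga {K n : Type} [TopologicalSpace K] [Fintype n] [Subsingleton n] (f : C(K, ℂ))
    (a b : n) : ent (ga K n f) a b = f := by
  ext x
  show (f x • (1 : Matrix n n ℂ)) a b = f x
  rw [Matrix.smul_apply, Subsingleton.elim a b, Matrix.one_apply_eq, smul_eq_mul, mul_one]

theorem opn_zero {n : Type} [Fintype n] : opn (0 : Matrix n n ℂ) = 0 := by
  unfold opn
  rw [map_zero, norm_zero]

theorem opn_smul_one {n : Type} [Fintype n] (c : ℂ) : opn (c • (1 : Matrix n n ℂ)) ≤ ‖c‖ := by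
  unfold opn
  rw [map_smul, map_one]
  have h1 : ‖c • (1 : EuclideanSpace ℂ n →L[ℂ] EuclideanSpace ℂ n)‖ =
      ‖c‖ * ‖(1 : EuclideanSpace ℂ n →L[ℂ] EuclideanSpace ℂ n)‖ := norm_smul _ _
  have h : ‖(1 : EuclideanSpace ℂ n →L[ℂ] EuclideanSpace ℂ n)‖ ≤ 1 :=
    ContinuousLinearMap.norm_id_le
  have h2 := mul_le_mul_of_nonneg_left h (norm_nonneg c)
  rw [h1]
  rwa [mul_one] at h2

theorem ahm (K n : Type) [TopologicalSpace K] [CompactSpace K] [Fintype n]
    (H : Finset C(K, ℂ)) : AHM H 0 (ga K n) where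
  add f g := by
    ext1 x
    show (f x + g x) • (1 : Matrix n n ℂ) = f x • (1 : Matrix n n ℂ) + g x • (1 : Matrix n n ℂ)
    exact add_smul _ _ _
  smul c f := by
    ext1 x
    show (c • f x) • (1 : Matrix n n ℂ) = c • f x • (1 : Matrix n n ℂ)
    exact smul_assoc _ _ _
  one x := by
    show (1 : ℂ) • (1 : Matrix n n ℂ) = 1
    exact one_smul _ _
  str f x := by
    rw [ga_apply, ga_apply, Matrix.conjTranspose_smul, Matrix.conjTranspose_one]
    rfl
  pos f x := by
    refine ⟨f x • (1 : Matrix n n ℂ), ?_⟩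
    rw [ga_apply, Matrix.conjTranspose_smul, Matrix.conjTranspose_one, smul_mul_smul_comm, mul_one]
    rfl
  mul f _ g _ x := by
    have h : ga K n (f * g) x - ga K n f x * ga K n g x = 0 := by
      rw [ga_apply, ga_apply, ga_apply, smul_mul_smul_comm, mul_one, sub_eq_zero]
      rfl
    rw [h, opn_zero]

end RLC_

open RLC_

theorem p_RLC (h_GRL : T_GRL) : T_RLC := by
  intro K A _ _ _ _ φ k₀ H F G δ ε c m₁ E E' L L' hR hE hE' hδ hε hrel hL hL' hH hF hw hc
  have hPI : ∀ P : A, IsStarProjection P → PI P (fun _ : Unit => P) := by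
    intro P hP
    refine ⟨fun a => ?_, fun a b hab => absurd (Subsingleton.elim a b) hab⟩
    rw [hP.isSelfAdjoint.star_eq]
    exact hP.isIdempotentElem
  have hsum : ∀ P : A, IsStarProjection P →
      ∑ a : Unit, (fun _ : Unit => P) a * star ((fun _ : Unit => P) a) = P := by
    intro P hP
    rw [Fintype.sum_unique]
    show P * star P = P
    rw [hP.isSelfAdjoint.star_eq]
    exact hP.isIdempotentElem
  have hamp : ∀ (P : A) (M : C(K, ℂ) → A), IsStarProjection P →
      amp k₀ (fun _ : Unit => P) M (ga K Unit) = cmp k₀ P M := by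
    intro P M hP
    funext f
    unfold amp cmp
    rw [hsum P hP, Fintype.sum_unique, Fintype.sum_unique, ent_ga, hP.isSelfAdjoint.star_eq]
  have h := h_GRL K K Unit A φ k₀ k₀ H F G δ 0 δ ε ε c m₁ E E' L L' (ga K Unit) (fun _ => E)
    (fun _ => E') hR hE hE' le_rfl hδ hε hrel hL hL'
    (fun f hf a b => by rw [ent_ga]; exact hH hf) (fun f hf a b => by rw [ent_ga]; exact hF hf)
    (ahm K Unit H) (fun f => rfl)
    (fun x => by
      obtain ⟨w, h0, h1, h2⟩ := hw x
      refine ⟨w, h0, h1, fun l hl f hf => ?_⟩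
      rw [ga_apply, ga_apply, ← sub_smul]
      exact (opn_smul_one _).trans (h2 l hl f hf))
    (by simp) (by simpa using hc) (by simp) (hPI E hE) (hPI E' hE')
  rw [hamp E L hE, hamp E' L' hE', hsum E hE, hsum E' hE'] at h
  simpa using h

end Pool.Agent.FPS
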