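import Pool.Agent.FPS.Targets6
import Pool.Agent.FPS.Targets1

/-!
# FPS, target RSB: infinite blocks are rich
-/

set_option autoImplicit false

open scoped Classical
open MeasureTheory Pool.Agent.FPZ

noncomputable section

namespace Pool.Agent.FPS

namespace RSB_

/-- an infinite set of natural numbers is the range of an injective sequence -/
theorem enum (J : Set ℕ) (hJ : J.Infinite) : ∃ e : ℕ → ℕ, Function.Injective e ∧ Set.range e = J :=
  ⟨Nat.nth (fun n => n ∈ J), Nat.nth_injective hJ, Nat.range_nth_of_infinite hJ⟩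

end RSB_

theorem p_RSB (h_RIC : T_RIC) (h_RSJ : T_RSJ) : T_RSB := by
  intro Z A _ _ _ _ μ t φ ι κ J hJ ht hF
  obtain ⟨e, he, rfl⟩ := RSB_.enum J hJ
  obtain ⟨ι', κ', h1, h2, h3⟩ := h_RSJ Z A μ t φ ι κ e he hF
  exact ⟨h_RIC Z (GA ι κ (Set.range e) : StarSubalgebra ℂ A) μ t _ ι' κ' h3 ht, ι', h1⟩

end Pool.Agent.FPS
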