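import Pool.Agent.FPS.Targets6
import Pool.Agent.FPZ.P_RST

/-!
# FPS: restriction to a block, with re-indexing by an injective enumeration
-/

set_option autoImplicit false

open scoped Classical
open MeasureTheory Pool.Agent.FPZ

noncomputable section

namespace Pool.Agent.FPS

theorem p_RSJ : T_RSJ := by
  intro Z A _ _ _ _ μ t φ ι κ e he hFS
  have hι : ∀ g, ι g ∈ (GA ι κ (Set.range e) : StarSubalgebra ℂ A) := fun g =>
    StarSubalgebra.le_topologicalClosure _ (StarAlgebra.subset_adjoin ℂ _ (Or.inl ⟨g, rfl⟩))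
  have hκ : ∀ i x, κ (e i) x ∈ (GA ι κ (Set.range e) : StarSubalgebra ℂ A) := fun i x =>
    StarSubalgebra.le_topologicalClosure _ (StarAlgebra.subset_adjoin ℂ _
      (Or.inr (Set.mem_iUnion₂.2 ⟨e i, ⟨i, rfl⟩, x, rfl⟩)))
  refine ⟨StarAlgHom.codRestrict ι _ hι, fun i => StarAlgHom.codRestrict (κ (e i)) _ (hκ i),
    fun g => rfl, fun i x => rfl, ?_⟩
  refine ⟨RST_ts φ _ hFS.ts, fun g => hFS.valZ g, fun i x => hFS.valP _ x, ?_, ?_⟩
  · refine RST_free φ _ (fun o : Option ℕ => o.elim (Set.range ι) (fun i => Set.range (κ i))) _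
      (fun o => o.map e) (Option.map_injective he) ?_ hFS.free
    rintro (_ | i) x hx
    · obtain ⟨g, rfl⟩ := hx
      exact ⟨g, rfl⟩
    · obtain ⟨g, rfl⟩ := hx
      exact ⟨g, rfl⟩
  · refine RST_gen (Set.range ι ∪ ⋃ i ∈ Set.range e, Set.range (κ i)) _ ?_
    ext a
    constructor
    · rintro ⟨d, hd, rfl⟩
      rcases hd with ⟨g, rfl⟩ | hd
      · exact Or.inl ⟨g, rfl⟩
      · obtain ⟨i, x, rfl⟩ := Set.mem_iUnion.1 hd
        exact Or.inr (Set.mem_iUnion₂.2 ⟨e i, ⟨i, rfl⟩, x, rfl⟩)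
    · rintro (⟨g, rfl⟩ | ha)
      · exact ⟨_, Or.inl ⟨g, rfl⟩, rfl⟩
      · obtain ⟨i, hi, x, rfl⟩ := Set.mem_iUnion₂.1 ha
        obtain ⟨j, rfl⟩ := hi
        exact ⟨_, Or.inr (Set.mem_iUnion.2 ⟨j, x, rfl⟩), rfl⟩

end Pool.Agent.FPS
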