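import Pool.Agent.FPS.Targets1
import Pool.Agent.FPS.Targets3

set_option autoImplicit false

/-!
# FPS: proof of `T_SLH` (slots for a homomorphism)
-/

open scoped Classical
open MeasureTheory Pool.Agent.FPZ

noncomputable section

namespace Pool.Agent.FPS

namespace SLH_

variable {K A : Type} [TopologicalSpace K] [CompactSpace K] [CStarAlgebra A]

/-- nonnegative functions have positive images -/
lemma pos (L : C(K, ℂ) →⋆ₐ[ℂ] A) (g : C(K, ℝ)) (hg : ∀ x, 0 ≤ g x) : Pos (L (toC g)) := by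
  refine ⟨L (toC ⟨fun x => Real.sqrt (g x), Real.continuous_sqrt.comp g.continuous⟩), ?_⟩
  rw [← map_star, ← map_mul]
  congr 1
  ext x
  show ((g x : ℝ) : ℂ) = star ((Real.sqrt (g x) : ℝ) : ℂ) * ((Real.sqrt (g x) : ℝ) : ℂ)
  have h1 : star ((Real.sqrt (g x) : ℝ) : ℂ) = ((Real.sqrt (g x) : ℝ) : ℂ) :=
    Complex.conj_ofReal _
  rw [h1, ← Complex.ofReal_mul, Real.mul_self_sqrt (hg x)]

lemma norm_le (L : C(K, ℂ) →⋆ₐ[ℂ] A) (g : C(K, ℝ)) (hg : ∀ x, 0 ≤ g x ∧ g x ≤ 1) :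
    ‖L (toC g)‖ ≤ 1 := by
  refine (NonUnitalStarAlgHom.norm_apply_le L (toC g)).trans ?_
  rw [ContinuousMap.norm_le _ zero_le_one]
  intro x
  show ‖((g x : ℝ) : ℂ)‖ ≤ 1
  rw [Complex.norm_real, Real.norm_of_nonneg (hg x).1]
  exact (hg x).2

lemma star_toC (g : C(K, ℝ)) : star (toC g) = toC g := by
  ext x
  exact Complex.conj_ofReal _

end SLH_

open SLH_

theorem p_SLH (h1 : T_SLT) : T_SLH := by
  intro K A _ _ _ φ L K₀ g g' n p hR hp hg hd hn
  have hk : ∀ k : Fin K₀, ∃ v : Fin (n k) → A, PI p v ∧ ∀ i, L (toC (g' k)) * v i = v i := by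
    intro k
    rcases Nat.eq_zero_or_pos (n k) with h0 | h0
    · have he : IsEmpty (Fin (n k)) := by rw [h0]; exact Fin.isEmpty
      exact ⟨fun _ => 0, ⟨fun a => he.elim a, fun a => he.elim a⟩, fun i => he.elim i⟩
    · obtain ⟨v, x, hv, hx⟩ := h1 A φ hR (L (toC (g k))) p (n k)
        (pos L (g k) fun x => (hg k x).1)
        (norm_le L (g k) fun x => ⟨(hg k x).1, (hg k x).2.1⟩) hp (hn k h0)
      refine ⟨v, hv, fun i => ?_⟩
      rw [hx i, ← mul_assoc, ← map_mul]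
      congr 2
      ext y
      show ((g' k y : ℝ) : ℂ) * ((g k y : ℝ) : ℂ) = ((g k y : ℝ) : ℂ)
      rw [← Complex.ofReal_mul, (hg k y).2.2.2.2]
  choose v hv hv' using hk
  refine ⟨fun s => v s.1 s.2, ⟨fun s => (hv s.1).1 s.2, ?_⟩, fun s => hv' s.1 s.2⟩
  rintro ⟨k, i⟩ ⟨l, j⟩ hne
  by_cases hkl : k = l
  · subst hkl
    exact (hv k).2 i j fun h => hne (by rw [h])
  · show star (v k i) * v l j = 0
    have e : toC (g' k) * toC (g' l) = 0 := by
      ext y
      show ((g' k y : ℝ) : ℂ) * ((g' l y : ℝ) : ℂ) = 0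
      by_cases hy : g' k y = 0
      · rw [hy, Complex.ofReal_zero, zero_mul]
      · rw [hd k l y hkl hy, Complex.ofReal_zero, mul_zero]
    calc star (v k i) * v l j
        = star (L (toC (g' k)) * v k i) * (L (toC (g' l)) * v l j) := by rw [hv', hv']
      _ = star (v k i) * (L (toC (g' k)) * L (toC (g' l))) * v l j := by
          rw [star_mul, ← map_star, star_toC]
          simp only [mul_assoc]
      _ = 0 := by rw [← map_mul, e, map_zero, mul_zero, zero_mul]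

end Pool.Agent.FPS
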