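import Pool.Agent.FPS.Targets1
import Pool.Agent.FPZ.P_DIV
import Pool.Agent.FPZ.Targets1

set_option autoImplicit false

/-!
# FPS: slots below a positive contraction
-/

open scoped Classical
open MeasureTheory Pool.Agent.FPZ

noncomputable section

namespace Pool.Agent.FPS

namespace SLT_

variable {A : Type} [CStarAlgebra A]

/-- The sum of the range projections. -/
theorem proj {n : ℕ} {u : Fin n → A} {p : A} (hp : IsStarProjection p)
    (hu : ∀ i, star (u i) * u i = p) (ho : ∀ i j, i ≠ j → star (u i) * u j = 0) :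
    IsStarProjection (∑ i, u i * star (u i)) := by
  have h := (DIV_.proj_E hp hu ho).one_sub
  rwa [DIV_.E, sub_sub_cancel] at h

theorem mul_sum {n : ℕ} {u : Fin n → A} {p : A} (hp : IsStarProjection p)
    (hu : ∀ i, star (u i) * u i = p) (ho : ∀ i j, i ≠ j → star (u i) * u j = 0) (i : Fin n) :
    star (u i) * ∑ j, u j * star (u j) = star (u i) := by
  have h := DIV_.star_mul_E hp hu ho i
  rw [DIV_.E, mul_sub, mul_one, sub_eq_zero] at h
  exact h.symm

end SLT_

theorem p_SLT (h_STB : T_STB) (h_QCA : T_QCA) (h_RDV : T_RDV) : T_SLT := by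
  intro A _ φ hR G p n hG hG1 hp hn
  obtain ⟨-, -, h3, h4, -⟩ := h_STB A φ hR.ts.toSt
  have hGle : (φ G).re ≤ 1 :=
    (Complex.re_le_norm _).trans ((h3 G).trans ((h4 G).trans hG1))
  have h1 : (φ 1).re = 1 := by rw [hR.ts.one, Complex.one_re]
  have hp0 : 0 ≤ (φ p).re := by
    have h := (hR.ts.pos p).1
    rwa [hp.isSelfAdjoint.star_eq, hp.isIdempotentElem.eq] at h
  have hn0 : 0 ≤ (n : ℝ) * (φ p).re := mul_nonneg (Nat.cast_nonneg n) hp0
  obtain ⟨u, ⟨hu, ho⟩, -⟩ := h_RDV A φ hR p 1 n hp (.one A) (by rw [h1]; linarith)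
  have hP := SLT_.proj hp hu ho
  have hφP : (φ (∑ i, u i * star (u i))).re = n * (φ p).re := by
    have h2 : φ (∑ i, u i * star (u i)) = n * φ p := by
      rw [map_sum]
      have h5 : ∀ i : Fin n, φ (u i * star (u i)) = φ p := by
        intro i
        rw [hR.ts.tr, hu]
      rw [Finset.sum_congr rfl fun i _ => h5 i]
      simp
    rw [h2]
    simp
  obtain ⟨C, hC, hq⟩ := h_QCA ((n * (φ p).re + (φ G).re) / 2) (φ G).re (by linarith)
    (by linarith) hGle
  obtain ⟨x, hx, hxP⟩ := hq A φ hR G (∑ i, u i * star (u i)) hG hG1 le_rfl hP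
    (by rw [hφP]; linarith)
  have key : ∀ a b, star (G * x * u a) * (G * x * u b) = star (u a) * u b := by
    intro a b
    calc star (G * x * u a) * (G * x * u b)
        = star (u a) * (star (G * x) * (G * x)) * u b := by
          rw [star_mul (G * x)]
          noncomm_ring
      _ = star (u a) * u b := by rw [hxP, SLT_.mul_sum hp hu ho]
  refine ⟨fun i => G * x * u i, fun i => x * u i, ⟨fun a => ?_, fun a b hab => ?_⟩,
    fun i => mul_assoc _ _ _⟩
  · rw [key, hu]
  · rw [key, ho a b hab]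

end Pool.Agent.FPS
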