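import Pool.Agent.FPS.Targets1
import Pool.Agent.FPZ.Targets1

set_option autoImplicit false

/-!
# FPS: splitting a projection in small pieces
-/

open scoped Classical
open MeasureTheory Pool.Agent.FPZ

noncomputable section

namespace Pool.Agent.FPS

namespace SPT_

variable {A : Type} [CStarAlgebra A]

/-- the statement for one projection -/
def Good (φ : A →L[ℂ] ℂ) (c : ℝ) (P : A) : Prop :=
  ∃ (n : ℕ) (Pi : Fin n → A), (∀ i, IsStarProjection (Pi i) ∧ (φ (Pi i)).re < c) ∧
    (∀ i j, i ≠ j → Pi i * Pi j = 0) ∧ ∑ i, Pi i = P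

theorem good_small (φ : A →L[ℂ] ℂ) (c : ℝ) (P : A) (hP : IsStarProjection P)
    (h : (φ P).re < c) : Good φ c P := by
  refine ⟨1, fun _ => P, fun _ => ⟨hP, h⟩, ?_, by simp⟩
  intro i j hij
  exact absurd (Subsingleton.elim i j) hij

theorem sub_mul_self {P P1 : A} (hP : IsStarProjection P) (h1 : IsStarProjection P1)
    (h : P * P1 = P1) : P1 * P = P1 ∧ IsStarProjection (P - P1) ∧ P1 * (P - P1) = 0 := by
  have h2 : P1 * P = P1 := by
    have := congrArg star h
    rw [star_mul, h1.isSelfAdjoint.star_eq, hP.isSelfAdjoint.star_eq] at this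
    exact this
  have e1 : P * P = P := hP.isIdempotentElem
  have e2 : P1 * P1 = P1 := h1.isIdempotentElem
  refine ⟨h2, ⟨?_, ?_⟩, ?_⟩
  · show (P - P1) * (P - P1) = P - P1
    rw [sub_mul, mul_sub, mul_sub, e1, e2, h, h2]
    simp
  · show star (P - P1) = P - P1
    rw [star_sub, h1.isSelfAdjoint.star_eq, hP.isSelfAdjoint.star_eq]
  · rw [mul_sub, h2, e2, sub_self]

theorem step (hRCM : T_RCM) (hTSB : T_TSB) (φ : A →L[ℂ] ℂ) (hR : Rich φ) (c : ℝ) (R : A)
    (hRp : IsStarProjection R) (hRc : (φ R).re < c) :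
    ∀ (k : ℕ) (P : A), IsStarProjection P → (φ P).re ≤ (k + 1) * (φ R).re → Good φ c P := by
  intro k
  induction k with
  | zero =>
    intro P hP h
    refine good_small φ c P hP ?_
    simp at h
    linarith
  | succ k ih =>
    intro P hP h
    by_cases hlt : (φ R).re < (φ P).re
    · obtain ⟨v, hv1, hv2⟩ := hRCM A φ hR R P hRp hP hlt
      obtain ⟨-, -, -, hb, -⟩ := hTSB A φ hR.ts
      obtain ⟨hp1, hp2⟩ := hb R v hRp hv1
      have h1 : P * (v * star v) = v * star v := by rw [← mul_assoc, hv2]
      obtain ⟨h2, h3, h4⟩ := sub_mul_self hP hp1 h1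
      have h5 : (φ (P - v * star v)).re ≤ (k + 1) * (φ R).re := by
        rw [map_sub, hp2, Complex.sub_re]
        push_cast at h
        linarith
      obtain ⟨n, Pi, ha, hb', hs⟩ := ih _ h3 h5
      have hPi : ∀ i, (P - v * star v) * Pi i = Pi i := by
        intro i
        rw [← hs, Finset.sum_mul, Finset.sum_eq_single i]
        · exact (ha i).1.isIdempotentElem
        · intro j _ hj
          exact hb' j i hj
        · intro h
          exact absurd (Finset.mem_univ i) h
      have hz1 : ∀ i, (v * star v) * Pi i = 0 := by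
        intro i
        rw [← hPi i, ← mul_assoc, h4, zero_mul]
      have hz2 : ∀ i, Pi i * (v * star v) = 0 := by
        intro i
        have := congrArg star (hz1 i)
        rw [star_mul, hp1.isSelfAdjoint.star_eq, (ha i).1.isSelfAdjoint.star_eq, star_zero] at this
        exact this
      refine ⟨n + 1, Fin.cons (v * star v) Pi, ?_, ?_, ?_⟩
      · intro i
        refine Fin.cases ?_ (fun j => ?_) i
        · rw [Fin.cons_zero]
          exact ⟨hp1, by rw [hp2]; exact hRc⟩
        · rw [Fin.cons_succ]
          exact ha j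
      · intro i j
        refine Fin.cases ?_ (fun i' => ?_) i
        · refine Fin.cases ?_ (fun j' => ?_) j
          · intro h
            exact absurd rfl h
          · intro _
            rw [Fin.cons_zero, Fin.cons_succ]
            exact hz1 j'
        · refine Fin.cases ?_ (fun j' => ?_) j
          · intro _
            rw [Fin.cons_zero, Fin.cons_succ]
            exact hz2 i'
          · intro h
            rw [Fin.cons_succ, Fin.cons_succ]
            exact hb' i' j' (fun e => h (by rw [e]))
      · rw [Fin.sum_univ_succ]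
        simp only [Fin.cons_zero, Fin.cons_succ]
        rw [hs]
        abel
    · exact good_small φ c P hP (by linarith)

end SPT_

open SPT_

theorem p_SPT (hRCM : T_RCM) (hTSB : T_TSB) : T_SPT := by
  intro A _ φ hR P c hP hc
  have hm : (0 : ℝ) < min c 1 := lt_min hc one_pos
  obtain ⟨X, Y, R, -, -, -, -, -, hRp, hR0, hR1⟩ :=
    hR.ric ∅ 1 0 (min c 1) one_pos le_rfl hm (min_le_right _ _)
  obtain ⟨k, hk⟩ := exists_nat_gt (1 / (φ R).re)
  have h1 : (φ P).re ≤ 1 := ((hTSB A φ hR.ts).1 P hP).2.1
  have h2 : (φ P).re ≤ ((k : ℝ) + 1) * (φ R).re := by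
    have h3 : 1 < (k : ℝ) * (φ R).re := by
      rw [div_lt_iff₀ hR0] at hk
      exact hk
    nlinarith
  exact step hRCM hTSB φ hR c R hRp (lt_of_lt_of_le hR1 (min_le_left _ _)) k P hP h2

end Pool.Agent.FPS
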