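import Pool.Agent.FPS.Targets6
import Pool.Agent.FPS.Targets3

set_option autoImplicit false

/-!
# FPS: Fact D with automorphisms (target T_ST1)
-/

open scoped Classical
open MeasureTheory Pool.Agent.FPZ

noncomputable section

namespace Pool.Agent.FPS

namespace ST1_

/-! ### Closed subalgebras -/

theorem cal_le {A : Type} [CStarAlgebra A] {T : Set A} {D : StarSubalgebra ℂ A}
    (hD : IsClosed (D : Set A)) (h : T ⊆ D) : cal T ≤ D :=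
  StarSubalgebra.topologicalClosure_minimal (StarAlgebra.adjoin_le h) hD

theorem sub_cal {A : Type} [CStarAlgebra A] (T : Set A) : T ⊆ (cal T : Set A) :=
  (StarAlgebra.subset_adjoin ℂ T).trans (StarSubalgebra.le_topologicalClosure _)

section Block

variable {Z A : Type} [TopologicalSpace Z] [CompactSpace Z] [CStarAlgebra A]
  (ι : C(Z, ℂ) →⋆ₐ[ℂ] A) (q : ℕ → ℂ × ℂ →⋆ₐ[ℂ] A)

theorem ι_mem (J : Set ℕ) (f : C(Z, ℂ)) : ι f ∈ GA ι q J :=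
  sub_cal _ (Or.inl ⟨f, rfl⟩)

theorem q_mem {J : Set ℕ} {j : ℕ} (hj : j ∈ J) (x : ℂ × ℂ) : q j x ∈ GA ι q J :=
  sub_cal _ (Or.inr (Set.mem_biUnion hj ⟨x, rfl⟩))

theorem qE_mem {J : Set ℕ} {j : ℕ} (hj : j ∈ J) (x : ℂ × ℂ) : q j x ∈ EA q J :=
  sub_cal _ (Set.mem_biUnion hj ⟨x, rfl⟩)

theorem GA_le (J : Set ℕ) {D : StarSubalgebra ℂ A} (hD : IsClosed (D : Set A))
    (h1 : ∀ f, ι f ∈ D) (h2 : ∀ j ∈ J, ∀ x, q j x ∈ D) : GA ι q J ≤ D := by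
  refine cal_le hD ?_
  rintro a (⟨f, rfl⟩ | ha)
  · exact h1 f
  · obtain ⟨j, hj, x, rfl⟩ := Set.mem_iUnion₂.1 ha
    exact h2 j hj x

theorem GA_mono {J J' : Set ℕ} (h : J ⊆ J') : GA ι q J ≤ GA ι q J' :=
  GA_le ι q J (GA_closed ι q J') (ι_mem ι q J') fun _ hj x => q_mem ι q (h hj) x

end Block

theorem amp_map {K K' n D A : Type} [TopologicalSpace K] [TopologicalSpace K'] [Fintype n]
    [CStarAlgebra D] [CStarAlgebra A] (ψ : D →⋆ₐ[ℂ] A) (k₀ : K) (τ : n → D)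
    (L : C(K', ℂ) → D) (γ : C(K, ℂ) → C(K', Matrix n n ℂ)) (f : C(K, ℂ)) :
    ψ (amp k₀ τ L γ f) = amp k₀ (fun a => ψ (τ a)) (fun g => ψ (L g)) γ f := by
  unfold amp
  simp only [map_add, map_sum, map_mul, map_star, map_smul, map_sub, map_one]

/-- permutations with given values -/
theorem perm (f : ℕ → ℕ) (hf : Function.Injective f) (n : ℕ) :
    ∃ π : ℕ ≃ ℕ, ∀ i < n, π i = f i := by
  induction n with
  | zero => exact ⟨Equiv.refl ℕ, fun i hi => absurd hi (Nat.not_lt_zero i)⟩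
  | succ n ih =>
    obtain ⟨π, hπ⟩ := ih
    refine ⟨π.trans (Equiv.swap (π n) (f n)), fun i hi => ?_⟩
    rw [Equiv.trans_apply]
    rcases Nat.lt_succ_iff_lt_or_eq.1 hi with h | h
    · rw [Equiv.swap_apply_of_ne_of_ne, hπ i h]
      · intro h1
        exact h.ne (π.injective h1)
      · rw [hπ i h]
        exact fun h1 => h.ne (hf h1)
    · rw [h, Equiv.swap_apply_left]

theorem core (h_FCD : T_FCD) (h_DEX : T_DEX) (h_RSB : T_RSB) (K A A₁ : Type) [MetricSpace K]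
    [CompactSpace K] [ConnectedSpace K] [MeasurableSpace K] [BorelSpace K] [CStarAlgebra A]
    [CStarAlgebra A₁] (μ : Measure K) [IsProbabilityMeasure μ] [μ.IsOpenPosMeasure]
    (ν : Measure S1) [IsProbabilityMeasure ν] (t : ℝ) (φ : A →L[ℂ] ℂ) (ι : C(K, ℂ) →⋆ₐ[ℂ] A)
    (q : ℕ → ℂ × ℂ →⋆ₐ[ℂ] A) (φ₁ : A₁ →L[ℂ] ℂ) (ι₁ : C(S1, ℂ) →⋆ₐ[ℂ] A₁)
    (q₁ : ℕ → ℂ × ℂ →⋆ₐ[ℂ] A₁) (c : C(K, K)) (k₀ : K) (r : ℕ)
    (κ : C(S1, ℂ) → C(K, Matrix (Fin r) (Fin r) ℂ)) (e₀ : A) (s : Fin r → A) (α : A₁ →⋆ₐ[ℂ] A)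
    (F : Finset C(K, ℂ)) (ε : ℝ) (m m₁ : ℕ) (J J₁ : Set ℕ) (hJ : J.Infinite)
    (hJ₁ : J₁.Infinite) (he : ∀ i, 2 * i ∈ J) (ho : ∀ j ∈ J₁, 2 * j + 1 ∈ J)
    (hA : FS μ t φ ι q) (hA₁ : FS ν t φ₁ ι₁ q₁) (ht : Irrational t) (hκ : KP k₀ κ) (hr : 0 < r)
    (hc : ContinuousMap.Homotopic (ContinuousMap.id K) c)
    (hE : EB μ φ ι q φ₁ ι₁ q₁ c k₀ r κ e₀ s α) (hε : 0 < ε) :
    ∃ (H : Finset C(K, ℂ)) (δ : ℝ), 0 < δ ∧
      ∀ (k : ℕ) (γ : C(K, ℂ) → C(S1, Matrix (Fin k) (Fin k) ℂ)), 0 < k → AHM H δ γ →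
      (∀ f, γ f 1 = f k₀ • (1 : Matrix (Fin k) (Fin k) ℂ)) →
      (∀ x : S1, ∃ w : ℕ → S1, w 0 = 1 ∧ w m₁ = x ∧
        ∀ l < m₁, ∀ f ∈ F, opn (γ f (w l) - γ f (w (l + 1))) ≤ ε) →
      CDt k₀ H δ F ε m
        (fun f x => Matrix.of fun (a b : Fin k × Fin r) => κ (ent (γ f) a.1 b.1) x a.2 b.2) →
      ∀ (Gs : Finset C(S1, ℂ)) (δs cs : ℝ), 0 < δs → 0 < cs →
      ∃ (ι₁' : C(S1, ℂ) →⋆ₐ[ℂ] (GA ι₁ q₁ J₁ : StarSubalgebra ℂ A₁)) (K₁ : ℕ) (z₁ : Fin K₁ → S1)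
        (g₁ : Fin K₁ → C(S1, ℝ)) (Q₁ : Fin K₁ → (GA ι₁ q₁ J₁ : StarSubalgebra ℂ A₁))
        (v : Fin k → (GA ι₁ q₁ J₁ : StarSubalgebra ℂ A₁)) (S : Type) (_ : Fintype S)
        (r' : S → (GA ι₁ q₁ J₁ : StarSubalgebra ℂ A₁)) (z : S → K)
        (η : C(K, ℂ) → (GA ι₁ q₁ J₁ : StarSubalgebra ℂ A₁)) (W : A),
        (∀ g, ((ι₁' g : (GA ι₁ q₁ J₁ : StarSubalgebra ℂ A₁)) : A₁) = ι₁ g) ∧
        AD Gs δs cs (res φ₁ (GA ι₁ q₁ J₁)) (fun g => ι₁' g) z₁ g₁ Q₁ ∧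
        ED (fun g => ι₁' g) k₀ γ (1 - ∑ i, Q₁ i) v r' z η ∧ W ∈ GA ι q J ∧ Uni W ∧
        ∀ f ∈ F, ‖W * ι f * star W -
          α ((η f : (GA ι₁ q₁ J₁ : StarSubalgebra ℂ A₁)) : A₁)‖ ≤ 10 * ε := by
  obtain ⟨hR, ι', hι'⟩ := h_RSB K A μ t φ ι q J hJ ht hA
  obtain ⟨hR₁, ι₁', hι₁'⟩ := h_RSB S1 A₁ ν t φ₁ ι₁ q₁ J₁ hJ₁ ht hA₁
  -- the data lie in the block
  have hle : GA ι q {j | ∃ i, j = 2 * i} ≤ GA ι q J := by
    refine GA_mono ι q ?_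
    rintro j ⟨i, rfl⟩
    exact he i
  have he₀ : e₀ ∈ GA ι q J := hle hE.mee
  have hs : ∀ i, s i ∈ GA ι q J := fun i => hle (hE.mes i)
  have hα : ∀ a ∈ GA ι₁ q₁ J₁, α a ∈ GA ι q J := by
    have h1 : GA ι₁ q₁ J₁ ≤ (GA ι q J).comap α := by
      refine GA_le ι₁ q₁ J₁ ((GA_closed ι q J).preimage hE.iso.continuous) ?_ ?_
      · intro g
        show α (ι₁ g) ∈ GA ι q J
        rw [hE.vz g]
        unfold amp
        refine add_mem (sum_mem fun a _ => sum_mem fun b _ => mul_mem (mul_mem (hs a) ?_)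
          (star_mem (hs b))) ?_
        · exact ι_mem ι q J _
        · exact SMulMemClass.smul_mem _ (sub_mem (one_mem _)
            (sum_mem fun a _ => mul_mem (hs a) (star_mem (hs a))))
      · intro j hj x
        show α (q₁ j x) ∈ GA ι q J
        rw [hE.vp]
        exact q_mem ι q (ho j hj) x
    exact fun a ha => h1 ha
  let e₀' : (GA ι q J : StarSubalgebra ℂ A) := ⟨e₀, he₀⟩
  let s' : Fin r → (GA ι q J : StarSubalgebra ℂ A) := fun i => ⟨s i, hs i⟩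
  let α' : (GA ι₁ q₁ J₁ : StarSubalgebra ℂ A₁) →⋆ₐ[ℂ] (GA ι q J : StarSubalgebra ℂ A) :=
    StarAlgHom.codRestrict (α.comp (GA ι₁ q₁ J₁).subtype) (GA ι q J) fun a => hα a a.2
  have hα' : ∀ a, ((α' a : (GA ι q J : StarSubalgebra ℂ A)) : A) = α a := fun a => rfl
  have hEM : EM μ (res φ (GA ι q J)) ι' c k₀ r e₀' s' := by
    refine ⟨fun f => ?_, ⟨?_, ?_⟩, fun f => ?_, ?_, ?_⟩
    · show φ ((ι' f : (GA ι q J : StarSubalgebra ℂ A)) : A) = _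
      rw [hι' f]
      exact hE.em.val f
    · exact Subtype.ext hE.em.pr.isIdempotentElem
    · exact Subtype.ext hE.em.pr.isSelfAdjoint
    · apply Subtype.ext
      have h1 := hE.em.spt f
      rw [← hι'] at h1
      exact h1
    · intro a
      exact Subtype.ext (hE.em.pis.1 a)
    · intro a b hab
      exact Subtype.ext (hE.em.pis.2 a b hab)
  have hamp : ∀ g, α' (ι₁' g) = amp 1 s' (fun f => ι' (f.comp c)) κ g := by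
    intro g
    apply Subtype.ext
    rw [hα', hι₁' g, hE.vz g]
    have h1 := amp_map (K := S1) (K' := K) (GA ι q J).subtype 1 s' (fun f => ι' (f.comp c)) κ g
    have h2 : amp 1 s (fun f => ι (f.comp c)) κ g = amp 1 (fun a => (GA ι q J).subtype (s' a))
        (fun f => (GA ι q J).subtype (ι' (f.comp c))) κ g := by
      have e : (fun f : C(K, ℂ) => (GA ι q J).subtype (ι' (f.comp c))) =
          fun f => ι (f.comp c) := funext fun f => hι' _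
      rw [e]
      rfl
    rw [h2, ← h1]
    rfl
  obtain ⟨H, δ, hδ, hFCD⟩ := h_FCD K (GA ι q J : StarSubalgebra ℂ A)
    (GA ι₁ q₁ J₁ : StarSubalgebra ℂ A₁) μ k₀ r κ c (res φ (GA ι q J)) (res φ₁ (GA ι₁ q₁ J₁)) ι'
    ι₁' α' e₀' s' F ε m m₁ hr hR hR₁ hκ hc hEM (fun a => hE.tra a) hamp hε
  refine ⟨H, δ, hδ, fun k γ hk hγ hγ1 hmov hCDt Gs δs cs hδs hcs => ?_⟩
  obtain ⟨G₁, δ₁, c₁, hδ₁, hc₁, hfin⟩ := hFCD k γ hk hγ hγ1 hmov hCDt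
  have hval : ∀ f, res φ₁ (GA ι₁ q₁ J₁) (ι₁' f) = ∫ x, f x ∂ν := by
    intro f
    show φ₁ ((ι₁' f : (GA ι₁ q₁ J₁ : StarSubalgebra ℂ A₁)) : A₁) = _
    rw [hι₁' f]
    exact hA₁.valZ f
  obtain ⟨K₁, z₁, g₁, Q₁, d1, d2, d3, d4, d5, d6, -, d8⟩ :=
    h_DEX S1 (GA ι₁ q₁ J₁ : StarSubalgebra ℂ A₁) ν (res φ₁ (GA ι₁ q₁ J₁)) ι₁' 1 1 (G₁ ∪ Gs)
      (min δ₁ δs) (min c₁ cs) hR₁ hval (IsStarProjection.one _)
      (fun f => by rw [sub_self, mul_zero, smul_zero]) (lt_min hδ₁ hδs) (lt_min hc₁ hcs)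
  have hAD1 : AD G₁ δ₁ c₁ (res φ₁ (GA ι₁ q₁ J₁)) (fun g => ι₁' g) z₁ g₁ Q₁ :=
    ⟨d1, d2, fun f hf k x hx => (d3 f (Finset.mem_union_left _ hf) k x hx).trans
      (min_le_left _ _), d4, ⟨d5.1, d5.2.1, fun f hf =>
      (d5.2.2 f (Finset.mem_union_left _ hf)).trans (min_le_left _ _)⟩,
      fun f hf => (d6 f (Finset.mem_union_left _ hf)).trans (min_le_left _ _),
      d8.trans_le (min_le_left _ _)⟩
  have hAD2 : AD Gs δs cs (res φ₁ (GA ι₁ q₁ J₁)) (fun g => ι₁' g) z₁ g₁ Q₁ :=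
    ⟨d1, d2, fun f hf k x hx => (d3 f (Finset.mem_union_right _ hf) k x hx).trans
      (min_le_right _ _), d4, ⟨d5.1, d5.2.1, fun f hf =>
      (d5.2.2 f (Finset.mem_union_right _ hf)).trans (min_le_right _ _)⟩,
      fun f hf => (d6 f (Finset.mem_union_right _ hf)).trans (min_le_right _ _),
      d8.trans_le (min_le_right _ _)⟩
  obtain ⟨v, S, hS, r', z, η, W, hED, hW, hWF⟩ := hfin K₁ z₁ g₁ Q₁ hAD1
  refine ⟨ι₁', K₁, z₁, g₁, Q₁, v, S, hS, r', z, η, (W : A), hι₁', hAD2, hED, W.2,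
    ⟨?_, ?_⟩, fun f hf => ?_⟩
  · exact congrArg (fun a : (GA ι q J : StarSubalgebra ℂ A) => (a : A)) hW.1
  · exact congrArg (fun a : (GA ι q J : StarSubalgebra ℂ A) => (a : A)) hW.2
  · have h1 := hWF f hf
    have h2 : (((W * ι' f * star W - α' (η f) : (GA ι q J : StarSubalgebra ℂ A))) : A) =
        (W : A) * ι f * star (W : A) -
          α ((η f : (GA ι₁ q₁ J₁ : StarSubalgebra ℂ A₁)) : A₁) := by
      rw [← hι' f]
      rfl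
    rw [← h2]
    exact h1

end ST1_

open ST1_ in
theorem p_ST1 (h_FCD : T_FCD) (h_DEX : T_DEX) (h_RSB : T_RSB) (h_AUJ : T_AUJ) (h_PER : T_PER) :
    T_ST1 := by
  intro K A A₁ _ _ _ _ _ _ _ μ _ _ ν _ t φ ι q φ₁ ι₁ q₁ c k₀ r κ e₀ s α F ε n m m₁ hA hA₁ ht
    hκ hr hc hE hε
  have hinf : ∀ J : Set ℕ, (∀ i, 2 * i ∈ J) → J.Infinite := fun J hJ =>
    Set.infinite_of_injective_forall_mem (f := fun i : ℕ => 2 * i)
      (fun a b hab => by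
        have : 2 * a = 2 * b := hab
        omega) hJ
  obtain ⟨H, δ, hδ, hmain⟩ := core h_FCD h_DEX h_RSB K A A₁ μ ν t φ ι q φ₁ ι₁ q₁ c k₀ r κ e₀ s α
    F ε m m₁ {j | ∀ i < n, j ≠ 4 * i + 3} {j | ∀ i < n, j ≠ 2 * i + 1}
    (hinf _ fun i l _ => by omega) (hinf _ fun i l _ => by omega) (fun i l _ => by omega)
    (fun j hj l hl => by
      have := hj l hl
      omega) hA hA₁ ht hκ hr hc hE hε
  refine ⟨H, δ, hδ, fun k γ hk hγ hγ1 hmov hCDt Gs δs cs hδs hcs => ?_⟩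
  obtain ⟨ι₁', K₁, z₁, g₁, Q₁, v, S, hS, r', z, η, W, f1, f2, f3, f4, f5, f6⟩ :=
    hmain k γ hk hγ hγ1 hmov hCDt Gs δs cs hδs hcs
  obtain ⟨ψ, p1, p2, p3⟩ := h_AUJ K A μ t φ ι q {j | ∀ i < n, j ≠ 4 * i + 3} W hA f4 f5
  obtain ⟨π, hπ⟩ := perm (fun i => 4 * i + 3) (fun a b hab => by
    have : 4 * a + 3 = 4 * b + 3 := hab
    omega) n
  obtain ⟨χ, x1, x2, x3⟩ := h_PER K A μ t φ ι q π hA
  refine ⟨ι₁', K₁, z₁, g₁, Q₁, v, S, hS, r', z, η, χ.trans ψ, f1, f2, f3, ?_, ?_, ?_⟩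
  · intro f hf
    have h1 : (χ.trans ψ) (ι f) = W * ι f * star W := by
      show ψ (χ (ι f)) = _
      rw [x1, p1 _ (ι_mem ι q _ f)]
    rw [h1]
    exact f6 f hf
  · intro i hi x
    show ψ (χ (q i x)) = _
    rw [x2, hπ i hi]
    refine p2 _ (qE_mem q ?_ x)
    intro h
    exact h i hi rfl
  · intro a
    show φ (ψ (χ a)) = φ a
    rw [p3, x3]

end Pool.Agent.FPS
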