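import Pool.Agent.FPS.Targets6
import Pool.Agent.FPZ.Targets1
import Pool.Agent.FPZ.Targets2

set_option autoImplicit false

/-!
# FPS: ST2, transfer of the data of Fact C
-/

open scoped Classical
open MeasureTheory Pool.Agent.FPZ

noncomputable section

namespace Pool.Agent.FPS

namespace ST2_

/-- Transfer of projections for a finite type of indices. -/
theorem trpS (h : T_TRP) (S : Type) [Fintype S] (ε : ℝ) (hε : 0 < ε) :
    ∃ δ : ℝ, 0 < δ ∧ ∀ (A D : Type) [CStarAlgebra A] [CStarAlgebra D] (α : D →⋆ₐ[ℂ] A)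
      (P : S → A), Isometry α → (∀ i, IsStarProjection (P i)) →
      (∀ i j, i ≠ j → P i * P j = 0) → ∑ i, P i = 1 → (∀ i, ∃ d, ‖P i - α d‖ ≤ δ) →
      ∃ P' : S → D, (∀ i, IsStarProjection (P' i)) ∧ (∀ i j, i ≠ j → P' i * P' j = 0) ∧
        ∑ i, P' i = 1 ∧ ∀ i, ‖P i - α (P' i)‖ ≤ ε := by
  obtain ⟨δ, hδ, H⟩ := h (Fintype.card S) ε hε
  refine ⟨δ, hδ, fun A D _ _ α P hα h1 h2 h3 h4 => ?_⟩
  obtain ⟨P', g1, g2, g3, g4⟩ := H A D α (fun i => P ((Fintype.equivFin S).symm i)) hα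
    (fun i => h1 _) (fun i j hij => h2 _ _ (fun hh => hij ((Fintype.equivFin S).symm.injective hh)))
    (by rw [← h3]; exact (Fintype.equivFin S).symm.sum_comp P) (fun i => h4 _)
  refine ⟨fun i => P' (Fintype.equivFin S i), fun i => g1 _,
    fun i j hij => g2 _ _ (fun hh => hij ((Fintype.equivFin S).injective hh)), ?_, fun i => ?_⟩
  · rw [← g3]; exact (Fintype.equivFin S).sum_comp P'
  · have := g4 (Fintype.equivFin S i)
    simpa using this

theorem hom_le {A B : Type} [CStarAlgebra A] [CStarAlgebra B] (θ : A →⋆ₐ[ℂ] B) (a : A) :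
    ‖θ a‖ ≤ ‖a‖ :=
  NonUnitalStarAlgHom.norm_apply_le θ a

theorem iso_norm {A B : Type} [CStarAlgebra A] [CStarAlgebra B] (α : A →⋆ₐ[ℂ] B)
    (hα : Isometry α) (a : A) : ‖α a‖ = ‖a‖ := by
  have := hα.dist_eq a 0
  simpa using this

theorem proj_le {A : Type} [CStarAlgebra A] {p : A} (hp : IsStarProjection p) : ‖p‖ ≤ 1 :=
  hp.norm_le

theorem pis_le {A : Type} [CStarAlgebra A] {e t : A} (he : IsStarProjection e)
    (ht : star t * t = e) : ‖t‖ ≤ 1 := by
  have h1 : ‖t‖ * ‖t‖ ≤ 1 := by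
    rw [← CStarRing.norm_star_mul_self, ht]; exact proj_le he
  nlinarith [norm_nonneg t]

/-- `t * e = t` -/
theorem pis_mul {A : Type} [CStarAlgebra A] {e t : A} (he : IsStarProjection e)
    (ht : star t * t = e) : t * e = t := by
  have h1 : star (t - t * e) * (t - t * e) = 0 := by
    have h2 : star e = e := he.isSelfAdjoint.star_eq
    have h3 : e * e = e := he.isIdempotentElem.eq
    rw [star_sub, star_mul, h2]
    have h4 : (star t - e * star t) * (t - t * e)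
        = star t * t - star t * t * e - e * (star t * t) + e * (star t * t) * e := by
      noncomm_ring
    rw [h4, ht, h3, h3]
    abel
  have h2 := CStarRing.star_mul_self_eq_zero_iff _ |>.mp h1
  exact (sub_eq_zero.mp h2).symm

/-- triple products -/
theorem tri {A : Type} [CStarAlgebra A] {a x b a' x' b' : A} {M s u : ℝ} (ha : ‖a'‖ ≤ 1)
    (hb : ‖b‖ ≤ 1) (hx : ‖x‖ ≤ M) (hu : u ≤ 1) (haa : ‖a - a'‖ ≤ s) (hbb : ‖b - b'‖ ≤ s)
    (hxx : ‖x - x'‖ ≤ u) :
    ‖a * x * b - a' * x' * b'‖ ≤ s * M + u + (M + 1) * s := by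
  have h0 : a * x * b - a' * x' * b'
      = (a - a') * x * b + a' * (x - x') * b + a' * x' * (b - b') := by noncomm_ring
  have hs : 0 ≤ s := (norm_nonneg _).trans haa
  have hu0 : 0 ≤ u := (norm_nonneg _).trans hxx
  have hM : 0 ≤ M := (norm_nonneg _).trans hx
  have hx' : ‖x'‖ ≤ M + 1 := by
    calc ‖x'‖ = ‖x - (x - x')‖ := by congr 1; abel
      _ ≤ ‖x‖ + ‖x - x'‖ := norm_sub_le _ _
      _ ≤ M + 1 := by linarith
  rw [h0]
  refine (norm_add₃_le).trans ?_
  have h1 : ‖(a - a') * x * b‖ ≤ s * M := by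
    refine (norm_mul_le _ _).trans ?_
    refine (mul_le_mul (norm_mul_le _ _) hb (norm_nonneg _) (by positivity)).trans ?_
    rw [mul_one]
    exact mul_le_mul haa hx (norm_nonneg _) hs
  have h2 : ‖a' * (x - x') * b‖ ≤ u := by
    refine (norm_mul_le _ _).trans ?_
    refine (mul_le_mul (norm_mul_le _ _) hb (norm_nonneg _) (by positivity)).trans ?_
    rw [mul_one]
    calc ‖a'‖ * ‖x - x'‖ ≤ 1 * u := mul_le_mul ha hxx (norm_nonneg _) zero_le_one
      _ = u := one_mul _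
  have h3 : ‖a' * x' * (b - b')‖ ≤ (M + 1) * s := by
    refine (norm_mul_le _ _).trans ?_
    refine mul_le_mul ?_ hbb (norm_nonneg _) (by linarith)
    refine (norm_mul_le _ _).trans ?_
    calc ‖a'‖ * ‖x'‖ ≤ 1 * (M + 1) := mul_le_mul ha hx' (norm_nonneg _) zero_le_one
      _ = M + 1 := one_mul _
  linarith

theorem sum_proj {A S : Type} [CStarAlgebra A] [Fintype S] (Q : S → A)
    (h1 : ∀ k, IsStarProjection (Q k)) (h2 : ∀ k l, k ≠ l → Q k * Q l = 0) (k : S) :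
    (∑ l, Q l) * Q k = Q k := by
  rw [Finset.sum_mul, Finset.sum_eq_single k]
  · exact (h1 k).isIdempotentElem.eq
  · intro l _ hl
    exact h2 l k hl
  · intro h; exact absurd (Finset.mem_univ k) h

theorem comp_proj {A S : Type} [CStarAlgebra A] [Fintype S] (Q : S → A)
    (h1 : ∀ k, IsStarProjection (Q k)) (h2 : ∀ k l, k ≠ l → Q k * Q l = 0) :
    IsStarProjection (1 - ∑ l, Q l) := by
  have h3 : (∑ l, Q l) * (∑ l, Q l) = ∑ l, Q l := by
    rw [Finset.mul_sum]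
    exact Finset.sum_congr rfl fun k _ => sum_proj Q h1 h2 k
  have h4 : star (∑ l, Q l) = ∑ l, Q l := by
    rw [star_sum]
    exact Finset.sum_congr rfl fun k _ => (h1 k).isSelfAdjoint.star_eq
  refine ⟨?_, ?_⟩
  · show (1 - ∑ l, Q l) * (1 - ∑ l, Q l) = 1 - ∑ l, Q l
    have h5 : (1 - ∑ l, Q l) * (1 - ∑ l, Q l)
        = 1 - ∑ l, Q l - (∑ l, Q l) + (∑ l, Q l) * (∑ l, Q l) := by noncomm_ring
    rw [h5, h3]; abel
  · show star (1 - ∑ l, Q l) = 1 - ∑ l, Q l
    rw [star_sub, star_one, h4]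

theorem map_proj {A B : Type} [CStarAlgebra A] [CStarAlgebra B] (θ : A →⋆ₐ[ℂ] B) {p : A}
    (hp : IsStarProjection p) : IsStarProjection (θ p) := by
  refine ⟨?_, ?_⟩
  · show θ p * θ p = θ p
    rw [← map_mul, hp.isIdempotentElem.eq]
  · show star (θ p) = θ p
    rw [← map_star, hp.isSelfAdjoint.star_eq]

/-- The family `(1 - ∑ Q, Q k)`. -/
theorem fam1 {A S : Type} [CStarAlgebra A] [Fintype S] (Q : S → A)
    (h1 : ∀ k, IsStarProjection (Q k)) (h2 : ∀ k l, k ≠ l → Q k * Q l = 0) :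
    (∀ o : Option S, IsStarProjection (o.elim (1 - ∑ l, Q l) Q)) ∧
    (∀ o o' : Option S, o ≠ o' → o.elim (1 - ∑ l, Q l) Q * o'.elim (1 - ∑ l, Q l) Q = 0) ∧
    ∑ o : Option S, o.elim (1 - ∑ l, Q l) Q = 1 := by
  have he := comp_proj Q h1 h2
  have h3 : ∀ k, (1 - ∑ l, Q l) * Q k = 0 := fun k => by
    rw [sub_mul, one_mul, sum_proj Q h1 h2, sub_self]
  have h4 : ∀ k, Q k * (1 - ∑ l, Q l) = 0 := fun k => by
    have := congrArg star (h3 k)
    rw [star_mul, he.isSelfAdjoint.star_eq, (h1 k).isSelfAdjoint.star_eq, star_zero] at this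
    exact this
  refine ⟨?_, ?_, ?_⟩
  · rintro (_ | k)
    · exact he
    · exact h1 k
  · rintro (_ | k) (_ | l) hkl
    · exact absurd rfl hkl
    · exact h3 l
    · exact h4 k
    · exact h2 k l (fun hh => hkl (by rw [hh]))
  · rw [Fintype.sum_option]
    show (1 - ∑ l, Q l) + ∑ l, Q l = 1
    abel

/-- The family `(t i star (t i), q j)`. -/
theorem fam2 {A S T : Type} [CStarAlgebra A] [Fintype S] [Fintype T] (e : A) (t : S → A)
    (q : T → A) (he : IsStarProjection e) (ht : PI e t)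
    (h1 : ∀ k, IsStarProjection (q k)) (h2 : ∀ k l, k ≠ l → q k * q l = 0)
    (hs : 1 - ∑ j, q j = ∑ i, t i * star (t i)) :
    (∀ o : S ⊕ T, IsStarProjection (Sum.elim (fun i => t i * star (t i)) q o)) ∧
    (∀ o o' : S ⊕ T, o ≠ o' → Sum.elim (fun i => t i * star (t i)) q o *
      Sum.elim (fun i => t i * star (t i)) q o' = 0) ∧
    ∑ o : S ⊕ T, Sum.elim (fun i => t i * star (t i)) q o = 1 := by
  have hR : ∀ i, IsStarProjection (t i * star (t i)) := by
    intro i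
    refine ⟨?_, ?_⟩
    · show t i * star (t i) * (t i * star (t i)) = t i * star (t i)
      have h3 : t i * star (t i) * (t i * star (t i)) = t i * (star (t i) * t i) * star (t i) := by
        noncomm_ring
      rw [h3, ht.1 i, pis_mul he (ht.1 i)]
    · show star (t i * star (t i)) = t i * star (t i)
      rw [star_mul, star_star]
  have hRR : ∀ i j, i ≠ j → t i * star (t i) * (t j * star (t j)) = 0 := by
    intro i j hij
    have h3 : t i * star (t i) * (t j * star (t j)) = t i * (star (t i) * t j) * star (t j) := by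
      noncomm_ring
    rw [h3, ht.2 i j hij, mul_zero, zero_mul]
  have hqR : ∀ j i, q j * (t i * star (t i)) = 0 := by
    intro j i
    have h3 := (fam1 q h1 h2).2.1 (some j) none (by simp)
    have h4 : q j * (1 - ∑ l, q l) = 0 := h3
    rw [hs] at h4
    have h5 : (∑ i, t i * star (t i)) * (t i * star (t i)) = t i * star (t i) :=
      sum_proj (fun i => t i * star (t i)) hR hRR i
    rw [← h5, ← mul_assoc, h4, zero_mul]
  have hRq : ∀ i j, (t i * star (t i)) * q j = 0 := by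
    intro i j
    have := congrArg star (hqR j i)
    rw [star_mul, (hR i).isSelfAdjoint.star_eq, (h1 j).isSelfAdjoint.star_eq, star_zero] at this
    exact this
  refine ⟨?_, ?_, ?_⟩
  · rintro (i | j)
    · exact hR i
    · exact h1 j
  · rintro (i | j) (i' | j') hh
    · exact hRR i i' (fun h => hh (by rw [h]))
    · exact hRq i j'
    · exact hqR j i'
    · exact h2 j j' (fun h => hh (by rw [h]))
  · rw [Fintype.sum_sum_type]
    show ∑ i, t i * star (t i) + ∑ j, q j = 1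
    rw [← hs]; abel

/-- transfer of an approximate decomposition -/
theorem decT {A A' D S : Type} [CStarAlgebra A] [CStarAlgebra A'] [CStarAlgebra D] [Fintype S]
    (θ : A →⋆ₐ[ℂ] A') (α : D →⋆ₐ[ℂ] A') (hα : Isometry α) {E X : A} {E' X' : D} {Q : S → A}
    {Q' : S → D} {cf : S → ℂ} {M s u τ ε : ℝ} (hE : ‖E‖ ≤ 1) (hE' : ‖E'‖ ≤ 1) (hX : ‖X‖ ≤ M)
    (hcf : ∀ k, ‖cf k‖ ≤ M) (hu : u ≤ 1) (hEE : ‖θ E - α E'‖ ≤ s) (hXX : ‖θ X - α X'‖ ≤ u)
    (hQQ : ∀ k, ‖θ (Q k) - α (Q' k)‖ ≤ τ) (hd : ‖X - (E * X * E + ∑ k, cf k • Q k)‖ ≤ ε) :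
    ‖X' - (E' * X' * E' + ∑ k, cf k • Q' k)‖
      ≤ ε + (u + (s * M + u + (M + 1) * s) + Fintype.card S * (M * τ)) := by
  rw [← iso_norm α hα]
  have h0 : α (X' - (E' * X' * E' + ∑ k, cf k • Q' k))
      = θ (X - (E * X * E + ∑ k, cf k • Q k)) - ((θ X - α X')
        - (θ E * θ X * θ E - α E' * α X' * α E') - ∑ k, cf k • (θ (Q k) - α (Q' k))) := by
    simp only [map_sub, map_add, map_mul, map_sum, map_smul, smul_sub, Finset.sum_sub_distrib]
    abel
  rw [h0]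
  have h1 : ‖θ (X - (E * X * E + ∑ k, cf k • Q k))‖ ≤ ε := (hom_le θ _).trans hd
  have h2 : ‖θ E * θ X * θ E - α E' * α X' * α E'‖ ≤ s * M + u + (M + 1) * s :=
    tri (by rw [iso_norm α hα]; exact hE') ((hom_le θ E).trans hE) ((hom_le θ X).trans hX) hu
      hEE hEE hXX
  have h3 : ‖∑ k, cf k • (θ (Q k) - α (Q' k))‖ ≤ Fintype.card S * (M * τ) := by
    refine (norm_sum_le _ _).trans ?_
    refine (Finset.sum_le_card_nsmul _ _ (M * τ) ?_).trans ?_
    · intro k _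
      rw [norm_smul]
      exact mul_le_mul (hcf k) (hQQ k) (norm_nonneg _) ((norm_nonneg _).trans (hcf k))
    · rw [nsmul_eq_mul, Finset.card_univ]
  calc ‖θ (X - (E * X * E + ∑ k, cf k • Q k)) - ((θ X - α X')
        - (θ E * θ X * θ E - α E' * α X' * α E') - ∑ k, cf k • (θ (Q k) - α (Q' k)))‖
      ≤ ‖θ (X - (E * X * E + ∑ k, cf k • Q k))‖ + ‖(θ X - α X')
        - (θ E * θ X * θ E - α E' * α X' * α E') - ∑ k, cf k • (θ (Q k) - α (Q' k))‖ :=
        norm_sub_le _ _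
    _ ≤ ‖θ (X - (E * X * E + ∑ k, cf k • Q k))‖ + (‖(θ X - α X')
        - (θ E * θ X * θ E - α E' * α X' * α E')‖ + ‖∑ k, cf k • (θ (Q k) - α (Q' k))‖) := by
        gcongr; exact norm_sub_le _ _
    _ ≤ ‖θ (X - (E * X * E + ∑ k, cf k • Q k))‖ + ((‖θ X - α X'‖
        + ‖θ E * θ X * θ E - α E' * α X' * α E'‖) + ‖∑ k, cf k • (θ (Q k) - α (Q' k))‖) := by
        gcongr; exact norm_sub_le _ _
    _ ≤ _ := by linarith

/-- transfer of the compression formula -/
theorem ampT {A A' D S : Type} [CStarAlgebra A] [CStarAlgebra A'] [CStarAlgebra D] [Fintype S]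
    (θ : A →⋆ₐ[ℂ] A') (α : D →⋆ₐ[ℂ] A') (hα : Isometry α) {E X : A} {E' X' : D} {t : S → A}
    {t' : S → D} {Y : S → S → A} {Y' : S → S → D} {M s τ : ℝ} (hE : ‖E‖ ≤ 1) (hE' : ‖E'‖ ≤ 1)
    (hX : ‖X‖ ≤ M) (hY : ∀ i j, ‖Y i j‖ ≤ M) (hu : τ ≤ 1) (hEE : ‖θ E - α E'‖ ≤ s)
    (hXX : ‖θ X - α X'‖ ≤ τ) (ht : ∀ i, ‖t i‖ ≤ 1) (ht' : ∀ i, ‖t' i‖ ≤ 1)
    (htt : ∀ i, ‖θ (t i) - α (t' i)‖ ≤ τ) (hYY : ∀ i j, ‖θ (Y i j) - α (Y' i j)‖ ≤ τ)
    (hd : E * X * E = ∑ i, ∑ j, t i * Y i j * star (t j)) :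
    ‖E' * X' * E' - ∑ i, ∑ j, t' i * Y' i j * star (t' j)‖
      ≤ (s * M + τ + (M + 1) * s)
        + Fintype.card S * (Fintype.card S * (τ * M + τ + (M + 1) * τ)) := by
  rw [← iso_norm α hα]
  have h00 : θ E * θ X * θ E = ∑ i, ∑ j, θ (t i) * θ (Y i j) * star (θ (t j)) := by
    rw [← map_mul, ← map_mul, hd]
    simp only [map_sum, map_mul, map_star]
  have h0 : α (E' * X' * E' - ∑ i, ∑ j, t' i * Y' i j * star (t' j))
      = -(θ E * θ X * θ E - α E' * α X' * α E') + ∑ i, ∑ j, (θ (t i) * θ (Y i j) * star (θ (t j))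
        - α (t' i) * α (Y' i j) * star (α (t' j))) := by
    simp only [Finset.sum_sub_distrib]
    rw [← h00]
    simp only [map_sub, map_mul, map_sum, map_star]
    abel
  rw [h0]
  have h2 : ‖θ E * θ X * θ E - α E' * α X' * α E'‖ ≤ s * M + τ + (M + 1) * s :=
    tri (by rw [iso_norm α hα]; exact hE') ((hom_le θ E).trans hE) ((hom_le θ X).trans hX) hu
      hEE hEE hXX
  have h3 : ∀ i j, ‖θ (t i) * θ (Y i j) * star (θ (t j))
      - α (t' i) * α (Y' i j) * star (α (t' j))‖ ≤ τ * M + τ + (M + 1) * τ := fun i j =>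
    tri (by rw [iso_norm α hα]; exact ht' i)
      (by rw [norm_star]; exact (hom_le θ _).trans (ht j)) ((hom_le θ _).trans (hY i j)) hu
      (htt i) (by rw [← star_sub, norm_star]; exact htt j) (hYY i j)
  refine (norm_add_le _ _).trans ?_
  rw [norm_neg]
  refine add_le_add h2 ?_
  refine (norm_sum_le _ _).trans ?_
  refine (Finset.sum_le_card_nsmul _ _
    (Fintype.card S * (τ * M + τ + (M + 1) * τ)) ?_).trans ?_
  · intro i _
    refine (norm_sum_le _ _).trans ?_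
    refine (Finset.sum_le_card_nsmul _ _ (τ * M + τ + (M + 1) * τ) fun j _ => h3 i j).trans ?_
    rw [nsmul_eq_mul, Finset.card_univ]
  · rw [nsmul_eq_mul, Finset.card_univ]

/-- products of two factors -/
theorem mul2 {A : Type} [CStarAlgebra A] {x y x' y' : A} {M N s u : ℝ} (hx : ‖x'‖ ≤ M)
    (hy : ‖y‖ ≤ N) (hs : ‖x - x'‖ ≤ s) (hu : ‖y - y'‖ ≤ u) :
    ‖x * y - x' * y'‖ ≤ s * N + M * u := by
  have h0 : x * y - x' * y' = (x - x') * y + x' * (y - y') := by noncomm_ring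
  rw [h0]
  refine (norm_add_le _ _).trans (add_le_add ?_ ?_)
  · exact (norm_mul_le _ _).trans (mul_le_mul hs hy (norm_nonneg _) ((norm_nonneg _).trans hs))
  · exact (norm_mul_le _ _).trans (mul_le_mul hx hu (norm_nonneg _) ((norm_nonneg _).trans hx))

theorem idz_star : star idz * idz = 1 := by
  ext z
  have h1 : ‖(z : ℂ)‖ = 1 := by simp
  show star (z : ℂ) * (z : ℂ) = 1
  have h2 := Complex.conj_mul' (z : ℂ)
  rw [h1] at h2
  simpa using h2

theorem norm_comp {K : Type} [TopologicalSpace K] [CompactSpace K] (f : C(K, ℂ)) (c : C(K, K)) :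
    ‖f.comp c‖ ≤ ‖f‖ :=
  (ContinuousMap.norm_le _ (norm_nonneg _)).mpr fun x => f.norm_coe_le_norm (c x)

end ST2_

open ST2_

/-- ST2 -/
theorem p_ST2 (h_TRP : T_TRP) (h_TRI : T_TRI) (h_IDZ : T_IDZ) (h_APE : T_APE) (h_OCR : T_OCR)
    (h_UAP : Pool.Agent.FPZ.T_UAP) (h_STB : Pool.Agent.FPZ.T_STB) : T_ST2 := by
  intro K A _ _ _ _ _ μ _ ν _ k₀ r κ c φ ι ω e₀ s K₀ z g Q J q x Gk G' δ' δη c' hφ hκ hem hω hων
    hδ' hδη had he₀ hdec hE
  obtain ⟨hQ1, hQ2, hQ3⟩ := had.dec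
  obtain ⟨hq1, hq2, hq3⟩ := hdec
  have he := comp_proj Q hQ1 hQ2
  have htra := had.tra
  have hada := had.ada
  have hF1 := fam1 Q hQ1 hQ2
  set e := 1 - ∑ k, Q k with hedef
  obtain ⟨hpi, hRp, hcomp⟩ :=
    h_OCR K A r e₀ e s (fun f => ι (f.comp c)) κ hem.pr he he₀ hem.pis
  set t : Fin r → A := fun i => s i * e with htdef
  have htt : ∀ i, s i * e = t i := fun i => rfl
  simp only [htt] at hE hRp hcomp
  have hF2 := fam2 e t q he hpi hq1 hq2 hE
  have ht1 : ∀ i, ‖t i‖ ≤ 1 := fun i => pis_le he (hpi.1 i)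
  -- the constants
  obtain ⟨M, hM0, hMk, hM', hMκ⟩ : ∃ M : ℝ, 0 ≤ M ∧ (∀ f ∈ Gk, ‖f‖ ≤ M) ∧ (∀ f ∈ G', ‖f‖ ≤ M) ∧
      ∀ f ∈ G', ∀ i j, ‖ent (κ f) i j‖ ≤ M := by
    have p1 : 0 ≤ ∑ f ∈ Gk, ‖f‖ := Finset.sum_nonneg fun f _ => norm_nonneg f
    have p2 : 0 ≤ ∑ f ∈ G', ‖f‖ := Finset.sum_nonneg fun f _ => norm_nonneg f
    have p3 : 0 ≤ ∑ f ∈ G', ∑ i, ∑ j, ‖ent (κ f) i j‖ :=
      Finset.sum_nonneg fun f _ => Finset.sum_nonneg fun i _ =>
        Finset.sum_nonneg fun j _ => norm_nonneg _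
    refine ⟨∑ f ∈ Gk, ‖f‖ + ∑ f ∈ G', ‖f‖ + ∑ f ∈ G', ∑ i, ∑ j, ‖ent (κ f) i j‖,
      by positivity, fun f hf => ?_, fun f hf => ?_, fun f hf i j => ?_⟩
    · have := Finset.single_le_sum (f := fun f : C(K, ℂ) => ‖f‖) (fun f _ => norm_nonneg f) hf
      linarith
    · have := Finset.single_le_sum (f := fun f : C(S1, ℂ) => ‖f‖) (fun f _ => norm_nonneg f) hf
      linarith
    · have h1 := Finset.single_le_sum (f := fun f : C(S1, ℂ) => ∑ i, ∑ j, ‖ent (κ f) i j‖)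
        (fun f _ => Finset.sum_nonneg fun i _ => Finset.sum_nonneg fun j _ => norm_nonneg _) hf
      have h2 := Finset.single_le_sum (f := fun i => ∑ j, ‖ent (κ f) i j‖)
        (fun i _ => Finset.sum_nonneg fun j _ => norm_nonneg _) (Finset.mem_univ i)
      have h3 := Finset.single_le_sum (f := fun j => ‖ent (κ f) i j‖)
        (fun j _ => norm_nonneg _) (Finset.mem_univ j)
      linarith
  have hgap : 0 < c' - (φ e).re := by linarith
  set Kc : ℝ := 8 * ((K₀ : ℝ) + J + r * r + 1) * (M + 1) with hKc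
  have hKc0 : 0 < Kc := by positivity
  obtain ⟨τ, hτ0, hτ1, hτg, hτδ, hτη⟩ : ∃ τ : ℝ, 0 < τ ∧ τ ≤ 1 ∧ τ < c' - (φ e).re ∧
      Kc * τ ≤ δ' / 2 ∧ Kc * τ ≤ δη := by
    refine ⟨min (min 1 ((c' - (φ e).re) / 2)) (min (δ' / 2 / Kc) (δη / Kc)), ?_, ?_, ?_, ?_, ?_⟩
    · refine lt_min (lt_min one_pos (by linarith)) (lt_min ?_ ?_) <;> positivity
    · exact (min_le_left _ _).trans (min_le_left _ _)
    · refine lt_of_le_of_lt ((min_le_left _ _).trans (min_le_right _ _)) (by linarith)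
    · have h1 : min (min 1 ((c' - (φ e).re) / 2)) (min (δ' / 2 / Kc) (δη / Kc)) ≤ δ' / 2 / Kc :=
        (min_le_right _ _).trans (min_le_left _ _)
      rw [le_div_iff₀ hKc0] at h1
      linarith
    · have h1 : min (min 1 ((c' - (φ e).re) / 2)) (min (δ' / 2 / Kc) (δη / Kc)) ≤ δη / Kc :=
        (min_le_right _ _).trans (min_le_right _ _)
      rw [le_div_iff₀ hKc0] at h1
      linarith
  obtain ⟨δ₃, hδ₃, TRI⟩ := h_TRI τ hτ0
  obtain ⟨δ₁, hδ₁, TRP1⟩ := trpS h_TRP (Option (Fin K₀)) (min τ δ₃) (lt_min hτ0 hδ₃)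
  obtain ⟨δ₂, hδ₂, TRP2⟩ := trpS h_TRP (Fin r ⊕ Fin J) (min τ δ₃) (lt_min hτ0 hδ₃)
  obtain ⟨T₀, δ₄, hT₀, hδ₄, APE⟩ := h_APE C(S1, ℂ) {idz} h_IDZ.1 G' τ hτ0
  obtain ⟨δt, hδt0, hd1, hd2, hd3, hd4, hd5, hd6, hd7⟩ : ∃ δt : ℝ, 0 < δt ∧
      (K₀ : ℝ) * δt ≤ δ₁ ∧ δt ≤ δ₁ ∧ 3 * δt ≤ δ₂ ∧ 13 * δt ≤ δ₄ ∧ δt ≤ δ₃ ∧ δt ≤ τ ∧
      13 * δt ≤ 1 := by
    set m := min (min δ₁ δ₂) (min (min δ₃ δ₄) (min τ 1)) with hm
    have hm0 : 0 < m := by
      refine lt_min (lt_min hδ₁ hδ₂) (lt_min (lt_min hδ₃ hδ₄) (lt_min hτ0 one_pos))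
    have m1 : m ≤ δ₁ := (min_le_left _ _).trans (min_le_left _ _)
    have m2 : m ≤ δ₂ := (min_le_left _ _).trans (min_le_right _ _)
    have m3 : m ≤ δ₃ := (min_le_right _ _).trans ((min_le_left _ _).trans (min_le_left _ _))
    have m4 : m ≤ δ₄ := (min_le_right _ _).trans ((min_le_left _ _).trans (min_le_right _ _))
    have m5 : m ≤ τ := (min_le_right _ _).trans ((min_le_right _ _).trans (min_le_left _ _))
    have m6 : m ≤ 1 := (min_le_right _ _).trans ((min_le_right _ _).trans (min_le_right _ _))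
    have hk : (0 : ℝ) < 13 * ((K₀ : ℝ) + 1) := by positivity
    have hkey : m / (13 * ((K₀ : ℝ) + 1)) * (13 * ((K₀ : ℝ) + 1)) = m :=
      div_mul_cancel₀ _ hk.ne'
    set d := m / (13 * ((K₀ : ℝ) + 1)) with hdd
    have hd0 : 0 < d := by positivity
    have hkd : 0 ≤ (K₀ : ℝ) * d := by positivity
    have h13 : 13 * d ≤ m := by nlinarith
    refine ⟨d, hd0, by nlinarith, by linarith, by linarith, by linarith, by linarith,
      by linarith, by linarith⟩
  have hsq : δt * 1 + (1 + δt) * δt ≤ 3 * δt := by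
    have h1 : δt * δt ≤ 1 * δt := mul_le_mul_of_nonneg_right (by linarith) hδt0.le
    linarith
  refine ⟨Gk.image (fun f => f.comp c) ∪ (Finset.univ.image fun k => (toC (g k)).comp c) ∪
    G'.biUnion (fun f => Finset.univ.image fun p : Fin r × Fin r =>
      (ent (κ f) p.1 p.2).comp c), δt, hδt0, ?_⟩
  intro A' D _ _ φ' φ₁ α θ η hα hφ' htα htθ hθQ hθt hθq hθω hGt
  replace hθt : ∀ i, ∃ d, ‖θ (t i) - α d‖ ≤ δt := hθt
  clear_value t
  have hGk : ∀ f ∈ Gk, ‖θ (ι (f.comp c)) - α (η (f.comp c))‖ ≤ τ := fun f hf =>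
    (hGt _ (by
      simp only [Finset.mem_union, Finset.mem_image]
      exact Or.inl (Or.inl ⟨f, hf, rfl⟩))).trans hd6
  have hGg : ∀ k, ‖θ (ι ((toC (g k)).comp c)) - α (η ((toC (g k)).comp c))‖ ≤ τ := fun k =>
    (hGt _ (by
      simp only [Finset.mem_union, Finset.mem_image]
      exact Or.inl (Or.inr ⟨k, Finset.mem_univ k, rfl⟩))).trans hd6
  have hGκ : ∀ f ∈ G', ∀ i j,
      ‖θ (ι ((ent (κ f) i j).comp c)) - α (η ((ent (κ f) i j).comp c))‖ ≤ τ := fun f hf i j =>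
    (hGt _ (by
      simp only [Finset.mem_union, Finset.mem_biUnion, Finset.mem_image]
      exact Or.inr ⟨f, hf, (i, j), Finset.mem_univ _, rfl⟩)).trans hd6
  -- the first family
  obtain ⟨P, hP1, hP2, hP3, hP4⟩ := TRP1 A' D α (fun o => θ (o.elim e Q)) hα
    (fun o => map_proj θ (hF1.1 o)) (fun o o' h => by rw [← map_mul, hF1.2.1 o o' h, map_zero])
    (by rw [← map_sum, hF1.2.2, map_one]) (by
      choose dQ hdQ using hθQ
      rintro (_ | k)
      · refine ⟨1 - ∑ k, dQ k, ?_⟩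
        show ‖θ e - α (1 - ∑ k, dQ k)‖ ≤ δ₁
        have h0 : θ e - α (1 - ∑ k, dQ k) = -∑ k, (θ (Q k) - α (dQ k)) := by
          rw [hedef]
          simp only [map_sub, map_one, map_sum, Finset.sum_sub_distrib]
          abel
        rw [h0, norm_neg]
        refine (norm_sum_le _ _).trans ?_
        refine (Finset.sum_le_card_nsmul _ _ δt fun k _ => hdQ k).trans ?_
        rw [nsmul_eq_mul, Finset.card_univ, Fintype.card_fin]
        exact hd1
      · exact ⟨dQ k, (hdQ k).trans hd2⟩)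
  have hP4e : ‖θ e - α (P none)‖ ≤ min τ δ₃ := hP4 none
  have hP4Q : ∀ k, ‖θ (Q k) - α (P (some k))‖ ≤ τ := fun k =>
    (hP4 (some k)).trans (min_le_left _ _)
  -- the second family
  obtain ⟨R, hR1, hR2, hR3, hR4⟩ := TRP2 A' D α
    (fun o => θ (Sum.elim (fun i => t i * star (t i)) q o)) hα
    (fun o => map_proj θ (hF2.1 o)) (fun o o' h => by rw [← map_mul, hF2.2.1 o o' h, map_zero])
    (by rw [← map_sum, hF2.2.2, map_one]) (by
      rintro (i | j)
      · obtain ⟨d, hd⟩ := hθt i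
        refine ⟨d * star d, ?_⟩
        show ‖θ (t i * star (t i)) - α (d * star d)‖ ≤ δ₂
        rw [map_mul, map_mul, map_star, map_star]
        have h1 : ‖α d‖ ≤ 1 + δt := by
          calc ‖α d‖ = ‖θ (t i) - (θ (t i) - α d)‖ := by congr 1; abel
            _ ≤ ‖θ (t i)‖ + ‖θ (t i) - α d‖ := norm_sub_le _ _
            _ ≤ 1 + δt := add_le_add ((hom_le θ _).trans (ht1 i)) hd
        have h5 : ‖θ (t i) * star (θ (t i)) - α d * star (α d)‖ ≤ δt * 1 + (1 + δt) * δt :=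
          mul2 h1 (by rw [norm_star]; exact (hom_le θ _).trans (ht1 i)) hd
            (by rw [← star_sub, norm_star]; exact hd)
        exact h5.trans (hsq.trans hd3)
      · obtain ⟨d, hd⟩ := hθq j
        exact ⟨d, by
          show ‖θ (q j) - α d‖ ≤ δ₂
          linarith⟩)
  have hR4t : ∀ i, ‖θ (t i * star (t i)) - α (R (Sum.inl i))‖ ≤ min τ δ₃ := fun i =>
    hR4 (Sum.inl i)
  have hR4q : ∀ j, ‖θ (q j) - α (R (Sum.inr j))‖ ≤ τ := fun j =>
    (hR4 (Sum.inr j)).trans (min_le_left _ _)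
  -- the isometries
  have hexT : ∀ i, ∃ t' : D, star t' * t' = P none ∧ t' * star t' = R (Sum.inl i) ∧
      ‖θ (t i) - α t'‖ ≤ τ := fun i =>
    TRI A' D α (θ e) (θ (t i * star (t i))) (θ (t i)) (P none) (R (Sum.inl i)) hα
      (map_proj θ he) (map_proj θ (hF2.1 (Sum.inl i))) (hP1 none) (hR1 (Sum.inl i))
      (by rw [← map_star, ← map_mul, hpi.1 i]) (by rw [← map_star, ← map_mul])
      (hP4e.trans (min_le_right _ _)) ((hR4t i).trans (min_le_right _ _))
      (by obtain ⟨d, hd⟩ := hθt i; exact ⟨d, hd.trans hd5⟩)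
  choose t' ht'1 ht'2 ht'3 using hexT
  have hPe : 1 - ∑ k, P (some k) = P none := by
    rw [Fintype.sum_option] at hP3
    rw [← hP3]; abel
  have hRe : 1 - ∑ j, R (Sum.inr j) = ∑ i, t' i * star (t' i) := by
    rw [Fintype.sum_sum_type] at hR3
    rw [← hR3]
    simp only [ht'2]
    abel
  have hpi' : PI (P none) t' := by
    refine ⟨ht'1, fun a b hab => ?_⟩
    have h1 : R (Sum.inl a) * t' a = t' a := by
      rw [← ht'2 a, mul_assoc, ht'1 a, pis_mul (hP1 none) (ht'1 a)]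
    have h2 : R (Sum.inl b) * t' b = t' b := by
      rw [← ht'2 b, mul_assoc, ht'1 b, pis_mul (hP1 none) (ht'1 b)]
    have h3 : star (t' a) * R (Sum.inl a) = star (t' a) := by
      have := congrArg star h1
      rw [star_mul, (hR1 (Sum.inl a)).isSelfAdjoint.star_eq] at this
      exact this
    calc star (t' a) * t' b = (star (t' a) * R (Sum.inl a)) * (R (Sum.inl b) * t' b) := by
          rw [h3, h2]
      _ = star (t' a) * (R (Sum.inl a) * R (Sum.inl b)) * t' b := by noncomm_ring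
      _ = 0 := by
          rw [hR2 _ _ (fun h => hab (Sum.inl_injective h)), mul_zero, zero_mul]
  have ht'n : ∀ i, ‖t' i‖ ≤ 1 := fun i => pis_le (hP1 none) (ht'1 i)
  -- the homomorphism
  obtain ⟨w, hw⟩ := hθω
  have hv1 : star (θ (ω idz)) * θ (ω idz) = 1 := by
    rw [← map_star, ← map_mul, ← map_star, ← map_mul, idz_star, map_one, map_one]
  have hv2 : θ (ω idz) * star (θ (ω idz)) = 1 := by
    rw [← map_star, ← map_mul, ← map_star, ← map_mul, mul_comm, idz_star, map_one, map_one]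
  have hvn : ‖θ (ω idz)‖ ≤ 1 := by
    refine pis_le (e := (1 : A')) ?_ hv1
    exact ⟨one_mul 1, star_one _⟩
  have hwn : ‖α w‖ ≤ 1 + δt := by
    calc ‖α w‖ = ‖θ (ω idz) - (θ (ω idz) - α w)‖ := by congr 1; abel
      _ ≤ ‖θ (ω idz)‖ + ‖θ (ω idz) - α w‖ := norm_sub_le _ _
      _ ≤ 1 + δt := add_le_add hvn hw
  have hws : ‖star (θ (ω idz)) - star (α w)‖ ≤ δt := by
    rw [← star_sub, norm_star]; exact hw
  have hw1 : ‖star w * w - 1‖ ≤ 3 * δt := by
    rw [← iso_norm α hα, map_sub, map_mul, map_star, map_one, ← hv1, norm_sub_rev]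
    have h5 : ‖star (θ (ω idz)) * θ (ω idz) - star (α w) * α w‖ ≤ δt * 1 + (1 + δt) * δt :=
      mul2 (by rw [norm_star]; exact hwn) hvn hws hw
    exact h5.trans hsq
  have hw2 : ‖w * star w - 1‖ ≤ 3 * δt := by
    rw [← iso_norm α hα, map_sub, map_mul, map_star, map_one, ← hv2, norm_sub_rev]
    have h5 : ‖θ (ω idz) * star (θ (ω idz)) - α w * star (α w)‖ ≤ δt * 1 + (1 + δt) * δt :=
      mul2 hwn (by rw [norm_star]; exact hvn) hw hws
    exact h5.trans hsq
  obtain ⟨u, hu1, hu2, hu3⟩ := h_UAP D w (3 * δt) hw1 hw2 (by linarith)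
  obtain ⟨ρ, hρ⟩ := h_IDZ.2 D u ⟨hu1, hu2⟩
  have hρG : ∀ f ∈ G', ‖θ (ω f) - α (ρ f)‖ ≤ τ := by
    refine APE A' (θ.comp ω) (α.comp ρ) fun b hb => ?_
    have hb' : b = idz := by
      have := hT₀ hb
      simpa using this
    rw [hb']
    show ‖θ (ω idz) - α (ρ idz)‖ ≤ δ₄
    rw [hρ]
    calc ‖θ (ω idz) - α u‖ = ‖(θ (ω idz) - α w) - α (u - w)‖ := by
          rw [map_sub]; congr 1; abel
      _ ≤ ‖θ (ω idz) - α w‖ + ‖α (u - w)‖ := norm_sub_le _ _
      _ ≤ δt + 4 * (3 * δt) := by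
          refine add_le_add hw ?_
          rw [iso_norm α hα]; exact hu3
      _ ≤ δ₄ := by linarith
  have hφn : ∀ b : A', ‖φ' b‖ ≤ ‖b‖ := fun b =>
    ((h_STB A' φ' hφ'.toSt).2.2.1 b).trans ((h_STB A' φ' hφ'.toSt).2.2.2.1 b)
  -- nonnegative monomials
  have k1 : 0 ≤ (K₀ : ℝ) * τ := by positivity
  have k2 : 0 ≤ (K₀ : ℝ) * (M * τ) := by positivity
  have k3 : 0 ≤ (J : ℝ) * τ := by positivity
  have k4 : 0 ≤ (J : ℝ) * (M * τ) := by positivity
  have k5 : 0 ≤ (r : ℝ) * r * τ := by positivity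
  have k6 : 0 ≤ (r : ℝ) * r * (M * τ) := by positivity
  have k7 : 0 ≤ M * τ := by positivity
  have hKcτ : Kc * τ = 8 * ((K₀ : ℝ) * τ) + 8 * ((K₀ : ℝ) * (M * τ)) + 8 * ((J : ℝ) * τ)
      + 8 * ((J : ℝ) * (M * τ)) + 8 * ((r : ℝ) * r * τ) + 8 * ((r : ℝ) * r * (M * τ))
      + 8 * (M * τ) + 8 * τ := by rw [hKc]; ring
  have hEEe : ‖θ (∑ i, t i * star (t i)) - α (∑ i, t' i * star (t' i))‖ ≤ J * τ := by
    rw [← hE, ← hRe]
    have h0 : θ (1 - ∑ j, q j) - α (1 - ∑ j, R (Sum.inr j))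
        = -∑ j, (θ (q j) - α (R (Sum.inr j))) := by
      simp only [map_sub, map_one, map_sum, Finset.sum_sub_distrib]
      abel
    rw [h0, norm_neg]
    refine (norm_sum_le _ _).trans ?_
    refine (Finset.sum_le_card_nsmul _ _ τ fun j _ => hR4q j).trans ?_
    rw [nsmul_eq_mul, Finset.card_univ, Fintype.card_fin]
  have hRp' : IsStarProjection (∑ i, t' i * star (t' i)) := by
    rw [← hRe]
    exact comp_proj (fun j => R (Sum.inr j)) (fun j => hR1 _)
      (fun i j h => hR2 _ _ (fun hh => h (Sum.inr_injective hh)))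
  refine ⟨fun k => P (some k), t', fun j => R (Sum.inr j), ρ, fun k => hP1 _,
    fun k l h => hP2 _ _ (fun hh => h (Option.some_injective _ hh)), ?_, ?_, ?_, ?_, ?_, ?_, ?_,
    ?_, ?_⟩
  · rw [hPe]; exact hpi'
  · -- adapted
    intro k
    rw [← iso_norm α hα]
    have h0 : α (η ((toC (g k)).comp c) * P (some k) - P (some k))
        = -(θ (ι ((toC (g k)).comp c)) * θ (Q k)
          - α (η ((toC (g k)).comp c)) * α (P (some k))) + (θ (Q k) - α (P (some k))) := by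
      have h1 : θ (ι ((toC (g k)).comp c)) * θ (Q k) = θ (Q k) := by
        rw [← map_mul]
        exact congrArg θ (hada k)
      rw [h1, map_sub, map_mul]
      abel
    rw [h0]
    have hgn : ‖(toC (g k)).comp c‖ ≤ 1 := by
      refine (norm_comp _ _).trans ?_
      refine (ContinuousMap.norm_le _ zero_le_one).mpr fun y => ?_
      show ‖((g k y : ℝ) : ℂ)‖ ≤ 1
      rw [Complex.norm_real, Real.norm_eq_abs, abs_of_nonneg (had.rng k y).1]
      exact (had.rng k y).2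
    have h2 : ‖α (η ((toC (g k)).comp c))‖ ≤ 2 := by
      calc ‖α (η ((toC (g k)).comp c))‖ = ‖θ (ι ((toC (g k)).comp c))
            - (θ (ι ((toC (g k)).comp c)) - α (η ((toC (g k)).comp c)))‖ := by congr 1; abel
        _ ≤ ‖θ (ι ((toC (g k)).comp c))‖
            + ‖θ (ι ((toC (g k)).comp c)) - α (η ((toC (g k)).comp c))‖ := norm_sub_le _ _
        _ ≤ 1 + 1 := add_le_add ((hom_le θ _).trans ((hom_le ι _).trans hgn))
            ((hGg k).trans hτ1)
        _ = 2 := by norm_num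
    refine (norm_add_le _ _).trans ?_
    rw [norm_neg]
    have h3 := mul2 h2 ((hom_le θ _).trans (proj_le (hQ1 k))) (hGg k) (hP4Q k)
    have h4 := hP4Q k
    linarith
  · -- decomposition
    intro f hf
    have h1 := hQ3 f hf
    rw [hPe]
    have h2 := decT θ α hα (E := e) (X := ι (f.comp c)) (E' := P none) (X' := η (f.comp c))
      (Q := Q) (Q' := fun k => P (some k)) (cf := fun k => f (z k)) (M := M) (s := τ) (u := τ)
      (τ := τ) (ε := δ' / 2) (proj_le he) (proj_le (hP1 none))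
      ((hom_le ι _).trans ((norm_comp f c).trans (hMk f hf)))
      (fun k => (f.norm_coe_le_norm _).trans (hMk f hf)) hτ1 (hP4e.trans (min_le_left _ _))
      (hGk f hf) hP4Q h1
    refine h2.trans ?_
    rw [Fintype.card_fin]
    linarith
  · -- trace
    show (φ₁ (1 - ∑ k, P (some k))).re < c'
    rw [hPe, ← htα]
    have h1 : ‖φ' (θ e - α (P none))‖ ≤ τ :=
      (hφn _).trans (hP4e.trans (min_le_left _ _))
    rw [map_sub, htθ] at h1
    have h2 := Complex.abs_re_le_norm (φ e - φ' (α (P none)))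
    rw [Complex.sub_re] at h2
    have h3 := (abs_le.mp (h2.trans h1)).1
    linarith
  · -- integral
    intro f hf
    have h1 : ‖φ' (θ (ω f) - α (ρ f))‖ ≤ τ := (hφn _).trans (hρG f hf)
    rw [map_sub, htθ, hων, htα, norm_sub_rev] at h1
    refine h1.trans ?_
    linarith
  · -- decomposition of ρ
    refine ⟨fun j => hR1 _, fun i j h => hR2 _ _ (fun hh => h (Sum.inr_injective hh)),
      fun f hf => ?_⟩
    have h1 := hq3 f hf
    have h2 := decT θ α hα (E := 1 - ∑ j, q j) (X := ω f) (E' := 1 - ∑ j, R (Sum.inr j))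
      (X' := ρ f) (Q := q) (Q' := fun j => R (Sum.inr j)) (cf := fun k => f (x k)) (M := M)
      (s := J * τ) (u := τ) (τ := τ) (ε := δ' / 2) (by rw [hE]; exact proj_le hRp)
      (by rw [hRe]; exact proj_le hRp')
      ((hom_le ω _).trans (hM' f hf))
      (fun k => (f.norm_coe_le_norm _).trans (hM' f hf)) hτ1 (by rw [hE, hRe]; exact hEEe)
      (hρG f hf) hR4q h1
    refine h2.trans ?_
    rw [Fintype.card_fin]
    linarith
  · exact hRe
  · -- compression
    intro f hf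
    have h2 := ampT θ α hα (E := ∑ i, t i * star (t i)) (X := ω f)
      (E' := ∑ i, t' i * star (t' i)) (X' := ρ f) (t := t) (t' := t')
      (Y := fun i j => ι ((ent (κ f) i j).comp c)) (Y' := fun i j => η ((ent (κ f) i j).comp c))
      (M := M) (s := J * τ) (τ := τ) (proj_le hRp) (proj_le hRp')
      ((hom_le ω _).trans (hM' f hf))
      (fun i j => (hom_le ι _).trans ((norm_comp _ c).trans (hMκ f hf i j))) hτ1 hEEe
      (hρG f hf) ht1 ht'n ht'3 (hGκ f hf) (by rw [hω]; exact hcomp f)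
    have h3 : cmp 1 (∑ i, t' i * star (t' i)) (fun f => ρ f) f
        - amp 1 t' (fun f => η (f.comp c)) κ f
        = (∑ i, t' i * star (t' i)) * ρ f * (∑ i, t' i * star (t' i))
          - ∑ i, ∑ j, t' i * η ((ent (κ f) i j).comp c) * star (t' j) := by
      unfold cmp amp
      abel
    rw [h3]
    refine h2.trans ?_
    rw [Fintype.card_fin]
    linarith
  · intro f hf
    refine (hρG f hf).trans ?_
    linarith

end Pool.Agent.FPS
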