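import Pool.Agent.FPS.Inst
import Pool.Agent.FPS.Targets6

set_option autoImplicit false
set_option linter.unusedSectionVars false

/-!
# FPS: target STP, the step (helper12)
-/

open scoped Classical
open MeasureTheory Pool.Agent.FPZ

noncomputable section

namespace Pool.Agent.FPS

namespace STP_

/-! ## Generated subalgebras -/

section gen

variable {A B : Type} [CStarAlgebra A] [CStarAlgebra B]

theorem nle (θ : A →⋆ₐ[ℂ] B) (a : A) : ‖θ a‖ ≤ ‖a‖ := NonUnitalStarAlgHom.norm_apply_le θ a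

theorem contin (θ : A →⋆ₐ[ℂ] B) : Continuous θ :=
  AddMonoidHomClass.continuous_of_bound θ 1 fun a => by
    rw [one_mul]
    exact nle θ a

theorem cal_mono {S T : Set A} (h : S ⊆ T) : cal S ≤ cal T :=
  StarSubalgebra.topologicalClosure_mono
    (StarAlgebra.adjoin_le (h.trans (StarAlgebra.subset_adjoin ℂ T)))

theorem subset_cal (T : Set A) : T ⊆ (cal T : Set A) := fun _ hx =>
  StarSubalgebra.le_topologicalClosure _ (StarAlgebra.subset_adjoin ℂ T hx)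

/-- a homomorphism that maps the generators into a closed subalgebra -/
theorem cal_map (θ : A →⋆ₐ[ℂ] B) (T : Set A) (S : StarSubalgebra ℂ B) (hS : IsClosed (S : Set B))
    (h : ∀ x ∈ T, θ x ∈ S) (x : A) (hx : x ∈ cal T) : θ x ∈ S := by
  have h1 : StarAlgebra.adjoin ℂ T ≤ S.comap θ := StarAlgebra.adjoin_le fun y hy => h y hy
  have h2 : IsClosed ((S.comap θ : StarSubalgebra ℂ A) : Set A) := hS.preimage (contin θ)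
  exact StarSubalgebra.topologicalClosure_minimal h1 h2 hx

/-- two homomorphisms that agree on generators -/
theorem cal_eq (θ θ' : A →⋆ₐ[ℂ] B) (T : Set A) (h : ∀ x ∈ T, θ x = θ' x) (x : A)
    (hx : x ∈ cal T) : θ x = θ' x := by
  have h1 : StarAlgebra.adjoin ℂ T ≤ StarAlgHom.equalizer θ θ' :=
    StarAlgebra.adjoin_le fun y hy => (StarAlgHom.mem_equalizer _ _ _).2 (h y hy)
  have h2 : IsClosed ((StarAlgHom.equalizer θ θ' : StarSubalgebra ℂ A) : Set A) := by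
    have h3 : ((StarAlgHom.equalizer θ θ' : StarSubalgebra ℂ A) : Set A) = {y | θ y = θ' y} := by
      ext y
      exact StarAlgHom.mem_equalizer _ _ _
    rw [h3]
    exact isClosed_eq (contin θ) (contin θ')
  exact (StarAlgHom.mem_equalizer _ _ _).1 (StarSubalgebra.topologicalClosure_minimal h1 h2 hx)

end gen

section blocks

variable {Z A : Type} [TopologicalSpace Z] [CompactSpace Z] [CStarAlgebra A]
  (ι : C(Z, ℂ) →⋆ₐ[ℂ] A) (κ : ℕ → ℂ × ℂ →⋆ₐ[ℂ] A)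

theorem ga_mono {J J' : Set ℕ} (h : J ⊆ J') : GA ι κ J ≤ GA ι κ J' :=
  cal_mono (Set.union_subset_union_right _ (Set.biUnion_subset_biUnion_left h))

theorem mem_ga_z (J : Set ℕ) (f : C(Z, ℂ)) : ι f ∈ GA ι κ J :=
  subset_cal _ (Or.inl ⟨f, rfl⟩)

theorem mem_ga_p {J : Set ℕ} {j : ℕ} (hj : j ∈ J) (x : ℂ × ℂ) : κ j x ∈ GA ι κ J :=
  subset_cal _ (Or.inr (Set.mem_iUnion₂.2 ⟨j, hj, x, rfl⟩))

theorem mem_ea_p {J : Set ℕ} {j : ℕ} (hj : j ∈ J) (x : ℂ × ℂ) : κ j x ∈ EA κ J :=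
  subset_cal _ (Set.mem_iUnion₂.2 ⟨j, hj, x, rfl⟩)

/-- finitely many generators -/
theorem gen_fin (J : Set ℕ) (T₀ : Finset A)
    (h : (T₀ : Set A) ⊆ Set.range ι ∪ ⋃ i ∈ J, Set.range (κ i)) :
    ∃ (FD : Finset C(Z, ℂ)) (nD : ℕ), ∀ b ∈ T₀, (∃ f ∈ FD, b = ι f) ∨
      ∃ j ∈ J, j < nD ∧ ∃ x, b = κ j x := by
  induction T₀ using Finset.induction_on with
  | empty => exact ⟨∅, 0, fun b hb => absurd hb (Finset.notMem_empty b)⟩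
  | insert a T ha ih =>
    obtain ⟨FD, nD, h1⟩ := ih fun x hx => h (by
      rw [Finset.coe_insert]
      exact Or.inr hx)
    have h2 := h (show a ∈ ((insert a T : Finset A) : Set A) by
      rw [Finset.coe_insert]
      exact Or.inl rfl)
    rcases h2 with ⟨f, hf⟩ | h2
    · refine ⟨insert f FD, nD, fun b hb => ?_⟩
      rcases Finset.mem_insert.1 hb with h3 | h3
      · exact Or.inl ⟨f, Finset.mem_insert_self _ _, by rw [h3, hf]⟩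
      · rcases h1 b h3 with ⟨f', hf', h4⟩ | h4
        · exact Or.inl ⟨f', Finset.mem_insert_of_mem hf', h4⟩
        · exact Or.inr h4
    · obtain ⟨j, hj, x, hx⟩ := Set.mem_iUnion₂.1 h2
      refine ⟨FD, max nD (j + 1), fun b hb => ?_⟩
      rcases Finset.mem_insert.1 hb with h3 | h3
      · exact Or.inr ⟨j, hj, by omega, x, by rw [h3, hx]⟩
      · rcases h1 b h3 with h4 | ⟨j', hj', h5, x', h6⟩
        · exact Or.inl h4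
        · exact Or.inr ⟨j', hj', by omega, x', h6⟩

end blocks

/-! ## Permutations -/

/-- a permutation that agrees with an injective map on the first numbers -/
theorem ex_perm (f : ℕ → ℕ) (hf : Function.Injective f) (n : ℕ) :
    ∃ σ : ℕ ≃ ℕ, ∀ i < n, σ i = f i := by
  induction n with
  | zero => exact ⟨Equiv.refl ℕ, fun i hi => absurd hi (Nat.not_lt_zero i)⟩
  | succ n ih =>
    obtain ⟨σ, hσ⟩ := ih
    refine ⟨σ.trans (Equiv.swap (σ n) (f n)), fun i hi => ?_⟩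
    rw [Equiv.trans_apply]
    rcases Nat.lt_succ_iff_lt_or_eq.1 hi with h | h
    · rw [hσ i h, Equiv.swap_apply_of_ne_of_ne]
      · rw [← hσ i h]
        exact fun h1 => h.ne (σ.injective h1)
      · exact fun h1 => h.ne (hf h1)
    · rw [h, Equiv.swap_apply_left]

/-- the permutation of the odd numbers -/
theorem odd_perm (σ : ℕ ≃ ℕ) : ∃ π : ℕ ≃ ℕ, (∀ j, π (2 * j) = 2 * j) ∧
    ∀ j, π (2 * j + 1) = 2 * σ j + 1 := by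
  have key : ∀ (τ τ' : ℕ ≃ ℕ), (∀ j, τ' (τ j) = j) → ∀ i : ℕ,
      (fun n : ℕ => if n % 2 = 0 then n else 2 * τ' (n / 2) + 1)
        ((fun n : ℕ => if n % 2 = 0 then n else 2 * τ (n / 2) + 1) i) = i := by
    intro τ τ' h i
    by_cases hi : i % 2 = 0
    · simp only [hi, if_true]
    · have h1 : (2 * τ (i / 2) + 1) % 2 ≠ 0 := by omega
      have h2 : (2 * τ (i / 2) + 1) / 2 = τ (i / 2) := by omega
      simp only [hi, if_false, h1, h2, h]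
      omega
  refine ⟨⟨fun n => if n % 2 = 0 then n else 2 * σ (n / 2) + 1,
    fun n => if n % 2 = 0 then n else 2 * σ.symm (n / 2) + 1,
    key σ σ.symm (fun j => σ.symm_apply_apply j), key σ.symm σ (fun j => σ.apply_symm_apply j)⟩,
    fun j => ?_, fun j => ?_⟩
  · show (if 2 * j % 2 = 0 then 2 * j else _) = 2 * j
    rw [if_pos (by omega)]
  · show (if (2 * j + 1) % 2 = 0 then _ else 2 * σ ((2 * j + 1) / 2) + 1) = _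
    rw [if_neg (by omega), show (2 * j + 1) / 2 = j by omega]

/-! ## Small facts -/

theorem ahm_mono {K K' n : Type} [TopologicalSpace K] [CompactSpace K] [TopologicalSpace K']
    [Fintype n] {H H' : Finset C(K, ℂ)} {δ δ' : ℝ} {γ : C(K, ℂ) → C(K', Matrix n n ℂ)}
    (h : AHM H δ γ) (hH : H' ⊆ H) (hδ : δ ≤ δ') : AHM H' δ' γ :=
  ⟨h.add, h.smul, h.one, h.str, h.pos,
    fun f hf g hg x => (h.mul f (hH hf) g (hH hg) x).trans hδ⟩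

theorem dec_map {K A B : Type} [TopologicalSpace K] [CStarAlgebra A] [CStarAlgebra B]
    (ψ : A →⋆ₐ[ℂ] B) {G G' : Finset C(K, ℂ)} {δ δ' : ℝ} {L : C(K, ℂ) → A} {L' : C(K, ℂ) → B}
    {J : ℕ} {q : Fin J → A} {z : Fin J → K} (h : Dec G δ L q z) (hG : G' ⊆ G) (hδ : δ ≤ δ')
    (hL : ∀ f, L' f = ψ (L f)) : Dec G' δ' L' (fun j => ψ (q j)) z := by
  obtain ⟨h1, h2, h3⟩ := h
  refine ⟨fun j => (h1 j).map ψ, fun i j hij => ?_, fun f hf => ?_⟩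
  · rw [← map_mul, h2 i j hij, map_zero]
  · have h4 : L' f - ((1 - ∑ j, ψ (q j)) * L' f * (1 - ∑ j, ψ (q j)) +
        ∑ j, f (z j) • ψ (q j)) = ψ (L f - ((1 - ∑ j, q j) * L f * (1 - ∑ j, q j) +
        ∑ j, f (z j) • q j)) := by
      rw [hL, map_sub, map_add, map_mul, map_mul, map_sub, map_one, map_sum, map_sum]
      simp only [map_smul]
    rw [h4]
    exact ((nle ψ _).trans (h3 f (hG hf))).trans hδ

theorem amp_map {K K' n A B : Type} [TopologicalSpace K] [TopologicalSpace K'] [Fintype n]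
    [CStarAlgebra A] [CStarAlgebra B] (ψ : A →⋆ₐ[ℂ] B) (k₀ : K) (τ : n → A)
    (L : C(K', ℂ) → A) (γ : C(K, ℂ) → C(K', Matrix n n ℂ)) (f : C(K, ℂ)) :
    ψ (amp k₀ τ L γ f) = amp k₀ (fun a => ψ (τ a)) (fun g => ψ (L g)) γ f := by
  unfold amp
  rw [map_add, map_smul, map_sub, map_one, map_sum, map_sum]
  simp only [map_sum, map_mul, map_star]

theorem amp_mem {K K' n A : Type} [TopologicalSpace K] [TopologicalSpace K'] [Fintype n]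
    [CStarAlgebra A] (S : StarSubalgebra ℂ A) (k₀ : K) (τ : n → A)
    (L : C(K', ℂ) → A) (γ : C(K, ℂ) → C(K', Matrix n n ℂ)) (f : C(K, ℂ)) (h1 : ∀ a, τ a ∈ S)
    (h2 : ∀ g, L g ∈ S) : amp k₀ τ L γ f ∈ S := by
  unfold amp
  refine add_mem (sum_mem fun a _ => sum_mem fun b _ => ?_) ?_
  · exact mul_mem (mul_mem (h1 a) (h2 _)) (star_mem (h1 b))
  · exact SMulMemClass.smul_mem _ (sub_mem (one_mem _)
      (sum_mem fun a _ => mul_mem (h1 a) (star_mem (h1 a))))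

/-! ## The decomposition in the even block -/

/-- the entries of `κ g` for `g ∈ G` -/
def entS {K : Type} [TopologicalSpace K] {r : ℕ}
    (κ : C(S1, ℂ) → C(K, Matrix (Fin r) (Fin r) ℂ)) (G : Finset C(S1, ℂ)) : Finset C(K, ℂ) :=
  (G ×ˢ (Finset.univ : Finset (Fin r × Fin r))).image fun p => ent (κ p.1) p.2.1 p.2.2

theorem mem_entS {K : Type} [TopologicalSpace K] {r : ℕ}
    {κ : C(S1, ℂ) → C(K, Matrix (Fin r) (Fin r) ℂ)} {G : Finset C(S1, ℂ)} {g : C(S1, ℂ)}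
    (hg : g ∈ G) (i j : Fin r) : ent (κ g) i j ∈ entS κ G :=
  Finset.mem_image.2 ⟨(g, (i, j)), Finset.mem_product.2 ⟨hg, Finset.mem_univ _⟩, rfl⟩

theorem even_inf : ({j | ∃ i, j = 2 * i} : Set ℕ).Infinite :=
  Set.infinite_of_injective_forall_mem (f := fun i : ℕ => 2 * i)
    (fun a b h => by
      have h1 : 2 * a = 2 * b := h
      omega) fun i => ⟨i, rfl⟩

theorem stageA (h_DEX : T_DEX) (h_QCE : T_QCE) (h_ODC : T_ODC) (h_RSB : T_RSB)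
    {K A A₁ : Type} [MetricSpace K] [CompactSpace K] [MeasurableSpace K] [BorelSpace K]
    [CStarAlgebra A] [CStarAlgebra A₁] (μ : Measure K) [IsProbabilityMeasure μ] (t : ℝ)
    (φ : A →L[ℂ] ℂ) (ι : C(K, ℂ) →⋆ₐ[ℂ] A) (q : ℕ → ℂ × ℂ →⋆ₐ[ℂ] A) (φ₁ : A₁ →L[ℂ] ℂ)
    (ι₁ : C(S1, ℂ) →⋆ₐ[ℂ] A₁) (q₁ : ℕ → ℂ × ℂ →⋆ₐ[ℂ] A₁) (c : C(K, K)) (k₀ : K) (r : ℕ)
    (κ : C(S1, ℂ) → C(K, Matrix (Fin r) (Fin r) ℂ)) (e₀ : A) (s : Fin r → A)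
    (α : A₁ →⋆ₐ[ℂ] A) (hFS : FS μ t φ ι q) (ht : Irrational t) (hKP : KP k₀ κ) (hr : 0 < r)
    (hEB : EB μ φ ι q φ₁ ι₁ q₁ c k₀ r κ e₀ s α) (G' : Finset C(S1, ℂ)) (Gk : Finset C(K, ℂ))
    (δ' c' : ℝ) (hδ' : 0 < δ') (hc' : 0 < c') :
    ∃ (K₀ : ℕ) (z : Fin K₀ → K) (g : Fin K₀ → C(K, ℝ)) (Q : Fin K₀ → A) (J : ℕ)
      (qw : Fin J → A) (x : Fin J → S1), AD Gk (δ' / 2) c' φ (fun f => ι (f.comp c)) z g Q ∧
      (∀ k, Q k ∈ GA ι q {j | ∃ i, j = 2 * i}) ∧ e₀ * (1 - ∑ k, Q k) = 1 - ∑ k, Q k ∧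
      Dec G' (δ' / 2) (fun g => α (ι₁ g)) qw x ∧
      1 - ∑ j, qw j = ∑ i, s i * (1 - ∑ k, Q k) * star (s i * (1 - ∑ k, Q k)) ∧
      ∀ j, qw j ∈ GA ι q {j | ∃ i, j = 2 * i} := by
  obtain ⟨hR, ι', hι'⟩ := h_RSB K A μ t φ ι q {j | ∃ i, j = 2 * i} even_inf ht hFS
  let ψ : (GA ι q {j | ∃ i, j = 2 * i} : StarSubalgebra ℂ A) →⋆ₐ[ℂ] A :=
    (GA ι q {j | ∃ i, j = 2 * i} : StarSubalgebra ℂ A).subtype
  have hψi : Function.Injective ψ := Subtype.val_injective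
  let L : C(K, ℂ) →⋆ₐ[ℂ] (GA ι q {j | ∃ i, j = 2 * i} : StarSubalgebra ℂ A) :=
    ι'.comp (ContinuousMap.compStarAlgHom' ℂ ℂ c)
  have hL : ∀ f, ψ (L f) = ι (f.comp c) := fun f => hι' _
  let e' : (GA ι q {j | ∃ i, j = 2 * i} : StarSubalgebra ℂ A) := ⟨e₀, hEB.mee⟩
  let s' : Fin r → (GA ι q {j | ∃ i, j = 2 * i} : StarSubalgebra ℂ A) :=
    fun i => ⟨s i, hEB.mes i⟩
  have hψe : ψ e' = e₀ := rfl
  have hψs : ∀ i, ψ (s' i) = s i := fun i => rfl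
  have he' : IsStarProjection e' :=
    ⟨hψi hEB.em.pr.isIdempotentElem, hψi hEB.em.pr.isSelfAdjoint⟩
  have hs' : PI e' s' := ⟨fun a => hψi (hEB.em.pis.1 a), fun a b hab => hψi (hEB.em.pis.2 a b hab)⟩
  have hspt : ∀ f : C(K, ℂ), L f * (1 - e') = f k₀ • (1 - e') := by
    intro f
    apply hψi
    rw [map_mul, map_smul, map_sub, map_one, hL, hψe]
    exact hEB.em.spt f
  have hcm : Measurable (c : K → K) := c.continuous.measurable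
  have : IsProbabilityMeasure (Measure.map (c : K → K) μ) :=
    Measure.isProbabilityMeasure_map hcm.aemeasurable
  have hval : ∀ f : C(K, ℂ), res φ (GA ι q {j | ∃ i, j = 2 * i}) (L f) =
      ∫ x, f x ∂(Measure.map (c : K → K) μ) := by
    intro f
    rw [integral_map hcm.aemeasurable f.continuous.aestronglyMeasurable]
    show φ (ψ (L f)) = _
    rw [hL, hEB.em.val]
    rfl
  have hr' : (0 : ℝ) < r := by exact_mod_cast hr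
  have hε₀ : 0 < min (δ' / 2) (δ' / (2 * (r : ℝ) ^ 2)) := lt_min (by positivity) (by positivity)
  have hε₁ : (r : ℝ) ^ 2 * min (δ' / 2) (δ' / (2 * (r : ℝ) ^ 2)) ≤ δ' / 2 := by
    calc (r : ℝ) ^ 2 * min (δ' / 2) (δ' / (2 * (r : ℝ) ^ 2))
        ≤ (r : ℝ) ^ 2 * (δ' / (2 * (r : ℝ) ^ 2)) :=
          mul_le_mul_of_nonneg_left (min_le_right _ _) (by positivity)
      _ = δ' / 2 := by field_simp
  obtain ⟨K₀, z, g, Q, hrng, hdis, hosc, hada, hdec, hcom, heQ, htr⟩ :=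
    h_DEX K (GA ι q {j | ∃ i, j = 2 * i} : StarSubalgebra ℂ A) (Measure.map (c : K → K) μ)
      (res φ (GA ι q {j | ∃ i, j = 2 * i})) L k₀ e' (Gk ∪ entS κ G')
      (min (δ' / 2) (δ' / (2 * (r : ℝ) ^ 2))) c' hR hval he' hspt hε₀ hc'
  have hcomm := h_QCE K _ L k₀ e' K₀ g Q he' hspt hdis hdec.1 hdec.2.1 hada heQ
  obtain ⟨J, qw, x, hdw, hsw⟩ := h_ODC K _ r K₀ k₀ e' s' (fun f => L f) κ G' (Gk ∪ entS κ G')
    (min (δ' / 2) (δ' / (2 * (r : ℝ) ^ 2))) Q z he' hs' hKP heQ hcomm hε₀.le hdec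
    fun g hg i j => Finset.mem_union_right _ (mem_entS hg i j)
  have h1Q : 1 - ∑ k, ψ (Q k) = ψ (1 - ∑ k, Q k) := by
    rw [map_sub, map_one, map_sum]
  refine ⟨K₀, z, g, fun k => ψ (Q k), J, fun j => ψ (qw j), x, ?_, fun k => (Q k).2, ?_, ?_, ?_,
    fun j => (qw j).2⟩
  · refine ⟨hrng, hdis, fun f hf k x hx => ?_, fun k => ?_, ?_, fun f hf => ?_, ?_⟩
    · exact (hosc f (Finset.mem_union_left _ hf) k x hx).trans (min_le_left _ _)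
    · show ι ((toC (g k)).comp c) * ψ (Q k) = ψ (Q k)
      rw [← hL, ← map_mul, hada]
    · exact dec_map ψ hdec Finset.subset_union_left (min_le_left _ _) fun f => (hL f).symm
    · show ‖ι (f.comp c) * (1 - ∑ k, ψ (Q k)) - (1 - ∑ k, ψ (Q k)) * ι (f.comp c)‖ ≤ δ' / 2
      rw [h1Q, ← hL, ← map_mul, ← map_mul, ← map_sub]
      exact ((nle ψ _).trans (hcom f (Finset.mem_union_left _ hf))).trans (min_le_left _ _)
    · rw [h1Q]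
      exact htr
  · rw [h1Q, ← hψe, ← map_mul, heQ]
  · refine dec_map ψ hdw (Finset.Subset.refl _) hε₁ fun f => ?_
    rw [amp_map, hEB.vz]
    have h3 : (fun g : C(K, ℂ) => ψ (L g)) = fun f => ι (f.comp c) := funext hL
    rw [h3]
    rfl
  · have h4 : 1 - ∑ j, ψ (qw j) = ψ (1 - ∑ j, qw j) := by
      rw [map_sub, map_one, map_sum]
    rw [h4, hsw, h1Q, map_sum]
    simp only [map_mul, map_star]
    rfl

/-! ## Chain data -/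

theorem cdt {K n : Type} [TopologicalSpace K] [CompactSpace K] [Fintype n] [DecidableEq n]
    {k₀ : K} {H H' : Finset C(K, ℂ)} {δ δ' : ℝ} {F : Finset C(K, ℂ)} {ε : ℝ} {m : ℕ}
    {Θ : C(K, ℂ) → K → Matrix n n ℂ} (hH : H' ⊆ H) (hδ : δ ≤ δ')
    (Ψ : ℕ → C(K, ℂ) → C(K, Matrix n n ℂ)) (ζ : n → ℂ) (h1 : ∑ a, ‖ζ a‖ ^ 2 = 1)
    (h2 : ∀ i ≤ m, AHM H δ (Ψ i))
    (h3 : ∀ i < m, ∀ f ∈ F, ∀ x, opn (Ψ i f x - Ψ (i + 1) f x) ≤ ε)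
    (h4 : ∀ f x a b, Ψ 0 f x a b = f x * (ζ a * star (ζ b)) +
      f k₀ * ((1 : Matrix n n ℂ) a b - ζ a * star (ζ b)))
    (h5 : ∀ f x a b, Ψ m f x a b = Θ f x a b) : CDt k₀ H' δ' F ε m Θ := by
  refine ⟨Ψ, ζ, h1, fun i hi => ahm_mono (h2 i hi) hH hδ, h3, fun f x a b => ?_,
    fun f x => Matrix.ext (h5 f x)⟩
  exact (h4 f x a b).trans (congrArg (fun M : Matrix n n ℂ =>
    f x * (ζ a * star (ζ b)) + f k₀ * (M a b - ζ a * star (ζ b))) (one_inst _ _))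

/-! ## The last automorphism -/

theorem stageF (h_AUJ : T_AUJ) (h_PER : T_PER)
    {K A A₁ : Type} [MetricSpace K] [CompactSpace K] [MeasurableSpace K] [BorelSpace K]
    [CStarAlgebra A] [CStarAlgebra A₁] (μ : Measure K) (ν : Measure S1) (t : ℝ)
    (φ : A →L[ℂ] ℂ) (ι : C(K, ℂ) →⋆ₐ[ℂ] A) (q : ℕ → ℂ × ℂ →⋆ₐ[ℂ] A) (φ₁ : A₁ →L[ℂ] ℂ)
    (ι₁ : C(S1, ℂ) →⋆ₐ[ℂ] A₁) (q₁ : ℕ → ℂ × ℂ →⋆ₐ[ℂ] A₁) (c : C(K, K)) (k₀ : K) (r : ℕ)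
    (κ : C(S1, ℂ) → C(K, Matrix (Fin r) (Fin r) ℂ)) (e₀ : A) (s : Fin r → A)
    (α : A₁ →⋆ₐ[ℂ] A) (hFS : FS μ t φ ι q) (hFS₁ : FS ν t φ₁ ι₁ q₁)
    (hEB : EB μ φ ι q φ₁ ι₁ q₁ c k₀ r κ e₀ s α) (n₁ : ℕ) (W : A₁)
    (hW : W ∈ GA ι₁ q₁ {j | ∀ i < n₁, j ≠ 4 * i + 3}) (hWu : Uni W) :
    ∃ (Ξ : A ≃⋆ₐ[ℂ] A) (χ₁ : A₁ ≃⋆ₐ[ℂ] A₁), (∀ g, χ₁ (ι₁ g) = ι₁ g) ∧
      (∀ d ∈ GA ι₁ q₁ {j | ∀ i < n₁, j ≠ 4 * i + 3}, Ξ (α d) = α (χ₁ (W * d * star W))) ∧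
      ∀ i < n₁, ∀ x, Ξ (q (8 * i + 7) x) = q (2 * i + 1) x := by
  have hev : ∀ g, α (ι₁ g) ∈ GA ι q {j | ∃ i, j = 2 * i} := by
    intro g
    rw [hEB.vz]
    exact amp_mem _ 1 s _ κ g hEB.mes fun f => mem_ga_z ι q _ _
  have hsub : ({j | ∃ i, j = 2 * i} : Set ℕ) ⊆ {j | ∀ i < n₁, j ≠ 8 * i + 7} := by
    rintro j ⟨i, rfl⟩ i' _ h
    omega
  have hαJ : ∀ d ∈ GA ι₁ q₁ {j | ∀ i < n₁, j ≠ 4 * i + 3},
      α d ∈ GA ι q {j | ∀ i < n₁, j ≠ 8 * i + 7} := by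
    intro d hd
    refine cal_map α _ _ (GA_closed ι q _) ?_ d hd
    rintro x (⟨g, rfl⟩ | hx)
    · exact ga_mono ι q hsub (hev g)
    · obtain ⟨j, hj, y, rfl⟩ := Set.mem_iUnion₂.1 hx
      show α (q₁ j y) ∈ _
      rw [hEB.vp]
      refine mem_ga_p ι q (J := {j | ∀ i < n₁, j ≠ 8 * i + 7}) (j := 2 * j + 1) ?_ y
      intro i hi h
      have h1 : j = 4 * i + 3 := by omega
      exact hj i hi h1
  have hαu : Uni (α W) := by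
    refine ⟨?_, ?_⟩
    · rw [← map_star, ← map_mul, hWu.1, map_one]
    · rw [← map_star, ← map_mul, hWu.2, map_one]
  obtain ⟨ψ, hψ1, hψ2, -⟩ := h_AUJ K A μ t φ ι q {j | ∀ i < n₁, j ≠ 8 * i + 7} (α W) hFS
    (hαJ W hW) hαu
  obtain ⟨σ, hσ⟩ := ex_perm (fun i => 4 * i + 3) (fun a b h => by
    have h1 : 4 * a + 3 = 4 * b + 3 := h
    omega) n₁
  obtain ⟨π, hπ0, hπ1⟩ := odd_perm σ.symm
  obtain ⟨χ, hχz, hχp, -⟩ := h_PER K A μ t φ ι q π hFS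
  obtain ⟨χ₁, hχ₁z, hχ₁p, -⟩ := h_PER S1 A₁ ν t φ₁ ι₁ q₁ σ.symm hFS₁
  have hfix : ∀ a ∈ GA ι q {j | ∃ i, j = 2 * i}, χ a = a := by
    intro a ha
    refine cal_eq (χ : A →⋆ₐ[ℂ] A) (StarAlgHom.id ℂ A) _ ?_ a ha
    rintro x (⟨g, rfl⟩ | hx)
    · exact hχz g
    · obtain ⟨j, ⟨i, rfl⟩, y, rfl⟩ := Set.mem_iUnion₂.1 hx
      show χ (q (2 * i) y) = q (2 * i) y
      rw [hχp, hπ0]
  have hcomm : ∀ a, χ (α a) = α (χ₁ a) := by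
    intro a
    refine cal_eq ((χ : A →⋆ₐ[ℂ] A).comp α) (α.comp (χ₁ : A₁ →⋆ₐ[ℂ] A₁))
      (Set.range ι₁ ∪ ⋃ i, Set.range (q₁ i)) ?_ a (by rw [hFS₁.gen]; trivial)
    rintro x (⟨g, rfl⟩ | hx)
    · show χ (α (ι₁ g)) = α (χ₁ (ι₁ g))
      rw [hfix _ (hev g), hχ₁z]
    · obtain ⟨i, y, rfl⟩ := Set.mem_iUnion.1 hx
      show χ (α (q₁ i y)) = α (χ₁ (q₁ i y))
      rw [hEB.vp, hχp, hπ1, hχ₁p, hEB.vp]
  refine ⟨ψ.trans χ, χ₁, hχ₁z, fun d hd => ?_, fun i hi x => ?_⟩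
  · rw [StarAlgEquiv.trans_apply, hψ1 _ (hαJ d hd), ← map_star, ← map_mul, ← map_mul, hcomm]
  · rw [StarAlgEquiv.trans_apply, hψ2 _ (mem_ea_p q (J := {j | ∀ i < n₁, j ≠ 8 * i + 7}ᶜ)
      (fun h => h i hi rfl) x), hχp, show 8 * i + 7 = 2 * (4 * i + 3) + 1 by ring, hπ1]
    have h1 : σ.symm (4 * i + 3) = i := by
      rw [Equiv.symm_apply_eq]
      exact (hσ i hi).symm
    rw [h1]

/-! ## Subalgebras -/

theorem ex_inc {A₁ : Type} [CStarAlgebra A₁] (S T : StarSubalgebra ℂ A₁) (h : S ≤ T) :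
    ∃ inc : S →⋆ₐ[ℂ] T, ∀ b, ((inc b : T) : A₁) = b :=
  ⟨StarSubalgebra.inclusion h, fun _ => rfl⟩

/-- a norm preserving homomorphism -/
def IsoA {D A : Type} [CStarAlgebra D] [CStarAlgebra A] (α : D →⋆ₐ[ℂ] A) : Prop := Isometry α

theorem isoA_of {D A : Type} [CStarAlgebra D] [CStarAlgebra A] (α : D →⋆ₐ[ℂ] A)
    (h : ∀ d, ‖α d‖ = ‖d‖) : IsoA α := AddMonoidHomClass.isometry_of_norm α h

theorem ex_al {A A₁ : Type} [CStarAlgebra A] [CStarAlgebra A₁] (α : A₁ →⋆ₐ[ℂ] A)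
    (hα : Isometry α) (S : StarSubalgebra ℂ A₁) [IsClosed (S : Set A₁)] :
    ∃ αD : S →⋆ₐ[ℂ] A, (∀ d, αD d = α d) ∧ IsoA αD :=
  ⟨α.comp S.subtype, fun _ => rfl, isoA_of _ fun d =>
    (AddMonoidHomClass.isometry_iff_norm α).1 hα (d : A₁)⟩

theorem res_ap {A₁ : Type} [CStarAlgebra A₁] (φ : A₁ →L[ℂ] ℂ) (S : StarSubalgebra ℂ A₁) (d : S) :
    res φ S d = φ (d : A₁) := rfl

theorem ev_mem {K A A₁ : Type} [TopologicalSpace K] [CompactSpace K] [MeasurableSpace K]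
    [CStarAlgebra A] [CStarAlgebra A₁] {μ : Measure K}
    {φ : A →L[ℂ] ℂ} {ι : C(K, ℂ) →⋆ₐ[ℂ] A} {q : ℕ → ℂ × ℂ →⋆ₐ[ℂ] A} {φ₁ : A₁ →L[ℂ] ℂ}
    {ι₁ : C(S1, ℂ) →⋆ₐ[ℂ] A₁} {q₁ : ℕ → ℂ × ℂ →⋆ₐ[ℂ] A₁} {c : C(K, K)} {k₀ : K} {r : ℕ}
    {κ : C(S1, ℂ) → C(K, Matrix (Fin r) (Fin r) ℂ)} {e₀ : A} {s : Fin r → A}
    {α : A₁ →⋆ₐ[ℂ] A} (hEB : EB μ φ ι q φ₁ ι₁ q₁ c k₀ r κ e₀ s α) (g : C(S1, ℂ)) :
    α (ι₁ g) ∈ GA ι q {j | ∃ i, j = 2 * i} := by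
  rw [hEB.vz]
  exact amp_mem _ 1 s _ κ g hEB.mes fun f => mem_ga_z ι q _ _

end STP_

open STP_ in
/-- STP -/
theorem p_STP (h_ST1 : T_ST1) (h_ST2 : T_ST2) (h_FCC : T_FCC) (h_DEX : T_DEX) (h_QCE : T_QCE)
    (h_ODC : T_ODC) (h_APD : T_APD) (h_RSB : T_RSB) (h_AUJ : T_AUJ) (h_PER : T_PER)
    (h_MAP : T_MAP) : T_STP := by
  intro K A A₁ _ _ _ _ _ _ _ μ _ _ ν _ _ t φ ι q φ₁ ι₁ q₁ c k₀ r κ e₀ s α F ε n n₁ hFS hFS₁ ht
    hKP hHE hr hc hEB hε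
  have hε' : 0 < ε / 20 := by positivity
  obtain ⟨m', hHE'⟩ := hHE {idz} (ε / 20) hε'
  obtain ⟨H', G', Gk, δ', c', hFG, hδ', hδε, hc', hFCC⟩ :=
    h_FCC K k₀ r κ c ν {idz} (ε / 20) m' hr hKP hc hε'
  obtain ⟨K₀, z, g, Q, J, qw, x, hAD, hQm, heQ, hDw, hqw, hqm⟩ :=
    stageA h_DEX h_QCE h_ODC h_RSB μ t φ ι q φ₁ ι₁ q₁ c k₀ r κ e₀ s α hFS ht hKP hr hEB G' Gk
      δ' c' hδ' hc'
  obtain ⟨Hη, δη, cV, hδη, hcV, hFCC2⟩ := hFCC K₀ z g hAD.rng hAD.dis fun f hf k y hy =>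
    (hAD.osc f hf k y hy).trans (by linarith)
  obtain ⟨ω, hω⟩ : ∃ ω : C(S1, ℂ) →⋆ₐ[ℂ] A, ∀ g, ω g = α (ι₁ g) :=
    ⟨α.comp ι₁, fun g => StarAlgHom.comp_apply α ι₁ g⟩
  have hωv : ∀ g, φ (ω g) = ∫ x, g x ∂ν := fun g => by
    rw [hω, hEB.tra, hFS₁.valZ]
  have hωa : ∀ g, ω g = amp 1 s (fun f => ι (f.comp c)) κ g := fun g => by
    rw [hω, hEB.vz]
  have hDw' : Dec G' (δ' / 2) (fun g => ω g) qw x := by
    have h1 : (fun g => ω g) = fun g => α (ι₁ g) := funext hω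
    rw [h1]
    exact hDw
  obtain ⟨Gt, δt, hδt, hST2⟩ := h_ST2 K A μ ν k₀ r κ c φ ι ω e₀ s K₀ z g Q J qw x
    Gk G' δ' δη c' hFS.ts hKP hEB.em hωa hωv hδ' hδη hAD heQ hDw' hqw
  obtain ⟨E, hEdef⟩ : ∃ E : Finset A, E = Finset.univ.image Q ∪
      Finset.univ.image (fun i => s i * (1 - ∑ k, Q k)) ∪ Finset.univ.image qw ∪
      {α (ι₁ idz)} := ⟨_, rfl⟩
  have hE : ∀ a ∈ E, a ∈ cal (Set.range ι ∪ ⋃ i ∈ ({j | ∃ i, j = 2 * i} : Set ℕ),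
      Set.range (q i)) := by
    intro a ha
    rw [hEdef, Finset.mem_union, Finset.mem_union, Finset.mem_union, Finset.mem_singleton] at ha
    rcases ha with ((ha | ha) | ha) | ha
    · obtain ⟨k, -, rfl⟩ := Finset.mem_image.1 ha
      exact hQm k
    · obtain ⟨i, -, rfl⟩ := Finset.mem_image.1 ha
      exact mul_mem (hEB.mes i) (sub_mem (one_mem _) (sum_mem fun k _ => hQm k))
    · obtain ⟨j, -, rfl⟩ := Finset.mem_image.1 ha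
      exact hqm j
    · rw [ha]
      exact ev_mem hEB idz
  obtain ⟨T0, δ0, hT0, hδ0, hAPD⟩ := h_APD A (Set.range ι ∪ ⋃ i ∈ ({j | ∃ i, j = 2 * i} : Set ℕ),
      Set.range (q i)) E δt hδt hE
  obtain ⟨FD, nD, hFD⟩ := gen_fin ι q {j | ∃ i, j = 2 * i} T0 hT0
  obtain ⟨Fa, hFa⟩ : ∃ Fa : Finset C(K, ℂ), Fa = F ∪ FD ∪ Gt := ⟨_, rfl⟩
  have hFa1 : ∀ f ∈ F, f ∈ Fa := fun f hf => by
    rw [hFa]
    exact Finset.mem_union_left _ (Finset.mem_union_left _ hf)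
  have hFa2 : ∀ f ∈ FD, f ∈ Fa := fun f hf => by
    rw [hFa]
    exact Finset.mem_union_left _ (Finset.mem_union_right _ hf)
  have hFa3 : ∀ f ∈ Gt, f ∈ Fa := fun f hf => by
    rw [hFa]
    exact Finset.mem_union_right _ hf
  obtain ⟨εa, hεa, hεa1, hεa2, hεa3⟩ : ∃ εa : ℝ, 0 < εa ∧ 10 * εa ≤ ε ∧ 10 * εa ≤ δt ∧
      10 * εa ≤ δ0 := by
    have h0 : 0 < min ε (min δt δ0) := lt_min hε (lt_min hδt hδ0)
    have h1 : min ε (min δt δ0) ≤ ε := min_le_left _ _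
    have h2 : min ε (min δt δ0) ≤ δt := (min_le_right _ _).trans (min_le_left _ _)
    have h3 : min ε (min δt δ0) ≤ δ0 := (min_le_right _ _).trans (min_le_right _ _)
    exact ⟨min ε (min δt δ0) / 20, by linarith, by linarith, by linarith, by linarith⟩
  obtain ⟨N, hN1, hN2, hN3⟩ : ∃ N : ℕ, n ≤ N ∧ nD ≤ N ∧ 2 * n₁ + 2 ≤ N :=
    ⟨n + nD + (2 * n₁ + 2), by omega, by omega, by omega⟩
  obtain ⟨m, m₁, hHE2⟩ := hHE' Fa εa hεa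
  obtain ⟨H, δ, hδ, hST1⟩ := h_ST1 K A A₁ μ ν t φ ι q φ₁ ι₁ q₁ c k₀ r κ e₀ s α Fa εa N m m₁
    hFS hFS₁ ht hKP hr hc hEB hεa
  obtain ⟨k, γ, hk, hγ, hγ1, hmov, ⟨Ψ, ζ, a1, a2, a3, a4, a5⟩, Ψ', ζ', b1, b2, b3, b4, b5⟩ :=
    hHE2 (H ∪ Hη) H' (min δ (min δη δ')) (lt_min hδ (lt_min hδη hδ'))
  have hst := hST1 k γ hk (ahm_mono hγ Finset.subset_union_left (min_le_left _ _)) hγ1 hmov
    (cdt Finset.subset_union_left (min_le_left _ _) Ψ ζ a1 a2 a3 a4 a5)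
  obtain ⟨G₁, δ₁, hδ₁, hFCC3⟩ := hFCC2 k γ hk (ahm_mono hγ Finset.subset_union_right
    ((min_le_right _ _).trans (min_le_left _ _))) (cdt (Finset.Subset.refl _)
    ((min_le_right _ _).trans (min_le_right _ _)) Ψ' ζ' b1 b2 b3 b4 b5)
  have hk' : (0 : ℝ) < k := by exact_mod_cast hk
  obtain ⟨ι₁', K₁, z₁, g₁, Q₁, v, S, hS, r', zs, η, θ₁, hι₁', hAD₁, hED, hθF, hθq, hθφ⟩ :=
    hst G₁ δ₁ (cV / k) hδ₁ (div_pos hcV hk')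
  have hle : GA ι₁ q₁ {j | ∀ i < N, j ≠ 2 * i + 1} ≤ GA ι₁ q₁ {j | ∀ i < n₁, j ≠ 4 * i + 3} :=
    ga_mono ι₁ q₁ (by
      intro j hj i hi h
      exact hj (2 * i + 1) (by omega) (by omega))
  obtain ⟨inc, hinc⟩ : ∃ inc : (GA ι₁ q₁ {j | ∀ i < N, j ≠ 2 * i + 1} :
      StarSubalgebra ℂ A₁) →⋆ₐ[ℂ] (GA ι₁ q₁ {j | ∀ i < n₁, j ≠ 4 * i + 3} :
      StarSubalgebra ℂ A₁), ∀ b, ((inc b : (GA ι₁ q₁ {j | ∀ i < n₁, j ≠ 4 * i + 3} :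
      StarSubalgebra ℂ A₁)) : A₁) = b :=
    ex_inc _ _ hle
  obtain ⟨αD, hαD, hiD⟩ := ex_al α hEB.iso (GA ι₁ q₁ {j | ∀ i < n₁, j ≠ 4 * i + 3})
  have htD : ∀ a, φ (αD a) = res φ₁ (GA ι₁ q₁ {j | ∀ i < n₁, j ≠ 4 * i + 3}) a := by
    intro a
    rw [hαD, hEB.tra, res_ap]
  have hinf : ({j | ∀ i < n₁, j ≠ 4 * i + 3} : Set ℕ).Infinite := even_inf.mono (by
    rintro j ⟨i, rfl⟩ i' _ h
    omega)
  obtain ⟨hRD, -⟩ := h_RSB S1 A₁ ν t φ₁ ι₁ q₁ {j | ∀ i < n₁, j ≠ 4 * i + 3} hinf ht hFS₁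
  obtain ⟨hM1, hM2⟩ := h_MAP K S1
    (GA ι₁ q₁ {j | ∀ i < N, j ≠ 2 * i + 1} : StarSubalgebra ℂ A₁)
    (GA ι₁ q₁ {j | ∀ i < n₁, j ≠ 4 * i + 3} : StarSubalgebra ℂ A₁) S inc
    (res φ₁ (GA ι₁ q₁ {j | ∀ i < N, j ≠ 2 * i + 1}))
    (res φ₁ (GA ι₁ q₁ {j | ∀ i < n₁, j ≠ 4 * i + 3})) (fun a => by
      rw [res_ap, res_ap, hinc])
  have hAD2 := hM1 G₁ δ₁ (cV / k) (fun g => ι₁' g) K₁ z₁ g₁ Q₁ hAD₁
  have hED2 := hM2 (fun g => ι₁' g) k₀ k γ (1 - ∑ i, Q₁ i) v r' zs η hED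
  rw [map_sub, map_one, map_sum] at hED2
  obtain ⟨ι₁D, hι₁D⟩ : ∃ ι₁D : C(S1, ℂ) →⋆ₐ[ℂ] (GA ι₁ q₁ {j | ∀ i < n₁, j ≠ 4 * i + 3} :
      StarSubalgebra ℂ A₁), ∀ g, ι₁D g = inc (ι₁' g) :=
    ⟨inc.comp ι₁', fun g => StarAlgHom.comp_apply inc ι₁' g⟩
  have hι₁D' : (fun g => inc (ι₁' g)) = fun g => ι₁D g := (funext hι₁D).symm
  rw [hι₁D'] at hAD2 hED2
  have hvD : ∀ g, res φ₁ (GA ι₁ q₁ {j | ∀ i < n₁, j ≠ 4 * i + 3}) (ι₁D g) = ∫ x, g x ∂ν := by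
    intro g
    rw [← htD, hαD, hι₁D, hinc, hι₁', hEB.tra, hFS₁.valZ]
  have hgen : ∀ b ∈ T0, ∃ d ∈ (GA ι₁ q₁ {j | ∀ i < n₁, j ≠ 4 * i + 3}).map α,
      ‖(θ₁ : A →⋆ₐ[ℂ] A) b - d‖ ≤ δ0 := by
    intro b hb
    rcases hFD b hb with ⟨f, hf, rfl⟩ | ⟨j, ⟨i, rfl⟩, hj, y, rfl⟩
    · exact ⟨α ((η f : (GA ι₁ q₁ {j | ∀ i < N, j ≠ 2 * i + 1} : StarSubalgebra ℂ A₁)) : A₁),
        StarSubalgebra.mem_map.2 ⟨_, hle (η f).2, rfl⟩, (hθF f (hFa2 f hf)).trans hεa3⟩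
    · refine ⟨α (q₁ (2 * (2 * i) + 1) y), StarSubalgebra.mem_map.2 ⟨_, mem_ga_p ι₁ q₁
        (J := {j | ∀ i < n₁, j ≠ 4 * i + 3}) (fun i' _ h => by omega) y, rfl⟩, ?_⟩
      have h1 : (θ₁ : A →⋆ₐ[ℂ] A) (q (2 * i) y) = q (4 * (2 * i) + 3) y :=
        hθq (2 * i) (by omega) y
      rw [h1, hEB.vp, show 2 * (2 * (2 * i) + 1) + 1 = 4 * (2 * i) + 3 by ring, sub_self,
        norm_zero]
      exact hδ0.le
  have hap : ∀ a ∈ E, ∃ d, ‖(θ₁ : A →⋆ₐ[ℂ] A) a - αD d‖ ≤ δt := by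
    intro a ha
    obtain ⟨d, hd, h⟩ := hAPD A (θ₁ : A →⋆ₐ[ℂ] A)
      ((GA ι₁ q₁ {j | ∀ i < n₁, j ≠ 4 * i + 3}).map α) hgen a ha
    obtain ⟨d0, hd0, rfl⟩ := StarSubalgebra.mem_map.1 hd
    refine ⟨⟨d0, hd0⟩, ?_⟩
    rw [hαD]
    exact h
  obtain ⟨Q', t', q', ρ, c1, c2, c3, c4, c5, c6, c7, c8, c9, c10, c11⟩ := hST2 A
    (GA ι₁ q₁ {j | ∀ i < n₁, j ≠ 4 * i + 3} : StarSubalgebra ℂ A₁) φ
    (res φ₁ (GA ι₁ q₁ {j | ∀ i < n₁, j ≠ 4 * i + 3})) αD (θ₁ : A →⋆ₐ[ℂ] A)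
    (fun f => inc (η f)) hiD hFS.ts htD hθφ
    (fun k => hap _ (by
      rw [hEdef]
      exact Finset.mem_union_left _ (Finset.mem_union_left _ (Finset.mem_union_left _
        (Finset.mem_image_of_mem _ (Finset.mem_univ k))))))
    (fun i => hap _ (by
      rw [hEdef]
      exact Finset.mem_union_left _ (Finset.mem_union_left _ (Finset.mem_union_right _
        (Finset.mem_image_of_mem _ (Finset.mem_univ i))))))
    (fun j => hap _ (by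
      rw [hEdef]
      exact Finset.mem_union_left _ (Finset.mem_union_right _
        (Finset.mem_image_of_mem _ (Finset.mem_univ j)))))
    (hap _ (by
      rw [hEdef, hω]
      exact Finset.mem_union_right _ (Finset.mem_singleton_self _)))
    (fun f hf => by
      rw [hαD, hinc]
      exact (hθF f (hFa3 f hf)).trans hεa2)
  obtain ⟨W, hWu, hW⟩ := hFCC3
    (GA ι₁ q₁ {j | ∀ i < n₁, j ≠ 4 * i + 3} : StarSubalgebra ℂ A₁) S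
    (res φ₁ (GA ι₁ q₁ {j | ∀ i < n₁, j ≠ 4 * i + 3})) ι₁D ρ K₁ z₁ g₁
    (fun i => inc (Q₁ i)) (fun a => inc (v a)) (fun s => inc (r' s)) zs (fun f => inc (η f))
    Q' t' J q' x hRD hvD hAD2 hED2 c1 c2 c3 c4 c5 c6 c7 c8 c9 c10
  obtain ⟨Ξ, χ₁, hχz, hΞα, hΞq⟩ := stageF h_AUJ h_PER μ ν t φ ι q φ₁ ι₁ q₁ c k₀ r κ e₀ s α hFS
    hFS₁ hEB n₁ (W : A₁) W.2 ⟨congrArg Subtype.val hWu.1, congrArg Subtype.val hWu.2⟩
  refine ⟨θ₁.trans Ξ, ?_, fun i hi y => ?_, fun f hf => ?_, fun i hi y => ?_⟩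
  · rw [StarAlgEquiv.trans_apply]
    have h1 : ‖θ₁ (α (ι₁ idz)) - α ((ρ idz : (GA ι₁ q₁ {j | ∀ i < n₁, j ≠ 4 * i + 3} :
        StarSubalgebra ℂ A₁)) : A₁)‖ ≤ δ' := by
      have h0 := c11 idz (hFG (Finset.mem_singleton_self _))
      rw [hαD, hω] at h0
      exact h0
    have h2 := hΞα _ (ρ idz).2
    have h3 : ‖(W : A₁) * ((ρ idz : (GA ι₁ q₁ {j | ∀ i < n₁, j ≠ 4 * i + 3} :
        StarSubalgebra ℂ A₁)) : A₁) * star (W : A₁) - ι₁ idz‖ ≤ 10 * (ε / 20) := by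
      have h4 := hW idz (Finset.mem_singleton_self _)
      have h5 : (((ι₁D idz :
          (GA ι₁ q₁ {j | ∀ i < n₁, j ≠ 4 * i + 3} : StarSubalgebra ℂ A₁))) : A₁) = ι₁ idz := by
        rw [hι₁D, hinc, hι₁']
      rw [← h5]
      exact h4
    have h6 : Ξ (θ₁ (α (ι₁ idz))) - α (ι₁ idz) =
        Ξ (θ₁ (α (ι₁ idz)) - α ((ρ idz : (GA ι₁ q₁ {j | ∀ i < n₁, j ≠ 4 * i + 3} :
        StarSubalgebra ℂ A₁)) : A₁)) + α (χ₁ ((W : A₁) * ((ρ idz :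
        (GA ι₁ q₁ {j | ∀ i < n₁, j ≠ 4 * i + 3} : StarSubalgebra ℂ A₁)) : A₁) * star (W : A₁)
        - ι₁ idz)) := by
      rw [map_sub, map_sub, map_sub, hχz, h2]
      abel
    rw [h6]
    refine (norm_add_le _ _).trans ?_
    have h7 := (nle (Ξ : A →⋆ₐ[ℂ] A) (θ₁ (α (ι₁ idz)) - α ((ρ idz :
      (GA ι₁ q₁ {j | ∀ i < n₁, j ≠ 4 * i + 3} : StarSubalgebra ℂ A₁)) : A₁))).trans h1
    have h8 := ((nle α _).trans (nle (χ₁ : A₁ →⋆ₐ[ℂ] A₁) ((W : A₁) * ((ρ idz :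
      (GA ι₁ q₁ {j | ∀ i < n₁, j ≠ 4 * i + 3} : StarSubalgebra ℂ A₁)) : A₁) * star (W : A₁)
      - ι₁ idz))).trans h3
    refine (add_le_add h7 h8).trans ?_
    linarith
  · rw [StarAlgEquiv.trans_apply, hEB.vp, hθq (2 * i + 1) (by omega),
      show 4 * (2 * i + 1) + 3 = 8 * i + 7 by ring, hΞq i hi]
  · refine ⟨χ₁ ((W : A₁) * ((η f : (GA ι₁ q₁ {j | ∀ i < N, j ≠ 2 * i + 1} :
      StarSubalgebra ℂ A₁)) : A₁) * star (W : A₁)), ?_⟩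
    rw [StarAlgEquiv.trans_apply, ← hΞα _ (hle (η f).2), ← map_sub]
    exact ((nle (Ξ : A →⋆ₐ[ℂ] A) _).trans (hθF f (hFa1 f hf))).trans hεa1
  · rw [StarAlgEquiv.trans_apply, hθq i (by omega)]
    by_cases h : 2 * i + 1 ∈ ({j | ∀ i < n₁, j ≠ 4 * i + 3} : Set ℕ)
    · refine ⟨χ₁ ((W : A₁) * q₁ (2 * i + 1) y * star (W : A₁)), ?_⟩
      rw [← hΞα _ (mem_ga_p ι₁ q₁ h y), hEB.vp,
        show 2 * (2 * i + 1) + 1 = 4 * i + 3 by ring]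
    · have h' : ∃ i' < n₁, 2 * i + 1 = 4 * i' + 3 := by
        by_contra hn
        apply h
        intro i' hi' h1
        exact hn ⟨i', hi', h1⟩
      obtain ⟨i', hi', h1⟩ := h'
      refine ⟨q₁ i' y, ?_⟩
      rw [show 4 * i + 3 = 8 * i' + 7 by omega, hΞq i' hi', hEB.vp]

end Pool.Agent.FPS
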