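import Pool.Agent.FPS.Targets3

set_option autoImplicit false

/-!
# FPS: T_SYM, the cells with a distinguished first cell (helper12)
-/

open MeasureTheory Set Pool.Agent.FPZ

namespace Pool.Agent.FPS

namespace SYM_

/-- Ordered families of sets with null boundaries: the disjoint open cells. -/
theorem cells {Z : Type} [TopologicalSpace Z] [MeasurableSpace Z] [OpensMeasurableSpace Z]
    (μ : Measure Z) [IsProbabilityMeasure μ] (m : ℕ) (B : Fin m → Set Z)
    (hB : ∀ k, IsOpen (B k)) (hf : ∀ k, μ (frontier (B k)) = 0) (hc : ⋃ k, B k = univ) :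
    ∃ O : Fin m → Set Z, (∀ k, IsOpen (O k)) ∧ (∀ k k', k ≠ k' → Disjoint (O k) (O k')) ∧
      (∀ k, O k ⊆ B k) ∧ ∑ k, (μ (O k)).toReal = 1 ∧
      ∀ k, ∀ z ∈ B k, (∀ j < k, z ∉ closure (B j)) → z ∈ O k := by
  classical
  let O : Fin m → Set Z := fun k => B k \ ⋃ j ∈ {j : Fin m | j < k}, closure (B j)
  have hO : ∀ k, IsOpen (O k) := by
    intro k
    refine (hB k).sdiff ?_
    exact (Set.toFinite _).isClosed_biUnion fun j _ => isClosed_closure
  have hlt : ∀ k k', k < k' → Disjoint (O k) (O k') := by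
    intro k k' hkk
    rw [Set.disjoint_left]
    intro z hz hz'
    apply hz'.2
    simp only [mem_iUnion]
    exact ⟨k, hkk, subset_closure hz.1⟩
  have hdis : ∀ k k', k ≠ k' → Disjoint (O k) (O k') := by
    intro k k' hkk
    rcases lt_or_gt_of_ne hkk with h | h
    · exact hlt k k' h
    · exact (hlt k' k h).symm
  have hcov : (⋃ k, O k)ᶜ ⊆ ⋃ k, frontier (B k) := by
    intro z hz
    by_contra hnot
    apply hz
    have hne : ∃ k, z ∈ B k := by
      have : z ∈ ⋃ k, B k := by rw [hc]; exact mem_univ z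
      simpa using this
    let S : Finset (Fin m) := Finset.univ.filter fun k => z ∈ B k
    have hS : S.Nonempty := by
      obtain ⟨k, hk⟩ := hne
      exact ⟨k, by simp [S, hk]⟩
    have hmin := Finset.min'_mem S hS
    rw [mem_iUnion]
    refine ⟨S.min' hS, ?_, ?_⟩
    · have := (Finset.mem_filter.1 hmin).2
      exact this
    · simp only [mem_iUnion, not_exists]
      intro j hj hjc
      have hjB : z ∉ B j := by
        intro hjB
        have h1 : S.min' hS ≤ j := Finset.min'_le S j (by simp [S, hjB])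
        exact absurd hj (not_lt.2 h1)
      apply hnot
      rw [mem_iUnion]
      refine ⟨j, hjc, ?_⟩
      rw [(hB j).interior_eq]
      exact hjB
  refine ⟨O, hO, hdis, fun k => sdiff_subset, ?_, ?_⟩
  · have hnull : μ (⋃ k, O k)ᶜ = 0 := by
      refine measure_mono_null hcov ?_
      rw [measure_iUnion_null_iff]
      exact hf
    have hone : μ (⋃ k, O k) = 1 := by
      rw [← prob_compl_eq_zero_iff (isOpen_iUnion hO).measurableSet]
      exact hnull
    have hsum : μ (⋃ k, O k) = ∑ k, μ (O k) := by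
      rw [measure_iUnion (fun k k' h => hdis k k' h) (fun k => (hO k).measurableSet),
        tsum_fintype]
    rw [← ENNReal.toReal_sum (fun k _ => measure_ne_top μ _), ← hsum, hone]
    simp
  · intro k z hz hj
    refine ⟨hz, ?_⟩
    simp only [mem_iUnion, not_exists]
    intro j hj' hjc
    exact hj j hj' hjc

/-- Cut-off functions, with a prescribed compact set on which the outer one is 1. -/
theorem gfn {Z : Type} [MetricSpace Z] [CompactSpace Z] [MeasurableSpace Z] [BorelSpace Z]
    (μ : Measure Z) [IsProbabilityMeasure μ] (O P : Set Z) (s : ℝ) (hO : IsOpen O)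
    (hP : IsCompact P) (hPO : P ⊆ O) (hs : s < (μ O).toReal) :
    ∃ g g' : C(Z, ℝ), (∀ z, 0 ≤ g z ∧ g z ≤ 1) ∧ (∀ z, 0 ≤ g' z ∧ g' z ≤ 1) ∧
      (∀ z, g' z * g z = g z) ∧ (∀ z, g' z ≠ 0 → z ∈ O) ∧ s < ∫ z, g z ∂μ ∧
      ∀ z ∈ P, g' z = 1 := by
  have hK0 : ∃ K ⊆ O, IsCompact K ∧ s < (μ K).toReal := by
    rcases lt_or_ge s 0 with h0 | h0
    · exact ⟨∅, empty_subset _, isCompact_empty, by simpa using h0⟩
    · have hs' : ENNReal.ofReal s < μ O := by
        rw [ENNReal.ofReal_lt_iff_lt_toReal h0 (measure_ne_top μ O)]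
        exact hs
      obtain ⟨K, hKO, hKc, hK⟩ := hO.exists_lt_isCompact hs'
      refine ⟨K, hKO, hKc, ?_⟩
      rwa [ENNReal.ofReal_lt_iff_lt_toReal h0 (measure_ne_top μ K)] at hK
  obtain ⟨K, hKO, hKc, hsK⟩ := hK0
  obtain ⟨U, hUo, hKU, hUO⟩ := normal_exists_closure_subset (hKc.union hP).isClosed hO
    (union_subset hKO hPO)
  obtain ⟨g, hg0, hg1, hg⟩ := exists_continuous_zero_one_of_isClosed (s := Uᶜ) (t := K ∪ P)
    hUo.isClosed_compl (hKc.union hP).isClosed (Set.disjoint_compl_left_iff_subset.2 hKU)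
  obtain ⟨g', hg0', hg1', hg'⟩ := exists_continuous_zero_one_of_isClosed (s := Oᶜ)
    (t := closure U) hO.isClosed_compl isClosed_closure
    (Set.disjoint_compl_left_iff_subset.2 hUO)
  refine ⟨g, g', fun z => hg z, fun z => hg' z, ?_, ?_, ?_, ?_⟩
  · intro z
    by_cases hz : z ∈ U
    · have := hg1' (subset_closure hz)
      simp only [Pi.one_apply] at this
      rw [this, one_mul]
    · have := hg0 (Set.mem_compl hz)
      simp only [Pi.zero_apply] at this
      rw [this, mul_zero]
  · intro z hz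
    by_contra hzO
    have := hg0' (Set.mem_compl hzO)
    simp only [Pi.zero_apply] at this
    exact hz this
  · refine hsK.trans_le ?_
    have h1 : (μ K).toReal = ∫ z, K.indicator (fun _ => (1 : ℝ)) z ∂μ := by
      rw [integral_indicator_const _ hKc.isClosed.measurableSet]
      simp [Measure.real]
    rw [h1]
    refine integral_mono ?_ ?_ ?_
    · exact (integrable_const (1 : ℝ)).indicator hKc.isClosed.measurableSet
    · exact (BoundedContinuousFunction.mkOfCompact g).integrable μ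
    · intro z
      by_cases hz : z ∈ K
      · simp only [Set.indicator_of_mem hz]
        have := hg1 (Or.inl hz)
        simp only [Pi.one_apply] at this
        rw [this]
      · simp only [Set.indicator_of_notMem hz]
        exact (hg z).1
  · intro z hz
    have := hg1' (subset_closure (hKU (Or.inr hz)))
    simpa using this

end SYM_

/-- SYM. -/
theorem p_SYM : T_SYM := by
  intro K _ _ _ _ μ _ k₀ ρ c₀ hρ hc₀
  classical
  have hr : ∀ x : K, ∃ r ∈ Ioo (ρ / 4) (ρ / 2), μ (frontier (Metric.ball x r)) = 0 := by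
    intro x
    obtain ⟨r, hr, h⟩ := exists_null_frontier_thickening μ ({x} : Set K)
      (show ρ / 4 < ρ / 2 by linarith)
    rw [Metric.thickening_singleton] at h
    exact ⟨r, hr, h⟩
  choose r hr hfr using hr
  obtain ⟨t, ht⟩ := CompactSpace.elim_nhds_subcover (fun x => Metric.ball x (r x))
    (fun x => Metric.ball_mem_nhds x (by have := (hr x).1; linarith))
  let e : Fin t.card ≃ t := t.equivFin.symm
  let c : Fin (t.card + 1) → K := Fin.cons k₀ fun k => (e k : K)
  have hc : ⋃ k, Metric.ball (c k) (r (c k)) = univ := by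
    rw [eq_univ_iff_forall]
    intro z
    have hz : z ∈ ⋃ x ∈ t, Metric.ball x (r x) := by rw [ht]; trivial
    simp only [mem_iUnion] at hz
    obtain ⟨x, hx, hz⟩ := hz
    rw [mem_iUnion]
    exact ⟨(e.symm ⟨x, hx⟩).succ, by simpa [c] using hz⟩
  obtain ⟨O, hO, hdis, hsub, hsum, hmem⟩ := SYM_.cells μ (t.card + 1)
    (fun k => Metric.ball (c k) (r (c k))) (fun k => Metric.isOpen_ball) (fun k => hfr _) hc
  have hk₀ : k₀ ∈ O 0 := by
    refine hmem 0 k₀ ?_ fun j hj => absurd hj (Fin.not_lt_zero j)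
    have h1 : c 0 = k₀ := rfl
    show k₀ ∈ Metric.ball (c 0) (r (c 0))
    rw [h1]
    exact Metric.mem_ball_self (by have := (hr k₀).1; linarith)
  have hcard : (0 : ℝ) < (t.card + 1 : ℕ) := by positivity
  have hg : ∀ k : Fin (t.card + 1), ∃ g g' : C(K, ℝ), (∀ z, 0 ≤ g z ∧ g z ≤ 1) ∧
      (∀ z, 0 ≤ g' z ∧ g' z ≤ 1) ∧ (∀ z, g' z * g z = g z) ∧ (∀ z, g' z ≠ 0 → z ∈ O k) ∧
      (μ (O k)).toReal - c₀ / (t.card + 1 : ℕ) < ∫ z, g z ∂μ ∧
      ∀ z ∈ ({k₀} ∩ O k : Set K), g' z = 1 := by
    intro k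
    refine SYM_.gfn μ (O k) ({k₀} ∩ O k) _ (hO k) ?_ inter_subset_right ?_
    · exact ((Set.finite_singleton k₀).subset inter_subset_left).isCompact
    · have := div_pos hc₀ hcard
      linarith
  choose g g' h1 h2 h3 h4 h5 h6 using hg
  refine ⟨t.card + 1, c, g, g', 0, fun k x => ⟨(h1 k x).1, (h1 k x).2, (h2 k x).1, (h2 k x).2,
    h3 k x⟩, ?_, ?_, ?_, h6 0 k₀ ⟨rfl, hk₀⟩, rfl⟩
  · intro k l x hkl hx
    by_contra hx'
    exact Set.disjoint_left.1 (hdis k l hkl) (h4 k x hx) (h4 l x hx')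
  · intro k x hx
    have h7 := hsub k (h4 k x hx)
    rw [Metric.mem_ball] at h7
    have h8 := (hr (c k)).2
    linarith
  · have h9 : ∑ k : Fin (t.card + 1), ((μ (O k)).toReal - c₀ / (t.card + 1 : ℕ)) = 1 - c₀ := by
      rw [Finset.sum_sub_distrib, hsum, Finset.sum_const, Finset.card_univ, Fintype.card_fin,
        nsmul_eq_mul, mul_div_cancel₀ _ hcard.ne']
    rw [← h9]
    exact Finset.sum_lt_sum_of_nonempty Finset.univ_nonempty fun k _ => h5 k

end Pool.Agent.FPS
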