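import Pool.Agent.FPS.Targets3

set_option autoImplicit false

/-!
# FPS: the measure part of the cell system (target T_SYX)
-/

open scoped Classical
open MeasureTheory Pool.Agent.FPZ

noncomputable section

namespace Pool.Agent.FPS

namespace SYX_

variable {K : Type} [MetricSpace K] [CompactSpace K] {K₀ : ℕ}

/-- the bump functions -/
def Bump (g g' : Fin K₀ → C(K, ℝ)) : Prop :=
  (∀ k x, 0 ≤ g k x ∧ g k x ≤ 1 ∧ 0 ≤ g' k x ∧ g' k x ≤ 1 ∧ g' k x * g k x = g k x) ∧
    ∀ k l x, k ≠ l → g' k x ≠ 0 → g' l x = 0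

theorem ne_of_ne {g g' : Fin K₀ → C(K, ℝ)} (h : Bump g g') {k : Fin K₀} {x : K}
    (hx : g k x ≠ 0) : g' k x ≠ 0 := by
  intro h0
  apply hx
  rw [← (h.1 k x).2.2.2.2, h0, zero_mul]

theorem sum_le_one {g g' : Fin K₀ → C(K, ℝ)} (h : Bump g g') (Q : Finset (Fin K₀)) (x : K) :
    ∑ k ∈ Q, g k x ≤ 1 := by
  by_cases h1 : ∃ k ∈ Q, g k x ≠ 0
  · obtain ⟨k, hk, hkx⟩ := h1
    rw [Finset.sum_eq_single_of_mem k hk]
    · exact (h.1 k x).2.1
    · intro l _ hl
      rw [← (h.1 l x).2.2.2.2, h.2 k l x (Ne.symm hl) (ne_of_ne h hkx), zero_mul]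
  · push Not at h1
    rw [Finset.sum_eq_zero h1]
    exact zero_le_one

theorem far_sum [MeasurableSpace K] [BorelSpace K] (μ : Measure K) [IsProbabilityMeasure μ]
    {g g' : Fin K₀ → C(K, ℝ)} (h : Bump g g') (B : Set K) (hB : IsOpen B) (Q : Finset (Fin K₀))
    (hQ : ∀ k ∈ Q, ∀ x ∈ B, g k x = 0) : ∑ k ∈ Q, ∫ x, g k x ∂μ ≤ 1 - μ.real B := by
  have hint : ∀ k, Integrable (fun x => g k x) μ := fun k =>
    (BoundedContinuousFunction.mkOfCompact (g k)).integrable μ
  rw [← integral_finsetSum Q fun k _ => hint k]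
  calc ∫ x, ∑ k ∈ Q, g k x ∂μ ≤ ∫ x, Bᶜ.indicator (1 : K → ℝ) x ∂μ := by
        refine integral_mono (integrable_finsetSum Q fun k _ => hint k)
          ((integrable_const (1 : ℝ)).indicator hB.measurableSet.compl) ?_
        intro x
        by_cases hx : x ∈ B
        · have h1 : ∑ k ∈ Q, g k x = 0 := Finset.sum_eq_zero fun k hk => hQ k hk x hx
          show ∑ k ∈ Q, g k x ≤ _
          rw [h1]
          exact Set.indicator_nonneg (fun _ _ => zero_le_one) x
        · show ∑ k ∈ Q, g k x ≤ _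
          rw [Set.indicator_of_mem (show x ∈ Bᶜ from hx)]
          exact sum_le_one h Q x
    _ = μ.real Bᶜ := integral_indicator_one hB.measurableSet.compl
    _ = 1 - μ.real B := probReal_compl_eq_one_sub hB.measurableSet

theorem card_near (n : Fin K₀ → ℕ) (P : Fin K₀ → Prop) :
    ((Finset.univ.filter fun s : (Σ k : Fin K₀, Fin (n k)) => P s.1).card : ℝ) =
      ∑ k ∈ Finset.univ.filter P, (n k : ℝ) := by
  rw [Finset.card_filter]
  push_cast
  rw [Fintype.sum_sigma, Finset.sum_filter]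
  refine Finset.sum_congr rfl fun k _ => ?_
  by_cases hk : P k
  · simp [hk]
  · simp [hk]

/-- the number of slots close to a point -/
theorem near [MeasurableSpace K] [BorelSpace K] (μ : Measure K) [IsProbabilityMeasure μ]
    {g g' : Fin K₀ → C(K, ℝ)} (h : Bump g g') (z : Fin K₀ → K) (n : Fin K₀ → ℕ) (η c₂ b : ℝ)
    (hn : ∀ k, n k * η ≤ ∫ x, g k x ∂μ) (hs : 1 - ∑ k, n k * η < c₂) (p : K) (s t : ℝ)
    (hb : b ≤ μ.real (Metric.ball p s))
    (hz : ∀ k x, g k x ≠ 0 → dist x p < s → dist (z k) p < t) :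
    b - c₂ ≤
      ((Finset.univ.filter fun s : (Σ k : Fin K₀, Fin (n k)) => dist (z s.1) p < t).card : ℝ) *
        η := by
  rw [card_near n fun k => dist (z k) p < t, Finset.sum_mul]
  have h1 := Finset.sum_filter_add_sum_filter_not Finset.univ (fun k => dist (z k) p < t)
    fun k => (n k : ℝ) * η
  have h2 : ∑ k ∈ Finset.univ.filter (fun k => ¬ dist (z k) p < t), (n k : ℝ) * η ≤
      1 - μ.real (Metric.ball p s) := by
    refine (Finset.sum_le_sum fun k _ => hn k).trans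
      (far_sum μ h (Metric.ball p s) Metric.isOpen_ball _ ?_)
    intro k hk x hx
    by_contra h0
    exact (Finset.mem_filter.1 hk).2 (hz k x h0 hx)
  linarith

end SYX_

open SYX_ in
theorem p_SYX (h_SYM : T_SYM) (h_HST : T_HST) : T_SYX := by
  intro K _ _ _ _ μ _ _ k₀ r r₀ m N y hr hr₀
  -- the lower bound of the measures of the balls
  obtain ⟨b, hb0, hb1, hbk, hby⟩ : ∃ b : ℝ, 0 < b ∧ b ≤ 1 ∧
      b ≤ μ.real (Metric.ball k₀ (r₀ / 2)) ∧ ∀ j, b ≤ μ.real (Metric.ball (y j) (r / 2)) := by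
    have hpos : ∀ (p : K) (s : ℝ), 0 < s → 0 < μ.real (Metric.ball p s) := by
      intro p s hs
      exact ENNReal.toReal_pos (Metric.isOpen_ball.measure_pos μ ⟨p, Metric.mem_ball_self hs⟩).ne'
        (measure_ne_top μ _)
    obtain ⟨o, ho⟩ := Finite.exists_min fun o : Option (Fin N) =>
      o.elim (μ.real (Metric.ball k₀ (r₀ / 2))) fun j => μ.real (Metric.ball (y j) (r / 2))
    refine ⟨_, ?_, ?_, ho none, fun j => ho (some j)⟩
    · cases o with
      | none => exact hpos _ _ (by linarith)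
      | some j => exact hpos _ _ (by linarith)
    · exact (ho none).trans measureReal_le_one
  set M : ℝ := m * N + 1 with hM
  have hM1 : 1 ≤ M := by
    rw [hM]
    have : (0 : ℝ) ≤ m * N := by positivity
    linarith
  have hc1M : b / (8 * M) * M = b / 8 := by
    field_simp
  have hc1 : 0 < b / (8 * M) := by positivity
  set c₁ : ℝ := b / (8 * M) with hc₁
  have hc1b : c₁ ≤ b / 8 := by
    rw [← hc1M]
    exact le_mul_of_one_le_right hc1.le hM1
  refine ⟨c₁, hc1, by linarith, ?_⟩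
  intro ρ c₂ hρ hc2 hc21
  obtain ⟨K₀, z, g, g', k', hg, hd, hz, hsum, -, -⟩ :=
    h_SYM K μ k₀ (min ρ (min (r / 4) (r₀ / 4))) (c₂ / 2)
      (lt_min hρ (lt_min (by linarith) (by linarith))) (by linarith)
  have hbump : Bump g g' := ⟨hg, hd⟩
  have hK : (0 : ℝ) ≤ K₀ := Nat.cast_nonneg K₀
  set δ₂ : ℝ := c₂ / (8 * (K₀ + 1)) with hδ₂
  have hδ0 : 0 < δ₂ := by positivity
  have hδK : (K₀ + 1) * δ₂ = c₂ / 8 := by
    rw [hδ₂]
    field_simp
  refine ⟨K₀, z, g, g', δ₂, min δ₂ (c₁ / 16), hg, hd,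
    fun k x hx => (hz k x hx).trans_le (min_le_left _ _), hδ0, lt_min hδ0 (by linarith), ?_⟩
  intro η hη hη'
  have hη1 : η < δ₂ := hη'.trans_le (min_le_left _ _)
  have hη2 : η < c₁ / 16 := hη'.trans_le (min_le_right _ _)
  have hI0 : ∀ k, 0 ≤ ∫ x, g k x ∂μ := fun k => integral_nonneg fun x => (hg k x).1
  -- the numbers of slots
  let n : Fin K₀ → ℕ := fun k => ⌈(∫ x, g k x ∂μ - δ₂) / η⌉₊ - 1
  have hn1 : ∀ k, 0 < n k → n k * η < ∫ x, g k x ∂μ - δ₂ := by
    intro k hk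
    have h1 : n k + 1 = ⌈(∫ x, g k x ∂μ - δ₂) / η⌉₊ := by
      show ⌈(∫ x, g k x ∂μ - δ₂) / η⌉₊ - 1 + 1 = _
      have : 0 < ⌈(∫ x, g k x ∂μ - δ₂) / η⌉₊ - 1 := hk
      omega
    have h2 : (n k : ℝ) < (∫ x, g k x ∂μ - δ₂) / η := Nat.lt_ceil.1 (by omega)
    exact (lt_div_iff₀ hη).1 h2
  have hn2 : ∀ k, n k * η ≤ ∫ x, g k x ∂μ := by
    intro k
    rcases Nat.eq_zero_or_pos (n k) with h0 | h0
    · rw [h0, Nat.cast_zero, zero_mul]
      exact hI0 k
    · linarith [hn1 k h0]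
  have hn3 : ∀ k, ∫ x, g k x ∂μ - 2 * δ₂ ≤ n k * η := by
    intro k
    have h1 : ⌈(∫ x, g k x ∂μ - δ₂) / η⌉₊ ≤ n k + 1 := by
      show _ ≤ ⌈(∫ x, g k x ∂μ - δ₂) / η⌉₊ - 1 + 1
      omega
    have h2 : (∫ x, g k x ∂μ - δ₂) / η ≤ (n k + 1 : ℕ) := Nat.ceil_le.1 h1
    rw [div_le_iff₀ hη] at h2
    push_cast at h2
    linarith
  have hn4 : 1 - ∑ k, n k * η < c₂ := by
    have h1 : ∑ k, (∫ x, g k x ∂μ - 2 * δ₂) ≤ ∑ k, n k * η :=
      Finset.sum_le_sum fun k _ => hn3 k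
    rw [Finset.sum_sub_distrib, Finset.sum_const, Finset.card_univ, Fintype.card_fin,
      nsmul_eq_mul] at h1
    have h2 : K₀ * (2 * δ₂) ≤ c₂ / 4 := by linarith
    linarith
  -- the slots near a point
  let Nb : Option (Fin m × Fin N) → Finset (Σ k : Fin K₀, Fin (n k)) := fun o =>
    o.elim (Finset.univ.filter fun s => dist (z s.1) k₀ < r₀)
      fun a => Finset.univ.filter fun s => dist (z s.1) (y a.2) < r
  let d : Option (Fin m × Fin N) → ℕ := fun o =>
    o.elim ⌈c₁ / (2 * η)⌉₊ fun _ => ⌊c₁ / η⌋₊ + 1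
  have hnear : ∀ o, b - c₂ ≤ ((Nb o).card : ℝ) * η := by
    intro o
    cases o with
    | none =>
      refine near μ hbump z n η c₂ b hn2 hn4 k₀ (r₀ / 2) r₀ hbk fun k x hx hxp => ?_
      have h1 := (hz k x (ne_of_ne hbump hx)).trans_le
        ((min_le_right _ _).trans (min_le_right _ _))
      have h2 := dist_triangle (z k) x k₀
      rw [dist_comm (z k) x] at h2
      linarith
    | some a =>
      refine near μ hbump z n η c₂ b hn2 hn4 (y a.2) (r / 2) r (hby a.2) fun k x hx hxp => ?_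
      have h1 := (hz k x (ne_of_ne hbump hx)).trans_le
        ((min_le_right _ _).trans (min_le_left _ _))
      have h2 := dist_triangle (z k) x (y a.2)
      rw [dist_comm (z k) x] at h2
      linarith
  have hdn : ((d none : ℕ) : ℝ) * η < c₁ / 2 + η := by
    have h1 : ((d none : ℕ) : ℝ) < c₁ / (2 * η) + 1 := Nat.ceil_lt_add_one (by positivity)
    have h2 := mul_lt_mul_of_pos_right h1 hη
    have h3 : (c₁ / (2 * η) + 1) * η = c₁ / 2 + η := by field_simp
    linarith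
  have hdn' : c₁ / 2 ≤ ((d none : ℕ) : ℝ) * η := by
    have h1 : c₁ / (2 * η) ≤ ((d none : ℕ) : ℝ) := Nat.le_ceil _
    have h2 := mul_le_mul_of_nonneg_right h1 hη.le
    have h3 : c₁ / (2 * η) * η = c₁ / 2 := by field_simp
    linarith
  have hds : ∀ a, ((d (some a) : ℕ) : ℝ) * η ≤ c₁ + η ∧ c₁ < ((d (some a) : ℕ) : ℝ) * η := by
    intro a
    have e : ((d (some a) : ℕ) : ℝ) = (⌊c₁ / η⌋₊ : ℝ) + 1 := by
      show ((⌊c₁ / η⌋₊ + 1 : ℕ) : ℝ) = _
      push_cast
      rfl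
    have h1 : (⌊c₁ / η⌋₊ : ℝ) ≤ c₁ / η := Nat.floor_le (by positivity)
    have h2 : c₁ / η < (⌊c₁ / η⌋₊ : ℝ) + 1 := Nat.lt_floor_add_one _
    have h3 : c₁ / η * η = c₁ := by field_simp
    rw [e]
    constructor
    · have h4 := mul_le_mul_of_nonneg_right h1 hη.le
      linarith
    · have h4 := mul_lt_mul_of_pos_right h2 hη
      linarith
  have hdsum : ∀ o, ∑ o', d o' ≤ (Nb o).card := by
    intro o
    have h1 : ((∑ o', d o' : ℕ) : ℝ) * η ≤ ((Nb o).card : ℝ) * η := by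
      refine le_trans ?_ (hnear o)
      have h2 : ∑ o', ((d o' : ℕ) : ℝ) * η ≤ ∑ _o' : Option (Fin m × Fin N), (c₁ + η) := by
        refine Finset.sum_le_sum fun o' _ => ?_
        cases o' with
        | none => linarith
        | some a => exact (hds a).1
      rw [Finset.sum_const, Finset.card_univ, Fintype.card_option, Fintype.card_prod,
        Fintype.card_fin, Fintype.card_fin, nsmul_eq_mul] at h2
      push_cast at h2 ⊢
      rw [Finset.sum_mul]
      refine h2.trans ?_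
      have h3 : ((m : ℝ) * N + 1) * (c₁ + η) ≤ M * (c₁ + c₁ / 16) :=
        mul_le_mul_of_nonneg_left (by linarith) (by linarith)
      have h4 : M * (c₁ + c₁ / 16) = 17 / 128 * b := by
        have : M * (c₁ + c₁ / 16) = c₁ * M * (17 / 16) := by ring
        rw [this, hc1M]
        ring
      linarith
    have h5 : ((∑ o', d o' : ℕ) : ℝ) ≤ ((Nb o).card : ℝ) := le_of_mul_le_mul_right h1 hη
    exact_mod_cast h5
  obtain ⟨T, hT1, hT2, hT3⟩ := h_HST (Σ k : Fin K₀, Fin (n k)) (Option (Fin m × Fin N)) Nb d hdsum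
  refine ⟨n, T none, fun i j => T (some (i, j)), hn1, hn4, ?_, ?_, ?_, ?_, ?_, ?_⟩
  · intro s hs
    exact (Finset.mem_filter.1 (hT1 none hs)).2
  · intro i j s hs
    exact (Finset.mem_filter.1 (hT1 (some (i, j)) hs)).2
  · intro i j
    exact hT3 _ _ (by simp)
  · intro i j i' j' hne
    exact hT3 _ _ fun he => hne (Option.some_injective _ he)
  · rw [hT2 none]
    exact hdn'
  · intro i j
    rw [hT2 none, hT2 (some (i, j))]
    have h1 := (hds (i, j)).2
    linarith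

end Pool.Agent.FPS
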