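import Pool.Agent.FPS.Inst
import Pool.Agent.FPS.Targets4

set_option autoImplicit false

/-!
# FPS, THT: the rotation homotopy of exact homomorphisms
-/

open scoped Classical
open MeasureTheory Pool.Agent.FPZ

noncomputable section

namespace Pool.Agent.FPS

namespace THT_

/-! ### Pauli matrices -/

theorem sg_sq (v : E3) : sg v * sg v = ((‖v‖ ^ 2 : ℝ) : ℂ) • (1 : Matrix (Fin 2) (Fin 2) ℂ) := by
  have h : ((‖v‖ ^ 2 : ℝ) : ℂ) = (v 0 : ℂ) ^ 2 + (v 1 : ℂ) ^ 2 + (v 2 : ℂ) ^ 2 := by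
    rw [EuclideanSpace.real_norm_sq_eq, Fin.sum_univ_three]
    push_cast
    ring
  rw [h]
  have hI := Complex.I_sq
  ext i j
  fin_cases i <;> fin_cases j <;> simp [sg, Matrix.mul_apply, Fin.sum_univ_two]
  · linear_combination (-(v 1 : ℂ) ^ 2) * hI
  · ring
  · ring
  · linear_combination (-(v 1 : ℂ) ^ 2) * hI

theorem sg_conj (v : E3) : (sg v).conjTranspose = sg v := by
  ext i j
  fin_cases i <;> fin_cases j <;> simp [sg, Matrix.conjTranspose_apply] <;> ring

theorem pp_add_pm (v : E3) : pp v + pm v = 1 := by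
  unfold pp pm
  rw [← smul_add]
  have h : (1 : Matrix (Fin 2) (Fin 2) ℂ) + sg v + (1 - sg v) = (2 : ℂ) • 1 := by
    rw [two_smul]
    abel
  rw [h, smul_smul]
  norm_num

theorem pp_conj (v : E3) : (pp v).conjTranspose = pp v := by
  unfold pp
  rw [Matrix.conjTranspose_smul, Matrix.conjTranspose_add, Matrix.conjTranspose_one, sg_conj]
  congr 1
  norm_num

theorem pm_conj (v : E3) : (pm v).conjTranspose = pm v := by
  unfold pm
  rw [Matrix.conjTranspose_smul, Matrix.conjTranspose_sub, Matrix.conjTranspose_one, sg_conj]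
  congr 1
  norm_num

variable {v : E3}

theorem sg_sq1 (hv : ‖v‖ = 1) : sg v * sg v = 1 := by
  rw [sg_sq, hv]
  simp

theorem pp_mul_pp (hv : ‖v‖ = 1) : pp v * pp v = pp v := by
  unfold pp
  rw [smul_mul_smul_comm, Matrix.add_mul, Matrix.mul_add, Matrix.mul_add, sg_sq1 hv, one_mul,
    one_mul, mul_one]
  have h : (1 : Matrix (Fin 2) (Fin 2) ℂ) + sg v + (sg v + 1) = (2 : ℂ) • (1 + sg v) := by
    rw [two_smul]
    abel
  rw [h, smul_smul]
  norm_num

theorem pm_mul_pm (hv : ‖v‖ = 1) : pm v * pm v = pm v := by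
  unfold pm
  rw [smul_mul_smul_comm, Matrix.sub_mul, Matrix.mul_sub, Matrix.mul_sub, sg_sq1 hv, one_mul,
    one_mul, mul_one]
  have h : (1 : Matrix (Fin 2) (Fin 2) ℂ) - sg v - (sg v - 1) = (2 : ℂ) • (1 - sg v) := by
    rw [two_smul]
    abel
  rw [h, smul_smul]
  norm_num

theorem pp_mul_pm (hv : ‖v‖ = 1) : pp v * pm v = 0 := by
  unfold pp pm
  rw [smul_mul_smul_comm, Matrix.add_mul, Matrix.mul_sub, Matrix.mul_sub, sg_sq1 hv, one_mul,
    one_mul, mul_one]
  have h : (1 : Matrix (Fin 2) (Fin 2) ℂ) - sg v + (sg v - 1) = 0 := by abel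
  rw [h, smul_zero]

theorem pm_mul_pp (hv : ‖v‖ = 1) : pm v * pp v = 0 := by
  unfold pp pm
  rw [smul_mul_smul_comm, Matrix.sub_mul, Matrix.mul_add, Matrix.mul_add, sg_sq1 hv, one_mul,
    one_mul, mul_one]
  have h : (1 : Matrix (Fin 2) (Fin 2) ℂ) + sg v - (sg v + 1) = 0 := by abel
  rw [h, smul_zero]

theorem norm_un (hv : v ≠ 0) : ‖un v‖ = 1 := by
  unfold un
  rw [norm_smul, norm_inv, norm_norm]
  exact inv_mul_cancel₀ (norm_ne_zero_iff.mpr hv)

/-! ### The map for two vectors -/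

/-- the value for the vectors `T`, `V` -/
def Ph (f : C(M3, ℂ)) (T V : E3) : Matrix (Fin 2) (Fin 2) ℂ :=
  f (m3 T ‖V‖) • pp (un V) + f (m3 T (-‖V‖)) • pm (un V)

theorem Ph_zero (f : C(M3, ℂ)) (T : E3) : Ph f T 0 = f (m3 T 0) • 1 := by
  unfold Ph
  rw [norm_zero, neg_zero, ← smul_add, pp_add_pm]

theorem Ph_add (f g : C(M3, ℂ)) (T V : E3) : Ph (f + g) T V = Ph f T V + Ph g T V := by
  unfold Ph
  rw [ContinuousMap.add_apply, ContinuousMap.add_apply, add_smul, add_smul]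
  abel

theorem Ph_smul (c : ℂ) (f : C(M3, ℂ)) (T V : E3) : Ph (c • f) T V = c • Ph f T V := by
  unfold Ph
  rw [ContinuousMap.smul_apply, ContinuousMap.smul_apply, smul_add, smul_smul, smul_smul,
    smul_eq_mul, smul_eq_mul]

theorem Ph_one (T V : E3) : Ph 1 T V = 1 := by
  unfold Ph
  rw [ContinuousMap.one_apply, ContinuousMap.one_apply, one_smul, one_smul, pp_add_pm]

theorem Ph_star (f : C(M3, ℂ)) (T V : E3) : Ph (star f) T V = (Ph f T V).conjTranspose := by
  unfold Ph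
  rw [Matrix.conjTranspose_add, Matrix.conjTranspose_smul, Matrix.conjTranspose_smul, pp_conj,
    pm_conj]
  rfl

theorem Ph_mul (f g : C(M3, ℂ)) (T V : E3) : Ph (f * g) T V = Ph f T V * Ph g T V := by
  by_cases hV : V = 0
  · rw [hV, Ph_zero, Ph_zero, Ph_zero, smul_mul_smul_comm, mul_one, ContinuousMap.mul_apply]
  · have h := norm_un hV
    unfold Ph
    rw [Matrix.add_mul, Matrix.mul_add, Matrix.mul_add, smul_mul_smul_comm, smul_mul_smul_comm,
      smul_mul_smul_comm, smul_mul_smul_comm, pp_mul_pp h, pp_mul_pm h, pm_mul_pp h,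
      pm_mul_pm h, smul_zero, smul_zero, add_zero, zero_add, ContinuousMap.mul_apply,
      ContinuousMap.mul_apply]

/-! ### Continuity -/

variable {X : Type} [TopologicalSpace X] {T V : X → E3}

theorem cont_m3 {h : X → ℝ} (hT : Continuous T) (hh : Continuous h)
    (h1 : ∀ q, ‖T q‖ ^ 2 + h q ^ 2 = 1) : Continuous fun q => m3 (T q) (h q) := by
  have h2 : (fun q => m3 (T q) (h q)) = fun q => (⟨(T q, h q), h1 q⟩ : M3) := by
    funext q
    exact dif_pos (h1 q)
  rw [h2]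
  exact (hT.prodMk hh).subtype_mk _

theorem cont_un {g : X → ℂ} (hV : Continuous V) (hg : Continuous g) (h0 : ∀ q, V q = 0 → g q = 0)
    (i : Fin 3) : Continuous fun q => g q * ((un (V q) i : ℝ) : ℂ) := by
  rw [continuous_iff_continuousAt]
  intro q
  by_cases hq : V q = 0
  · have h1 : g q = 0 := h0 q hq
    have h2 : g q * ((un (V q) i : ℝ) : ℂ) = 0 := by
      rw [h1, zero_mul]
    rw [ContinuousAt, h2]
    have h3 : Filter.Tendsto (fun q => ‖g q‖) (nhds q) (nhds 0) := by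
      have h4 : Filter.Tendsto (fun q => ‖g q‖) (nhds q) (nhds ‖g q‖) :=
        hg.norm.continuousAt.tendsto
      rwa [h1, norm_zero] at h4
    refine squeeze_zero_norm (fun p => ?_) h3
    rw [norm_mul]
    refine mul_le_of_le_one_right (norm_nonneg _) ?_
    rw [Complex.norm_real]
    refine le_trans (PiLp.norm_apply_le (un (V p)) i) ?_
    by_cases hp : V p = 0
    · rw [hp]
      simp [un]
    · exact (norm_un hp).le
  · have h1 : ContinuousAt (fun q => un (V q)) q := by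
      unfold un
      exact (hV.norm.continuousAt.inv₀ (norm_ne_zero_iff.mpr hq)).smul hV.continuousAt
    have h2 : ContinuousAt (fun q => un (V q) i) q :=
      ContinuousAt.comp (g := fun v : E3 => v i)
        (EuclideanSpace.proj (𝕜 := ℝ) i).continuous.continuousAt h1
    exact hg.continuousAt.mul (Complex.continuous_ofReal.continuousAt.comp h2)

theorem cont_Ph (f : C(M3, ℂ)) (hT : Continuous T) (hV : Continuous V)
    (h1 : ∀ q, ‖T q‖ ^ 2 + ‖V q‖ ^ 2 = 1) : Continuous fun q => Ph f (T q) (V q) := by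
  have c1 : Continuous fun q => f (m3 (T q) ‖V q‖) :=
    f.continuous.comp (cont_m3 hT hV.norm h1)
  have c2 : Continuous fun q => f (m3 (T q) (-‖V q‖)) :=
    f.continuous.comp (cont_m3 hT hV.norm.neg (fun q => by rw [neg_sq]; exact h1 q))
  set g : X → ℂ := fun q => (f (m3 (T q) ‖V q‖) - f (m3 (T q) (-‖V q‖))) / 2 with hg
  set k : X → ℂ := fun q => (f (m3 (T q) ‖V q‖) + f (m3 (T q) (-‖V q‖))) / 2 with hk
  have cg : Continuous g := (c1.sub c2).div_const 2
  have ck : Continuous k := (c1.add c2).div_const 2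
  have h0 : ∀ q, V q = 0 → g q = 0 := by
    intro q hq
    simp only [hg, hq, norm_zero, neg_zero, sub_self, zero_div]
  have u := fun i => cont_un hV cg h0 i
  have e : ∀ q, Ph f (T q) (V q) = k q • 1 + g q • sg (un (V q)) := by
    intro q
    have e1 : f (m3 (T q) ‖V q‖) = k q + g q := by
      simp only [hk, hg]
      ring
    have e2 : f (m3 (T q) (-‖V q‖)) = k q - g q := by
      simp only [hk, hg]
      ring
    unfold Ph pp pm
    rw [e1, e2, smul_smul, smul_smul, smul_add, smul_sub]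
    module
  simp_rw [e]
  refine (ck.smul continuous_const).add ?_
  have e3 : ∀ q, g q • sg (un (V q)) =
      !![g q * ((un (V q) 2 : ℝ) : ℂ), g q * ((un (V q) 0 : ℝ) : ℂ) -
        g q * ((un (V q) 1 : ℝ) : ℂ) * Complex.I;
        g q * ((un (V q) 0 : ℝ) : ℂ) + g q * ((un (V q) 1 : ℝ) : ℂ) * Complex.I,
        -(g q * ((un (V q) 2 : ℝ) : ℂ))] := by
    intro q
    ext i j
    fin_cases i <;> fin_cases j <;> simp [sg] <;> ring
  simp_rw [e3]
  refine continuous_matrix fun i j => ?_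
  fin_cases i <;> fin_cases j
  · exact u 2
  · exact (u 0).sub ((u 1).mul continuous_const)
  · exact (u 0).add ((u 1).mul continuous_const)
  · exact (u 2).neg

/-! ### The two vectors -/

/-- the vector `|h| • mt h m` -/
def U (p : M3 × S2) : E3 := |p.1.1.2| • (mt p.1.1.2 p.2 : E3)

theorem U_eq (p : M3 × S2) :
    U p = (max p.1.1.2 0) • (p.2 : E3) + (max (-p.1.1.2) 0) • (n0 : E3) := by
  unfold U mt
  by_cases h : 0 ≤ p.1.1.2
  · rw [if_pos h, abs_of_nonneg h, max_eq_left h, max_eq_right (by linarith), zero_smul, add_zero]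
  · rw [if_neg h]
    rw [not_le] at h
    rw [abs_of_neg h, max_eq_right h.le, max_eq_left (by linarith), zero_smul, zero_add]

theorem cont_U : Continuous U := by
  have h : U = fun p : M3 × S2 =>
      (max p.1.1.2 0) • (p.2 : E3) + (max (-p.1.1.2) 0) • (n0 : E3) := funext U_eq
  rw [h]
  fun_prop

theorem norm_U (p : M3 × S2) : ‖U p‖ ^ 2 = p.1.1.2 ^ 2 := by
  have h : ‖(mt p.1.1.2 p.2 : E3)‖ = 1 := by
    have h1 := (mt p.1.1.2 p.2).2
    rwa [mem_sphere_zero_iff_norm] at h1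
  unfold U
  rw [norm_smul, h, mul_one, Real.norm_eq_abs, abs_abs, sq_abs]

theorem norm_rot (s : ℝ) (w u : E3) :
    ‖Real.cos s • w + Real.sin s • u‖ ^ 2 + ‖-Real.sin s • w + Real.cos s • u‖ ^ 2 =
      ‖w‖ ^ 2 + ‖u‖ ^ 2 := by
  rw [norm_add_sq_real, norm_add_sq_real, norm_smul, norm_smul, norm_smul, norm_smul,
    inner_smul_left, inner_smul_right, inner_smul_left, inner_smul_right]
  simp only [Real.norm_eq_abs, mul_pow, sq_abs, conj_trivial]
  have h := Real.sin_sq_add_cos_sq s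
  linear_combination (‖w‖ ^ 2 + ‖u‖ ^ 2) * h

theorem th_eq (s : ℝ) (f : C(M3, ℂ)) (p : M3 × S2) :
    th s f p.1 p.2 = Ph f (Real.cos s • p.1.1.1 + Real.sin s • U p)
      (-Real.sin s • p.1.1.1 + Real.cos s • U p) := rfl

theorem cont_th (f : C(M3, ℂ)) : Continuous fun q : ℝ × (M3 × S2) => th q.1 f q.2.1 q.2.2 := by
  simp_rw [th_eq]
  have hU : Continuous fun q : ℝ × (M3 × S2) => U q.2 := cont_U.comp continuous_snd
  refine cont_Ph f ?_ ?_ ?_
  · fun_prop
  · fun_prop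
  · intro q
    rw [norm_rot, norm_U]
    exact q.2.1.2

/-! ### Uniform continuity in the parameter -/

theorem cont_opn : Continuous fun M : Matrix (Fin 2) (Fin 2) ℂ => opn M := by
  unfold opn
  exact (LinearMap.continuous_of_finiteDimensional
    (Matrix.toEuclideanCLM (n := Fin 2) (𝕜 := ℂ)).toAlgEquiv.toLinearMap).norm

theorem opn_zero : opn (0 : Matrix (Fin 2) (Fin 2) ℂ) = 0 := by
  unfold opn
  rw [map_zero, norm_zero]

theorem unif {Y : Type} [TopologicalSpace Y] [CompactSpace Y]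
    (F : ℝ → Y → Matrix (Fin 2) (Fin 2) ℂ) (hF : Continuous fun q : ℝ × Y => F q.1 q.2)
    (a b ε : ℝ) (hε : 0 < ε) : ∃ δ : ℝ, 0 < δ ∧ ∀ s s' : ℝ, a ≤ s → s ≤ b → a ≤ s' → s' ≤ b →
      |s - s'| < δ → ∀ y, opn (F s y - F s' y) ≤ ε := by
  have h1 : Continuous fun q : (Set.Icc a b × Set.Icc a b) × Y =>
      opn (F q.1.1 q.2 - F q.1.2 q.2) := by
    refine cont_opn.comp (Continuous.sub ?_ ?_)
    · exact hF.comp (f := fun q : (Set.Icc a b × Set.Icc a b) × Y => ((q.1.1 : ℝ), q.2))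
        (by fun_prop)
    · exact hF.comp (f := fun q : (Set.Icc a b × Set.Icc a b) × Y => ((q.1.2 : ℝ), q.2))
        (by fun_prop)
  have h2 : IsClosed {q : (Set.Icc a b × Set.Icc a b) × Y |
      ε ≤ opn (F q.1.1 q.2 - F q.1.2 q.2)} := isClosed_le continuous_const h1
  have h3 := isClosedMap_fst_of_compactSpace _ h2
  have h4 : (Prod.fst '' {q : (Set.Icc a b × Set.Icc a b) × Y |
      ε ≤ opn (F q.1.1 q.2 - F q.1.2 q.2)})ᶜ ∈ uniformity (Set.Icc a b) := by
    rw [← nhdsSet_diagonal_eq_uniformity, h3.isOpen_compl.mem_nhdsSet]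
    rintro ⟨x, x'⟩ hx ⟨q, hq, hq'⟩
    rw [Set.mem_diagonal_iff] at hx
    rw [Set.mem_ofPred_eq, hq', hx, sub_self, opn_zero] at hq
    exact absurd hq (not_le.mpr hε)
  obtain ⟨δ, hδ, h5⟩ := Metric.mem_uniformity_dist.mp h4
  refine ⟨δ, hδ, fun s s' h6 h7 h8 h9 h10 y => ?_⟩
  by_contra h11
  rw [not_le] at h11
  have h12 : dist (⟨s, h6, h7⟩ : Set.Icc a b) ⟨s', h8, h9⟩ < δ := by
    rw [Subtype.dist_eq, Real.dist_eq]
    exact h10
  exact h5 h12 ⟨((⟨s, h6, h7⟩, ⟨s', h8, h9⟩), y), h11.le, rfl⟩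

theorem cont_th' (s : ℝ) (f : C(M3, ℂ)) : Continuous fun p : M3 × S2 => th s f p.1 p.2 := by
  simp_rw [th_eq]
  have hU : Continuous U := cont_U
  refine cont_Ph f ?_ ?_ ?_
  · fun_prop
  · fun_prop
  · intro p
    rw [norm_rot, norm_U]
    exact p.1.2

/-- the homomorphism -/
def PM (s : ℝ) (f : C(M3, ℂ)) : C(M3 × S2, Matrix (Fin 2) (Fin 2) ℂ) :=
  ⟨fun p => th s f p.1 p.2, cont_th' s f⟩

theorem PM_apply (s : ℝ) (f : C(M3, ℂ)) (p : M3 × S2) :
    PM s f p = Ph f (Real.cos s • p.1.1.1 + Real.sin s • U p)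
      (-Real.sin s • p.1.1.1 + Real.cos s • U p) := th_eq s f p

theorem PM_hom (s : ℝ) : EHM (PM s) := by
  refine ⟨?_, ?_, ?_, ?_, ?_⟩
  · intro f g
    refine ContinuousMap.ext fun p => ?_
    rw [ContinuousMap.add_apply, PM_apply, PM_apply, PM_apply, Ph_add]
  · intro c f
    refine ContinuousMap.ext fun p => ?_
    rw [ContinuousMap.smul_apply, PM_apply, PM_apply, Ph_smul]
  · intro p
    rw [PM_apply, Ph_one]
    exact one_inst _ _
  · intro f p
    rw [PM_apply, PM_apply, Ph_star]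
  · intro f g p
    rw [PM_apply, PM_apply, PM_apply, Ph_mul]

end THT_

open THT_ in
theorem p_THT : T_THT := by
  refine ⟨fun s => ⟨PM s, PM_hom s, fun f x m => rfl⟩, fun f ε hε => ?_⟩
  obtain ⟨δ, hδ, h⟩ := unif (fun s (p : M3 × S2) => th s f p.1 p.2) (cont_th f) 0
    (Real.pi / 2) ε hε
  exact ⟨δ, hδ, fun s s' h1 h2 h3 h4 h5 x m => h s s' h1 h2 h3 h4 h5 (x, m)⟩

end Pool.Agent.FPS
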