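import Pool.Agent.FPS.Targets6
import Pool.Agent.FPZ.Targets2

set_option autoImplicit false

/-!
# FPS: transfer of an isometry between projections (target T_TRI)
-/

open scoped Classical
open MeasureTheory Pool.Agent.FPZ

noncomputable section

namespace Pool.Agent.FPS

namespace TRI_

variable {A : Type} [CStarAlgebra A]

theorem mul_e {t e : A} (he : IsStarProjection e) (h : star t * t = e) : t * e = t := by
  have h1 : e * e = e := he.isIdempotentElem
  have h2 : star e = e := he.isSelfAdjoint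
  have h3 : star (t * e - t) * (t * e - t) = 0 := by
    calc star (t * e - t) * (t * e - t) =
        star e * (star t * t) * e - star e * (star t * t) - (star t * t) * e + star t * t := by
          rw [star_sub, star_mul]; noncomm_ring
      _ = 0 := by rw [h, h2, h1, h1]; noncomm_ring
  exact sub_eq_zero.1 ((CStarRing.star_mul_self_eq_zero_iff _).1 h3)

theorem proj_norm {p : A} (hp : IsStarProjection p) : ‖p‖ ≤ 1 := by
  have h1 : p * p = p := hp.isIdempotentElem
  have h2 : star p = p := hp.isSelfAdjoint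
  have h3 : ‖p‖ * ‖p‖ = ‖p‖ := by
    have := CStarRing.norm_star_mul_self (x := p)
    rw [h2, h1] at this
    exact this.symm
  by_contra h
  have h4 : 1 < ‖p‖ := not_le.1 h
  nlinarith

theorem proj_zero {p : A} (hp : IsStarProjection p) (h : ‖p‖ < 1) : p = 0 := by
  have h1 : p * p = p := hp.isIdempotentElem
  have h2 : star p = p := hp.isSelfAdjoint
  have h3 : ‖p‖ * ‖p‖ = ‖p‖ := by
    have := CStarRing.norm_star_mul_self (x := p)
    rw [h2, h1] at this
    exact this.symm
  have h4 : ‖p‖ = 0 := by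
    by_contra h5
    have h6 : 0 < ‖p‖ := lt_of_le_of_ne (norm_nonneg _) (Ne.symm h5)
    nlinarith
  exact norm_eq_zero.1 h4

theorem norm_le_one {t e : A} (he : IsStarProjection e) (h : star t * t = e) : ‖t‖ ≤ 1 := by
  have h1 := CStarRing.norm_star_mul_self (x := t)
  rw [h] at h1
  have h2 := proj_norm he
  by_contra h3
  have h4 : 1 < ‖t‖ := not_le.1 h3
  nlinarith

end TRI_

open TRI_ in
theorem p_TRI (h_PLE : T_PLE) : T_TRI := by
  intro ε hε
  have hδ0 : 0 < min (1 / 200) (ε / 60) := lt_min (by norm_num) (by positivity)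
  refine ⟨min (1 / 200) (ε / 60), hδ0, ?_⟩
  generalize hδ : min (1 / 200) (ε / 60) = δ at hδ0
  have hδ1 : δ ≤ 1 / 200 := hδ ▸ min_le_left _ _
  have hδ2 : δ ≤ ε / 60 := hδ ▸ min_le_right _ _
  intro A D _ _ α e R t e' R' hα he hR he' hR' h1 h2 h3 h4 ⟨d, hd⟩
  have hn : ∀ x : D, ‖α x‖ = ‖x‖ := fun x => by
    have := hα.dist_eq x 0
    simpa [dist_eq_norm] using this
  -- basic facts
  have hte : t * e = t := mul_e he h1
  have hRt : R * t = t := by
    rw [← h2, mul_assoc, h1, hte]
  have ht : ‖t‖ ≤ 1 := norm_le_one he h1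
  have hen : ‖e‖ ≤ 1 := proj_norm he
  have he'n : ‖α e'‖ ≤ 1 := by rw [hn]; exact proj_norm he'
  have hR'n : ‖α R'‖ ≤ 1 := by rw [hn]; exact proj_norm hR'
  have hdn : ‖α d‖ ≤ 1 + δ := by
    calc ‖α d‖ = ‖t - (t - α d)‖ := by rw [sub_sub_cancel]
      _ ≤ ‖t‖ + ‖t - α d‖ := norm_sub_le _ _
      _ ≤ 1 + δ := add_le_add ht hd
  -- the element c
  have hce : R' * d * e' * e' = R' * d * e' := by
    rw [mul_assoc (R' * d), he'.isIdempotentElem.eq]
  have hRc : R' * (R' * d * e') = R' * d * e' := by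
    rw [← mul_assoc, ← mul_assoc, hR'.isIdempotentElem.eq]
  generalize hc : R' * d * e' = c at hce hRc
  have hαc : α c = α R' * α d * α e' := by rw [← hc, map_mul, map_mul]
  have htc : ‖t - α c‖ ≤ 4 * δ := by
    have e1 : t - α c = (R - α R') * t * e + α R' * (t - α d) * e + α R' * α d * (e - α e') := by
      rw [hαc]
      have : t = R * t * e := by rw [hRt, hte]
      nth_rw 1 [this]
      noncomm_ring
    rw [e1]
    have a1 : ‖(R - α R') * t * e‖ ≤ δ := by
      calc ‖(R - α R') * t * e‖ ≤ ‖R - α R'‖ * ‖t‖ * ‖e‖ :=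
            (norm_mul_le _ _).trans (mul_le_mul_of_nonneg_right (norm_mul_le _ _) (norm_nonneg _))
        _ ≤ δ * 1 * 1 := by gcongr
        _ = δ := by ring
    have a2 : ‖α R' * (t - α d) * e‖ ≤ δ := by
      calc ‖α R' * (t - α d) * e‖ ≤ ‖α R'‖ * ‖t - α d‖ * ‖e‖ :=
            (norm_mul_le _ _).trans (mul_le_mul_of_nonneg_right (norm_mul_le _ _) (norm_nonneg _))
        _ ≤ 1 * δ * 1 := by gcongr
        _ = δ := by ring
    have a3 : ‖α R' * α d * (e - α e')‖ ≤ 2 * δ := by
      calc ‖α R' * α d * (e - α e')‖ ≤ ‖α R'‖ * ‖α d‖ * ‖e - α e'‖ :=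
            (norm_mul_le _ _).trans (mul_le_mul_of_nonneg_right (norm_mul_le _ _) (norm_nonneg _))
        _ ≤ 1 * (1 + δ) * δ := by gcongr
        _ ≤ 2 * δ := by nlinarith
    calc _ ≤ ‖(R - α R') * t * e‖ + ‖α R' * (t - α d) * e‖ + ‖α R' * α d * (e - α e')‖ := norm_add₃_le
      _ ≤ 4 * δ := by linarith
  have hcn : ‖α c‖ ≤ 1 + 4 * δ := by
    calc ‖α c‖ = ‖t - (t - α c)‖ := by rw [sub_sub_cancel]
      _ ≤ ‖t‖ + ‖t - α c‖ := norm_sub_le _ _
      _ ≤ 1 + 4 * δ := add_le_add ht htc
  have hcc : ‖star c * c - e'‖ ≤ 13 * δ := by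
    rw [← hn, map_sub, map_mul, map_star]
    have e1 : star (α c) * α c - α e' = star (α c) * (α c - t) + (star (α c - t)) * t + (e - α e') := by
      rw [← h1, star_sub]
      noncomm_ring
    rw [e1]
    have a1 : ‖star (α c) * (α c - t)‖ ≤ 8 * δ := by
      calc ‖star (α c) * (α c - t)‖ ≤ ‖star (α c)‖ * ‖α c - t‖ := norm_mul_le _ _
        _ ≤ (1 + 4 * δ) * (4 * δ) := by
          rw [norm_star, norm_sub_rev]
          gcongr
        _ ≤ 8 * δ := by nlinarith
    have a2 : ‖star (α c - t) * t‖ ≤ 4 * δ := by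
      calc ‖star (α c - t) * t‖ ≤ ‖star (α c - t)‖ * ‖t‖ := norm_mul_le _ _
        _ ≤ (4 * δ) * 1 := by
          rw [norm_star, norm_sub_rev]
          gcongr
        _ = 4 * δ := by ring
    calc _ ≤ ‖star (α c) * (α c - t)‖ + ‖star (α c - t) * t‖ + ‖e - α e'‖ := norm_add₃_le
      _ ≤ 13 * δ := by linarith
  obtain ⟨x, hx1, hx2, hx3, hx4⟩ := h_PLE D e' c (13 * δ) he' hce hcc (by linarith)
  have hRt' : R' * (c * x) = c * x := by rw [← mul_assoc, hRc]
  have htt' : ‖t - α (c * x)‖ ≤ 56 * δ := by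
    have e1 : t - α (c * x) = (t - α c) - α c * α (x - 1) := by
      rw [map_mul, map_sub, map_one]
      noncomm_ring
    rw [e1]
    calc _ ≤ ‖t - α c‖ + ‖α c * α (x - 1)‖ := norm_sub_le _ _
      _ ≤ 4 * δ + (1 + 4 * δ) * (2 * (13 * δ)) := by
        gcongr
        refine (norm_mul_le _ _).trans ?_
        rw [hn (x - 1)]
        gcongr
      _ ≤ 56 * δ := by nlinarith
  refine ⟨c * x, hx3, ?_, htt'.trans (by linarith)⟩
  generalize ht' : c * x = t' at *
  have ht'n : ‖α t'‖ ≤ 1 := by rw [hn]; exact norm_le_one he' hx3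
  -- the projection `R' - t' star t'`
  have hpp : (t' * star t') * (t' * star t') = t' * star t' := by
    calc (t' * star t') * (t' * star t') = (t' * (star t' * t')) * star t' := by noncomm_ring
      _ = t' * star t' := by rw [hx3, hx4]
  have hRp : R' * (t' * star t') = t' * star t' := by rw [← mul_assoc, hRt']
  have hpR : (t' * star t') * R' = t' * star t' := by
    have := congrArg star hRp
    rwa [star_mul, star_mul, star_star, hR'.isSelfAdjoint.star_eq] at this
  have hq : IsStarProjection (R' - t' * star t') := by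
    constructor
    · show (R' - t' * star t') * (R' - t' * star t') = R' - t' * star t'
      rw [sub_mul, mul_sub, mul_sub, hpp, hRp, hpR, hR'.isIdempotentElem.eq]
      simp
    · show star (R' - t' * star t') = R' - t' * star t'
      rw [star_sub, star_mul, star_star, hR'.isSelfAdjoint.star_eq]
  have hqn : ‖R' - t' * star t'‖ < 1 := by
    rw [← hn, map_sub, map_mul, map_star]
    have e1 : α R' - α t' * star (α t') = -(R - α R') + (t - α t') * star t + α t' * star (t - α t') := by
      rw [← h2, star_sub]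
      noncomm_ring
    rw [e1]
    have a1 : ‖(t - α t') * star t‖ ≤ 56 * δ := by
      calc ‖(t - α t') * star t‖ ≤ ‖t - α t'‖ * ‖star t‖ := norm_mul_le _ _
        _ ≤ (56 * δ) * 1 := by
          rw [norm_star]
          gcongr
        _ = 56 * δ := by ring
    have a2 : ‖α t' * star (t - α t')‖ ≤ 56 * δ := by
      calc ‖α t' * star (t - α t')‖ ≤ ‖α t'‖ * ‖star (t - α t')‖ := norm_mul_le _ _
        _ ≤ 1 * (56 * δ) := by
          rw [norm_star]
          gcongr
        _ = 56 * δ := by ring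
    calc _ ≤ ‖-(R - α R')‖ + ‖(t - α t') * star t‖ + ‖α t' * star (t - α t')‖ := norm_add₃_le
      _ < 1 := by rw [norm_neg]; linarith
  exact (sub_eq_zero.1 (proj_zero hq hqn)).symm

end Pool.Agent.FPS
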