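import Pool.Agent.FPS.Targets1
import Pool.Agent.FPS.Targets2
import Pool.Agent.FPZ.Targets1

set_option autoImplicit false
set_option linter.all false

/-!
# FPS target TRN: chains can be joined
-/

open scoped Classical
open MeasureTheory Pool.Agent.FPZ

noncomputable section

namespace Pool.Agent.FPS

namespace TRN_

section

variable {K A : Type} [TopologicalSpace K] [CompactSpace K] [CStarAlgebra A]

theorem norm_uni {u : A} (hu : Uni u) : ‖u‖ ≤ 1 := by
  have h1 : ‖star u * u‖ = ‖u‖ * ‖u‖ := CStarRing.norm_star_mul_self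
  rw [hu.1] at h1
  have h2 : ‖(1 : A)‖ ≤ 1 := by
    rcases subsingleton_or_nontrivial A with h | h
    · rw [Subsingleton.elim (1 : A) 0, norm_zero]
      exact zero_le_one
    · rw [CStarRing.norm_one]
  by_contra h3
  push Not at h3
  nlinarith

theorem uni_star {u : A} (hu : Uni u) : Uni (star u) := by
  refine ⟨?_, ?_⟩
  · rw [star_star]
    exact hu.2
  · rw [star_star]
    exact hu.1

theorem uni_mul {u v : A} (hu : Uni u) (hv : Uni v) : Uni (u * v) := by
  refine ⟨?_, ?_⟩
  · calc star (u * v) * (u * v) = star v * (star u * u) * v := by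
          rw [star_mul]
          simp only [mul_assoc]
      _ = 1 := by rw [hu.1, mul_one, hv.1]
  · calc u * v * star (u * v) = u * (v * star v) * star u := by
          rw [star_mul]
          simp only [mul_assoc]
      _ = 1 := by rw [hv.2, mul_one, hu.2]

theorem norm_conj {u : A} (hu : Uni u) (y : A) : ‖u * y * star u‖ ≤ ‖y‖ := by
  have h1 := norm_uni hu
  have h2 : ‖star u‖ ≤ 1 := by
    rw [norm_star]
    exact h1
  calc ‖u * y * star u‖ ≤ ‖u * y‖ * ‖star u‖ := norm_mul_le _ _
    _ ≤ ‖u * y‖ * 1 := mul_le_mul_of_nonneg_left h2 (norm_nonneg _)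
    _ = ‖u * y‖ := mul_one _
    _ ≤ ‖u‖ * ‖y‖ := norm_mul_le _ _
    _ ≤ 1 * ‖y‖ := mul_le_mul_of_nonneg_right h1 (norm_nonneg _)
    _ = ‖y‖ := one_mul _

theorem conj_mul {u : A} (hu : Uni u) (y z : A) :
    u * y * star u * (u * z * star u) = u * (y * z) * star u := by
  calc u * y * star u * (u * z * star u) = u * y * (star u * u) * z * star u := by
        simp only [mul_assoc]
    _ = u * (y * z) * star u := by
        rw [hu.1]
        simp only [mul_assoc, one_mul]

/-- conjugation with a unitary keeps almost homomorphisms -/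
theorem conj_AH {H : Finset C(K, ℂ)} {δ : ℝ} {L : C(K, ℂ) → A} (hL : AH H δ L) {u : A}
    (hu : Uni u) : AH H δ (fun f => u * L f * star u) where
  add := fun f g => by
    show u * L (f + g) * star u = u * L f * star u + u * L g * star u
    rw [hL.add, mul_add, add_mul]
  smul := fun c f => by
    show u * L (c • f) * star u = c • (u * L f * star u)
    rw [hL.smul, mul_smul_comm, smul_mul_assoc]
  one := by
    show u * L 1 * star u = 1
    rw [hL.one, mul_one, hu.2]
  str := fun f => by
    show u * L (star f) * star u = star (u * L f * star u)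
    rw [hL.str, star_mul, star_mul, star_star]
    simp only [mul_assoc]
  pos := fun f => by
    obtain ⟨b, hb⟩ := hL.pos f
    refine ⟨b * star u, ?_⟩
    show u * L (star f * f) * star u = _
    rw [hb, star_mul, star_star]
    simp only [mul_assoc]
  mul := fun f hf g hg => by
    show ‖u * L (f * g) * star u - u * L f * star u * (u * L g * star u)‖ ≤ δ
    rw [conj_mul hu, ← sub_mul, ← mul_sub]
    exact (norm_conj hu _).trans (hL.mul f hf g hg)

theorem conj_Spt {k₀ : K} {P : A} {L : C(K, ℂ) → A} (hL : Spt k₀ P L) {u : A} (hu : Uni u) :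
    Spt k₀ (u * P * star u) (fun f => u * L f * star u) := by
  intro f
  show u * L f * star u = u * P * star u * (u * L f * star u) * (u * P * star u) +
    f k₀ • (1 - u * P * star u)
  rw [conj_mul hu, conj_mul hu]
  have h1 : (1 : A) - u * P * star u = u * (1 - P) * star u := by
    rw [mul_sub, sub_mul, mul_one, hu.2]
  rw [h1]
  have h2 : u * L f * star u = u * (P * L f * P + f k₀ • (1 - P)) * star u := by
    rw [← hL f]
  rw [h2, mul_add, add_mul, mul_smul_comm, smul_mul_assoc]

theorem mono_Spt {k₀ : K} {P Q : A} {L : C(K, ℂ) → A} (hL : Spt k₀ P L) (h1 : Q * P = P)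
    (h2 : P * Q = P) (h3 : Q * Q = Q) : Spt k₀ Q L := by
  intro f
  have h4 := hL f
  have h5 : Q * L f * Q = P * L f * P + f k₀ • (Q - P) := by
    calc Q * L f * Q = Q * (P * L f * P + f k₀ • (1 - P)) * Q := by rw [← h4]
      _ = (Q * P) * L f * (P * Q) + f k₀ • (Q * (1 - P) * Q) := by
          rw [mul_add, add_mul, mul_smul_comm, smul_mul_assoc]
          simp only [mul_assoc]
      _ = P * L f * P + f k₀ • (Q - P) := by
          rw [h1, h2, mul_sub, mul_one, h1, sub_mul, h3, h2]
  rw [h5]
  have h6 : P * L f * P + f k₀ • (Q - P) + f k₀ • (1 - Q) =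
      P * L f * P + f k₀ • (1 - P) := by
    rw [add_assoc, ← smul_add]
    congr 2
    abel
  rw [h6]
  exact h4

/-- `star y * y = 0` implies `y = 0` -/
theorem zero_of {y : A} (h : star y * y = 0) : y = 0 := by
  have h1 : ‖star y * y‖ = ‖y‖ * ‖y‖ := CStarRing.norm_star_mul_self
  rw [h, norm_zero] at h1
  have h2 : ‖y‖ = 0 := by
    rcases mul_eq_zero.1 h1.symm with h3 | h3 <;> exact h3
  exact norm_eq_zero.1 h2

end

end TRN_

open TRN_ in
theorem p_TRN (hRCM : T_RCM) (hCNC : T_CNC) (hTSB : Pool.Agent.FPZ.T_TSB) : T_TRN := by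
  intro K A _ _ _ φ k₀ H δ F ε c₁ c₂ m₁ m₂ E E' E'' L L' L'' hR hE' hL' hc hC₁ hC₂
  obtain ⟨C₁, Γ₁, a₁, b₁, hp₁, ht₁, hA₁, hS₁, ha₁, hb₁, hE₁, hF₁, h0₁, hm₁⟩ := hC₁
  obtain ⟨C₂, Γ₂, a₂, b₂, hp₂, ht₂, hA₂, hS₂, ha₂, hb₂, hE₂, hF₂, h0₂, hm₂⟩ := hC₂
  obtain ⟨tb1, tb2, tb3, tb4, tb5⟩ := hTSB A φ hR.ts
  have tr := hR.ts.tr
  have eE : E' * E' = E' := hE'.isIdempotentElem
  have sE : star E' = E' := hE'.isSelfAdjoint
  have e1 : C₁ * C₁ = C₁ := hp₁.isIdempotentElem
  have s1 : star C₁ = C₁ := hp₁.isSelfAdjoint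
  have e2 : C₂ * C₂ = C₂ := hp₂.isIdempotentElem
  have s2 : star C₂ = C₂ := hp₂.isSelfAdjoint
  -- the two projections above `E'`
  have conjp : ∀ (u P : A), Uni u → IsStarProjection P → IsStarProjection (star u * P * u) ∧
      φ (star u * P * u) = φ P := by
    intro u P hu hP
    have h1 : star u * P * u * (star u * P * u) = star u * P * u := by
      calc star u * P * u * (star u * P * u) = star u * P * (u * star u) * P * u := by
            simp only [mul_assoc]
        _ = star u * (P * P) * u := by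
            rw [hu.2, mul_one]
            simp only [mul_assoc]
        _ = _ := by rw [hP.isIdempotentElem.eq]
    have h2 : star (star u * P * u) = star u * P * u := by
      rw [star_mul, star_mul, star_star, hP.isSelfAdjoint.star_eq, mul_assoc]
    refine ⟨⟨h1, h2⟩, ?_⟩
    rw [mul_assoc, tr, mul_assoc, hu.2, mul_one]
  set D₁ : A := star b₁ * C₁ * b₁ with hD₁
  set D₂ : A := star a₂ * C₂ * a₂ with hD₂
  obtain ⟨pD₁, tD₁⟩ := conjp b₁ C₁ hb₁ hp₁
  obtain ⟨pD₂, tD₂⟩ := conjp a₂ C₂ ha₂ hp₂
  rw [← hD₁] at pD₁ tD₁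
  rw [← hD₂] at pD₂ tD₂
  have dd1 : D₁ * D₁ = D₁ := pD₁.isIdempotentElem
  have ds1 : star D₁ = D₁ := pD₁.isSelfAdjoint
  have dd2 : D₂ * D₂ = D₂ := pD₂.isIdempotentElem
  have ds2 : star D₂ = D₂ := pD₂.isSelfAdjoint
  have d1E : D₁ * E' = E' := by
    calc D₁ * E' = star b₁ * (C₁ * (b₁ * E')) := by rw [hD₁]; simp only [mul_assoc]
      _ = star b₁ * b₁ * E' := by rw [hF₁, mul_assoc]
      _ = E' := by rw [hb₁.1, one_mul]
  have d2E : D₂ * E' = E' := by
    calc D₂ * E' = star a₂ * (C₂ * (a₂ * E')) := by rw [hD₂]; simp only [mul_assoc]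
      _ = star a₂ * a₂ * E' := by rw [hE₂, mul_assoc]
      _ = E' := by rw [ha₂.1, one_mul]
  have Ed1 : E' * D₁ = E' := by
    have := congrArg star d1E
    rwa [star_mul, ds1, sE] at this
  have Ed2 : E' * D₂ = E' := by
    have := congrArg star d2E
    rwa [star_mul, ds2, sE] at this
  -- comparison
  have pB : IsStarProjection (D₂ - E') := by
    refine ⟨?_, ?_⟩
    · show (D₂ - E') * (D₂ - E') = D₂ - E'
      rw [sub_mul, mul_sub, mul_sub, dd2, d2E, Ed2, eE]
      abel
    · show star (D₂ - E') = D₂ - E'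
      rw [star_sub, ds2, sE]
  have pG : IsStarProjection (1 - D₁) := pD₁.one_sub
  have tE := (tb1 E' hE').1
  have t1 : φ 1 = 1 := hR.ts.one
  have hlt : (φ (D₂ - E')).re < (φ (1 - D₁)).re := by
    rw [map_sub, map_sub, Complex.sub_re, Complex.sub_re, tD₁, tD₂, t1, Complex.one_re]
    linarith
  obtain ⟨x, hx1, hx2⟩ := hRCM A φ hR _ _ pB pG hlt
  have d1x : D₁ * x = 0 := by
    have h1 : (1 - D₁) * x = x - D₁ * x := by rw [sub_mul, one_mul]
    rw [h1] at hx2
    exact sub_eq_self.1 hx2
  have Ex : E' * x = 0 := by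
    rw [← Ed1, mul_assoc, d1x, mul_zero]
  have xsD : star x * D₁ = 0 := by
    have := congrArg star d1x
    rwa [star_mul, ds1, star_zero] at this
  have xsE : star x * E' = 0 := by
    have := congrArg star Ex
    rwa [star_mul, sE, star_zero] at this
  have xE : x * E' = 0 := by
    refine zero_of ?_
    calc star (x * E') * (x * E') = E' * (star x * x) * E' := by
          rw [star_mul, sE]
          simp only [mul_assoc]
      _ = 0 := by
          rw [hx1, mul_sub, Ed2, eE, sub_self, zero_mul]
  have Exs : E' * star x = 0 := by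
    have := congrArg star xE
    rwa [star_mul, sE, star_zero] at this
  have xxx : x * star x * x = x := by
    have h1 : x - x * star x * x = 0 := by
      refine zero_of ?_
      have h2 : star (x - x * star x * x) = star x - star x * x * star x := by
        rw [star_sub, star_mul, star_mul, star_star, ← mul_assoc]
      rw [h2]
      have h3 : (star x - star x * x * star x) * (x - x * star x * x) =
          star x * x - star x * x * (star x * x) - (star x * x * (star x * x) -
            star x * x * (star x * x) * (star x * x)) := by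
        noncomm_ring
      rw [h3, hx1]
      have h4 : (D₂ - E') * (D₂ - E') = D₂ - E' := pB.isIdempotentElem
      rw [h4, h4]
      abel
    rw [sub_eq_zero] at h1
    exact h1.symm
  obtain ⟨pX, tX⟩ := tb4 (D₂ - E') x pB hx1
  have XX : star (E' + x) * (E' + x) = D₂ := by
    rw [star_add, sE, add_mul, mul_add, mul_add, eE, Ex, xsE, hx1]
    abel
  obtain ⟨g, hg, hgX⟩ := hCNC A φ hR D₂ (E' + x) pD₂ XX
  have gE : g * E' = E' := by
    rw [← d2E, ← mul_assoc, hgX, add_mul, eE, xE, add_zero, d2E]
  have Egs : E' * star g = E' := by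
    have := congrArg star gE
    rwa [star_mul, sE] at this
  have gL : ∀ f, g * L' f * star g = L' f := by
    intro f
    have h1 := hL' f
    calc g * L' f * star g = g * (E' * L' f * E' + f k₀ • (1 - E')) * star g := by rw [← h1]
      _ = (g * E') * L' f * (E' * star g) + f k₀ • (g * star g - (g * E') * star g) := by
          rw [mul_add, add_mul, mul_smul_comm, smul_mul_assoc, mul_sub, sub_mul, mul_one]
          simp only [mul_assoc]
      _ = E' * L' f * E' + f k₀ • (1 - E') := by rw [gE, Egs, hg.2]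
      _ = L' f := h1.symm
  -- the projection
  set C : A := D₁ + x * star x with hCdef
  have CD : C * D₁ = D₁ := by
    rw [hCdef, add_mul, dd1, mul_assoc, xsD, mul_zero, add_zero]
  have DC : D₁ * C = D₁ := by
    rw [hCdef, mul_add, dd1, ← mul_assoc, d1x, zero_mul, add_zero]
  have CX : C * (E' + x) = E' + x := by
    rw [hCdef, add_mul, mul_add, mul_add, d1E, d1x, mul_assoc x, xsE, mul_zero, xxx]
    abel
  have pC : IsStarProjection C := by
    refine ⟨?_, ?_⟩
    · show C * C = C
      calc C * C = C * D₁ + C * (E' + x) * star x - C * (E' * star x) := by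
            rw [hCdef]
            noncomm_ring
        _ = C := by
            rw [CD, CX, Exs, mul_zero, add_mul, Exs]
            rw [hCdef]
            abel
    · show star C = C
      rw [hCdef, star_add, ds1, star_mul, star_star]
  have tC : (φ C).re < c₁ + c₂ := by
    rw [hCdef, map_add, Complex.add_re, tX, map_sub, Complex.sub_re, tD₁, tD₂]
    linarith
  -- the unitaries
  have hu₁ : Uni (star b₁) := uni_star hb₁
  have hu₂ : Uni (g * star a₂) := uni_mul hg (uni_star ha₂)
  have su₁ : star b₁ * C₁ * star (star b₁) = D₁ := by rw [star_star]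
  have su₂ : g * star a₂ * C₂ * star (g * star a₂) = (E' + x) * star (E' + x) := by
    calc g * star a₂ * C₂ * star (g * star a₂) = g * D₂ * star g := by
          rw [star_mul, star_star, hD₂]
          simp only [mul_assoc]
      _ = g * (D₂ * D₂) * star g := by rw [dd2]
      _ = g * D₂ * star (g * D₂) := by
          rw [star_mul, ds2]
          simp only [mul_assoc]
      _ = _ := by rw [hgX]
  set Γ : ℕ → C(K, ℂ) → A := fun i f => if i ≤ m₁ then star b₁ * Γ₁ i f * star (star b₁) else
    g * star a₂ * Γ₂ (i - m₁) f * star (g * star a₂) with hΓ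
  have G1 : ∀ i ≤ m₁, Γ i = fun f => star b₁ * Γ₁ i f * star (star b₁) := by
    intro i hi
    funext f
    simp only [hΓ, hi, if_true]
  have G2 : ∀ j, Γ (m₁ + j) = fun f => g * star a₂ * Γ₂ j f * star (g * star a₂) := by
    intro j
    funext f
    rcases Nat.eq_zero_or_pos j with hj | hj
    · rw [hj, add_zero, G1 m₁ le_rfl]
      show star b₁ * Γ₁ m₁ f * star (star b₁) = g * star a₂ * Γ₂ 0 f * star (g * star a₂)
      rw [hm₁ f, h0₂ f]
      have h1 : star b₁ * (b₁ * L' f * star b₁) * star (star b₁) = L' f := by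
        calc star b₁ * (b₁ * L' f * star b₁) * star (star b₁)
            = (star b₁ * b₁) * L' f * (star b₁ * b₁) := by
              rw [star_star]
              simp only [mul_assoc]
          _ = L' f := by rw [hb₁.1, one_mul, mul_one]
      have h2 : g * star a₂ * (a₂ * L' f * star a₂) * star (g * star a₂) = L' f := by
        calc g * star a₂ * (a₂ * L' f * star a₂) * star (g * star a₂)
            = g * ((star a₂ * a₂) * L' f * (star a₂ * a₂)) * star g := by
              rw [star_mul, star_star]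
              simp only [mul_assoc]
          _ = L' f := by rw [ha₂.1, one_mul, mul_one, gL]
      rw [h1, h2]
    · have h1 : ¬ (m₁ + j ≤ m₁) := by omega
      have h2 : m₁ + j - m₁ = j := by omega
      simp only [hΓ, h1, if_false, h2]
  refine ⟨C, Γ, star b₁ * a₁, g * star a₂ * b₂, pC, tC, ?_, ?_, uni_mul hu₁ ha₁,
    uni_mul hu₂ hb₂, ?_, ?_, ?_, ?_⟩
  · intro i hi
    rcases Nat.lt_or_ge m₁ i with h | h
    · obtain ⟨j, rfl⟩ : ∃ j, i = m₁ + j := ⟨i - m₁, by omega⟩
      rw [G2 j]
      obtain ⟨q1, q2⟩ := hA₂ j (by omega)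
      refine ⟨conj_AH q1 hu₂, ?_⟩
      have q3 := conj_Spt q2 hu₂
      rw [su₂] at q3
      refine mono_Spt q3 ?_ ?_ pC.isIdempotentElem
      · rw [← mul_assoc, CX]
      · have := congrArg star CX
        rw [star_mul, pC.isSelfAdjoint.star_eq] at this
        rw [mul_assoc, this]
    · rw [G1 i h]
      obtain ⟨q1, q2⟩ := hA₁ i h
      refine ⟨conj_AH q1 hu₁, ?_⟩
      have q3 := conj_Spt q2 hu₁
      rw [su₁] at q3
      exact mono_Spt q3 CD DC pC.isIdempotentElem
  · intro i hi f hf
    rcases Nat.lt_or_ge i m₁ with h | h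
    · rw [G1 i h.le, G1 (i + 1) h]
      show ‖star b₁ * Γ₁ i f * star (star b₁) - star b₁ * Γ₁ (i + 1) f * star (star b₁)‖ ≤ ε
      rw [← sub_mul, ← mul_sub]
      exact (norm_conj hu₁ _).trans (hS₁ i h f hf)
    · obtain ⟨j, rfl⟩ : ∃ j, i = m₁ + j := ⟨i - m₁, by omega⟩
      rw [add_assoc, G2 j, G2 (j + 1)]
      show ‖g * star a₂ * Γ₂ j f * star (g * star a₂) -
        g * star a₂ * Γ₂ (j + 1) f * star (g * star a₂)‖ ≤ ε
      rw [← sub_mul, ← mul_sub]
      exact (norm_conj hu₂ _).trans (hS₂ j (by omega) f hf)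
  · have h1 : star b₁ * a₁ * E = D₁ * (star b₁ * a₁ * E) := by
      calc star b₁ * a₁ * E = star b₁ * (C₁ * (a₁ * E)) := by rw [hE₁, mul_assoc]
        _ = star b₁ * C₁ * (b₁ * star b₁) * (a₁ * E) := by
            rw [hb₁.2, mul_one, mul_assoc]
        _ = D₁ * (star b₁ * a₁ * E) := by
            rw [hD₁]
            simp only [mul_assoc]
    rw [h1, ← mul_assoc C, CD]
  · have h1 : g * star a₂ * b₂ * E'' = (E' + x) * (star a₂ * b₂ * E'') := by
      calc g * star a₂ * b₂ * E'' = g * star a₂ * (C₂ * (b₂ * E'')) := by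
            rw [hF₂]
            simp only [mul_assoc]
        _ = g * (star a₂ * C₂ * (a₂ * star a₂)) * (b₂ * E'') := by
            rw [ha₂.2, mul_one]
            simp only [mul_assoc]
        _ = g * D₂ * (star a₂ * b₂ * E'') := by
            rw [hD₂]
            simp only [mul_assoc]
        _ = _ := by rw [hgX]
    rw [h1, ← mul_assoc C, CX]
  · intro f
    rw [G1 0 (Nat.zero_le _)]
    show star b₁ * Γ₁ 0 f * star (star b₁) = _
    rw [h0₁ f, star_mul]
    simp only [mul_assoc]
  · intro f
    rw [G2 m₂]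
    show g * star a₂ * Γ₂ m₂ f * star (g * star a₂) = _
    rw [hm₂ f, star_mul (g * star a₂) b₂]
    simp only [mul_assoc]

end Pool.Agent.FPS
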