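import Pool.Agent.FPS.Targets6

set_option autoImplicit false

/-!
# FPS: transfer of a finite family of orthogonal projections

If the orthogonal projections `P i` (with sum `1`) are close to the image of an isometric star
homomorphism `α : D → A`, then they are close to the images of orthogonal projections with sum `1`.
`P' i` is a bump function of a selfadjoint element `b` of `D` with `α b` close to `∑ (i + 1) P i`.
-/

open scoped Classical
open MeasureTheory Pool.Agent.FPZ

noncomputable section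

namespace Pool.Agent.FPS

namespace TRP_

/-- The bump function. -/
def bmp (c t : ℝ) : ℝ := max 0 (min 1 (3 / 2 - 2 * |t - c|))

theorem bmp_cont (c : ℝ) : Continuous (bmp c) := by
  unfold bmp
  fun_prop

theorem bmp_one {c t : ℝ} (h : |t - c| ≤ 1 / 4) : bmp c t = 1 := by
  unfold bmp
  rw [min_eq_left (by linarith), max_eq_right (by norm_num)]

theorem bmp_zero {c t : ℝ} (h : 3 / 4 ≤ |t - c|) : bmp c t = 0 := by
  unfold bmp
  rw [max_eq_left]
  refine (min_le_right _ _).trans (by linarith)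

variable {A : Type} [CStarAlgebra A]

theorem norm_proj_le {p : A} (hp : IsStarProjection p) : ‖p‖ ≤ 1 := hp.norm_le

/-- A family of orthogonal projections with sum `1`, weighted sums multiply. -/
theorem wsum_mul {n : ℕ} {P : Fin n → A} (hP : ∀ i, IsStarProjection (P i))
    (ho : ∀ i j, i ≠ j → P i * P j = 0) (a b : Fin n → ℂ) :
    (∑ i, a i • P i) * (∑ i, b i • P i) = ∑ i, (a i * b i) • P i := by
  rw [Finset.sum_mul]
  refine Finset.sum_congr rfl fun i _ => ?_
  rw [Finset.mul_sum, Finset.sum_eq_single i]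
  · rw [smul_mul_smul_comm, (hP i).isIdempotentElem]
  · intro j _ hj
    rw [smul_mul_smul_comm, ho i j hj.symm, smul_zero]
  · intro h
    exact absurd (Finset.mem_univ i) h

/-- The spectrum of `y` near a diagonal element. -/
theorem spec_near {n : ℕ} {P : Fin n → A} (hP : ∀ i, IsStarProjection (P i))
    (ho : ∀ i j, i ≠ j → P i * P j = 0) (h1 : ∑ i, P i = 1) (c : Fin n → ℝ) (y : A) (r η : ℝ)
    (hr : 0 < r) (hy : ‖(∑ i, (c i : ℂ) • P i) - y‖ ≤ η) (hη : (n : ℝ) * η < r) (t : ℝ)
    (ht : t ∈ spectrum ℝ y) : ∃ i, |t - c i| ≤ r := by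
  by_contra hcon
  push Not at hcon
  apply ht
  set x : A := ∑ i, (c i : ℂ) • P i with hx
  set R : A := ∑ i, (((t - c i)⁻¹ : ℝ) : ℂ) • P i with hR
  have hne : ∀ i, ((t - c i : ℝ) : ℂ) ≠ 0 := by
    intro i h0
    have h2 : t - c i = 0 := by exact_mod_cast h0
    have h3 := hcon i
    rw [h2] at h3
    simp at h3
    linarith
  have htx : algebraMap ℝ A t - x = ∑ i, ((t - c i : ℝ) : ℂ) • P i := by
    have h2 : algebraMap ℝ A t = ∑ i, (t : ℂ) • P i := by
      rw [← Finset.smul_sum, h1]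
      rw [Algebra.algebraMap_eq_smul_one]
      simp
    rw [h2, hx, ← Finset.sum_sub_distrib]
    refine Finset.sum_congr rfl fun i _ => ?_
    rw [← sub_smul]
    push_cast
    rfl
  have hRl : (algebraMap ℝ A t - x) * R = 1 := by
    rw [htx, hR, wsum_mul hP ho, ← h1]
    refine Finset.sum_congr rfl fun i _ => ?_
    rw [← Complex.ofReal_mul, mul_inv_cancel₀ (by exact_mod_cast hne i)]
    simp
  have hRr : R * (algebraMap ℝ A t - x) = 1 := by
    rw [htx, hR, wsum_mul hP ho, ← h1]
    refine Finset.sum_congr rfl fun i _ => ?_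
    rw [← Complex.ofReal_mul, inv_mul_cancel₀ (by exact_mod_cast hne i)]
    simp
  have hRn : ‖R‖ ≤ (n : ℝ) * r⁻¹ := by
    refine (norm_sum_le _ _).trans ?_
    have h2 : ∀ i ∈ (Finset.univ : Finset (Fin n)), ‖(((t - c i)⁻¹ : ℝ) : ℂ) • P i‖ ≤ r⁻¹ := by
      intro i _
      rw [norm_smul]
      have h3 : ‖(((t - c i)⁻¹ : ℝ) : ℂ)‖ ≤ r⁻¹ := by
        rw [Complex.norm_real, norm_inv, Real.norm_eq_abs]
        exact inv_anti₀ hr (hcon i).le
      calc _ ≤ r⁻¹ * 1 := mul_le_mul h3 (norm_proj_le (hP i)) (norm_nonneg _) (by positivity)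
        _ = r⁻¹ := mul_one _
    refine (Finset.sum_le_card_nsmul _ _ _ h2).trans ?_
    simp
  have hlt : ‖R * (y - x)‖ < 1 := by
    have h2 : ‖y - x‖ ≤ η := by rwa [norm_sub_rev]
    have hη0 : 0 ≤ η := (norm_nonneg _).trans h2
    calc ‖R * (y - x)‖ ≤ ‖R‖ * ‖y - x‖ := norm_mul_le _ _
      _ ≤ ((n : ℝ) * r⁻¹) * η := mul_le_mul hRn h2 (norm_nonneg _) (by positivity)
      _ = ((n : ℝ) * η) / r := by rw [div_eq_mul_inv]; ring
      _ < 1 := by rwa [div_lt_one hr]
  have hu : IsUnit (1 - R * (y - x)) := isUnit_one_sub_of_norm_lt_one hlt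
  have hux : IsUnit (algebraMap ℝ A t - x) := ⟨⟨_, R, hRl, hRr⟩, rfl⟩
  have he : algebraMap ℝ A t - y = (algebraMap ℝ A t - x) * (1 - R * (y - x)) := by
    rw [mul_sub, mul_one, ← mul_assoc, hRl, one_mul]
    abel
  rw [spectrum.mem_resolventSet_iff, he]
  exact hux.mul hu

/-- The conclusions for `q i = cfc (bmp (c i)) y`. -/
theorem core {n : ℕ} {P : Fin n → A} (hP : ∀ i, IsStarProjection (P i))
    (ho : ∀ i j, i ≠ j → P i * P j = 0) (h1 : ∑ i, P i = 1) (c : Fin n → ℝ)
    (hc : ∀ i j, i ≠ j → 1 ≤ |c i - c j|) (y : A) (hys : IsSelfAdjoint y) (r η : ℝ)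
    (hr : 0 < r) (hr4 : r ≤ 1 / 4) (hy : ‖(∑ i, (c i : ℂ) • P i) - y‖ ≤ η)
    (hη : (n : ℝ) * η < r) (hηr : η ≤ r) :
    (∀ i, IsStarProjection (cfc (bmp (c i)) y)) ∧
    (∀ i j, i ≠ j → cfc (bmp (c i)) y * cfc (bmp (c j)) y = 0) ∧
    ∑ i, cfc (bmp (c i)) y = 1 ∧ ∀ i, ‖P i - cfc (bmp (c i)) y‖ ≤ 4 * n * r := by
  have hsp := spec_near hP ho h1 c y r η hr hy hη
  have hcont : ∀ i, ContinuousOn (bmp (c i)) (spectrum ℝ y) := fun i => (bmp_cont _).continuousOn
  have hval : ∀ t ∈ spectrum ℝ y, ∃ i, |t - c i| ≤ r ∧ bmp (c i) t = 1 ∧ ∀ j, j ≠ i → bmp (c j) t = 0 := by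
    intro t ht
    obtain ⟨i, hi⟩ := hsp t ht
    refine ⟨i, hi, bmp_one (hi.trans hr4), fun j hj => bmp_zero ?_⟩
    have h2 := hc i j hj.symm
    have h3 : |c i - c j| ≤ |t - c i| + |t - c j| := by
      have h4 : c i - c j = (t - c j) - (t - c i) := by ring
      rw [h4]
      refine (abs_sub _ _).trans ?_
      linarith
    linarith
  have hproj : ∀ i, IsStarProjection (cfc (bmp (c i)) y) := by
    intro i
    refine ⟨?_, ?_⟩
    · change cfc (bmp (c i)) y * cfc (bmp (c i)) y = cfc (bmp (c i)) y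
      rw [← cfc_mul (bmp (c i)) (bmp (c i)) y (hcont i) (hcont i)]
      refine cfc_congr fun t ht => ?_
      obtain ⟨i', -, h2, h3⟩ := hval t ht
      by_cases hii : i = i'
      · subst hii
        simp [h2]
      · simp [h3 i hii]
    · exact cfc_predicate _ _
  have horth : ∀ i j, i ≠ j → cfc (bmp (c i)) y * cfc (bmp (c j)) y = 0 := by
    intro i j hij
    rw [← cfc_mul (bmp (c i)) (bmp (c j)) y (hcont i) (hcont j)]
    have h5 : (spectrum ℝ y).EqOn (fun t => bmp (c i) t * bmp (c j) t) (fun _ => 0) := by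
      intro t ht
      obtain ⟨i', -, h2, h3⟩ := hval t ht
      by_cases hii : i = i'
      · subst hii
        simp [h3 j hij.symm]
      · simp [h3 i hii]
    rw [cfc_congr h5]
    exact cfc_const_zero ℝ y
  have hsum : ∑ i, cfc (bmp (c i)) y = 1 := by
    rw [← cfc_sum_univ (fun i => bmp (c i)) y (fun i => hcont i)]
    have h5 : (spectrum ℝ y).EqOn (∑ i, fun t => bmp (c i) t) (fun _ => 1) := by
      intro t ht
      obtain ⟨i', -, h2, h3⟩ := hval t ht
      rw [Finset.sum_apply, Finset.sum_eq_single i']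
      · exact h2
      · intro j _ hj
        exact h3 j hj
      · intro h
        exact absurd (Finset.mem_univ i') h
    rw [cfc_congr h5]
    exact cfc_const_one ℝ y
  refine ⟨hproj, horth, hsum, ?_⟩
  set q : Fin n → A := fun i => cfc (bmp (c i)) y with hq
  set x : A := ∑ i, (c i : ℂ) • P i with hx
  have hPx : ∀ j, P j * x = (c j : ℂ) • P j := by
    intro j
    rw [hx, Finset.mul_sum, Finset.sum_eq_single j]
    · rw [mul_smul_comm, (hP j).isIdempotentElem]
    · intro i _ hi
      rw [mul_smul_comm, ho j i hi.symm, smul_zero]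
    · intro h
      exact absurd (Finset.mem_univ j) h
  have he : ∀ i, ‖y * q i - (c i : ℂ) • q i‖ ≤ r := by
    intro i
    have h5 : y * q i - (c i : ℂ) • q i = cfc (fun t => (t - c i) * bmp (c i) t) y := by
      rw [cfc_mul (fun t => t - c i) (bmp (c i)) y (by fun_prop) (hcont i)]
      rw [cfc_sub (fun t : ℝ => t) (fun _ => c i) y (by fun_prop) (by fun_prop)]
      rw [cfc_id' ℝ y, cfc_const (c i) y]
      rw [sub_mul, Algebra.algebraMap_eq_smul_one, smul_mul_assoc, one_mul]
      congr 1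
    rw [h5]
    refine norm_cfc_le hr.le fun t ht => ?_
    obtain ⟨i', h6, h2, h3⟩ := hval t ht
    by_cases hii : i = i'
    · subst hii
      rw [h2, mul_one, Real.norm_eq_abs]
      exact h6
    · rw [h3 i hii]
      simpa using hr.le
  have hqn : ∀ i, ‖q i‖ ≤ 1 := fun i => norm_proj_le (hproj i)
  have hPn : ∀ i, ‖P i‖ ≤ 1 := fun i => norm_proj_le (hP i)
  have hcross : ∀ i j, i ≠ j → ‖P j * q i‖ ≤ 2 * r := by
    intro i j hij
    have h5 : ((c j : ℂ) - c i) • (P j * q i) = P j * (x - y) * q i + P j * (y * q i - (c i : ℂ) • q i) := by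
      have h6 : P j * (x - y) * q i = (c j : ℂ) • (P j * q i) - P j * (y * q i) := by
        rw [mul_sub, hPx j, sub_mul, smul_mul_assoc, mul_assoc]
      rw [h6, mul_sub, mul_smul_comm, sub_smul]
      abel
    have h6 : ‖((c j : ℂ) - c i) • (P j * q i)‖ ≤ 2 * r := by
      rw [h5]
      refine (norm_add_le _ _).trans ?_
      have h7 : ‖P j * (x - y) * q i‖ ≤ η := by
        calc ‖P j * (x - y) * q i‖ ≤ ‖P j * (x - y)‖ * ‖q i‖ := norm_mul_le _ _
          _ ≤ (‖P j‖ * ‖x - y‖) * ‖q i‖ := by gcongr; exact norm_mul_le _ _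
          _ ≤ (1 * η) * 1 := by
              gcongr
              · exact mul_nonneg zero_le_one ((norm_nonneg _).trans hy)
              · exact hPn j
              · exact hqn i
          _ = η := by ring
      have h8 : ‖P j * (y * q i - (c i : ℂ) • q i)‖ ≤ r := by
        calc _ ≤ ‖P j‖ * ‖y * q i - (c i : ℂ) • q i‖ := norm_mul_le _ _
          _ ≤ 1 * r := mul_le_mul (hPn j) (he i) (norm_nonneg _) zero_le_one
          _ = r := one_mul r
      linarith
    rw [norm_smul] at h6
    have h9 : (1 : ℝ) ≤ ‖(c j : ℂ) - c i‖ := by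
      rw [← Complex.ofReal_sub, Complex.norm_real, Real.norm_eq_abs]
      exact hc j i hij.symm
    nlinarith [norm_nonneg (P j * q i)]
  intro i
  have h5 : P i - q i = (∑ j ∈ Finset.univ.erase i, P i * q j) - ∑ j ∈ Finset.univ.erase i, P j * q i := by
    have h6 : P i * (∑ j, q j) = P i * q i + ∑ j ∈ Finset.univ.erase i, P i * q j := by
      rw [Finset.mul_sum, ← Finset.add_sum_erase _ _ (Finset.mem_univ i)]
    have h7 : (∑ j, P j) * q i = P i * q i + ∑ j ∈ Finset.univ.erase i, P j * q i := by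
      rw [Finset.sum_mul, ← Finset.add_sum_erase _ _ (Finset.mem_univ i)]
    have h8 : ∑ j, q j = 1 := hsum
    rw [h8, mul_one] at h6
    rw [h1, one_mul] at h7
    nth_rewrite 1 [h6]
    nth_rewrite 2 [h7]
    abel
  change ‖P i - q i‖ ≤ _
  rw [h5]
  refine (norm_sub_le _ _).trans ?_
  have hcard : ((Finset.univ.erase i).card : ℝ) ≤ n := by
    have h9 : (Finset.univ.erase i).card ≤ (Finset.univ : Finset (Fin n)).card := Finset.card_le_card (Finset.erase_subset _ _)
    rw [Finset.card_univ, Fintype.card_fin] at h9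
    exact_mod_cast h9
  have hb1 : ‖∑ j ∈ Finset.univ.erase i, P i * q j‖ ≤ n * (2 * r) := by
    refine (norm_sum_le _ _).trans ?_
    refine (Finset.sum_le_card_nsmul _ _ (2 * r) fun j hj => ?_).trans ?_
    · exact hcross j i (Finset.ne_of_mem_erase hj)
    · rw [nsmul_eq_mul]
      exact mul_le_mul_of_nonneg_right hcard (by positivity)
  have hb2 : ‖∑ j ∈ Finset.univ.erase i, P j * q i‖ ≤ n * (2 * r) := by
    refine (norm_sum_le _ _).trans ?_
    refine (Finset.sum_le_card_nsmul _ _ (2 * r) fun j hj => ?_).trans ?_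
    · exact hcross i j (Finset.ne_of_mem_erase hj).symm
    · rw [nsmul_eq_mul]
      exact mul_le_mul_of_nonneg_right hcard (by positivity)
  linarith

end TRP_

open TRP_ in
theorem p_TRP : T_TRP := by
  intro n ε hε
  set r : ℝ := min (1 / 4) (ε / (4 * (n + 1))) with hr
  have hr0 : 0 < r := lt_min (by norm_num) (by positivity)
  have hr4 : r ≤ 1 / 4 := min_le_left _ _
  have hre : 4 * n * r ≤ ε := by
    have h2 : r ≤ ε / (4 * (n + 1)) := min_le_right _ _
    have h3 : r * (4 * (n + 1)) ≤ ε := by rwa [le_div_iff₀ (by positivity)] at h2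
    nlinarith
  refine ⟨r / (2 * (n + 1) ^ 3), by positivity, ?_⟩
  intro A D _ _ α P hα hP ho h1 hd
  choose d hd using hd
  set δ : ℝ := r / (2 * (n + 1) ^ 3) with hδ
  have hδ0 : 0 < δ := by positivity
  set c : Fin n → ℝ := fun i => (i : ℝ) + 1 with hc
  set η : ℝ := n * (n * δ) with hη
  have hinj : Function.Injective α := hα.injective
  -- selfadjoint approximations
  set e : Fin n → D := fun i => (1 / 2 : ℂ) • (d i + star (d i)) with he
  have hes : ∀ i, IsSelfAdjoint (e i) := by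
    intro i
    rw [isSelfAdjoint_iff, he]
    simp only [star_smul, star_add, star_star]
    rw [add_comm (star (d i))]
    congr 1
    simp
  have hen : ∀ i, ‖P i - α (e i)‖ ≤ δ := by
    intro i
    have h2 : P i - α (e i) = (1 / 2 : ℂ) • ((P i - α (d i)) + star (P i - α (d i))) := by
      rw [he]
      simp only [map_smul, map_add, map_star, star_sub, (hP i).isSelfAdjoint.star_eq]
      rw [show P i - α (d i) + (P i - star (α (d i))) = (2 : ℂ) • P i - (α (d i) + star (α (d i))) by
        rw [two_smul]; abel]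
      rw [smul_sub, smul_smul]
      norm_num
    rw [h2, norm_smul]
    have h3 : ‖P i - α (d i) + star (P i - α (d i))‖ ≤ 2 * δ := by
      refine (norm_add_le _ _).trans ?_
      rw [norm_star]
      linarith [hd i]
    have h4 : ‖(1 / 2 : ℂ)‖ = 1 / 2 := by simp
    rw [h4]
    linarith
  set b : D := ∑ i, (c i : ℂ) • e i with hb
  have hbs : IsSelfAdjoint b := by
    rw [isSelfAdjoint_iff, hb, star_sum]
    refine Finset.sum_congr rfl fun i _ => ?_
    rw [star_smul, (hes i).star_eq]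
    congr 1
    simp
  have hys : IsSelfAdjoint (α b) := hbs.map α
  have hxy : ‖(∑ i, (c i : ℂ) • P i) - α b‖ ≤ η := by
    have h2 : (∑ i, (c i : ℂ) • P i) - α b = ∑ i, (c i : ℂ) • (P i - α (e i)) := by
      rw [hb, map_sum, ← Finset.sum_sub_distrib]
      refine Finset.sum_congr rfl fun i _ => ?_
      rw [map_smul, smul_sub]
    rw [h2]
    refine (norm_sum_le _ _).trans ?_
    refine (Finset.sum_le_card_nsmul _ _ (n * δ) fun i _ => ?_).trans ?_
    · rw [norm_smul, Complex.norm_real, Real.norm_eq_abs]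
      have h3 : |c i| ≤ n := by
        rw [abs_of_nonneg (by positivity)]
        have h4 : (i : ℕ) + 1 ≤ n := i.isLt
        change ((i : ℕ) : ℝ) + 1 ≤ n
        exact_mod_cast h4
      exact mul_le_mul h3 (hen i) (norm_nonneg _) (by positivity)
    · rw [nsmul_eq_mul, Finset.card_univ, Fintype.card_fin]
  have hn0 : (0 : ℝ) ≤ n := Nat.cast_nonneg n
  have hδr : δ * (2 * (n + 1) ^ 3) = r := by
    rw [hδ]
    field_simp
  have hη1 : (n : ℝ) * η < r := by
    rw [← hδr, hη]
    have h2 : (n : ℝ) * (n * (n * δ)) = δ * n ^ 3 := by ring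
    rw [h2]
    refine mul_lt_mul_of_pos_left ?_ hδ0
    nlinarith [pow_nonneg hn0 3, pow_nonneg hn0 2]
  have hη2 : η ≤ r := by
    rw [← hδr, hη]
    have h2 : (n : ℝ) * (n * δ) = δ * n ^ 2 := by ring
    rw [h2]
    refine mul_le_mul_of_nonneg_left ?_ hδ0.le
    nlinarith [pow_nonneg hn0 3, pow_nonneg hn0 2]
  have hcc : ∀ i j : Fin n, i ≠ j → 1 ≤ |c i - c j| := by
    intro i j hij
    have h2 : c i - c j = (((i : ℤ) - (j : ℤ) : ℤ) : ℝ) := by
      change ((i : ℕ) : ℝ) + 1 - (((j : ℕ) : ℝ) + 1) = _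
      push_cast
      ring
    rw [h2, ← Int.cast_abs]
    have h3 : ((i : ℤ) - (j : ℤ)) ≠ 0 := by
      intro h4
      apply hij
      ext
      omega
    exact_mod_cast Int.one_le_abs h3
  obtain ⟨k1, k2, k3, k4⟩ := core hP ho h1 c hcc (α b) hys r η hr0 hr4 hxy hη1 hη2
  have hmap : ∀ i, α (cfc (bmp (c i)) b) = cfc (bmp (c i)) (α b) := fun i =>
    StarAlgHom.map_cfc α (bmp (c i)) b (bmp_cont _).continuousOn hα.continuous hbs hys
  refine ⟨fun i => cfc (bmp (c i)) b, ?_, ?_, ?_, ?_⟩
  · intro i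
    refine ⟨?_, cfc_predicate _ _⟩
    apply hinj
    change α (cfc (bmp (c i)) b * cfc (bmp (c i)) b) = _
    rw [map_mul, hmap]
    exact (k1 i).isIdempotentElem
  · intro i j hij
    apply hinj
    rw [map_mul, hmap, hmap, k2 i j hij, map_zero]
  · apply hinj
    rw [map_sum, map_one, ← k3]
    exact Finset.sum_congr rfl fun i _ => hmap i
  · intro i
    rw [hmap]
    exact (k4 i).trans hre

end Pool.Agent.FPS
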