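import Pool.Agent.FPZ.Targets2

set_option autoImplicit false

open Pool.Agent.FPZ

namespace Pool.Agent.FPS

theorem p_UAP (h_PLE : T_PLE) : T_UAP := by
  intro A _ w δ h1 h2 hδ
  have hδ0 : 0 ≤ δ := (norm_nonneg _).trans h1
  obtain ⟨x, hx, -, hx2, -⟩ := h_PLE A 1 w δ (.one A) (by simp) h1 hδ
  have hw1 : IsUnit (star w * w) := by
    have := isUnit_one_sub_of_norm_lt_one (x := 1 - star w * w) (by rw [← norm_neg, neg_sub]; linarith)
    simpa using this
  have hw2 : IsUnit (w * star w) := by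
    have := isUnit_one_sub_of_norm_lt_one (x := 1 - w * star w) (by rw [← norm_neg, neg_sub]; linarith)
    simpa using this
  have hxu : IsUnit x := by
    have := isUnit_one_sub_of_norm_lt_one (x := 1 - x) (by rw [← norm_neg, neg_sub]; linarith)
    simpa using this
  have hwr : ∃ b, w * b = 1 := by
    obtain ⟨u, hu⟩ := hw2
    exact ⟨star w * ↑u⁻¹, by rw [← mul_assoc, ← hu, Units.mul_inv]⟩
  obtain ⟨b, hb⟩ := hwr
  obtain ⟨xu, hxu⟩ := hxu
  have hr : (w * x) * (↑xu⁻¹ * b) = 1 := by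
    rw [mul_assoc, ← mul_assoc x, ← hxu, Units.mul_inv, one_mul, hb]
  have hinv : star (w * x) = ↑xu⁻¹ * b := by
    calc star (w * x) = star (w * x) * ((w * x) * (↑xu⁻¹ * b)) := by rw [hr, mul_one]
      _ = (star (w * x) * (w * x)) * (↑xu⁻¹ * b) := (mul_assoc _ _ _).symm
      _ = ↑xu⁻¹ * b := by rw [hx2, one_mul]
  refine ⟨w * x, hx2, by rw [hinv, hr], ?_⟩
  have hwn : ‖w‖ ≤ 2 := by
    have h3 : ‖w‖ * ‖w‖ ≤ 1 + δ := by
      rw [← CStarRing.norm_star_mul_self]
      calc ‖star w * w‖ = ‖1 + (star w * w - 1)‖ := by congr 1; abel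
        _ ≤ ‖(1 : A)‖ + ‖star w * w - 1‖ := norm_add_le _ _
        _ ≤ 1 + δ := by
          have : ‖(1 : A)‖ ≤ 1 := by
            rcases subsingleton_or_nontrivial A with hs | hs
            · rw [Subsingleton.elim (1 : A) 0]; simp
            · rw [CStarRing.norm_one]
          linarith
    nlinarith [norm_nonneg w]
  calc ‖w * x - w‖ = ‖w * (x - 1)‖ := by rw [mul_sub, mul_one]
    _ ≤ ‖w‖ * ‖x - 1‖ := norm_mul_le _ _
    _ ≤ 2 * (2 * δ) := by gcongr
    _ = 4 * δ := by ring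

end Pool.Agent.FPS
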