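import Pool.Agent.FPS.Targets1
import Pool.Agent.FPS.Targets3

set_option autoImplicit false

/-!
# FPS: matched uniqueness (target T_UNM)
-/

open scoped Classical
open MeasureTheory Pool.Agent.FPZ

noncomputable section

namespace Pool.Agent.FPS

namespace UNM_

variable {A : Type} [CStarAlgebra A]

theorem uni_mul {u v : A} (hu : Uni u) (hv : Uni v) : Uni (u * v) := by
  constructor
  · calc star (u * v) * (u * v) = star v * (star u * u) * v := by rw [star_mul]; noncomm_ring
      _ = 1 := by rw [hu.1, mul_one, hv.1]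
  · calc (u * v) * star (u * v) = u * (v * star v) * star u := by rw [star_mul]; noncomm_ring
      _ = 1 := by rw [hv.2, mul_one, hu.2]

theorem uni_star {u : A} (hu : Uni u) : Uni (star u) := by
  refine ⟨?_, ?_⟩
  · rw [star_star]; exact hu.2
  · rw [star_star]; exact hu.1

theorem norm_conj {g : A} (hg : Uni g) (X : A) : ‖g * X * star g‖ = ‖X‖ := by
  have hu : g ∈ unitary A := Unitary.mem_iff.2 hg
  rw [CStarRing.norm_mul_mem_unitary _ (Unitary.star_mem hu), CStarRing.norm_mem_unitary_mul _ hu]

theorem proj_mul {w P : A} (hP : IsStarProjection P) (hw : star w * w = P) : w * P = w := by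
  have h1 : P * P = P := hP.isIdempotentElem
  have h2 : star P = P := hP.isSelfAdjoint
  have h3 : star (w * P - w) * (w * P - w) = 0 := by
    calc star (w * P - w) * (w * P - w) =
        star P * (star w * w) * P - star P * (star w * w) - (star w * w) * P + star w * w := by
          rw [star_sub, star_mul]; noncomm_ring
      _ = 0 := by rw [hw, h2, h1, h1]; noncomm_ring
  have h4 := (CStarRing.star_mul_self_eq_zero_iff _).1 h3
  exact sub_eq_zero.1 h4

/-- conjugation with a unitary keeps almost homomorphisms -/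
theorem conj_AH {K : Type} [TopologicalSpace K] [CompactSpace K] {H : Finset C(K, ℂ)} {δ : ℝ}
    {L : C(K, ℂ) → A} {g : A} (hg : Uni g) (h : AH H δ L) :
    AH H δ (fun f => g * L f * star g) where
  add f f' := by simp only [h.add]; noncomm_ring
  smul c f := by simp only [h.smul, mul_smul_comm, smul_mul_assoc]
  one := by simp only [h.one, mul_one, hg.2]
  str f := by simp only [h.str, star_mul, star_star, mul_assoc]
  pos f := by
    obtain ⟨b, hb⟩ := h.pos f
    refine ⟨b * star g, ?_⟩
    simp only [hb, star_mul, star_star, mul_assoc]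
  mul f hf f' hf' := by
    have h1 : g * L (f * f') * star g - g * L f * star g * (g * L f' * star g) =
        g * (L (f * f') - L f * L f') * star g := by
      calc g * L (f * f') * star g - g * L f * star g * (g * L f' * star g)
          = g * L (f * f') * star g - g * L f * (star g * g) * L f' * star g := by noncomm_ring
        _ = g * (L (f * f') - L f * L f') * star g := by rw [hg.1]; noncomm_ring
    simp only [h1, norm_conj hg]
    exact h.mul f hf f' hf'

/-- conjugation and supports -/
theorem conj_spt {K : Type} [TopologicalSpace K] {k₀ : K} {L : C(K, ℂ) → A} {g C₀ C : A}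
    (hC₀ : IsStarProjection C₀) (hC : IsStarProjection C) (hg : Uni g)
    (h : C * (g * C₀) = g * C₀) (hs : Spt k₀ C₀ L) : Spt k₀ C (fun f => g * L f * star g) := by
  intro f
  have e1 : C₀ * C₀ = C₀ := hC₀.isIdempotentElem
  have e2 : star C₀ = C₀ := hC₀.isSelfAdjoint
  have e4 : star C = C := hC.isSelfAdjoint
  have h' : C₀ * star g * C = C₀ * star g := by
    have := congrArg star h
    simpa only [star_mul, e2, e4, mul_assoc] using this
  have hL := hs f
  have h5 : g * L f * star g = g * C₀ * L f * (C₀ * star g) +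
      f k₀ • (1 - g * C₀ * (C₀ * star g)) := by
    calc g * L f * star g = g * (C₀ * L f * C₀ + f k₀ • (1 - C₀)) * star g := by rw [← hL]
      _ = g * C₀ * L f * (C₀ * star g) + f k₀ • (g * star g - g * C₀ * star g) := by
          simp only [mul_add, add_mul, mul_sub, sub_mul, mul_smul_comm, smul_mul_assoc, mul_one,
            mul_assoc]
      _ = g * C₀ * L f * (C₀ * star g) + f k₀ • (1 - g * C₀ * (C₀ * star g)) := by
          rw [hg.2]
          congr 3
          calc g * C₀ * star g = g * (C₀ * C₀) * star g := by rw [e1]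
            _ = g * C₀ * (C₀ * star g) := by noncomm_ring
  have h6 : C * (g * L f * star g) * C = g * C₀ * L f * (C₀ * star g) +
      f k₀ • (C * C - g * C₀ * (C₀ * star g)) := by
    rw [h5]
    calc C * (g * C₀ * L f * (C₀ * star g) + f k₀ • (1 - g * C₀ * (C₀ * star g))) * C
        = (C * (g * C₀)) * L f * (C₀ * star g * C) +
          f k₀ • (C * C - (C * (g * C₀)) * (C₀ * star g * C)) := by
          simp only [mul_add, add_mul, mul_sub, sub_mul, mul_smul_comm, smul_mul_assoc, mul_one,
            mul_assoc]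
      _ = _ := by rw [h, h']
  have e3 : C * C = C := hC.isIdempotentElem
  show g * L f * star g = C * (g * L f * star g) * C + f k₀ • (1 - C)
  rw [h6, e3, h5, add_assoc, ← smul_add]
  congr 2
  noncomm_ring

section Slots

variable {S : Type} {p : A} {v : S → A}

theorem q_proj (hp : IsStarProjection p) (hv : PI p v) (s : S) :
    IsStarProjection (v s * star (v s)) := by
  refine ⟨?_, ?_⟩
  · show v s * star (v s) * (v s * star (v s)) = v s * star (v s)
    calc v s * star (v s) * (v s * star (v s)) = v s * (star (v s) * v s) * star (v s) := by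
          noncomm_ring
      _ = v s * star (v s) := by rw [hv.1, proj_mul hp (hv.1 s)]
  · show star (v s * star (v s)) = v s * star (v s)
    rw [star_mul, star_star]

theorem q_orth (hv : PI p v) {s t : S} (h : s ≠ t) :
    v s * star (v s) * (v t * star (v t)) = 0 := by
  calc v s * star (v s) * (v t * star (v t)) = v s * (star (v s) * v t) * star (v t) := by
        noncomm_ring
    _ = 0 := by rw [hv.2 s t h]; noncomm_ring

theorem sum_mul_v (hp : IsStarProjection p) (hv : PI p v) {U : Finset S} {s : S} (hs : s ∈ U) :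
    (∑ t ∈ U, v t * star (v t)) * v s = v s := by
  rw [Finset.sum_mul, Finset.sum_eq_single_of_mem s hs]
  · rw [mul_assoc, hv.1, proj_mul hp (hv.1 s)]
  · intro t _ ht
    rw [mul_assoc, hv.2 t s ht, mul_zero]

theorem sum_proj (hp : IsStarProjection p) (hv : PI p v) (U : Finset S) :
    IsStarProjection (∑ t ∈ U, v t * star (v t)) := by
  refine ⟨?_, ?_⟩
  · show (∑ t ∈ U, v t * star (v t)) * (∑ t ∈ U, v t * star (v t)) = ∑ t ∈ U, v t * star (v t)
    conv_lhs => rw [Finset.mul_sum]
    refine Finset.sum_congr rfl fun s hs => ?_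
    rw [← mul_assoc, sum_mul_v hp hv hs]
  · show star (∑ t ∈ U, v t * star (v t)) = ∑ t ∈ U, v t * star (v t)
    rw [star_sum]
    exact Finset.sum_congr rfl fun s _ => by rw [star_mul, star_star]

theorem compl_proj {P : A} (hP : IsStarProjection P) : IsStarProjection (1 - P) := by
  have h1 : P * P = P := hP.isIdempotentElem
  have h2 : star P = P := hP.isSelfAdjoint
  refine ⟨?_, ?_⟩
  · show (1 - P) * (1 - P) = 1 - P
    calc (1 - P) * (1 - P) = 1 - P - P + P * P := by noncomm_ring
      _ = 1 - P := by rw [h1]; noncomm_ring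
  · show star (1 - P) = 1 - P
    rw [star_sub, star_one, h2]

/-- `1 - ∑ q` kills the slots -/
theorem C_mul_v [Fintype S] (hp : IsStarProjection p) (hv : PI p v) (s : S) :
    (1 - ∑ t, v t * star (v t)) * v s = 0 := by
  rw [sub_mul, one_mul, sum_mul_v hp hv (Finset.mem_univ s), sub_self]

theorem v_mul_C [Fintype S] (hp : IsStarProjection p) (hv : PI p v) (s : S) :
    star (v s) * (1 - ∑ t, v t * star (v t)) = 0 := by
  have h1 := congrArg star (C_mul_v hp hv s)
  have h2 : star (1 - ∑ t, v t * star (v t)) = 1 - ∑ t, v t * star (v t) :=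
    (compl_proj (sum_proj hp hv Finset.univ)).isSelfAdjoint
  rw [star_mul, h2, star_zero] at h1
  exact h1

theorem tr_q {φ : A →L[ℂ] ℂ} (hφ : TS φ) (hv : PI p v) (s : S) :
    φ (v s * star (v s)) = φ p := by
  rw [hφ.tr, hv.1]

/-- a projection orthogonal to the slots -/
theorem C_mul_E [Fintype S] {E : A} (h : ∀ s, star (v s) * E = 0) :
    (1 - ∑ t, v t * star (v t)) * E = E := by
  rw [sub_mul, one_mul, Finset.sum_mul]
  have : ∑ t, v t * star (v t) * E = 0 :=
    Finset.sum_eq_zero fun t _ => by rw [mul_assoc, h, mul_zero]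
  rw [this, sub_zero]

end Slots

/-- normal forms in terms of the corner `C` -/
theorem nf_eq {K S : Type} [TopologicalSpace K] [Fintype S] {k₀ : K} {L : C(K, ℂ) → A}
    {v : S → A} {z : S → K} (hs : Spt k₀ (1 - ∑ t, v t * star (v t)) L) (f : C(K, ℂ)) :
    (1 - ∑ t, v t * star (v t)) * L f * (1 - ∑ t, v t * star (v t)) +
      ∑ t, f (z t) • (v t * star (v t)) = nf k₀ L v z f := by
  have h1 := hs f
  have h2 : (1 - ∑ t, v t * star (v t)) * L f * (1 - ∑ t, v t * star (v t)) =
      L f - f k₀ • ∑ t, v t * star (v t) := by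
    rw [sub_sub_cancel] at h1
    exact eq_sub_of_add_eq h1.symm
  rw [h2]
  unfold nf
  rw [Finset.smul_sum]
  simp only [sub_smul, Finset.sum_sub_distrib]
  abel

/-- a unitary which fixes `E` fixes a map supported in `E` -/
theorem fix_spt {K : Type} [TopologicalSpace K] {k₀ : K} {L : C(K, ℂ) → A} {h E : A}
    (hE : IsStarProjection E) (hh : Uni h) {g : A} (hg : Uni g) (hhE : h * E = g * E)
    (hs : Spt k₀ E L) (f : C(K, ℂ)) : h * L f * star h = g * L f * star g := by
  have e1 : E * E = E := hE.isIdempotentElem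
  have e2 : star E = E := hE.isSelfAdjoint
  have h' : E * star h = E * star g := by
    have := congrArg star hhE
    simpa only [star_mul, e2] using this
  have hL := hs f
  have key : ∀ u : A, Uni u → u * L f * star u = u * E * L f * (E * star u) +
      f k₀ • (1 - u * E * (E * star u)) := by
    intro u hu
    calc u * L f * star u = u * (E * L f * E + f k₀ • (1 - E)) * star u := by rw [← hL]
      _ = u * E * L f * (E * star u) + f k₀ • (u * star u - u * E * star u) := by
          simp only [mul_add, add_mul, mul_sub, sub_mul, mul_smul_comm, smul_mul_assoc, mul_one,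
            mul_assoc]
      _ = u * E * L f * (E * star u) + f k₀ • (1 - u * E * (E * star u)) := by
          rw [hu.2]
          congr 3
          calc u * E * star u = u * (E * E) * star u := by rw [e1]
            _ = u * E * (E * star u) := by noncomm_ring
  rw [key h hh, key g hg, hhE, h']

end UNM_

open UNM_ in
theorem p_UNM (h_RCM : T_RCM) (h_CNC : T_CNC) : T_UNM := by
  intro K A S _ _ _ _ φ k₀ F H ε δ r c m N y E E' p Λ Λ' v v' z T hR hUQ hp hv hv' hE hE'
    hvE hvE' hs hs' hCh hc hT hdis htr
  obtain ⟨C₀, Γ, a, b, hC₀, hφC₀, hΓ, hst, ha, hb, haE, hbE, hΓ0, hΓm⟩ := hCh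
  set C : A := 1 - ∑ s, v s * star (v s) with hCdef
  have hC : IsStarProjection C := compl_proj (sum_proj hp hv Finset.univ)
  have hCE : C * E = E := C_mul_E hvE
  have eE : E * E = E := hE.isIdempotentElem
  have sE : star E = E := hE.isSelfAdjoint
  have eE' : E' * E' = E' := hE'.isIdempotentElem
  have sE' : star E' = E' := hE'.isSelfAdjoint
  have eC : C * C = C := hC.isIdempotentElem
  have sC : star C = C := hC.isSelfAdjoint
  have eC₀ : C₀ * C₀ = C₀ := hC₀.isIdempotentElem
  have sC₀ : star C₀ = C₀ := hC₀.isSelfAdjoint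
  have hEC : E * C = E := by
    have := congrArg star hCE
    simpa only [star_mul, sE, sC] using this
  -- the complement of `a E a*` in `C₀`
  set E₁ : A := a * E * star a with hE₁
  have sE₁ : star E₁ = E₁ := by
    rw [hE₁, star_mul, star_mul, star_star, sE, mul_assoc]
  have eE₁ : E₁ * E₁ = E₁ := by
    calc E₁ * E₁ = a * E * (star a * a) * E * star a := by rw [hE₁]; noncomm_ring
      _ = a * (E * E) * star a := by rw [ha.1]; noncomm_ring
      _ = E₁ := by rw [eE]
  have hCE₁ : C₀ * E₁ = E₁ := by
    calc C₀ * E₁ = C₀ * (a * E) * star a := by rw [hE₁]; noncomm_ring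
      _ = E₁ := by rw [haE]
  have hE₁C : E₁ * C₀ = E₁ := by
    have := congrArg star hCE₁
    simpa only [star_mul, sE₁, sC₀] using this
  have hD : IsStarProjection (C₀ - E₁) := by
    refine ⟨?_, ?_⟩
    · show (C₀ - E₁) * (C₀ - E₁) = C₀ - E₁
      calc (C₀ - E₁) * (C₀ - E₁) = C₀ * C₀ - C₀ * E₁ - E₁ * C₀ + E₁ * E₁ := by noncomm_ring
        _ = C₀ - E₁ := by rw [eC₀, hCE₁, hE₁C, eE₁]; noncomm_ring
    · show star (C₀ - E₁) = C₀ - E₁
      rw [star_sub, sC₀, sE₁]
  have hG : IsStarProjection (C - E) := by
    refine ⟨?_, ?_⟩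
    · show (C - E) * (C - E) = C - E
      calc (C - E) * (C - E) = C * C - C * E - E * C + E * E := by noncomm_ring
        _ = C - E := by rw [eC, hCE, hEC, eE]; noncomm_ring
    · show star (C - E) = C - E
      rw [star_sub, sC, sE]
  have hφE₁ : φ E₁ = φ E := by
    rw [hE₁, hR.ts.tr (a * E) (star a), ← mul_assoc, ha.1, one_mul]
  have hlt : (φ (C₀ - E₁)).re < (φ (C - E)).re := by
    rw [map_sub, map_sub, Complex.sub_re, Complex.sub_re, hφE₁]
    linarith
  obtain ⟨x, hx1, hx2⟩ := h_RCM A φ hR _ _ hD hG hlt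
  have hEx : E * x = 0 := by
    calc E * x = E * ((C - E) * x) := by rw [hx2]
      _ = (E * C - E * E) * x := by noncomm_ring
      _ = 0 := by rw [hEC, eE]; noncomm_ring
  have hxE : star x * E = 0 := by
    have := congrArg star hEx
    simpa only [star_mul, sE, star_zero] using this
  have hCx : C * x = x := by
    calc C * x = C * ((C - E) * x) := by rw [hx2]
      _ = (C * C - C * E) * x := by noncomm_ring
      _ = (C - E) * x := by rw [eC, hCE]
      _ = x := hx2
  set t : A := E * star a + x with ht
  have htt : star t * t = C₀ := by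
    calc star t * t = (a * star E + star x) * (E * star a + x) := by
          rw [ht, star_add, star_mul, star_star]
      _ = a * (E * E) * star a + a * (E * x) + star x * E * star a + star x * x := by
          rw [sE]; noncomm_ring
      _ = E₁ + (C₀ - E₁) := by rw [eE, hEx, hxE, hx1, ← hE₁]; noncomm_ring
      _ = C₀ := by noncomm_ring
  have hCt : C * t = t := by
    calc C * t = C * E * star a + C * x := by rw [ht]; noncomm_ring
      _ = t := by rw [hCE, hCx]
  obtain ⟨g, hg, hgC⟩ := h_CNC A φ hR C₀ t hC₀ htt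
  have hgaE : g * a * E = E := by
    have h1 : (C₀ - E₁) * (a * E) = 0 := by
      calc (C₀ - E₁) * (a * E) = C₀ * (a * E) - a * E * (star a * a) * E := by
            rw [hE₁]; noncomm_ring
        _ = 0 := by rw [haE, ha.1, mul_one, mul_assoc, eE, sub_self]
    have h2 : x * (a * E) = 0 := by
      calc x * (a * E) = x * (C₀ - E₁) * (a * E) := by rw [proj_mul hD hx1]
        _ = x * ((C₀ - E₁) * (a * E)) := by noncomm_ring
        _ = 0 := by rw [h1, mul_zero]
    calc g * a * E = g * (C₀ * (a * E)) := by rw [haE]; noncomm_ring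
      _ = t * (a * E) := by rw [← hgC]; noncomm_ring
      _ = E * (star a * a) * E + x * (a * E) := by rw [ht]; noncomm_ring
      _ = E := by rw [ha.1, h2, mul_one, eE, add_zero]
  -- the moved chain
  set Γ' : ℕ → C(K, ℂ) → A := fun i f => g * Γ i f * star g with hΓ'
  have hΓ'1 : ∀ i ≤ m, AH H δ (Γ' i) ∧ Spt k₀ C (Γ' i) := fun i hi =>
    ⟨conj_AH hg (hΓ i hi).1, conj_spt hC₀ hC hg (by rw [hgC, hCt]) (hΓ i hi).2⟩
  have hst' : ∀ i < m, ∀ f ∈ F, ‖Γ' i f - Γ' (i + 1) f‖ ≤ ε := by
    intro i hi f hf
    have h1 : Γ' i f - Γ' (i + 1) f = g * (Γ i f - Γ (i + 1) f) * star g := by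
      simp only [hΓ']
      noncomm_ring
    rw [h1, norm_conj hg]
    exact hst i hi f hf
  have hΓ'0 : ∀ f, Γ' 0 f = Λ f := by
    intro f
    have h1 : Γ' 0 f = (g * a) * Λ f * star (g * a) := by
      simp only [hΓ', hΓ0, star_mul, mul_assoc]
    have h2 := fix_spt hE (uni_mul hg ha) (g := 1) ⟨by simp, by simp⟩
      (by rw [hgaE, one_mul]) hs f
    rw [h1, h2]
    simp
  -- the second unitary
  set P' : A := ∑ s, v' s * star (v' s) with hP'
  have hP'p : IsStarProjection P' := sum_proj hp hv' Finset.univ
  have eP' : P' * P' = P' := hP'p.isIdempotentElem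
  have sP' : star P' = P' := hP'p.isSelfAdjoint
  have hP'E' : P' * E' = 0 := by
    rw [hP', Finset.sum_mul]
    exact Finset.sum_eq_zero fun s _ => by rw [mul_assoc, hvE', mul_zero]
  have hE'P' : E' * P' = 0 := by
    have := congrArg star hP'E'
    simpa only [star_mul, sE', sP', star_zero] using this
  have hE'v' : ∀ s, E' * v' s = 0 := by
    intro s
    have := congrArg star (hvE' s)
    simpa only [star_mul, sE', star_star, star_zero] using this
  have hPE : IsStarProjection (P' + E') := by
    refine ⟨?_, ?_⟩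
    · show (P' + E') * (P' + E') = P' + E'
      calc (P' + E') * (P' + E') = P' * P' + P' * E' + E' * P' + E' * E' := by noncomm_ring
        _ = P' + E' := by rw [eP', hP'E', hE'P', eE', add_zero, add_zero]
    · show star (P' + E') = P' + E'
      rw [star_add, sP', sE']
  have hCgb : C * (g * b * E') = g * b * E' := by
    calc C * (g * b * E') = C * (g * (C₀ * (b * E'))) := by rw [hbE]; noncomm_ring
      _ = C * t * (b * E') := by rw [← hgC]; noncomm_ring
      _ = g * C₀ * (b * E') := by rw [hCt, hgC]
      _ = g * (C₀ * (b * E')) := by noncomm_ring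
      _ = g * b * E' := by rw [hbE]; noncomm_ring
  have hvgb : ∀ s, star (v s) * (g * b * E') = 0 := by
    intro s
    rw [← hCgb, ← mul_assoc, hCdef, v_mul_C hp hv, zero_mul]
  have hgbv : ∀ s, star (g * b * E') * v s = 0 := by
    intro s
    have := congrArg star (hvgb s)
    rw [star_mul, star_star, star_zero] at this
    exact this
  set w₁ : A := ∑ s, v s * star (v' s) with hw₁
  have hw₁w₁ : star w₁ * w₁ = P' := by
    rw [hw₁, star_sum, Finset.sum_mul, hP']
    refine Finset.sum_congr rfl fun s _ => ?_
    rw [Finset.mul_sum, Finset.sum_eq_single_of_mem s (Finset.mem_univ s)]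
    · calc star (v s * star (v' s)) * (v s * star (v' s))
          = v' s * (star (v s) * v s) * star (v' s) := by
            rw [star_mul, star_star]; noncomm_ring
        _ = v' s * star (v' s) := by rw [hv.1, proj_mul hp (hv'.1 s)]
    · intro s' _ hs'
      calc star (v s * star (v' s)) * (v s' * star (v' s'))
          = v' s * (star (v s) * v s') * star (v' s') := by
            rw [star_mul, star_star]; noncomm_ring
        _ = 0 := by rw [hv.2 s s' (Ne.symm hs')]; noncomm_ring
  have hw₁g : star w₁ * (g * b * E') = 0 := by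
    rw [hw₁, star_sum, Finset.sum_mul]
    refine Finset.sum_eq_zero fun s _ => ?_
    rw [star_mul, star_star, mul_assoc, hvgb, mul_zero]
  have hgw₁ : star (g * b * E') * w₁ = 0 := by
    have := congrArg star hw₁g
    rw [star_mul, star_star, star_zero] at this
    exact this
  have hgbgb : star (g * b * E') * (g * b * E') = E' := by
    calc star (g * b * E') * (g * b * E') = E' * (star b * (star g * g) * b) * E' := by
          rw [star_mul, star_mul, sE']; noncomm_ring
      _ = E' := by rw [hg.1, mul_one, hb.1, mul_one, eE']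
  have hww : star (w₁ + g * b * E') * (w₁ + g * b * E') = P' + E' := by
    calc star (w₁ + g * b * E') * (w₁ + g * b * E')
        = star w₁ * w₁ + star w₁ * (g * b * E') + star (g * b * E') * w₁ +
          star (g * b * E') * (g * b * E') := by rw [star_add]; noncomm_ring
      _ = P' + E' := by rw [hw₁w₁, hw₁g, hgw₁, hgbgb, add_zero, add_zero]
  obtain ⟨w₀, hw₀, hw₀P⟩ := h_CNC A φ hR (P' + E') _ hPE hww
  have hw₁v' : ∀ s, w₁ * v' s = v s := by
    intro s
    rw [hw₁, Finset.sum_mul, Finset.sum_eq_single_of_mem s (Finset.mem_univ s)]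
    · rw [mul_assoc, hv'.1, proj_mul hp (hv.1 s)]
    · intro s' _ hs'
      rw [mul_assoc, hv'.2 s' s hs', mul_zero]
  have hw₀v' : ∀ s, w₀ * v' s = v s := by
    intro s
    have h1 : (P' + E') * v' s = v' s := by
      rw [add_mul, hE'v', add_zero, hP', sum_mul_v hp hv' (Finset.mem_univ s)]
    calc w₀ * v' s = w₀ * ((P' + E') * v' s) := by rw [h1]
      _ = w₀ * (P' + E') * v' s := by noncomm_ring
      _ = w₁ * v' s + g * b * (E' * v' s) := by rw [hw₀P]; noncomm_ring
      _ = v s := by rw [hw₁v', hE'v', mul_zero, add_zero]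
  have hw₁E' : w₁ * E' = 0 := by
    rw [hw₁, Finset.sum_mul]
    exact Finset.sum_eq_zero fun s _ => by rw [mul_assoc, hvE', mul_zero]
  have hw₀E' : w₀ * E' = g * b * E' := by
    have h1 : (P' + E') * E' = E' := by rw [add_mul, hP'E', zero_add, eE']
    calc w₀ * E' = w₀ * ((P' + E') * E') := by rw [h1]
      _ = w₀ * (P' + E') * E' := by noncomm_ring
      _ = w₁ * E' + g * b * (E' * E') := by rw [hw₀P]; noncomm_ring
      _ = g * b * E' := by rw [hw₁E', eE', zero_add]
  have hnf' : ∀ f, w₀ * nf k₀ Λ' v' z f * star w₀ = nf k₀ (Γ' m) v z f := by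
    intro f
    have h1 := fix_spt hE' hw₀ (uni_mul hg hb) hw₀E' hs' f
    have h2 : (g * b) * Λ' f * star (g * b) = Γ' m f := by
      simp only [hΓ', hΓm, star_mul, mul_assoc]
    have h3 : ∀ s, w₀ * (v' s * star (v' s)) * star w₀ = v s * star (v s) := by
      intro s
      calc w₀ * (v' s * star (v' s)) * star w₀ = (w₀ * v' s) * star (w₀ * v' s) := by
            rw [star_mul]; noncomm_ring
        _ = v s * star (v s) := by rw [hw₀v']
    unfold nf
    rw [mul_add, add_mul, h1, h2, Finset.mul_sum, Finset.sum_mul]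
    congr 1
    refine Finset.sum_congr rfl fun s _ => ?_
    rw [mul_smul_comm, smul_mul_assoc, h3]
  -- the isometries
  have hsij : ∀ (i : Fin m) (j : Fin N), ∃ s : A, star s * s = C ∧
      (∑ t ∈ T i j, v t * star (v t)) * s = s := by
    intro i j
    refine h_RCM A φ hR C _ hC (sum_proj hp hv (T i j)) ?_
    have h1 : (φ (∑ t ∈ T i j, v t * star (v t))).re = (T i j).card * (φ p).re := by
      rw [map_sum, Complex.re_sum]
      simp only [tr_q hR.ts hv, Finset.sum_const, nsmul_eq_mul]
    rw [h1]
    exact htr i j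
  choose si hsi using hsij
  obtain ⟨U, hU, hUf⟩ := hUQ A S k₀ C Γ' (fun s => v s * star (v s)) z T si hC hΓ'1 hst'
    (fun s => q_proj hp hv s) (fun s s' h => q_orth hv h) (by rw [hCdef]; abel) hT hdis hsi
  refine ⟨star w₀ * U, uni_mul (uni_star hw₀) hU, fun f hf => ?_⟩
  have h1 := hUf f hf
  have e0 : nf k₀ (Γ' 0) v z f = nf k₀ Λ v z f := by
    unfold nf
    rw [hΓ'0]
  rw [nf_eq (z := z) (hΓ'1 0 (Nat.zero_le _)).2 f, nf_eq (z := z) (hΓ'1 m le_rfl).2 f, e0,
    ← hnf'] at h1
  have h2 : star w₀ * U * nf k₀ Λ v z f * star (star w₀ * U) - nf k₀ Λ' v' z f =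
      star w₀ * (U * nf k₀ Λ v z f * star U - w₀ * nf k₀ Λ' v' z f * star w₀) *
        star (star w₀) := by
    rw [star_mul, star_star]
    calc star w₀ * U * nf k₀ Λ v z f * (star U * w₀) - nf k₀ Λ' v' z f
        = star w₀ * (U * nf k₀ Λ v z f * star U) * w₀ - 1 * nf k₀ Λ' v' z f * 1 := by
          noncomm_ring
      _ = star w₀ * (U * nf k₀ Λ v z f * star U) * w₀ -
          (star w₀ * w₀) * nf k₀ Λ' v' z f * (star w₀ * w₀) := by rw [hw₀.1]
      _ = _ := by noncomm_ring
  rw [h2, norm_conj (uni_star hw₀)]
  exact h1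

end Pool.Agent.FPS
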