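import Pool.Agent.FPS.Targets4

set_option autoImplicit false

open scoped Classical
open Pool.Agent.FPZ

noncomputable section

namespace Pool.Agent.FPS

namespace UPA_

/-- The point `exp (i s arg z)` of the circle. -/
def g (s : ℝ) (z : ℂ) : ℂ := Complex.exp ((s * z.arg : ℝ) * Complex.I)

theorem norm_g (s : ℝ) (z : ℂ) : ‖g s z‖ = 1 := Complex.norm_exp_ofReal_mul_I _

theorem star_g_mul (s : ℝ) (z : ℂ) : star (g s z) * g s z = 1 := by
  rw [Complex.star_def, Complex.conj_mul', norm_g]
  simp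

theorem g_sub (s t : ℝ) (z : ℂ) : ‖g s z - g t z‖ ≤ |s - t| * Real.pi := by
  have h1 : g s z - g t z = g t z * (Complex.exp (Complex.I * (((s - t) * z.arg : ℝ) : ℂ)) - 1) := by
    unfold g
    rw [mul_sub, mul_one, ← Complex.exp_add]
    congr 2
    push_cast
    ring
  rw [h1, norm_mul, norm_g, one_mul]
  refine (Real.norm_exp_I_mul_ofReal_sub_one_le).trans ?_
  rw [Real.norm_eq_abs, abs_mul]
  exact mul_le_mul_of_nonneg_left (Complex.abs_arg_le_pi z) (abs_nonneg _)

/-- The statement in a finite dimensional C*-algebra of operators. -/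
theorem main {A : Type} [CStarAlgebra A] (u : A) (h1 : star u * u = 1) (h2 : u * star u = 1)
    (hfin : (spectrum ℂ u).Finite) (M : ℕ) (hM : 0 < M) :
    ∃ Xi : ℕ → A, Xi 0 = 1 ∧ Xi M = u ∧ (∀ i, star (Xi i) * Xi i = 1 ∧ Xi i * star (Xi i) = 1) ∧
      ∀ i < M, ‖Xi i - Xi (i + 1)‖ ≤ 4 / M := by
  have hn : IsStarNormal u := ⟨by rw [commute_iff_eq, h1, h2]⟩
  have hu : u ∈ unitary A := by
    rw [Unitary.mem_iff]
    exact ⟨h1, h2⟩
  have hc : ∀ f : ℂ → ℂ, ContinuousOn f (spectrum ℂ u) := fun f => hfin.continuousOn f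
  have hM' : (0 : ℝ) < M := by exact_mod_cast hM
  refine ⟨fun i => cfc (g ((i : ℝ) / M)) u, ?_, ?_, ?_, ?_⟩
  · have : g (((0 : ℕ) : ℝ) / M) = fun _ => 1 := by
      funext z
      simp [g]
    simp only [this]
    exact cfc_const_one ℂ u
  · have h : cfc (g ((M : ℝ) / M)) u = cfc (id : ℂ → ℂ) u := by
      refine cfc_congr (R := ℂ) (p := IsStarNormal) fun z hz => ?_
      have hz' := spectrum.subset_circle_of_unitary hu hz
      rw [mem_sphere_zero_iff_norm] at hz'
      rw [div_self hM'.ne', g, one_mul, id]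
      have := Complex.norm_mul_exp_arg_mul_I z
      rw [hz'] at this
      simpa using this
    simp only [h]
    exact cfc_id ℂ u
  · intro i
    have h := (cfc_unitary_iff (g ((i : ℝ) / M)) u hn (hc _)).mpr
      (fun x _ => by rw [star_g_mul])
    rw [Unitary.mem_iff] at h
    exact h
  · intro i _
    rw [← cfc_sub _ _ _ (hc _) (hc _)]
    refine norm_cfc_le (by positivity) fun z _ => (g_sub _ _ z).trans ?_
    have : (i : ℝ) / M - ((i + 1 : ℕ) : ℝ) / M = -(1 / M) := by
      push_cast
      ring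
    rw [this, abs_neg, abs_of_pos (by positivity), one_div, inv_mul_eq_div]
    exact div_le_div_of_nonneg_right Real.pi_le_four hM'.le

end UPA_

theorem p_UPA : T_UPA := by
  intro n _ X M h1 h2 hM
  set e := Matrix.toEuclideanCLM (n := n) (𝕜 := ℂ) with he
  have hs : ∀ Y : Matrix n n ℂ, star (e Y) = e Y.conjTranspose := fun Y => by
    rw [← map_star e]
    rfl
  have hfin : (spectrum ℂ (e X)).Finite := by
    have : spectrum ℂ (e X) = spectrum ℂ X := AlgEquiv.spectrum_eq e X
    rw [this]
    exact Matrix.finite_spectrum X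
  obtain ⟨Xi, a0, a1, a2, a3⟩ := UPA_.main (e X) (by rw [hs, ← map_mul, h1, map_one])
    (by rw [hs, ← map_mul, h2, map_one]) hfin M hM
  refine ⟨fun i => e.symm (Xi i), ?_, ?_, ?_, ?_⟩
  · simp only [a0, map_one]
  · simp only [a1]
    exact e.symm_apply_apply X
  · intro i
    have hx : (e.symm (Xi i)).conjTranspose = e.symm (star (Xi i)) := by
      have h : e (e.symm (Xi i)).conjTranspose = e (e.symm (star (Xi i))) := by
        rw [← hs, e.apply_symm_apply, e.apply_symm_apply]
      exact EquivLike.injective e h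
    simp only [hx]
    rw [← map_mul, ← map_mul, (a2 i).1, (a2 i).2, map_one]
    exact ⟨rfl, rfl⟩
  · intro i hi
    have : opn (e.symm (Xi i) - e.symm (Xi (i + 1))) = ‖Xi i - Xi (i + 1)‖ := by
      unfold opn
      rw [← map_sub, ← he, e.apply_symm_apply]
    simp only [this]
    exact a3 i hi

end Pool.Agent.FPS
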