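import Pool.Agent.FPS.Targets3
import Pool.Agent.FPZ.Targets2
import Pool.Agent.FPZ.P_DGN

set_option autoImplicit false

/-!
# FPS (MP_32d866_an), target UQC: one-corner uniqueness
-/

open scoped Classical
open MeasureTheory Pool.Agent.FPZ

noncomputable section

namespace Pool.Agent.FPS

namespace UQC_

lemma proj_norm {A : Type} [CStarAlgebra A] {p : A} (hp : IsStarProjection p) : ‖p‖ ≤ 1 := by
  have h1 : ‖p‖ * ‖p‖ = ‖p‖ := by
    have h := CStarRing.norm_star_mul_self (x := p)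
    rw [hp.isSelfAdjoint.star_eq, hp.isIdempotentElem.eq] at h
    exact h.symm
  nlinarith [norm_nonneg p]

section Cells

variable {A S : Type} [CStarAlgebra A] [Fintype S] {C : A} {q : S → A}

theorem dg_mul_q (hq : ∀ t, IsStarProjection (q t)) (ho : ∀ t t', t ≠ t' → q t * q t' = 0)
    (c : S → ℂ) (t : S) : (∑ t', c t' • q t') * q t = c t • q t := by
  rw [Finset.sum_mul, Finset.sum_eq_single t]
  · rw [smul_mul_assoc, (hq t).isIdempotentElem.eq]
  · intro b _ hb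
    rw [smul_mul_assoc, ho b t hb, smul_zero]
  · intro h
    exact absurd (Finset.mem_univ t) h

theorem dg_mul_Q (hq : ∀ t, IsStarProjection (q t)) (ho : ∀ t t', t ≠ t' → q t * q t' = 0)
    (c : S → ℂ) (T : Finset S) :
    (∑ t', c t' • q t') * (∑ t ∈ T, q t) = ∑ t ∈ T, c t • q t := by
  rw [Finset.mul_sum]
  exact Finset.sum_congr rfl fun t _ => dg_mul_q hq ho c t

theorem dg_congr (hq : ∀ t, IsStarProjection (q t)) (ho : ∀ t t', t ≠ t' → q t * q t' = 0)
    (c d : S → ℂ) (T : Finset S) (h : ∀ t ∈ T, c t = d t) (s : A)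
    (hs : (∑ t ∈ T, q t) * s = s) : (∑ t', c t' • q t') * s = (∑ t', d t' • q t') * s := by
  rw [← hs, ← mul_assoc, ← mul_assoc, dg_mul_Q hq ho, dg_mul_Q hq ho]
  congr 1
  exact Finset.sum_congr rfl fun t ht => by rw [h t ht]

theorem C_mul_q (hq : ∀ t, IsStarProjection (q t)) (ho : ∀ t t', t ≠ t' → q t * q t' = 0)
    (hs : ∑ t, q t = 1 - C) (t : S) : C * q t = 0 := by
  have h := dg_mul_q hq ho (fun _ => 1) t
  simp only [one_smul] at h
  rw [hs, sub_mul, one_mul] at h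
  have : C * q t = q t - (q t - C * q t) := by abel
  rw [this, h, sub_self]

theorem q_mul_C (hC : IsStarProjection C) (hq : ∀ t, IsStarProjection (q t))
    (ho : ∀ t t', t ≠ t' → q t * q t' = 0)
    (hs : ∑ t, q t = 1 - C) (t : S) : q t * C = 0 := by
  have h := congrArg star (C_mul_q hq ho hs t)
  rwa [star_mul, (hq t).isSelfAdjoint.star_eq, hC.isSelfAdjoint.star_eq, star_zero] at h

theorem C_mul_s (hq : ∀ t, IsStarProjection (q t)) (ho : ∀ t t', t ≠ t' → q t * q t' = 0)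
    (hs : ∑ t, q t = 1 - C) (T : Finset S) (s : A) (h : (∑ t ∈ T, q t) * s = s) : C * s = 0 := by
  rw [← h, ← mul_assoc, Finset.mul_sum, Finset.sum_eq_zero, zero_mul]
  intro t _
  exact C_mul_q hq ho hs t

omit [Fintype S] in
theorem star_Q (hq : ∀ t, IsStarProjection (q t)) (T : Finset S) :
    star (∑ t ∈ T, q t) = ∑ t ∈ T, q t := by
  rw [star_sum]
  exact Finset.sum_congr rfl fun t _ => (hq t).isSelfAdjoint.star_eq

omit [Fintype S] in
theorem star_s_mul_s (hq : ∀ t, IsStarProjection (q t)) (ho : ∀ t t', t ≠ t' → q t * q t' = 0)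
    (T T' : Finset S) (hd : Disjoint T T') (s s' : A) (h : (∑ t ∈ T, q t) * s = s)
    (h' : (∑ t ∈ T', q t) * s' = s') : star s * s' = 0 := by
  rw [← h, ← h', star_mul, star_Q hq]
  have h0 : (∑ t ∈ T, q t) * (∑ t ∈ T', q t) = 0 := by
    rw [Finset.sum_mul_sum]
    refine Finset.sum_eq_zero fun t ht => Finset.sum_eq_zero fun t' ht' => ?_
    refine ho t t' ?_
    rintro rfl
    exact (Finset.disjoint_left.1 hd) ht ht'
  calc star s * (∑ t ∈ T, q t) * ((∑ t ∈ T', q t) * s')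
      = star s * ((∑ t ∈ T, q t) * (∑ t ∈ T', q t)) * s' := by simp only [mul_assoc]
    _ = 0 := by rw [h0, mul_zero, zero_mul]

/-- The matrix of the differences. -/
theorem exM (hq : ∀ t, IsStarProjection (q t)) (ho : ∀ t t', t ≠ t' → q t * q t' = 0)
    (hs : ∑ t, q t = 1 - C) {N : ℕ} (T : Fin N → Finset S)
    (hT : ∀ j j', j ≠ j' → Disjoint (T j) (T j')) (s : Fin N → A)
    (h : ∀ j, (∑ t ∈ T j, q t) * s j = s j) (c : S → ℂ) (d : Fin N → ℂ) (θ : ℝ) (hθ : 0 ≤ θ)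
    (hcd : ∀ j, ∀ t ∈ T j, ‖c t - d j‖ ≤ θ) :
    ∃ M : A, ‖M‖ ≤ θ ∧ ∀ j, (∑ t, c t • q t) * s j = d j • s j + M * s j := by
  let e : S → ℂ := fun t => ∑ j, if t ∈ T j then c t - d j else 0
  have he : ∀ j, ∀ t ∈ T j, e t = c t - d j := by
    intro j t ht
    simp only [e]
    rw [Finset.sum_eq_single j]
    · rw [if_pos ht]
    · intro b _ hb
      rw [if_neg]
      intro hb'
      exact (Finset.disjoint_left.1 (hT b j hb)) hb' ht
    · intro h
      exact absurd (Finset.mem_univ j) h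
  refine ⟨∑ t, e t • q t, DGN_.norm_diag q e θ hθ hq ho ?_, ?_⟩
  · intro t
    by_cases ht : ∃ j, t ∈ T j
    · obtain ⟨j, hj⟩ := ht
      rw [he j t hj]
      exact hcd j t hj
    · push Not at ht
      have : e t = 0 := Finset.sum_eq_zero fun j _ => if_neg (ht j)
      rw [this, norm_zero]
      exact hθ
  · intro j
    rw [dg_congr hq ho e (fun t => c t - d j) (T j) (he j) (s j) (h j)]
    have h1 : (∑ t, (c t - d j) • q t) = (∑ t, c t • q t) - d j • (1 - C) := by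
      rw [← hs, Finset.smul_sum, ← Finset.sum_sub_distrib]
      exact Finset.sum_congr rfl fun t _ => sub_smul _ _ _
    rw [h1, sub_mul, smul_mul_assoc, sub_mul, one_mul, C_mul_s hq ho hs (T j) (s j) (h j), sub_zero]
    abel

end Cells

/-- The estimate for the partition of unity. -/
theorem lam_est {K : Type} [MetricSpace K] {N : ℕ} (y : Fin N → K) (lam : Fin N → C(K, ℝ))
    (h1 : ∀ z, ∑ j, lam j z ^ 2 = 1) (r θ : ℝ)
    (h2 : ∀ j z, lam j z ≠ 0 → dist z (y j) < r) (f : C(K, ℂ))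
    (hf : ∀ x x' : K, dist x x' < r → ‖f x - f x'‖ ≤ θ) (x : K) :
    ∑ j, lam j x ^ 2 * ‖f x - f (y j)‖ ^ 2 ≤ θ ^ 2 := by
  have h3 : ∀ j ∈ (Finset.univ : Finset (Fin N)),
      lam j x ^ 2 * ‖f x - f (y j)‖ ^ 2 ≤ lam j x ^ 2 * θ ^ 2 := by
    intro j _
    by_cases hj : lam j x = 0
    · simp [hj]
    · have h4 := hf x (y j) (h2 j x hj)
      exact mul_le_mul_of_nonneg_left (pow_le_pow_left₀ (norm_nonneg _) h4 2) (sq_nonneg _)
  calc ∑ j, lam j x ^ 2 * ‖f x - f (y j)‖ ^ 2 ≤ ∑ j, lam j x ^ 2 * θ ^ 2 := Finset.sum_le_sum h3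
    _ = θ ^ 2 := by rw [← Finset.sum_mul, h1 x, one_mul]

end UQC_

open UQC_ in
theorem p_UQC (h_VC2 : T_VC2) (h_NET : FPZ.T_NET) (h_CHN : FPZ.T_CHN) : T_UQC := by
  intro K _ _ F ε m hε
  -- the selfadjoint set
  set F' : Finset C(K, ℂ) := F ∪ F.image star with hF'
  have hFF' : F ⊆ F' := Finset.subset_union_left
  have hF's : ∀ f ∈ F', star f ∈ F' := by
    intro f hf
    rw [hF', Finset.mem_union, Finset.mem_image] at hf ⊢
    rcases hf with hf | ⟨g, hg, rfl⟩
    · exact Or.inr ⟨f, hf, rfl⟩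
    · rw [star_star]; exact Or.inl hg
  set θ : ℝ := min (1 / 2) (ε / (200 * (m + 1))) with hθ
  have hm0 : (0 : ℝ) < 200 * (m + 1) := by positivity
  have hθ0 : 0 < θ := lt_min (by norm_num) (div_pos hε hm0)
  have hθ1 : θ ≤ 1 / 2 := min_le_left _ _
  have hθ2 : 200 * (m : ℝ) * θ ≤ ε := by
    have h1 : θ ≤ ε / (200 * (m + 1)) := min_le_right _ _
    rw [le_div_iff₀ hm0] at h1
    nlinarith
  obtain ⟨r, hr, hmod, N, y, lam, -, hl1, hl2⟩ := h_NET K F' θ hθ0
  set B : ℝ := ∑ f ∈ F', ‖f‖ with hB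
  have hB0 : 0 ≤ B := Finset.sum_nonneg fun f _ => norm_nonneg f
  have hBf : ∀ f ∈ F', ‖f‖ ≤ B := fun f hf =>
    Finset.single_le_sum (f := fun f : C(K, ℂ) => ‖f‖) (fun g _ => norm_nonneg g) hf
  set W : C(K, ℂ) × Fin N → C(K, ℂ) := fun p =>
    toC (lam p.2) * (p.1 - p.1 (y p.2) • (1 : C(K, ℂ))) with hW
  set H : Finset C(K, ℂ) := F' ∪ (Finset.univ.image (fun j => toC (lam j)) ∪
    ((F' ×ˢ Finset.univ).image W ∪ (F' ×ˢ Finset.univ).image (fun p => star (W p)))) with hH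
  have hH1 : F' ⊆ H := Finset.subset_union_left
  have hH2 : ∀ j, toC (lam j) ∈ H := by
    intro j
    refine Finset.mem_union_right _ (Finset.mem_union_left _ ?_)
    exact Finset.mem_image_of_mem _ (Finset.mem_univ j)
  have hH3 : ∀ f ∈ F', ∀ j, W (f, j) ∈ H := by
    intro f hf j
    refine Finset.mem_union_right _ (Finset.mem_union_right _ (Finset.mem_union_left _ ?_))
    exact Finset.mem_image_of_mem _ (Finset.mem_product.2 ⟨hf, Finset.mem_univ j⟩)
  have hH4 : ∀ f ∈ F', ∀ j, star (W (f, j)) ∈ H := by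
    intro f hf j
    refine Finset.mem_union_right _ (Finset.mem_union_right _ (Finset.mem_union_right _ ?_))
    exact Finset.mem_image_of_mem (fun p => star (W p))
      (Finset.mem_product.2 ⟨hf, Finset.mem_univ j⟩)
  set δ : ℝ := min (θ ^ 2 / (N + 1)) (θ / ((N + 1) * (B + 1))) with hδ
  have hN1 : (0 : ℝ) < N + 1 := by positivity
  have hB1 : 0 < B + 1 := by linarith
  have hδ0 : 0 < δ := lt_min (by positivity) (by positivity)
  have hδ1 : N * δ ≤ θ ^ 2 := by
    have h1 : δ ≤ θ ^ 2 / (N + 1) := min_le_left _ _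
    rw [le_div_iff₀ hN1] at h1
    nlinarith
  have hδ2 : N * δ * (B + 1) ≤ θ := by
    have h1 : δ ≤ θ / ((N + 1) * (B + 1)) := min_le_right _ _
    rw [le_div_iff₀ (by positivity)] at h1
    nlinarith [mul_pos hδ0 hB1]
  refine ⟨H, δ, r, N, y, hFF'.trans hH1, hδ0, hr, ?_⟩
  intro A S _ _ k₀ C Γ q z T s hC hΓ hch hq ho hsum hT hTd hs
  have hCC : C * C = C := hC.isIdempotentElem.eq
  have hCs : star C = C := hC.isSelfAdjoint.star_eq
  have hCn : ‖C‖ ≤ 1 := proj_norm hC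
  -- the chain condition for the selfadjoint set
  have hch' : ∀ i < m, ∀ f ∈ F', ‖Γ i f - Γ (i + 1) f‖ ≤ ε := by
    intro i hi f hf
    rw [hF', Finset.mem_union, Finset.mem_image] at hf
    rcases hf with hf | ⟨g, hg, rfl⟩
    · exact hch i hi f hf
    · rw [(hΓ i hi.le).1.str, (hΓ (i + 1) hi).1.str, ← star_sub, norm_star]
      exact hch i hi g hg
  set D : C(K, ℂ) → A := fun f => ∑ t, f (z t) • q t with hD
  have hDs : ∀ f, star (D f) = D (star f) := by
    intro f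
    simp only [hD, star_sum, star_smul]
    exact Finset.sum_congr rfl fun t _ => by
      rw [(hq t).isSelfAdjoint.star_eq]; rfl
  have hsQ : ∀ i j, (∑ t ∈ T i j, q t) * s i j = s i j := fun i j => (hs i j).2
  have hCsij : ∀ i j, C * s i j = 0 := fun i j => C_mul_s hq ho hsum (T i j) _ (hsQ i j)
  -- the isometries
  have hV : ∀ i : Fin m, ∃ (V : A) (c : Fin N → A), star V * V = C ∧ V * C = V ∧
      V = ∑ j, s i j * c j ∧
      ∀ f ∈ F', ‖D f * V - V * (C * Γ ((i : ℕ) + 1) f * C)‖ ≤ 20 * θ := by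
    intro i
    have hTi : ∀ j j', j ≠ j' → Disjoint (T i j) (T i j') := by
      intro j j' hjj
      refine hTd i j i j' ?_
      intro h
      exact hjj (Prod.mk.inj h).2
    obtain ⟨hAH, hSp⟩ := hΓ ((i : ℕ) + 1) i.2
    refine h_VC2 K A k₀ H F' δ θ B N C (Γ ((i : ℕ) + 1)) lam y (s i) D hC hAH hSp hδ0.le hθ0 hθ1 hB0
      hδ1 hδ2 hl1 hH2 ?_ ?_ ?_ ?_
    · intro f hf
      exact ⟨hH1 hf, hBf f hf, fun j => ⟨hH3 f hf j, hH4 f hf j⟩⟩
    · intro f hf x
      exact lam_est y lam hl1 r θ hl2 f (fun x x' h => hmod f hf x x' h) x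
    · exact ⟨fun j => (hs i j).1, fun j j' hjj => star_s_mul_s hq ho _ _ (hTi j j' hjj) _ _
        (hsQ i j) (hsQ i j')⟩
    · intro f hf
      exact exM hq ho hsum (T i) hTi (s i) (hsQ i) (fun t => f (z t)) (fun j => f (y j)) θ hθ0.le
        (fun j t ht => hmod f hf (z t) (y j) (hT i j t ht))
  choose V c hV1 hV2 hV3 hV4 using hV
  let V' : ℕ → A := fun i => if h : i < m then V ⟨i, h⟩ else 0
  have hV' : ∀ i (h : i < m), V' i = V ⟨i, h⟩ := fun i h => dif_pos h
  suffices key : ∃ U : A, star U * U = 1 ∧ U * star U = 1 ∧ ∀ g : F',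
      ‖U * (C * Γ 0 g * C + D g) * star U - (C * Γ m g * C + D g)‖ ≤ ε + 10 * m * (20 * θ) by
    obtain ⟨U, hU1, hU2, hU3⟩ := key
    refine ⟨U, ⟨hU1, hU2⟩, fun f hf => ?_⟩
    have h1 := hU3 ⟨f, hFF' hf⟩
    refine h1.trans ?_
    linarith
  refine h_CHN A F' C m V' (fun g => D g) (fun g i => C * Γ i g * C) ε
    (20 * θ) hC hε.le (by positivity) ?_ ?_ ?_ ?_ ?_ ?_ ?_
  · intro i hi
    rw [hV' i hi]
    exact hV1 _
  · intro i hi i' hi' hne
    rw [hV' i hi, hV' i' hi', hV3, hV3, star_sum, Finset.sum_mul_sum]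
    refine Finset.sum_eq_zero fun j _ => Finset.sum_eq_zero fun j' _ => ?_
    have h0 : star (s ⟨i, hi⟩ j) * s ⟨i', hi'⟩ j' = 0 := by
      refine star_s_mul_s hq ho _ _ (hTd _ _ _ _ ?_) _ _ (hsQ _ _) (hsQ _ _)
      intro h
      exact hne (Fin.mk.inj (Prod.mk.inj h).1)
    rw [star_mul]
    calc star (c ⟨i, hi⟩ j) * star (s ⟨i, hi⟩ j) * (s ⟨i', hi'⟩ j' * c ⟨i', hi'⟩ j')
        = star (c ⟨i, hi⟩ j) * (star (s ⟨i, hi⟩ j) * s ⟨i', hi'⟩ j') * c ⟨i', hi'⟩ j' := by
          simp only [mul_assoc]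
      _ = 0 := by rw [h0, mul_zero, zero_mul]
  · intro i hi
    rw [hV' i hi, hV3, Finset.mul_sum]
    refine Finset.sum_eq_zero fun j _ => ?_
    rw [← mul_assoc, hCsij, zero_mul]
  · intro g
    constructor
    · show D g * C = 0
      simp only [hD]
      rw [Finset.sum_mul]
      exact Finset.sum_eq_zero fun t _ => by
        rw [smul_mul_assoc, q_mul_C hC hq ho hsum t, smul_zero]
    · show C * D g = 0
      simp only [hD]
      rw [Finset.mul_sum]
      exact Finset.sum_eq_zero fun t _ => by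
        rw [mul_smul_comm, C_mul_q hq ho hsum t, smul_zero]
  · intro g i
    constructor
    · show C * (C * Γ i g * C) = C * Γ i g * C
      rw [← mul_assoc, ← mul_assoc, hCC]
    · show C * Γ i g * C * C = C * Γ i g * C
      rw [mul_assoc, hCC]
  · intro g i hi
    have hg := g.2
    rw [hV' i hi]
    refine ⟨hV4 ⟨i, hi⟩ g hg, ?_⟩
    have h1 := hV4 ⟨i, hi⟩ (star (g : C(K, ℂ))) (hF's _ hg)
    rw [← norm_star] at h1
    have h2 : star (D (star (g : C(K, ℂ))) * V ⟨i, hi⟩ -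
        V ⟨i, hi⟩ * (C * Γ (i + 1) (star (g : C(K, ℂ))) * C)) =
        star (V ⟨i, hi⟩) * D g - C * Γ (i + 1) g * C * star (V ⟨i, hi⟩) := by
      rw [star_sub, star_mul, star_mul, hDs, star_star, star_mul, star_mul, hCs,
        (hΓ (i + 1) hi).1.str, star_star, ← mul_assoc C]
    simp only at h1
    rw [h2] at h1
    exact h1
  · intro g i hi
    have h1 : C * Γ i g * C - C * Γ (i + 1) g * C = C * (Γ i g - Γ (i + 1) g) * C := by
      noncomm_ring
    show ‖C * Γ i g * C - C * Γ (i + 1) g * C‖ ≤ ε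
    rw [h1]
    calc ‖C * (Γ i g - Γ (i + 1) g) * C‖ ≤ ‖C‖ * ‖Γ i g - Γ (i + 1) g‖ * ‖C‖ :=
          (norm_mul_le _ _).trans (mul_le_mul_of_nonneg_right (norm_mul_le _ _) (norm_nonneg _))
      _ ≤ 1 * ε * 1 := by
          refine mul_le_mul (mul_le_mul hCn (hch' i hi g g.2) (norm_nonneg _) zero_le_one) hCn
            (norm_nonneg _) (by linarith)
      _ = ε := by ring

end Pool.Agent.FPS
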