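import Pool.Agent.FPS.Targets2
import Pool.Agent.FPS.Targets3
import Pool.Agent.FPZ.P_VCO

set_option autoImplicit false

/-!
# FPS: VC2, construction of the isometry from an almost homomorphism (helper27)
-/

open scoped Classical
open MeasureTheory Pool.Agent.FPZ

noncomputable section

namespace Pool.Agent.FPS

namespace VC2_

variable {K A : Type} [TopologicalSpace K] [CompactSpace K] [CStarAlgebra A]

theorem ahzero {H : Finset C(K, ℂ)} {δ : ℝ} {L : C(K, ℂ) → A} (h : AH H δ L) : L 0 = 0 := by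
  have h1 := h.smul 0 0
  rwa [zero_smul, zero_smul] at h1

theorem ahsum {H : Finset C(K, ℂ)} {δ : ℝ} {L : C(K, ℂ) → A} (h : AH H δ L) {ι : Type}
    (s : Finset ι) (f : ι → C(K, ℂ)) : L (∑ i ∈ s, f i) = ∑ i ∈ s, L (f i) := by
  induction s using Finset.induction_on with
  | empty => rw [Finset.sum_empty, Finset.sum_empty, ahzero h]
  | insert a s ha ih => rw [Finset.sum_insert ha, Finset.sum_insert ha, h.add, ih]

theorem ahsub {H : Finset C(K, ℂ)} {δ : ℝ} {L : C(K, ℂ) → A} (h : AH H δ L)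
    (f g : C(K, ℂ)) : L (f - g) = L f - L g := by
  have h1 : f - g = f + (-1 : ℂ) • g := by rw [neg_one_smul, sub_eq_add_neg]
  rw [h1, h.add, h.smul, neg_one_smul, sub_eq_add_neg]

omit [CompactSpace K] in
theorem star_toC (g : C(K, ℝ)) : star (toC g) = toC g := by
  ext x
  simp [toC]

omit [CompactSpace K] in
/-- the corner -/
theorem corner {k₀ : K} {e : A} (he : IsStarProjection e) {L : C(K, ℂ) → A} (h : Spt k₀ e L)
    (f : C(K, ℂ)) : L f * e = e * L f * e ∧ e * L f = e * L f * e := by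
  have hi : e * e = e := he.isIdempotentElem.eq
  have h1 : (1 - e) * e = 0 := by rw [sub_mul, one_mul, hi, sub_self]
  have h2 : e * (1 - e) = 0 := by rw [mul_sub, mul_one, hi, sub_self]
  constructor
  · conv_lhs => rw [h f]
    rw [add_mul, smul_mul_assoc, h1, smul_zero, add_zero, mul_assoc, hi]
  · conv_lhs => rw [h f]
    rw [mul_add, mul_smul_comm, h2, smul_zero, add_zero, ← mul_assoc, ← mul_assoc, hi]

theorem cnorm {e : A} (he : IsStarProjection e) (a : A) : ‖e * a * e‖ ≤ ‖a‖ := by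
  have hen : ‖e‖ ≤ 1 := VCO_.norm_e he
  calc ‖e * a * e‖ ≤ ‖e * a‖ * ‖e‖ := norm_mul_le _ _
    _ ≤ (‖e‖ * ‖a‖) * ‖e‖ := by
        gcongr
        exact norm_mul_le _ _
    _ ≤ (1 * ‖a‖) * 1 := by gcongr
    _ = ‖a‖ := by ring

end VC2_

open VC2_ in
theorem p_VC2 (h_AHN : T_AHN) (h_PLE : T_PLE) : T_VC2 := by
  intro K A _ _ _ _ k₀ H F δ θ B N e Γ lam y s D he hAH hSpt hδ hθ hθ2 hB hNδ hNδB hlam hlH hF
    hFθ hPI hD
  have hes : star e = e := he.isSelfAdjoint.star_eq
  have hei : e * e = e := he.isIdempotentElem.eq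
  have hen : ‖e‖ ≤ 1 := VCO_.norm_e he
  obtain ⟨hs1, hs2⟩ := hPI
  have hse : ∀ j, s j * e = s j := fun j => VCO_.se he (hs1 j)
  have hNδ0 : 0 ≤ (N : ℝ) * δ := by positivity
  have hNq : (N : ℝ) * δ ≤ 1 / 4 := by nlinarith
  have hc1 : ∀ f, Γ f * e = e * Γ f * e := fun f => (corner he hSpt f).1
  have hc2 : ∀ f, e * Γ f = e * Γ f * e := fun f => (corner he hSpt f).2
  set l : Fin N → A := fun j => Γ (toC (lam j)) with hl
  have hls : ∀ j, star (l j) = l j := by
    intro j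
    show star (Γ (toC (lam j))) = Γ (toC (lam j))
    rw [← hAH.str, star_toC]
  set V₀ : A := ∑ j, s j * (l j * e) with hV₀
  -- `star V₀ * V₀`
  have hVV : star V₀ * V₀ = ∑ j, e * (l j * l j) * e := by
    rw [hV₀, VCO_.sq s (fun j => l j * e) hs1 hs2]
    refine Finset.sum_congr rfl (fun j _ => ?_)
    rw [star_mul, hes, hls j]
    calc e * l j * e * (l j * e) = (e * l j * e) * (l j * e) := rfl
      _ = (e * l j) * (l j * e) := by rw [← hc2 (toC (lam j))]
      _ = e * (l j * l j) * e := by noncomm_ring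
  have hV₀e : V₀ * e = V₀ := by
    rw [hV₀, Finset.sum_mul]
    refine Finset.sum_congr rfl (fun j _ => ?_)
    rw [mul_assoc, mul_assoc, hei]
  have hsumsq : ∑ j, toC (lam j) * toC (lam j) = (1 : C(K, ℂ)) := by
    ext x
    rw [ContinuousMap.coe_sum, Finset.sum_apply]
    have h1 : ∀ j, (toC (lam j) * toC (lam j)) x = ((lam j x ^ 2 : ℝ) : ℂ) := by
      intro j
      simp [toC, pow_two]
    simp only [h1]
    rw [← Complex.ofReal_sum, hlam x]
    simp
  have hone : ∑ j, Γ (toC (lam j) * toC (lam j)) = 1 := by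
    rw [← ahsum hAH, hsumsq, hAH.one]
  have hVVe : ‖star V₀ * V₀ - e‖ ≤ N * δ := by
    have h1 : star V₀ * V₀ - e =
        ∑ j, e * (l j * l j - Γ (toC (lam j) * toC (lam j))) * e := by
      have h2 : e = ∑ j, e * Γ (toC (lam j) * toC (lam j)) * e := by
        rw [← Finset.sum_mul, ← Finset.mul_sum, hone, mul_one, hei]
      conv_lhs => rw [hVV]
      conv_lhs => rhs; rw [h2]
      rw [← Finset.sum_sub_distrib]
      refine Finset.sum_congr rfl (fun j _ => ?_)
      rw [mul_sub, sub_mul]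
    rw [h1]
    refine (norm_sum_le _ _).trans ?_
    have h3 : ∀ j ∈ (Finset.univ : Finset (Fin N)),
        ‖e * (l j * l j - Γ (toC (lam j) * toC (lam j))) * e‖ ≤ δ := by
      intro j _
      refine (cnorm he _).trans ?_
      rw [norm_sub_rev]
      exact hAH.mul _ (hlH j) _ (hlH j)
    refine (Finset.sum_le_card_nsmul _ _ _ h3).trans ?_
    simp
  obtain ⟨x, hx1, hxe, hxV, hVe⟩ := h_PLE A e V₀ (N * δ) he hV₀e hVVe hNq
  have hV₀n : ‖V₀‖ ≤ 5 / 4 := by
    have h1 : ‖V₀‖ ^ 2 = ‖star V₀ * V₀‖ := by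
      rw [pow_two]; exact CStarRing.norm_star_mul_self.symm
    have h2 : ‖star V₀ * V₀‖ ≤ ‖star V₀ * V₀ - e‖ + ‖e‖ := by
      have := norm_add_le (star V₀ * V₀ - e) e
      simpa using this
    nlinarith [norm_nonneg V₀]
  have hxn : ‖x‖ ≤ 3 / 2 := by
    have h5 : ‖(1 : A)‖ ≤ 1 := VCO_.norm_e (A := A) (e := 1) (IsStarProjection.one A)
    have h2 : ‖x‖ ≤ ‖x - 1‖ + ‖(1 : A)‖ := by
      have := norm_add_le (x - 1) 1
      simpa using this
    linarith
  refine ⟨V₀ * x, fun j => l j * e * x, hxV, hVe, ?_, ?_⟩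
  · rw [hV₀, Finset.sum_mul]
    refine Finset.sum_congr rfl (fun j _ => ?_)
    rw [mul_assoc]
  intro f hf
  obtain ⟨hfH, hfB, hfu⟩ := hF f hf
  obtain ⟨M, hMn, hMj⟩ := hD f hf
  set u : Fin N → C(K, ℂ) := fun j => toC (lam j) * (f - f (y j) • (1 : C(K, ℂ))) with hu
  set g := Γ f with hg
  have hGe : e * g * e = g * e := (hc1 f).symm
  -- `Γ (u j)`
  have hΓu : ∀ j, Γ (u j) = Γ (toC (lam j) * f) - f (y j) • l j := by
    intro j
    have h1 : u j = toC (lam j) * f - f (y j) • toC (lam j) := by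
      show toC (lam j) * (f - f (y j) • (1 : C(K, ℂ))) = _
      rw [mul_sub, mul_smul_comm, mul_one]
    rw [h1, ahsub hAH, hAH.smul]
  -- decomposition
  have hdec : D f * V₀ - V₀ * (e * g * e) = M * V₀ + ∑ j, s j * (-(Γ (u j) * e)) +
      ∑ j, s j * ((Γ (toC (lam j) * f) - l j * g) * e) := by
    have h1 : D f * V₀ = M * V₀ + ∑ j, f (y j) • (s j * (l j * e)) := by
      rw [hV₀, Finset.mul_sum, Finset.mul_sum, ← Finset.sum_add_distrib]
      refine Finset.sum_congr rfl (fun j _ => ?_)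
      rw [← mul_assoc, hMj j, add_mul, smul_mul_assoc, add_comm, mul_assoc M]
    have h2 : V₀ * (e * g * e) = ∑ j, s j * (l j * g * e) := by
      rw [hV₀, Finset.sum_mul]
      refine Finset.sum_congr rfl (fun j _ => ?_)
      calc s j * (l j * e) * (e * g * e) = s j * (l j * ((e * e) * g * e)) := by noncomm_ring
        _ = s j * (l j * (e * g * e)) := by rw [hei]
        _ = s j * (l j * (g * e)) := by rw [hGe]
        _ = s j * (l j * g * e) := by noncomm_ring
    rw [h1, h2, add_assoc, add_sub_assoc, ← Finset.sum_sub_distrib, ← Finset.sum_add_distrib]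
    congr 1
    refine Finset.sum_congr rfl (fun j _ => ?_)
    rw [← mul_add, ← mul_smul_comm, ← mul_sub]
    congr 1
    rw [hΓu j, sub_mul, sub_mul, smul_mul_assoc]
    abel
  -- second term
  have hT2 : ‖∑ j, s j * (-(Γ (u j) * e))‖ ≤ 3 / 2 * θ := by
    have h1 := VCO_.nrm he s (fun j => -(Γ (u j) * e)) hs1 hs2
    have h2 : ∑ j, star (-(Γ (u j) * e)) * (-(Γ (u j) * e)) =
        e * (∑ j, (Γ (star (u j)) * Γ (u j) - Γ (star (u j) * u j))) * e +
          e * Γ (∑ j, star (u j) * u j) * e := by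
      rw [ahsum hAH, ← add_mul, ← mul_add, ← Finset.sum_add_distrib, Finset.mul_sum,
        Finset.sum_mul]
      refine Finset.sum_congr rfl (fun j _ => ?_)
      rw [star_neg, star_mul, hes, neg_mul_neg, hAH.str (u j), sub_add_cancel]
      simp only [mul_assoc]
    have h3 : ‖e * (∑ j, (Γ (star (u j)) * Γ (u j) - Γ (star (u j) * u j))) * e‖ ≤ N * δ := by
      refine (cnorm he _).trans ((norm_sum_le _ _).trans ?_)
      have h4 : ∀ j ∈ (Finset.univ : Finset (Fin N)),
          ‖Γ (star (u j)) * Γ (u j) - Γ (star (u j) * u j)‖ ≤ δ := by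
        intro j _
        rw [norm_sub_rev]
        exact hAH.mul _ (hfu j).2 _ (hfu j).1
      refine (Finset.sum_le_card_nsmul _ _ _ h4).trans ?_
      simp
    have h5 : ‖e * Γ (∑ j, star (u j) * u j) * e‖ ≤ θ ^ 2 := by
      refine (cnorm he _).trans ((h_AHN K A H δ Γ hAH _).trans ?_)
      rw [ContinuousMap.norm_le _ (by positivity)]
      intro t
      rw [ContinuousMap.coe_sum, Finset.sum_apply]
      have h6 : ∀ j, (star (u j) * u j) t = ((lam j t ^ 2 * ‖f t - f (y j)‖ ^ 2 : ℝ) : ℂ) := by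
        intro j
        have h7 : u j t = (lam j t : ℂ) * (f t - f (y j)) := by
          show (toC (lam j) * (f - f (y j) • (1 : C(K, ℂ)))) t = _
          simp [toC]
        rw [ContinuousMap.mul_apply, ContinuousMap.star_apply, h7]
        have h8 : star ((lam j t : ℂ) * (f t - f (y j))) * ((lam j t : ℂ) * (f t - f (y j))) =
            ((‖(lam j t : ℂ) * (f t - f (y j))‖ ^ 2 : ℝ) : ℂ) := by
          rw [RCLike.star_def, RCLike.conj_mul]
          norm_cast
        rw [h8, norm_mul, mul_pow, Complex.norm_real, Real.norm_eq_abs, sq_abs]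
      simp only [h6]
      rw [← Complex.ofReal_sum, Complex.norm_real, Real.norm_eq_abs, abs_of_nonneg]
      · exact hFθ f hf t
      · positivity
    have h4 : ‖∑ j, s j * (-(Γ (u j) * e))‖ ^ 2 ≤ 2 * θ ^ 2 := by
      refine h1.trans ?_
      rw [h2]
      refine (norm_add_le _ _).trans ?_
      linarith
    by_contra hcon
    push Not at hcon
    nlinarith [norm_nonneg (∑ j, s j * (-(Γ (u j) * e)))]
  -- third term
  have hT3 : ‖∑ j, s j * ((Γ (toC (lam j) * f) - l j * g) * e)‖ ≤ N * δ := by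
    refine (norm_sum_le _ _).trans ?_
    have hsn : ∀ j, ‖s j‖ ≤ 1 := by
      intro j
      have h1 : ‖s j‖ * ‖s j‖ = ‖star (s j) * s j‖ := CStarRing.norm_star_mul_self.symm
      rw [hs1 j] at h1
      by_contra h
      push Not at h
      nlinarith
    have h3 : ∀ j ∈ (Finset.univ : Finset (Fin N)),
        ‖s j * ((Γ (toC (lam j) * f) - l j * g) * e)‖ ≤ δ := by
      intro j _
      calc ‖s j * ((Γ (toC (lam j) * f) - l j * g) * e)‖ ≤
          ‖s j‖ * ‖(Γ (toC (lam j) * f) - l j * g) * e‖ := norm_mul_le _ _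
        _ ≤ ‖s j‖ * (‖Γ (toC (lam j) * f) - l j * g‖ * ‖e‖) := by
            gcongr
            exact norm_mul_le _ _
        _ ≤ 1 * (δ * 1) := by
            gcongr
            · exact hsn j
            · exact hAH.mul _ (hlH j) _ hfH
        _ = δ := by ring
    refine (Finset.sum_le_card_nsmul _ _ _ h3).trans ?_
    simp
  have hB1 : ‖D f * V₀ - V₀ * (e * g * e)‖ ≤ 5 / 4 * θ + 3 / 2 * θ + N * δ := by
    rw [hdec]
    have h1 : ‖M * V₀‖ ≤ 5 / 4 * θ := by
      calc ‖M * V₀‖ ≤ ‖M‖ * ‖V₀‖ := norm_mul_le _ _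
        _ ≤ θ * (5 / 4) := by gcongr
        _ = _ := by ring
    refine (norm_add_le _ _).trans ?_
    refine add_le_add ?_ hT3
    refine (norm_add_le _ _).trans ?_
    exact add_le_add h1 hT2
  have hfin : D f * (V₀ * x) - V₀ * x * (e * g * e) = (D f * V₀ - V₀ * (e * g * e)) * x +
      V₀ * ((e * g * e) * (x - 1) - (x - 1) * (e * g * e)) := by
    noncomm_ring
  rw [hfin]
  have hgn : ‖e * g * e‖ ≤ B := (cnorm he _).trans ((h_AHN K A H δ Γ hAH f).trans hfB)
  have hC : ‖(e * g * e) * (x - 1) - (x - 1) * (e * g * e)‖ ≤ 4 * (N * δ) * B := by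
    calc _ ≤ ‖(e * g * e) * (x - 1)‖ + ‖(x - 1) * (e * g * e)‖ := norm_sub_le _ _
      _ ≤ ‖e * g * e‖ * ‖x - 1‖ + ‖x - 1‖ * ‖e * g * e‖ :=
          add_le_add (norm_mul_le _ _) (norm_mul_le _ _)
      _ ≤ B * (2 * (N * δ)) + (2 * (N * δ)) * B := by gcongr
      _ = _ := by ring
  calc _ ≤ ‖(D f * V₀ - V₀ * (e * g * e)) * x‖ +
        ‖V₀ * ((e * g * e) * (x - 1) - (x - 1) * (e * g * e))‖ := norm_add_le _ _
    _ ≤ ‖D f * V₀ - V₀ * (e * g * e)‖ * ‖x‖ +
        ‖V₀‖ * ‖(e * g * e) * (x - 1) - (x - 1) * (e * g * e)‖ :=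
        add_le_add (norm_mul_le _ _) (norm_mul_le _ _)
    _ ≤ (5 / 4 * θ + 3 / 2 * θ + N * δ) * (3 / 2) + (5 / 4) * (4 * (N * δ) * B) := by gcongr
    _ ≤ 20 * θ := by
        nlinarith

end Pool.Agent.FPS
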