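import Pool.Agent.FPS.Targets4

set_option autoImplicit false

/-!
# FPS: XEP, the end points of the homotopies
-/

open scoped Classical
open MeasureTheory Pool.Agent.FPZ

noncomputable section

namespace Pool.Agent.FPS

namespace XEP_

lemma sg_neg (v : E3) : sg (-v) = -sg v := by
  ext i j
  fin_cases i <;> fin_cases j <;> simp [sg] <;> ring

lemma pp_neg (v : E3) : pp (-v) = pm v := by
  unfold pp pm
  rw [sg_neg, sub_eq_add_neg]

lemma pm_neg (v : E3) : pm (-v) = pp v := by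
  unfold pp pm
  rw [sg_neg, sub_neg_eq_add]

lemma pp_add_pm (v : E3) : pp v + pm v = 1 := by
  unfold pp pm
  rw [← smul_add]
  have h1 : (1 : Matrix (Fin 2) (Fin 2) ℂ) + sg v + (1 - sg v) = (2 : ℂ) • 1 := by
    rw [two_smul]
    abel
  rw [h1, smul_smul]
  norm_num

lemma un_neg (v : E3) : un (-v) = -un v := by
  unfold un
  rw [norm_neg, smul_neg]

lemma mt_norm (t : ℝ) (m : S2) : ‖(mt t m : E3)‖ = 1 := by
  have := (mt t m).2
  simpa using this

lemma un_smul (h : ℝ) (hh : h ≠ 0) (v : E3) (hv : ‖v‖ = 1) : un (|h| • v) = v := by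
  unfold un
  rw [norm_smul, hv, mul_one, Real.norm_eq_abs, abs_abs, smul_smul,
    inv_mul_cancel₀ (abs_ne_zero.mpr hh), one_smul]

end XEP_

open XEP_ in
theorem p_XEP : T_XEP := by
  intro f x m
  refine ⟨?_, ?_, ?_⟩
  · unfold xi th
    rw [Real.sin_pi_div_two, Real.cos_pi_div_two]
    have h1 : (-1 : ℝ) • x.1.1 + (0 : ℝ) • (|x.1.2| • (mt x.1.2 m : E3)) = -x.1.1 := by
      rw [zero_smul, add_zero, neg_smul, one_smul]
    have h2 : (0 : ℝ) • x.1.1 + (1 : ℝ) • (|x.1.2| • (mt x.1.2 m : E3)) =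
        |x.1.2| • (mt x.1.2 m : E3) := by
      rw [zero_smul, zero_add, one_smul]
    rw [h1, h2, norm_neg, un_neg, pp_neg, pm_neg]
    simp only [mul_one, mul_zero, add_zero, sub_zero, zero_sub, zero_add]
    rw [add_comm]
  · unfold xi
    rw [Real.sin_zero, Real.cos_zero]
    simp only [mul_one, mul_zero, add_zero, sub_zero, zero_sub, zero_add, abs_neg,
      abs_norm]
    have h1 : mt ‖x.1.1‖ m = m := by
      unfold mt
      rw [if_pos (norm_nonneg _)]
    have h2 : ‖x.1.1‖ • (mt (-‖x.1.1‖) m : E3) = ‖x.1.1‖ • (n0 : E3) := by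
      by_cases hw : x.1.1 = 0
      · rw [hw, norm_zero, zero_smul, zero_smul]
      · unfold mt
        rw [if_neg (by
          have := norm_pos_iff.mpr hw
          linarith)]
    rw [h1, h2]
  · unfold th
    rw [Real.sin_zero, Real.cos_zero]
    have h1 : (-0 : ℝ) • x.1.1 + (1 : ℝ) • (|x.1.2| • (mt x.1.2 m : E3)) =
        |x.1.2| • (mt x.1.2 m : E3) := by
      rw [neg_zero, zero_smul, zero_add, one_smul]
    have h2 : (1 : ℝ) • x.1.1 + (0 : ℝ) • (|x.1.2| • (mt x.1.2 m : E3)) = x.1.1 := by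
      rw [zero_smul, add_zero, one_smul]
    rw [h1, h2]
    have h3 : ‖|x.1.2| • (mt x.1.2 m : E3)‖ = |x.1.2| := by
      rw [norm_smul, mt_norm, mul_one, Real.norm_eq_abs, abs_abs]
    rw [h3]
    by_cases hh : x.1.2 = 0
    · rw [hh, abs_zero, neg_zero, ← smul_add, ← smul_add, pp_add_pm, pp_add_pm]
    · rw [un_smul _ hh _ (mt_norm _ _)]

end Pool.Agent.FPS
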