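import Pool.Agent.FPS.Targets4
import Pool.Agent.FPS.P_GMV
import Pool.Agent.FPS.P_XEP

set_option autoImplicit false

/-!
# FPS: XIT, the first homotopy of exact homomorphisms
-/

open scoped Classical
open MeasureTheory Pool.Agent.FPZ

noncomputable section

namespace Pool.Agent.FPS

namespace XIT_

/-- The operator norm is a continuous function of the matrix. -/
theorem continuous_opn {n : Type} [Fintype n] : Continuous fun M : Matrix n n ℂ => opn M := by
  have h : Continuous ((Matrix.toEuclideanCLM (n := n) (𝕜 := ℂ)).toAlgEquiv.toLinearMap) :=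
    LinearMap.continuous_of_finiteDimensional _
  exact continuous_norm.comp h

theorem un_coord (v : E3) (i : Fin 3) : |un v i| ≤ 1 := by
  have h1 : ‖un v i‖ ≤ ‖un v‖ := PiLp.norm_apply_le _ i
  have h2 : ‖un v‖ ≤ 1 := by
    unfold un
    rw [norm_smul, norm_inv, norm_norm]
    by_cases h : ‖v‖ = 0
    · rw [h, mul_zero]; exact zero_le_one
    · rw [inv_mul_cancel₀ h]
  rw [Real.norm_eq_abs] at h1
  exact h1.trans h2

theorem sg_bound (v : E3) (i j : Fin 2) : ‖sg (un v) i j‖ ≤ 2 := by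
  have h0 := un_coord v 0
  have h1 := un_coord v 1
  have h2 := un_coord v 2
  have e : ∀ a b : ℝ, |a| ≤ 1 → |b| ≤ 1 → ‖(a : ℂ) + b * Complex.I‖ ≤ 2 := by
    intro a b ha hb
    refine (norm_add_le _ _).trans ?_
    rw [norm_mul, Complex.norm_I, mul_one, Complex.norm_real, Complex.norm_real,
      Real.norm_eq_abs, Real.norm_eq_abs]
    linarith
  fin_cases i <;> fin_cases j
  · have : sg (un v) 0 0 = ((un v 2 : ℝ) : ℂ) := by simp [sg]
    simp only [Fin.zero_eta, this, Complex.norm_real, Real.norm_eq_abs]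
    linarith
  · have : sg (un v) 0 1 = ((un v 0 : ℝ) : ℂ) + ((-un v 1 : ℝ) : ℂ) * Complex.I := by
      simp [sg]; ring
    simp only [Fin.zero_eta, Fin.mk_one, this]
    exact e _ _ h0 (by rwa [abs_neg])
  · have : sg (un v) 1 0 = ((un v 0 : ℝ) : ℂ) + ((un v 1 : ℝ) : ℂ) * Complex.I := by simp [sg]
    simp only [Fin.zero_eta, Fin.mk_one, this]
    exact e _ _ h0 h1
  · have : sg (un v) 1 1 = ((-un v 2 : ℝ) : ℂ) := by simp [sg]
    simp only [Fin.mk_one, this, Complex.norm_real, Real.norm_eq_abs, abs_neg]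
    linarith

theorem sg_cont : Continuous sg := by
  have h : ∀ i : Fin 3, Continuous fun v : E3 => ((v i : ℝ) : ℂ) := fun i => by fun_prop
  refine continuous_matrix fun i j => ?_
  fin_cases i <;> fin_cases j <;> simp only [sg, Fin.zero_eta, Fin.mk_one, Matrix.of_apply,
    Matrix.cons_val', Matrix.cons_val_zero, Matrix.cons_val_one, Matrix.cons_val_fin_one]
  · exact h 2
  · exact (h 0).sub ((h 1).mul continuous_const)
  · exact (h 0).add ((h 1).mul continuous_const)
  · exact (h 2).neg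

theorem un_cont {v : E3} (hv : v ≠ 0) : ContinuousAt un v := by
  unfold un
  exact (continuousAt_id.norm.inv₀ (norm_ne_zero_iff.2 hv)).smul continuousAt_id

/-- The basic continuity lemma. -/
theorem cont_smul_sg {Z : Type} [TopologicalSpace Z] (D : Z → ℂ) (v : Z → E3) (hD : Continuous D)
    (hv : Continuous v) (h0 : ∀ z, v z = 0 → D z = 0) :
    Continuous fun z => D z • sg (un (v z)) := by
  refine continuous_matrix fun i j => ?_
  rw [continuous_iff_continuousAt]
  intro z
  by_cases hz : v z = 0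
  · have e0 : (D z • sg (un (v z))) i j = 0 := by
      rw [h0 z hz, zero_smul, Matrix.zero_apply]
    rw [ContinuousAt, e0]
    refine squeeze_zero_norm (a := fun z => ‖D z‖ * 2) ?_ ?_
    · intro z'
      rw [Matrix.smul_apply, norm_smul]
      exact mul_le_mul_of_nonneg_left (sg_bound _ i j) (norm_nonneg _)
    · have h : Filter.Tendsto (fun z => ‖D z‖ * 2) (nhds z) (nhds (‖D z‖ * 2)) :=
        (hD.norm.mul (continuous_const : Continuous fun _ : Z => (2 : ℝ))).tendsto z
      rw [h0 z hz, norm_zero, zero_mul] at h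
      exact h
  · have h1 : ContinuousAt (fun z => sg (un (v z))) z :=
      (sg_cont.continuousAt).comp ((un_cont hz).comp hv.continuousAt)
    have h2 : ContinuousAt (fun z => D z • sg (un (v z))) z := hD.continuousAt.smul h1
    exact (continuous_apply_apply i j).continuousAt.comp h2

/-- Continuity of `f(A) p₊ + f(B) p₋`. -/
theorem cont_pm {Z : Type} [TopologicalSpace Z] (a b : Z → ℂ) (v : Z → E3) (ha : Continuous a)
    (hb : Continuous b) (hv : Continuous v) (h0 : ∀ z, v z = 0 → a z = b z) :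
    Continuous fun z => a z • pp (un (v z)) + b z • pm (un (v z)) := by
  have e : (fun z => a z • pp (un (v z)) + b z • pm (un (v z))) =
      fun z => ((1 / 2) * (a z + b z)) • (1 : Matrix (Fin 2) (Fin 2) ℂ) +
        ((1 / 2) * (a z - b z)) • sg (un (v z)) := by
    funext z
    unfold pp pm
    module
  rw [e]
  refine Continuous.add ?_ ?_
  · exact (continuous_const.mul (ha.add hb)).smul continuous_const
  · refine cont_smul_sg _ _ (continuous_const.mul (ha.sub hb)) hv fun z hz => ?_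
    rw [h0 z hz, sub_self, mul_zero]

theorem sg_sq (v : E3) : sg v * sg v = ((‖v‖ ^ 2 : ℝ) : ℂ) • (1 : Matrix (Fin 2) (Fin 2) ℂ) := by
  have h : ‖v‖ ^ 2 = v 0 ^ 2 + v 1 ^ 2 + v 2 ^ 2 := by
    rw [EuclideanSpace.norm_sq_eq, Fin.sum_univ_three]
    simp
  rw [h]
  have hI : Complex.I * Complex.I = -1 := Complex.I_mul_I
  ext i j
  fin_cases i <;> fin_cases j <;> simp [sg, Matrix.mul_apply, Fin.sum_univ_two]
  · linear_combination (-(v 1 : ℂ) ^ 2) * hI
  · ring
  · ring
  · linear_combination (-(v 1 : ℂ) ^ 2) * hI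

theorem sg_star (v : E3) : (sg v).conjTranspose = sg v := by
  ext i j
  fin_cases i <;> fin_cases j <;> simp [sg, Matrix.conjTranspose_apply]
  ring

theorem un_norm {v : E3} (hv : v ≠ 0) : ‖un v‖ = 1 := by
  unfold un
  rw [norm_smul, norm_inv, norm_norm, inv_mul_cancel₀ (norm_ne_zero_iff.2 hv)]

theorem pp_star (v : E3) : (pp v).conjTranspose = pp v := by
  unfold pp
  rw [Matrix.conjTranspose_smul, Matrix.conjTranspose_add, Matrix.conjTranspose_one, sg_star]
  congr 1
  simp

theorem pm_star (v : E3) : (pm v).conjTranspose = pm v := by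
  unfold pm
  rw [Matrix.conjTranspose_smul, Matrix.conjTranspose_sub, Matrix.conjTranspose_one, sg_star]
  congr 1
  simp

/-- Multiplication. -/
theorem pm_mul (a b a' b' : ℂ) (v : E3) (h : v = 0 → a = b ∧ a' = b') :
    (a • pp (un v) + b • pm (un v)) * (a' • pp (un v) + b' • pm (un v)) =
      (a * a') • pp (un v) + (b * b') • pm (un v) := by
  by_cases hv : v = 0
  · obtain ⟨h1, h2⟩ := h hv
    subst h1 h2
    rw [← smul_add, ← smul_add, ← smul_add, XEP_.pp_add_pm, smul_mul_smul_comm, mul_one]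
  · have h1 : sg (un v) * sg (un v) = 1 := by
      rw [sg_sq, un_norm hv]
      simp
    unfold pp pm
    set S := sg (un v)
    have e : (a • (1 / 2 : ℂ) • (1 + S) + b • (1 / 2 : ℂ) • (1 - S)) *
        (a' • (1 / 2 : ℂ) • (1 + S) + b' • (1 / 2 : ℂ) • (1 - S)) =
        ((1 / 4 : ℂ) * ((a + b) * (a' + b'))) • (1 : Matrix (Fin 2) (Fin 2) ℂ) +
        ((1 / 4 : ℂ) * ((a + b) * (a' - b') + (a - b) * (a' + b'))) • S +
        ((1 / 4 : ℂ) * ((a - b) * (a' - b'))) • (S * S) := by
      simp only [mul_add, add_mul, mul_sub, sub_mul, smul_mul_assoc, mul_smul_comm, mul_one,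
        one_mul, smul_add, smul_sub]
      module
    rw [e, h1]
    module

theorem sph (x : M3) : ‖x.1.1‖ ^ 2 + x.1.2 ^ 2 = 1 := x.2

theorem mem_aux (s : ℝ) (w h : ℝ) (hx : w ^ 2 + h ^ 2 = 1) :
    (⟨h * Real.cos s - w * Real.sin s, h * Real.sin s + w * Real.cos s⟩ : ℂ) ∈
      Metric.sphere (0 : ℂ) 1 := by
  rw [mem_sphere_zero_iff_norm]
  have e : ‖(⟨h * Real.cos s - w * Real.sin s, h * Real.sin s + w * Real.cos s⟩ : ℂ)‖ ^ 2 = 1 := by
    rw [← Complex.normSq_eq_norm_sq, Complex.normSq_apply]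
    have := Real.sin_sq_add_cos_sq s
    simp only
    linear_combination (w ^ 2 + h ^ 2) * this + hx
  exact (pow_eq_one_iff_of_nonneg (norm_nonneg _) two_ne_zero).1 e

/-- The circle point `(h + i |w|) e^(i s)`. -/
def zA (q : ℝ × M3) : S1 :=
  ⟨⟨q.2.1.2 * Real.cos q.1 - ‖q.2.1.1‖ * Real.sin q.1,
    q.2.1.2 * Real.sin q.1 + ‖q.2.1.1‖ * Real.cos q.1⟩, mem_aux _ _ _ (sph q.2)⟩

/-- The circle point `(h - i |w|) e^(i s)`. -/
def zB (q : ℝ × M3) : S1 :=
  ⟨⟨q.2.1.2 * Real.cos q.1 - (-‖q.2.1.1‖) * Real.sin q.1,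
    q.2.1.2 * Real.sin q.1 + (-‖q.2.1.1‖) * Real.cos q.1⟩,
    mem_aux _ _ _ (by rw [neg_sq]; exact sph q.2)⟩

theorem mk_cont {Z : Type} [TopologicalSpace Z] {a b : Z → ℝ} (ha : Continuous a)
    (hb : Continuous b) : Continuous fun z => (⟨a z, b z⟩ : ℂ) := by
  have e : (fun z => (⟨a z, b z⟩ : ℂ)) = fun z => (a z : ℂ) + (b z : ℂ) * Complex.I := by
    funext z
    exact Complex.mk_eq_add_mul_I _ _
  rw [e]
  fun_prop

theorem zA_cont : Continuous zA := by
  refine Continuous.subtype_mk (mk_cont ?_ ?_) _ <;> fun_prop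

theorem zB_cont : Continuous zB := by
  refine Continuous.subtype_mk (mk_cont ?_ ?_) _ <;> fun_prop

theorem xi_eq (s : ℝ) (f : C(M3, ℂ)) (x : M3) (m : S2) :
    xi s f x m = f (GMV_.Gm (zA (s, x), m)) • pp (un x.1.1) +
      f (GMV_.Gm (zB (s, x), m)) • pm (un x.1.1) := by
  rw [GMV_.Gm_m3, GMV_.Gm_m3]
  unfold xi zA zB
  simp only [neg_mul, sub_neg_eq_add, ← sub_eq_add_neg]

theorem zAB {q : ℝ × M3} (h : q.2.1.1 = 0) : zA q = zB q := by
  apply Subtype.ext
  unfold zA zB
  simp [h]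

/-- Joint continuity. -/
theorem joint (f : C(M3, ℂ)) :
    Continuous fun q : (ℝ × M3) × S2 => xi q.1.1 f q.1.2 q.2 := by
  simp_rw [xi_eq]
  refine cont_pm (fun q : (ℝ × M3) × S2 => f (GMV_.Gm (zA q.1, q.2)))
    (fun q : (ℝ × M3) × S2 => f (GMV_.Gm (zB q.1, q.2))) (fun q => q.1.2.1.1) ?_ ?_ ?_ ?_
  · exact f.continuous.comp (GMV_.Gm.continuous.comp
      ((zA_cont.comp continuous_fst).prodMk continuous_snd))
  · exact f.continuous.comp (GMV_.Gm.continuous.comp
      ((zB_cont.comp continuous_fst).prodMk continuous_snd))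
  · fun_prop
  · intro q hq
    rw [zAB hq]

theorem comp_joint {Z : Type} [TopologicalSpace Z] (f : C(M3, ℂ))
    (r : Z → (ℝ × M3) × S2) (hr : Continuous r) :
    Continuous ((fun q : (ℝ × M3) × S2 => xi q.1.1 f q.1.2 q.2) ∘ r) :=
  Continuous.comp (joint f) hr

theorem slice (s : ℝ) (f : C(M3, ℂ)) : Continuous fun p : M3 × S2 => xi s f p.1 p.2 := by
  have h := comp_joint f (fun p : M3 × S2 => (((s, p.1), p.2) : (ℝ × M3) × S2))
    ((continuous_const.prodMk continuous_fst).prodMk continuous_snd)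
  unfold Function.comp at h
  exact h

/-- The homomorphism for fixed `s`. -/
def PA (s : ℝ) (f : C(M3, ℂ)) : C(M3 × S2, Matrix (Fin 2) (Fin 2) ℂ) :=
  ⟨fun p => xi s f p.1 p.2, slice s f⟩

theorem PA_apply (s : ℝ) (f : C(M3, ℂ)) (p : M3 × S2) : PA s f p = xi s f p.1 p.2 := rfl

theorem ehm (s : ℝ) : EHM (PA s) where
  add f g := by
    ext p : 1
    rw [ContinuousMap.add_apply, PA_apply, PA_apply, PA_apply, xi_eq, xi_eq, xi_eq,
      ContinuousMap.add_apply, ContinuousMap.add_apply]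
    module
  smul c f := by
    ext p : 1
    rw [ContinuousMap.smul_apply, PA_apply, PA_apply, xi_eq, xi_eq, ContinuousMap.smul_apply,
      ContinuousMap.smul_apply, smul_eq_mul, smul_eq_mul]
    module
  one p := by
    rw [PA_apply, xi_eq, ContinuousMap.one_apply, ContinuousMap.one_apply, one_smul, one_smul,
      XEP_.pp_add_pm]
    congr
    exact Subsingleton.elim _ _
  str f p := by
    rw [PA_apply, PA_apply, xi_eq, xi_eq, Matrix.conjTranspose_add, Matrix.conjTranspose_smul,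
      Matrix.conjTranspose_smul, pp_star, pm_star]
    rfl
  mul f g p := by
    rw [PA_apply, PA_apply, PA_apply, xi_eq, xi_eq, xi_eq, pm_mul, ContinuousMap.mul_apply,
      ContinuousMap.mul_apply]
    intro h
    rw [zAB (q := (s, p.1)) h]
    exact ⟨rfl, rfl⟩

end XIT_

open XIT_ in
/-- The first homotopy. -/
theorem p_XIT : T_XIT := by
  refine ⟨fun s => ⟨PA s, ehm s, fun f x m => rfl⟩, ?_⟩
  intro f ε hε
  set I := Set.Icc (0 : ℝ) (Real.pi / 2) with hI
  have h1 := comp_joint f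
    (fun q : (I × I) × (M3 × S2) => ((((q.1.1 : ℝ), q.2.1), q.2.2) : (ℝ × M3) × S2))
    (((continuous_subtype_val.comp (continuous_fst.comp continuous_fst)).prodMk
      (continuous_fst.comp continuous_snd)).prodMk (continuous_snd.comp continuous_snd))
  have h2 := comp_joint f
    (fun q : (I × I) × (M3 × S2) => ((((q.1.2 : ℝ), q.2.1), q.2.2) : (ℝ × M3) × S2))
    (((continuous_subtype_val.comp (continuous_snd.comp continuous_fst)).prodMk
      (continuous_fst.comp continuous_snd)).prodMk (continuous_snd.comp continuous_snd))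
  have hc := continuous_opn.comp (h1.sub h2)
  have hu := CompactSpace.uniformContinuous_of_continuous hc
  obtain ⟨δ, hδ, h⟩ := Metric.uniformContinuous_iff.1 hu ε hε
  refine ⟨δ, hδ, ?_⟩
  intro s s' h0 h1 h0' h1' hss x m
  have hd : dist (((⟨s, h0, h1⟩, ⟨s', h0', h1'⟩), (x, m)) : (I × I) × (M3 × S2))
      (((⟨s, h0, h1⟩, ⟨s, h0, h1⟩), (x, m)) : (I × I) × (M3 × S2)) < δ := by
    rw [Prod.dist_eq, Prod.dist_eq, dist_self, dist_self]
    simp only [max_lt_iff]
    refine ⟨⟨hδ, ?_⟩, hδ⟩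
    rw [Subtype.dist_eq, Real.dist_eq, abs_sub_comm]
    exact hss
  have h4 := h hd
  simp only [Function.comp_apply, Pi.sub_apply, sub_self] at h4
  have h3 : opn (0 : Matrix (Fin 2) (Fin 2) ℂ) = 0 := by simp [opn]
  rw [h3, Real.dist_eq, sub_zero] at h4
  exact (le_abs_self _).trans h4.le

end Pool.Agent.FPS
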