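import Pool.Agent.FPZ.All
import Pool.Agent.FPS.P_AHN
import Pool.Agent.FPS.P_AMC
import Pool.Agent.FPS.P_AMM
import Pool.Agent.FPS.P_AMP
import Pool.Agent.FPS.P_AMX
import Pool.Agent.FPS.P_APD
import Pool.Agent.FPS.P_APE
import Pool.Agent.FPS.P_AUJ
import Pool.Agent.FPS.P_BK1
import Pool.Agent.FPS.P_BK2
import Pool.Agent.FPS.P_BK3
import Pool.Agent.FPS.P_BK4
import Pool.Agent.FPS.P_BKU
import Pool.Agent.FPS.P_BXC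
import Pool.Agent.FPS.P_BXH
import Pool.Agent.FPS.P_CAH
import Pool.Agent.FPS.P_CAN
import Pool.Agent.FPS.P_CDA
import Pool.Agent.FPS.P_CDB
import Pool.Agent.FPS.P_CDP
import Pool.Agent.FPS.P_CDR
import Pool.Agent.FPS.P_CHE
import Pool.Agent.FPS.P_CM1
import Pool.Agent.FPS.P_CM3
import Pool.Agent.FPS.P_CNC
import Pool.Agent.FPS.P_CPM
import Pool.Agent.FPS.P_CU2
import Pool.Agent.FPS.P_DEX
import Pool.Agent.FPS.P_EDF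
import Pool.Agent.FPS.P_EM3
import Pool.Agent.FPS.P_EMB
import Pool.Agent.FPS.P_EMX
import Pool.Agent.FPS.P_EXA
import Pool.Agent.FPS.P_FCC
import Pool.Agent.FPS.P_FCD
import Pool.Agent.FPS.P_FI3
import Pool.Agent.FPS.P_FLD
import Pool.Agent.FPS.P_GMH
import Pool.Agent.FPS.P_GMP
import Pool.Agent.FPS.P_GMV
import Pool.Agent.FPS.P_GRL
import Pool.Agent.FPS.P_HEC
import Pool.Agent.FPS.P_HES
import Pool.Agent.FPS.P_HMO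
import Pool.Agent.FPS.P_HST
import Pool.Agent.FPS.P_HTC1
import Pool.Agent.FPS.P_HTC3
import Pool.Agent.FPS.P_IDZ
import Pool.Agent.FPS.P_KAV
import Pool.Agent.FPS.P_KHM
import Pool.Agent.FPS.P_KPM
import Pool.Agent.FPS.P_LK3
import Pool.Agent.FPS.P_MAP
import Pool.Agent.FPS.P_NS3
import Pool.Agent.FPS.P_NU1
import Pool.Agent.FPS.P_OCR
import Pool.Agent.FPS.P_ODC
import Pool.Agent.FPS.P_OMG
import Pool.Agent.FPS.P_OSI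
import Pool.Agent.FPS.P_PER
import Pool.Agent.FPS.P_PIC
import Pool.Agent.FPS.P_PIT
import Pool.Agent.FPS.P_PQN
import Pool.Agent.FPS.P_PRK
import Pool.Agent.FPS.P_PSM
import Pool.Agent.FPS.P_PTC
import Pool.Agent.FPS.P_PTH
import Pool.Agent.FPS.P_QCA
import Pool.Agent.FPS.P_QCE
import Pool.Agent.FPS.P_QCM
import Pool.Agent.FPS.P_QCP
import Pool.Agent.FPS.P_RCM
import Pool.Agent.FPS.P_RDV
import Pool.Agent.FPS.P_REV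
import Pool.Agent.FPS.P_RIC
import Pool.Agent.FPS.P_RLC
import Pool.Agent.FPS.P_RLS
import Pool.Agent.FPS.P_RSB
import Pool.Agent.FPS.P_RSJ
import Pool.Agent.FPS.P_SLH
import Pool.Agent.FPS.P_SLT
import Pool.Agent.FPS.P_SPT
import Pool.Agent.FPS.P_ST1
import Pool.Agent.FPS.P_ST2
import Pool.Agent.FPS.P_STP
import Pool.Agent.FPS.P_SYM
import Pool.Agent.FPS.P_SYX
import Pool.Agent.FPS.P_THT
import Pool.Agent.FPS.P_THX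
import Pool.Agent.FPS.P_TRI
import Pool.Agent.FPS.P_TRN
import Pool.Agent.FPS.P_TRP
import Pool.Agent.FPS.P_UAP
import Pool.Agent.FPS.P_UNM
import Pool.Agent.FPS.P_UPA
import Pool.Agent.FPS.P_UQC
import Pool.Agent.FPS.P_UQE
import Pool.Agent.FPS.P_VC2
import Pool.Agent.FPS.P_XEP
import Pool.Agent.FPS.P_XIT

set_option autoImplicit false

namespace Pool.Agent.FPS

theorem q_PSM : T_PSM := p_PSM
theorem q_CPM : T_CPM := p_CPM q_PSM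
theorem q_AHN : T_AHN := p_AHN q_CPM
theorem q_AMC : T_AMC := p_AMC q_CPM
theorem q_AMM : T_AMM := p_AMM
theorem q_AMP : T_AMP := p_AMP q_CPM q_PSM
theorem q_CHE : T_CHE := p_CHE
theorem q_AMX : T_AMX := p_AMX q_AMP q_AMC q_CHE
theorem q_APD : T_APD := p_APD
theorem q_APE : T_APE := p_APE
theorem q_AUJ : T_AUJ := p_AUJ Pool.Agent.FPZ.q_ISO Pool.Agent.FPZ.q_FRG
theorem q_BK1 : T_BK1 := p_BK1
theorem q_BK2 : T_BK2 := p_BK2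
theorem q_BK3 : T_BK3 := p_BK3 q_BK1 q_BK2
theorem q_BK4 : T_BK4 := p_BK4 q_BK1 q_BK2
theorem q_BKU : T_BKU := p_BKU q_BK1 q_BK3
theorem q_BXC : T_BXC := p_BXC q_BK1
theorem q_BXH : T_BXH := p_BXH q_BK1 q_BKU q_BXC
theorem q_CAH : T_CAH := p_CAH q_PSM
theorem q_QCM : T_QCM := p_QCM Pool.Agent.FPZ.q_SRD Pool.Agent.FPZ.q_STB
theorem q_QCP : T_QCP := p_QCP q_QCM
theorem q_RCM : T_RCM := p_RCM Pool.Agent.FPZ.q_SQP Pool.Agent.FPZ.q_PRT Pool.Agent.FPZ.q_CLS Pool.Agent.FPZ.q_SUT Pool.Agent.FPZ.q_TSB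
theorem q_PTH : T_PTH := p_PTH
theorem q_CAN : T_CAN := p_CAN q_QCP q_RCM q_PTH
theorem q_SYM : T_SYM := p_SYM
theorem q_QCA : T_QCA := p_QCA q_QCP q_RCM
theorem q_CU2 : T_CU2 := p_CU2 Pool.Agent.FPZ.q_QCO
theorem q_DEX : T_DEX := p_DEX q_SYM q_QCA q_CU2 Pool.Agent.FPZ.q_TSB
theorem q_QCE : T_QCE := p_QCE
theorem q_OCR : T_OCR := p_OCR
theorem q_ODC : T_ODC := p_ODC q_OCR
theorem q_PQN : T_PQN := p_PQN
theorem q_CDP : T_CDP := p_CDP q_PQN q_QCA Pool.Agent.FPZ.q_TSB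
theorem q_CDR : T_CDR := p_CDR q_CDP Pool.Agent.FPZ.q_PLE
theorem q_RDV : T_RDV := p_RDV q_RCM
theorem q_SPT : T_SPT := p_SPT q_RCM Pool.Agent.FPZ.q_TSB
theorem q_CNC : T_CNC := p_CNC q_CAN q_SPT Pool.Agent.FPZ.q_TSB
theorem q_GRL : T_GRL := p_GRL q_AMP q_CPM q_RDV q_CNC q_PSM
theorem q_LK3 : T_LK3 := p_LK3 q_AMP q_AMC q_CNC
theorem q_TRN : T_TRN := p_TRN q_RCM q_CNC Pool.Agent.FPZ.q_TSB
theorem q_REV : T_REV := p_REV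
theorem q_CDA : T_CDA := p_CDA q_DEX q_QCE q_OCR q_ODC q_CDR q_CAH q_RDV q_GRL q_AMM q_LK3 q_TRN q_REV q_AMP
theorem q_SLT : T_SLT := p_SLT Pool.Agent.FPZ.q_STB q_QCA q_RDV
theorem q_SLH : T_SLH := p_SLH q_SLT
theorem q_RLC : T_RLC := p_RLC q_GRL
theorem q_CDB : T_CDB := p_CDB q_SLH q_CU2 q_CHE q_CAH q_CDR q_RLC q_TRN q_REV
theorem q_NU1 : T_NU1 := p_NU1 Pool.Agent.FPZ.q_SPC Pool.Agent.FPZ.q_NHI Pool.Agent.FPZ.q_CIR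
theorem q_CM1 : T_CM1 := p_CM1 Pool.Agent.FPZ.q_HTC Pool.Agent.FPZ.q_SPC Pool.Agent.FPZ.q_NHI q_NU1
theorem q_PIT : T_PIT := p_PIT
theorem q_KAV : T_KAV := p_KAV
theorem q_CM3 : T_CM3 := p_CM3 q_PIT q_KAV q_NU1
theorem q_EDF : T_EDF := p_EDF q_AMP q_PSM
theorem q_EM3 : T_EM3 := p_EM3
theorem q_RIC : T_RIC := p_RIC Pool.Agent.FPZ.q_FRG Pool.Agent.FPZ.q_DIR Pool.Agent.FPZ.q_DEN
theorem q_RSJ : T_RSJ := p_RSJ
theorem q_RSB : T_RSB := p_RSB q_RIC q_RSJ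
theorem q_EMX : T_EMX := p_EMX Pool.Agent.FPZ.q_GFN Pool.Agent.FPZ.q_TSB q_QCA q_RDV
theorem q_OMG : T_OMG := p_OMG
theorem q_EMB : T_EMB := p_EMB q_RSB q_EMX q_OMG Pool.Agent.FPZ.q_FRG Pool.Agent.FPZ.q_ASC Pool.Agent.FPZ.q_ISO
theorem q_EXA : T_EXA := p_EXA q_RSB q_EMX q_OMG Pool.Agent.FPZ.q_FRG Pool.Agent.FPZ.q_ASC
theorem q_PTC : T_PTC := p_PTC
theorem q_VC2 : T_VC2 := p_VC2 q_AHN Pool.Agent.FPZ.q_PLE
theorem q_UQC : T_UQC := p_UQC q_VC2 Pool.Agent.FPZ.q_NET Pool.Agent.FPZ.q_CHN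
theorem q_HST : T_HST := p_HST
theorem q_SYX : T_SYX := p_SYX q_SYM q_HST
theorem q_RLS : T_RLS := p_RLS q_SLH q_CU2 q_CDR q_RLC q_CAH
theorem q_UNM : T_UNM := p_UNM q_RCM q_CNC
theorem q_UQE : T_UQE := p_UQE q_PTC q_UQC q_SYX q_RLS q_TRN q_REV q_UNM Pool.Agent.FPZ.q_TSB
theorem q_KPM : T_KPM := p_KPM q_PTC
theorem q_KHM : T_KHM := p_KHM Pool.Agent.FPZ.q_HTP
theorem q_FCC : T_FCC := p_FCC q_UQE q_KPM q_KHM q_CDR q_GRL q_AMP q_AMX q_AMM q_LK3 q_EDF q_CHE q_CAH q_RDV q_TRN q_REV q_AHN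
theorem q_FCD : T_FCD := p_FCD q_UQC q_SYX q_CDA q_CDB q_TRN q_UNM q_RDV q_PTC Pool.Agent.FPZ.q_HTP Pool.Agent.FPZ.q_TSB
theorem q_PER : T_PER := p_PER Pool.Agent.FPZ.q_ISO
theorem q_ST1 : T_ST1 := p_ST1 q_FCD q_DEX q_RSB q_AUJ q_PER
theorem q_TRP : T_TRP := p_TRP
theorem q_TRI : T_TRI := p_TRI Pool.Agent.FPZ.q_PLE
theorem q_IDZ : T_IDZ := p_IDZ
theorem q_UAP : Pool.Agent.FPZ.T_UAP := p_UAP Pool.Agent.FPZ.q_PLE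
theorem q_ST2 : T_ST2 := p_ST2 q_TRP q_TRI q_IDZ q_APE q_OCR q_UAP Pool.Agent.FPZ.q_STB
theorem q_MAP : T_MAP := p_MAP
theorem q_STP : T_STP := p_STP q_ST1 q_ST2 q_FCC q_DEX q_QCE q_ODC q_APD q_RSB q_AUJ q_PER q_MAP
theorem q_OSI : T_OSI := p_OSI
theorem q_THX : T_THX := p_THX q_EMB q_STP q_OSI q_APE q_APD q_IDZ Pool.Agent.FPZ.q_SEP
theorem q_NS3 : T_NS3 := p_NS3
theorem q_HMO : T_HMO := p_HMO
theorem q_GMV : T_GMV := p_GMV q_BK1 q_BXC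
theorem q_GMH : T_GMH := p_GMH q_GMV q_BK1 q_BKU
theorem q_GMP : T_GMP := p_GMP q_GMV q_BK1
theorem q_XIT : T_XIT := p_XIT
theorem q_THT : T_THT := p_THT
theorem q_XEP : T_XEP := p_XEP
theorem q_PIC : T_PIC := p_PIC q_XIT q_THT q_XEP
theorem q_PRK : T_PRK := p_PRK
theorem q_UPA : T_UPA := p_UPA
theorem q_FLD : T_FLD := p_FLD q_PRK q_UPA
theorem q_HTC3 : T_HTC3 := p_HTC3
theorem q_HTC1 : T_HTC1 := p_HTC1
theorem q_HES : T_HES := p_HES q_BK1 q_BK4 q_BXC q_BXH q_KAV q_GMV q_GMH q_GMP q_PIC q_FLD q_HTC3 q_HTC1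
theorem q_HEC : T_HEC := p_HEC q_PTC
theorem q_FI3 : T_FI3 := p_FI3 Pool.Agent.FPZ.q_ZFS Pool.Agent.FPZ.q_SPC Pool.Agent.FPZ.q_NHI q_THX q_EXA q_NU1 q_NS3 q_EM3 q_HMO q_CM3 q_CM1 q_KAV q_HES q_HEC

end Pool.Agent.FPS
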