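import Pool.Agent.FPZ.Targets5

set_option autoImplicit false

/-!
# FPS (MP_32d866_an, part (c)): definitions

Continuation of FPZ (see `Pool/Agent/FPS/Blueprint.md`). Every `T_XXX` of FPZ is proved as
`Pool.Agent.FPZ.q_XXX` in `Pool/Agent/FPZ/All.lean`.
-/

open scoped Classical
open MeasureTheory Pool.Agent.FPZ

noncomputable section

namespace Pool.Agent.FPS

/-- unitary -/
def Uni {A : Type} [CStarAlgebra A] (u : A) : Prop := star u * u = 1 ∧ u * star u = 1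

/-- positive -/
def Pos {A : Type} [CStarAlgebra A] (a : A) : Prop := ∃ b, a = star b * b

/-- `(A, φ)` is rich: `φ` is a faithful trace and every finite set is almost contained in a
C*-subalgebra `X` that is free from a projection with trace in a given interval. -/
structure Rich {A : Type} [CStarAlgebra A] (φ : A →L[ℂ] ℂ) : Prop where
  ts : TS φ
  ric : ∀ (S : Finset A) (ε a b : ℝ), 0 < ε → 0 ≤ a → a < b → b ≤ 1 →
    ∃ (X Y : StarSubalgebra ℂ A) (R : A), IsClosed (X : Set A) ∧ IsClosed (Y : Set A) ∧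
      Free φ (fun i : Bool => bif i then (X : Set A) else (Y : Set A)) ∧ (∀ s ∈ S, ∃ x ∈ Y, ‖s - x‖ ≤ ε) ∧
      R ∈ X ∧ IsStarProjection R ∧ a < (φ R).re ∧ (φ R).re < b

/-- Unital positive star linear maps that are `δ`-multiplicative on `H`. -/
structure AH {K A : Type} [TopologicalSpace K] [CompactSpace K] [CStarAlgebra A] (H : Finset C(K, ℂ)) (δ : ℝ)
    (L : C(K, ℂ) → A) : Prop where
  add : ∀ f g, L (f + g) = L f + L g
  smul : ∀ (c : ℂ) (f : C(K, ℂ)), L (c • f) = c • L f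
  one : L 1 = 1
  str : ∀ f, L (star f) = star (L f)
  pos : ∀ f, Pos (L (star f * f))
  mul : ∀ f ∈ H, ∀ g ∈ H, ‖L (f * g) - L f * L g‖ ≤ δ

/-- The compression of `L` to `E`, completed by the evaluation at the base point `k₀`. -/
def cmp {K A : Type} [TopologicalSpace K] [CStarAlgebra A] (k₀ : K) (E : A) (L : C(K, ℂ) → A) : C(K, ℂ) → A :=
  fun f => E * L f * E + f k₀ • (1 - E)

/-- `L` is supported in `E`. -/
def Spt {K A : Type} [TopologicalSpace K] [CStarAlgebra A] (k₀ : K) (E : A) (L : C(K, ℂ) → A) : Prop :=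
  ∀ f, L f = E * L f * E + f k₀ • (1 - E)

/-- `(E, L)` and `(E', L')` are, up to unitaries, the ends of a chain of `m + 1` almost homomorphisms supported in
one projection of trace `< c`. -/
def Chn {K A : Type} [TopologicalSpace K] [CompactSpace K] [CStarAlgebra A] (φ : A →L[ℂ] ℂ) (k₀ : K)
    (H : Finset C(K, ℂ)) (δ : ℝ) (F : Finset C(K, ℂ)) (ε c : ℝ) (m : ℕ) (E : A) (L : C(K, ℂ) → A) (E' : A)
    (L' : C(K, ℂ) → A) : Prop :=
  ∃ (C : A) (Γ : ℕ → C(K, ℂ) → A) (a b : A), IsStarProjection C ∧ (φ C).re < c ∧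
    (∀ i ≤ m, AH H δ (Γ i) ∧ Spt k₀ C (Γ i)) ∧ (∀ i < m, ∀ f ∈ F, ‖Γ i f - Γ (i + 1) f‖ ≤ ε) ∧
    Uni a ∧ Uni b ∧ C * (a * E) = a * E ∧ C * (b * E') = b * E' ∧
    (∀ f, Γ 0 f = a * L f * star a) ∧ ∀ f, Γ m f = b * L' f * star b

/-- `L` and `L'`, cut down to `E` and `E'`, agree up to a unitary and up to point evaluations. -/
def Rel {K A : Type} [TopologicalSpace K] [CStarAlgebra A] (φ : A →L[ℂ] ℂ) (G : Finset C(K, ℂ)) (ε c : ℝ)
    (E : A) (L : C(K, ℂ) → A) (E' : A) (L' : C(K, ℂ) → A) : Prop :=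
  ∃ (I J : ℕ) (a : Fin I → A) (x : Fin I → K) (b : Fin J → A) (x' : Fin J → K) (y : A), Uni y ∧
    (∀ i, IsStarProjection (a i)) ∧ (∀ i i', i ≠ i' → a i * a i' = 0) ∧ (∀ i, E * a i = 0) ∧
    (∀ j, IsStarProjection (b j)) ∧ (∀ j j', j ≠ j' → b j * b j' = 0) ∧ (∀ j, E' * b j = 0) ∧
    y * (E + ∑ i, a i) = (E' + ∑ j, b j) * y ∧ (φ (E + ∑ i, a i)).re < c ∧
    ∀ g ∈ G, ‖y * (E * L g * E + ∑ i, g (x i) • a i) * star y - (E' * L' g * E' + ∑ j, g (x' j) • b j)‖ ≤ ε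

/-- Operator norm of a matrix. -/
def opn {n : Type} [Fintype n] (M : Matrix n n ℂ) : ℝ := ‖Matrix.toEuclideanCLM (n := n) (𝕜 := ℂ) M‖

/-- The entries of a matrix valued function. -/
def ent {K n : Type} [TopologicalSpace K] (M : C(K, Matrix n n ℂ)) (a b : n) : C(K, ℂ) :=
  ⟨fun x => M x a b, (continuous_apply b).comp ((continuous_apply a).comp M.continuous)⟩

/-- Matrix valued almost homomorphisms. -/
structure AHM {K K' n : Type} [TopologicalSpace K] [CompactSpace K] [TopologicalSpace K'] [Fintype n]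
    (H : Finset C(K, ℂ)) (δ : ℝ) (γ : C(K, ℂ) → C(K', Matrix n n ℂ)) : Prop where
  add : ∀ f g, γ (f + g) = γ f + γ g
  smul : ∀ (c : ℂ) (f : C(K, ℂ)), γ (c • f) = c • γ f
  one : ∀ x, γ 1 x = 1
  str : ∀ f x, γ (star f) x = (γ f x).conjTranspose
  pos : ∀ f x, ∃ N : Matrix n n ℂ, γ (star f * f) x = N.conjTranspose * N
  mul : ∀ f ∈ H, ∀ g ∈ H, ∀ x, opn (γ (f * g) x - γ f x * γ g x) ≤ δ

/-- Amplification: `∑ τ_a L(γ(f)_ab) τ_b*`, completed by the evaluation at the base point. -/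
def amp {K K' n A : Type} [TopologicalSpace K] [TopologicalSpace K'] [Fintype n] [CStarAlgebra A] (k₀ : K)
    (τ : n → A) (L : C(K', ℂ) → A) (γ : C(K, ℂ) → C(K', Matrix n n ℂ)) : C(K, ℂ) → A :=
  fun f => ∑ a, ∑ b, τ a * L (ent (γ f) a b) * star (τ b) + f k₀ • (1 - ∑ a, τ a * star (τ a))

/-- `τ` is a family of isometries of the projection `E` with orthogonal ranges. -/
def PI {n A : Type} [CStarAlgebra A] (E : A) (τ : n → A) : Prop :=
  (∀ a, star (τ a) * τ a = E) ∧ ∀ a b, a ≠ b → star (τ a) * τ b = 0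

end Pool.Agent.FPS
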