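import Pool.Agent.FPS.Defs

set_option autoImplicit false

/-!
# FPS: definitions for the homotopy data
-/

open scoped Classical
open MeasureTheory Pool.Agent.FPZ

noncomputable section

namespace Pool.Agent.FPS

/-- Exact matrix valued homomorphisms. -/
structure EHM {K Y n : Type} [TopologicalSpace K] [TopologicalSpace Y] [Fintype n] (P : C(K, ℂ) → C(Y, Matrix n n ℂ)) : Prop where
  add : ∀ f g, P (f + g) = P f + P g
  smul : ∀ (c : ℂ) (f : C(K, ℂ)), P (c • f) = c • P f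
  one : ∀ x, P 1 x = 1
  str : ∀ f x, P (star f) x = (P f x).conjTranspose
  mul : ∀ f g x, P (f * g) x = P f x * P g x

/-- The homotopy data. `κ : C(S¹) → C(K, M_r)` is fixed; `γ : C(K) → C(S¹, M_k)` is almost multiplicative, has movable points (`m₁` steps),
and the two compositions are joined to `id ⊕ points` by chains of almost homomorphisms. The numbers of steps do not depend on `H, H', δ`. -/
def HE (K : Type) [TopologicalSpace K] [CompactSpace K] (k₀ : K) (r : ℕ) (κ : C(S1, ℂ) → C(K, Matrix (Fin r) (Fin r) ℂ)) : Prop :=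
  ∀ (F' : Finset C(S1, ℂ)) (ε' : ℝ), 0 < ε' → ∃ m' : ℕ, ∀ (F : Finset C(K, ℂ)) (ε : ℝ), 0 < ε → ∃ m m₁ : ℕ,
  ∀ (H : Finset C(K, ℂ)) (H' : Finset C(S1, ℂ)) (δ : ℝ), 0 < δ → ∃ (k : ℕ) (γ : C(K, ℂ) → C(S1, Matrix (Fin k) (Fin k) ℂ)), 0 < k ∧
    AHM H δ γ ∧ (∀ f, γ f 1 = f k₀ • (1 : Matrix (Fin k) (Fin k) ℂ)) ∧
    (∀ x : S1, ∃ w : ℕ → S1, w 0 = 1 ∧ w m₁ = x ∧ ∀ l < m₁, ∀ f ∈ F, opn (γ f (w l) - γ f (w (l + 1))) ≤ ε) ∧
    (∃ (Ψ : ℕ → C(K, ℂ) → C(K, Matrix (Fin k × Fin r) (Fin k × Fin r) ℂ)) (ζ : Fin k × Fin r → ℂ), ∑ a, ‖ζ a‖ ^ 2 = 1 ∧ (∀ i ≤ m, AHM H δ (Ψ i)) ∧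
      (∀ i < m, ∀ f ∈ F, ∀ x, opn (Ψ i f x - Ψ (i + 1) f x) ≤ ε) ∧ (∀ f x a b, Ψ 0 f x a b = f x * (ζ a * star (ζ b)) + f k₀ * ((1 : Matrix (Fin k × Fin r) (Fin k × Fin r) ℂ) a b - ζ a * star (ζ b))) ∧
      ∀ f x a b, Ψ m f x a b = κ (ent (γ f) a.1 b.1) x a.2 b.2) ∧
    ∃ (Ψ : ℕ → C(S1, ℂ) → C(S1, Matrix (Fin r × Fin k) (Fin r × Fin k) ℂ)) (ζ : Fin r × Fin k → ℂ), ∑ a, ‖ζ a‖ ^ 2 = 1 ∧ (∀ i ≤ m', AHM H' δ (Ψ i)) ∧
      (∀ i < m', ∀ g ∈ F', ∀ x, opn (Ψ i g x - Ψ (i + 1) g x) ≤ ε') ∧ (∀ g x a b, Ψ 0 g x a b = g x * (ζ a * star (ζ b)) + g 1 * ((1 : Matrix (Fin r × Fin k) (Fin r × Fin k) ℂ) a b - ζ a * star (ζ b))) ∧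
      ∀ g x a b, Ψ m' g x a b = γ (ent (κ g) a.1 b.1) x a.2 b.2

/-- The properties of `κ : C(S¹) → C(K, M_r)`. -/
structure KP {K : Type} [TopologicalSpace K] (k₀ : K) {r : ℕ} (κ : C(S1, ℂ) → C(K, Matrix (Fin r) (Fin r) ℂ)) : Prop where
  hom : EHM κ
  bas : ∀ g, κ g k₀ = g 1 • (1 : Matrix (Fin r) (Fin r) ℂ)
  dia : ∀ x, ∃ (J : ℕ) (lam : Fin J → S1) (p : Fin J → Matrix (Fin r) (Fin r) ℂ), (∀ l, p l * p l = p l ∧ (p l).conjTranspose = p l) ∧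
    (∀ l l', l ≠ l' → p l * p l' = 0) ∧ ∑ l, p l = 1 ∧ ∀ g, κ g x = ∑ l, g (lam l) • p l

/-! ## The spheres -/

/-- `ℝ³` -/
abbrev E3 : Type := EuclideanSpace ℝ (Fin 3)

/-- The two-sphere. -/
abbrev S2 : Type := Metric.sphere (0 : E3) 1

/-- The three-sphere as a set of pairs `(w, h)`. -/
abbrev M3 : Type := {p : E3 × ℝ // ‖p.1‖ ^ 2 + p.2 ^ 2 = 1}

instance M3_compact : CompactSpace M3 := by
  refine isCompact_iff_compactSpace.mp (Metric.isCompact_of_isClosed_isBounded (s := {p : E3 × ℝ | ‖p.1‖ ^ 2 + p.2 ^ 2 = 1}) ?_ ?_)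
  · exact isClosed_eq (by fun_prop) continuous_const
  · refine (Metric.isBounded_closedBall (x := (0 : E3 × ℝ)) (r := 1)).subset fun p hp => ?_
    have hp' : ‖p.1‖ ^ 2 + p.2 ^ 2 = 1 := hp
    rw [mem_closedBall_zero_iff, Prod.norm_def]
    refine max_le ?_ ?_
    · nlinarith [norm_nonneg p.1, sq_nonneg p.2]
    · rw [Real.norm_eq_abs, abs_le]
      constructor <;> nlinarith [norm_nonneg p.1, sq_nonneg ‖p.1‖]

/-- The base point `(0, 1)`. -/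
def k3 : M3 := ⟨(0, 1), by simp⟩

/-- The north pole of the two-sphere. -/
def n0 : S2 := ⟨EuclideanSpace.single 2 1, by simp⟩

/-- The point `(w, h)` of the three-sphere. -/
def m3 (w : E3) (h : ℝ) : M3 := if hh : ‖w‖ ^ 2 + h ^ 2 = 1 then ⟨(w, h), hh⟩ else k3

/-- The point `v` of the two-sphere. -/
def s2 (v : E3) : S2 := if hh : ‖v‖ = 1 then ⟨v, by simpa using hh⟩ else n0

/-- The point `x + i y` of the circle. -/
def s1 (x y : ℝ) : S1 := if hh : ‖(⟨x, y⟩ : ℂ)‖ = 1 then ⟨⟨x, y⟩, by simpa using hh⟩ else 1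

/-- A function as a continuous map (zero if it is not continuous). -/
def mkC {Y X : Type} [TopologicalSpace Y] [TopologicalSpace X] [Zero X] (F : Y → X) : C(Y, X) := if h : Continuous F then ⟨F, h⟩ else ⟨fun _ => 0, continuous_const⟩

/-- Pauli matrices: `v · σ`. -/
def sg (v : E3) : Matrix (Fin 2) (Fin 2) ℂ := !![(v 2 : ℂ), v 0 - v 1 * Complex.I; v 0 + v 1 * Complex.I, -v 2]

/-- `(1 + v · σ) / 2` -/
def pp (v : E3) : Matrix (Fin 2) (Fin 2) ℂ := (1 / 2 : ℂ) • (1 + sg v)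

/-- `(1 - v · σ) / 2` -/
def pm (v : E3) : Matrix (Fin 2) (Fin 2) ℂ := (1 / 2 : ℂ) • (1 - sg v)

/-- The unit vector of `v` (`0` for `v = 0`). -/
def un (v : E3) : E3 := ‖v‖⁻¹ • v

/-- `m` if `0 ≤ t`, otherwise the north pole. -/
def mt (t : ℝ) (m : S2) : S2 := if 0 ≤ t then m else n0

/-- `g ↦ g(h + i|w|) p₊(ŵ) + g(h - i|w|) p₋(ŵ)`, as a function. -/
def kapf (g : C(S1, ℂ)) (x : M3) : Matrix (Fin 2) (Fin 2) ℂ :=
  g (s1 x.1.2 ‖x.1.1‖) • pp (un x.1.1) + g (s1 x.1.2 (-‖x.1.1‖)) • pm (un x.1.1)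

/-- `κ` for the three-sphere. -/
def kap (g : C(S1, ℂ)) : C(M3, Matrix (Fin 2) (Fin 2) ℂ) := mkC (kapf g)

/-! ## Coherent states -/

/-- Coherent state vectors: `√(C(N,i) x^i (1-x)^(N-i)) e^(-2πiφ·i)`. -/
def cs (N : ℕ) (x φ : ℝ) (i : Fin (N + 1)) : ℂ :=
  (Real.sqrt (N.choose i * x ^ (i : ℕ) * (1 - x) ^ (N - (i : ℕ))) : ℂ) * Complex.exp (-(2 * Real.pi * (i : ℕ) * φ : ℝ) * Complex.I)

/-- The point `(2√(x(1-x)) cos 2πφ, 2√(x(1-x)) sin 2πφ, 2x-1)` of the sphere. -/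
def nv (x φ : ℝ) : S2 :=
  s2 (WithLp.toLp 2 ![2 * Real.sqrt (x * (1 - x)) * Real.cos (2 * Real.pi * φ), 2 * Real.sqrt (x * (1 - x)) * Real.sin (2 * Real.pi * φ), 2 * x - 1])

/-- The coherent state quantisation `C(S²) → M_{N+1}`. -/
def bk (N : ℕ) (f : C(S2, ℂ)) : Matrix (Fin (N + 1)) (Fin (N + 1)) ℂ :=
  Matrix.of fun i j => ((N : ℂ) + 1) * ∫ x in (0 : ℝ)..1, ∫ φ in (0 : ℝ)..1, f (nv x φ) * (cs N x φ i * star (cs N x φ j))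

/-- `bk ⊗ id` on matrix valued functions. -/
def bn {n : Type} [Fintype n] (N : ℕ) (M : C(S2, Matrix n n ℂ)) : Matrix (Fin (N + 1) × n) (Fin (N + 1) × n) ℂ :=
  Matrix.of fun a c => bk N (ent M a.2 c.2) a.1 c.1

/-- The slice at `y`. -/
def sl {Y X : Type} [TopologicalSpace Y] [TopologicalSpace X] (M : C(Y × S2, X)) (y : Y) : C(S2, X) := M.comp ⟨fun m => (y, m), by fun_prop⟩

/-- `(bk ⊗ id)` applied to a family over `Y`. -/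
def bx {Y n : Type} [TopologicalSpace Y] [Fintype n] (N : ℕ) (M : C(Y × S2, Matrix n n ℂ)) : C(Y, Matrix (Fin (N + 1) × n) (Fin (N + 1) × n) ℂ) :=
  mkC fun y => bn N (sl M y)

/-- `γ`: for `z = x + i y`, `γ f z = bk (m ↦ f (|y| m, x))` if `0 ≤ y`, and `f (|y| n0, x) • 1` otherwise. -/
def gam (N : ℕ) (f : C(M3, ℂ)) : C(S1, Matrix (Fin (N + 1)) (Fin (N + 1)) ℂ) :=
  mkC fun z => bk N (mkC fun m => f (m3 (|z.1.im| • (mt z.1.im m : E3)) z.1.re))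

end Pool.Agent.FPS
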