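import Mathlib

set_option autoImplicit false

namespace Pool.Agent.FPS

/-- The unit matrix does not depend on the decidability instance. -/
theorem one_inst {n : Type} (d₁ d₂ : DecidableEq n) :
    (@OfNat.ofNat (Matrix n n ℂ) 1 (@One.toOfNat1 _ (@Matrix.one n ℂ d₁ _ _))) =
      @OfNat.ofNat (Matrix n n ℂ) 1 (@One.toOfNat1 _ (@Matrix.one n ℂ d₂ _ _)) := by
  rw [Subsingleton.elim d₁ d₂]

end Pool.Agent.FPS
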