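import Pool.Agent.FPS.Targets4

set_option autoImplicit false

/-!
# FPS: proof of T_BXC
-/

open scoped Classical
open MeasureTheory Pool.Agent.FPZ

noncomputable section

namespace Pool.Agent.FPS

/-- Entries are bounded by the operator norm. -/
theorem BXC_entry {m : Type} [Fintype m] (A : Matrix m m ℂ) (i j : m) : ‖A i j‖ ≤ opn A := by
  have h1 := (Matrix.toEuclideanCLM (n := m) (𝕜 := ℂ) A).le_opNorm (EuclideanSpace.single j 1)
  have h2 : ‖(Matrix.toEuclideanCLM (n := m) (𝕜 := ℂ) A (EuclideanSpace.single j 1)) i‖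
      ≤ ‖Matrix.toEuclideanCLM (n := m) (𝕜 := ℂ) A (EuclideanSpace.single j 1)‖ :=
    PiLp.norm_apply_le _ i
  have h3 : (Matrix.toEuclideanCLM (n := m) (𝕜 := ℂ) A (EuclideanSpace.single j 1)) i = A i j := by
    rw [Matrix.ofLp_toEuclideanCLM]
    simp
  rw [h3] at h2
  refine h2.trans (h1.trans ?_)
  simp [opn]

/-- The one by one matrix of a function. -/
def BXC_one (f : C(S2, ℂ)) : C(S2, Matrix Unit Unit ℂ) :=
  ⟨fun x => Matrix.of fun _ _ => f x, by
    refine continuous_matrix fun i j => ?_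
    exact f.continuous⟩

theorem BXC_opn_le {m : Type} [Fintype m] (A : Matrix m m ℂ) (B : ℝ) (hB : 0 ≤ B)
    (h : ∀ v : EuclideanSpace ℂ m,
      ‖(WithLp.toLp 2 (A.mulVec v.ofLp) : EuclideanSpace ℂ m)‖ ≤ B * ‖v‖) : opn A ≤ B :=
  ContinuousLinearMap.opNorm_le_bound _ hB fun v => h v

theorem BXC_one_opn (f : C(S2, ℂ)) (x : S2) : opn (BXC_one f x) ≤ ‖f‖ := by
  refine BXC_opn_le _ _ (norm_nonneg f) fun v => ?_
  have h : (WithLp.toLp 2 ((BXC_one f x).mulVec v.ofLp) : EuclideanSpace ℂ Unit) = f x • v := by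
    ext i
    simp [BXC_one, Matrix.mulVec, dotProduct]
  rw [h, norm_smul]
  exact mul_le_mul_of_nonneg_right (f.norm_coe_le_norm x) (norm_nonneg v)

/-- Entries of the quantisation. -/
theorem BXC_bk_le (h_BK1 : T_BK1) (N : ℕ) (f : C(S2, ℂ)) (i j : Fin (N + 1)) :
    ‖bk N f i j‖ ≤ ‖f‖ := by
  have h := (h_BK1.2.2.2.2 N Unit (BXC_one f)).1 ‖f‖ (norm_nonneg f) (BXC_one_opn f)
  have h2 := BXC_entry (bn N (BXC_one f)) (i, ()) (j, ())
  have h3 : bn N (BXC_one f) (i, ()) (j, ()) = bk N f i j := by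
    have : ent (BXC_one f) () () = f := by
      ext x
      rfl
    simp only [bn, Matrix.of_apply]
    rw [this]
  rw [h3] at h2
  exact h2.trans h

theorem BXC_bk_sub (h_BK1 : T_BK1) (N : ℕ) (f g : C(S2, ℂ)) :
    bk N (f - g) = bk N f - bk N g := by
  have h1 : f - g = f + (-1 : ℂ) • g := by
    ext x
    simp [sub_eq_add_neg]
  rw [h1, h_BK1.1, h_BK1.2.1]
  simp [sub_eq_add_neg]

theorem BXC_bk_cont (h_BK1 : T_BK1) (N : ℕ) (i j : Fin (N + 1)) :
    Continuous fun f : C(S2, ℂ) => bk N f i j := by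
  have hL : LipschitzWith 1 fun f : C(S2, ℂ) => bk N f i j := by
    refine LipschitzWith.of_dist_le_mul fun f g => ?_
    rw [dist_eq_norm, dist_eq_norm]
    have := BXC_bk_le h_BK1 N (f - g) i j
    rw [BXC_bk_sub h_BK1] at this
    simpa using this
  exact hL.continuous

theorem BXC_sl_cont {Y : Type} [TopologicalSpace Y] (F : C(Y × S2, ℂ)) :
    Continuous fun y => sl F y := by
  have h : (fun y => sl F y) = fun y => F.curry y := by
    funext y
    ext m
    rfl
  rw [h]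
  exact F.curry.continuous

theorem BXC_cont (h_BK1 : T_BK1) {Y n : Type} [TopologicalSpace Y] [Fintype n] (N : ℕ)
    (M : C(Y × S2, Matrix n n ℂ)) : Continuous fun y => bn N (sl M y) := by
  refine continuous_matrix fun a c => ?_
  have h : (fun y => bn N (sl M y) a c) = fun y => bk N (sl (ent M a.2 c.2) y) a.1 c.1 := by
    funext y
    simp only [bn, Matrix.of_apply]
    rfl
  rw [h]
  exact (BXC_bk_cont h_BK1 N a.1 c.1).comp (BXC_sl_cont (ent M a.2 c.2))

theorem BXC_bn_sub (h_BK1 : T_BK1) {n : Type} [Fintype n] (N : ℕ) (M M' : C(S2, Matrix n n ℂ)) :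
    bn N (M - M') = bn N M - bn N M' := by
  ext a c
  have h : ent (M - M') a.2 c.2 = ent M a.2 c.2 - ent M' a.2 c.2 := by
    ext x
    rfl
  simp only [bn, Matrix.of_apply, Matrix.sub_apply]
  rw [h, BXC_bk_sub h_BK1]
  rfl

theorem p_BXC (h_BK1 : T_BK1) : T_BXC := by
  intro Y n _ _ N M
  have hv : ∀ (M : C(Y × S2, Matrix n n ℂ)) (y : Y), bx N M y = bn N (sl M y) := by
    intro M y
    have h := BXC_cont h_BK1 N M
    simp only [bx, mkC, dif_pos h]
    rfl
  refine ⟨hv M, fun M' ε hε hp y => ?_⟩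
  rw [hv M, hv M', ← BXC_bn_sub h_BK1]
  exact (h_BK1.2.2.2.2 N n (sl M y - sl M' y)).1 ε hε fun x => hp (y, x)

end Pool.Agent.FPS
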