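import Pool.Agent.FPS.Targets6
import Pool.Agent.FPS.P_AMP

set_option autoImplicit false

/-!
# FPS: EDF, facts on eta
-/

open scoped Classical
open MeasureTheory Pool.Agent.FPZ

noncomputable section

namespace Pool.Agent.FPS

namespace EDF_

section basic

variable {D S : Type} [Fintype S] [CStarAlgebra D]

theorem sum_mul_r {r : S → D} (hr : ∀ s, IsStarProjection (r s))
    (ho : ∀ s s', s ≠ s' → r s * r s' = 0) (c : S → ℂ) (s : S) :
    (∑ t, c t • r t) * r s = c s • r s := by
  rw [Finset.sum_mul, Finset.sum_eq_single s]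
  · rw [smul_mul_assoc, (show r s * r s = r s from (hr s).isIdempotentElem)]
  · intro t _ ht
    rw [smul_mul_assoc, ho t s ht, smul_zero]
  · intro h
    exact absurd (Finset.mem_univ s) h

theorem sum_mul_sum {r : S → D} (hr : ∀ s, IsStarProjection (r s))
    (ho : ∀ s s', s ≠ s' → r s * r s' = 0) (c d : S → ℂ) :
    (∑ t, c t • r t) * (∑ t, d t • r t) = ∑ t, (c t * d t) • r t := by
  rw [Finset.mul_sum]
  refine Finset.sum_congr rfl fun s _ => ?_
  rw [mul_smul_comm, sum_mul_r hr ho, smul_smul, mul_comm]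

theorem sum_proj {r : S → D} (hr : ∀ s, IsStarProjection (r s))
    (ho : ∀ s s', s ≠ s' → r s * r s' = 0) :
    (∑ t, r t) * (∑ t, r t) = ∑ t, r t ∧ star (∑ t, r t) = ∑ t, r t := by
  constructor
  · have h := sum_mul_sum hr ho (fun _ => 1) (fun _ => 1)
    simpa using h
  · rw [star_sum]
    exact Finset.sum_congr rfl fun s _ => (hr s).isSelfAdjoint

omit [Fintype S] in
theorem pos_sum (h_PSM : T_PSM) (s : Finset S) (a : S → D) (h : ∀ t, Pos (a t)) :
    Pos (∑ t ∈ s, a t) := by
  induction s using Finset.induction_on with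
  | empty => exact ⟨0, by simp⟩
  | insert x s hx ih =>
    rw [Finset.sum_insert hx]
    exact (h_PSM D).1 _ _ (h x) ih

end basic

end EDF_

open EDF_ in
/-- Facts on eta. -/
theorem p_EDF (h_AMP : T_AMP) (h_PSM : T_PSM) : T_EDF := by
  intro K D S _ _ _ _ _ ι₁ k₀ k γ E₁ v r' z η hE
  have hv := hE.piv
  have hpre := hE.pre
  set V : D := ∑ a, v a * star (v a) with hV
  have hVQ : V = AMP_.Q v := rfl
  have hVp : IsStarProjection V := AMP_.Q_proj hpre hv
  have hVV : V * V = V := hVp.isIdempotentElem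
  have hVs : star V = V := hVp.isSelfAdjoint
  set W : C(K, ℂ) → D := fun f => AMP_.W v (fun g => ι₁ g) (ent (γ f)) with hW
  have hVW : ∀ f, V * W f = W f := fun f => AMP_.Q_W hpre hv _ _
  have hWV : ∀ f, W f * V = W f := fun f => AMP_.W_Q hpre hv _ _
  have hrV : ∀ s, r' s * V = 0 := by
    intro s
    rw [hV, Finset.mul_sum]
    refine Finset.sum_eq_zero fun a _ => ?_
    rw [← mul_assoc, hE.orv s a, zero_mul]
  have hVr : ∀ s, V * r' s = 0 := by
    intro s
    have h := congrArg star (hrV s)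
    rwa [star_mul, hVs, (show star (r' s) = r' s from (hE.prr s).isSelfAdjoint), star_zero] at h
  obtain ⟨hRR, hRs⟩ := sum_proj hE.prr hE.orr
  set R : D := ∑ s, r' s with hR
  have hVR : V * R = 0 := by
    rw [hR, Finset.mul_sum]
    exact Finset.sum_eq_zero fun s _ => hVr s
  have hRV : R * V = 0 := by
    rw [hR, Finset.sum_mul]
    exact Finset.sum_eq_zero fun s _ => hrV s
  have hrR : ∀ s, r' s * R = r' s := by
    intro s
    rw [hR, Finset.mul_sum, Finset.sum_eq_single s]
    · exact (hE.prr s).isIdempotentElem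
    · intro t _ ht
      exact hE.orr s t (Ne.symm ht)
    · intro h
      exact absurd (Finset.mem_univ s) h
  set P : D := 1 - V - R with hP
  have hPp : IsStarProjection P := by
    constructor
    · show P * P = P
      rw [hP]
      have e : (1 - V - R) * (1 - V - R) =
          1 - V - R - V + V * V + V * R - R + R * V + R * R := by noncomm_ring
      rw [e, hVV, hVR, hRV, hRR]
      noncomm_ring
    · show star P = P
      rw [hP, star_sub, star_sub, star_one, hVs, hRs]
  have hVP : V * P = 0 := by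
    rw [hP, mul_sub, mul_sub, mul_one, hVV, hVR, sub_self, sub_zero]
  have hPV : P * V = 0 := by
    rw [hP, sub_mul, sub_mul, one_mul, hVV, hRV, sub_self, sub_zero]
  have hrP : ∀ s, r' s * P = 0 := by
    intro s
    rw [hP, mul_sub, mul_sub, mul_one, hrV, hrR, sub_zero, sub_self]
  have hPr : ∀ s, P * r' s = 0 := by
    intro s
    have h := congrArg star (hrP s)
    rwa [star_mul, (show star P = P from hPp.isSelfAdjoint),
      (show star (r' s) = r' s from (hE.prr s).isSelfAdjoint), star_zero] at h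
  have hamp : ∀ f, amp k₀ v (fun g => ι₁ g) γ f = W f + f k₀ • (1 - V) := fun f => rfl
  have heta : ∀ f, η f = W f + (∑ s, f (z s) • r' s) + f k₀ • P := by
    intro f
    rw [hE.eta f, hamp]
    simp only [sub_smul, Finset.sum_sub_distrib]
    rw [← Finset.smul_sum, hP, ← hR]
    simp only [smul_sub]
    abel
  have hVsum : ∀ c : S → ℂ, V * ∑ s, c s • r' s = 0 := by
    intro c
    rw [Finset.mul_sum]
    exact Finset.sum_eq_zero fun s _ => by rw [mul_smul_comm, hVr, smul_zero]
  have hsumV : ∀ c : S → ℂ, (∑ s, c s • r' s) * V = 0 := by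
    intro c
    rw [Finset.sum_mul]
    exact Finset.sum_eq_zero fun s _ => by rw [smul_mul_assoc, hrV, smul_zero]
  have hPsum : ∀ c : S → ℂ, P * ∑ s, c s • r' s = 0 := by
    intro c
    rw [Finset.mul_sum]
    exact Finset.sum_eq_zero fun s _ => by rw [mul_smul_comm, hPr, smul_zero]
  have hsumP : ∀ c : S → ℂ, (∑ s, c s • r' s) * P = 0 := by
    intro c
    rw [Finset.sum_mul]
    exact Finset.sum_eq_zero fun s _ => by rw [smul_mul_assoc, hrP, smul_zero]
  have hVeta : ∀ f, V * η f = W f := by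
    intro f
    rw [heta, mul_add, mul_add, hVW, hVsum, mul_smul_comm, hVP, smul_zero, add_zero, add_zero]
  have hetaV : ∀ f, η f * V = W f := by
    intro f
    rw [heta, add_mul, add_mul, hWV, hsumV, smul_mul_assoc, hPV, smul_zero, add_zero, add_zero]
  have hVeV : ∀ f, V * η f * V = W f := by
    intro f
    rw [hVeta, hWV]
  refine ⟨hVp, fun f => by rw [hVeta, hetaV], fun f => hVeV f, hVr, hPp, hrP,
    fun f => by rw [hVeV]; exact heta f, ?_⟩
  intro H G δγ δ₂ hδγ hδ₂ hγ hG hHG
  obtain ⟨hA, -, -⟩ := h_AMP K S1 (Fin k) D k₀ 1 E₁ v H G δγ δ₂ (fun g => ι₁ g) γ hpre hv hG hγ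
    hδγ hδ₂ hHG
  rw [Fintype.card_fin] at hA
  -- algebra of the blocks
  have hWW : ∀ f, V * amp k₀ v (fun g => ι₁ g) γ f * V = W f := by
    intro f
    rw [hamp, mul_add, hVW, mul_smul_comm, mul_sub, mul_one, hVV, sub_self, smul_zero, add_zero,
      hWV]
  have hN : (1 - V) * (1 - V) = 1 - V := by
    rw [sub_mul, one_mul, mul_sub, mul_one, hVV, sub_self, sub_zero]
  have hWP : ∀ f, W f * P = 0 := fun f => by
    rw [← hWV, mul_assoc, hVP, mul_zero]
  have hPW : ∀ f, P * W f = 0 := fun f => by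
    rw [← hVW, ← mul_assoc, hPV, zero_mul]
  have hWs : ∀ f (c : S → ℂ), W f * ∑ s, c s • r' s = 0 := fun f c => by
    rw [← hWV, mul_assoc, hVsum, mul_zero]
  have hsW : ∀ f (c : S → ℂ), (∑ s, c s • r' s) * W f = 0 := fun f c => by
    rw [← hVW, ← mul_assoc, hsumV, zero_mul]
  have hWN : ∀ f, W f * (1 - V) = 0 := fun f => by rw [mul_sub, mul_one, hWV, sub_self]
  have hNW : ∀ f, (1 - V) * W f = 0 := fun f => by rw [sub_mul, one_mul, hVW, sub_self]
  have hPP : P * P = P := hPp.isIdempotentElem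
  have hdef : ∀ f g, η (f * g) - η f * η g = amp k₀ v (fun g => ι₁ g) γ (f * g) -
      amp k₀ v (fun g => ι₁ g) γ f * amp k₀ v (fun g => ι₁ g) γ g := by
    intro f g
    rw [hamp, hamp, hamp, heta, heta, heta]
    have e1 : (W f + (∑ s, f (z s) • r' s) + f k₀ • P) *
        (W g + (∑ s, g (z s) • r' s) + g k₀ • P) =
        W f * W g + (∑ s, (f (z s) * g (z s)) • r' s) + (f k₀ * g k₀) • P := by
      rw [← sum_mul_sum hE.prr hE.orr]
      simp only [add_mul, mul_add, smul_mul_assoc, mul_smul_comm, hWs, hsW, hWP, hPW, hPsum,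
        hsumP, hPP, smul_zero, add_zero, zero_add, smul_smul]
      rw [mul_comm (g k₀) (f k₀)]
    have e2 : (W f + f k₀ • (1 - V)) * (W g + g k₀ • (1 - V)) =
        W f * W g + (f k₀ * g k₀) • (1 - V) := by
      simp only [add_mul, mul_add, smul_mul_assoc, mul_smul_comm, hWN, hNW, hN, smul_zero,
        add_zero, zero_add, smul_smul]
      rw [mul_comm (g k₀) (f k₀)]
    rw [e1, e2]
    simp only [ContinuousMap.mul_apply]
    abel
  refine ⟨?_, ?_, ?_, ?_, ?_, ?_⟩
  · intro f g
    rw [hE.eta, hE.eta, hE.eta, hA.add]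
    simp only [ContinuousMap.add_apply, add_sub_add_comm, add_smul, Finset.sum_add_distrib]
    abel
  · intro c f
    rw [hE.eta, hE.eta, hA.smul]
    simp only [ContinuousMap.smul_apply, smul_eq_mul, ← mul_sub, smul_add, Finset.smul_sum,
      smul_smul]
  · rw [hE.eta, hA.one]
    simp
  · intro f
    rw [hE.eta, hE.eta, hA.str, star_add, star_sum]
    congr 1
    refine Finset.sum_congr rfl fun s _ => ?_
    rw [star_smul, (show star (r' s) = r' s from (hE.prr s).isSelfAdjoint), star_sub]
    rfl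
  · intro f
    rw [heta]
    refine (h_PSM D).1 _ _ ((h_PSM D).1 _ _ ?_ ?_) ?_
    · have h := (h_PSM D).2.2.1 _ V (hA.pos f)
      rw [hVs, hWW] at h
      exact h
    · refine pos_sum h_PSM _ _ fun s => ⟨f (z s) • r' s, ?_⟩
      rw [star_smul, smul_mul_smul_comm, (show star (r' s) = r' s from (hE.prr s).isSelfAdjoint),
        (show r' s * r' s = r' s from (hE.prr s).isIdempotentElem)]
      rfl
    · refine ⟨f k₀ • P, ?_⟩
      rw [star_smul, smul_mul_smul_comm, (show star P = P from hPp.isSelfAdjoint), hPP]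
      rfl
  · intro f hf g hg
    rw [hdef]
    exact hA.mul f hf g hg

end Pool.Agent.FPS
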