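import Pool.Agent.FPS.Targets7

set_option autoImplicit false

/-!
# FPS: HMO, homeomorphic spaces (helper27)
-/

open scoped Classical
open MeasureTheory Pool.Agent.FPZ

noncomputable section

namespace Pool.Agent.FPS

/-- HMO: homeomorphic spaces -/
theorem p_HMO : T_HMO := by
  intro Z Z' A _ _ _ _ _ _ _ _ _ e μ t φ ι κ h
  set ι' : C(Z', ℂ) →⋆ₐ[ℂ] A := ι.comp ((e : C(Z, Z')).compStarAlgHom' ℂ ℂ) with hι
  have hval : ∀ g : C(Z', ℂ), ι' g = ι (g.comp (e : C(Z, Z'))) := fun g => rfl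
  have hr : Set.range ι' = Set.range ι := by
    ext a
    constructor
    · rintro ⟨g, rfl⟩
      exact ⟨g.comp (e : C(Z, Z')), rfl⟩
    · rintro ⟨g, rfl⟩
      refine ⟨g.comp (e.symm : C(Z', Z)), ?_⟩
      rw [hval]
      congr 1
      ext z
      simp
  refine ⟨ι', ?_, ?_, ?_, ?_, ?_⟩
  · exact h.ts
  · intro g
    rw [hval, h.valZ, e.measurableEmbedding.integral_map]
    rfl
  · exact h.valP
  · rw [hr]
    exact h.free
  · rw [hr]
    exact h.gen

end Pool.Agent.FPS
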