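import Pool.Agent.FPS.Targets6
import Pool.Agent.FPZ.P_INT

set_option autoImplicit false

/-!
# FPS: OSI, one-sided approximate intertwining
-/

open Filter Topology

noncomputable section

namespace Pool.Agent.FPS

open Pool.Agent.FPZ Pool.Agent.FPZ.INT_

namespace OSI_

variable {A A₁ : Type} [CStarAlgebra A] [CStarAlgebra A₁]

lemma symm_norm (θ : A ≃⋆ₐ[ℂ] A) (x y : A) : ‖x - θ.symm y‖ = ‖θ x - y‖ := by
  rw [← eqv_norm θ (x - θ.symm y), map_sub, StarAlgEquiv.apply_symm_apply]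

/-- The recursively chosen automorphisms and finite sets. -/
lemma seq (d : ℕ → A) (d₁ : ℕ → A₁) (α : A₁ →⋆ₐ[ℂ] A)
    (H : ∀ (E₁ : Finset A₁) (E : Finset A) (ε : ℝ), 0 < ε →
      ∃ θ : A ≃⋆ₐ[ℂ] A, (∀ a ∈ E₁, ‖θ (α a) - α a‖ ≤ ε) ∧ ∀ b ∈ E, ∃ a, ‖θ b - α a‖ ≤ ε) :
    ∃ s : ℕ → (A ≃⋆ₐ[ℂ] A) × Finset A₁, ∀ k,
      (∀ a ∈ (s k).2, ‖(s k).1.symm (α a) - (s (k + 1)).1.symm (α a)‖ ≤ (1 / 2 : ℝ) ^ k) ∧
      (∀ i ≤ k, ∃ a ∈ (s (k + 1)).2, ‖d i - (s (k + 1)).1.symm (α a)‖ ≤ (1 / 2 : ℝ) ^ k) ∧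
      (s k).2 ⊆ (s (k + 1)).2 ∧ ∀ i ≤ k, d₁ i ∈ (s (k + 1)).2 := by
  classical
  refine rec_seq (X := (A ≃⋆ₐ[ℂ] A) × Finset A₁) (StarAlgEquiv.refl ℂ A, ∅)
    (fun k x y => (∀ a ∈ x.2, ‖x.1.symm (α a) - y.1.symm (α a)‖ ≤ (1 / 2 : ℝ) ^ k) ∧
      (∀ i ≤ k, ∃ a ∈ y.2, ‖d i - y.1.symm (α a)‖ ≤ (1 / 2 : ℝ) ^ k) ∧
      x.2 ⊆ y.2 ∧ ∀ i ≤ k, d₁ i ∈ y.2) ?_
  rintro k ⟨ψ, E₁⟩
  have hk : (0 : ℝ) < (1 / 2 : ℝ) ^ k := by positivity
  obtain ⟨θ, h1, h2⟩ := H E₁ ((Finset.range (k + 1)).image fun i => ψ (d i)) _ hk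
  have h3 : ∀ i : ℕ, ∃ a : A₁, i ≤ k → ‖θ (ψ (d i)) - α a‖ ≤ (1 / 2 : ℝ) ^ k := by
    intro i
    by_cases hi : i ≤ k
    · obtain ⟨a, ha⟩ := h2 (ψ (d i)) (Finset.mem_image.mpr
        ⟨i, Finset.mem_range.mpr (by omega), rfl⟩)
      exact ⟨a, fun _ => ha⟩
    · exact ⟨0, fun h => absurd h hi⟩
  choose c hc using h3
  refine ⟨(ψ.trans θ, (E₁ ∪ (Finset.range (k + 1)).image c) ∪ (Finset.range (k + 1)).image d₁),
    ?_, ?_, ?_, ?_⟩
  · intro a ha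
    show ‖ψ.symm (α a) - ψ.symm (θ.symm (α a))‖ ≤ _
    rw [← map_sub, eqv_norm, symm_norm]
    exact h1 a ha
  · intro i hi
    refine ⟨c i, ?_, ?_⟩
    · refine Finset.mem_union_left _ (Finset.mem_union_right _ ?_)
      exact Finset.mem_image_of_mem _ (Finset.mem_range.mpr (by omega))
    · show ‖d i - ψ.symm (θ.symm (α (c i)))‖ ≤ _
      rw [symm_norm, symm_norm]
      exact hc i hi
  · intro a ha
    exact Finset.mem_union_left _ (Finset.mem_union_left _ ha)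
  · intro i hi
    exact Finset.mem_union_right _ (Finset.mem_image_of_mem _ (Finset.mem_range.mpr (by omega)))

end OSI_

open OSI_

theorem p_OSI : T_OSI := by
  classical
  intro A A₁ _ _ d d₁ α hd hd₁ hα H
  obtain ⟨s, hs⟩ := seq d d₁ α H
  choose h1 h2 h3 h4 using hs
  -- monotonicity
  have hmono : ∀ k m, k ≤ m → (s k).2 ⊆ (s m).2 := by
    intro k m hkm
    induction m, hkm using Nat.le_induction with
    | base => exact subset_rfl
    | succ m _ ih => exact ih.trans (h3 m)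
  have hstep : ∀ k m, k ≤ m → ∀ a ∈ (s k).2,
      dist ((s m).1.symm (α a)) ((s (m + 1)).1.symm (α a)) ≤ (1 / 2 : ℝ) ^ m := by
    intro k m hkm a ha
    rw [dist_eq_norm]
    exact h1 m a (hmono k m hkm ha)
  -- the limit
  have hC : ∀ i, CauchySeq (fun k => (((s k).1.symm : A →⋆ₐ[ℂ] A).comp α) (d₁ i)) := by
    intro i
    apply geo _ (i + 1)
    intro k hk
    have a1 := hstep (i + 1) k hk (d₁ i) (h4 i i le_rfl)
    have a2 : (0 : ℝ) ≤ (1 / 2 : ℝ) ^ k := by positivity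
    have a3 : dist ((((s k).1.symm : A →⋆ₐ[ℂ] A).comp α) (d₁ i))
      ((((s (k + 1)).1.symm : A →⋆ₐ[ℂ] A).comp α) (d₁ i)) ≤ (1 / 2 : ℝ) ^ k := a1
    linarith
  obtain ⟨σ, hσ⟩ := lim (fun k => ((s k).1.symm : A →⋆ₐ[ℂ] A).comp α) d₁ hd₁ hC
  have hσ' : ∀ a, Tendsto (fun k => (s k).1.symm (α a)) atTop (𝓝 (σ a)) := hσ
  have hα' : ∀ a, ‖α a‖ = ‖a‖ := fun a => by
    have h := hα.dist_eq a 0
    rw [map_zero, dist_zero_right, dist_zero_right] at h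
    exact h
  have hnorm : ∀ a, ‖σ a‖ = ‖a‖ := by
    intro a
    have b1 := (hσ' a).norm
    have b2 : (fun k => ‖(s k).1.symm (α a)‖) = fun _ => ‖a‖ := by
      funext k
      rw [eqv_norm, hα']
    rw [b2] at b1
    exact tendsto_nhds_unique b1 tendsto_const_nhds
  have hiso : Isometry σ := by
    apply Isometry.of_dist_eq
    intro x y
    rw [dist_eq_norm, dist_eq_norm, ← map_sub, hnorm]
  -- distance to the limit
  have hlim : ∀ k, ∀ a ∈ (s k).2, dist ((s k).1.symm (α a)) (σ a) ≤ 2 * (1 / 2 : ℝ) ^ k := by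
    intro k a ha
    have b1 : Tendsto (fun n => (s (k + n)).1.symm (α a)) atTop (𝓝 (σ a)) := by
      have := (hσ' a).comp (tendsto_add_atTop_nat k)
      refine this.congr fun n => ?_
      simp only [Function.comp]
      rw [Nat.add_comm n k]
    have b2 := dist_le_of_le_geometric_of_tendsto₀ (1 / 2 : ℝ) ((1 / 2 : ℝ) ^ k) (by norm_num)
      (f := fun n => (s (k + n)).1.symm (α a)) (fun n => by
        have := hstep k (k + n) (by omega) a ha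
        rw [← pow_add]
        exact this) b1
    have b3 : (1 / 2 : ℝ) ^ k / (1 - 1 / 2) = 2 * (1 / 2 : ℝ) ^ k := by ring
    rw [b3] at b2
    exact b2
  have hcl : IsClosed (Set.range σ) := hiso.isClosedEmbedding.isClosed_range
  have hmem : ∀ i, d i ∈ Set.range σ := by
    intro i
    rw [← hcl.closure_eq, Metric.mem_closure_iff]
    intro ε hε
    obtain ⟨n, hn⟩ := exists_pow_lt_of_lt_one (show (0 : ℝ) < ε / 4 by positivity)
      (show (1 / 2 : ℝ) < 1 by norm_num)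
    have hp : (1 / 2 : ℝ) ^ (max n i) ≤ (1 / 2 : ℝ) ^ n :=
      pow_le_pow_of_le_one (by norm_num) (by norm_num) (le_max_left _ _)
    obtain ⟨a, ha, hda⟩ := h2 (max n i) i (le_max_right _ _)
    refine ⟨σ a, ⟨a, rfl⟩, ?_⟩
    have c1 := hlim (max n i + 1) a ha
    have c2 := dist_triangle (d i) ((s (max n i + 1)).1.symm (α a)) (σ a)
    rw [← dist_eq_norm] at hda
    have c3 : 2 * (1 / 2 : ℝ) ^ (max n i + 1) = (1 / 2 : ℝ) ^ (max n i) := by
      rw [pow_succ]; ring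
    rw [c3] at c1
    linarith
  have hsurj : Function.Surjective σ := by
    intro b
    have : b ∈ closure (Set.range d) := hd b
    exact hcl.closure_subset_iff.mpr (Set.range_subset_iff.mpr hmem) this
  exact ⟨StarAlgEquiv.ofBijective σ ⟨hiso.injective, hsurj⟩⟩

end Pool.Agent.FPS
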