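import Pool.Agent.FPS.Targets2

set_option autoImplicit false

/-!
# FPS: REV, chains can be reversed and extended
-/

open scoped Classical
open MeasureTheory Pool.Agent.FPZ

noncomputable section

namespace Pool.Agent.FPS

theorem p_REV : T_REV := by
  intro K A _ _ _ φ k₀ H δ F ε c m E L E' L' hε hC
  obtain ⟨C, Γ, a, b, hCp, hCc, hA, hS, ha, hb, hE, hE', h0, hm⟩ := hC
  refine ⟨?_, ?_⟩
  · refine ⟨C, fun i => Γ (m - i), b, a, hCp, hCc, fun i hi => hA (m - i) (by omega), ?_, hb, ha,
      hE', hE, ?_, ?_⟩
    · intro i hi f hf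
      have h1 := hS (m - (i + 1)) (by omega) f hf
      have h2 : m - (i + 1) + 1 = m - i := by omega
      rw [h2, norm_sub_rev] at h1
      exact h1
    · intro f
      have h1 : m - 0 = m := by omega
      show Γ (m - 0) f = _
      rw [h1]
      exact hm f
    · intro f
      have h1 : m - m = 0 := by omega
      show Γ (m - m) f = _
      rw [h1]
      exact h0 f
  · intro c' m' hc hm'
    refine ⟨C, fun i => Γ (min i m), a, b, hCp, lt_of_lt_of_le hCc hc,
      fun i hi => hA (min i m) (min_le_right _ _), ?_, ha, hb, hE, hE', ?_, ?_⟩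
    · intro i hi f hf
      show ‖Γ (min i m) f - Γ (min (i + 1) m) f‖ ≤ ε
      rcases lt_or_ge i m with h | h
      · rw [min_eq_left h.le, min_eq_left (by omega : i + 1 ≤ m)]
        exact hS i h f hf
      · rw [min_eq_right h, min_eq_right (by omega : m ≤ i + 1), sub_self, norm_zero]
        exact hε
    · intro f
      show Γ (min 0 m) f = _
      rw [min_eq_left (Nat.zero_le m)]
      exact h0 f
    · intro f
      show Γ (min m' m) f = _
      rw [min_eq_right hm']
      exact hm f

end Pool.Agent.FPS
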