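import Pool.Agent.FPS.Targets6
import Pool.Agent.FPZ.Targets3

set_option autoImplicit false

/-!
# FPS: the general theorem (THX)
-/

open scoped Classical
open MeasureTheory Pool.Agent.FPZ

noncomputable section

namespace Pool.Agent.FPS

namespace THX_

theorem cal_le {A : Type} [CStarAlgebra A] (T : Set A) (D : StarSubalgebra ℂ A)
    (hD : IsClosed (D : Set A)) (h : T ⊆ (D : Set A)) : cal T ≤ D :=
  StarSubalgebra.topologicalClosure_minimal (StarAlgebra.adjoin_le h) hD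

theorem sub_cal {A : Type} [CStarAlgebra A] (T : Set A) : T ⊆ (cal T : Set A) :=
  fun _ hx => (StarSubalgebra.le_topologicalClosure _) (StarAlgebra.subset_adjoin ℂ T hx)

theorem hom_cont {A B : Type} [CStarAlgebra A] [CStarAlgebra B] (σ : A →⋆ₐ[ℂ] B) :
    Continuous σ :=
  AddMonoidHomClass.continuous_of_bound σ 1
    (fun g => by simpa using NonUnitalStarAlgHom.norm_apply_le σ g)

theorem map_cal {A B : Type} [CStarAlgebra A] [CStarAlgebra B] (σ : A →⋆ₐ[ℂ] B) (T : Set A)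
    (D : StarSubalgebra ℂ B) (hD : IsClosed (D : Set B)) (h : ∀ a ∈ T, σ a ∈ D) {a : A}
    (ha : a ∈ cal T) : σ a ∈ D := by
  have h1 : cal T ≤ D.comap σ := by
    refine cal_le T _ ?_ ?_
    · have : ((D.comap σ : StarSubalgebra ℂ A) : Set A) = σ ⁻¹' (D : Set B) := rfl
      rw [this]
      exact hD.preimage (hom_cont σ)
    · intro b hb
      exact h b hb
  exact h1 ha

/-- The small generating set. -/
theorem gen_small (hIDZ : cal ({idz} : Set C(S1, ℂ)) = ⊤) {A₁ : Type} [CStarAlgebra A₁]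
    (ι₁ : C(S1, ℂ) →⋆ₐ[ℂ] A₁) (q₁ : ℕ → ℂ × ℂ →⋆ₐ[ℂ] A₁)
    (hgen : cal (Set.range ι₁ ∪ ⋃ i, Set.range (q₁ i)) = ⊤) :
    cal ({ι₁ idz} ∪ ⋃ i, Set.range (q₁ i)) = ⊤ := by
  rw [eq_top_iff, ← hgen]
  refine cal_le _ _ (cal_closed _) ?_
  rintro a (⟨g, rfl⟩ | ha)
  · refine map_cal ι₁ {idz} _ (cal_closed _) ?_ (by rw [hIDZ]; exact StarSubalgebra.mem_top)
    rintro b rfl
    exact sub_cal _ (Or.inl rfl)
  · exact sub_cal _ (Or.inr ha)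

theorem fin_idx {A : Type} [CStarAlgebra A] (q : ℕ → ℂ × ℂ →⋆ₐ[ℂ] A) (T₀ : Finset A) :
    ∃ n : ℕ, ∀ b ∈ T₀, b ∈ (⋃ i, Set.range (q i)) → ∃ i < n, b ∈ Set.range (q i) := by
  have h1 : ∀ b : A, ∃ i : ℕ, b ∈ (⋃ i, Set.range (q i)) → b ∈ Set.range (q i) := by
    intro b
    by_cases hb : b ∈ (⋃ i, Set.range (q i))
    · obtain ⟨i, hi⟩ := Set.mem_iUnion.1 hb
      exact ⟨i, fun _ => hi⟩
    · exact ⟨0, fun h => absurd h hb⟩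
  choose I hI using h1
  refine ⟨T₀.sup I + 1, fun b hb hr => ⟨I b, ?_, hI b hr⟩⟩
  exact Nat.lt_succ_of_le (Finset.le_sup hb)

theorem fin_fun {K A : Type} [TopologicalSpace K] [CompactSpace K] [CStarAlgebra A]
    (ι : C(K, ℂ) →⋆ₐ[ℂ] A) (T₀ : Finset A) :
    ∃ F : Finset C(K, ℂ), ∀ b ∈ T₀, b ∈ Set.range ι → ∃ g ∈ F, ι g = b := by
  have h1 : ∀ b : A, ∃ g : C(K, ℂ), b ∈ Set.range ι → ι g = b := by
    intro b
    by_cases hb : b ∈ Set.range ι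
    · obtain ⟨g, hg⟩ := hb
      exact ⟨g, fun _ => hg⟩
    · exact ⟨0, fun h => absurd h hb⟩
  choose G hG using h1
  exact ⟨T₀.image G, fun b hb hr => ⟨G b, Finset.mem_image_of_mem G hb, hG b hr⟩⟩

end THX_

open THX_ in
theorem p_THX (h_EMB : T_EMB) (h_STP : T_STP) (h_OSI : T_OSI) (h_APE : T_APE) (h_APD : T_APD)
    (h_IDZ : T_IDZ) (h_SEP : T_SEP) : T_THX := by
  intro K A A₁ _ _ _ _ _ _ _ μ _ _ ν _ _ t φ ι q φ₁ ι₁ q₁ c k₀ r κ O hFS hFS₁ hirr hKP hHE hr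
    hhom hO hc hμ hν
  obtain ⟨e₀, s, α, hEB⟩ := h_EMB K A A₁ μ ν t φ ι q φ₁ ι₁ q₁ c k₀ r κ O hFS hFS₁ hirr hKP hO hc
    hr hμ hν
  obtain ⟨d, hd⟩ := h_SEP K A ι q hFS.gen
  obtain ⟨d₁, hd₁⟩ := h_SEP S1 A₁ ι₁ q₁ hFS₁.gen
  refine h_OSI A A₁ d d₁ α hd hd₁ hEB.iso ?_
  intro E₁ E ε hε
  obtain ⟨T₁, δ₁, hT₁, hδ₁, h1⟩ := h_APE A₁ _ (gen_small h_IDZ.1 ι₁ q₁ hFS₁.gen) E₁ ε hε
  obtain ⟨T₀, δ, hT₀, hδ, h0⟩ := h_APD A (Set.range ι ∪ ⋃ i, Set.range (q i)) E ε hε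
    (fun a _ => by rw [hFS.gen]; exact StarSubalgebra.mem_top)
  obtain ⟨F, hF⟩ := fin_fun ι T₀
  obtain ⟨n, hn⟩ := fin_idx q T₀
  obtain ⟨n₁, hn₁⟩ := fin_idx q₁ T₁
  obtain ⟨θ, hθ1, hθ2, hθ3, hθ4⟩ := h_STP K A A₁ μ ν t φ ι q φ₁ ι₁ q₁ c k₀ r κ e₀ s α F
    (min δ₁ δ) n n₁ hFS hFS₁ hirr hKP hHE hr hhom hEB (lt_min hδ₁ hδ)
  refine ⟨θ, ?_, ?_⟩
  · intro a ha
    have h2 := h1 A ((θ : A →⋆ₐ[ℂ] A).comp α) α ?_ a ha
    · simpa using h2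
    · intro b hb
      have happ : ((θ : A →⋆ₐ[ℂ] A).comp α) b = θ (α b) := rfl
      rw [happ]
      rcases hT₁ hb with h3 | h3
      · have h4 : b = ι₁ idz := h3
        rw [h4]
        exact hθ1.trans (min_le_left _ _)
      · obtain ⟨i, hi, x, rfl⟩ := hn₁ b hb h3
        rw [hθ2 i hi, sub_self, norm_zero]
        exact hδ₁.le
  · intro b hb
    have h6 : ∀ b ∈ T₀, ∃ d ∈ α.range, ‖(θ : A →⋆ₐ[ℂ] A) b - d‖ ≤ δ := by
      intro b' hb'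
      rcases hT₀ hb' with h3 | h3
      · obtain ⟨g, hg, rfl⟩ := hF b' hb' h3
        obtain ⟨a, ha⟩ := hθ3 g hg
        exact ⟨α a, ⟨a, rfl⟩, ha.trans (min_le_right _ _)⟩
      · obtain ⟨i, hi, x, rfl⟩ := hn b' hb' h3
        obtain ⟨a, ha⟩ := hθ4 i hi x
        refine ⟨α a, ⟨a, rfl⟩, ?_⟩
        have happ : (θ : A →⋆ₐ[ℂ] A) (q i x) = θ (q i x) := rfl
        rw [happ, ha, sub_self, norm_zero]
        exact hδ.le
    obtain ⟨d', hd', h5⟩ := h0 A (θ : A →⋆ₐ[ℂ] A) α.range h6 b hb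
    obtain ⟨a, rfl⟩ := hd'
    exact ⟨a, h5⟩

end Pool.Agent.FPS
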