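import Pool.Agent.FPS.Targets6
import Pool.Agent.FPZ.Targets5

set_option autoImplicit false

/-!
# FPS targets 7: the three-sphere and the circle, the final theorem

Every target has its complete proof in the docstring.
-/

open scoped Classical unitInterval
open MeasureTheory Pool.Agent.FPZ

noncomputable section

namespace Pool.Agent.FPS

/-- The three-sphere in `ℝ⁴`. -/
abbrev S3 : Type := Metric.sphere (0 : EuclideanSpace ℝ (Fin 4)) 1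

/-- The normalised surface measure of the three-sphere. -/
def nS : Measure S3 := ((volume : Measure (EuclideanSpace ℝ (Fin 4))).toSphere Set.univ)⁻¹ • (volume : Measure (EuclideanSpace ℝ (Fin 4))).toSphere

/-- The measure `½ δ₁ + ½ arc length` on the circle. -/
def nu1 : Measure S1 := (2⁻¹ : ENNReal) • Measure.dirac 1 + (2⁻¹ : ENNReal) • nHX S1

/-- EXA. Existence of the algebra over `(S¹, ν)` (uses T_RSJ, T_RSB, T_RIC, T_EMX, T_OMG, q_FRG, q_ASC). PROOF. As in T_EMB one gets `ω : C(S1) → A` with values in `GA ι q {even}` such that the family `range ω, range (q (2 i + 1))` is free and `φ (ω g) = ∫ g dν`. `A₁ = cal (range ω ∪ ⋃ range (q (2 i + 1)))` as a C*-algebra with the restrictions. -/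
def T_EXA : Prop := ∀ (K A : Type) [MetricSpace K] [CompactSpace K] [MeasurableSpace K] [BorelSpace K] [CStarAlgebra A] (μ : Measure K) [IsProbabilityMeasure μ] (ν : Measure S1) (t : ℝ) (φ : A →L[ℂ] ℂ) (ι : C(K, ℂ) →⋆ₐ[ℂ] A) (q : ℕ → ℂ × ℂ →⋆ₐ[ℂ] A)
  (c : C(K, K)) (k₀ : K) (r : ℕ) (κ : C(S1, ℂ) → C(K, Matrix (Fin r) (Fin r) ℂ)) (O : Set K), FS μ t φ ι q → Irrational t → KP k₀ κ → IsOpen O → (∀ x ∈ O, c x = k₀) →
  0 < r → 1 - 1 / (r : ℝ) < (μ O).toReal → (∀ g : C(S1, ℂ), ∫ x, g x ∂ν = (∫ x, ∑ i, κ g (c x) i i ∂μ) + (1 - (r : ℂ)) * g 1) →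
  ∃ (A₁ : Type) (_ : CStarAlgebra A₁) (φ₁ : A₁ →L[ℂ] ℂ) (ι₁ : C(S1, ℂ) →⋆ₐ[ℂ] A₁) (q₁ : ℕ → ℂ × ℂ →⋆ₐ[ℂ] A₁), FS ν t φ₁ ι₁ q₁

/-- NU1. The measure `nu1` (uses q_SPC, q_NHI, q_CIR). PROOF. `nHX S1 = nH (sphere)` is an open positive probability measure (T_SPC, T_NHI); `∫ g d nHX = ∫_0^1 g (cpt s) ds` (T_CIR). -/
def T_NU1 : Prop := IsProbabilityMeasure nu1 ∧ nu1.IsOpenPosMeasure ∧ (∀ g : C(S1, ℂ), ∫ x, g x ∂nu1 = (1 / 2) * g 1 + (1 / 2) * ∫ x, g x ∂(nHX S1)) ∧ ∀ g : C(S1, ℂ), ∫ x, g x ∂(nHX S1) = ∫ s in (0 : ℝ)..1, g (cpt s)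

/-- NS3. The surface measure. PROOF. `Measure.toSphere_apply'`: `μ.toSphere s = 4 * μ (Ioo 0 1 • s)`. Finite and nonzero: `Ioo 0 1 • univ` is the punctured open ball. Open sets: `Ioo 0 1 • s` is open and nonempty. Level sets: the cone over `{x | x 3 = a}` is in `{x : ℝ⁴ | x 3 ^ 2 (1 - a²) = a² (x 0 ^ 2 + x 1 ^ 2 + x 2 ^ 2)}`: for `a² ≠ 1` each line parallel to the last axis meets it in
at most two points (Fubini), for `a² = 1` it is in the hyperplane `x 0 = 0`. -/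
def T_NS3 : Prop := IsProbabilityMeasure nS ∧ nS.IsOpenPosMeasure ∧ ∀ a : ℝ, nS {x : S3 | (x : EuclideanSpace ℝ (Fin 4)) 3 = a} = 0

/-- EM3. The model. PROOF. `x ↦ ((x 0, x 1, x 2), x 3)`. `M3` is connected: `S3` is (`isPreconnected_sphere`, dimension `> 1`). -/
def T_EM3 : Prop := ConnectedSpace M3 ∧ ∃ e : S3 ≃ₜ M3, ∀ x : S3, (e x).1.2 = (x : EuclideanSpace ℝ (Fin 4)) 3

/-- HMO. Homeomorphic spaces. PROOF. `ι' g = ι (g.comp e)`, `range ι' = range ι`, `integral_map`. -/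
def T_HMO : Prop := ∀ (Z Z' A : Type) [TopologicalSpace Z] [CompactSpace Z] [MeasurableSpace Z] [BorelSpace Z] [TopologicalSpace Z'] [CompactSpace Z'] [MeasurableSpace Z'] [BorelSpace Z'] [CStarAlgebra A] (e : Z ≃ₜ Z') (μ : Measure Z) (t : ℝ)
  (φ : A →L[ℂ] ℂ) (ι : C(Z, ℂ) →⋆ₐ[ℂ] A) (κ : ℕ → ℂ × ℂ →⋆ₐ[ℂ] A), FS μ t φ ι κ → ∃ ι' : C(Z', ℂ) →⋆ₐ[ℂ] A, FS (Measure.map e μ) t φ ι' κ

/-- PIT. Probability integral transform. PROOF. `G a = μ {x | a ≤ h x}` is antitone, continuous (no atoms), `0` for large `a`, `1` for small `a`. For `y ∈ (0, 1)` the set `{a | G a ≤ y}` is `[a_y, ∞)` with `G a_y = y`, so `μ {x | G (h x) ≤ y} = μ {x | a_y ≤ h x} = y`: the image of `μ` under `G ∘ h` is Lebesgue measure on `[0,1]`. -/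
def T_PIT : Prop := ∀ (K : Type) [TopologicalSpace K] [CompactSpace K] [MeasurableSpace K] [BorelSpace K] (μ : Measure K) [IsProbabilityMeasure μ] (h : C(K, ℝ)), (∀ a : ℝ, μ {x | h x = a} = 0) →
  ∃ G : C(ℝ, ℝ), (∀ a, G a = (μ {x | a ≤ h x}).toReal) ∧ (∀ y : ℝ, 0 ≤ y → y ≤ 1 → (μ {x | G (h x) < y}).toReal = y) ∧ ∀ f : C(ℝ, ℂ), ∫ x, f (G (h x)) ∂μ = ∫ y in (0 : ℝ)..1, f y

/-- CM3. The collapse of the three-sphere (uses T_PIT, T_KAV, T_NU1). PROOF. `G` from T_PIT for `h x = x.1.2`; `G 1 = 0` (a level set), `G (-1) = 1`. `R a = π max 0 (4 G a - 3)`, continuous, `R 1 = 0`, `R (-1) = π`. `c x = m3 (sin (R h) • un w) (cos (R h))`, continuous (at the poles `sin (R h) → 0`). `O = {x | G h < 3/4}` is open, `c = k3` on `O`, `μ O = 3/4 > 1/2`.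
Homotopy: replace `R h` by `(1 - s) arccos h + s R h` (`‖w‖ = sin (arccos h)`, so `s = 0` is the identity). Formula: the trace of `kap g` at `(sin ρ • un w, cos ρ)`, `0 ≤ ρ ≤ π`, is `g (e^{iρ}) + g (e^{-iρ})` (`tr (pp v) = tr (pm v) = 1`); by T_PIT the integral is `∫_0^1 (g (e^{iπ max 0 (4y-3)}) + g (e^{-iπ max 0 (4y-3)})) dy - g 1`
`= (1/2) g 1 + (1/4) ∫_0^1 (g (e^{iπt}) + g (e^{-iπt})) dt = (1/2) g 1 + (1/2) ∫_0^1 g (cpt s) ds`. -/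
def T_CM3 : Prop := ∀ (μ : Measure M3) [IsProbabilityMeasure μ], (∀ a : ℝ, μ {x : M3 | x.1.2 = a} = 0) → ∃ (c : C(M3, M3)) (O : Set M3), ContinuousMap.Homotopic (ContinuousMap.id M3) c ∧ IsOpen O ∧ (∀ x ∈ O, c x = k3) ∧ 1 / 2 < (μ O).toReal ∧
  ∀ g : C(S1, ℂ), ∫ x, g x ∂nu1 = (∫ x, ∑ i, kap g (c x) i i ∂μ) + (1 - ((2 : ℕ) : ℂ)) * g 1

/-- CM1. The collapse of the circle (uses q_HTC, q_CIR, T_NU1). PROOF. `c (cpt s) = cpt (u s)`, `u s = 0` for `s ≤ 1/4`, `2 s - 1/2` for `1/4 ≤ s ≤ 3/4`, `1` for `s ≥ 3/4` (T_HTC gives `c` and the homotopy). `O = {z | 0 < re z}`; for `re z > 0`, `z = cpt s` with `s < 1/4` or `s > 3/4`; measure `1/2 > 0`. `∫ g (c z) = ∫_0^1 g (cpt (u s)) ds = (1/2) g 1 + (1/2) ∫_0^1 g (cpt t) dt`. -/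
def T_CM1 : Prop := ∃ (c : C(S1, S1)) (O : Set S1), ContinuousMap.Homotopic (ContinuousMap.id S1) c ∧ IsOpen O ∧ (∀ x ∈ O, c x = 1) ∧ 0 < ((nHX S1) O).toReal ∧ ∀ g : C(S1, ℂ), ∫ x, g x ∂nu1 = ∫ x, g (c x) ∂(nHX S1)

/-- FI3. The final theorem (uses q_ZFS, q_SPC, q_NHI, T_THX, T_EXA, T_NU1, T_NS3, T_EM3, T_HMO, T_CM3, T_CM1, T_KAV, T_HES, T_HEC). PROOF. T_ZFS gives FS for `A` over `(S1, nHX S1)` and for `A'` over `(S3, nS)`; T_HMO: over `(M3, map e nS)`. T_CM3, T_EXA (for `A'`): `A₁` over `(S1, nu1)`. T_THX for `M3` (`r = 2`, `κ = kap`): `A₁ ≃ A'`; T_THX for `S1` (`r = 1`, T_HEC, T_CM1): `A₁ ≃ A`. -/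
def T_FI3 : Prop := ∀ (t : ℝ), Irrational t → ∀ (A A' B B' : Type) [CStarAlgebra A] [CStarAlgebra A'] [CStarAlgebra B] [CStarAlgebra B']
  (ψ : B →L[ℂ] ℂ) (κ : ℕ → ℂ × ℂ →⋆ₐ[ℂ] B) (φ : A →L[ℂ] ℂ) (ι : C(S1, ℂ) →⋆ₐ[ℂ] A) (j : B →⋆ₐ[ℂ] A)
  (ψ' : B' →L[ℂ] ℂ) (κ' : ℕ → ℂ × ℂ →⋆ₐ[ℂ] B') (φ' : A' →L[ℂ] ℂ) (ι' : C(S3, ℂ) →⋆ₐ[ℂ] A') (j' : B' →⋆ₐ[ℂ] A'), IsB t ψ κ → IsZB (nHX S1) ψ φ ι j → IsB t ψ' κ' → IsZB nS ψ' φ' ι' j' → Nonempty (A ≃⋆ₐ[ℂ] A')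

end Pool.Agent.FPS
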